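import Pool.Agent.H967.GGC.Basic

set_option autoImplicit false

/-!
# GGC project, leaf A1: contiguous relations (helper808)
-/

namespace Pool.Agent.H967.GGC
open MeasureTheory Filter Topology Set

theorem A1_key (u v w : ℕ → ℝ) (k z : ℝ) (hu : Summable fun n => u n * z ^ n)
    (hv : Summable fun n => v n * z ^ n) (hw : Summable fun n => w n * z ^ n) (h0 : u 0 = v 0)
    (h : ∀ n, u (n + 1) = v (n + 1) - k * w n) :
    ∑' n, u n * z ^ n = ∑' n, v n * z ^ n - k * z * ∑' n, w n * z ^ n := by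
  have hv' := (summable_nat_add_iff 1).2 hv
  have hw' : Summable fun n => k * z * (w n * z ^ n) := hw.mul_left _
  rw [hu.tsum_eq_zero_add, hv.tsum_eq_zero_add, h0, ← tsum_mul_left, add_sub_assoc,
    ← hv'.tsum_sub hw']
  congr 1
  apply tsum_congr
  intro n
  rw [h n, pow_succ]
  ring

theorem A1_b {a b c : ℝ} (hb : 0 < b) (n : ℕ) :
    hc a (b + 1) c n = hc a b c n * ((b + n) / b) := by
  induction n with
  | zero => simp [hc_zero, hb.ne']
  | succ n ih =>
    rw [hc_succ, hc_succ, ih]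
    push_cast
    have h1 : b + (n : ℝ) ≠ 0 := by positivity
    have h2 : b + 1 + (n : ℝ) = b + (n + 1) := by ring
    rw [h2]
    field_simp

theorem A1_abc {a b c : ℝ} (ha : 0 < a) (hb : 0 < b) (hc' : 0 < c) (n : ℕ) :
    hc (a + 1) (b + 1) (c + 1) n = hc a b c n * ((a + n) * (b + n) * c / (a * b * (c + n))) := by
  induction n with
  | zero => simp only [hc_zero, Nat.cast_zero]; field_simp; ring
  | succ n ih =>
    rw [hc_succ, hc_succ, ih]
    push_cast
    have h1 : a + 1 + (n : ℝ) = a + (n + 1) := by ring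
    have h2 : b + 1 + (n : ℝ) = b + (n + 1) := by ring
    have h3 : c + 1 + (n : ℝ) = c + (n + 1) := by ring
    rw [h1, h2, h3]
    have h4 : (c + (n : ℝ)) ≠ 0 := by positivity
    have h5 : (c + ((n : ℝ) + 1)) ≠ 0 := by positivity
    field_simp

theorem A1_bc {a b c : ℝ} (hb : 0 < b) (hc' : 0 < c) (n : ℕ) :
    hc a (b + 1) (c + 1) n = hc a b c n * ((b + n) * c / (b * (c + n))) := by
  induction n with
  | zero => simp only [hc_zero, Nat.cast_zero]; field_simp; ring
  | succ n ih =>
    rw [hc_succ, hc_succ, ih]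
    push_cast
    have h2 : b + 1 + (n : ℝ) = b + (n + 1) := by ring
    have h3 : c + 1 + (n : ℝ) = c + (n + 1) := by ring
    rw [h2, h3]
    have h4 : (c + (n : ℝ)) ≠ 0 := by positivity
    have h5 : (c + ((n : ℝ) + 1)) ≠ 0 := by positivity
    field_simp

theorem A1_ac {a b c : ℝ} (ha : 0 < a) (hc' : 0 < c) (n : ℕ) :
    hc (a + 1) b (c + 1) n = hc a b c n * ((a + n) * c / (a * (c + n))) := by
  rw [hc_comm, A1_bc ha hc', hc_comm]

theorem A1_abcc {a b c : ℝ} (ha : 0 < a) (hb : 0 < b) (hc' : 0 < c) (n : ℕ) :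
    hc (a + 1) (b + 1) (c + 2) n = hc a b c n *
      ((a + n) * (b + n) * c * (c + 1) / (a * b * (c + n) * (c + n + 1))) := by
  induction n with
  | zero => simp only [hc_zero, Nat.cast_zero]; field_simp; ring
  | succ n ih =>
    rw [hc_succ, hc_succ, ih]
    push_cast
    have h1 : a + 1 + (n : ℝ) = a + (n + 1) := by ring
    have h2 : b + 1 + (n : ℝ) = b + (n + 1) := by ring
    have h3 : c + 2 + (n : ℝ) = c + (n + 1) + 1 := by ring
    have h6 : c + (n : ℝ) + 1 = c + (n + 1) := by ring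
    rw [h1, h2, h3, h6]
    have h4 : (c + (n : ℝ)) ≠ 0 := by positivity
    have h5 : (c + ((n : ℝ) + 1)) ≠ 0 := by positivity
    have h7 : (c + ((n : ℝ) + 1) + 1) ≠ 0 := by positivity
    field_simp

/-- A1. Gauss' contiguous relation -/
theorem F_gauss_proof {a b c z : ℝ} (ha : 0 < a) (hb : 0 < b) (hc' : 0 < c) (hz0 : 0 ≤ z)
    (hz : z < 1) :
    F a b c z = F a (b + 1) (c + 1) z
      - a * (c - b) / (c * (c + 1)) * z * F (a + 1) (b + 1) (c + 2) z := by
  have hz' : |z| < 1 := by rwa [abs_of_nonneg hz0]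
  unfold F
  refine A1_key _ _ _ _ _ (summable_hc ha hb hc' hz') (summable_hc ha (by positivity)
    (by positivity) hz') (summable_hc (by positivity) (by positivity) (by positivity) hz') ?_ ?_
  · simp [hc_zero]
  · intro n
    rw [A1_bc hb hc', A1_abcc ha hb hc', hc_succ]
    push_cast
    have h4 : (c + (n : ℝ)) ≠ 0 := by positivity
    have h5 : (c + ((n : ℝ) + 1)) ≠ 0 := by positivity
    have h6 : c + (n : ℝ) + 1 = c + (n + 1) := by ring
    rw [h6]
    field_simp
    ring

/-- A1. Another contiguous relation -/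
theorem F_contig_proof {a b c z : ℝ} (ha : 0 < a) (hb : 0 < b) (hc' : 0 < c) (hz0 : 0 ≤ z)
    (hz : z < 1) :
    F a b c z = F a (b + 1) c z - a / c * z * F (a + 1) (b + 1) (c + 1) z := by
  have hz' : |z| < 1 := by rwa [abs_of_nonneg hz0]
  unfold F
  refine A1_key _ _ _ _ _ (summable_hc ha hb hc' hz') (summable_hc ha (by positivity)
    hc' hz') (summable_hc (by positivity) (by positivity) (by positivity) hz') ?_ ?_
  · simp [hc_zero]
  · intro n
    rw [A1_b hb, A1_abc ha hb hc', hc_succ]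
    push_cast
    have h4 : (c + (n : ℝ)) ≠ 0 := by positivity
    field_simp
    ring

/-- A1. -/
theorem F_shift_le_proof {a b c z : ℝ} (ha : 0 < a) (hb : 0 < b) (hac : a ≤ c) (hz0 : 0 ≤ z)
    (hz : z < 1) :
    a / c * F (a + 1) b (c + 1) z ≤ F a b c z := by
  have hc' : 0 < c := ha.trans_le hac
  have hz' : |z| < 1 := by rwa [abs_of_nonneg hz0]
  have h1 := summable_hc (by positivity : 0 < a + 1) hb (by positivity : 0 < c + 1) hz'
  unfold F
  rw [← tsum_mul_left]
  refine (h1.mul_left _).tsum_le_tsum (fun n => ?_) (summable_hc ha hb hc' hz')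
  rw [← mul_assoc]
  refine mul_le_mul_of_nonneg_right ?_ (pow_nonneg hz0 n)
  rw [A1_ac ha hc']
  have h2 := hc_pos ha hb hc' n
  have h3 : a / c * (hc a b c n * ((a + n) * c / (a * (c + n)))) =
      hc a b c n * ((a + n) / (c + n)) := by
    have h4 : (c + (n : ℝ)) ≠ 0 := by positivity
    field_simp
  rw [h3]
  refine mul_le_of_le_one_right h2.le ?_
  rw [div_le_one (by positivity)]
  linarith

end Pool.Agent.H967.GGC
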