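import Pool.Agent.H967.GGC.Basic

set_option autoImplicit false

/-!
# GGC, leaf A2: the derivative of the Laplace transform (helper640)
-/

namespace Pool.Agent.H967.GGC
open MeasureTheory Filter Topology Set

theorem hasDerivAt_L_shift (a b c : ℝ) (hc' : 0 < c) (n : ℕ) :
    hc a (b + 1) c n * b = hc a b c n * (b + n) := by
  induction n with
  | zero => simp [hc_zero]
  | succ n ih =>
    have h1 : (c + (n : ℝ)) ≠ 0 := by positivity
    have h2 : ((n : ℝ) + 1) ≠ 0 := by positivity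
    rw [hc_succ, hc_succ]
    calc hc a (b + 1) c n * ((a + n) * (b + 1 + n) / ((c + n) * (n + 1))) * b
        = (hc a (b + 1) c n * b) * ((a + n) * (b + 1 + n) / ((c + n) * (n + 1))) := by ring
      _ = hc a b c n * (b + n) * ((a + n) * (b + 1 + n) / ((c + n) * (n + 1))) := by rw [ih]
      _ = hc a b c n * ((a + n) * (b + n) / ((c + n) * (n + 1))) * (b + ((n + 1 : ℕ) : ℝ)) := by
        push_cast
        field_simp
        ring

theorem hasDerivAt_L_mul (a b c : ℝ) (hc' : 0 < c) (n : ℕ) :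
    (n : ℝ) * hc a b c n = b * (hc a (b + 1) c n - hc a b c n) := by
  have := hasDerivAt_L_shift a b c hc' n
  linarith

theorem hasDerivAt_L_F {a b c z : ℝ} (ha : 0 < a) (hb : 0 < b) (hc' : 0 < c) (hz0 : 0 < z)
    (hz : z < 1) : HasDerivAt (F a b c) (b * (F a (b + 1) c z - F a b c z) / z) z := by
  obtain ⟨r, hr1, hr2⟩ := exists_between hz
  have hr0 : 0 < r := hz0.trans hr1
  have hs1 := summable_hc ha hb hc' (z := r) (by rwa [abs_of_pos hr0])
  have hs2 := summable_hc ha (by linarith : (0 : ℝ) < b + 1) hc' (z := r)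
    (by rwa [abs_of_pos hr0])
  have hz1 := summable_hc ha hb hc' (z := z) (by rwa [abs_of_pos hz0])
  have hz2 := summable_hc ha (by linarith : (0 : ℝ) < b + 1) hc' (z := z)
    (by rwa [abs_of_pos hz0])
  have key : ∀ (n : ℕ) (y : ℝ), y ≠ 0 → hc a b c n * ((n : ℝ) * y ^ (n - 1)) =
      b / y * (hc a (b + 1) c n * y ^ n - hc a b c n * y ^ n) := by
    intro n y hy
    have h1 := hasDerivAt_L_mul a b c hc' n
    have h2 : (n : ℝ) * y ^ (n - 1) = n * y ^ n / y := by
      rcases Nat.eq_zero_or_pos n with h | h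
      · subst h; simp
      · obtain ⟨m, rfl⟩ : ∃ m, n = m + 1 := ⟨n - 1, by omega⟩
        rw [Nat.add_sub_cancel, pow_succ]
        field_simp
    rw [h2]
    calc hc a b c n * (n * y ^ n / y) = (n * hc a b c n) * (y ^ n / y) := by ring
      _ = b * (hc a (b + 1) c n - hc a b c n) * (y ^ n / y) := by rw [h1]
      _ = b / y * (hc a (b + 1) c n * y ^ n - hc a b c n * y ^ n) := by ring
  have hu : Summable (fun n : ℕ => hc a b c n * ((n : ℝ) * r ^ (n - 1))) := by
    refine ((hs2.sub hs1).mul_left (b / r)).congr fun n => ?_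
    exact (key n r hr0.ne').symm
  have hd := hasDerivAt_tsum_of_isPreconnected (𝕜 := ℝ)
    (g := fun (n : ℕ) (y : ℝ) => hc a b c n * y ^ n)
    (g' := fun (n : ℕ) (y : ℝ) => hc a b c n * ((n : ℝ) * y ^ (n - 1)))
    (t := Metric.ball (0 : ℝ) r) (y₀ := z) (y := z) hu Metric.isOpen_ball
    (convex_ball (0 : ℝ) r).isPreconnected
    (fun n y _ => (hasDerivAt_pow n y).const_mul _) (fun n y hy => by
      have hy' : |y| ≤ r := by
        rw [Metric.mem_ball, dist_zero_right, Real.norm_eq_abs] at hy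
        exact hy.le
      have hp := hc_pos ha hb hc' n
      rw [norm_mul, norm_mul, norm_pow, Real.norm_eq_abs, Real.norm_eq_abs, Real.norm_eq_abs,
        abs_of_pos hp, abs_of_nonneg (Nat.cast_nonneg n : (0 : ℝ) ≤ n)]
      gcongr)
    (by rw [Metric.mem_ball, dist_zero_right, Real.norm_eq_abs, abs_of_pos hz0]; exact hr1)
    hz1
    (by rw [Metric.mem_ball, dist_zero_right, Real.norm_eq_abs, abs_of_pos hz0]; exact hr1)
  have he : ∑' n : ℕ, hc a b c n * ((n : ℝ) * z ^ (n - 1)) =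
      b * (F a (b + 1) c z - F a b c z) / z := by
    have h3 : ∀ n : ℕ, hc a b c n * ((n : ℝ) * z ^ (n - 1)) =
      b / z * (hc a (b + 1) c n * z ^ n - hc a b c n * z ^ n) := fun n => key n z hz0.ne'
    rw [tsum_congr h3, tsum_mul_left, hz2.tsum_sub hz1]
    unfold F
    ring
  rw [he] at hd
  exact hd

/-- A2. Derivative of `p^(-2β) F(α,β;γ;c²/p²)`, `p = b + s` -/
theorem hasDerivAt_L_proof {α β γ b c : ℝ} (hα : 0 < α) (hβ : 0 < β) (hγ : 0 < γ) (hc0 : 0 < c)
    {s : ℝ} (hs : c < b + s) :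
    HasDerivAt (fun s : ℝ => (b + s) ^ (-(2 * β)) * F α β γ (c ^ 2 / (b + s) ^ 2))
      (-(2 * β) * (b + s) ^ (-(2 * β) - 1) * F α (β + 1) γ (c ^ 2 / (b + s) ^ 2)) s := by
  have hp : 0 < b + s := hc0.trans hs
  have hz0 : 0 < c ^ 2 / (b + s) ^ 2 := by positivity
  have hz1 : c ^ 2 / (b + s) ^ 2 < 1 := by
    rw [div_lt_one (by positivity)]
    exact pow_lt_pow_left₀ hs hc0.le (by norm_num)
  have h1 : HasDerivAt (fun s : ℝ => b + s) 1 s := (hasDerivAt_id s).const_add b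
  have h2 : HasDerivAt (fun s : ℝ => (b + s) ^ (-(2 * β)))
      (1 * (-(2 * β)) * (b + s) ^ (-(2 * β) - 1)) s :=
    h1.rpow_const (Or.inl hp.ne')
  have h3 : HasDerivAt (fun s : ℝ => c ^ 2 / (b + s) ^ 2)
      (-(2 * c ^ 2) / (b + s) ^ 3) s := by
    have h4 := (hasDerivAt_const s (c ^ 2)).div (h1.pow 2) (pow_ne_zero 2 hp.ne')
    refine h4.congr_deriv ?_
    have : b + s ≠ 0 := hp.ne'
    simp only [Pi.pow_apply]
    push_cast
    field_simp
    ring
  have h5 := (hasDerivAt_L_F hα hβ hγ hz0 hz1).comp s h3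
  have h6 := h2.mul h5
  refine h6.congr_deriv ?_
  have hne : b + s ≠ 0 := hp.ne'
  have hcne : c ≠ 0 := hc0.ne'
  have e1 : (b + s) ^ (-(2 * β) - 1) = (b + s) ^ (-(2 * β)) / (b + s) := by
    rw [Real.rpow_sub_one hne]
  have e2 : β * (F α (β + 1) γ (c ^ 2 / (b + s) ^ 2) - F α β γ (c ^ 2 / (b + s) ^ 2)) /
      (c ^ 2 / (b + s) ^ 2) * (-(2 * c ^ 2) / (b + s) ^ 3) =
      -(2 * β) * (F α (β + 1) γ (c ^ 2 / (b + s) ^ 2) - F α β γ (c ^ 2 / (b + s) ^ 2)) /
        (b + s) := by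
    field_simp
  rw [e2, e1]
  simp only [Function.comp_apply]
  ring

end Pool.Agent.H967.GGC
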