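import Pool.Agent.H967.GGC.Bj

set_option autoImplicit false

/-!
# B1: finite Jacobi matrices (helper791)
-/

namespace Pool.Agent.H967.GGC
open MeasureTheory Filter Topology Set

/-- the spectral theorem in coordinates -/
theorem B1_spec {n : Type} [Fintype n] [DecidableEq n] (J : Matrix n n ℝ) (hJ : J.IsHermitian) :
    ∃ (U : n → n → ℝ) (lam : n → ℝ), (∀ i k, ∑ j, J k j * U j i = lam i * U k i) ∧
      (∀ i, ∑ j, U j i ^ 2 = 1) ∧ ∀ j k, ∑ i, U j i * U k i = if j = k then 1 else 0 := by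
  refine ⟨fun j i => (hJ.eigenvectorUnitary : Matrix n n ℝ) j i, hJ.eigenvalues, ?_, ?_, ?_⟩
  · intro i k
    have h := congrFun (hJ.mulVec_eigenvectorBasis i) k
    simpa [Matrix.mulVec, dotProduct] using h
  · intro i
    have h : star (hJ.eigenvectorUnitary : Matrix n n ℝ) * (hJ.eigenvectorUnitary : Matrix n n ℝ) = 1 :=
      Unitary.coe_star_mul_self _
    have h1 := congrFun (congrFun h i) i
    rw [Matrix.mul_apply, Matrix.one_apply_eq] at h1
    rw [← h1]
    refine Finset.sum_congr rfl fun j _ => ?_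
    rw [Matrix.star_apply, star_trivial, sq]
  · intro j k
    have h : (hJ.eigenvectorUnitary : Matrix n n ℝ) * star (hJ.eigenvectorUnitary : Matrix n n ℝ) = 1 :=
      Unitary.coe_mul_star_self _
    have h1 := congrFun (congrFun h j) k
    rw [Matrix.mul_apply, Matrix.one_apply] at h1
    rw [← h1]
    refine Finset.sum_congr rfl fun i _ => ?_
    rw [Matrix.star_apply, star_trivial]

/-- the Jacobi matrix -/
noncomputable def B1_J (g : ℕ → ℝ) (N : ℕ) : Matrix (Fin (N + 1)) (Fin (N + 1)) ℝ := fun i j =>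
  (if (j : ℕ) = i + 1 then bj g (i + 1) else 0) + (if (i : ℕ) = j + 1 then bj g (j + 1) else 0)

theorem B1_herm (g : ℕ → ℝ) (N : ℕ) : (B1_J g N).IsHermitian := by
  unfold Matrix.IsHermitian
  ext i j
  rw [Matrix.conjTranspose_apply, star_trivial]
  unfold B1_J
  exact add_comm _ _

theorem B1_row (g : ℕ → ℝ) (N : ℕ) (z : ℕ → ℝ) (k : Fin (N + 1)) :
    ∑ j, B1_J g N k j * z j = (if (k : ℕ) + 1 ≤ N then bj g (k + 1) * z (k + 1) else 0) +
      (if 1 ≤ (k : ℕ) then bj g k * z (k - 1) else 0) := by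
  unfold B1_J
  simp only [add_mul]
  rw [Finset.sum_add_distrib]
  congr 1
  · rw [Fin.sum_univ_eq_sum_range (fun j => (if j = (k : ℕ) + 1 then bj g (k + 1) else 0) * z j)]
    simp only [ite_mul, zero_mul]
    rw [Finset.sum_ite_eq']
    by_cases h : (k : ℕ) + 1 ≤ N
    · rw [if_pos h, if_pos (Finset.mem_range.2 (by omega))]
    · rw [if_neg h, if_neg (by rw [Finset.mem_range]; omega)]
  · rw [Fin.sum_univ_eq_sum_range (fun j => (if (k : ℕ) = j + 1 then bj g (j + 1) else 0) * z j)]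
    simp only [ite_mul, zero_mul]
    by_cases h : 1 ≤ (k : ℕ)
    · rw [if_pos h, Finset.sum_eq_single ((k : ℕ) - 1)]
      · rw [if_pos (by omega)]
        congr 2
        omega
      · intro j _ hj
        rw [if_neg (by omega)]
      · intro hj
        exact absurd (Finset.mem_range.2 (by have := k.2; omega)) hj
    · rw [if_neg h]
      apply Finset.sum_eq_zero
      intro j _
      rw [if_neg (by omega)]

/-- orthonormal eigenvectors as functions on the natural numbers -/
theorem B1_vec (g : ℕ → ℝ) (N : ℕ) : ∃ (u : Fin (N + 1) → ℕ → ℝ) (lam : Fin (N + 1) → ℝ),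
    (∀ i k, k ≤ N → lam i * u i k = (if k + 1 ≤ N then bj g (k + 1) * u i (k + 1) else 0) +
      (if 1 ≤ k then bj g k * u i (k - 1) else 0)) ∧
    (∀ i, ∑ j ∈ Finset.range (N + 1), u i j ^ 2 = 1) ∧
    ∀ j k, j ≤ N → k ≤ N → ∑ i, u i j * u i k = if j = k then 1 else 0 := by
  obtain ⟨U, lam, h1, h2, h3⟩ := B1_spec (B1_J g N) (B1_herm g N)
  have hu : ∀ i (j : Fin (N + 1)), (fun (i : Fin (N + 1)) (j : ℕ) =>
      if h : j < N + 1 then U ⟨j, h⟩ i else 0) i (j : ℕ) = U j i := by
    intro i j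
    simp only [j.2, dif_pos, Fin.eta]
  obtain ⟨u, hud⟩ : ∃ u : Fin (N + 1) → ℕ → ℝ, u = fun i j =>
      if h : j < N + 1 then U ⟨j, h⟩ i else 0 := ⟨_, rfl⟩
  rw [← hud] at hu
  refine ⟨u, lam, ?_, ?_, ?_⟩
  · intro i k hk
    have h := h1 i ⟨k, by omega⟩
    have hr := B1_row g N (u i) ⟨k, by omega⟩
    simp only [hu] at hr
    rw [hr] at h
    rw [← hu i ⟨k, by omega⟩] at h
    exact h.symm
  · intro i
    rw [← h2 i, ← Fin.sum_univ_eq_sum_range (fun j => u i j ^ 2)]
    exact Finset.sum_congr rfl fun j _ => by rw [hu]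
  · intro j k hj hk
    have h := h3 ⟨j, by omega⟩ ⟨k, by omega⟩
    have e : (if (⟨j, by omega⟩ : Fin (N + 1)) = ⟨k, by omega⟩ then (1 : ℝ) else 0) =
        if j = k then 1 else 0 := by
      by_cases hjk : j = k
      · simp [hjk]
      · rw [if_neg hjk, if_neg (fun hh => hjk (Fin.mk.inj hh))]
    rw [← e, ← h]
    refine Finset.sum_congr rfl fun i _ => ?_
    rw [← hu i ⟨j, by omega⟩, ← hu i ⟨k, by omega⟩]

/-- summation of the rows of the matrix -/
theorem B1_sum (g : ℕ → ℝ) (N : ℕ) (v z : ℕ → ℝ) :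
    ∑ k ∈ Finset.range (N + 1), ((if k + 1 ≤ N then bj g (k + 1) * v (k + 1) else 0) +
      (if 1 ≤ k then bj g k * v (k - 1) else 0)) * z k =
    ∑ k ∈ Finset.range N, bj g (k + 1) * (v (k + 1) * z k + v k * z (k + 1)) := by
  simp only [add_mul]
  rw [Finset.sum_add_distrib]
  have e1 : ∑ k ∈ Finset.range (N + 1), (if k + 1 ≤ N then bj g (k + 1) * v (k + 1) else 0) * z k =
      ∑ k ∈ Finset.range N, bj g (k + 1) * v (k + 1) * z k := by
    rw [Finset.sum_range_succ, if_neg (by omega), zero_mul, add_zero]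
    refine Finset.sum_congr rfl fun k hk => ?_
    rw [Finset.mem_range] at hk
    rw [if_pos (by omega)]
  have e2 : ∑ k ∈ Finset.range (N + 1), (if 1 ≤ k then bj g k * v (k - 1) else 0) * z k =
      ∑ k ∈ Finset.range N, bj g (k + 1) * v k * z (k + 1) := by
    rw [Finset.sum_range_succ', if_neg (by omega), zero_mul, add_zero]
    refine Finset.sum_congr rfl fun k hk => ?_
    rw [if_pos (by omega)]
    rfl
  rw [e1, e2, ← Finset.sum_add_distrib]
  refine Finset.sum_congr rfl fun k _ => ?_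
  ring

theorem B1_amgm {a b s t : ℝ} (ha : 0 ≤ a) (hb : 0 ≤ b) :
    2 * |Real.sqrt (a * b) * (s * t)| ≤ a * s ^ 2 + b * t ^ 2 := by
  rw [abs_mul, abs_of_nonneg (Real.sqrt_nonneg _), Real.sqrt_mul ha, abs_mul]
  have h := sq_nonneg (Real.sqrt a * |s| - Real.sqrt b * |t|)
  have h1 : (Real.sqrt a * |s| - Real.sqrt b * |t|) ^ 2 =
      Real.sqrt a ^ 2 * |s| ^ 2 + Real.sqrt b ^ 2 * |t| ^ 2 -
        2 * (Real.sqrt a * Real.sqrt b * (|s| * |t|)) := by ring
  rw [h1, Real.sq_sqrt ha, Real.sq_sqrt hb, sq_abs, sq_abs] at h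
  linarith

/-- the quadratic form of the Jacobi matrix -/
theorem B1_form (g : ℕ → ℝ) (hg : ∀ j, 0 ≤ g j ∧ g j ≤ 1) (N : ℕ) (v : ℕ → ℝ) :
    |∑ k ∈ Finset.range N, bj g (k + 1) * (v (k + 1) * v k + v k * v (k + 1))| ≤
      ∑ k ∈ Finset.range (N + 1), v k ^ 2 := by
  have h1 : |∑ k ∈ Finset.range N, bj g (k + 1) * (v (k + 1) * v k + v k * v (k + 1))| ≤
      ∑ k ∈ Finset.range N, ((1 - g k) * v k ^ 2 + g (k + 1) * v (k + 1) ^ 2) := by
    refine (Finset.abs_sum_le_sum_abs _ _).trans (Finset.sum_le_sum fun k _ => ?_)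
    have h2 := B1_amgm (s := v k) (t := v (k + 1)) (sub_nonneg.2 (hg k).2) (hg (k + 1)).1
    have h3 : bj g (k + 1) * (v (k + 1) * v k + v k * v (k + 1)) =
        2 * (Real.sqrt ((1 - g k) * g (k + 1)) * (v k * v (k + 1))) := by
      unfold bj
      rw [Nat.add_sub_cancel]
      ring
    rw [h3, abs_mul, abs_of_nonneg (by norm_num : (0 : ℝ) ≤ 2)]
    exact h2
  refine h1.trans ?_
  rw [Finset.sum_add_distrib]
  have e1 : ∑ k ∈ Finset.range (N + 1), v k ^ 2 = ∑ k ∈ Finset.range (N + 1), (1 - g k) * v k ^ 2 +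
      ∑ k ∈ Finset.range (N + 1), g k * v k ^ 2 := by
    rw [← Finset.sum_add_distrib]
    refine Finset.sum_congr rfl fun k _ => ?_
    ring
  rw [e1, Finset.sum_range_succ (fun k => (1 - g k) * v k ^ 2), Finset.sum_range_succ' (fun k => g k * v k ^ 2)]
  have h4 : 0 ≤ (1 - g N) * v N ^ 2 := mul_nonneg (sub_nonneg.2 (hg N).2) (sq_nonneg _)
  have h5 : 0 ≤ g 0 * v 0 ^ 2 := mul_nonneg (hg 0).1 (sq_nonneg _)
  linarith

/-- B1. Finite Jacobi matrices (spectral theorem) -/
theorem jacobi_proof (g : ℕ → ℝ) (hg : ∀ j, 0 ≤ g j ∧ g j ≤ 1) (N : ℕ) :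
    ∃ w lam : Fin (N + 1) → ℝ, (∀ i, 0 ≤ w i) ∧ ∑ i, w i = 1 ∧ (∀ i, |lam i| ≤ 1) ∧
      ∀ (p A : ℝ) (y : ℕ → ℝ), 1 < p → p * y 0 - bj g 1 * y 1 = A →
        (∀ j, p * y (j + 1) - bj g (j + 1) * y j - bj g (j + 2) * y (j + 2) = 0) →
        |y 0 - A * ∑ i, w i / (p - lam i)| ≤ |bj g (N + 1) * y (N + 1)| / (p - 1) := by
  obtain ⟨u, lam, h1, h2, h3⟩ := B1_vec g N
  have hlam : ∀ i, |lam i| ≤ 1 := by
    intro i
    have e1 : lam i = ∑ k ∈ Finset.range (N + 1), lam i * u i k * u i k := by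
      have : ∑ k ∈ Finset.range (N + 1), lam i * u i k * u i k =
          lam i * ∑ k ∈ Finset.range (N + 1), u i k ^ 2 := by
        rw [Finset.mul_sum]
        refine Finset.sum_congr rfl fun k _ => ?_
        ring
      rw [this, h2, mul_one]
    have e2 : ∑ k ∈ Finset.range (N + 1), lam i * u i k * u i k =
        ∑ k ∈ Finset.range N, bj g (k + 1) * (u i (k + 1) * u i k + u i k * u i (k + 1)) := by
      rw [← B1_sum g N (u i) (u i)]
      refine Finset.sum_congr rfl fun k hk => ?_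
      rw [h1 i k (by rw [Finset.mem_range] at hk; omega)]
    rw [e1, e2, ← h2 i]
    exact B1_form g hg N (u i)
  refine ⟨fun i => u i 0 ^ 2, lam, fun i => sq_nonneg _, ?_, hlam, ?_⟩
  · have h := h3 0 0 (Nat.zero_le _) (Nat.zero_le _)
    rw [if_pos rfl] at h
    rw [← h]
    exact Finset.sum_congr rfl fun i _ => sq _
  · intro p A y hp hy0 hy
    obtain ⟨r, hr⟩ : ∃ r : ℝ, r = bj g (N + 1) * y (N + 1) := ⟨_, rfl⟩
    obtain ⟨S, hS⟩ : ∃ S : Fin (N + 1) → ℝ, S = fun i => ∑ k ∈ Finset.range (N + 1), u i k * y k :=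
      ⟨_, rfl⟩
    have hpl : ∀ i, p - 1 ≤ p - lam i := fun i => by
      have := (abs_le.1 (hlam i)).2
      linarith
    have hp1 : 0 < p - 1 := by linarith
    -- the coefficients of `y`
    have hSi : ∀ i, (p - lam i) * S i = A * u i 0 + r * u i N := by
      intro i
      have e1 : lam i * S i = ∑ k ∈ Finset.range N,
          bj g (k + 1) * (u i (k + 1) * y k + u i k * y (k + 1)) := by
        rw [← B1_sum g N (u i) y, hS, Finset.mul_sum]
        refine Finset.sum_congr rfl fun k hk => ?_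
        rw [← h1 i k (by rw [Finset.mem_range] at hk; omega)]
        ring
      have e2 : p * S i = A * u i 0 + ∑ k ∈ Finset.range N, bj g (k + 1) * (u i (k + 1) * y k) +
          ∑ k ∈ Finset.range (N + 1), bj g (k + 1) * (u i k * y (k + 1)) := by
        rw [hS, Finset.mul_sum, Finset.sum_range_succ', Finset.sum_range_succ' (fun k =>
          bj g (k + 1) * (u i k * y (k + 1)))]
        have e3 : ∑ k ∈ Finset.range N, p * (u i (k + 1) * y (k + 1)) =
            ∑ k ∈ Finset.range N, bj g (k + 1) * (u i (k + 1) * y k) +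
            ∑ k ∈ Finset.range N, bj g (k + 1 + 1) * (u i (k + 1) * y (k + 1 + 1)) := by
          rw [← Finset.sum_add_distrib]
          refine Finset.sum_congr rfl fun k _ => ?_
          have h4 := hy k
          have h5 : p * y (k + 1) = bj g (k + 1) * y k + bj g (k + 2) * y (k + 2) := by linarith
          calc p * (u i (k + 1) * y (k + 1)) = u i (k + 1) * (p * y (k + 1)) := by ring
            _ = u i (k + 1) * (bj g (k + 1) * y k + bj g (k + 2) * y (k + 2)) := by rw [h5]
            _ = _ := by ring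
        rw [e3]
        have h6 : p * y 0 = A + bj g 1 * y 1 := by linarith
        have h7 : p * (u i 0 * y 0) = A * u i 0 + bj g (0 + 1) * (u i 0 * y (0 + 1)) := by
          calc p * (u i 0 * y 0) = u i 0 * (p * y 0) := by ring
            _ = u i 0 * (A + bj g 1 * y 1) := by rw [h6]
            _ = _ := by ring
        rw [h7]
        ring
      have e4 : ∑ k ∈ Finset.range N, bj g (k + 1) * (u i (k + 1) * y k + u i k * y (k + 1)) =
          ∑ k ∈ Finset.range N, bj g (k + 1) * (u i (k + 1) * y k) +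
          ∑ k ∈ Finset.range N, bj g (k + 1) * (u i k * y (k + 1)) := by
        rw [← Finset.sum_add_distrib]
        refine Finset.sum_congr rfl fun k _ => ?_
        ring
      rw [sub_mul, e1, e2, e4, Finset.sum_range_succ (fun k => bj g (k + 1) * (u i k * y (k + 1))),
        hr]
      ring
    have hy00 : y 0 = ∑ i, u i 0 * S i := by
      have e1 : ∑ i, u i 0 * S i = ∑ k ∈ Finset.range (N + 1), (∑ i, u i 0 * u i k) * y k := by
        rw [hS]
        simp only [Finset.mul_sum, Finset.sum_mul]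
        rw [Finset.sum_comm]
        refine Finset.sum_congr rfl fun k _ => Finset.sum_congr rfl fun i _ => ?_
        ring
      rw [e1, Finset.sum_eq_single 0]
      · rw [h3 0 0 (Nat.zero_le _) (Nat.zero_le _), if_pos rfl, one_mul]
      · intro k hk hk0
        rw [h3 0 k (Nat.zero_le _) (by rw [Finset.mem_range] at hk; omega), if_neg (Ne.symm hk0),
          zero_mul]
      · intro h
        exact absurd (Finset.mem_range.2 (Nat.succ_pos N)) h
    have hdiff : y 0 - A * ∑ i, u i 0 ^ 2 / (p - lam i) =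
        ∑ i, r * (u i 0 * u i N) / (p - lam i) := by
      rw [hy00, Finset.mul_sum, ← Finset.sum_sub_distrib]
      refine Finset.sum_congr rfl fun i _ => ?_
      have hpos : 0 < p - lam i := lt_of_lt_of_le hp1 (hpl i)
      have h8 : S i = (A * u i 0 + r * u i N) / (p - lam i) := by
        rw [eq_div_iff hpos.ne', mul_comm]
        exact hSi i
      rw [h8]
      field_simp
      ring
    rw [hdiff, ← hr]
    have hbound : ∀ i, |r * (u i 0 * u i N) / (p - lam i)| ≤
        |r| / (p - 1) * ((u i 0 ^ 2 + u i N ^ 2) / 2) := by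
      intro i
      have hpos : 0 < p - lam i := lt_of_lt_of_le hp1 (hpl i)
      rw [abs_div, abs_of_pos hpos, abs_mul, div_mul_eq_mul_div]
      have h9 : |u i 0 * u i N| ≤ (u i 0 ^ 2 + u i N ^ 2) / 2 := by
        rw [abs_le]
        constructor <;> nlinarith [sq_nonneg (u i 0 + u i N), sq_nonneg (u i 0 - u i N)]
      refine div_le_div₀ ?_ ?_ hp1 (hpl i)
      · exact mul_nonneg (abs_nonneg _) (by positivity)
      · exact mul_le_mul_of_nonneg_left h9 (abs_nonneg _)
    refine (Finset.abs_sum_le_sum_abs _ _).trans ((Finset.sum_le_sum fun i _ => hbound i).trans ?_)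
    rw [← Finset.mul_sum, ← Finset.sum_div, Finset.sum_add_distrib]
    have h10 : ∑ i, u i 0 ^ 2 = 1 := by
      have h := h3 0 0 (Nat.zero_le _) (Nat.zero_le _)
      rw [if_pos rfl] at h
      rw [← h]
      exact Finset.sum_congr rfl fun i _ => sq _
    have h11 : ∑ i, u i N ^ 2 = 1 := by
      have h := h3 N N le_rfl le_rfl
      rw [if_pos rfl] at h
      rw [← h]
      exact Finset.sum_congr rfl fun i _ => sq _
    rw [h10, h11]
    refine le_of_eq ?_
    ring

end Pool.Agent.H967.GGC
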