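import Pool.Agent.H967.GGC.Basic

set_option autoImplicit false

/-!
# GGC-B2: compactness of the probability measures on an interval
-/

namespace Pool.Agent.H967.GGC
open MeasureTheory Filter Topology Set

/-- the discrete measure -/
noncomputable def B2_meas (w lam : (N : ℕ) → Fin (N + 1) → ℝ) (hlam : ∀ N i, |lam N i| ≤ 1)
    (N : ℕ) : Measure (Icc (-1 : ℝ) 1) :=
  ∑ i, ENNReal.ofReal (w N i) • Measure.dirac (⟨lam N i, abs_le.1 (hlam N i)⟩ : Icc (-1 : ℝ) 1)

theorem B2_prob (w lam : (N : ℕ) → Fin (N + 1) → ℝ) (hw : ∀ N i, 0 ≤ w N i)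
    (hw1 : ∀ N, ∑ i, w N i = 1) (hlam : ∀ N i, |lam N i| ≤ 1) (N : ℕ) :
    IsProbabilityMeasure (B2_meas w lam hlam N) := by
  constructor
  unfold B2_meas
  rw [Measure.coe_finsetSum, Finset.sum_apply]
  simp only [Measure.smul_apply, measure_univ, smul_eq_mul, mul_one]
  rw [← ENNReal.ofReal_sum_of_nonneg (fun i _ => hw N i), hw1, ENNReal.ofReal_one]

theorem B2_int (w lam : (N : ℕ) → Fin (N + 1) → ℝ) (hw : ∀ N i, 0 ≤ w N i)
    (hlam : ∀ N i, |lam N i| ≤ 1) (N : ℕ) (f : Icc (-1 : ℝ) 1 → ℝ) :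
    ∫ x, f x ∂(B2_meas w lam hlam N) =
      ∑ i, w N i * f ⟨lam N i, abs_le.1 (hlam N i)⟩ := by
  unfold B2_meas
  rw [integral_finsetSum_measure]
  · refine Finset.sum_congr rfl fun i _ => ?_
    rw [integral_smul_measure, integral_dirac, ENNReal.toReal_ofReal (hw N i), smul_eq_mul]
  · intro i _
    refine Integrable.smul_measure ?_ ENNReal.ofReal_ne_top
    exact integrable_dirac (by simp)

/-- B2. Compactness -/
theorem exists_limit_measure_proof (w lam : (N : ℕ) → Fin (N + 1) → ℝ) (hw : ∀ N i, 0 ≤ w N i)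
    (hw1 : ∀ N, ∑ i, w N i = 1) (hlam : ∀ N i, |lam N i| ≤ 1) (h : ℝ → ℝ)
    (hlim : ∀ p : ℝ, 1 < p →
      Tendsto (fun N => ∑ i, w N i / (p - lam N i)) atTop (𝓝 (h p))) :
    ∃ σ : Measure ℝ, IsProbabilityMeasure σ ∧ σ (Icc (-1) 1)ᶜ = 0 ∧
      ∀ p : ℝ, 1 < p → h p = ∫ x, 1 / (p - x) ∂σ := by
  set σN : ℕ → ProbabilityMeasure (Icc (-1 : ℝ) 1) := fun N =>
    ⟨B2_meas w lam hlam N, B2_prob w lam hw hw1 hlam N⟩ with hσN
  set U : Ultrafilter ℕ := Ultrafilter.of atTop with hU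
  have hUle : (U : Filter ℕ) ≤ atTop := Ultrafilter.of_le _
  obtain ⟨σ, -, hσ⟩ := isCompact_univ.ultrafilter_le_nhds (U.map σN) (by simp)
  have hσ' : Tendsto σN U (𝓝 σ) := hσ
  refine ⟨(σ : Measure (Icc (-1 : ℝ) 1)).map Subtype.val, ?_, ?_, ?_⟩
  · exact Measure.isProbabilityMeasure_map measurable_subtype_coe.aemeasurable
  · rw [Measure.map_apply measurable_subtype_coe measurableSet_Icc.compl]
    have : (Subtype.val : Icc (-1 : ℝ) 1 → ℝ) ⁻¹' (Icc (-1) 1)ᶜ = ∅ := by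
      ext x
      simp only [mem_preimage, mem_compl_iff, mem_empty_iff_false, iff_false, not_not]
      exact x.2
    rw [this, measure_empty]
  · intro p hp
    rw [(MeasurableEmbedding.subtype_coe measurableSet_Icc).integral_map]
    have hne : ∀ x : Icc (-1 : ℝ) 1, p - (x : ℝ) ≠ 0 := fun x => by
      have := x.2.2
      intro h0
      linarith
    have hc : Continuous fun x : Icc (-1 : ℝ) 1 => 1 / (p - (x : ℝ)) :=
      continuous_const.div (continuous_const.sub continuous_subtype_val) hne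
    have h1 := (ProbabilityMeasure.tendsto_iff_forall_integral_tendsto.1 hσ')
      (BoundedContinuousFunction.mkOfCompact ⟨_, hc⟩)
    have h2 : Tendsto (fun N => ∫ x, 1 / (p - (x : ℝ)) ∂(B2_meas w lam hlam N)) U
        (𝓝 (∫ x, 1 / (p - (x : ℝ)) ∂(σ : Measure (Icc (-1 : ℝ) 1)))) := h1
    have h3 : (fun N => ∫ x, 1 / (p - (x : ℝ)) ∂(B2_meas w lam hlam N)) =
        fun N => ∑ i, w N i / (p - lam N i) := by
      funext N
      rw [B2_int w lam hw hlam N]
      refine Finset.sum_congr rfl fun i _ => ?_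
      ring
    rw [h3] at h2
    exact tendsto_nhds_unique ((hlim p hp).mono_left hUle) h2

end Pool.Agent.H967.GGC
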