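import Pool.Agent.H967.GGC.Basic

set_option autoImplicit false

/-!
# GGC, leaf D0: termwise Laplace transform
-/

namespace Pool.Agent.H967.GGC
open MeasureTheory Filter Topology Set

theorem D0_int {a r : ℝ} (ha : 0 < a) (hr : 0 < r) :
    IntegrableOn (fun x : ℝ => x ^ (a - 1) * Real.exp (-(r * x))) (Ioi 0) := by
  by_contra h
  have h1 := Real.integral_rpow_mul_exp_neg_mul_Ioi ha hr
  rw [integral_undef h] at h1
  have h2 := Real.Gamma_pos_of_pos ha
  have h3 : 0 < (1 / r) ^ a * Real.Gamma a := by positivity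
  linarith

theorem laplace_series_proof {α β γ b c M : ℝ} (hα : 0 < α) (hβ : 0 < β) (hγ : 0 < γ)
    (hc0 : 0 < c) (hcb : c < b) (hM : 0 < M) (d : ℕ → ℝ)
    (hd : ∀ k : ℕ, d k * Real.Gamma (2 * k + 2 * β) = M * (hc α β γ k * c ^ (2 * k)))
    (f : ℝ → ℝ)
    (hf : ∀ x, 0 < x → HasSum
      (fun k : ℕ => d k * (x ^ (2 * (k : ℝ) + 2 * β - 1) * Real.exp (-(b * x)))) (f x))
    {s : ℝ} (hs : 0 ≤ s) :
    IntegrableOn (fun x => Real.exp (-(s * x)) * f x) (Ioi 0) ∧
      ∫ x in Ioi (0 : ℝ), Real.exp (-(s * x)) * f x =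
        M * ((b + s) ^ (-(2 * β)) * F α β γ (c ^ 2 / (b + s) ^ 2)) := by
  have hr : 0 < b + s := by linarith
  have hcr : c < b + s := by linarith
  have ha : ∀ k : ℕ, 0 < 2 * (k : ℝ) + 2 * β := fun k => by positivity
  have hG : ∀ k : ℕ, 0 < Real.Gamma (2 * (k : ℝ) + 2 * β) := fun k => Real.Gamma_pos_of_pos (ha k)
  have hd0 : ∀ k : ℕ, 0 ≤ d k := by
    intro k
    have h1 := hc_pos hα hβ hγ k
    have h2 : 0 < d k * Real.Gamma (2 * (k : ℝ) + 2 * β) := by
      rw [hd k]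
      positivity
    exact (pos_of_mul_pos_left h2 (hG k).le).le
  -- the terms
  set T : ℕ → ℝ → ℝ := fun k x =>
    d k * (x ^ (2 * (k : ℝ) + 2 * β - 1) * Real.exp (-((b + s) * x))) with hT
  have hTint : ∀ k, Integrable (T k) (volume.restrict (Ioi 0)) := fun k =>
    (D0_int (ha k) hr).const_mul (d k)
  set z : ℝ := c ^ 2 / (b + s) ^ 2 with hz
  have hz0 : 0 ≤ z := by positivity
  have hz1 : z < 1 := by
    rw [hz, div_lt_one (by positivity)]
    exact pow_lt_pow_left₀ hcr hc0.le (by norm_num)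
  have hval : ∀ k, ∫ x in Ioi (0 : ℝ), T k x = M * ((b + s) ^ (-(2 * β)) * (hc α β γ k * z ^ k)) := by
    intro k
    have h1 : ∫ x in Ioi (0 : ℝ), T k x =
        d k * ∫ x in Ioi (0 : ℝ), x ^ (2 * (k : ℝ) + 2 * β - 1) * Real.exp (-((b + s) * x)) :=
      integral_const_mul _ _
    rw [h1, Real.integral_rpow_mul_exp_neg_mul_Ioi (ha k) hr]
    have h2 : (1 / (b + s)) ^ (2 * (k : ℝ) + 2 * β) =
        (1 / (b + s) ^ 2) ^ k * (b + s) ^ (-(2 * β)) := by
      rw [Real.rpow_add (by positivity)]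
      congr 1
      · have h3 : (2 * (k : ℝ)) = ((2 * k : ℕ) : ℝ) := by push_cast; ring
        rw [h3, Real.rpow_natCast, pow_mul, one_div_pow]
      · rw [one_div, Real.inv_rpow hr.le, Real.rpow_neg hr.le]
    rw [h2]
    have h4 : z ^ k = c ^ (2 * k) * (1 / (b + s) ^ 2) ^ k := by
      rw [hz, pow_mul, ← mul_pow]
      congr 1
      ring
    rw [h4]
    calc d k * ((1 / (b + s) ^ 2) ^ k * (b + s) ^ (-(2 * β)) * Real.Gamma (2 * (k : ℝ) + 2 * β))
        = (d k * Real.Gamma (2 * (k : ℝ) + 2 * β)) * ((1 / (b + s) ^ 2) ^ k *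
          (b + s) ^ (-(2 * β))) := by ring
      _ = (M * (hc α β γ k * c ^ (2 * k))) * ((1 / (b + s) ^ 2) ^ k * (b + s) ^ (-(2 * β))) := by
          rw [hd k]
      _ = _ := by ring
  have hTn : ∀ k, ∫ x in Ioi (0 : ℝ), ‖T k x‖ = ∫ x in Ioi (0 : ℝ), T k x := by
    intro k
    refine setIntegral_congr_fun measurableSet_Ioi fun x hx => ?_
    have hx' : (0 : ℝ) < x := hx
    have h1 := hd0 k
    exact Real.norm_of_nonneg (by positivity)
  have hS := summable_hc hα hβ hγ (z := z) (by rwa [abs_of_nonneg hz0])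
  have hsum : Summable fun k => ∫ x in Ioi (0 : ℝ), ‖T k x‖ := by
    have h1 : (fun k => ∫ x in Ioi (0 : ℝ), ‖T k x‖) =
        fun k => M * ((b + s) ^ (-(2 * β)) * (hc α β γ k * z ^ k)) := by
      funext k
      rw [hTn, hval]
    rw [h1]
    exact (hS.mul_left _).mul_left _
  have hmain := hasSum_integral_of_summable_integral_norm hTint hsum
  have hfT : ∀ x, 0 < x → ∑' k, T k x = Real.exp (-(s * x)) * f x := by
    intro x hx
    have h1 := (hf x hx).mul_left (Real.exp (-(s * x)))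
    rw [← h1.tsum_eq]
    refine tsum_congr fun k => ?_
    have h2 : Real.exp (-((b + s) * x)) = Real.exp (-(s * x)) * Real.exp (-(b * x)) := by
      rw [← Real.exp_add]
      congr 1
      ring
    show d k * (x ^ (2 * (k : ℝ) + 2 * β - 1) * Real.exp (-((b + s) * x))) = _
    rw [h2]
    ring
  have hI : ∫ x in Ioi (0 : ℝ), ∑' k, T k x = ∫ x in Ioi (0 : ℝ), Real.exp (-(s * x)) * f x :=
    setIntegral_congr_fun measurableSet_Ioi fun x hx => hfT x hx
  have hv : ∫ x in Ioi (0 : ℝ), Real.exp (-(s * x)) * f x =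
      M * ((b + s) ^ (-(2 * β)) * F α β γ z) := by
    rw [← hI, ← hmain.tsum_eq]
    have h1 : (fun k => ∫ x in Ioi (0 : ℝ), T k x) =
        fun k => M * ((b + s) ^ (-(2 * β)) * (hc α β γ k * z ^ k)) := by
      funext k
      exact hval k
    rw [h1, tsum_mul_left, tsum_mul_left]
    rfl
  refine ⟨?_, hv⟩
  by_contra hcon
  rw [integral_undef hcon] at hv
  have h1 := F_pos hα hβ hγ hz0 hz1
  have h2 : 0 < M * ((b + s) ^ (-(2 * β)) * F α β γ z) := by positivity
  linarith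

end Pool.Agent.H967.GGC
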