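import Pool.Agent.H967.GGC.Basic

set_option autoImplicit false

/-!
# The square of the modified Bessel series (Vandermonde's convolution)
-/

namespace Pool.Agent.H967.GGC
open MeasureTheory Filter Topology Set

theorem D2_gamma {y : ℝ} (hy : 0 < y) (n : ℕ) :
    Real.Gamma (y + n) = (ascPochhammer ℝ n).eval y * Real.Gamma y := by
  induction n with
  | zero => simp
  | succ n ih =>
    have h1 : y + ((n + 1 : ℕ) : ℝ) = (y + n) + 1 := by push_cast; ring
    have h2 : y + (n : ℝ) ≠ 0 := by positivity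
    rw [h1, Real.Gamma_add_one h2, ih, ascPochhammer_succ_eval]
    ring

theorem D2_choose {z : ℝ} {n : ℕ} (h : 0 < z - n + 1) :
    Ring.choose z n = Real.Gamma (z + 1) / ((n.factorial : ℝ) * Real.Gamma (z - n + 1)) := by
  have h1 := D2_gamma h n
  have h2 : z - n + 1 + n = z + 1 := by ring
  rw [h2] at h1
  have h3 := Real.Gamma_pos_of_pos h
  have h4 : (0 : ℝ) < n.factorial := by positivity
  rw [Ring.choose_eq_smul, Polynomial.descPochhammer_smeval_eq_ascPochhammer,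
    Polynomial.ascPochhammer_smeval_eq_eval, h1, smul_eq_mul]
  field_simp

theorem D2_sum {μ : ℝ} (hμ : -1 / 4 < μ) (m : ℕ) :
    ∑ p ∈ Finset.HasAntidiagonal.antidiagonal m, 1 / (((p.1.factorial : ℝ) * Real.Gamma (p.1 + μ + 1)) *
      ((p.2.factorial : ℝ) * Real.Gamma (p.2 + μ + 1))) =
    Real.Gamma (2 * m + 2 * μ + 1) /
      ((m.factorial : ℝ) * Real.Gamma (m + 2 * μ + 1) * Real.Gamma (m + μ + 1) ^ 2) := by
  have hm : (0 : ℝ) ≤ m := by positivity
  have h0 : ∀ k : ℕ, 0 < Real.Gamma ((k : ℝ) + μ + 1) := fun k => by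
    have : (0 : ℝ) ≤ k := by positivity
    exact Real.Gamma_pos_of_pos (by linarith)
  have h1 := Ring.add_choose_eq (R := ℝ) (r := m + μ) (s := m + μ) m (Commute.all _ _)
  have h2 : Ring.choose ((m : ℝ) + μ + (m + μ)) m = Real.Gamma (2 * m + 2 * μ + 1) /
      ((m.factorial : ℝ) * Real.Gamma (m + 2 * μ + 1)) := by
    rw [D2_choose (by linarith)]
    have e1 : (m : ℝ) + μ + (m + μ) + 1 = 2 * m + 2 * μ + 1 := by ring
    have e2 : (m : ℝ) + μ + (m + μ) - m + 1 = m + 2 * μ + 1 := by ring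
    rw [e1, e2]
  rw [h2] at h1
  have h3 : 0 < Real.Gamma ((m : ℝ) + μ + 1) := h0 m
  have h5 : 0 < Real.Gamma ((m : ℝ) + 2 * μ + 1) := Real.Gamma_pos_of_pos (by linarith)
  have h4 : ∀ p ∈ Finset.HasAntidiagonal.antidiagonal m, Ring.choose ((m : ℝ) + μ) p.1 *
      Ring.choose ((m : ℝ) + μ) p.2 = Real.Gamma ((m : ℝ) + μ + 1) ^ 2 *
      (1 / (((p.1.factorial : ℝ) * Real.Gamma (p.1 + μ + 1)) *
      ((p.2.factorial : ℝ) * Real.Gamma (p.2 + μ + 1)))) := by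
    intro p hp
    have hp' : p.1 + p.2 = m := Finset.HasAntidiagonal.mem_antidiagonal.1 hp
    have hpr : ((p.1 : ℝ)) + p.2 = m := by exact_mod_cast hp'
    have hp1 : (0 : ℝ) ≤ p.1 := by positivity
    have hp2 : (0 : ℝ) ≤ p.2 := by positivity
    rw [D2_choose (by linarith), D2_choose (by linarith)]
    have e1 : (m : ℝ) + μ - p.1 + 1 = p.2 + μ + 1 := by linarith
    have e2 : (m : ℝ) + μ - p.2 + 1 = p.1 + μ + 1 := by linarith
    rw [e1, e2]
    have g1 := h0 p.1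
    have g2 := h0 p.2
    have g3 : (0 : ℝ) < p.1.factorial := by positivity
    have g4 : (0 : ℝ) < p.2.factorial := by positivity
    field_simp
  rw [Finset.sum_congr rfl h4, ← Finset.mul_sum] at h1
  have h6 : (0 : ℝ) < m.factorial := by positivity
  have h7 : Real.Gamma ((m : ℝ) + μ + 1) ^ 2 ≠ 0 := by positivity
  apply mul_left_cancel₀ h7
  rw [← h1]
  field_simp

theorem D2_pos {μ x : ℝ} (hμ : -1 / 4 < μ) (hx : 0 < x) (k : ℕ) :
    0 < (x / 2) ^ (2 * (k : ℝ) + μ) / ((k.factorial : ℝ) * Real.Gamma (k + μ + 1)) := by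
  have h1 : 0 < Real.Gamma ((k : ℝ) + μ + 1) := by
    have : (0 : ℝ) ≤ k := by positivity
    exact Real.Gamma_pos_of_pos (by linarith)
  have h2 : 0 < (x / 2) ^ (2 * (k : ℝ) + μ) := Real.rpow_pos_of_pos (by positivity) _
  positivity

theorem D2_ratio {μ x : ℝ} (hμ : -1 / 4 < μ) (hx : 0 < x) (k : ℕ) :
    (x / 2) ^ (2 * ((k + 1 : ℕ) : ℝ) + μ) / (((k + 1).factorial : ℝ) *
      Real.Gamma (((k + 1 : ℕ) : ℝ) + μ + 1)) =
    (x / 2) ^ 2 / (((k : ℝ) + 1) * (k + μ + 1)) *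
      ((x / 2) ^ (2 * (k : ℝ) + μ) / ((k.factorial : ℝ) * Real.Gamma (k + μ + 1))) := by
  have hk : (0 : ℝ) ≤ k := by positivity
  have hx2 : 0 < x / 2 := by positivity
  have h0 : 0 < (k : ℝ) + μ + 1 := by linarith
  have h1 : 0 < Real.Gamma ((k : ℝ) + μ + 1) := Real.Gamma_pos_of_pos h0
  have h2 : ((k + 1 : ℕ) : ℝ) + μ + 1 = (k + μ + 1) + 1 := by push_cast; ring
  have h3 : 2 * ((k + 1 : ℕ) : ℝ) + μ = (2 * (k : ℝ) + μ) + 2 := by push_cast; ring
  have h4 : (x / 2) ^ ((2 * (k : ℝ) + μ) + 2) = (x / 2) ^ (2 * (k : ℝ) + μ) * (x / 2) ^ 2 := by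
    rw [Real.rpow_add hx2]
    congr 1
    exact_mod_cast Real.rpow_natCast (x / 2) 2
  rw [h2, Real.Gamma_add_one h0.ne', h3, h4, Nat.factorial_succ]
  have h5 : (0 : ℝ) < k.factorial := by positivity
  push_cast
  field_simp

theorem D2_summable {μ x : ℝ} (hμ : -1 / 4 < μ) (hx : 0 < x) :
    Summable (fun k : ℕ => (x / 2) ^ (2 * (k : ℝ) + μ) /
      ((k.factorial : ℝ) * Real.Gamma (k + μ + 1))) := by
  obtain ⟨N, hN⟩ := exists_nat_ge (8 / 3 * (x / 2) ^ 2)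
  apply summable_of_ratio_norm_eventually_le (r := 1 / 2) (by norm_num)
  filter_upwards [eventually_ge_atTop N] with k hk
  have hk' : (N : ℝ) ≤ k := by exact_mod_cast hk
  have hk0 : (0 : ℝ) ≤ k := by positivity
  have h1 := D2_pos hμ hx k
  have h2 := D2_pos hμ hx (k + 1)
  rw [Real.norm_of_nonneg h2.le, Real.norm_of_nonneg h1.le, D2_ratio hμ hx k]
  apply mul_le_mul_of_nonneg_right _ h1.le
  have h3 : 0 < ((k : ℝ) + 1) * (k + μ + 1) := by
    have : 0 < (k : ℝ) + μ + 1 := by linarith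
    positivity
  rw [div_le_iff₀ h3]
  have h4 : (3 / 4 : ℝ) * (k + 1) ≤ ((k : ℝ) + 1) * (k + μ + 1) := by nlinarith
  linarith

/-- D2. The square of `I_μ` (Vandermonde's convolution) -/
theorem besselI_sq_proof {μ x : ℝ} (hμ : -1 / 4 < μ) (hx : 0 < x) :
    HasSum (fun m : ℕ => Real.Gamma (2 * m + 2 * μ + 1) /
      ((m.factorial : ℝ) * Real.Gamma (m + 2 * μ + 1) * Real.Gamma (m + μ + 1) ^ 2) *
        (x / 2) ^ (2 * (m : ℝ) + 2 * μ)) (besselI μ x ^ 2) := by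
  have hs := D2_summable hμ hx
  have hn : Summable (fun k : ℕ => ‖(x / 2) ^ (2 * (k : ℝ) + μ) /
      ((k.factorial : ℝ) * Real.Gamma (k + μ + 1))‖) := hs.norm
  have h1 := tsum_mul_tsum_eq_tsum_sum_antidiagonal_of_summable_norm hn hn
  have h2 := (summable_norm_sum_mul_antidiagonal_of_summable_norm hn hn).of_norm
  have h3 := h2.hasSum
  rw [← h1, ← sq] at h3
  have h4 : (fun m : ℕ => Real.Gamma (2 * m + 2 * μ + 1) /
      ((m.factorial : ℝ) * Real.Gamma (m + 2 * μ + 1) * Real.Gamma (m + μ + 1) ^ 2) *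
        (x / 2) ^ (2 * (m : ℝ) + 2 * μ)) = fun m : ℕ => ∑ kl ∈ Finset.HasAntidiagonal.antidiagonal m,
      (x / 2) ^ (2 * (kl.1 : ℝ) + μ) / ((kl.1.factorial : ℝ) * Real.Gamma (kl.1 + μ + 1)) *
      ((x / 2) ^ (2 * (kl.2 : ℝ) + μ) / ((kl.2.factorial : ℝ) * Real.Gamma (kl.2 + μ + 1))) := by
    funext m
    rw [← D2_sum hμ m, Finset.sum_mul]
    refine Finset.sum_congr rfl fun p hp => ?_
    have hp' : p.1 + p.2 = m := Finset.HasAntidiagonal.mem_antidiagonal.1 hp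
    have hpr : ((p.1 : ℝ)) + p.2 = m := by exact_mod_cast hp'
    have h5 : 2 * (m : ℝ) + 2 * μ = (2 * (p.1 : ℝ) + μ) + (2 * (p.2 : ℝ) + μ) := by
      rw [← hpr]; ring
    rw [h5, Real.rpow_add (by positivity)]
    rw [div_mul_div_comm, div_mul_eq_mul_div, one_mul]
  rw [h4]
  exact h3

end Pool.Agent.H967.GGC
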