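import Pool.Agent.H967.GGC.Basic

set_option autoImplicit false

/-!
# GGC classification: leaf E1 (moments from the expansion of the Stieltjes transform)
-/

namespace Pool.Agent.H967.GGC
open MeasureTheory Filter Topology Set

theorem E1_sum (p τ : ℝ) (hp : p ≠ 0) (hτ : p - τ ≠ 0) (i : ℕ) :
    ∑ j ∈ Finset.range i, τ ^ j / p ^ (j + 1) = (1 - τ ^ i / p ^ i) / (p - τ) := by
  induction i with
  | zero => simp
  | succ i ih =>
    rw [Finset.sum_range_succ, ih]
    field_simp
    ring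

theorem E1_identity (p τ : ℝ) (hp : p ≠ 0) (hτ : p - τ ≠ 0) (i : ℕ) :
    p ^ (i + 1) * (1 / (p - τ) - ∑ j ∈ Finset.range i, τ ^ j / p ^ (j + 1)) =
      p * τ ^ i / (p - τ) := by
  rw [E1_sum p τ hp hτ]
  field_simp
  ring

theorem E1_step {b : ℝ} (hb : 0 < b) (U : Measure ℝ) (hU : U (Ici b) = 0)
    (hint : ∀ p : ℝ, b < p → Integrable (fun τ => 1 / (p - τ)) U) (m : ℕ → ℝ) (i : ℕ)
    (hj : ∀ j < i, Integrable (fun τ => τ ^ j) U ∧ ∫ τ, τ ^ j ∂U = m j)
    (hm : Tendsto (fun p : ℝ => p ^ (i + 1) * ((∫ τ, 1 / (p - τ) ∂U)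
      - ∑ j ∈ Finset.range i, m j / p ^ (j + 1))) atTop (𝓝 (m i))) :
    Integrable (fun τ => τ ^ i) U ∧ ∫ τ, τ ^ i ∂U = m i := by
  have hae : ∀ᵐ τ ∂U, τ < b := by
    rw [ae_iff]
    have : {a | ¬ a < b} = Ici b := by ext x; simp
    rw [this]
    exact hU
  obtain ⟨p, hp⟩ : ∃ p : ℕ → ℝ, p = fun k : ℕ => 2 * b + k := ⟨_, rfl⟩
  have hp2 : ∀ k, 2 * b ≤ p k := fun k => by rw [hp]; simp
  have hptop : Tendsto p atTop atTop := by
    rw [hp]
    exact tendsto_atTop_add_const_left _ _ tendsto_natCast_atTop_atTop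
  obtain ⟨f, hf⟩ : ∃ f : ℕ → ℝ → ℝ, f = fun k τ => p k * τ ^ i / (p k - τ) := ⟨_, rfl⟩
  have hfeq : ∀ k, f k =ᵐ[U] fun τ => p k ^ (i + 1) *
      (1 / (p k - τ) - ∑ j ∈ Finset.range i, τ ^ j / p k ^ (j + 1)) := by
    intro k
    filter_upwards [hae] with τ hτ
    have h1 := hp2 k
    have h2 : 0 < p k := by linarith
    have h3 : 0 < p k - τ := by linarith
    rw [E1_identity (p k) τ h2.ne' h3.ne' i, hf]
  have hsum : ∀ k, Integrable (fun τ => ∑ j ∈ Finset.range i, τ ^ j / p k ^ (j + 1)) U := fun k =>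
    integrable_finsetSum _ fun j hj' => (hj j (Finset.mem_range.1 hj')).1.div_const _
  have hpb : ∀ k, b < p k := fun k => by linarith [hp2 k]
  have hfint : ∀ k, Integrable (f k) U := fun k =>
    ((((hint _ (hpb k)).sub (hsum k)).const_mul _)).congr (hfeq k).symm
  have hfval : ∀ k, ∫ τ, f k τ ∂U = p k ^ (i + 1) * ((∫ τ, 1 / (p k - τ) ∂U)
      - ∑ j ∈ Finset.range i, m j / p k ^ (j + 1)) := by
    intro k
    rw [integral_congr_ae (hfeq k), integral_const_mul, integral_sub (hint _ (hpb k)) (hsum k),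
      integral_finsetSum _ fun j hj' => (hj j (Finset.mem_range.1 hj')).1.div_const _]
    congr 2
    refine Finset.sum_congr rfl fun j hj' => ?_
    rw [integral_div, (hj j (Finset.mem_range.1 hj')).2]
  have hlim : Tendsto (fun k => ∫ τ, f k τ ∂U) atTop (𝓝 (m i)) := by
    simp only [hfval]
    exact hm.comp hptop
  have hbd : ∀ k, ∀ᵐ τ ∂U, ‖f k τ‖ ≤ 2 * ‖τ ^ i‖ := by
    intro k
    filter_upwards [hae] with τ hτ
    have h1 := hp2 k
    have h2 : 0 < p k - τ := by linarith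
    have h3 : 0 < p k := by linarith
    rw [hf]
    simp only [norm_div, norm_mul]
    rw [Real.norm_of_nonneg h3.le, Real.norm_of_nonneg h2.le, div_le_iff₀ h2]
    have h4 : 0 ≤ ‖τ ^ i‖ := norm_nonneg _
    nlinarith
  have hpt : ∀ τ, Tendsto (fun k => f k τ) atTop (𝓝 (τ ^ i)) := by
    intro τ
    have h1 : Tendsto (fun k => p k - τ) atTop atTop := by
      simpa [sub_eq_add_neg] using tendsto_atTop_add_const_right _ (-τ) hptop
    have h2 : Tendsto (fun k => τ ^ i + τ ^ (i + 1) / (p k - τ)) atTop (𝓝 (τ ^ i + 0)) :=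
      tendsto_const_nhds.add (tendsto_const_nhds.div_atTop h1)
    rw [add_zero] at h2
    refine h2.congr' ?_
    filter_upwards [h1.eventually_gt_atTop 0] with k hk
    rw [hf]
    have : p k - τ ≠ 0 := hk.ne'
    field_simp
    ring
  -- the part on `[0, b)`
  obtain ⟨G, hG⟩ : ∃ G : ℝ → ℝ, G = (Ici (0 : ℝ)).indicator (fun _ => 2 * b ^ i) := ⟨_, rfl⟩
  have hGint : Integrable G U := by
    refine Integrable.mono' ((hint (2 * b) (by linarith)).const_mul (4 * b ^ (i + 1))) ?_ ?_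
    · rw [hG]
      exact (measurable_const.indicator measurableSet_Ici).aestronglyMeasurable
    · filter_upwards [hae] with τ hτ
      have h2 : 0 < 2 * b - τ := by linarith
      rw [hG]
      by_cases h0 : 0 ≤ τ
      · rw [indicator_of_mem (show τ ∈ Ici (0 : ℝ) from h0), Real.norm_of_nonneg (by positivity),
          mul_one_div, le_div_iff₀ h2, pow_succ]
        have : 0 < b ^ i := by positivity
        nlinarith
      · rw [indicator_of_notMem (show τ ∉ Ici (0 : ℝ) from h0), norm_zero]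
        positivity
  obtain ⟨B, hB⟩ := hlim.norm.bddAbove_range
  have hB' : ∀ k, ‖∫ τ, f k τ ∂U‖ ≤ B := fun k => hB ⟨k, rfl⟩
  have hnorm : ∀ k, ∫ τ, ‖f k τ‖ ∂U ≤ B + 2 * ∫ τ, G τ ∂U := by
    intro k
    have h1 : ∫ τ, ‖f k τ‖ ∂U ≤ ∫ τ, ((-1) ^ i * f k τ + 2 * G τ) ∂U := by
      refine integral_mono_ae (hfint k).norm (((hfint k).const_mul _).add (hGint.const_mul 2)) ?_
      filter_upwards [hae] with τ hτ
      have h1 := hp2 k
      have h2 : 0 < p k - τ := by linarith
      have h3 : 0 < p k := by linarith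
      by_cases h0 : 0 ≤ τ
      · have h4 : 0 ≤ f k τ := by
          rw [hf]
          positivity
        have h5 : f k τ ≤ 2 * b ^ i := by
          rw [hf]
          simp only
          rw [div_le_iff₀ h2]
          have h6 : τ ^ i ≤ b ^ i := pow_le_pow_left₀ h0 hτ.le i
          have h7 : 0 ≤ τ ^ i := by positivity
          nlinarith
        rw [Real.norm_of_nonneg h4, hG, indicator_of_mem (show τ ∈ Ici (0 : ℝ) from h0)]
        rcases neg_one_pow_eq_or ℝ i with h | h <;> rw [h] <;> nlinarith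
      · have h4 : ‖f k τ‖ = (-1) ^ i * f k τ := by
          rw [hf]
          simp only [norm_div, norm_mul, norm_pow]
          rw [Real.norm_of_nonneg h3.le, Real.norm_of_nonneg h2.le, Real.norm_of_nonpos
            (not_le.1 h0).le, neg_pow]
          ring
        rw [h4, hG, indicator_of_notMem (show τ ∉ Ici (0 : ℝ) from h0)]
        simp
    rw [integral_add ((hfint k).const_mul _) (hGint.const_mul 2), integral_const_mul,
      integral_const_mul] at h1
    have h2 : (-1) ^ i * ∫ τ, f k τ ∂U ≤ ‖∫ τ, f k τ ∂U‖ := by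
      refine (le_abs_self _).trans ?_
      rw [abs_mul, abs_pow, abs_neg, abs_one, one_pow, one_mul, Real.norm_eq_abs]
    linarith [hB' k]
  have hmem : MemLp (fun τ : ℝ => τ ^ i) 1 U := by
    refine ⟨(measurable_id.pow_const i).aestronglyMeasurable, ?_⟩
    have h1 : eLpNorm (fun τ : ℝ => τ ^ i) 1 U ≤ atTop.liminf fun k => eLpNorm (f k) 1 U :=
      Lp.eLpNorm_lim_le_liminf_eLpNorm (fun k => (hfint k).aestronglyMeasurable) _
        (Eventually.of_forall hpt)
    have h2 : ∀ k, eLpNorm (f k) 1 U ≤ ENNReal.ofReal (B + 2 * ∫ τ, G τ ∂U) := by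
      intro k
      rw [eLpNorm_one_eq_lintegral_enorm, ← ofReal_integral_norm_eq_lintegral_enorm (hfint k)]
      exact ENNReal.ofReal_le_ofReal (hnorm k)
    refine lt_of_le_of_lt (h1.trans ((liminf_le_liminf (Eventually.of_forall h2)).trans
      (le_of_eq (liminf_const _)))) ENNReal.ofReal_lt_top
  have hI : Integrable (fun τ : ℝ => τ ^ i) U := memLp_one_iff_integrable.1 hmem
  refine ⟨hI, ?_⟩
  have hD : Tendsto (fun k => ∫ τ, f k τ ∂U) atTop (𝓝 (∫ τ, τ ^ i ∂U)) :=
    tendsto_integral_of_dominated_convergence (fun τ => 2 * ‖τ ^ i‖)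
      (fun k => (hfint k).aestronglyMeasurable) (hI.norm.const_mul 2) hbd
      (Eventually.of_forall hpt)
  exact tendsto_nhds_unique hD hlim

/-- E1. Existence of moments from the expansion of the Stieltjes transform at infinity -/
theorem moments_proof {b : ℝ} (hb : 0 < b) (U : Measure ℝ) (hU : U (Ici b) = 0)
    (hint : ∀ p : ℝ, b < p → Integrable (fun τ => 1 / (p - τ)) U) (m : ℕ → ℝ) (n : ℕ)
    (hm : ∀ i ≤ n, Tendsto (fun p : ℝ => p ^ (i + 1) * ((∫ τ, 1 / (p - τ) ∂U)
      - ∑ j ∈ Finset.range i, m j / p ^ (j + 1))) atTop (𝓝 (m i))) :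
    ∀ i ≤ n, Integrable (fun τ => τ ^ i) U ∧ ∫ τ, τ ^ i ∂U = m i := by
  intro i
  induction i using Nat.strong_induction_on with
  | _ i ih =>
    intro hi
    exact E1_step hb U hU hint m i (fun j hj => ih j hj (hj.le.trans hi)) (hm i hi)

end Pool.Agent.H967.GGC
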