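import Pool.Agent.H967.GGC.Basic

set_option autoImplicit false

/-!
# GGC classification for McKay-type Bessel laws: leaf E2, derivative of the exponent
-/

namespace Pool.Agent.H967.GGC
open MeasureTheory Filter Topology Set

theorem ggc_deriv_pos (U : Measure ℝ) (hU : U (Iic 0) = 0) : ∀ᵐ t ∂U, 0 < t := by
  rw [ae_iff]
  have : {t : ℝ | ¬ 0 < t} = Iic 0 := by
    ext t
    simp
  rw [this]
  exact hU

theorem ggc_deriv_le {s t : ℝ} (hs : 0 < s) (ht : 0 < t) :
    s * (1 / (s + t)) ≤ -Real.log (t / (s + t)) := by
  have h1 : -Real.log (t / (s + t)) = Real.log ((s + t) / t) := by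
    rw [← Real.log_inv, inv_div]
  have h2 : 1 - ((s + t) / t)⁻¹ ≤ Real.log ((s + t) / t) :=
    Real.one_sub_inv_le_log_of_pos (by positivity)
  have h3 : 1 - ((s + t) / t)⁻¹ = s * (1 / (s + t)) := by
    rw [inv_div]
    field_simp
    ring
  rw [h1, ← h3]
  exact h2

/-- E2. Derivative of the exponent -/
theorem ggc_deriv_proof (U : Measure ℝ) (hU : U (Iic 0) = 0)
    (hint : ∀ s : ℝ, 0 ≤ s → Integrable (fun t => Real.log (t / (s + t))) U) {s : ℝ}
    (hs : 0 < s) :
    Integrable (fun t => 1 / (s + t)) U ∧
      HasDerivAt (fun s => ∫ t, Real.log (t / (s + t)) ∂U) (-∫ t, 1 / (s + t) ∂U) s := by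
  have hpos := ggc_deriv_pos U hU
  have hI : Integrable (fun t => 1 / (s + t)) U := by
    refine Integrable.mono' ((hint s hs.le).norm.const_mul s⁻¹)
      (Measurable.aestronglyMeasurable (by fun_prop)) ?_
    filter_upwards [hpos] with t ht
    have h1 := ggc_deriv_le hs ht
    have h2 : 0 < 1 / (s + t) := by positivity
    rw [Real.norm_eq_abs, abs_of_pos h2, Real.norm_eq_abs, inv_mul_eq_div, le_div_iff₀ hs, mul_comm]
    exact h1.trans (neg_le_abs _)
  refine ⟨hI, ?_⟩
  have key := hasDerivAt_integral_of_dominated_loc_of_deriv_le (μ := U) (s := Ioi (s / 2))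
    (F := fun s t => Real.log (t / (s + t))) (F' := fun s t => -(1 / (s + t))) (x₀ := s)
    (bound := fun t => 2 * (1 / (s + t))) (Ioi_mem_nhds (by linarith))
    (by
      filter_upwards [Ioi_mem_nhds hs] with s' hs'
      exact (hint s' (le_of_lt hs')).aestronglyMeasurable)
    (hint s hs.le) hI.neg.aestronglyMeasurable
    (by
      filter_upwards [hpos] with t ht x hx
      have hx' : s / 2 < x := hx
      have h1 : 0 < x + t := by linarith
      rw [norm_neg, Real.norm_eq_abs, abs_of_pos (by positivity), mul_one_div,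
        div_le_div_iff₀ h1 (by positivity)]
      linarith)
    (hI.const_mul 2)
    (by
      filter_upwards [hpos] with t ht x hx
      have hx' : s / 2 < x := hx
      have h1 : 0 < x + t := by linarith
      have h2 : HasDerivAt (fun x : ℝ => Real.log t - Real.log (x + t)) (0 - 1 / (x + t)) x := by
        refine (hasDerivAt_const x _).sub ?_
        exact ((hasDerivAt_id x).add_const t).log h1.ne'
      have h3 : (fun x : ℝ => Real.log (t / (x + t))) =ᶠ[𝓝 x]
          fun x => Real.log t - Real.log (x + t) := by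
        filter_upwards [Ioi_mem_nhds hx'] with y hy
        have hy' : s / 2 < y := hy
        rw [Real.log_div ht.ne' (by linarith)]
      have h4 := h2.congr_of_eventuallyEq h3
      rw [zero_sub] at h4
      exact h4)
  have h5 := key.2
  rw [integral_neg] at h5
  exact h5

end Pool.Agent.H967.GGC
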