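import Pool.Agent.H967.GGC.A1
import Pool.Agent.H967.GGC.A2
import Pool.Agent.H967.GGC.B1
import Pool.Agent.H967.GGC.B2
import Pool.Agent.H967.GGC.D0
import Pool.Agent.H967.GGC.D2
import Pool.Agent.H967.GGC.E1
import Pool.Agent.H967.GGC.E2

set_option autoImplicit false

namespace Pool.Agent.H967.GGC

alias F_gauss := F_gauss_proof
alias F_contig := F_contig_proof
alias F_shift_le := F_shift_le_proof
alias hasDerivAt_L := hasDerivAt_L_proof
alias jacobi := jacobi_proof
alias exists_limit_measure := exists_limit_measure_proof
alias laplace_series := laplace_series_proof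
alias besselI_sq := besselI_sq_proof
alias moments := moments_proof
alias ggc_deriv := ggc_deriv_proof

end Pool.Agent.H967.GGC
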