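import Pool.Agent.H967.GGC.Al1

set_option autoImplicit false

namespace Pool.Agent.H967.GGC
open MeasureTheory Filter Topology Set

theorem C1_ae {σ : Measure ℝ} (hσ : σ (Icc (-1) 1)ᶜ = 0) :
    ∀ᵐ x ∂σ, x ∈ Icc (-1 : ℝ) 1 := by
  have h : {x : ℝ | ¬ x ∈ Icc (-1 : ℝ) 1} = (Icc (-1) 1)ᶜ := rfl
  exact (ae_iff.2 (by rw [h]; exact hσ))

theorem C1_low {b c x : ℝ} (hc0 : 0 < c) (hx : x ∈ Icc (-1 : ℝ) 1) : b - c ≤ b - c * x := by
  have := mul_le_mul_of_nonneg_left hx.2 hc0.le
  linarith

theorem C1_meas (b c s : ℝ) :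
    Measurable (fun x : ℝ => Real.log ((b - c * x) / (s + (b - c * x)))) := by
  fun_prop

theorem C1_int {b c : ℝ} (hc0 : 0 < c) (hcb : c < b) (σ : Measure ℝ) [IsProbabilityMeasure σ]
    (hσ : σ (Icc (-1) 1)ᶜ = 0) {s : ℝ} (hs : c - b < s) :
    Integrable (fun x : ℝ => Real.log ((b - c * x) / (s + (b - c * x)))) σ := by
  refine Integrable.of_bound (C1_meas b c s).aestronglyMeasurable
    (|Real.log (b - c)| + |Real.log (b + c)| + (|Real.log (s + (b - c))| + |Real.log (s + (b + c))|)) ?_
  filter_upwards [C1_ae hσ] with x hx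
  have h1 : b - c ≤ b - c * x := C1_low hc0 hx
  have h2 : b - c * x ≤ b + c := by
    have := mul_le_mul_of_nonneg_left hx.1 hc0.le
    linarith
  have h0 : 0 < b - c := by linarith
  have h3 : 0 < b - c * x := by linarith
  have h4 : 0 < s + (b - c) := by linarith
  have h5 : 0 < s + (b - c * x) := by linarith
  rw [Real.log_div h3.ne' h5.ne', Real.norm_eq_abs]
  have e1 : |Real.log (b - c * x)| ≤ |Real.log (b - c)| + |Real.log (b + c)| := by
    have a1 := Real.log_le_log h0 h1
    have a2 := Real.log_le_log h3 h2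
    rw [abs_le]
    constructor
    · have := neg_abs_le (Real.log (b - c))
      have := abs_nonneg (Real.log (b + c))
      linarith
    · have := le_abs_self (Real.log (b + c))
      have := abs_nonneg (Real.log (b - c))
      linarith
  have e2 : |Real.log (s + (b - c * x))| ≤ |Real.log (s + (b - c))| + |Real.log (s + (b + c))| := by
    have a1 := Real.log_le_log h4 (show s + (b - c) ≤ s + (b - c * x) by linarith)
    have a2 := Real.log_le_log h5 (show s + (b - c * x) ≤ s + (b + c) by linarith)
    rw [abs_le]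
    constructor
    · have := neg_abs_le (Real.log (s + (b - c)))
      have := abs_nonneg (Real.log (s + (b + c)))
      linarith
    · have := le_abs_self (Real.log (s + (b + c)))
      have := abs_nonneg (Real.log (s + (b - c)))
      linarith
  exact (abs_sub _ _).trans (add_le_add e1 e2)

theorem C1_deriv {b c : ℝ} (hc0 : 0 < c) (hcb : c < b) (σ : Measure ℝ) [IsProbabilityMeasure σ]
    (hσ : σ (Icc (-1) 1)ᶜ = 0) {s : ℝ} (hs : c - b < s) :
    HasDerivAt (fun s : ℝ => ∫ x, Real.log ((b - c * x) / (s + (b - c * x))) ∂σ)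
      (∫ x, -(1 / (s + (b - c * x))) ∂σ) s := by
  have hε : 0 < (s - (c - b)) / 2 := by linarith
  refine (hasDerivAt_integral_of_dominated_loc_of_deriv_le (μ := σ)
    (F := fun (s : ℝ) (x : ℝ) => Real.log ((b - c * x) / (s + (b - c * x))))
    (F' := fun (s : ℝ) (x : ℝ) => -(1 / (s + (b - c * x))))
    (bound := fun _ => 1 / ((s - (c - b)) / 2))
    (Metric.ball_mem_nhds s hε)
    (Eventually.of_forall fun s => (C1_meas b c s).aestronglyMeasurable)
    (C1_int hc0 hcb σ hσ hs)
    (Measurable.aestronglyMeasurable (by fun_prop)) ?_ (integrable_const _) ?_).2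
  · filter_upwards [C1_ae hσ] with x hx
    intro r hr
    have h1 : b - c ≤ b - c * x := C1_low hc0 hx
    have h2 := (Metric.mem_ball.1 hr)
    rw [Real.dist_eq, abs_lt] at h2
    have h3 : (s - (c - b)) / 2 ≤ r + (b - c * x) := by linarith [h2.1]
    rw [norm_neg, Real.norm_eq_abs, abs_of_pos (one_div_pos.2 (hε.trans_le h3))]
    exact one_div_le_one_div_of_le hε h3
  · filter_upwards [C1_ae hσ] with x hx
    intro r hr
    have h1 : b - c ≤ b - c * x := C1_low hc0 hx
    have h2 := (Metric.mem_ball.1 hr)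
    rw [Real.dist_eq, abs_lt] at h2
    have h3 : (s - (c - b)) / 2 ≤ r + (b - c * x) := by linarith [h2.1]
    have h4 : 0 < r + (b - c * x) := hε.trans_le h3
    have h5 : 0 < b - c * x := by linarith
    have h6 : HasDerivAt (fun r : ℝ => Real.log (b - c * x) - Real.log (r + (b - c * x)))
        (0 - 1 / (r + (b - c * x))) r := by
      refine (hasDerivAt_const r (Real.log (b - c * x))).sub ?_
      exact ((hasDerivAt_id r).add_const (b - c * x)).log h4.ne'
    rw [zero_sub] at h6
    refine h6.congr_of_eventuallyEq ?_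
    have h7 : ∀ᶠ y in 𝓝 r, 0 < y + (b - c * x) := by
      have : Continuous fun y : ℝ => y + (b - c * x) := by fun_prop
      exact this.continuousAt.eventually (lt_mem_nhds h4)
    filter_upwards [h7] with y hy
    exact Real.log_div h5.ne' hy.ne'

/-- C1. -/
theorem ggc_of_rep_proof {α β γ b c M : ℝ} (hα : 0 < α) (hβ : 0 < β) (hγ : 0 < γ) (hc0 : 0 < c)
    (hcb : c < b) (hM : 0 < M) {L : ℝ → ℝ}
    (hL : ∀ s, 0 ≤ s → L s = M * ((b + s) ^ (-(2 * β)) * F α β γ (c ^ 2 / (b + s) ^ 2)))
    (hL0 : L 0 = 1) (σ : Measure ℝ) [IsProbabilityMeasure σ] (hσ : σ (Icc (-1) 1)ᶜ = 0)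
    (hrep : ∀ p : ℝ, 1 < p →
      F α (β + 1) γ (1 / p ^ 2) / (p * F α β γ (1 / p ^ 2)) = ∫ x, 1 / (p - x) ∂σ) :
    ∃ U : Measure ℝ, U (Iic 0) = 0 ∧
      (∀ s : ℝ, 0 ≤ s → Integrable (fun t => Real.log (t / (s + t))) U) ∧
      ∀ s : ℝ, 0 ≤ s → L s = Real.exp (∫ t, Real.log (t / (s + t)) ∂U) := by
  have hg : Measurable (fun x : ℝ => b - c * x) := by fun_prop
  have hlog : ∀ s : ℝ, Measurable (fun t : ℝ => Real.log (t / (s + t))) := fun s => by fun_prop
  have h2β : 0 < 2 * β := by linarith
  refine ⟨ENNReal.ofReal (2 * β) • σ.map (fun x => b - c * x), ?_, ?_, ?_⟩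
  · have h1 : (σ.map (fun x => b - c * x)) (Iic 0) = 0 := by
      rw [Measure.map_apply hg measurableSet_Iic]
      refine measure_mono_null ?_ hσ
      intro x hx hx'
      have h1 : b - c ≤ b - c * x := C1_low hc0 hx'
      have h2 : b - c * x ≤ 0 := hx
      linarith
    rw [Measure.smul_apply, h1, smul_zero]
  · intro s hs
    refine Integrable.smul_measure ?_ ENNReal.ofReal_ne_top
    rw [integrable_map_measure (hlog s).aestronglyMeasurable hg.aemeasurable]
    exact C1_int hc0 hcb σ hσ (by linarith)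
  · have hint : ∀ s : ℝ, ∫ t, Real.log (t / (s + t)) ∂(ENNReal.ofReal (2 * β) •
        σ.map (fun x => b - c * x)) =
        2 * β * ∫ x, Real.log ((b - c * x) / (s + (b - c * x))) ∂σ := by
      intro s
      rw [integral_smul_measure, ENNReal.toReal_ofReal h2β.le,
        integral_map hg.aemeasurable (hlog s).aestronglyMeasurable, smul_eq_mul]
    -- the function `G s = M (b+s)^(-2β) F(...)`
    obtain ⟨G, hG⟩ : ∃ G : ℝ → ℝ, G = fun s =>
        (b + s) ^ (-(2 * β)) * F α β γ (c ^ 2 / (b + s) ^ 2) := ⟨_, rfl⟩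
    have hz : ∀ s : ℝ, c - b < s → 0 ≤ c ^ 2 / (b + s) ^ 2 ∧ c ^ 2 / (b + s) ^ 2 < 1 := by
      intro s hs
      have h1 : c < b + s := by linarith
      have h2 : 0 < b + s := hc0.trans h1
      refine ⟨div_nonneg (sq_nonneg _) (sq_nonneg _), ?_⟩
      rw [div_lt_one (pow_pos h2 2)]
      exact pow_lt_pow_left₀ h1 hc0.le two_ne_zero
    have hGpos : ∀ s : ℝ, c - b < s → 0 < G s := by
      intro s hs
      rw [hG]
      exact mul_pos (Real.rpow_pos_of_pos (by linarith) _)
        (F_pos hα hβ hγ (hz s hs).1 (hz s hs).2)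
    have hd : ∀ s : ℝ, c - b < s →
        HasDerivAt (fun s : ℝ => Real.log (M * G s)
          - 2 * β * ∫ x, Real.log ((b - c * x) / (s + (b - c * x))) ∂σ) 0 s := by
      intro s hs
      have h1 : c < b + s := by linarith
      have h2 : 0 < b + s := hc0.trans h1
      have k1 := hasDerivAt_L hα hβ hγ hc0 h1
      rw [← hG] at k1
      have k2 := (k1.const_mul M).log (mul_pos hM (hGpos s hs)).ne'
      have k3 := k2.sub ((C1_deriv hc0 hcb σ hσ hs).const_mul (2 * β))
      refine k3.congr_deriv ?_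
      have hp : 1 < (b + s) / c := by rwa [one_lt_div hc0]
      have k4 := hrep _ hp
      have e1 : 1 / ((b + s) / c) ^ 2 = c ^ 2 / (b + s) ^ 2 := by
        rw [div_pow, one_div_div]
      rw [e1] at k4
      have e2 : ∫ x, 1 / ((b + s) / c - x) ∂σ = c * ∫ x, 1 / (s + (b - c * x)) ∂σ := by
        rw [← integral_const_mul]
        refine integral_congr_ae ?_
        filter_upwards [C1_ae hσ] with x hx
        have h3 : b - c ≤ b - c * x := C1_low hc0 hx
        have h4 : s + (b - c * x) ≠ 0 := by
          have : 0 < s + (b - c * x) := by linarith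
          exact this.ne'
        have h5 : (b + s) / c - x ≠ 0 := by
          have : (b + s) / c - x = (s + (b - c * x)) / c := by
            field_simp
            ring
          rw [this]
          exact div_ne_zero h4 hc0.ne'
        have e3 : (b + s) / c - x = (s + (b - c * x)) / c := by
          field_simp
          ring
        rw [e3, one_div_div, mul_one_div]
      rw [e2] at k4
      rw [integral_neg]
      have hF := F_pos hα hβ hγ (hz s hs).1 (hz s hs).2
      have e4 : ∫ x, 1 / (s + (b - c * x)) ∂σ =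
          F α (β + 1) γ (c ^ 2 / (b + s) ^ 2) / ((b + s) * F α β γ (c ^ 2 / (b + s) ^ 2)) := by
        have hc' := hc0.ne'
        have : c * ∫ x, 1 / (s + (b - c * x)) ∂σ = c *
          (F α (β + 1) γ (c ^ 2 / (b + s) ^ 2) / ((b + s) * F α β γ (c ^ 2 / (b + s) ^ 2))) := by
          rw [← k4]
          have hF' := hF.ne'
          have h2' := h2.ne'
          field_simp
        exact mul_left_cancel₀ hc' this
      rw [e4, hG]
      have hr : (b + s) ^ (-(2 * β) - 1) = (b + s) ^ (-(2 * β)) / (b + s) := by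
        rw [Real.rpow_sub h2, Real.rpow_one]
      have hR : 0 < (b + s) ^ (-(2 * β)) := Real.rpow_pos_of_pos h2 _
      simp only []
      rw [hr]
      have hF' := hF.ne'
      have hR' := hR.ne'
      have h2' := h2.ne'
      have hM' := hM.ne'
      field_simp
      ring
    intro s hs
    have hconst := IsOpen.is_const_of_deriv_eq_zero (isOpen_Ioi (a := c - b))
      isPreconnected_Ioi (f := fun s : ℝ => Real.log (M * G s)
          - 2 * β * ∫ x, Real.log ((b - c * x) / (s + (b - c * x))) ∂σ)
      (fun y hy => (hd y hy).differentiableAt.differentiableWithinAt)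
      (fun y hy => (hd y hy).deriv)
      (x := s) (y := 0) (show c - b < s by linarith) (show c - b < 0 by linarith)
    have hs0 : ∫ x, Real.log ((b - c * x) / ((0 : ℝ) + (b - c * x))) ∂σ = 0 := by
      refine integral_eq_zero_of_ae ?_
      filter_upwards [C1_ae hσ] with x hx
      have h3 : b - c ≤ b - c * x := C1_low hc0 hx
      have h4 : b - c * x ≠ 0 := by
        have : 0 < b - c * x := by linarith
        exact this.ne'
      rw [zero_add, div_self h4, Real.log_one]
      rfl
    have hG0 : M * G 0 = 1 := by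
      rw [← hL0, hL 0 le_rfl, hG]
    simp only [hs0, hG0, Real.log_one, mul_zero, sub_zero] at hconst
    rw [hint, ← sub_eq_zero.1 hconst, Real.exp_log (mul_pos hM (hGpos s (by linarith))),
      hL s hs, hG]

end Pool.Agent.H967.GGC
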