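import Pool.Agent.H967.GGC.Al1

set_option autoImplicit false

/-!
# GGC project, leaf D1: the Laplace transform of `phi`
-/

namespace Pool.Agent.H967.GGC
open MeasureTheory Filter Topology Set

/-- the coefficients -/
noncomputable def D1_d (μ a : ℝ) (k : ℕ) : ℝ :=
  (a / 2) ^ (2 * (k : ℝ) + μ) / ((k.factorial : ℝ) * Real.Gamma (k + μ + 1))

theorem D1_d_pos {μ a : ℝ} (hμ : -1 < μ) (ha : 0 < a) (k : ℕ) : 0 < D1_d μ a k := by
  unfold D1_d
  have h1 : (0:ℝ) < k + μ + 1 := by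
    have : (0:ℝ) ≤ k := Nat.cast_nonneg k
    linarith
  have h2 := Real.Gamma_pos_of_pos h1
  positivity

theorem D1_d_succ {μ a : ℝ} (hμ : -1 < μ) (ha : 0 < a) (k : ℕ) :
    D1_d μ a (k + 1) = D1_d μ a k * ((a / 2) ^ 2 / (((k:ℝ) + 1) * (k + μ + 1))) := by
  have h0 : (0:ℝ) ≤ k := Nat.cast_nonneg k
  have h1 : (0:ℝ) < k + μ + 1 := by linarith
  have h2 := Real.Gamma_pos_of_pos h1
  have h3 : ((k + 1 : ℕ) : ℝ) + μ + 1 = (k + μ + 1) + 1 := by push_cast; ring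
  have h4 : 2 * ((k + 1 : ℕ) : ℝ) + μ = (2 * (k:ℝ) + μ) + (2:ℕ) := by push_cast; ring
  have h5 : 0 < a / 2 := by positivity
  unfold D1_d
  rw [h3, Real.Gamma_add_one h1.ne', h4, Real.rpow_add_natCast h5.ne', Nat.factorial_succ]
  push_cast
  have h6 : (k.factorial : ℝ) ≠ 0 := by positivity
  have h7 : (k:ℝ) + 1 ≠ 0 := by positivity
  field_simp

theorem D1_coeff {μ ν a : ℝ} (hμ : -1 < μ) (hμν : 0 < μ + ν) (ha : 0 < a) (k : ℕ) :
    D1_d μ a k * Real.Gamma (2 * k + 2 * ((μ + ν) / 2)) =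
      ((a / 2) ^ μ * Real.Gamma (μ + ν) / Real.Gamma (μ + 1)) *
        (hc ((μ + ν + 1) / 2) ((μ + ν) / 2) (μ + 1) k * a ^ (2 * k)) := by
  induction k with
  | zero =>
    have e1 : 2 * ((0:ℕ):ℝ) + 2 * ((μ + ν) / 2) = μ + ν := by push_cast; ring
    rw [e1, hc_zero]
    unfold D1_d
    simp
    ring
  | succ k ih =>
    have h0 : (0:ℝ) ≤ k := Nat.cast_nonneg k
    have h1 : (0:ℝ) < k + μ + 1 := by linarith
    have h2 : (0:ℝ) < 2 * k + 2 * ((μ + ν) / 2) := by linarith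
    have e1 : 2 * ((k + 1 : ℕ) : ℝ) + 2 * ((μ + ν) / 2) = (2 * k + 2 * ((μ + ν) / 2) + 1) + 1 := by
      push_cast; ring
    rw [D1_d_succ hμ ha, e1, Real.Gamma_add_one (by linarith), Real.Gamma_add_one h2.ne', hc_succ]
    have e2 : a ^ (2 * (k + 1)) = a ^ (2 * k) * a ^ 2 := by ring
    rw [e2]
    calc D1_d μ a k * ((a / 2) ^ 2 / (((k:ℝ) + 1) * (k + μ + 1))) *
          ((2 * k + 2 * ((μ + ν) / 2) + 1) * ((2 * k + 2 * ((μ + ν) / 2)) *
            Real.Gamma (2 * k + 2 * ((μ + ν) / 2))))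
        = (D1_d μ a k * Real.Gamma (2 * k + 2 * ((μ + ν) / 2))) *
          ((a / 2) ^ 2 / (((k:ℝ) + 1) * (k + μ + 1)) *
          ((2 * k + 2 * ((μ + ν) / 2) + 1) * (2 * k + 2 * ((μ + ν) / 2)))) := by ring
      _ = _ := by
        rw [ih]
        have h7 : (k:ℝ) + 1 ≠ 0 := by positivity
        have h8 : μ + 1 + k ≠ 0 := by linarith
        have h9 : k + μ + 1 ≠ 0 := h1.ne'
        have h10 : (k:ℝ) + μ + 1 = μ + 1 + k := by ring
        rw [h10]
        field_simp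
        ring

theorem D1_summable {μ a x : ℝ} (hμ : -1 < μ) (ha : 0 < a) (hx : 0 < x) :
    Summable (fun k : ℕ => D1_d μ a k * x ^ (2 * (k:ℝ) + μ)) := by
  refine summable_of_ratio_test_tendsto_lt_one (l := 0) one_pos ?_ ?_
  · refine Eventually.of_forall fun k => ?_
    exact mul_ne_zero (D1_d_pos hμ ha k).ne' (Real.rpow_pos_of_pos hx _).ne'
  · have h1 : Tendsto (fun k : ℕ => (a * x / 2) ^ 2 * ((1 / ((k:ℝ) + 1)) * (1 / ((k:ℝ) + (μ + 1)))))
        atTop (𝓝 ((a * x / 2) ^ 2 * (0 * 0))) := by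
      refine Tendsto.const_mul _ (Tendsto.mul ?_ ?_)
      · exact tendsto_one_div_add_atTop_nhds_zero_nat
      · simp only [one_div]
        refine tendsto_inv_atTop_zero.comp ?_
        exact tendsto_atTop_add_const_right _ _ tendsto_natCast_atTop_atTop
    rw [mul_zero, mul_zero] at h1
    refine h1.congr fun k => ?_
    have h0 : (0:ℝ) ≤ k := Nat.cast_nonneg k
    have h2 : (0:ℝ) < k + μ + 1 := by linarith
    have hd := D1_d_pos hμ ha k
    have hd' := D1_d_pos hμ ha (k + 1)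
    have hx1 := Real.rpow_pos_of_pos hx (2 * (k:ℝ) + μ)
    have hx2 := Real.rpow_pos_of_pos hx (2 * ((k + 1 : ℕ):ℝ) + μ)
    rw [Real.norm_of_nonneg (by positivity), Real.norm_of_nonneg (by positivity),
      D1_d_succ hμ ha]
    have h4 : 2 * ((k + 1 : ℕ) : ℝ) + μ = (2 * (k:ℝ) + μ) + (2:ℕ) := by push_cast; ring
    rw [h4, Real.rpow_add_natCast hx.ne']
    have h7 : (k:ℝ) + 1 ≠ 0 := by positivity
    have h8 : (k:ℝ) + (μ + 1) = k + μ + 1 := by ring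
    rw [h8]
    field_simp

theorem D1_hasSum {μ ν a b : ℝ} (hμ : -1 < μ) (ha : 0 < a) (x : ℝ) (hx : 0 < x) :
    HasSum (fun k : ℕ => D1_d μ a k *
      (x ^ (2 * (k : ℝ) + 2 * ((μ + ν) / 2) - 1) * Real.exp (-(b * x)))) (phi μ ν a b x) := by
  have h1 := (D1_summable hμ ha hx).hasSum
  have h2 : besselI μ (a * x) = ∑' k : ℕ, D1_d μ a k * x ^ (2 * (k:ℝ) + μ) := by
    unfold besselI D1_d
    refine tsum_congr fun k => ?_
    have e1 : a * x / 2 = (a / 2) * x := by ring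
    rw [e1, Real.mul_rpow (by positivity) hx.le]
    ring
  rw [← h2] at h1
  have h3 := h1.mul_left (x ^ (ν - 1) * Real.exp (-(b * x)))
  have h4 : (fun k : ℕ => D1_d μ a k *
      (x ^ (2 * (k : ℝ) + 2 * ((μ + ν) / 2) - 1) * Real.exp (-(b * x)))) =
      fun k : ℕ => x ^ (ν - 1) * Real.exp (-(b * x)) * (D1_d μ a k * x ^ (2 * (k:ℝ) + μ)) := by
    funext k
    have e1 : 2 * (k : ℝ) + 2 * ((μ + ν) / 2) - 1 = (ν - 1) + (2 * (k:ℝ) + μ) := by ring
    rw [e1, Real.rpow_add hx]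
    ring
  rw [h4]
  exact h3

/-- D1. -/
theorem laplace_phi_proof {μ ν a b : ℝ} (hμ : -1 < μ) (hμν : 0 < μ + ν) (ha : 0 < a)
    (hab : a < b) :
    ∃ M : ℝ, 0 < M ∧ ∀ s : ℝ, 0 ≤ s →
      IntegrableOn (fun x => Real.exp (-(s * x)) * phi μ ν a b x) (Ioi 0) ∧
      ∫ x in Ioi (0 : ℝ), Real.exp (-(s * x)) * phi μ ν a b x =
        M * ((b + s) ^ (-(2 * ((μ + ν) / 2))) *
          F ((μ + ν + 1) / 2) ((μ + ν) / 2) (μ + 1) (a ^ 2 / (b + s) ^ 2)) := by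
  have hM : 0 < (a / 2) ^ μ * Real.Gamma (μ + ν) / Real.Gamma (μ + 1) := by
    have h1 := Real.Gamma_pos_of_pos hμν
    have h2 := Real.Gamma_pos_of_pos (show 0 < μ + 1 by linarith)
    positivity
  refine ⟨_, hM, fun s hs => ?_⟩
  exact laplace_series (by linarith) (by linarith) (by linarith) ha hab hM (D1_d μ a)
    (D1_coeff hμ hμν ha) (phi μ ν a b) (D1_hasSum hμ ha) hs

end Pool.Agent.H967.GGC
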