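import Pool.Agent.H967.GGC.Al1

set_option autoImplicit false

namespace Pool.Agent.H967.GGC
open MeasureTheory Filter Topology Set

/-- the coefficient identity `d_m Γ(2m + 4μ + 1) = M hc_m (2a)^(2m)` -/
theorem laplace_xi_coeff {μ a : ℝ} (hμ : -1 / 4 < μ) (ha : 0 < a) (m : ℕ) :
    Real.Gamma (2 * m + 2 * μ + 1) /
      ((m.factorial : ℝ) * Real.Gamma (m + 2 * μ + 1) * Real.Gamma (m + μ + 1) ^ 2) *
        (a / 2) ^ (2 * (m : ℝ) + 2 * μ) * Real.Gamma (2 * m + 2 * (2 * μ + 1 / 2)) =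
    (a / 2) ^ (2 * μ) * Real.Gamma (4 * μ + 1) / Real.Gamma (μ + 1) ^ 2 *
      (hc (μ + 1 / 2) (2 * μ + 1 / 2) (μ + 1) m * (2 * a) ^ (2 * m)) := by
  induction m with
  | zero =>
    have h1 : 0 < Real.Gamma (2 * μ + 1) := Real.Gamma_pos_of_pos (by linarith)
    have h2 : 0 < Real.Gamma (μ + 1) := Real.Gamma_pos_of_pos (by linarith)
    have e1 : (2 * ((0 : ℕ) : ℝ) + 2 * μ + 1) = 2 * μ + 1 := by push_cast; ring
    have e2 : (((0 : ℕ) : ℝ) + 2 * μ + 1) = 2 * μ + 1 := by push_cast; ring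
    have e3 : (((0 : ℕ) : ℝ) + μ + 1) = μ + 1 := by push_cast; ring
    have e4 : (2 * ((0 : ℕ) : ℝ) + 2 * μ) = 2 * μ := by push_cast; ring
    have e5 : (2 * ((0 : ℕ) : ℝ) + 2 * (2 * μ + 1 / 2)) = 4 * μ + 1 := by push_cast; ring
    rw [e1, e2, e3, e4, e5, hc_zero, Nat.factorial_zero]
    simp only [Nat.cast_one, mul_zero, pow_zero, mul_one, one_mul]
    field_simp
  | succ m ih =>
    have hm : (0 : ℝ) ≤ m := Nat.cast_nonneg m
    have p1 : 0 < 2 * (m : ℝ) + 2 * μ + 1 := by linarith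
    have p2 : 0 < (m : ℝ) + 2 * μ + 1 := by linarith
    have p3 : 0 < (m : ℝ) + μ + 1 := by linarith
    have p4 : 0 < 2 * (m : ℝ) + 4 * μ + 1 := by linarith
    have e1 : Real.Gamma (2 * ((m + 1 : ℕ) : ℝ) + 2 * μ + 1) =
        (2 * m + 2 * μ + 2) * ((2 * m + 2 * μ + 1) * Real.Gamma (2 * m + 2 * μ + 1)) := by
      rw [show 2 * ((m + 1 : ℕ) : ℝ) + 2 * μ + 1 = (2 * (m : ℝ) + 2 * μ + 1 + 1) + 1 by
        push_cast; ring, Real.Gamma_add_one (by linarith), Real.Gamma_add_one p1.ne']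
      ring
    have e2 : Real.Gamma (((m + 1 : ℕ) : ℝ) + 2 * μ + 1) =
        (m + 2 * μ + 1) * Real.Gamma (m + 2 * μ + 1) := by
      rw [show ((m + 1 : ℕ) : ℝ) + 2 * μ + 1 = ((m : ℝ) + 2 * μ + 1) + 1 by push_cast; ring,
        Real.Gamma_add_one p2.ne']
    have e3 : Real.Gamma (((m + 1 : ℕ) : ℝ) + μ + 1) =
        (m + μ + 1) * Real.Gamma (m + μ + 1) := by
      rw [show ((m + 1 : ℕ) : ℝ) + μ + 1 = ((m : ℝ) + μ + 1) + 1 by push_cast; ring,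
        Real.Gamma_add_one p3.ne']
    have e4 : (a / 2) ^ (2 * ((m + 1 : ℕ) : ℝ) + 2 * μ) =
        (a / 2) ^ (2 * (m : ℝ) + 2 * μ) * (a / 2) ^ 2 := by
      rw [show 2 * ((m + 1 : ℕ) : ℝ) + 2 * μ = (2 * (m : ℝ) + 2 * μ) + ((2 : ℕ) : ℝ) by
        push_cast; ring, Real.rpow_add (by positivity), Real.rpow_natCast]
    have e5 : Real.Gamma (2 * ((m + 1 : ℕ) : ℝ) + 2 * (2 * μ + 1 / 2)) =
        (2 * m + 4 * μ + 2) * ((2 * m + 4 * μ + 1) *
          Real.Gamma (2 * m + 2 * (2 * μ + 1 / 2))) := by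
      have hq : (2 * (m : ℝ) + 2 * (2 * μ + 1 / 2)) ≠ 0 := by
        intro h
        linarith
      rw [show 2 * ((m + 1 : ℕ) : ℝ) + 2 * (2 * μ + 1 / 2) =
        (2 * (m : ℝ) + 2 * (2 * μ + 1 / 2) + 1) + 1 by push_cast; ring,
        Real.Gamma_add_one (by linarith), Real.Gamma_add_one hq]
      ring
    have e6 : (2 * a) ^ (2 * (m + 1)) = (2 * a) ^ (2 * m) * (2 * a) ^ 2 := by
      rw [mul_add, mul_one, pow_add]
    rw [e1, e2, e3, e4, e5, e6, hc_succ, Nat.factorial_succ, Nat.cast_mul, Nat.cast_succ]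
    have g1 : 0 < Real.Gamma (2 * m + 2 * μ + 1) := Real.Gamma_pos_of_pos p1
    have g2 : 0 < Real.Gamma (m + 2 * μ + 1) := Real.Gamma_pos_of_pos p2
    have g3 : 0 < Real.Gamma (m + μ + 1) := Real.Gamma_pos_of_pos p3
    have g4 : (0 : ℝ) < (m.factorial : ℝ) := by exact_mod_cast Nat.factorial_pos m
    have hr : (2 * (m : ℝ) + 2 * μ + 2) * (2 * m + 2 * μ + 1) * (2 * m + 4 * μ + 2) *
        (2 * m + 4 * μ + 1) / ((m + 1) * (m + 2 * μ + 1) * (m + μ + 1) ^ 2) * (a / 2) ^ 2 =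
        (μ + 1 / 2 + m) * (2 * μ + 1 / 2 + m) / ((μ + 1 + m) * (m + 1)) * (2 * a) ^ 2 := by
      have q1 : (μ + 1 + m) ≠ 0 := by
        intro h
        linarith
      have q2 : ((m : ℝ) + 1) ≠ 0 := by positivity
      have q3 := p2.ne'
      have q4 := p3.ne'
      rw [← sub_eq_zero]
      field_simp
      ring
    calc (2 * (m : ℝ) + 2 * μ + 2) * ((2 * m + 2 * μ + 1) * Real.Gamma (2 * m + 2 * μ + 1)) /
          (((m : ℝ) + 1) * (m.factorial : ℝ) * ((m + 2 * μ + 1) * Real.Gamma (m + 2 * μ + 1)) *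
            ((m + μ + 1) * Real.Gamma (m + μ + 1)) ^ 2) *
          ((a / 2) ^ (2 * (m : ℝ) + 2 * μ) * (a / 2) ^ 2) *
          ((2 * m + 4 * μ + 2) * ((2 * m + 4 * μ + 1) *
            Real.Gamma (2 * m + 2 * (2 * μ + 1 / 2))))
        = (Real.Gamma (2 * m + 2 * μ + 1) /
            ((m.factorial : ℝ) * Real.Gamma (m + 2 * μ + 1) * Real.Gamma (m + μ + 1) ^ 2) *
            (a / 2) ^ (2 * (m : ℝ) + 2 * μ) * Real.Gamma (2 * m + 2 * (2 * μ + 1 / 2))) *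
          ((2 * (m : ℝ) + 2 * μ + 2) * (2 * m + 2 * μ + 1) * (2 * m + 4 * μ + 2) *
            (2 * m + 4 * μ + 1) / ((m + 1) * (m + 2 * μ + 1) * (m + μ + 1) ^ 2) *
            (a / 2) ^ 2) := by
          field_simp
      _ = _ := by
          rw [ih, hr]
          ring

theorem laplace_xi_congr {f g : ℕ → ℝ} {a : ℝ} (h : HasSum f a) (hfg : ∀ m, g m = f m) :
    HasSum g a := by
  rwa [show g = f from funext hfg]

/-- D3. -/
theorem laplace_xi_proof {μ a b : ℝ} (hμ : -1 / 4 < μ) (ha : 0 < a) (hab : 2 * a < b) :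
    ∃ M : ℝ, 0 < M ∧ ∀ s : ℝ, 0 ≤ s →
      IntegrableOn (fun x => Real.exp (-(s * x)) * xi μ a b x) (Ioi 0) ∧
      ∫ x in Ioi (0 : ℝ), Real.exp (-(s * x)) * xi μ a b x =
        M * ((b + s) ^ (-(2 * (2 * μ + 1 / 2))) *
          F (μ + 1 / 2) (2 * μ + 1 / 2) (μ + 1) ((2 * a) ^ 2 / (b + s) ^ 2)) := by
  have hG4 : 0 < Real.Gamma (4 * μ + 1) := Real.Gamma_pos_of_pos (by linarith)
  have hG1 : 0 < Real.Gamma (μ + 1) := Real.Gamma_pos_of_pos (by linarith)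
  have hM : 0 < (a / 2) ^ (2 * μ) * Real.Gamma (4 * μ + 1) / Real.Gamma (μ + 1) ^ 2 := by
    positivity
  refine ⟨_, hM, fun s hs => ?_⟩
  refine laplace_series (α := μ + 1 / 2) (β := 2 * μ + 1 / 2) (γ := μ + 1) (b := b) (c := 2 * a)
    (by linarith) (by linarith) (by linarith) (by linarith) hab hM
    (fun m : ℕ => Real.Gamma (2 * m + 2 * μ + 1) /
      ((m.factorial : ℝ) * Real.Gamma (m + 2 * μ + 1) * Real.Gamma (m + μ + 1) ^ 2) *
        (a / 2) ^ (2 * (m : ℝ) + 2 * μ)) (laplace_xi_coeff hμ ha) (xi μ a b) ?_ hs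
  intro x hx
  have h1 := (besselI_sq (μ := μ) (x := a * x) hμ (mul_pos ha hx)).mul_left
    (x ^ (2 * μ) * Real.exp (-(b * x)))
  unfold xi
  refine laplace_xi_congr h1 fun m => ?_
  have e1 : (a * x / 2) ^ (2 * (m : ℝ) + 2 * μ) =
      (a / 2) ^ (2 * (m : ℝ) + 2 * μ) * x ^ (2 * (m : ℝ) + 2 * μ) := by
    rw [show a * x / 2 = a / 2 * x by ring, Real.mul_rpow (by positivity) hx.le]
  have e2 : x ^ (2 * (m : ℝ) + 2 * (2 * μ + 1 / 2) - 1) =
      x ^ (2 * μ) * x ^ (2 * (m : ℝ) + 2 * μ) := by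
    rw [← Real.rpow_add hx]
    congr 1
    ring
  rw [e1, e2]
  ring

end Pool.Agent.H967.GGC
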