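import Pool.Agent.H967.GGC.Al1

set_option autoImplicit false

/-!
# GGC, leaf E3: expansion of the logarithmic derivative at infinity
-/

namespace Pool.Agent.H967.GGC
open MeasureTheory Filter Topology Set

theorem asym_z (c : ℝ) : Tendsto (fun p : ℝ => c ^ 2 / p ^ 2) atTop (𝓝 0) :=
  tendsto_const_nhds.div_atTop (tendsto_pow_atTop two_ne_zero)

/-- the three relations -/
theorem asym_rel {α β γ z k1 k2 k3 : ℝ} (hα : 0 < α) (hβ : 0 < β) (hγ : 0 < γ) (hz0 : 0 ≤ z)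
    (hz : z < 1) (h1 : k1 = α / γ) (h2 : k2 = (1 - α / γ) * ((β + 1) / (γ + 1)))
    (h3 : k3 = (1 - (β + 1) / (γ + 1)) * ((α + 1) / (γ + 2))) :
    F α (β + 1) γ z = F α β γ z + k1 * z * F (α + 1) (β + 1) (γ + 1) z ∧
    F (α + 1) (β + 1) (γ + 1) z = F α (β + 1) γ z + k2 * z * F (α + 1) (β + 1 + 1) (γ + 2) z ∧
    F (α + 1) (β + 1 + 1) (γ + 2) z = F (α + 1) (β + 1) (γ + 1) z +
      k3 * z * F (α + 1 + 1) (β + 1 + 1) (γ + 1 + 2) z := by
  refine ⟨?_, ?_, ?_⟩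
  · rw [F_contig hα hβ hγ hz0 hz, h1]
    ring
  · have e := F_gauss (a := β + 1) (b := α) (c := γ) (by positivity) hα hγ hz0 hz
    rw [F_comm (β + 1) α γ z, F_comm (β + 1) (α + 1) (γ + 1) z,
      F_comm (β + 1 + 1) (α + 1) (γ + 2) z] at e
    have e2 : k2 = (β + 1) * (γ - α) / (γ * (γ + 1)) := by
      rw [h2]
      field_simp
    rw [e, e2]
    ring
  · have e := F_gauss (a := α + 1) (b := β + 1) (c := γ + 1) (by positivity) (by positivity)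
      (by positivity) hz0 hz
    have e3 : k3 = (α + 1) * (γ + 1 - (β + 1)) / ((γ + 1) * (γ + 1 + 1)) := by
      rw [h3]
      field_simp
      ring
    rw [show γ + 1 + 1 = γ + 2 by ring] at e e3
    rw [e, e3]
    ring

/-- Expansion of the logarithmic derivative at infinity -/
theorem asym_proof {α β γ c k1 k2 k3 : ℝ} (hα : 0 < α) (hβ : 0 < β) (hγ : 0 < γ) (hc0 : 0 < c)
    (h1 : k1 = α / γ) (h2 : k2 = (1 - α / γ) * ((β + 1) / (γ + 1)))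
    (h3 : k3 = (1 - (β + 1) / (γ + 1)) * ((α + 1) / (γ + 2))) :
    Tendsto (fun p : ℝ => p ^ 7 * (F α (β + 1) γ (c ^ 2 / p ^ 2) / (p * F α β γ (c ^ 2 / p ^ 2))
      - 1 / p - k1 * c ^ 2 / p ^ 3 - k1 * (k1 + k2) * c ^ 4 / p ^ 5)) atTop
      (𝓝 (k1 * ((k1 + k2) ^ 2 + k2 * k3) * c ^ 6)) := by
  have hz := asym_z c
  have t0 := (F_tendsto_one hα hβ hγ).comp hz
  have t2 := (F_tendsto_one (a := α + 1) (b := β + 1) (c := γ + 1) (by positivity)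
    (by positivity) (by positivity)).comp hz
  have t3 := (F_tendsto_one (a := α + 1) (b := β + 1 + 1) (c := γ + 2) (by positivity)
    (by positivity) (by positivity)).comp hz
  have t4 := (F_tendsto_one (a := α + 1 + 1) (b := β + 1 + 1) (c := γ + 1 + 2) (by positivity)
    (by positivity) (by positivity)).comp hz
  have key : Tendsto (fun p : ℝ => c ^ 6 * k1 * ((k1 + k2) *
      (k1 * (F (α + 1) (β + 1) (γ + 1) ∘ fun p : ℝ => c ^ 2 / p ^ 2) p +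
        k2 * (F (α + 1) (β + 1 + 1) (γ + 2) ∘ fun p : ℝ => c ^ 2 / p ^ 2) p) +
      k2 * k3 * (F (α + 1 + 1) (β + 1 + 1) (γ + 1 + 2) ∘ fun p : ℝ => c ^ 2 / p ^ 2) p) /
      (F α β γ ∘ fun p : ℝ => c ^ 2 / p ^ 2) p) atTop
      (𝓝 (c ^ 6 * k1 * ((k1 + k2) * (k1 * 1 + k2 * 1) + k2 * k3 * 1) / 1)) :=
    ((((t2.const_mul k1).add (t3.const_mul k2)).const_mul (k1 + k2)).add
      (t4.const_mul (k2 * k3))).const_mul (c ^ 6 * k1) |>.div t0 one_ne_zero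
  rw [show c ^ 6 * k1 * ((k1 + k2) * (k1 * 1 + k2 * 1) + k2 * k3 * 1) / 1 =
    k1 * ((k1 + k2) ^ 2 + k2 * k3) * c ^ 6 by ring] at key
  refine key.congr' ?_
  filter_upwards [eventually_gt_atTop c] with p hp
  have hp0 : 0 < p := hc0.trans hp
  have hz0 : 0 ≤ c ^ 2 / p ^ 2 := by positivity
  have hz1 : c ^ 2 / p ^ 2 < 1 := by
    rw [div_lt_one (by positivity)]
    exact pow_lt_pow_left₀ hp hc0.le two_ne_zero
  obtain ⟨r1, r2, r3⟩ := asym_rel (k1 := k1) (k2 := k2) (k3 := k3) hα hβ hγ hz0 hz1 h1 h2 h3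
  have hA0 := F_pos hα hβ hγ hz0 hz1
  simp only [Function.comp_apply]
  set z := c ^ 2 / p ^ 2 with hzd
  set A0 := F α β γ z
  set A1 := F α (β + 1) γ z
  set A2 := F (α + 1) (β + 1) (γ + 1) z
  set A3 := F (α + 1) (β + 1 + 1) (γ + 2) z
  set A4 := F (α + 1 + 1) (β + 1 + 1) (γ + 1 + 2) z
  have hcz : c ^ 2 = z * p ^ 2 := by
    rw [hzd]
    field_simp
  have hc4 : c ^ 4 = z ^ 2 * p ^ 4 := by
    rw [show c ^ 4 = (c ^ 2) ^ 2 by ring, hcz]
    ring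
  have hc6 : c ^ 6 = z ^ 3 * p ^ 6 := by
    rw [show c ^ 6 = (c ^ 2) ^ 3 by ring, hcz]
    ring
  have hR : p ^ 7 * (A1 / (p * A0) - 1 / p - k1 * c ^ 2 / p ^ 3 - k1 * (k1 + k2) * c ^ 4 / p ^ 5)
      = p ^ 6 * ((A1 - A0 - k1 * z * A0 - k1 * (k1 + k2) * z ^ 2 * A0) / A0) := by
    rw [hcz, hc4]
    field_simp
  rw [hR, hc6]
  have hnum : A1 - A0 - k1 * z * A0 - k1 * (k1 + k2) * z ^ 2 * A0 =
      z ^ 3 * k1 * ((k1 + k2) * (k1 * A2 + k2 * A3) + k2 * k3 * A4) := by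
    have e2 : A2 = A0 + z * (k1 * A2 + k2 * A3) := by linear_combination r2 + r1
    have e3 : A3 = A0 + z * (k1 * A2 + k2 * A3 + k3 * A4) := by linear_combination r3 + r2 + r1
    linear_combination r1 + k1 * z * e2 + k1 ^ 2 * z ^ 2 * e2 + k1 * k2 * z ^ 2 * e3
  rw [hnum]
  ring

end Pool.Agent.H967.GGC
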