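import Pool.Agent.H967.GGC.B3
import Pool.Agent.H967.GGC.C1
import Pool.Agent.H967.GGC.D1
import Pool.Agent.H967.GGC.D3
import Pool.Agent.H967.GGC.E3

set_option autoImplicit false

namespace Pool.Agent.H967.GGC

alias stieltjes := stieltjes_proof
alias ggc_of_rep := ggc_of_rep_proof
alias laplace_phi := laplace_phi_proof
alias laplace_xi := laplace_xi_proof
alias asym := asym_proof

end Pool.Agent.H967.GGC
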