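import Pool.Agent.H967.GGC.Al1

set_option autoImplicit false

/-!
# The Stieltjes representation of the ratio of hypergeometric functions
-/

namespace Pool.Agent.H967.GGC
open MeasureTheory Filter Topology Set

/-- the chain sequence of parameters -/
noncomputable def stieltjes_g (α β γ : ℝ) (n : ℕ) : ℝ :=
  if n = 0 then 0 else if n % 2 = 1 then (α + (n / 2 : ℕ)) / (γ + 2 * (n / 2 : ℕ))
  else (β + (n / 2 : ℕ)) / (γ + 2 * (n / 2 : ℕ) - 1)

/-- the hypergeometric functions -/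
noncomputable def stieltjes_A (α β γ z : ℝ) (n : ℕ) : ℝ :=
  if n = 0 then F α β γ z else if n % 2 = 1 then
    F (α + (n / 2 : ℕ)) (β + (n / 2 : ℕ) + 1) (γ + 2 * (n / 2 : ℕ)) z
  else F (α + (n / 2 : ℕ)) (β + (n / 2 : ℕ)) (γ + 2 * (n / 2 : ℕ) - 1) z

section

variable {α β γ z : ℝ}

theorem stieltjes_g_zero : stieltjes_g α β γ 0 = 0 := by
  unfold stieltjes_g
  rw [if_pos rfl]

theorem stieltjes_g_odd (m : ℕ) : stieltjes_g α β γ (2 * m + 1) = (α + m) / (γ + 2 * m) := by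
  unfold stieltjes_g
  rw [if_neg (by omega), if_pos (by omega), show (2 * m + 1) / 2 = m by omega]

theorem stieltjes_g_even (m : ℕ) :
    stieltjes_g α β γ (2 * m + 2) = (β + m + 1) / (γ + 2 * m + 1) := by
  unfold stieltjes_g
  rw [if_neg (by omega), if_neg (by omega), show (2 * m + 2) / 2 = m + 1 by omega]
  push_cast
  congr 1 <;> ring

theorem stieltjes_A_zero : stieltjes_A α β γ z 0 = F α β γ z := by
  unfold stieltjes_A
  rw [if_pos rfl]

theorem stieltjes_A_odd (m : ℕ) :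
    stieltjes_A α β γ z (2 * m + 1) = F (α + m) (β + m + 1) (γ + 2 * m) z := by
  unfold stieltjes_A
  rw [if_neg (by omega), if_pos (by omega), show (2 * m + 1) / 2 = m by omega]

theorem stieltjes_A_even (m : ℕ) :
    stieltjes_A α β γ z (2 * m + 2) = F (α + m + 1) (β + m + 1) (γ + 2 * m + 1) z := by
  unfold stieltjes_A
  rw [if_neg (by omega), if_neg (by omega), show (2 * m + 2) / 2 = m + 1 by omega]
  have e1 : α + ((m + 1 : ℕ) : ℝ) = α + m + 1 := by push_cast; ring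
  have e2 : β + ((m + 1 : ℕ) : ℝ) = β + m + 1 := by push_cast; ring
  have e3 : γ + 2 * ((m + 1 : ℕ) : ℝ) - 1 = γ + 2 * m + 1 := by push_cast; ring
  rw [e1, e2, e3]

theorem stieltjes_cases (n : ℕ) : n = 0 ∨ (∃ m, n = 2 * m + 1) ∨ ∃ m, n = 2 * m + 2 := by
  rcases Nat.eq_zero_or_pos n with h | h
  · exact Or.inl h
  · rcases Nat.even_or_odd' n with ⟨m, h1 | h1⟩
    · exact Or.inr (Or.inr ⟨m - 1, by omega⟩)
    · exact Or.inr (Or.inl ⟨m, h1⟩)

theorem stieltjes_g_mem (hα : 0 < α) (hβ : 0 < β) (h1 : α ≤ γ) (h2 : β ≤ γ) (n : ℕ) :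
    0 ≤ stieltjes_g α β γ n ∧ stieltjes_g α β γ n ≤ 1 := by
  rcases stieltjes_cases n with rfl | ⟨m, rfl⟩ | ⟨m, rfl⟩
  · rw [stieltjes_g_zero]
    exact ⟨le_rfl, zero_le_one⟩
  · rw [stieltjes_g_odd]
    have hm : (0 : ℝ) ≤ m := m.cast_nonneg
    have hγ : 0 < γ := hα.trans_le h1
    refine ⟨by positivity, ?_⟩
    rw [div_le_one (by linarith)]
    linarith
  · rw [stieltjes_g_even]
    have hm : (0 : ℝ) ≤ m := m.cast_nonneg
    have hγ : 0 < γ := hα.trans_le h1
    refine ⟨by positivity, ?_⟩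
    rw [div_le_one (by linarith)]
    linarith

theorem stieltjes_g_pos (hα : 0 < α) (hβ : 0 < β) (h1 : α ≤ γ) (n : ℕ) :
    0 < stieltjes_g α β γ (n + 1) := by
  have hγ : 0 < γ := hα.trans_le h1
  rcases stieltjes_cases (n + 1) with h | ⟨m, h⟩ | ⟨m, h⟩
  · omega
  · rw [h, stieltjes_g_odd]
    positivity
  · rw [h, stieltjes_g_even]
    positivity

theorem stieltjes_A_pos (hα : 0 < α) (hβ : 0 < β) (h1 : α ≤ γ) (hz0 : 0 ≤ z) (hz : z < 1)
    (n : ℕ) : 0 < stieltjes_A α β γ z n := by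
  have hγ : 0 < γ := hα.trans_le h1
  rcases stieltjes_cases n with h | ⟨m, h⟩ | ⟨m, h⟩
  · rw [h, stieltjes_A_zero]
    exact F_pos hα hβ hγ hz0 hz
  · rw [h, stieltjes_A_odd]
    exact F_pos (by positivity) (by positivity) (by positivity) hz0 hz
  · rw [h, stieltjes_A_even]
    exact F_pos (by positivity) (by positivity) (by positivity) hz0 hz

theorem stieltjes_rec (hα : 0 < α) (hβ : 0 < β) (h1 : α ≤ γ) (hz0 : 0 ≤ z) (hz : z < 1)
    (n : ℕ) : stieltjes_A α β γ z n = stieltjes_A α β γ z (n + 1) -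
      (1 - stieltjes_g α β γ n) * stieltjes_g α β γ (n + 1) * z * stieltjes_A α β γ z (n + 2) := by
  have hγ : 0 < γ := hα.trans_le h1
  rcases stieltjes_cases n with rfl | ⟨m, rfl⟩ | ⟨m, rfl⟩
  · have e1 := stieltjes_A_odd (α := α) (β := β) (γ := γ) (z := z) 0
    have e2 := stieltjes_A_even (α := α) (β := β) (γ := γ) (z := z) 0
    have e3 := stieltjes_g_odd (α := α) (β := β) (γ := γ) 0
    simp only [mul_zero, zero_add, Nat.cast_zero, add_zero] at e1 e2 e3
    rw [stieltjes_A_zero, stieltjes_g_zero, zero_add, zero_add, e1, e2, e3,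
      F_contig hα hβ hγ hz0 hz]
    ring
  · rw [show 2 * m + 1 + 1 = 2 * m + 2 by ring, show 2 * m + 1 + 2 = 2 * (m + 1) + 1 by ring,
      stieltjes_A_odd, stieltjes_A_even, stieltjes_A_odd, stieltjes_g_odd, stieltjes_g_even,
      F_comm, F_gauss (a := β + m + 1) (b := α + m) (c := γ + 2 * m) (by positivity)
        (by positivity) (by positivity) hz0 hz]
    have f1 : F (β + m + 1) (α + m + 1) (γ + 2 * m + 1) z =
        F (α + m + 1) (β + m + 1) (γ + 2 * m + 1) z := F_comm _ _ _ _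
    have f2 : F (β + m + 1 + 1) (α + m + 1) (γ + 2 * m + 2) z =
        F (α + ((m + 1 : ℕ) : ℝ)) (β + ((m + 1 : ℕ) : ℝ) + 1) (γ + 2 * ((m + 1 : ℕ) : ℝ)) z := by
      rw [F_comm]
      have g1 : α + ((m + 1 : ℕ) : ℝ) = α + m + 1 := by push_cast; ring
      have g2 : β + ((m + 1 : ℕ) : ℝ) + 1 = β + m + 1 + 1 := by push_cast; ring
      have g3 : γ + 2 * ((m + 1 : ℕ) : ℝ) = γ + 2 * m + 2 := by push_cast; ring
      rw [g1, g2, g3]
    rw [f1, f2]
    have hm : (0 : ℝ) ≤ m := m.cast_nonneg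
    have d1 : γ + 2 * (m : ℝ) ≠ 0 := by positivity
    have d2 : γ + 2 * (m : ℝ) + 1 ≠ 0 := by positivity
    congr 1
    congr 1
    congr 1
    field_simp
  · rw [show 2 * m + 2 + 1 = 2 * (m + 1) + 1 by ring, show 2 * m + 2 + 2 = 2 * (m + 1) + 2 by ring,
      stieltjes_A_even, stieltjes_A_odd, stieltjes_A_even, stieltjes_g_even, stieltjes_g_odd,
      F_gauss (a := α + m + 1) (b := β + m + 1) (c := γ + 2 * m + 1) (by positivity)
        (by positivity) (by positivity) hz0 hz]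
    have hm : (0 : ℝ) ≤ m := m.cast_nonneg
    have g1 : α + ((m + 1 : ℕ) : ℝ) = α + m + 1 := by push_cast; ring
    have g2 : β + ((m + 1 : ℕ) : ℝ) + 1 = β + m + 1 + 1 := by push_cast; ring
    have g3 : γ + 2 * ((m + 1 : ℕ) : ℝ) = γ + 2 * m + 1 + 1 := by push_cast; ring
    have g4 : γ + 2 * (m : ℝ) + 1 + 1 + 1 = γ + 2 * m + 1 + 2 := by ring
    rw [g1, g2, g3, g4]
    have d1 : γ + 2 * (m : ℝ) + 1 ≠ 0 := by positivity
    have d2 : γ + 2 * (m : ℝ) + 1 + 1 ≠ 0 := by positivity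
    congr 1
    congr 1
    congr 1
    field_simp

theorem stieltjes_shift (hα : 0 < α) (hβ : 0 < β) (h1 : α ≤ γ) (h2 : β ≤ γ) (hz0 : 0 ≤ z)
    (hz : z < 1) (n : ℕ) :
    stieltjes_g α β γ (n + 1) * stieltjes_A α β γ z (n + 2) ≤ stieltjes_A α β γ z (n + 1) := by
  have hγ : 0 < γ := hα.trans_le h1
  rcases stieltjes_cases (n + 1) with h | ⟨m, h⟩ | ⟨m, h⟩
  · omega
  · rw [show n + 2 = 2 * m + 2 by omega, h, stieltjes_A_odd, stieltjes_A_even, stieltjes_g_odd]
    have hm : (0 : ℝ) ≤ m := m.cast_nonneg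
    exact F_shift_le (by positivity) (by positivity) (by linarith) hz0 hz
  · rw [show n + 2 = 2 * (m + 1) + 1 by omega, h, stieltjes_A_odd, stieltjes_A_even,
      stieltjes_g_even]
    have hm : (0 : ℝ) ≤ m := m.cast_nonneg
    have g1 : α + ((m + 1 : ℕ) : ℝ) = α + m + 1 := by push_cast; ring
    have g2 : β + ((m + 1 : ℕ) : ℝ) + 1 = β + m + 1 + 1 := by push_cast; ring
    have g3 : γ + 2 * ((m + 1 : ℕ) : ℝ) = γ + 2 * m + 1 + 1 := by push_cast; ring
    rw [g1, g2, g3, F_comm (α + m + 1) (β + m + 1 + 1), F_comm (α + m + 1) (β + m + 1)]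
    exact F_shift_le (by positivity) (by positivity) (by linarith) hz0 hz

theorem stieltjes_g_lim (hα : 0 < α) (h1 : α ≤ γ) :
    Tendsto (stieltjes_g α β γ) atTop (𝓝 (1 / 2)) := by
  have hγ : 0 < γ := hα.trans_le h1
  rw [tendsto_iff_norm_sub_tendsto_zero]
  set C : ℝ := |2 * α - γ| + |2 * β + 1 - γ| with hC
  have hlim : Tendsto (fun n : ℕ => C / ((n : ℝ) + (γ - 1))) atTop (𝓝 0) :=
    tendsto_const_nhds.div_atTop (tendsto_atTop_add_const_right _ _ tendsto_natCast_atTop_atTop)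
  refine squeeze_zero' (Eventually.of_forall fun n => norm_nonneg _) ?_ hlim
  filter_upwards [eventually_gt_atTop 0] with n hn
  rcases stieltjes_cases n with h | ⟨m, h⟩ | ⟨m, h⟩
  · omega
  · have hm : (0 : ℝ) ≤ m := m.cast_nonneg
    have hd : (0 : ℝ) < γ + 2 * m := by positivity
    rw [h, stieltjes_g_odd, Real.norm_eq_abs]
    have e1 : (α + m) / (γ + 2 * m) - 1 / 2 = (2 * α - γ) / (2 * (γ + 2 * m)) := by
      field_simp
      ring
    have e2 : ((2 * m + 1 : ℕ) : ℝ) + (γ - 1) = γ + 2 * m := by push_cast; ring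
    rw [e1, e2, abs_div, abs_of_pos (show (0 : ℝ) < 2 * (γ + 2 * m) by positivity)]
    rw [div_le_div_iff₀ (by positivity) hd]
    have h3 := abs_nonneg (2 * α - γ)
    have h4 := abs_nonneg (2 * β + 1 - γ)
    nlinarith [mul_nonneg h3 hd.le, mul_nonneg h4 hd.le]
  · have hm : (0 : ℝ) ≤ m := m.cast_nonneg
    have hd : (0 : ℝ) < γ + 2 * m + 1 := by positivity
    rw [h, stieltjes_g_even, Real.norm_eq_abs]
    have e1 : (β + m + 1) / (γ + 2 * m + 1) - 1 / 2 =
        (2 * β + 1 - γ) / (2 * (γ + 2 * m + 1)) := by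
      field_simp
      ring
    have e2 : ((2 * m + 2 : ℕ) : ℝ) + (γ - 1) = γ + 2 * m + 1 := by push_cast; ring
    rw [e1, e2, abs_div, abs_of_pos (show (0 : ℝ) < 2 * (γ + 2 * m + 1) by positivity)]
    rw [div_le_div_iff₀ (by positivity) hd]
    have h3 := abs_nonneg (2 * α - γ)
    have h4 := abs_nonneg (2 * β + 1 - γ)
    nlinarith [mul_nonneg h3 hd.le, mul_nonneg h4 hd.le]

end

/-- B3. The Stieltjes representation of the ratio of hypergeometric functions -/
theorem stieltjes_proof {α β γ : ℝ} (hα : 0 < α) (hβ : 0 < β) (h1 : α ≤ γ) (h2 : β ≤ γ) :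
    ∃ σ : Measure ℝ, IsProbabilityMeasure σ ∧ σ (Icc (-1) 1)ᶜ = 0 ∧ ∀ p : ℝ, 1 < p →
      F α (β + 1) γ (1 / p ^ 2) / (p * F α β γ (1 / p ^ 2)) = ∫ x, 1 / (p - x) ∂σ := by
  set g := stieltjes_g α β γ with hg
  have hgm : ∀ j, 0 ≤ g j ∧ g j ≤ 1 := stieltjes_g_mem hα hβ h1 h2
  choose w lam hw hw1 hlam hmain using fun N => jacobi g hgm N
  refine exists_limit_measure w lam hw hw1 hlam
    (fun p => F α (β + 1) γ (1 / p ^ 2) / (p * F α β γ (1 / p ^ 2))) ?_
  intro p hp
  have hp0 : 0 < p := by linarith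
  set z : ℝ := 1 / p ^ 2 with hz
  have hz0 : 0 ≤ z := by positivity
  have hz1 : z < 1 := by
    rw [hz, div_lt_one (by positivity)]
    nlinarith
  set A := stieltjes_A α β γ z with hA
  have hApos : ∀ n, 0 < A n := stieltjes_A_pos hα hβ h1 hz0 hz1
  have hrec : ∀ n, A n = A (n + 1) - (1 - g n) * g (n + 1) * z * A (n + 2) :=
    stieltjes_rec hα hβ h1 hz0 hz1
  have hshift : ∀ n, g (n + 1) * A (n + 2) ≤ A (n + 1) := stieltjes_shift hα hβ h1 h2 hz0 hz1
  have hgpos : ∀ n, 0 < g (n + 1) := stieltjes_g_pos hα hβ h1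
  have hb : ∀ n, bj g (n + 1) = Real.sqrt ((1 - g n) * g (n + 1)) := fun n => rfl
  have hb0 : ∀ n, 0 ≤ bj g (n + 1) := fun n => Real.sqrt_nonneg _
  have hb2 : ∀ n, bj g (n + 1) * bj g (n + 1) = (1 - g n) * g (n + 1) := fun n =>
    Real.mul_self_sqrt (mul_nonneg (sub_nonneg.2 (hgm n).2) (hgm (n + 1)).1)
  have hb1 : ∀ n, bj g (n + 1) ≤ 1 := by
    intro n
    rw [hb]
    refine Real.sqrt_le_one.2 ?_
    have h3 := hgm n
    have h4 := hgm (n + 1)
    nlinarith [mul_nonneg h3.1 h4.1]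
  set y : ℕ → ℝ := fun n => (∏ i ∈ Finset.range n, bj g (i + 1)) * A (n + 1) / p ^ (n + 1) with hy
  have hy0 : ∀ n, 0 ≤ y n := fun n => by
    have h3 : 0 ≤ ∏ i ∈ Finset.range n, bj g (i + 1) := Finset.prod_nonneg fun i _ => hb0 i
    have h4 := hApos (n + 1)
    have h5 : (0 : ℝ) < p ^ (n + 1) := by positivity
    exact div_nonneg (mul_nonneg h3 h4.le) h5.le
  have hy1 : ∀ n, y (n + 1) = y n * (bj g (n + 1) * A (n + 2) / (p * A (n + 1))) := by
    intro n
    have h4 := (hApos (n + 1)).ne'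
    simp only [hy]
    rw [Finset.prod_range_succ, pow_succ]
    field_simp
  have hyeq0 : p * y 0 - bj g 1 * y 1 = A 0 := by
    have h3 := hrec 0
    have h4 := hb2 0
    simp only [hy, Finset.prod_range_succ, Finset.prod_range_zero, one_mul, zero_add, pow_one]
    simp only [zero_add] at h3 h4
    rw [h3, ← h4, hz]
    field_simp
    ring
  have hyeq : ∀ j, p * y (j + 1) - bj g (j + 1) * y j - bj g (j + 2) * y (j + 2) = 0 := by
    intro j
    have h3 := hrec (j + 1)
    have h4 := hb2 (j + 1)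
    rw [show j + 1 + 1 = j + 2 by ring, show j + 1 + 2 = j + 3 by ring] at h3
    rw [show j + 1 + 1 = j + 2 by ring] at h4
    have e1 : y (j + 1) = (∏ i ∈ Finset.range j, bj g (i + 1)) * bj g (j + 1) * A (j + 2) /
        p ^ (j + 2) := by
      simp only [hy]
      rw [Finset.prod_range_succ]
    have e2 : y (j + 2) = (∏ i ∈ Finset.range j, bj g (i + 1)) * bj g (j + 1) * bj g (j + 2) *
        A (j + 3) / p ^ (j + 3) := by
      simp only [hy]
      rw [Finset.prod_range_succ, Finset.prod_range_succ]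
    have e3 : y j = (∏ i ∈ Finset.range j, bj g (i + 1)) * A (j + 1) / p ^ (j + 1) := rfl
    rw [e1, e2, e3]
    set P := ∏ i ∈ Finset.range j, bj g (i + 1)
    have e4 : p * (P * bj g (j + 1) * A (j + 2) / p ^ (j + 2)) =
        P * bj g (j + 1) / p ^ (j + 1) * A (j + 2) := by
      rw [pow_succ p (j + 1)]
      field_simp
    have e5 : bj g (j + 2) * (P * bj g (j + 1) * bj g (j + 2) * A (j + 3) / p ^ (j + 3)) =
        P * bj g (j + 1) / p ^ (j + 1) * ((bj g (j + 2) * bj g (j + 2)) * z * A (j + 3)) := by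
      rw [hz, show p ^ (j + 3) = p ^ (j + 1) * p ^ 2 by ring]
      field_simp
    have e6 : bj g (j + 1) * (P * A (j + 1) / p ^ (j + 1)) =
        P * bj g (j + 1) / p ^ (j + 1) * A (j + 1) := by ring
    rw [e4, e5, e6, h4, h3]
    ring
  -- decay
  have hylim : Tendsto y atTop (𝓝 0) := by
    have hglim : Tendsto g atTop (𝓝 (1 / 2)) := stieltjes_g_lim hα h1
    have hglim1 : Tendsto (fun n => g (n + 1)) atTop (𝓝 (1 / 2)) :=
      hglim.comp (tendsto_add_atTop_nat 1)
    have hq : Tendsto (fun n => bj g (n + 1) / (g (n + 1) * p)) atTop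
        (𝓝 (Real.sqrt ((1 - 1 / 2) * (1 / 2)) / (1 / 2 * p))) := by
      have h3 : Tendsto (fun n => Real.sqrt ((1 - g n) * g (n + 1))) atTop
          (𝓝 (Real.sqrt ((1 - 1 / 2) * (1 / 2)))) :=
        (Real.continuous_sqrt.tendsto _).comp ((hglim.const_sub 1).mul hglim1)
      exact h3.div (hglim1.mul_const p) (by positivity)
    have h4 : Real.sqrt ((1 - 1 / 2) * (1 / 2)) / (1 / 2 * p) = 1 / p := by
      rw [show (1 - 1 / 2 : ℝ) * (1 / 2) = (1 / 2) * (1 / 2) by norm_num,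
        Real.sqrt_mul_self (by norm_num)]
      field_simp
    rw [h4] at hq
    have h5 : 1 / p < 1 := by
      rw [div_lt_one hp0]
      exact hp
    obtain ⟨r, hr1, hr2⟩ := exists_between h5
    have h6 : Summable y := by
      refine summable_of_ratio_norm_eventually_le hr2 ?_
      filter_upwards [hq.eventually (eventually_lt_nhds hr1)] with n hn
      rw [Real.norm_eq_abs, Real.norm_eq_abs, abs_of_nonneg (hy0 _), abs_of_nonneg (hy0 _), hy1,
        mul_comm r]
      refine mul_le_mul_of_nonneg_left ?_ (hy0 n)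
      refine le_trans ?_ hn.le
      have h7 := hshift n
      have h8 := hgpos n
      have h9 := hApos (n + 1)
      rw [div_le_div_iff₀ (by positivity) (by positivity)]
      have h10 := mul_le_mul_of_nonneg_left h7 (mul_nonneg (hb0 n) hp0.le)
      calc bj g (n + 1) * A (n + 2) * (g (n + 1) * p)
          = bj g (n + 1) * p * (g (n + 1) * A (n + 2)) := by ring
        _ ≤ bj g (n + 1) * p * A (n + 1) := h10
        _ = bj g (n + 1) * (p * A (n + 1)) := by ring
    exact h6.tendsto_atTop_zero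
  -- conclusion
  have herr : Tendsto (fun N => |bj g (N + 1) * y (N + 1)| / (p - 1)) atTop (𝓝 0) := by
    have h3 : Tendsto (fun N => y (N + 1) / (p - 1)) atTop (𝓝 (0 / (p - 1))) :=
      (hylim.comp (tendsto_add_atTop_nat 1)).div_const _
    rw [zero_div] at h3
    refine squeeze_zero (fun N => div_nonneg (abs_nonneg _) (by linarith)) (fun N => ?_) h3
    refine div_le_div_of_nonneg_right ?_ (by linarith)
    rw [abs_of_nonneg (mul_nonneg (hb0 N) (hy0 _))]
    exact mul_le_of_le_one_left (hy0 _) (hb1 N)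
  have hS : Tendsto (fun N => A 0 * ∑ i, w N i / (p - lam N i)) atTop (𝓝 (y 0)) := by
    rw [tendsto_iff_norm_sub_tendsto_zero]
    refine squeeze_zero (fun N => norm_nonneg _) (fun N => ?_) herr
    rw [Real.norm_eq_abs, abs_sub_comm]
    exact hmain N p (A 0) y hp hyeq0 hyeq
  have hA0 := (hApos 0).ne'
  have h3 := hS.div_const (A 0)
  have h4 : y 0 / A 0 = F α (β + 1) γ z / (p * F α β γ z) := by
    have e1 := stieltjes_A_odd (α := α) (β := β) (γ := γ) (z := z) 0
    simp only [mul_zero, zero_add, Nat.cast_zero, add_zero] at e1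
    have e2 : A 0 = F α β γ z := stieltjes_A_zero
    have e3 : A 1 = F α (β + 1) γ z := e1
    have e4 : y 0 = A 1 / p := by
      simp only [hy, Finset.prod_range_zero, one_mul, zero_add, pow_one]
    rw [e4, e3, e2, div_div]
  rw [h4] at h3
  refine h3.congr fun N => ?_
  rw [mul_div_cancel_left₀ _ hA0]

end Pool.Agent.H967.GGC
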