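import Mathlib

set_option autoImplicit false

/-!
# Generalised gamma convolutions among McKay-type Bessel laws: definitions and basic facts
-/

namespace Pool.Agent.H967.GGC
open MeasureTheory Filter Topology Set

/-- The modified Bessel function of the first kind
`I_μ(x) = ∑_k (x/2)^(2k+μ) / (k! Γ(k+μ+1))` (for `x > 0`). -/
noncomputable def besselI (μ x : ℝ) : ℝ :=
  ∑' k : ℕ, (x / 2) ^ (2 * (k : ℝ) + μ) / ((k.factorial : ℝ) * Real.Gamma (k + μ + 1))

/-- `x ^ (ν-1) e^(-bx) I_μ(ax)`, proportional to the density `φ_{μ,ν,a,b}` -/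
noncomputable def phi (μ ν a b x : ℝ) : ℝ :=
  x ^ (ν - 1) * Real.exp (-(b * x)) * besselI μ (a * x)

/-- `x ^ (2μ) e^(-bx) I_μ(ax)^2`, proportional to the density `ξ_{μ,a,b}` -/
noncomputable def xi (μ a b x : ℝ) : ℝ :=
  x ^ (2 * μ) * Real.exp (-(b * x)) * besselI μ (a * x) ^ 2

/-- `P` is the probability law on `(0,∞)` with density proportional to `f`. -/
def IsLawOf (f : ℝ → ℝ) (P : Measure ℝ) : Prop :=
  IsProbabilityMeasure P ∧ ∃ C : ℝ, 0 < C ∧
    P = (volume.restrict (Ioi 0)).withDensity (fun x => ENNReal.ofReal (C * f x))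

/-- `P` is a generalised gamma convolution: its Laplace transform is
`exp (-a s + ∫ log (t / (s + t)) dU(t))`, `s ≥ 0`, with `a ≥ 0` and `U` a nonnegative measure on
`(0,∞)` for which the integrals converge. -/
def IsGGC (P : Measure ℝ) : Prop :=
  ∃ (a : ℝ) (U : Measure ℝ), 0 ≤ a ∧ U (Iic 0) = 0 ∧
    (∀ s : ℝ, 0 ≤ s → Integrable (fun t => Real.log (t / (s + t))) U) ∧
    ∀ s : ℝ, 0 ≤ s → ∫ x, Real.exp (-(s * x)) ∂P =
      Real.exp (-(a * s) + ∫ t, Real.log (t / (s + t)) ∂U)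

/-- coefficients `(a)_n (b)_n / ((c)_n n!)` of the hypergeometric series `₂F₁(a,b;c;z)` -/
noncomputable def hc (a b c : ℝ) (n : ℕ) : ℝ :=
  ∏ i ∈ Finset.range n, ((a + i) * (b + i) / ((c + i) * (i + 1)))

/-- the hypergeometric function `₂F₁(a,b;c;z)` -/
noncomputable def F (a b c z : ℝ) : ℝ := ∑' n : ℕ, hc a b c n * z ^ n

theorem hc_zero (a b c : ℝ) : hc a b c 0 = 1 := by simp [hc]

theorem hc_succ (a b c : ℝ) (n : ℕ) :
    hc a b c (n + 1) = hc a b c n * ((a + n) * (b + n) / ((c + n) * (n + 1))) := by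
  unfold hc
  rw [Finset.prod_range_succ]

theorem hc_pos {a b c : ℝ} (ha : 0 < a) (hb : 0 < b) (hc' : 0 < c) (n : ℕ) : 0 < hc a b c n := by
  unfold hc
  apply Finset.prod_pos
  intro i _
  positivity

theorem hc_comm (a b c : ℝ) (n : ℕ) : hc a b c n = hc b a c n := by
  unfold hc
  apply Finset.prod_congr rfl
  intro i _
  ring

theorem F_comm (a b c z : ℝ) : F a b c z = F b a c z := by
  unfold F
  simp only [hc_comm a b c]

theorem ratio_tendsto (a b c : ℝ) :
    Tendsto (fun n : ℕ => (a + n) * (b + n) / ((c + n) * ((n : ℝ) + 1))) atTop (𝓝 1) := by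
  have h1 : ∀ u : ℝ, Tendsto (fun n : ℕ => u / (n : ℝ)) atTop (𝓝 0) := fun u =>
    tendsto_const_div_atTop_nhds_zero_nat u
  have h2 : Tendsto (fun n : ℕ => (a / n + 1) * (b / n + 1) / ((c / n + 1) * (1 / (n : ℝ) + 1)))
      atTop (𝓝 ((0 + 1) * (0 + 1) / ((0 + 1) * (0 + 1)))) := by
    refine Tendsto.div (((h1 a).add_const 1).mul ((h1 b).add_const 1))
      (((h1 c).add_const 1).mul ((h1 1).add_const 1)) (by norm_num)
  rw [show ((0 + 1) * (0 + 1) / ((0 + 1) * (0 + 1)) : ℝ) = 1 by norm_num] at h2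
  refine h2.congr' ?_
  filter_upwards [eventually_gt_atTop 0] with n hn
  have hn' : (n : ℝ) ≠ 0 := by positivity
  field_simp
  rw [add_comm (1 : ℝ)]

theorem summable_hc {a b c : ℝ} (ha : 0 < a) (hb : 0 < b) (hc' : 0 < c) {z : ℝ} (hz : |z| < 1) :
    Summable (fun n : ℕ => hc a b c n * z ^ n) := by
  rcases eq_or_ne z 0 with rfl | hz0
  · refine summable_of_ne_finset_zero (s := {0}) ?_
    intro n hn
    simp at hn
    simp [hn]
  · refine summable_of_ratio_test_tendsto_lt_one (l := |z|) hz ?_ ?_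
    · exact Eventually.of_forall fun n => mul_ne_zero (hc_pos ha hb hc' n).ne' (pow_ne_zero _ hz0)
    · have h1 := (ratio_tendsto a b c).mul_const |z|
      rw [one_mul] at h1
      refine h1.congr fun n => ?_
      have h2 := hc_pos ha hb hc' n
      have h3 : 0 < (a + n) * (b + n) / ((c + n) * ((n : ℝ) + 1)) := by positivity
      rw [hc_succ, norm_mul, norm_mul, norm_mul, norm_pow, norm_pow, Real.norm_eq_abs,
        Real.norm_eq_abs, Real.norm_eq_abs, abs_of_pos h2, abs_of_pos h3, pow_succ]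
      have h4 : |z| ≠ 0 := abs_ne_zero.2 hz0
      field_simp

theorem one_le_F {a b c : ℝ} (ha : 0 < a) (hb : 0 < b) (hc' : 0 < c) {z : ℝ} (hz0 : 0 ≤ z)
    (hz : z < 1) : 1 ≤ F a b c z := by
  have h1 := (summable_hc ha hb hc' (z := z) (by rwa [abs_of_nonneg hz0]))
  have h2 := h1.le_tsum 0 (fun n _ => by have := hc_pos ha hb hc' n; positivity)
  simpa [hc_zero, F] using h2

theorem F_pos {a b c : ℝ} (ha : 0 < a) (hb : 0 < b) (hc' : 0 < c) {z : ℝ} (hz0 : 0 ≤ z)
    (hz : z < 1) : 0 < F a b c z := lt_of_lt_of_le one_pos (one_le_F ha hb hc' hz0 hz)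

/-- `F(a,b;c;z) → 1` as `z → 0` -/
theorem F_tendsto_one {a b c : ℝ} (ha : 0 < a) (hb : 0 < b) (hc' : 0 < c) :
    Tendsto (F a b c) (𝓝 0) (𝓝 1) := by
  have h1 : ∀ z : ℝ, |z| ≤ 1 / 2 → F a b c z = 1 + z * ∑' n : ℕ, hc a b c (n + 1) * z ^ n := by
    intro z hz
    have h2 := summable_hc ha hb hc' (z := z) (by linarith)
    unfold F
    rw [h2.tsum_eq_zero_add]
    simp only [hc_zero, pow_zero, mul_one, pow_succ]
    rw [← tsum_mul_left]
    congr 1
    apply tsum_congr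
    intro n
    ring
  have hs : Summable (fun n : ℕ => hc a b c (n + 1) * (1 / 2 : ℝ) ^ n) := by
    have h2 := (summable_nat_add_iff 1).2 (summable_hc ha hb hc' (z := 1 / 2) (by norm_num))
    refine (h2.mul_left 2).congr fun n => ?_
    rw [pow_succ]
    ring
  set M := ∑' n : ℕ, hc a b c (n + 1) * (1 / 2 : ℝ) ^ n with hM
  have h3 : ∀ z : ℝ, |z| ≤ 1 / 2 → |F a b c z - 1| ≤ |z| * M := by
    intro z hz
    rw [h1 z hz, add_sub_cancel_left, abs_mul]
    refine mul_le_mul_of_nonneg_left ?_ (abs_nonneg z)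
    have h4 : ∀ n : ℕ, ‖hc a b c (n + 1) * z ^ n‖ ≤ hc a b c (n + 1) * (1 / 2 : ℝ) ^ n := by
      intro n
      rw [norm_mul, norm_pow, Real.norm_eq_abs, Real.norm_eq_abs, abs_of_pos (hc_pos ha hb hc' _)]
      have := hc_pos ha hb hc' (n + 1)
      gcongr
    rw [← Real.norm_eq_abs]
    exact tsum_of_norm_bounded hs.hasSum h4
  rw [tendsto_iff_norm_sub_tendsto_zero]
  have h5 : Tendsto (fun z : ℝ => |z| * M) (𝓝 0) (𝓝 0) := by
    have : Tendsto (fun z : ℝ => |z| * M) (𝓝 0) (𝓝 (|(0:ℝ)| * M)) :=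
      (continuous_abs.mul continuous_const).tendsto 0
    simpa using this
  refine tendsto_of_tendsto_of_tendsto_of_le_of_le' tendsto_const_nhds h5
    (Eventually.of_forall fun z => norm_nonneg _) ?_
  filter_upwards [Metric.ball_mem_nhds (0:ℝ) (show (0:ℝ) < 1 / 2 by norm_num)] with z hz
  rw [Real.norm_eq_abs]
  refine h3 z ?_
  rw [Metric.mem_ball, dist_zero_right, Real.norm_eq_abs] at hz
  exact hz.le

end Pool.Agent.H967.GGC
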