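import Pool.Agent.H967.GGC.Basic

set_option autoImplicit false

/-!
# Self-decomposability of McKay-type Bessel laws: definitions
-/

namespace Pool.Agent.H967.GGC
open MeasureTheory Filter Topology Set


/-- `P` is self-decomposable: for every `κ ∈ (0,1)` it is the law of `κ X + Y` with `X ∼ P` and an
independent `Y` (with law `Q`). -/
def IsSD (P : Measure ℝ) : Prop :=
  ∀ κ : ℝ, 0 < κ → κ < 1 → ∃ Q : Measure ℝ, IsProbabilityMeasure Q ∧
    P = Measure.conv (P.map (fun x => κ * x)) Q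

/-- Taylor coefficients of `2 β ₂F₁(α,β+1;γ;z) / ₂F₁(α,β;γ;z)` at `z = 0` -/
noncomputable def kap (α β γ : ℝ) (n : ℕ) : ℝ :=
  2 * β * PowerSeries.coeff n
    (PowerSeries.mk (hc α (β + 1) γ) * (PowerSeries.mk (hc α β γ))⁻¹)

/-- the entire function `∑ kap_n x^(2n) / (2n)!` -/
noncomputable def KK (α β γ x : ℝ) : ℝ :=
  ∑' n : ℕ, kap α β γ n * x ^ (2 * n) / ((2 * n).factorial : ℝ)

theorem kap_rec (α β γ : ℝ) (n : ℕ) :
    ∑ x ∈ Finset.HasAntidiagonal.antidiagonal n, kap α β γ x.1 * hc α β γ x.2 = 2 * β * hc α (β + 1) γ n := by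
  have h0 : PowerSeries.constantCoeff (PowerSeries.mk (hc α β γ)) ≠ 0 := by
    rw [← PowerSeries.coeff_zero_eq_constantCoeff_apply, PowerSeries.coeff_mk, hc_zero]
    exact one_ne_zero
  have h1 : PowerSeries.mk (hc α (β + 1) γ) * (PowerSeries.mk (hc α β γ))⁻¹ *
      PowerSeries.mk (hc α β γ) = PowerSeries.mk (hc α (β + 1) γ) := by
    rw [mul_assoc, PowerSeries.inv_mul_cancel _ h0, mul_one]
  have h2 := congrArg (PowerSeries.coeff n) h1
  rw [PowerSeries.coeff_mul, PowerSeries.coeff_mk] at h2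
  rw [← h2, Finset.mul_sum]
  apply Finset.sum_congr rfl
  intro x _
  rw [PowerSeries.coeff_mk]
  unfold kap
  ring

theorem kap_zero (α β γ : ℝ) : kap α β γ 0 = 2 * β := by
  have h := kap_rec α β γ 0
  simpa [hc_zero] using h

end Pool.Agent.H967.GGC
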