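import Pool.Agent.H967.GGC.Basic

set_option autoImplicit false

namespace Pool.Agent.H967.GGC

/-- off-diagonal entries of the Jacobi matrix of a chain sequence -/
noncomputable def bj (g : ℕ → ℝ) (j : ℕ) : ℝ := Real.sqrt ((1 - g (j - 1)) * g j)

end Pool.Agent.H967.GGC
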