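import Pool.Agent.H967.GGC.Basic2

set_option autoImplicit false

/-!
# Self-decomposability of McKay-type Bessel laws: leaf C3
-/

namespace Pool.Agent.H967.GGC
open MeasureTheory Filter Topology Set

theorem k_nonneg_le_zero {k : ℝ → ℝ} (hkc : Continuous k) (hk : AntitoneOn k (Ioi 0)) (x : ℝ)
    (hx : 0 ≤ x) : k x ≤ k 0 := by
  rcases eq_or_lt_of_le hx with h0 | h0
  · rw [← h0]
  · have h1 : Tendsto k (𝓝[>] 0) (𝓝 (k 0)) := (hkc.tendsto 0).mono_left nhdsWithin_le_nhds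
    refine ge_of_tendsto h1 ?_
    filter_upwards [Ioo_mem_nhdsGT h0] with y hy
    exact hk hy.1 h0 hy.2.le

theorem k_nonneg_bound {f k : ℝ → ℝ} (hf : ∀ x, 0 < x → 0 ≤ f x) (hfi : IntegrableOn f (Ioi 0))
    (hkc : Continuous k) (hk : AntitoneOn k (Ioi 0)) {x1 : ℝ} (hx1 : 0 < x1) {x : ℝ}
    (hx : x1 < x) :
    ∫ y in Ioo 0 x, k y * f (x - y) ≤
      k 0 * ((∫ y in (0 : ℝ)..x, f y) - ∫ y in (0 : ℝ)..(x - x1), f y) +
        k x1 * ∫ y in (0 : ℝ)..(x - x1), f y := by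
  have hx0 : 0 < x := hx1.trans hx
  have hII : ∀ a b : ℝ, 0 ≤ a → 0 ≤ b → IntervalIntegrable f volume a b := by
    intro a b ha hb
    rw [intervalIntegrable_iff]
    refine hfi.mono_set ?_
    intro y hy
    exact lt_of_le_of_lt (le_min ha hb) hy.1
  have hI1 : IntervalIntegrable (fun y => f (x - y)) volume 0 x1 := by
    have h := (hII x (x - x1) hx0.le (by linarith)).comp_sub_left x
    rw [sub_self, sub_sub_cancel] at h
    exact h
  have hI2 : IntervalIntegrable (fun y => f (x - y)) volume x1 x := by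
    have h := (hII (x - x1) 0 (by linarith) le_rfl).comp_sub_left x
    rw [sub_zero, sub_sub_cancel] at h
    exact h
  have hJ1 : IntervalIntegrable (fun y => k y * f (x - y)) volume 0 x1 :=
    hI1.continuousOn_mul hkc.continuousOn
  have hJ2 : IntervalIntegrable (fun y => k y * f (x - y)) volume x1 x :=
    hI2.continuousOn_mul hkc.continuousOn
  have h1 : ∫ y in Ioo 0 x, k y * f (x - y) = ∫ y in (0 : ℝ)..x, k y * f (x - y) := by
    rw [intervalIntegral.integral_of_le hx0.le, integral_Ioc_eq_integral_Ioo]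
  rw [h1, ← intervalIntegral.integral_add_adjacent_intervals hJ1 hJ2]
  have h2 : ∫ y in (0 : ℝ)..x1, k y * f (x - y) ≤ ∫ y in (0 : ℝ)..x1, k 0 * f (x - y) := by
    refine intervalIntegral.integral_mono_on_of_le_Ioo hx1.le hJ1 (hI1.const_mul (k 0)) ?_
    intro y hy
    exact mul_le_mul_of_nonneg_right (k_nonneg_le_zero hkc hk y hy.1.le)
      (hf _ (by linarith [hy.2]))
  have h3 : ∫ y in x1..x, k y * f (x - y) ≤ ∫ y in x1..x, k x1 * f (x - y) := by
    refine intervalIntegral.integral_mono_on_of_le_Ioo hx.le hJ2 (hI2.const_mul (k x1)) ?_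
    intro y hy
    exact mul_le_mul_of_nonneg_right (hk hx1 (hx1.trans hy.1) hy.1.le)
      (hf _ (by linarith [hy.2]))
  rw [intervalIntegral.integral_const_mul, intervalIntegral.integral_comp_sub_left, sub_zero] at h2
  rw [intervalIntegral.integral_const_mul, intervalIntegral.integral_comp_sub_left, sub_self] at h3
  have h4 : (∫ y in (0 : ℝ)..x, f y) - ∫ y in (0 : ℝ)..(x - x1), f y = ∫ y in (x - x1)..x, f y :=
    intervalIntegral.integral_interval_sub_left (hII 0 x le_rfl hx0.le)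
      (hII 0 (x - x1) le_rfl (by linarith))
  rw [h4]
  exact add_le_add h2 h3

/-- C3 -/
theorem k_nonneg_proof {f k : ℝ → ℝ} (hf : ∀ x, 0 < x → 0 ≤ f x) (hfi : IntegrableOn f (Ioi 0))
    (hf1 : 0 < ∫ x in Ioi (0 : ℝ), f x) (hkc : Continuous k) (hk : AntitoneOn k (Ioi 0))
    (hconv : ∀ᵐ x ∂(volume.restrict (Ioi (0 : ℝ))), x * f x = ∫ y in Ioo 0 x, k y * f (x - y)) :
    ∀ x, 0 < x → 0 ≤ k x := by
  intro x1 hx1
  by_contra hneg
  have hneg' : k x1 < 0 := not_le.mp hneg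
  have hT1 : Tendsto (fun x : ℝ => ∫ y in (0 : ℝ)..x, f y) atTop
      (𝓝 (∫ x in Ioi (0 : ℝ), f x)) :=
    intervalIntegral_tendsto_integral_Ioi 0 hfi tendsto_id
  have hT2 : Tendsto (fun x : ℝ => ∫ y in (0 : ℝ)..(x - x1), f y) atTop
      (𝓝 (∫ x in Ioi (0 : ℝ), f x)) :=
    intervalIntegral_tendsto_integral_Ioi 0 hfi (tendsto_atTop_add_const_right _ (-x1) tendsto_id)
  have hT3 := ((hT1.sub hT2).const_mul (k 0)).add (hT2.const_mul (k x1))
  have hlim : k 0 * ((∫ x in Ioi (0 : ℝ), f x) - ∫ x in Ioi (0 : ℝ), f x) +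
      k x1 * ∫ x in Ioi (0 : ℝ), f x < 0 := by
    rw [sub_self, mul_zero, zero_add]
    exact mul_neg_of_neg_of_pos hneg' hf1
  have hev := (hT3.eventually (gt_mem_nhds hlim)).and (eventually_gt_atTop x1)
  obtain ⟨X, hX⟩ := eventually_atTop.mp hev
  rw [ae_restrict_iff' measurableSet_Ioi] at hconv
  have hex : ∃ x, X < x ∧ (x ∈ Ioi (0 : ℝ) → x * f x = ∫ y in Ioo 0 x, k y * f (x - y)) := by
    by_contra hno
    have hsub : Ioi X ⊆ {x | ¬ (x ∈ Ioi (0 : ℝ) → x * f x = ∫ y in Ioo 0 x, k y * f (x - y))} := by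
      intro x hx hx2
      exact hno ⟨x, hx, hx2⟩
    have hz := measure_mono_null hsub (ae_iff.mp hconv)
    rw [Real.volume_Ioi] at hz
    exact ENNReal.top_ne_zero hz
  obtain ⟨x, hxX, hx⟩ := hex
  obtain ⟨hx3, hx4⟩ := hX x hxX.le
  have hx0 : 0 < x := hx1.trans hx4
  have h5 := k_nonneg_bound hf hfi hkc hk hx1 hx4
  rw [← hx hx0] at h5
  have h6 : 0 ≤ x * f x := mul_nonneg hx0.le (hf x hx0)
  linarith

end Pool.Agent.H967.GGC
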