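import Pool.Agent.H967.GGC.Basic2

set_option autoImplicit false

/-!
# Self-decomposability of McKay-type Bessel laws: leaf C4
-/

namespace Pool.Agent.H967.GGC
open MeasureTheory Filter Topology Set

/-- the integral of the convolution -/
theorem exponent_of_conv_int {κ f : ℝ → ℝ} (hκ : IntegrableOn κ (Ioi 0))
    (hf : IntegrableOn f (Ioi 0)) :
    IntegrableOn (fun x => ∫ y in Ioo 0 x, κ y * f (x - y)) (Ioi 0) ∧
      ∫ x in Ioi (0 : ℝ), (∫ y in Ioo 0 x, κ y * f (x - y)) =
        (∫ x in Ioi (0 : ℝ), κ x) * ∫ x in Ioi (0 : ℝ), f x := by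
  have h1 : ∀ x ∈ Ioi (0 : ℝ), ∫ y in (0 : ℝ)..x, κ y * f (x - y) =
      ∫ y in Ioo 0 x, κ y * f (x - y) := by
    intro x hx
    rw [intervalIntegral.integral_of_le (le_of_lt hx), integral_Ioc_eq_integral_Ioo]
  have h2 := integral_posConvolution (μ := volume) (ν := volume) hκ hf (ContinuousLinearMap.mul ℝ ℝ)
  have h3 := integrable_posConvolution (μ := volume) (ν := volume) hκ hf (ContinuousLinearMap.mul ℝ ℝ)
  constructor
  · have h4 : posConvolution κ f (ContinuousLinearMap.mul ℝ ℝ) volume =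
        indicator (Ioi 0) (fun x => ∫ y in Ioo 0 x, κ y * f (x - y)) := by
      unfold posConvolution
      refine indicator_congr fun x hx => ?_
      exact h1 x hx
    rw [h4] at h3
    exact (integrable_indicator_iff measurableSet_Ioi).1 h3
  · rw [← setIntegral_congr_fun measurableSet_Ioi h1]
    exact h2

theorem exponent_of_conv_int1 {f k : ℝ → ℝ} (hfi : IntegrableOn f (Ioi 0)) (hkc : Continuous k)
    (x : ℝ) : IntegrableOn (fun y => k y * f (x - y)) (Ioo 0 x) := by
  have h1 : IntegrableOn f (Ioo 0 x) := hfi.mono_set Ioo_subset_Ioi_self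
  have h2 : IntegrableOn (fun y => f (x - y)) (Ioo 0 x) := by
    have h3 := ((Measure.measurePreserving_sub_left (volume : Measure ℝ) x).integrableOn_comp_preimage
      (MeasurableEquiv.subLeft x).measurableEmbedding (f := f) (s := Ioo 0 x)).2 h1
    have h4 : (fun y => x - y) ⁻¹' Ioo 0 x = Ioo 0 x := by
      ext y
      simp only [mem_preimage, mem_Ioo]
      constructor
      · rintro ⟨h5, h6⟩
        constructor <;> linarith
      · rintro ⟨h5, h6⟩
        constructor <;> linarith
    rw [h4] at h3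
    exact h3
  obtain ⟨C, hC⟩ := (isCompact_Icc (a := (0 : ℝ)) (b := x)).exists_bound_of_continuousOn hkc.continuousOn
  refine Integrable.bdd_mul (c := C) h2 hkc.aestronglyMeasurable ?_
  refine (ae_restrict_iff' measurableSet_Ioo).2 (Eventually.of_forall fun y hy => ?_)
  exact hC y ⟨hy.1.le, hy.2.le⟩

theorem exponent_of_conv_k {f k : ℝ → ℝ} (hf : ∀ x, 0 < x → 0 ≤ f x)
    (hfi : IntegrableOn f (Ioi 0)) (hxf : IntegrableOn (fun x => x * f x) (Ioi 0))
    (hf1 : ∫ x in Ioi (0 : ℝ), f x = 1) (hkc : Continuous k) (hk : ∀ x, 0 < x → 0 ≤ k x)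
    (hconv : ∀ᵐ x ∂(volume.restrict (Ioi (0 : ℝ))), x * f x = ∫ y in Ioo 0 x, k y * f (x - y)) :
    IntegrableOn k (Ioi 0) := by
  have h1 : ∀ T : ℝ, 0 ≤ T → ∫ x in Ioc 0 T, k x ≤ ∫ x in Ioi (0 : ℝ), x * f x := by
    intro T hT
    have hkT : IntegrableOn k (Ioc 0 T) := (hkc.integrableOn_Icc (a := 0) (b := T)).mono_set Ioc_subset_Icc_self
    have h2 : IntegrableOn ((Iic T).indicator k) (Ioi 0) := by
      rw [IntegrableOn, integrable_indicator_iff measurableSet_Iic, IntegrableOn,
        Measure.restrict_restrict measurableSet_Iic, inter_comm, Ioi_inter_Iic]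
      exact hkT
    have h3 := exponent_of_conv_int h2 hfi
    have h4 : ∫ x in Ioi (0 : ℝ), (Iic T).indicator k x = ∫ x in Ioc 0 T, k x := by
      rw [integral_indicator measurableSet_Iic, Measure.restrict_restrict measurableSet_Iic, inter_comm,
        Ioi_inter_Iic]
    rw [h4, hf1, mul_one] at h3
    rw [← h3.2]
    refine setIntegral_mono_ae_restrict h3.1 hxf ?_
    filter_upwards [hconv, ae_restrict_mem measurableSet_Ioi] with x hx hx0
    rw [hx]
    refine setIntegral_mono_on ?_ (exponent_of_conv_int1 hfi hkc x) measurableSet_Ioo ?_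
    · have h5 : (fun y => (Iic T).indicator k y * f (x - y)) =
          (Iic T).indicator (fun y => k y * f (x - y)) := by
        funext y
        by_cases hy : y ∈ Iic T
        · rw [indicator_of_mem hy, indicator_of_mem hy]
        · rw [indicator_of_notMem hy, indicator_of_notMem hy, zero_mul]
      rw [h5]
      exact (exponent_of_conv_int1 hfi hkc x).indicator measurableSet_Iic
    · intro y hy
      refine mul_le_mul_of_nonneg_right ?_ (hf _ (sub_pos.2 hy.2))
      exact indicator_le_self' (fun _ _ => hk y hy.1) y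
  refine integrableOn_Ioi_of_intervalIntegral_norm_bounded (l := atTop) (b := fun n : ℕ => (n : ℝ))
    (∫ x in Ioi (0 : ℝ), x * f x) 0 (fun n => ?_) tendsto_natCast_atTop_atTop ?_
  · exact (hkc.integrableOn_Icc (a := 0) (b := (n : ℝ))).mono_set Ioc_subset_Icc_self
  · refine Eventually.of_forall fun n => ?_
    rw [intervalIntegral.integral_of_le (Nat.cast_nonneg n)]
    refine le_trans (le_of_eq ?_) (h1 n (Nat.cast_nonneg n))
    refine setIntegral_congr_fun measurableSet_Ioc fun y hy => ?_
    exact Real.norm_of_nonneg (hk y hy.1)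

theorem exponent_of_conv_w {g : ℝ → ℝ} (hg : IntegrableOn g (Ioi 0)) {s : ℝ} (hs : 0 ≤ s) :
    IntegrableOn (fun x => Real.exp (-(s * x)) * g x) (Ioi 0) := by
  refine Integrable.bdd_mul (c := 1) hg (by fun_prop) ?_
  refine (ae_restrict_iff' measurableSet_Ioi).2 (Eventually.of_forall fun y hy => ?_)
  rw [Real.norm_eq_abs, Real.abs_exp]
  have hy' : (0 : ℝ) < y := hy
  exact Real.exp_le_one_iff.2 (by nlinarith)

theorem exponent_of_conv_lap {f k : ℝ → ℝ} (hfi : IntegrableOn f (Ioi 0))
    (hki : IntegrableOn k (Ioi 0))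
    (hconv : ∀ᵐ x ∂(volume.restrict (Ioi (0 : ℝ))), x * f x = ∫ y in Ioo 0 x, k y * f (x - y))
    {s : ℝ} (hs : 0 ≤ s) :
    ∫ x in Ioi (0 : ℝ), Real.exp (-(s * x)) * (x * f x) =
      (∫ x in Ioi (0 : ℝ), Real.exp (-(s * x)) * k x) *
        ∫ x in Ioi (0 : ℝ), Real.exp (-(s * x)) * f x := by
  rw [← (exponent_of_conv_int (exponent_of_conv_w hki hs) (exponent_of_conv_w hfi hs)).2]
  apply integral_congr_ae
  filter_upwards [hconv] with x hx
  rw [hx, ← integral_const_mul]
  congr 1
  funext y
  have h1 : Real.exp (-(s * x)) = Real.exp (-(s * y)) * Real.exp (-(s * (x - y))) := by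
    rw [← Real.exp_add]
    congr 1
    ring
  rw [h1]
  ring

/-- derivative of the Laplace transform -/
theorem exponent_of_conv_dL {f : ℝ → ℝ}
    (hfi : IntegrableOn f (Ioi 0)) (hxf : IntegrableOn (fun x => x * f x) (Ioi 0)) {s : ℝ}
    (hs : 0 < s) : HasDerivAt (fun s : ℝ => ∫ x in Ioi (0 : ℝ), Real.exp (-(s * x)) * f x)
      (-∫ x in Ioi (0 : ℝ), Real.exp (-(s * x)) * (x * f x)) s := by
  have h1 := hasDerivAt_integral_of_dominated_loc_of_deriv_le (μ := volume.restrict (Ioi (0 : ℝ)))
    (F := fun s x => Real.exp (-(s * x)) * f x)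
    (F' := fun s x => -(Real.exp (-(s * x)) * (x * f x))) (x₀ := s)
    (bound := fun x => ‖x * f x‖) (Ioi_mem_nhds hs)
    (by
      filter_upwards [Ioi_mem_nhds hs] with t ht
      exact (exponent_of_conv_w hfi (le_of_lt ht)).aestronglyMeasurable)
    (exponent_of_conv_w hfi hs.le)
    (exponent_of_conv_w hxf hs.le).aestronglyMeasurable.neg
    (by
      refine (ae_restrict_iff' measurableSet_Ioi).2 (Eventually.of_forall fun y hy t ht => ?_)
      have hy' : (0 : ℝ) < y := hy
      have ht' : (0 : ℝ) < t := ht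
      rw [norm_neg, norm_mul, Real.norm_eq_abs, Real.abs_exp]
      have h2 : Real.exp (-(t * y)) ≤ 1 := Real.exp_le_one_iff.2 (by nlinarith)
      have h3 := norm_nonneg (y * f y)
      nlinarith)
    hxf.norm
    (by
      refine Eventually.of_forall fun y t _ => ?_
      have h2 : HasDerivAt (fun t : ℝ => -(t * y)) (-y) t := by
        have h0 : HasDerivAt (fun t : ℝ => t * y) (1 * y) t := (hasDerivAt_id' t).mul_const y
        rw [one_mul] at h0
        exact h0.fun_neg
      have h3 := h2.exp.mul_const (f y)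
      refine h3.congr_deriv ?_
      ring)
  have h2 := h1.2
  rw [integral_neg] at h2
  exact h2

/-- the function `(1 - e^(-sx)) / x` is between `0` and `s` -/
theorem exponent_of_conv_b {s x : ℝ} (hs : 0 ≤ s) (hx : 0 < x) :
    |(1 - Real.exp (-(s * x))) / x| ≤ s := by
  have h1 : Real.exp (-(s * x)) ≤ 1 := Real.exp_le_one_iff.2 (by nlinarith)
  have h2 : -(s * x) + 1 ≤ Real.exp (-(s * x)) := Real.add_one_le_exp _
  rw [abs_of_nonneg (div_nonneg (by linarith) hx.le), div_le_iff₀ hx]
  linarith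

theorem exponent_of_conv_G {k : ℝ → ℝ} (hki : IntegrableOn k (Ioi 0)) {s : ℝ} (hs : 0 ≤ s) :
    IntegrableOn (fun x => (1 - Real.exp (-(s * x))) * (k x / x)) (Ioi 0) := by
  have h1 : IntegrableOn (fun x => ((1 - Real.exp (-(s * x))) / x) * k x) (Ioi 0) := by
    have hm : Measurable (fun x : ℝ => (1 - Real.exp (-(s * x))) / x) := by
      refine Measurable.div ?_ measurable_id
      fun_prop
    refine Integrable.bdd_mul (c := s) hki hm.aestronglyMeasurable ?_
    refine (ae_restrict_iff' measurableSet_Ioi).2 (Eventually.of_forall fun y hy => ?_)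
    exact exponent_of_conv_b hs hy
  refine h1.congr_fun (fun x _ => ?_) measurableSet_Ioi
  show (1 - Real.exp (-(s * x))) / x * k x = (1 - Real.exp (-(s * x))) * (k x / x)
  ring

/-- derivative of the exponent -/
theorem exponent_of_conv_dG {k : ℝ → ℝ} (hki : IntegrableOn k (Ioi 0)) {s : ℝ}
    (hs : 0 < s) : HasDerivAt (fun s : ℝ => ∫ x in Ioi (0 : ℝ), (1 - Real.exp (-(s * x))) * (k x / x))
      (∫ x in Ioi (0 : ℝ), Real.exp (-(s * x)) * k x) s := by
  have h1 := hasDerivAt_integral_of_dominated_loc_of_deriv_le (μ := volume.restrict (Ioi (0 : ℝ)))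
    (F := fun s x => (1 - Real.exp (-(s * x))) * (k x / x))
    (F' := fun s x => (Real.exp (-(s * x)) * x) * (k x / x)) (x₀ := s)
    (bound := fun x => ‖k x‖) (Ioi_mem_nhds hs)
    (by
      filter_upwards [Ioi_mem_nhds hs] with t ht
      exact (exponent_of_conv_G hki (le_of_lt ht)).aestronglyMeasurable)
    (exponent_of_conv_G hki hs.le)
    (by
      have h2 : AEStronglyMeasurable (fun x => (Real.exp (-(s * x)) * x) * (k x / x))
          (volume.restrict (Ioi (0 : ℝ))) := by
        have h3 : AEStronglyMeasurable (fun x : ℝ => Real.exp (-(s * x))) (volume.restrict (Ioi (0 : ℝ))) := by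
          fun_prop
        have h4 := h3.mul hki.aestronglyMeasurable
        refine h4.congr ?_
        refine (ae_restrict_iff' measurableSet_Ioi).2 (Eventually.of_forall fun y hy => ?_)
        have hy' : (y : ℝ) ≠ 0 := (show (0 : ℝ) < y from hy).ne'
        show Real.exp (-(s * y)) * k y = Real.exp (-(s * y)) * y * (k y / y)
        field_simp
      exact h2)
    (by
      refine (ae_restrict_iff' measurableSet_Ioi).2 (Eventually.of_forall fun y hy t ht => ?_)
      have hy' : (0 : ℝ) < y := hy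
      have ht' : (0 : ℝ) < t := ht
      have h4 : Real.exp (-(t * y)) * y * (k y / y) = Real.exp (-(t * y)) * k y := by
        field_simp
      rw [h4, norm_mul, Real.norm_eq_abs, Real.abs_exp]
      have h2 : Real.exp (-(t * y)) ≤ 1 := Real.exp_le_one_iff.2 (by nlinarith)
      have h3 := norm_nonneg (k y)
      nlinarith)
    hki.norm
    (by
      refine Eventually.of_forall fun y t _ => ?_
      have h2 : HasDerivAt (fun t : ℝ => -(t * y)) (-y) t := by
        have h0 : HasDerivAt (fun t : ℝ => t * y) (1 * y) t := (hasDerivAt_id' t).mul_const y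
        rw [one_mul] at h0
        exact h0.fun_neg
      have h3 := (h2.exp.const_sub 1).mul_const (k y / y)
      refine h3.congr_deriv ?_
      ring)
  have h2 := h1.2
  have h3 : ∫ x in Ioi (0 : ℝ), Real.exp (-(s * x)) * x * (k x / x) =
      ∫ x in Ioi (0 : ℝ), Real.exp (-(s * x)) * k x := by
    refine setIntegral_congr_fun measurableSet_Ioi fun y hy => ?_
    have hy' : (y : ℝ) ≠ 0 := (show (0 : ℝ) < y from hy).ne'
    show Real.exp (-(s * y)) * y * (k y / y) = Real.exp (-(s * y)) * k y
    field_simp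
  rw [h3] at h2
  exact h2

/-- C4 -/
theorem exponent_of_conv_proof {f k : ℝ → ℝ} (hf : ∀ x, 0 < x → 0 ≤ f x)
    (hfi : IntegrableOn f (Ioi 0)) (hxf : IntegrableOn (fun x => x * f x) (Ioi 0))
    (hf1 : ∫ x in Ioi (0 : ℝ), f x = 1) (hkc : Continuous k) (hk : ∀ x, 0 < x → 0 ≤ k x)
    (hconv : ∀ᵐ x ∂(volume.restrict (Ioi (0 : ℝ))), x * f x = ∫ y in Ioo 0 x, k y * f (x - y)) :
    IntegrableOn k (Ioi 0) ∧ ∀ s : ℝ, 0 ≤ s → ∫ x in Ioi (0 : ℝ), Real.exp (-(s * x)) * f x =
      Real.exp (-∫ x in Ioi (0 : ℝ), (1 - Real.exp (-(s * x))) * (k x / x)) := by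
  have hki := exponent_of_conv_k hf hfi hxf hf1 hkc hk hconv
  refine ⟨hki, ?_⟩
  set L : ℝ → ℝ := fun s => ∫ x in Ioi (0 : ℝ), Real.exp (-(s * x)) * f x with hL
  set G : ℝ → ℝ := fun s => ∫ x in Ioi (0 : ℝ), (1 - Real.exp (-(s * x))) * (k x / x) with hG
  have hL0 : L 0 = 1 := by
    simp only [hL, zero_mul, neg_zero, Real.exp_zero, one_mul]
    exact hf1
  have hG0 : G 0 = 0 := by
    simp only [hG, zero_mul, neg_zero, Real.exp_zero, sub_self, integral_zero]
  have hd : ∀ s : ℝ, 0 < s → HasDerivAt (fun s => L s * Real.exp (G s)) 0 s := by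
    intro s hs
    have h1 := (exponent_of_conv_dL hfi hxf hs).mul (exponent_of_conv_dG hki hs).exp
    refine h1.congr_deriv ?_
    rw [exponent_of_conv_lap hfi hki hconv hs.le]
    ring
  have hLc : ∀ T : ℝ, ContinuousOn L (Icc 0 T) := by
    intro T
    refine continuousOn_of_dominated (bound := fun x => ‖f x‖)
      (fun t ht => (exponent_of_conv_w hfi ht.1).aestronglyMeasurable) (fun t ht => ?_) hfi.norm
      (Eventually.of_forall fun y => by fun_prop)
    refine (ae_restrict_iff' measurableSet_Ioi).2 (Eventually.of_forall fun y hy => ?_)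
    have hy' : (0 : ℝ) < y := hy
    have ht' : (0 : ℝ) ≤ t := ht.1
    rw [norm_mul, Real.norm_eq_abs, Real.abs_exp]
    have h2 : Real.exp (-(t * y)) ≤ 1 := Real.exp_le_one_iff.2 (by nlinarith)
    have h3 := norm_nonneg (f y)
    nlinarith
  have hGc : ∀ T : ℝ, ContinuousOn G (Icc 0 T) := by
    intro T
    refine continuousOn_of_dominated (bound := fun x => |T| * ‖k x‖)
      (fun t ht => (exponent_of_conv_G hki ht.1).aestronglyMeasurable) (fun t ht => ?_)
      (hki.norm.const_mul _) (Eventually.of_forall fun y => by fun_prop)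
    refine (ae_restrict_iff' measurableSet_Ioi).2 (Eventually.of_forall fun y hy => ?_)
    have hy' : (0 : ℝ) < y := hy
    have h4 : (1 - Real.exp (-(t * y))) * (k y / y) = (1 - Real.exp (-(t * y))) / y * k y := by
      ring
    rw [h4, norm_mul]
    refine mul_le_mul_of_nonneg_right ?_ (norm_nonneg _)
    exact (exponent_of_conv_b ht.1 hy').trans (ht.2.trans (le_abs_self T))
  intro s hs
  have hfin : L s * Real.exp (G s) = 1 := by
    rcases hs.eq_or_lt with rfl | hs
    · rw [hL0, hG0, Real.exp_zero, one_mul]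
    · have hc : ContinuousOn (fun s => L s * Real.exp (G s)) (Icc 0 s) :=
        (hLc s).mul (Real.continuous_exp.comp_continuousOn (hGc s))
      obtain ⟨c, hc1, hc2⟩ := exists_hasDerivAt_eq_slope (fun s => L s * Real.exp (G s)) (fun _ => 0) hs hc
        (fun x hx => hd x hx.1)
      have h5 : (L s * Real.exp (G s) - L 0 * Real.exp (G 0)) / (s - 0) = 0 := hc2.symm
      rw [sub_zero, div_eq_zero_iff] at h5
      rcases h5 with h5 | h5
      · rw [hL0, hG0, Real.exp_zero, one_mul] at h5
        linarith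
      · exact absurd h5 hs.ne'
  show L s = Real.exp (-G s)
  rw [Real.exp_neg]
  exact eq_inv_of_mul_eq_one_left hfin

end Pool.Agent.H967.GGC
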