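import Pool.Agent.H967.GGC.Basic2

set_option autoImplicit false

namespace Pool.Agent.H967.GGC
open MeasureTheory Filter Topology Set

/-- the coefficients -/
noncomputable def KK_two_c (μ : ℝ) (n : ℕ) : ℝ := if n = 0 then 2 * μ + 2 else 2 * μ + 3

theorem KK_two_hc {μ : ℝ} (hμ : -1 < μ) (n : ℕ) :
    hc (μ + 3 / 2) (μ + 1 + 1) (μ + 1) n * (μ + 1) =
      hc (μ + 3 / 2) (μ + 1) (μ + 1) n * (μ + 1 + n) := by
  induction n with
  | zero => simp [hc_zero]
  | succ n ih =>
    rw [hc_succ, hc_succ]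
    have h1 : (0 : ℝ) < μ + 1 + n := by
      have : (0 : ℝ) ≤ n := Nat.cast_nonneg n
      linarith
    have h2 : (0 : ℝ) < (n : ℝ) + 1 := by positivity
    have h3 : hc (μ + 3 / 2) (μ + 1 + 1) (μ + 1) n *
        ((μ + 3 / 2 + n) * (μ + 1 + 1 + n) / ((μ + 1 + n) * (n + 1))) * (μ + 1) =
        (hc (μ + 3 / 2) (μ + 1 + 1) (μ + 1) n * (μ + 1)) *
        ((μ + 3 / 2 + n) * (μ + 1 + 1 + n) / ((μ + 1 + n) * (n + 1))) := by ring
    rw [h3, ih]
    push_cast
    field_simp
    ring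

theorem KK_two_sum {μ : ℝ} (hμ : -1 < μ) (n : ℕ) :
    (μ + 3 / 2) * ∑ i ∈ Finset.range (n + 1), hc (μ + 3 / 2) (μ + 1) (μ + 1) i =
      (μ + 3 / 2 + n) * hc (μ + 3 / 2) (μ + 1) (μ + 1) n := by
  induction n with
  | zero => simp
  | succ n ih =>
    rw [Finset.sum_range_succ, mul_add, ih]
    have h1 : (0 : ℝ) < μ + 1 + n := by
      have : (0 : ℝ) ≤ n := Nat.cast_nonneg n
      linarith
    have h2 : (0 : ℝ) < (n : ℝ) + 1 := by positivity
    have h3 : hc (μ + 3 / 2) (μ + 1) (μ + 1) (n + 1) * ((n : ℝ) + 1) =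
        (μ + 3 / 2 + n) * hc (μ + 3 / 2) (μ + 1) (μ + 1) n := by
      rw [hc_succ]
      field_simp
    rw [← h3]
    push_cast
    ring

theorem KK_two_conv {μ : ℝ} (hμ : -1 < μ) (n : ℕ) :
    ∑ x ∈ Finset.HasAntidiagonal.antidiagonal n, KK_two_c μ x.1 * hc (μ + 3 / 2) (μ + 1) (μ + 1) x.2 =
      2 * (μ + 1) * hc (μ + 3 / 2) (μ + 1 + 1) (μ + 1) n := by
  have h1 : ∑ x ∈ Finset.HasAntidiagonal.antidiagonal n, KK_two_c μ x.1 * hc (μ + 3 / 2) (μ + 1) (μ + 1) x.2 =
      ∑ x ∈ Finset.HasAntidiagonal.antidiagonal n,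
        ((2 * μ + 3) * hc (μ + 3 / 2) (μ + 1) (μ + 1) x.2 -
          (if x.1 = 0 then hc (μ + 3 / 2) (μ + 1) (μ + 1) x.2 else 0)) := by
    apply Finset.sum_congr rfl
    intro x _
    unfold KK_two_c
    split_ifs with h
    · ring
    · ring
  rw [h1, Finset.sum_sub_distrib, ← Finset.mul_sum]
  have h2 : ∑ x ∈ Finset.HasAntidiagonal.antidiagonal n, hc (μ + 3 / 2) (μ + 1) (μ + 1) x.2 =
      ∑ i ∈ Finset.range (n + 1), hc (μ + 3 / 2) (μ + 1) (μ + 1) i := by
    rw [Finset.Nat.sum_antidiagonal_eq_sum_range_succ (f := fun _ j => hc (μ + 3 / 2) (μ + 1) (μ + 1) j) n]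
    rw [← Finset.sum_range_reflect]
    apply Finset.sum_congr rfl
    intro i hi
    rw [Finset.mem_range] at hi
    congr 1
    omega
  have h3 : ∑ x ∈ Finset.HasAntidiagonal.antidiagonal n,
      (if x.1 = 0 then hc (μ + 3 / 2) (μ + 1) (μ + 1) x.2 else 0) =
      hc (μ + 3 / 2) (μ + 1) (μ + 1) n := by
    rw [Finset.sum_eq_single (0, n)]
    · simp
    · intro b hb hne
      rw [if_neg]
      intro h0
      apply hne
      rw [Finset.HasAntidiagonal.mem_antidiagonal] at hb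
      ext
      · exact h0
      · simp only
        omega
    · intro h
      exact absurd (Finset.HasAntidiagonal.mem_antidiagonal.2 (by simp)) h
  rw [h2, h3]
  have h4 := KK_two_sum hμ n
  have h5 := KK_two_hc hμ n
  have e : (2 * μ + 3) * ∑ i ∈ Finset.range (n + 1), hc (μ + 3 / 2) (μ + 1) (μ + 1) i =
      2 * ((μ + 3 / 2) * ∑ i ∈ Finset.range (n + 1), hc (μ + 3 / 2) (μ + 1) (μ + 1) i) := by ring
  rw [e, h4]
  linarith

theorem KK_two_kap {μ : ℝ} (hμ : -1 < μ) (n : ℕ) :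
    kap (μ + 3 / 2) (μ + 1) (μ + 1) n = KK_two_c μ n := by
  induction n using Nat.strong_induction_on with
  | _ n ih =>
    have h1 := kap_rec (μ + 3 / 2) (μ + 1) (μ + 1) n
    rw [← KK_two_conv hμ n] at h1
    have h2 : ∑ x ∈ Finset.HasAntidiagonal.antidiagonal n,
        (kap (μ + 3 / 2) (μ + 1) (μ + 1) x.1 - KK_two_c μ x.1) *
          hc (μ + 3 / 2) (μ + 1) (μ + 1) x.2 = 0 := by
      rw [← sub_eq_zero.2 h1, ← Finset.sum_sub_distrib]
      apply Finset.sum_congr rfl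
      intro x _
      ring
    rw [Finset.sum_eq_single (n, 0)] at h2
    · simp only [hc_zero, mul_one] at h2
      linarith
    · intro b hb hne
      rw [Finset.HasAntidiagonal.mem_antidiagonal] at hb
      have hlt : b.1 < n := by
        rcases Nat.lt_or_ge b.1 n with h | h
        · exact h
        · exfalso
          apply hne
          ext
          · simp only
            omega
          · simp only
            omega
      rw [ih b.1 hlt, sub_self, zero_mul]
    · intro h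
      exact absurd (Finset.HasAntidiagonal.mem_antidiagonal.2 (by simp)) h

/-- G2 -/
theorem KK_two_proof {μ : ℝ} (hμ : -1 < μ) (x : ℝ) :
    KK (μ + 3 / 2) (μ + 1) (μ + 1) x = (2 * μ + 3) * Real.cosh x - 1 := by
  unfold KK
  have h1 := (Real.hasSum_cosh x).mul_left (2 * μ + 3)
  have h2 : HasSum (fun n : ℕ => if n = 0 then (1 : ℝ) else 0) 1 := hasSum_ite_eq 0 1
  have h3 := h1.sub h2
  rw [← h3.tsum_eq]
  apply tsum_congr
  intro n
  rw [KK_two_kap hμ]
  unfold KK_two_c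
  split_ifs with h
  · subst h
    simp
    ring
  · ring

end Pool.Agent.H967.GGC
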