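import Pool.Agent.H967.GGC.Basic2

set_option autoImplicit false

/-!
# Leaf G3: the threshold
-/

namespace Pool.Agent.H967.GGC

/-- G3 -/
theorem threshold_proof {C t : ℝ} (hC : 1 < C) :
    (∀ x, 0 < x → C * Real.sinh x ≤ t * (C * Real.cosh x - 1)) ↔
      C ≤ t * Real.sqrt (C ^ 2 - 1) := by
  have hC2 : 0 < C ^ 2 - 1 := by nlinarith
  set r : ℝ := Real.sqrt (C ^ 2 - 1) with hr
  have hr0 : 0 < r := Real.sqrt_pos.2 hC2
  have hr2 : r ^ 2 = C ^ 2 - 1 := Real.sq_sqrt hC2.le
  have hs : Real.sinh (Real.arsinh r) = r := Real.sinh_arsinh r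
  have hc : Real.cosh (Real.arsinh r) = C := by
    rw [Real.cosh_arsinh, hr2]
    rw [show 1 + (C ^ 2 - 1) = C ^ 2 by ring]
    exact Real.sqrt_sq (by linarith)
  constructor
  · intro h
    have h1 := h (Real.arsinh r) (Real.arsinh_pos_iff.2 hr0)
    rw [hs, hc] at h1
    have h2 : C * r ≤ (t * r) * r := by
      have : t * (C * C - 1) = (t * r) * r := by
        have : C * C - 1 = r * r := by nlinarith
        rw [this]; ring
      linarith
    exact le_of_mul_le_mul_right h2 hr0
  · intro h x hx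
    have ht : 0 < t := by
      by_contra h0
      have : t * r ≤ 0 := mul_nonpos_of_nonpos_of_nonneg (not_lt.1 h0) hr0.le
      linarith
    have h1 : 1 ≤ Real.cosh (x - Real.arsinh r) := Real.one_le_cosh _
    rw [Real.cosh_sub, hs, hc] at h1
    have h2 : r * Real.sinh x ≤ C * Real.cosh x - 1 := by nlinarith
    have h3 : 0 < Real.sinh x := Real.sinh_pos_iff.2 hx
    calc C * Real.sinh x ≤ t * r * Real.sinh x := mul_le_mul_of_nonneg_right h h3.le
      _ = t * (r * Real.sinh x) := by ring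
      _ ≤ t * (C * Real.cosh x - 1) := mul_le_mul_of_nonneg_left h2 ht.le

end Pool.Agent.H967.GGC
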