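import Pool.Agent.H967.GGC.Basic2

set_option autoImplicit false

/-!
# Self-decomposability of McKay-type Bessel laws: leaf K1 (helper990 for helper967)
-/

namespace Pool.Agent.H967.GGC
open MeasureTheory Filter Topology Set

theorem kap_bound_hc {a b c : ℝ} (ha : 0 < a) (hb : 0 < b) (hc' : 0 < c) (n : ℕ) :
    hc a b c n ≤ F a b c (1 / 2) * 2 ^ n := by
  have hs := summable_hc ha hb hc' (z := 1 / 2) (by rw [abs_of_pos (by norm_num)]; norm_num)
  have h1 := hs.le_tsum n (fun k _ => by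
    have := hc_pos ha hb hc' k
    positivity)
  have h2 : hc a b c n * (1 / 2 : ℝ) ^ n ≤ F a b c (1 / 2) := h1
  have h3 : (0 : ℝ) < 2 ^ n := by positivity
  have h4 := mul_le_mul_of_nonneg_right h2 h3.le
  have h5 : hc a b c n * (1 / 2 : ℝ) ^ n * 2 ^ n = hc a b c n := by
    rw [mul_assoc, ← mul_pow]
    norm_num
  rwa [h5] at h4

/-- K1 -/
theorem kap_bound_proof {α β γ : ℝ} (hα : 0 < α) (hβ : 0 < β) (hγ : 0 < γ) :
    ∃ M S : ℝ, 0 < M ∧ 1 ≤ S ∧ ∀ n, |kap α β γ n| ≤ M * S ^ n := by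
  obtain ⟨A, hA⟩ : ∃ A : ℝ, A = F α β γ (1 / 2) := ⟨_, rfl⟩
  obtain ⟨B, hB⟩ : ∃ B : ℝ, B = F α (β + 1) γ (1 / 2) := ⟨_, rfl⟩
  have hA0 : 0 < A := by rw [hA]; exact F_pos hα hβ hγ (by norm_num) (by norm_num)
  have hβ1 : 0 < β + 1 := by linarith
  have hB0 : 0 < B := by rw [hB]; exact F_pos hα hβ1 hγ (by norm_num) (by norm_num)
  have hAn : ∀ n, hc α β γ n ≤ A * 2 ^ n := fun n => by rw [hA]; exact kap_bound_hc hα hβ hγ n
  have hBn : ∀ n, hc α (β + 1) γ n ≤ B * 2 ^ n := fun n => by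
    rw [hB]; exact kap_bound_hc hα hβ1 hγ n
  refine ⟨2 * β * B, 2 * (1 + A), by positivity, by linarith, ?_⟩
  intro n
  induction n using Nat.strong_induction_on with
  | _ n ih =>
    have hrec := kap_rec α β γ n
    rw [Finset.Nat.sum_antidiagonal_eq_sum_range_succ
      (fun i j => kap α β γ i * hc α β γ j) n, Finset.sum_range_succ, Nat.sub_self, hc_zero,
      mul_one] at hrec
    have e1 : kap α β γ n = 2 * β * hc α (β + 1) γ n -
        ∑ k ∈ Finset.range n, kap α β γ k * hc α β γ (n - k) := by linarith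
    have e2 : |2 * β * hc α (β + 1) γ n| ≤ 2 * β * B * 2 ^ n := by
      have h1 := hc_pos hα hβ1 hγ n
      rw [abs_of_pos (by positivity)]
      have h2 := mul_le_mul_of_nonneg_left (hBn n) (show 0 ≤ 2 * β by positivity)
      linarith
    have e3 : |∑ k ∈ Finset.range n, kap α β γ k * hc α β γ (n - k)| ≤
        2 * β * B * 2 ^ n * ((1 + A) ^ n - 1) := by
      have h1 : |∑ k ∈ Finset.range n, kap α β γ k * hc α β γ (n - k)| ≤
          ∑ k ∈ Finset.range n, |kap α β γ k * hc α β γ (n - k)| := Finset.abs_sum_le_sum_abs _ _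
      have h2 : ∀ k ∈ Finset.range n, |kap α β γ k * hc α β γ (n - k)| ≤
          2 * β * B * 2 ^ n * (A * (1 + A) ^ k) := by
        intro k hk
        rw [Finset.mem_range] at hk
        have h3 := ih k hk
        have h4 := hc_pos hα hβ hγ (n - k)
        rw [abs_mul, abs_of_pos h4]
        calc |kap α β γ k| * hc α β γ (n - k)
            ≤ (2 * β * B * (2 * (1 + A)) ^ k) * (A * 2 ^ (n - k)) :=
              mul_le_mul h3 (hAn _) h4.le (by positivity)
          _ = 2 * β * B * (2 ^ k * 2 ^ (n - k)) * (A * (1 + A) ^ k) := by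
              rw [mul_pow]
              ring
          _ = 2 * β * B * 2 ^ n * (A * (1 + A) ^ k) := by
              rw [← pow_add, Nat.add_sub_cancel' hk.le]
      have h5 : ∑ k ∈ Finset.range n, 2 * β * B * 2 ^ n * (A * (1 + A) ^ k) =
          2 * β * B * 2 ^ n * ((1 + A) ^ n - 1) := by
        rw [← Finset.mul_sum, ← Finset.mul_sum]
        have h6 := mul_geom_sum (1 + A) n
        rw [add_sub_cancel_left] at h6
        rw [h6]
      exact (h1.trans (Finset.sum_le_sum h2)).trans (le_of_eq h5)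
    rw [e1]
    calc |2 * β * hc α (β + 1) γ n - ∑ k ∈ Finset.range n, kap α β γ k * hc α β γ (n - k)|
        ≤ |2 * β * hc α (β + 1) γ n| +
          |∑ k ∈ Finset.range n, kap α β γ k * hc α β γ (n - k)| := abs_sub _ _
      _ ≤ 2 * β * B * 2 ^ n + 2 * β * B * 2 ^ n * ((1 + A) ^ n - 1) := add_le_add e2 e3
      _ = 2 * β * B * (2 * (1 + A)) ^ n := by
          rw [mul_pow]
          ring

end Pool.Agent.H967.GGC
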