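import Pool.Agent.H967.GGC.Basic2

set_option autoImplicit false

/-!
# S1: nonpositive Bernstein integrals
-/

namespace Pool.Agent.H967.GGC
open MeasureTheory Filter Topology Set

/-- the point `exp (-x)` of the unit interval -/
noncomputable def bern_nonpos_U (x : ℝ) : unitInterval :=
  Set.projIcc 0 1 zero_le_one (Real.exp (-x))

theorem bern_nonpos_U_cont : Continuous bern_nonpos_U := by
  unfold bern_nonpos_U
  exact continuous_projIcc.comp (by fun_prop)

theorem bern_nonpos_U_coe {x : ℝ} (hx : 0 < x) :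
    ((bern_nonpos_U x : unitInterval) : ℝ) = Real.exp (-x) := by
  unfold bern_nonpos_U
  rw [Set.projIcc_of_mem zero_le_one
    ⟨(Real.exp_pos _).le, Real.exp_le_one_iff.2 (by linarith)⟩]

theorem bern_nonpos_int {w : ℝ → ℝ} (hw : IntegrableOn w (Ioi 0)) (θ : C(unitInterval, ℝ)) :
    IntegrableOn (fun x => θ (bern_nonpos_U x) * w x) (Ioi 0) := by
  refine Integrable.bdd_mul (c := ‖θ‖) hw ?_ ?_
  · exact (θ.continuous.comp bern_nonpos_U_cont).aestronglyMeasurable
  · exact Eventually.of_forall fun x => θ.norm_coe_le_norm _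

theorem bern_nonpos_int2 {w : ℝ → ℝ} (hw : IntegrableOn w (Ioi 0)) (j k : ℕ) :
    IntegrableOn (fun x => (Real.exp (-x) ^ j * (1 - Real.exp (-x)) ^ k) * w x) (Ioi 0) := by
  refine Integrable.bdd_mul (c := 1) hw ?_ ?_
  · exact (by fun_prop : Continuous fun x : ℝ =>
      (Real.exp (-x) ^ j * (1 - Real.exp (-x)) ^ k)).aestronglyMeasurable
  · refine (ae_restrict_iff' measurableSet_Ioi).2 (Eventually.of_forall fun x hx => ?_)
    have h0 : (0 : ℝ) < x := hx
    have h1 := Real.exp_pos (-x)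
    have h2 : Real.exp (-x) ≤ 1 := Real.exp_le_one_iff.2 (by linarith)
    rw [Real.norm_eq_abs, abs_of_nonneg (mul_nonneg (pow_nonneg h1.le _)
      (pow_nonneg (by linarith) _))]
    exact mul_le_one₀ (pow_le_one₀ h1.le h2) (pow_nonneg (by linarith) _)
      (pow_le_one₀ (by linarith) (by linarith))

theorem bern_nonpos_aux {w : ℝ → ℝ} (hw : IntegrableOn w (Ioi 0))
    (h : ∀ j k : ℕ, ∫ x in Ioi (0 : ℝ),
      (Real.exp (-x) ^ j * (1 - Real.exp (-x)) ^ k) * w x ≤ 0)
    (θ : C(unitInterval, ℝ)) (hθ : ∀ u, 0 ≤ θ u) :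
    ∫ x in Ioi (0 : ℝ), θ (bern_nonpos_U x) * w x ≤ 0 := by
  have hB : ∀ n : ℕ,
      ∫ x in Ioi (0 : ℝ), (bernsteinApproximation n θ) (bern_nonpos_U x) * w x ≤ 0 := by
    intro n
    have e : ∀ x ∈ Ioi (0 : ℝ), (bernsteinApproximation n θ) (bern_nonpos_U x) * w x
        = ∑ k : Fin (n + 1), ((n.choose k : ℝ) * θ (bernstein.z k)) *
          ((Real.exp (-x) ^ (k : ℕ) * (1 - Real.exp (-x)) ^ (n - (k : ℕ))) * w x) := by
      intro x hx
      rw [bernsteinApproximation.apply, Finset.sum_mul]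
      refine Finset.sum_congr rfl fun k _ => ?_
      rw [bernstein_apply, bern_nonpos_U_coe hx, smul_eq_mul]
      ring
    rw [setIntegral_congr_fun measurableSet_Ioi e, integral_finsetSum]
    · refine Finset.sum_nonpos fun k _ => ?_
      rw [integral_const_mul]
      exact mul_nonpos_of_nonneg_of_nonpos (mul_nonneg (Nat.cast_nonneg _) (hθ _)) (h _ _)
    · intro k _
      exact (bern_nonpos_int2 hw _ _).const_mul _
  have hlip : ∀ f : C(unitInterval, ℝ),
      ‖(∫ x in Ioi (0 : ℝ), f (bern_nonpos_U x) * w x) -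
        ∫ x in Ioi (0 : ℝ), θ (bern_nonpos_U x) * w x‖ ≤
      ‖f - θ‖ * ∫ x in Ioi (0 : ℝ), |w x| := by
    intro f
    rw [← integral_sub (bern_nonpos_int hw f) (bern_nonpos_int hw θ), ← integral_const_mul]
    refine norm_integral_le_of_norm_le (hw.abs.const_mul _) (Eventually.of_forall fun x => ?_)
    rw [← sub_mul, norm_mul, Real.norm_eq_abs (w x)]
    exact mul_le_mul_of_nonneg_right ((f - θ).norm_coe_le_norm _) (abs_nonneg _)
  have ht : Tendsto (fun n : ℕ => ∫ x in Ioi (0 : ℝ),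
      (bernsteinApproximation n θ) (bern_nonpos_U x) * w x) atTop
      (𝓝 (∫ x in Ioi (0 : ℝ), θ (bern_nonpos_U x) * w x)) := by
    rw [tendsto_iff_norm_sub_tendsto_zero]
    have h1 := tendsto_iff_norm_sub_tendsto_zero.1 (bernsteinApproximation_uniform θ)
    have h2 := h1.mul_const (∫ x in Ioi (0 : ℝ), |w x|)
    rw [zero_mul] at h2
    exact squeeze_zero (fun n => norm_nonneg _) (fun n => hlip _) h2
  exact le_of_tendsto' ht hB

/-- S1 -/
theorem bern_nonpos_proof {ψ : ℝ → ℝ} {S : ℕ} (hψ : ContinuousOn ψ (Ioi 0))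
    (hi : IntegrableOn (fun x => Real.exp (-(S * x)) * ψ x) (Ioi 0))
    (h : ∀ n m : ℕ, 1 ≤ n → S ≤ m →
      ∫ x in Ioi (0 : ℝ), Real.exp (-(m * x)) * (1 - Real.exp (-x)) ^ n * ψ x ≤ 0) :
    ∀ x, 0 < x → ψ x ≤ 0 := by
  have hw : IntegrableOn (fun x => (1 - Real.exp (-x)) * (Real.exp (-(S * x)) * ψ x))
      (Ioi 0) := by
    have h1 := bern_nonpos_int2 hi 0 1
    simpa only [pow_zero, pow_one, one_mul] using h1
  have hjk : ∀ j k : ℕ, ∫ x in Ioi (0 : ℝ),
      (Real.exp (-x) ^ j * (1 - Real.exp (-x)) ^ k) *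
        ((1 - Real.exp (-x)) * (Real.exp (-(S * x)) * ψ x)) ≤ 0 := by
    intro j k
    have h1 := h (k + 1) (S + j) (by omega) (by omega)
    refine le_of_eq_of_le ?_ h1
    refine setIntegral_congr_fun measurableSet_Ioi fun x _ => ?_
    have h2 : Real.exp (-(((S + j : ℕ) : ℝ) * x)) = Real.exp (-(S * x)) * Real.exp (-x) ^ j := by
      rw [← Real.exp_nat_mul, ← Real.exp_add]
      congr 1
      push_cast
      ring
    simp only [h2]
    ring
  intro x0 hx0
  by_contra hneg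
  push Not at hneg
  obtain ⟨u0, hu0⟩ : ∃ u0, u0 = Real.exp (-x0) := ⟨_, rfl⟩
  have hlog : -Real.log u0 = x0 := by rw [hu0, Real.log_exp, neg_neg]
  have hu0p : 0 < u0 := by rw [hu0]; exact Real.exp_pos _
  have hc : ContinuousAt (fun u => ψ (-Real.log u)) u0 := by
    have h1 : ContinuousAt ψ (-Real.log u0) := by
      rw [hlog]
      exact hψ.continuousAt (Ioi_mem_nhds hx0)
    exact ContinuousAt.comp (f := fun u => -Real.log u) h1
      (Real.continuousAt_log hu0p.ne').neg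
  have hev : ∀ᶠ u in 𝓝 u0, 0 < ψ (-Real.log u) := by
    have h1 : 0 < (fun u => ψ (-Real.log u)) u0 := by
      simp only [hlog]
      exact hneg
    exact hc.eventually (lt_mem_nhds h1)
  obtain ⟨r, hr, hrψ⟩ := Metric.eventually_nhds_iff.1 hev
  have hθc : Continuous fun u : unitInterval => max 0 (r - |(u : ℝ) - u0|) := by fun_prop
  have hmain := bern_nonpos_aux hw hjk ⟨fun u => max 0 (r - |(u : ℝ) - u0|), hθc⟩
    (fun u => le_max_left _ _)
  have hgi := bern_nonpos_int hw ⟨fun u => max 0 (r - |(u : ℝ) - u0|), hθc⟩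
  simp only [ContinuousMap.coe_mk] at hmain hgi
  have hψx : ∀ x, 0 < x → |Real.exp (-x) - u0| < r → 0 < ψ x := by
    intro x _ hx
    have h1 := hrψ (y := Real.exp (-x)) (by rw [Real.dist_eq]; exact hx)
    rwa [Real.log_exp, neg_neg] at h1
  have hw1 : ∀ x : ℝ, 0 < x → 0 < 1 - Real.exp (-x) := by
    intro x hx
    have : Real.exp (-x) < 1 := Real.exp_lt_one_iff.2 (by linarith)
    linarith
  have hpos : ∀ x, 0 < x → |Real.exp (-x) - u0| < r →
      0 < max 0 (r - |((bern_nonpos_U x : unitInterval) : ℝ) - u0|) *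
        ((1 - Real.exp (-x)) * (Real.exp (-(S * x)) * ψ x)) := by
    intro x hx hx2
    rw [bern_nonpos_U_coe hx]
    refine mul_pos ?_ (mul_pos (hw1 x hx) (mul_pos (Real.exp_pos _) (hψx x hx hx2)))
    exact lt_max_of_lt_right (by linarith)
  have hnn : ∀ x, 0 < x →
      0 ≤ max 0 (r - |((bern_nonpos_U x : unitInterval) : ℝ) - u0|) *
        ((1 - Real.exp (-x)) * (Real.exp (-(S * x)) * ψ x)) := by
    intro x hx
    by_cases hx2 : |Real.exp (-x) - u0| < r
    · exact (hpos x hx hx2).le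
    · rw [bern_nonpos_U_coe hx, max_eq_left (by linarith), zero_mul]
  have hsup := (setIntegral_pos_iff_support_of_nonneg_ae
    ((ae_restrict_iff' measurableSet_Ioi).2 (Eventually.of_forall fun x hx => hnn x hx)) hgi).2
  have hopen : IsOpen {x : ℝ | 0 < x ∧ |Real.exp (-x) - u0| < r} :=
    (isOpen_lt continuous_const continuous_id).inter
      (isOpen_lt (by fun_prop : Continuous fun x : ℝ => |Real.exp (-x) - u0|) continuous_const)
  have hmem : x0 ∈ {x : ℝ | 0 < x ∧ |Real.exp (-x) - u0| < r} := by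
    refine ⟨hx0, ?_⟩
    rw [hu0, sub_self, abs_zero]
    exact hr
  have hvol := hopen.measure_pos volume ⟨x0, hmem⟩
  refine absurd (hsup (lt_of_lt_of_le hvol (measure_mono ?_))) (not_lt.2 hmain)
  rintro x ⟨h1, h2⟩
  exact ⟨(hpos x h1 h2).ne', h1⟩

end Pool.Agent.H967.GGC
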