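import Pool.Agent.H967.GGC.Basic2

set_option autoImplicit false

/-!
# Leaf S2: necessity, differences of `s R(s)`
-/

namespace Pool.Agent.H967.GGC
open MeasureTheory Filter Topology Set

/-- the second factor is carried by the nonnegative numbers -/
theorem S2_supp (P Q : Measure ℝ) [IsProbabilityMeasure P] [IsProbabilityMeasure Q] (hP : P (Iio 0) = 0)
    (hs : ∀ δ : ℝ, 0 < δ → 0 < P (Iio δ)) {κ : ℝ} (hκ : 0 < κ)
    (h : P = Measure.conv (P.map (fun x => κ * x)) Q) : Q (Iio 0) = 0 := by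
  have hm : Measurable (fun x : ℝ => κ * x) := by fun_prop
  have h1 : ∀ d : ℝ, 0 < d → Q (Iio (-d)) = 0 := by
    intro d hd
    have h2 : (P.map (fun x => κ * x)) (Iio d) * Q (Iio (-d)) ≤ P (Iio 0) := by
      conv_rhs => rw [h]
      generalize P.map (fun x => κ * x) = μ1
      unfold Measure.conv
      rw [Measure.map_apply (by fun_prop) measurableSet_Iio, ← Measure.prod_prod]
      apply measure_mono
      rintro ⟨x, y⟩ ⟨hx, hy⟩
      simp only [mem_Iio, mem_preimage] at hx hy ⊢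
      linarith
    rw [hP] at h2
    have h3 : (P.map (fun x => κ * x)) (Iio d) ≠ 0 := by
      rw [Measure.map_apply hm measurableSet_Iio]
      have h4 : (fun x : ℝ => κ * x) ⁻¹' Iio d = Iio (d / κ) := by
        ext x
        simp only [mem_preimage, mem_Iio]
        rw [lt_div_iff₀' hκ]
      rw [h4]
      exact (hs _ (by positivity)).ne'
    have h5 := nonpos_iff_eq_zero.1 h2
    rcases mul_eq_zero.1 h5 with h6 | h6
    · exact absurd h6 h3
    · exact h6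
  have h7 : Iio (0 : ℝ) = ⋃ n : ℕ, Iio (-(1 / ((n : ℝ) + 1))) := by
    ext x
    simp only [mem_Iio, mem_iUnion]
    constructor
    · intro hx
      obtain ⟨n, hn⟩ := exists_nat_one_div_lt (neg_pos.2 hx)
      exact ⟨n, by linarith⟩
    · rintro ⟨n, hn⟩
      have : (0 : ℝ) < 1 / ((n : ℝ) + 1) := by positivity
      linarith
  rw [h7, measure_iUnion_null_iff]
  intro n
  exact h1 _ (by positivity)

theorem S2_L (P Q : Measure ℝ) [IsProbabilityMeasure P] [IsProbabilityMeasure Q] {κ : ℝ} (s : ℝ)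
    (h : P = Measure.conv (P.map (fun x => κ * x)) Q) :
    ∫ x, Real.exp (-(s * x)) ∂P =
      (∫ x, Real.exp (-(κ * s * x)) ∂P) * ∫ x, Real.exp (-(s * x)) ∂Q := by
  have hm : Measurable (fun x : ℝ => κ * x) := by fun_prop
  have hpm : IsProbabilityMeasure (P.map (fun x => κ * x)) := Measure.isProbabilityMeasure_map hm.aemeasurable
  conv_lhs => rw [h]
  unfold Measure.conv
  rw [integral_map (by fun_prop) (by fun_prop)]
  have e1 : ∀ z : ℝ × ℝ, Real.exp (-(s * (z.1 + z.2))) =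
      (fun x => Real.exp (-(s * x))) z.1 * (fun x => Real.exp (-(s * x))) z.2 := by
    intro z
    simp only
    rw [← Real.exp_add]
    congr 1
    ring
  rw [integral_congr_ae (Eventually.of_forall e1), integral_prod_mul (fun x : ℝ => Real.exp (-(s * x))) (fun x : ℝ => Real.exp (-(s * x))),
    integral_map hm.aemeasurable (by fun_prop)]
  congr 1
  refine integral_congr_ae (Eventually.of_forall fun x => ?_)
  simp only
  congr 1
  ring

theorem S2_int (P : Measure ℝ) [IsProbabilityMeasure P] (hP : P (Iio 0) = 0) {s : ℝ} (hs : 0 ≤ s) :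
    Integrable (fun x => Real.exp (-(s * x))) P := by
  refine Integrable.of_bound (by fun_prop) 1 ?_
  have h1 : ∀ᵐ x ∂P, 0 ≤ x := by
    rw [ae_iff]
    have e : {x : ℝ | ¬ 0 ≤ x} = Iio 0 := by
      ext x
      simp
    rw [e, hP]
  filter_upwards [h1] with x hx
  rw [Real.norm_eq_abs, Real.abs_exp]
  exact Real.exp_le_one_iff.2 (by nlinarith)

theorem S2_alt (n : ℕ) (u : ℝ) :
    (1 - u) ^ n = ∑ j ∈ Finset.range (n + 1), (-1 : ℝ) ^ j * (n.choose j : ℝ) * u ^ j := by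
  have h := add_pow (-u) 1 n
  rw [show 1 - u = -u + 1 by ring, h]
  refine Finset.sum_congr rfl fun j _ => ?_
  rw [one_pow, mul_one, neg_pow u]
  ring

theorem S2_Q (Q : Measure ℝ) [IsProbabilityMeasure Q] (hQ : Q (Iio 0) = 0) (n m : ℕ) (hn : 1 ≤ n) :
    ∑ j ∈ Finset.range (n + 1), (-1 : ℝ) ^ j * (n.choose j : ℝ) *
      (1 - ∫ x, Real.exp (-(((m : ℝ) + j) * x)) ∂Q) ≤ 0 := by
  have h0 : ∑ j ∈ Finset.range (n + 1), (-1 : ℝ) ^ j * (n.choose j : ℝ) = 0 := by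
    have := S2_alt n 1
    rw [sub_self, zero_pow (by omega)] at this
    simpa using this.symm
  have h1 : ∑ j ∈ Finset.range (n + 1), (-1 : ℝ) ^ j * (n.choose j : ℝ) *
      ∫ x, Real.exp (-(((m : ℝ) + j) * x)) ∂Q =
      ∫ x, Real.exp (-(m * x)) * (1 - Real.exp (-x)) ^ n ∂Q := by
    have h2 : ∀ x : ℝ, Real.exp (-(m * x)) * (1 - Real.exp (-x)) ^ n =
        ∑ j ∈ Finset.range (n + 1), (-1 : ℝ) ^ j * (n.choose j : ℝ) * Real.exp (-(((m : ℝ) + j) * x)) := by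
      intro x
      rw [S2_alt, Finset.mul_sum]
      refine Finset.sum_congr rfl fun j _ => ?_
      rw [← Real.exp_nat_mul]
      have : Real.exp (-(((m : ℝ) + j) * x)) = Real.exp (-(m * x)) * Real.exp (j * -x) := by
        rw [← Real.exp_add]
        congr 1
        ring
      rw [this]
      ring
    simp_rw [h2]
    rw [integral_finsetSum]
    · refine Finset.sum_congr rfl fun j _ => ?_
      rw [integral_const_mul]
    · intro j _
      exact (S2_int Q hQ (by positivity)).const_mul _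
  have h3 : 0 ≤ ∫ x, Real.exp (-(m * x)) * (1 - Real.exp (-x)) ^ n ∂Q := by
    apply integral_nonneg_of_ae
    have h1 : ∀ᵐ x ∂Q, 0 ≤ x := by
      rw [ae_iff]
      have e : {x : ℝ | ¬ 0 ≤ x} = Iio 0 := by
        ext x
        simp
      rw [e, hQ]
    filter_upwards [h1] with x hx
    have : Real.exp (-x) ≤ 1 := Real.exp_le_one_iff.2 (by linarith)
    have h5 : 0 ≤ 1 - Real.exp (-x) := by linarith
    exact mul_nonneg (Real.exp_pos _).le (pow_nonneg h5 _)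
  have h4 : ∑ j ∈ Finset.range (n + 1), (-1 : ℝ) ^ j * (n.choose j : ℝ) *
      (1 - ∫ x, Real.exp (-(((m : ℝ) + j) * x)) ∂Q) =
      ∑ j ∈ Finset.range (n + 1), (-1 : ℝ) ^ j * (n.choose j : ℝ) -
      ∑ j ∈ Finset.range (n + 1), (-1 : ℝ) ^ j * (n.choose j : ℝ) *
        ∫ x, Real.exp (-(((m : ℝ) + j) * x)) ∂Q := by
    rw [← Finset.sum_sub_distrib]
    exact Finset.sum_congr rfl fun j _ => by ring
  rw [h4, h0, h1]
  linarith

theorem S2_lim {L : ℝ → ℝ} {s r : ℝ} (hs : L s ≠ 0) (hd : HasDerivAt L (-(r * L s)) s) :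
    Tendsto (fun κ : ℝ => (1 - L s / L (κ * s)) / (1 - κ)) (𝓝[<] 1) (𝓝 (s * r)) := by
  have h1 : HasDerivAt (fun κ : ℝ => L (κ * s)) (-(r * L s) * s) 1 := by
    have h2 : HasDerivAt (fun κ : ℝ => κ * s) s 1 := by
      simpa using (hasDerivAt_id (1 : ℝ)).mul_const s
    have h3 : HasDerivAt L (-(r * L s)) ((fun κ : ℝ => κ * s) 1) := by
      simpa using hd
    exact h3.comp 1 h2
  have h4 : Tendsto (slope (fun κ : ℝ => L (κ * s)) 1) (𝓝[<] 1) (𝓝 (-(r * L s) * s)) :=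
    (hasDerivAt_iff_tendsto_slope.1 h1).mono_left (nhdsWithin_mono _ fun x hx => ne_of_lt hx)
  have h5 : Tendsto (fun κ : ℝ => L (κ * s)) (𝓝[<] 1) (𝓝 (L s)) := by
    have h6 : Tendsto (fun κ : ℝ => L (κ * s)) (𝓝 1) (𝓝 (L (1 * s))) := h1.continuousAt
    rw [one_mul] at h6
    exact h6.mono_left nhdsWithin_le_nhds
  have h7 := (h4.neg).div h5 hs
  have h8 : -(-(r * L s) * s) / L s = s * r := by
    field_simp
  rw [h8] at h7
  refine h7.congr' ?_
  have h9 : ∀ᶠ κ in 𝓝[<] (1 : ℝ), L (κ * s) ≠ 0 := h5.eventually_ne hs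
  filter_upwards [h9, self_mem_nhdsWithin] with κ hκ hκ1
  have hκ2 : κ - 1 ≠ 0 := sub_ne_zero.2 (ne_of_lt hκ1)
  have hκ3 : 1 - κ ≠ 0 := sub_ne_zero.2 (ne_of_gt hκ1)
  rw [Pi.div_apply, slope_def_field]
  simp only [one_mul]
  field_simp
  ring

theorem sd_diff_proof (P : Measure ℝ) [IsProbabilityMeasure P] (hP : P (Iio 0) = 0)
    (hs : ∀ δ : ℝ, 0 < δ → 0 < P (Iio δ)) (R : ℝ → ℝ)
    (hR : ∀ s : ℝ, 0 < s → HasDerivAt (fun s : ℝ => ∫ x, Real.exp (-(s * x)) ∂P)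
      (-(R s * ∫ x, Real.exp (-(s * x)) ∂P)) s) (hSD : IsSD P) :
    ∀ n m : ℕ, 1 ≤ n → 1 ≤ m →
      ∑ j ∈ Finset.range (n + 1), (-1 : ℝ) ^ j * (n.choose j : ℝ) *
        (((m : ℝ) + j) * R ((m : ℝ) + j)) ≤ 0 := by
  intro n m hn hm
  obtain ⟨L, hL⟩ : ∃ L : ℝ → ℝ, L = fun s : ℝ => ∫ x, Real.exp (-(s * x)) ∂P := ⟨_, rfl⟩
  have hLe : ∀ s, ∫ x, Real.exp (-(s * x)) ∂P = L s := fun s => by rw [hL]
  have hm1 : (1 : ℝ) ≤ m := by exact_mod_cast hm
  have hpos : ∀ s : ℝ, 0 ≤ s → 0 < L s := by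
    intro s hs
    rw [← hLe]
    exact integral_exp_pos (S2_int P hP hs)
  have hlim : Tendsto (fun κ : ℝ => ∑ j ∈ Finset.range (n + 1), (-1 : ℝ) ^ j * (n.choose j : ℝ) *
      ((1 - L ((m : ℝ) + j) / L (κ * ((m : ℝ) + j))) / (1 - κ))) (𝓝[<] 1)
      (𝓝 (∑ j ∈ Finset.range (n + 1), (-1 : ℝ) ^ j * (n.choose j : ℝ) *
        (((m : ℝ) + j) * R ((m : ℝ) + j)))) := by
    refine tendsto_finsetSum _ fun j _ => Tendsto.const_mul _ ?_
    have hj : (0 : ℝ) < (m : ℝ) + j := by positivity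
    refine S2_lim (hpos _ hj.le).ne' ?_
    have h1 := hR _ hj
    rw [hLe, ← hL] at h1
    exact h1
  refine le_of_tendsto hlim ?_
  have hev : ∀ᶠ κ in 𝓝[<] (1 : ℝ), 0 < κ := by
    have : ∀ᶠ κ in 𝓝 (1 : ℝ), 0 < κ := lt_mem_nhds one_pos
    exact this.filter_mono nhdsWithin_le_nhds
  filter_upwards [hev, self_mem_nhdsWithin] with κ hκ0 hκ1
  have hκ1' : κ < 1 := hκ1
  obtain ⟨Q, hQp, hQ⟩ := hSD κ hκ0 hκ1'
  have hQ0 := S2_supp P Q hP hs hκ0 hQ
  have h1 := S2_Q Q hQ0 n m hn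
  have h2 : ∀ s : ℝ, 0 ≤ s → ∫ x, Real.exp (-(s * x)) ∂Q = L s / L (κ * s) := by
    intro s hs0
    have h3 := S2_L P Q s hQ
    rw [hLe, hLe] at h3
    rw [h3, mul_div_cancel_left₀ _ (hpos _ (by positivity)).ne']
  have h4 : ∑ j ∈ Finset.range (n + 1), (-1 : ℝ) ^ j * (n.choose j : ℝ) *
      ((1 - L ((m : ℝ) + j) / L (κ * ((m : ℝ) + j))) / (1 - κ)) =
      (∑ j ∈ Finset.range (n + 1), (-1 : ℝ) ^ j * (n.choose j : ℝ) *
      (1 - ∫ x, Real.exp (-(((m : ℝ) + j) * x)) ∂Q)) / (1 - κ) := by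
    rw [Finset.sum_div]
    refine Finset.sum_congr rfl fun j _ => ?_
    rw [h2 _ (by positivity)]
    ring
  rw [h4]
  exact div_nonpos_of_nonpos_of_nonneg h1 (by linarith)

end Pool.Agent.H967.GGC
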