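import Pool.Agent.H967.GGC.Basic2

set_option autoImplicit false

/-! Subtask 17059 (SD-U1, helper967): uniqueness of Laplace transforms of finite measures on the
half line. -/

namespace Pool.Agent.H967.GGC
open MeasureTheory Filter Topology Set BoundedContinuousFunction
open scoped NNReal

/-- the algebra of the polynomials in `exp (-x)` -/
noncomputable def U1_alg : StarSubalgebra ℝ (ℝ≥0 →ᵇ ℝ) where
  carrier := {g | ∃ p : Polynomial ℝ, ∀ x : ℝ≥0, g x = p.eval (Real.exp (-(x : ℝ)))}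
  mul_mem' := by
    rintro a b ⟨p, hp⟩ ⟨q, hq⟩
    refine ⟨p * q, fun x => ?_⟩
    rw [Polynomial.eval_mul, ← hp x, ← hq x]
    rfl
  add_mem' := by
    rintro a b ⟨p, hp⟩ ⟨q, hq⟩
    refine ⟨p + q, fun x => ?_⟩
    rw [Polynomial.eval_add, ← hp x, ← hq x]
    rfl
  algebraMap_mem' := by
    intro r
    refine ⟨Polynomial.C r, fun x => ?_⟩
    rw [Polynomial.eval_C]
    rfl
  star_mem' := by
    rintro a ⟨p, hp⟩
    refine ⟨p, fun x => ?_⟩
    rw [← hp x]
    rfl

/-- the function `exp (-x)` -/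
noncomputable def U1_f : ℝ≥0 →ᵇ ℝ :=
  BoundedContinuousFunction.ofNormedAddCommGroup (fun x : ℝ≥0 => Real.exp (-(x : ℝ)))
    (by fun_prop) 1 (by
      intro x
      rw [Real.norm_eq_abs, Real.abs_exp]
      exact Real.exp_le_one_iff.mpr (by simp))

theorem U1_f_mem : U1_f ∈ U1_alg := by
  refine ⟨Polynomial.X, fun x => ?_⟩
  rw [Polynomial.eval_X]
  rfl

theorem U1_sep : (U1_alg.map (toContinuousMapStarₐ ℝ)).SeparatesPoints := by
  intro x y hxy
  refine ⟨fun x => Real.exp (-(x : ℝ)), ⟨toContinuousMapStarₐ ℝ U1_f, ?_, rfl⟩, ?_⟩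
  · exact ⟨U1_f, U1_f_mem, rfl⟩
  · intro h
    apply hxy
    have := Real.exp_injective h
    exact NNReal.coe_injective (by simpa using this)

theorem U1_ae (P : Measure ℝ) (hP : P (Iio 0) = 0) : ∀ᵐ x ∂P, ((Real.toNNReal x : ℝ≥0) : ℝ) = x := by
  rw [ae_iff]
  refine measure_mono_null ?_ hP
  intro x hx
  rw [Set.mem_Iio]
  by_contra h
  push Not at h
  exact hx (Real.coe_toNNReal x h)

theorem U1_int (P : Measure ℝ) [IsFiniteMeasure P] (hP : P (Iio 0) = 0) (p : Polynomial ℝ)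
    (g : ℝ≥0 →ᵇ ℝ) (hg : ∀ x : ℝ≥0, g x = p.eval (Real.exp (-(x : ℝ)))) :
    ∫ x, g x ∂(P.map Real.toNNReal) =
      ∑ i ∈ Finset.range (p.natDegree + 1), p.coeff i * ∫ x, Real.exp (-((i : ℝ) * x)) ∂P := by
  rw [integral_map (by fun_prop) (g.continuous.aestronglyMeasurable)]
  have h1 : ∫ x, g (Real.toNNReal x) ∂P =
      ∫ x, ∑ i ∈ Finset.range (p.natDegree + 1), p.coeff i * Real.exp (-((i : ℝ) * x)) ∂P := by
    apply integral_congr_ae
    filter_upwards [U1_ae P hP] with x hx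
    rw [hg, hx, Polynomial.eval_eq_sum_range]
    refine Finset.sum_congr rfl fun i _ => ?_
    rw [← Real.exp_nat_mul]
    congr 2
    ring
  have h2 : ∀ i ∈ Finset.range (p.natDegree + 1),
      Integrable (fun x => p.coeff i * Real.exp (-((i : ℝ) * x))) P := by
    intro i _
    apply Integrable.const_mul
    refine Integrable.of_bound (C := 1) (by fun_prop) ?_
    filter_upwards [U1_ae P hP] with x hx
    rw [Real.norm_eq_abs, Real.abs_exp]
    have hx0 : 0 ≤ x := by
      rw [← hx]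
      exact NNReal.coe_nonneg _
    exact Real.exp_le_one_iff.mpr (by
      have : 0 ≤ (i : ℝ) * x := by positivity
      linarith)
  rw [h1, integral_finsetSum _ h2]
  refine Finset.sum_congr rfl fun i _ => ?_
  rw [integral_const_mul]

theorem U1_map (P : Measure ℝ) (hP : P (Iio 0) = 0) :
    (P.map Real.toNNReal).map (fun x : ℝ≥0 => (x : ℝ)) = P := by
  rw [Measure.map_map (by fun_prop) (by fun_prop)]
  have : P.map ((fun x : ℝ≥0 => (x : ℝ)) ∘ Real.toNNReal) = P.map id :=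
    Measure.map_congr (U1_ae P hP)
  rw [this, Measure.map_id]

/-- U1 -/
theorem laplace_unique_proof (P Q : Measure ℝ) [IsFiniteMeasure P] [IsFiniteMeasure Q]
    (hP : P (Iio 0) = 0) (hQ : Q (Iio 0) = 0)
    (h : ∀ s : ℝ, 0 ≤ s → ∫ x, Real.exp (-(s * x)) ∂P = ∫ x, Real.exp (-(s * x)) ∂Q) :
    P = Q := by
  have h1 : P.map Real.toNNReal = Q.map Real.toNNReal := by
    apply ext_of_forall_mem_subalgebra_integral_eq_of_polish U1_sep
    rintro g ⟨p, hp⟩
    have e1 := U1_int P hP p g hp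
    have e2 := U1_int Q hQ p g hp
    have e3 : ∀ i : ℕ, ∫ x, Real.exp (-((i : ℝ) * x)) ∂P = ∫ x, Real.exp (-((i : ℝ) * x)) ∂Q :=
      fun i => h i (Nat.cast_nonneg i)
    simp only [e3] at e1
    exact e1.trans e2.symm
  rw [← U1_map P hP, ← U1_map Q hQ, h1]

end Pool.Agent.H967.GGC
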