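import Pool.Agent.H967.GGC.Basic2

set_option autoImplicit false

/-!
# Compound Poisson laws
-/

namespace Pool.Agent.H967.GGC
open MeasureTheory Filter Topology Set

/-- convolution powers -/
noncomputable def compound_poisson_pow (μ : Measure ℝ) : ℕ → Measure ℝ
  | 0 => Measure.dirac 0
  | n + 1 => Measure.conv (compound_poisson_pow μ n) μ

theorem compound_poisson_pow_finite (μ : Measure ℝ) [IsFiniteMeasure μ] (n : ℕ) :
    IsFiniteMeasure (compound_poisson_pow μ n) := by
  induction n with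
  | zero =>
    show IsFiniteMeasure (Measure.dirac (0 : ℝ))
    infer_instance
  | succ n ih =>
    show IsFiniteMeasure (Measure.conv (compound_poisson_pow μ n) μ)
    infer_instance

theorem compound_poisson_pow_laplace (μ : Measure ℝ) [IsFiniteMeasure μ] (s : ℝ) (n : ℕ) :
    ∫⁻ x, ENNReal.ofReal (Real.exp (-(s * x))) ∂(compound_poisson_pow μ n) =
      (∫⁻ x, ENNReal.ofReal (Real.exp (-(s * x))) ∂μ) ^ n := by
  have hmeas : Measurable (fun x : ℝ => ENNReal.ofReal (Real.exp (-(s * x)))) := by fun_prop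
  induction n with
  | zero =>
    show ∫⁻ x, ENNReal.ofReal (Real.exp (-(s * x))) ∂(Measure.dirac (0 : ℝ)) = _
    rw [lintegral_dirac' _ hmeas]
    simp
  | succ n ih =>
    have hfin := compound_poisson_pow_finite μ n
    show ∫⁻ x, ENNReal.ofReal (Real.exp (-(s * x))) ∂(Measure.conv (compound_poisson_pow μ n) μ) = _
    rw [Measure.lintegral_conv hmeas, pow_succ, ← ih]
    have h1 : ∀ x y : ℝ, ENNReal.ofReal (Real.exp (-(s * (x + y)))) =
        ENNReal.ofReal (Real.exp (-(s * x))) * ENNReal.ofReal (Real.exp (-(s * y))) := by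
      intro x y
      rw [← ENNReal.ofReal_mul (Real.exp_pos _).le, ← Real.exp_add]
      congr 2
      ring
    simp_rw [h1]
    have h2 : ∀ x : ℝ, ∫⁻ y, ENNReal.ofReal (Real.exp (-(s * x))) *
        ENNReal.ofReal (Real.exp (-(s * y))) ∂μ = ENNReal.ofReal (Real.exp (-(s * x))) *
          ∫⁻ y, ENNReal.ofReal (Real.exp (-(s * y))) ∂μ := by
      intro x
      rw [lintegral_const_mul _ hmeas]
    simp_rw [h2]
    rw [lintegral_mul_const _ hmeas]

theorem compound_poisson_pow_neg (μ : Measure ℝ) [IsFiniteMeasure μ] (hμ : μ (Iio 0) = 0)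
    (n : ℕ) : compound_poisson_pow μ n (Iio 0) = 0 := by
  induction n with
  | zero =>
    show Measure.dirac (0 : ℝ) (Iio 0) = 0
    rw [Measure.dirac_apply' _ measurableSet_Iio]
    simp
  | succ n ih =>
    have hfin := compound_poisson_pow_finite μ n
    show Measure.conv (compound_poisson_pow μ n) μ (Iio 0) = 0
    have hmeas : Measurable ((Iio (0 : ℝ)).indicator (fun _ => (1 : ENNReal))) :=
      measurable_const.indicator measurableSet_Iio
    have h0 : Measure.conv (compound_poisson_pow μ n) μ (Iio 0) =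
        ∫⁻ z, (Iio (0 : ℝ)).indicator (fun _ => (1 : ENNReal)) z
          ∂(Measure.conv (compound_poisson_pow μ n) μ) := by
      rw [lintegral_indicator measurableSet_Iio]
      simp
    rw [h0, Measure.lintegral_conv hmeas]
    have h1 : ∀ᵐ x ∂(compound_poisson_pow μ n), 0 ≤ x := by
      rw [ae_iff]
      simp only [not_le]
      exact ih
    have h2 : ∀ᵐ x ∂μ, 0 ≤ x := by
      rw [ae_iff]
      simp only [not_le]
      exact hμ
    have h3 : ∀ᵐ x ∂(compound_poisson_pow μ n),
        ∫⁻ y, (Iio (0 : ℝ)).indicator (fun _ => (1 : ENNReal)) (x + y) ∂μ = 0 := by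
      filter_upwards [h1] with x hx
      have h4 : ∀ᵐ y ∂μ, (Iio (0 : ℝ)).indicator (fun _ => (1 : ENNReal)) (x + y) = 0 := by
        filter_upwards [h2] with y hy
        rw [indicator_of_notMem]
        rw [mem_Iio, not_lt]
        exact add_nonneg hx hy
      rw [lintegral_congr_ae h4]
      simp
    rw [lintegral_congr_ae h3]
    simp

/-- U2: compound Poisson laws -/
theorem compound_poisson_proof (h : ℝ → ℝ) (hh : ∀ x, 0 < x → 0 ≤ h x)
    (hi : IntegrableOn h (Ioi 0)) :
    ∃ Q : Measure ℝ, IsProbabilityMeasure Q ∧ Q (Iio 0) = 0 ∧ ∀ s : ℝ, 0 ≤ s →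
      ∫ x, Real.exp (-(s * x)) ∂Q =
        Real.exp (-∫ x in Ioi (0 : ℝ), (1 - Real.exp (-(s * x))) * h x) := by
  have hnn : 0 ≤ᵐ[volume.restrict (Ioi (0 : ℝ))] h := by
    filter_upwards [ae_restrict_mem measurableSet_Ioi] with x hx
    exact hh x hx
  obtain ⟨μ, hμ⟩ : ∃ μ : Measure ℝ, μ = (volume.restrict (Ioi (0 : ℝ))).withDensity
      (fun x => ENNReal.ofReal (h x)) := ⟨_, rfl⟩
  have hae : AEMeasurable (fun x => ENNReal.ofReal (h x)) (volume.restrict (Ioi (0 : ℝ))) :=
    hi.aestronglyMeasurable.aemeasurable.ennreal_ofReal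
  have hfin : IsFiniteMeasure μ := by
    rw [hμ]
    refine isFiniteMeasure_withDensity ?_
    rw [← ofReal_integral_eq_lintegral_ofReal hi hnn]
    exact ENNReal.ofReal_ne_top
  have hneg : μ (Iio 0) = 0 := by
    rw [hμ]
    refine withDensity_absolutelyContinuous _ _ ?_
    rw [Measure.restrict_apply measurableSet_Iio]
    have : Iio (0 : ℝ) ∩ Ioi 0 = ∅ := by
      ext x
      simp only [mem_inter_iff, mem_Iio, mem_Ioi, mem_empty_iff_false, iff_false, not_and, not_lt]
      exact fun h => h.le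
    rw [this, measure_empty]
  -- the Laplace transform of `μ`
  have hint : ∀ s : ℝ, 0 ≤ s → IntegrableOn (fun x => Real.exp (-(s * x)) * h x) (Ioi 0) := by
    intro s hs
    refine Integrable.mono' hi ?_ ?_
    · exact (Measurable.aestronglyMeasurable (by fun_prop)).mul hi.aestronglyMeasurable
    · filter_upwards [ae_restrict_mem measurableSet_Ioi] with x hx
      have hx' : 0 < x := hx
      have h1 : Real.exp (-(s * x)) ≤ 1 := Real.exp_le_one_iff.2 (by
        have := mul_nonneg hs hx'.le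
        linarith)
      have h2 := hh x hx
      rw [Real.norm_eq_abs, abs_of_nonneg (mul_nonneg (Real.exp_pos _).le h2)]
      calc Real.exp (-(s * x)) * h x ≤ 1 * h x := mul_le_mul_of_nonneg_right h1 h2
        _ = h x := one_mul _
  have hLμ : ∀ s : ℝ, 0 ≤ s → ∫⁻ x, ENNReal.ofReal (Real.exp (-(s * x))) ∂μ =
      ENNReal.ofReal (∫ x in Ioi (0 : ℝ), Real.exp (-(s * x)) * h x) := by
    intro s hs
    rw [hμ, lintegral_withDensity_eq_lintegral_mul₀ hae (by fun_prop),
      ofReal_integral_eq_lintegral_ofReal (hint s hs) ?_]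
    · refine lintegral_congr_ae ?_
      filter_upwards [hnn] with x hx
      rw [Pi.mul_apply, mul_comm, ENNReal.ofReal_mul (Real.exp_pos _).le]
    · filter_upwards [hnn] with x hx
      exact mul_nonneg (Real.exp_pos _).le hx
  have hL0 : ∀ s : ℝ, 0 ≤ ∫ x in Ioi (0 : ℝ), Real.exp (-(s * x)) * h x := by
    intro s
    refine integral_nonneg_of_ae ?_
    filter_upwards [hnn] with x hx
    exact mul_nonneg (Real.exp_pos _).le hx
  obtain ⟨Λ, hΛ⟩ : ∃ Λ : ℝ, Λ = ∫ x in Ioi (0 : ℝ), h x := ⟨_, rfl⟩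
  obtain ⟨Q, hQ⟩ : ∃ Q : Measure ℝ, Q = Measure.sum (fun n : ℕ =>
      ENNReal.ofReal (Real.exp (-Λ) / (n.factorial : ℝ)) • compound_poisson_pow μ n) := ⟨_, rfl⟩
  have hQL : ∀ s : ℝ, 0 ≤ s → ∫⁻ x, ENNReal.ofReal (Real.exp (-(s * x))) ∂Q =
      ENNReal.ofReal (Real.exp (-Λ + ∫ x in Ioi (0 : ℝ), Real.exp (-(s * x)) * h x)) := by
    intro s hs
    rw [hQ, lintegral_sum_measure]
    obtain ⟨L, hL⟩ : ∃ L : ℝ, L = ∫ x in Ioi (0 : ℝ), Real.exp (-(s * x)) * h x := ⟨_, rfl⟩
    have hLn : 0 ≤ L := by rw [hL]; exact hL0 s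
    have h1 : ∀ n : ℕ, ∫⁻ x, ENNReal.ofReal (Real.exp (-(s * x)))
        ∂(ENNReal.ofReal (Real.exp (-Λ) / (n.factorial : ℝ)) • compound_poisson_pow μ n) =
        ENNReal.ofReal (Real.exp (-Λ) * (L ^ n / (n.factorial : ℝ))) := by
      intro n
      rw [lintegral_smul_measure, compound_poisson_pow_laplace, hLμ s hs, ← hL,
        ← ENNReal.ofReal_pow hLn, smul_eq_mul, ← ENNReal.ofReal_mul (by positivity)]
      congr 1
      ring
    simp_rw [h1]
    rw [← hL]
    have h2 : HasSum (fun n : ℕ => Real.exp (-Λ) * (L ^ n / (n.factorial : ℝ)))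
        (Real.exp (-Λ) * Real.exp L) := by
      refine HasSum.mul_left _ ?_
      rw [Real.exp_eq_exp_ℝ]
      exact NormedSpace.expSeries_div_hasSum_exp L
    rw [← ENNReal.ofReal_tsum_of_nonneg (fun n => by positivity) h2.summable, h2.tsum_eq,
      Real.exp_add]
  have hprob : IsProbabilityMeasure Q := by
    refine ⟨?_⟩
    have h1 := hQL 0 le_rfl
    simp only [zero_mul, neg_zero, Real.exp_zero, ENNReal.ofReal_one, lintegral_const, one_mul]
      at h1
    rw [h1, ← hΛ]
    simp
  refine ⟨Q, hprob, ?_, ?_⟩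
  · rw [hQ, Measure.sum_apply _ measurableSet_Iio]
    rw [ENNReal.tsum_eq_zero]
    intro n
    rw [Measure.smul_apply, compound_poisson_pow_neg μ hneg n, smul_zero]
  · intro s hs
    rw [integral_eq_lintegral_of_nonneg_ae (Eventually.of_forall fun x => (Real.exp_pos _).le)
      (Measurable.aestronglyMeasurable (by fun_prop)), hQL s hs,
      ENNReal.toReal_ofReal (Real.exp_pos _).le]
    congr 1
    have h1 : ∫ x in Ioi (0 : ℝ), (1 - Real.exp (-(s * x))) * h x =
        (∫ x in Ioi (0 : ℝ), h x) - ∫ x in Ioi (0 : ℝ), Real.exp (-(s * x)) * h x := by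
      rw [← integral_sub hi (hint s hs)]
      refine integral_congr_ae (Eventually.of_forall fun x => ?_)
      show (1 - Real.exp (-(s * x))) * h x = h x - Real.exp (-(s * x)) * h x
      ring
    rw [h1, hΛ]
    ring

end Pool.Agent.H967.GGC
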