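import Pool.Agent.H967.GGC.Al2
import Pool.Agent.H967.GGC.TK1
import Pool.Agent.H967.GGC.TU1
import Pool.Agent.H967.GGC.TU2
import Pool.Agent.H967.GGC.TC3
import Pool.Agent.H967.GGC.TC4
import Pool.Agent.H967.GGC.TS1
import Pool.Agent.H967.GGC.TS2
import Pool.Agent.H967.GGC.TG2
import Pool.Agent.H967.GGC.TG3

set_option autoImplicit false

namespace Pool.Agent.H967.GGC

alias kap_bound := kap_bound_proof
alias laplace_unique := laplace_unique_proof
alias compound_poisson := compound_poisson_proof
alias k_nonneg := k_nonneg_proof
alias exponent_of_conv := exponent_of_conv_proof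
alias bern_nonpos := bern_nonpos_proof
alias sd_diff := sd_diff_proof
alias KK_two := KK_two_proof
alias threshold := threshold_proof

end Pool.Agent.H967.GGC
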