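import Pool.Agent.H967.GGC.Bl1

set_option autoImplicit false

/-!
# Leaf C1 (SD project, helper967; by helper658)
-/

namespace Pool.Agent.H967.GGC
open MeasureTheory Filter Topology Set

theorem xf_integrable_bound {s x : ℝ} (hs : 0 < s) :
    x * Real.exp (-(s * x)) ≤ 1 / s := by
  have h1 := Real.add_one_le_exp (s * x)
  have h2 : Real.exp (s * x) * Real.exp (-(s * x)) = 1 := by
    rw [← Real.exp_add, add_neg_cancel, Real.exp_zero]
  have h3 : 0 < Real.exp (-(s * x)) := Real.exp_pos _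
  rw [le_div_iff₀ hs]
  have h4 : s * x ≤ Real.exp (s * x) := by linarith
  have h5 := mul_le_mul_of_nonneg_right h4 h3.le
  rw [h2] at h5
  linarith

theorem xf_integrable_ineq {u : ℝ} (h0 : 0 ≤ u) (h1 : u ≤ 1) : u ≤ 2 * (1 - Real.exp (-u)) := by
  have h2 := Real.add_one_le_exp u
  have h3 : Real.exp u * Real.exp (-u) = 1 := by
    rw [← Real.exp_add, add_neg_cancel, Real.exp_zero]
  have h4 : 0 < Real.exp (-u) := Real.exp_pos _
  have h5 := mul_le_mul_of_nonneg_right h2 h4.le
  rw [h3] at h5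
  nlinarith

/-- differentiation under the integral sign -/
theorem xf_integrable_deriv {f : ℝ → ℝ} (hf : ∀ x, 0 < x → 0 ≤ f x)
    (hfi : IntegrableOn f (Ioi 0)) {s : ℝ} (hs : 0 < s) :
    IntegrableOn (fun x => -x * Real.exp (-(s * x)) * f x) (Ioi 0) ∧
    HasDerivAt (fun s => ∫ x in Ioi (0 : ℝ), Real.exp (-(s * x)) * f x)
      (∫ x in Ioi (0 : ℝ), -x * Real.exp (-(s * x)) * f x) s := by
  have hint : ∀ s : ℝ, 0 ≤ s → IntegrableOn (fun x => Real.exp (-(s * x)) * f x) (Ioi 0) := by
    intro s hs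
    refine Integrable.mono' hfi ?_ ?_
    · exact ((by fun_prop : Continuous fun x : ℝ => Real.exp (-(s * x))).aestronglyMeasurable).mul
        hfi.aestronglyMeasurable
    · refine (ae_restrict_iff' measurableSet_Ioi).mpr (Eventually.of_forall fun x hx => ?_)
      have hx0 : (0 : ℝ) < x := hx
      rw [norm_mul, Real.norm_eq_abs, Real.norm_eq_abs, abs_of_nonneg (hf x hx0),
        abs_of_pos (Real.exp_pos _)]
      have : Real.exp (-(s * x)) ≤ 1 := Real.exp_le_one_iff.mpr (by
        have := mul_nonneg hs hx0.le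
        linarith)
      nlinarith [hf x hx0]
  refine hasDerivAt_integral_of_dominated_loc_of_deriv_le
    (F := fun s x => Real.exp (-(s * x)) * f x)
    (F' := fun s x => -x * Real.exp (-(s * x)) * f x)
    (bound := fun x => 1 / (s / 2) * f x) (s := Ioi (s / 2)) ?_ ?_ ?_ ?_ ?_ ?_ ?_
  · exact Ioi_mem_nhds (by linarith)
  · filter_upwards [Ioi_mem_nhds hs] with t ht
    exact (hint t (le_of_lt ht)).aestronglyMeasurable
  · exact hint s hs.le
  · exact ((by fun_prop : Continuous fun x : ℝ => -x * Real.exp (-(s * x))).aestronglyMeasurable).mul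
      hfi.aestronglyMeasurable
  · refine (ae_restrict_iff' measurableSet_Ioi).mpr (Eventually.of_forall fun x hx t ht => ?_)
    have hx0 : (0 : ℝ) < x := hx
    have ht0 : s / 2 < t := ht
    rw [norm_mul, norm_mul, norm_neg, Real.norm_eq_abs, Real.norm_eq_abs, Real.norm_eq_abs,
      abs_of_nonneg (hf x hx0), abs_of_pos (Real.exp_pos _), abs_of_pos hx0]
    apply mul_le_mul_of_nonneg_right _ (hf x hx0)
    refine le_trans ?_ (xf_integrable_bound (s := s / 2) (x := x) (by linarith))
    apply mul_le_mul_of_nonneg_left _ hx0.le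
    apply Real.exp_le_exp.mpr
    nlinarith
  · exact hfi.const_mul _
  · refine Eventually.of_forall fun x t _ => ?_
    have h1 : HasDerivAt (fun t : ℝ => Real.exp (-(t * x))) (-x * Real.exp (-(t * x))) t := by
      have h2 : HasDerivAt (fun t : ℝ => -(t * x)) (-x) t := by
        have h3 := ((hasDerivAt_id t).mul_const x).neg
        rw [one_mul] at h3
        exact h3
      have h4 := h2.exp
      rwa [mul_comm] at h4
    exact h1.mul_const (f x)

theorem xf_integrable_proof {α β γ b c M : ℝ} (hα : 0 < α) (hβ : 0 < β) (hγ : 0 < γ) (hc0 : 0 < c)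
    (hcb : c < b) (hM : 0 < M) {f : ℝ → ℝ} (hf : ∀ x, 0 < x → 0 ≤ f x)
    (hL : ∀ s : ℝ, 0 ≤ s → IntegrableOn (fun x => Real.exp (-(s * x)) * f x) (Ioi 0) ∧
      ∫ x in Ioi (0 : ℝ), Real.exp (-(s * x)) * f x =
        M * ((b + s) ^ (-(2 * β)) * F α β γ (c ^ 2 / (b + s) ^ 2))) :
    IntegrableOn (fun x => x * f x) (Ioi 0) ∧ ∀ s : ℝ, 0 < s →
      ∫ x in Ioi (0 : ℝ), Real.exp (-(s * x)) * (x * f x) =
        M * (2 * β * (b + s) ^ (-(2 * β) - 1) * F α (β + 1) γ (c ^ 2 / (b + s) ^ 2)) := by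
  have hfi : IntegrableOn f (Ioi 0) := by
    have h := (hL 0 le_rfl).1
    simpa using h
  have hd : ∀ s : ℝ, 0 ≤ s → HasDerivAt
      (fun s : ℝ => M * ((b + s) ^ (-(2 * β)) * F α β γ (c ^ 2 / (b + s) ^ 2)))
      (M * (-(2 * β) * (b + s) ^ (-(2 * β) - 1) * F α (β + 1) γ (c ^ 2 / (b + s) ^ 2))) s :=
    fun s hs => (hasDerivAt_L hα hβ hγ hc0 (by linarith)).const_mul M
  constructor
  · -- integrability
    set Lf : ℝ → ℝ := fun s : ℝ => M * ((b + s) ^ (-(2 * β)) * F α β γ (c ^ 2 / (b + s) ^ 2))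
      with hLf
    set D : ℝ := M * (-(2 * β) * (b + 0) ^ (-(2 * β) - 1) *
      F α (β + 1) γ (c ^ 2 / (b + 0) ^ 2)) with hD
    have h1 : Tendsto (fun t : ℝ => t⁻¹ • (Lf (0 + t) - Lf 0)) (𝓝[≠] 0) (𝓝 D) :=
      (hasDerivAt_iff_tendsto_slope_zero).mp (hd 0 le_rfl)
    have h2 : Tendsto (fun n : ℕ => 1 / ((n : ℝ) + 1)) atTop (𝓝[≠] 0) := by
      refine tendsto_nhdsWithin_iff.mpr ⟨tendsto_one_div_add_atTop_nhds_zero_nat, ?_⟩
      refine Eventually.of_forall fun n => ?_
      have : (0 : ℝ) < 1 / ((n : ℝ) + 1) := by positivity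
      exact this.ne'
    have h3 := (h1.comp h2).eventually (lt_mem_nhds (show D - 1 < D by linarith))
    refine integrableOn_Ioi_of_intervalIntegral_norm_bounded (ι := ℕ) (l := atTop)
      (b := fun n : ℕ => (n : ℝ) + 1) (2 * (1 - D)) 0 ?_ ?_ ?_
    · intro n
      refine Integrable.mono' ((hfi.mono_set Ioc_subset_Ioi_self).const_mul ((n : ℝ) + 1)) ?_ ?_
      · exact (continuous_id.aestronglyMeasurable).mul
          (hfi.mono_set Ioc_subset_Ioi_self).aestronglyMeasurable
      · refine (ae_restrict_iff' measurableSet_Ioc).mpr (Eventually.of_forall fun x hx => ?_)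
        rw [norm_mul, Real.norm_eq_abs, Real.norm_eq_abs, abs_of_nonneg (hf x hx.1),
          abs_of_pos hx.1]
        exact mul_le_mul_of_nonneg_right hx.2 (hf x hx.1)
    · exact tendsto_atTop_add_const_right _ _ tendsto_natCast_atTop_atTop
    · filter_upwards [h3] with n hn
      have hn0 : (0 : ℝ) < (n : ℝ) + 1 := by positivity
      have hinv : (0 : ℝ) < 1 / ((n : ℝ) + 1) := by positivity
      have e1 := (hL 0 le_rfl).2
      have e2 := (hL (1 / ((n : ℝ) + 1)) hinv.le).2
      have i1 := (hL 0 le_rfl).1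
      have i2 := (hL (1 / ((n : ℝ) + 1)) hinv.le).1
      have i3 : IntegrableOn (fun x => 2 * ((n : ℝ) + 1) * (Real.exp (-(0 * x)) * f x -
          Real.exp (-(1 / ((n : ℝ) + 1) * x)) * f x)) (Ioi 0) := (i1.sub i2).const_mul _
      have hpt : ∀ x, 0 < x → 0 ≤ 2 * ((n : ℝ) + 1) * (Real.exp (-(0 * x)) * f x -
          Real.exp (-(1 / ((n : ℝ) + 1) * x)) * f x) := by
        intro x hx
        rw [zero_mul, neg_zero, Real.exp_zero, ← sub_mul]
        have h4 : Real.exp (-(1 / ((n : ℝ) + 1) * x)) ≤ 1 := Real.exp_le_one_iff.mpr (by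
          have := mul_nonneg hinv.le hx.le
          linarith)
        have h5 := mul_nonneg (sub_nonneg.mpr h4) (hf x hx)
        positivity
      rw [intervalIntegral.integral_of_le hn0.le]
      calc ∫ x in Ioc 0 ((n : ℝ) + 1), ‖x * f x‖ ≤
          ∫ x in Ioc 0 ((n : ℝ) + 1), 2 * ((n : ℝ) + 1) * (Real.exp (-(0 * x)) * f x -
            Real.exp (-(1 / ((n : ℝ) + 1) * x)) * f x) := by
            refine integral_mono_of_nonneg (Eventually.of_forall fun x => norm_nonneg _)
              (i3.mono_set Ioc_subset_Ioi_self) ?_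
            refine (ae_restrict_iff' measurableSet_Ioc).mpr (Eventually.of_forall fun x hx => ?_)
            change ‖x * f x‖ ≤ 2 * ((n : ℝ) + 1) * (Real.exp (-(0 * x)) * f x -
              Real.exp (-(1 / ((n : ℝ) + 1) * x)) * f x)
            rw [norm_mul, Real.norm_eq_abs, Real.norm_eq_abs, abs_of_nonneg (hf x hx.1),
              abs_of_pos hx.1, zero_mul, neg_zero, Real.exp_zero, ← sub_mul, ← mul_assoc]
            apply mul_le_mul_of_nonneg_right _ (hf x hx.1)
            have h6 : 0 ≤ 1 / ((n : ℝ) + 1) * x := mul_nonneg hinv.le hx.1.le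
            have h7 : 1 / ((n : ℝ) + 1) * x ≤ 1 := by
              rw [one_div, ← div_eq_inv_mul, div_le_one hn0]
              exact hx.2
            have h8 := mul_le_mul_of_nonneg_left (xf_integrable_ineq h6 h7) hn0.le
            have h9 : ((n : ℝ) + 1) * (1 / ((n : ℝ) + 1) * x) = x := by
              field_simp
            rw [h9] at h8
            linarith
        _ ≤ ∫ x in Ioi (0 : ℝ), 2 * ((n : ℝ) + 1) * (Real.exp (-(0 * x)) * f x -
            Real.exp (-(1 / ((n : ℝ) + 1) * x)) * f x) := by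
            refine setIntegral_mono_set i3 ?_ (Eventually.of_forall Ioc_subset_Ioi_self)
            exact (ae_restrict_iff' measurableSet_Ioi).mpr
              (Eventually.of_forall fun x hx => hpt x hx)
        _ = 2 * ((n : ℝ) + 1) * (Lf 0 - Lf (1 / ((n : ℝ) + 1))) := by
            rw [integral_const_mul, integral_sub i1 i2, e1, e2]
        _ ≤ 2 * (1 - D) := by
            have hn' : D - 1 < (1 / ((n : ℝ) + 1))⁻¹ • (Lf (0 + 1 / ((n : ℝ) + 1)) - Lf 0) := hn
            rw [zero_add, smul_eq_mul, one_div, inv_inv, ← one_div] at hn'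
            nlinarith
  · intro s hs
    obtain ⟨h1, h2⟩ := xf_integrable_deriv hf hfi hs
    have h3 : HasDerivAt (fun s => ∫ x in Ioi (0 : ℝ), Real.exp (-(s * x)) * f x)
        (M * (-(2 * β) * (b + s) ^ (-(2 * β) - 1) * F α (β + 1) γ (c ^ 2 / (b + s) ^ 2))) s := by
      refine (hd s hs.le).congr_of_eventuallyEq ?_
      filter_upwards [Ioi_mem_nhds hs] with t ht
      exact (hL t (le_of_lt ht)).2
    have h4 := h2.unique h3
    have h5 : ∫ x in Ioi (0 : ℝ), Real.exp (-(s * x)) * (x * f x) =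
        -∫ x in Ioi (0 : ℝ), -x * Real.exp (-(s * x)) * f x := by
      rw [← integral_neg]
      congr 1
      ext x
      ring
    rw [h5, h4]
    ring

end Pool.Agent.H967.GGC
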