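import Pool.Agent.H967.GGC.Bl1

set_option autoImplicit false

namespace Pool.Agent.H967.GGC
open MeasureTheory Filter Topology Set

theorem KK_props_pow {x : ℝ} (hx : 0 ≤ x) (m : ℕ) : (m : ℝ) * x ^ (m - 1) ≤ (1 + x) ^ m := by
  induction m with
  | zero => simp
  | succ m ih =>
    rcases Nat.eq_zero_or_pos m with rfl | hm
    · simp only [zero_add, Nat.cast_one, Nat.sub_self, pow_zero, mul_one, pow_one]
      linarith
    · have h1 : x ^ m ≤ (1 + x) ^ m := pow_le_pow_left₀ hx (by linarith) m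
      have h2 : x * ((m : ℝ) * x ^ (m - 1)) ≤ x * (1 + x) ^ m := mul_le_mul_of_nonneg_left ih hx
      have h3 : x * ((m : ℝ) * x ^ (m - 1)) = m * x ^ m := by
        have : x ^ m = x ^ (m - 1) * x := by
          rw [← pow_succ, Nat.sub_add_cancel hm]
        rw [this]
        ring
      rw [Nat.add_sub_cancel, pow_succ]
      push_cast
      linarith

theorem KK_props_bound {M S k : ℝ} (hM : 0 < M) (hS : 1 ≤ S) {n : ℕ} (hk : |k| ≤ M * S ^ n)
    {x R : ℝ} (hx : |x| ≤ R) :
    ‖k * x ^ (2 * n) / ((2 * n).factorial : ℝ)‖ ≤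
      M * ((√S * (1 + R)) ^ (2 * n) / ((2 * n).factorial : ℝ)) ∧
    ‖k * (((2 * n : ℕ) : ℝ) * x ^ (2 * n - 1)) / ((2 * n).factorial : ℝ)‖ ≤
      M * ((√S * (1 + R)) ^ (2 * n) / ((2 * n).factorial : ℝ)) := by
  have hf : (0 : ℝ) < ((2 * n).factorial : ℝ) := by exact_mod_cast Nat.factorial_pos _
  have hx0 : 0 ≤ |x| := abs_nonneg x
  have hR : 0 ≤ R := hx0.trans hx
  have hS0 : 0 ≤ S := by linarith
  have e : M * ((√S * (1 + R)) ^ (2 * n) / ((2 * n).factorial : ℝ)) =
      (M * S ^ n) * (1 + R) ^ (2 * n) / ((2 * n).factorial : ℝ) := by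
    rw [mul_pow, pow_mul (√S), Real.sq_sqrt hS0]
    ring
  have h1 : (1 + |x|) ^ (2 * n) ≤ (1 + R) ^ (2 * n) :=
    pow_le_pow_left₀ (by linarith) (by linarith) _
  have hMS : 0 ≤ M * S ^ n := by positivity
  rw [e]
  constructor
  · rw [norm_div, norm_mul, norm_pow, Real.norm_eq_abs, Real.norm_eq_abs, Real.norm_eq_abs,
      abs_of_pos hf]
    refine div_le_div_of_nonneg_right (mul_le_mul hk ?_ (by positivity) hMS) hf.le
    exact (pow_le_pow_left₀ hx0 (by linarith) _).trans h1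
  · rw [norm_div, norm_mul, norm_mul, norm_pow, Real.norm_eq_abs, Real.norm_eq_abs,
      Real.norm_eq_abs, Real.norm_eq_abs, abs_of_pos hf, abs_of_nonneg (show (0 : ℝ) ≤ ((2 * n : ℕ) : ℝ) from Nat.cast_nonneg _)]
    refine div_le_div_of_nonneg_right (mul_le_mul hk ?_ (by positivity) hMS) hf.le
    exact (KK_props_pow hx0 (2 * n)).trans h1

theorem KK_props_sum (M r : ℝ) :
    HasSum (fun n : ℕ => M * (r ^ (2 * n) / ((2 * n).factorial : ℝ))) (M * Real.cosh r) :=
  (Real.hasSum_cosh r).mul_left M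

theorem KK_props_cosh {r : ℝ} (hr : 0 ≤ r) : Real.cosh r ≤ Real.exp r := by
  rw [Real.cosh_eq]
  have : Real.exp (-r) ≤ Real.exp r := Real.exp_le_exp.2 (by linarith)
  linarith

/-- K3 -/
theorem KK_props_proof {α β γ : ℝ} (hα : 0 < α) (hβ : 0 < β) (hγ : 0 < γ) :
    (∀ x, HasDerivAt (KK α β γ) (deriv (KK α β γ) x) x) ∧ Continuous (deriv (KK α β γ)) ∧
      KK α β γ 0 = 2 * β ∧ ∃ M S : ℝ, 0 < M ∧ 0 < S ∧ ∀ x, 0 ≤ x →
        |KK α β γ x| ≤ M * Real.exp (S * x) ∧ |deriv (KK α β γ) x| ≤ M * Real.exp (S * x) := by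
  obtain ⟨M, S, hM, hS, hk⟩ := kap_bound hα hβ hγ
  set g : ℕ → ℝ → ℝ := fun n x => kap α β γ n * x ^ (2 * n) / ((2 * n).factorial : ℝ) with hg
  set g' : ℕ → ℝ → ℝ := fun n x =>
    kap α β γ n * (((2 * n : ℕ) : ℝ) * x ^ (2 * n - 1)) / ((2 * n).factorial : ℝ) with hg'
  have hb : ∀ (R : ℝ) (n : ℕ) (x : ℝ), |x| ≤ R →
      ‖g n x‖ ≤ M * ((√S * (1 + R)) ^ (2 * n) / ((2 * n).factorial : ℝ)) ∧
      ‖g' n x‖ ≤ M * ((√S * (1 + R)) ^ (2 * n) / ((2 * n).factorial : ℝ)) :=
    fun R n x hx => KK_props_bound hM hS (hk n) hx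
  have hd : ∀ n x, HasDerivAt (g n) (g' n x) x := by
    intro n x
    exact ((hasDerivAt_pow (2 * n) x).const_mul _).div_const _
  have hD : ∀ x, HasDerivAt (KK α β γ) (∑' n, g' n x) x := by
    intro x
    have hx : x ∈ Metric.ball (0 : ℝ) (|x| + 1) := by
      rw [Metric.mem_ball, dist_zero_right, Real.norm_eq_abs]
      linarith
    refine hasDerivAt_tsum_of_isPreconnected (t := Metric.ball (0 : ℝ) (|x| + 1))
      (KK_props_sum M (√S * (1 + (|x| + 1)))).summable Metric.isOpen_ball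
      (convex_ball (0 : ℝ) (|x| + 1)).isPreconnected (fun n y _ => hd n y) ?_ hx ?_ hx
    · intro n y hy
      rw [Metric.mem_ball, dist_zero_right, Real.norm_eq_abs] at hy
      exact (hb _ n y hy.le).2
    · exact Summable.of_norm_bounded (KK_props_sum M (√S * (1 + |x|))).summable
        fun n => (hb _ n x le_rfl).1
  have hderiv : deriv (KK α β γ) = fun x => ∑' n, g' n x := by
    funext x
    exact (hD x).deriv
  refine ⟨fun x => by rw [hderiv]; exact hD x, ?_, ?_, M * Real.exp (√S), √S,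
    mul_pos hM (Real.exp_pos _), Real.sqrt_pos.2 (by linarith), ?_⟩
  · rw [hderiv, continuous_iff_continuousAt]
    intro x
    have hx : Metric.ball (0 : ℝ) (|x| + 1) ∈ 𝓝 x := by
      refine Metric.isOpen_ball.mem_nhds ?_
      rw [Metric.mem_ball, dist_zero_right, Real.norm_eq_abs]
      linarith
    refine ContinuousOn.continuousAt (s := Metric.ball (0 : ℝ) (|x| + 1)) ?_ hx
    refine continuousOn_tsum (fun n => ?_)
      (KK_props_sum M (√S * (1 + (|x| + 1)))).summable ?_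
    · have : Continuous (g' n) := by
        simp only [hg']
        fun_prop
      exact this.continuousOn
    · intro n y hy
      rw [Metric.mem_ball, dist_zero_right, Real.norm_eq_abs] at hy
      exact (hb _ n y hy.le).2
  · unfold KK
    rw [tsum_eq_single 0]
    · simp [kap_zero]
    · intro n hn
      have : 2 * n ≠ 0 := by omega
      rw [zero_pow this]
      simp
  · intro x hx
    have hax : |x| = x := abs_of_nonneg hx
    have h0 : 0 ≤ √S * (1 + x) := mul_nonneg (Real.sqrt_nonneg _) (by linarith)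
    have h1 : M * Real.cosh (√S * (1 + x)) ≤ M * Real.exp (√S) * Real.exp (√S * x) := by
      rw [mul_assoc, ← Real.exp_add]
      refine mul_le_mul_of_nonneg_left ((KK_props_cosh h0).trans (le_of_eq ?_)) hM.le
      congr 1
      ring
    constructor
    · refine le_trans ?_ h1
      rw [← Real.norm_eq_abs]
      exact tsum_of_norm_bounded (KK_props_sum M (√S * (1 + x))) fun n => (hb x n x hax.le).1
    · refine le_trans ?_ h1
      rw [hderiv, ← Real.norm_eq_abs]
      exact tsum_of_norm_bounded (KK_props_sum M (√S * (1 + x))) fun n => (hb x n x hax.le).2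

end Pool.Agent.H967.GGC
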