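import Pool.Agent.H967.GGC.Bl1

set_option autoImplicit false

/-!
# SD project, leaf S3
-/

namespace Pool.Agent.H967.GGC
open MeasureTheory Filter Topology Set

theorem deriv_nonpos_int {g : ℝ → ℝ} {S M s : ℝ} (hg : Continuous g)
    (hb : ∀ x, 0 ≤ x → |g x| ≤ M * Real.exp (S * x)) (hs : S < s) :
    IntegrableOn (fun x => Real.exp (-(s * x)) * g x) (Ioi 0) := by
  have h1 : IntegrableOn (fun x : ℝ => M * Real.exp (-(s - S) * x)) (Ioi 0) :=
    (exp_neg_integrableOn_Ioi 0 (by linarith)).const_mul M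
  refine Integrable.mono' h1 ?_ ?_
  · exact (Continuous.mul (by fun_prop) hg).aestronglyMeasurable
  · refine (ae_restrict_iff' measurableSet_Ioi).2 (Eventually.of_forall fun x hx => ?_)
    have h2 := hb x (le_of_lt hx)
    rw [Real.norm_eq_abs, abs_mul, Real.abs_exp]
    have h3 : Real.exp (-(s - S) * x) = Real.exp (-(s * x)) * Real.exp (S * x) := by
      rw [← Real.exp_add]
      congr 1
      ring
    rw [h3]
    have h4 := mul_le_mul_of_nonneg_left h2 (Real.exp_pos (-(s * x))).le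
    linarith

theorem deriv_nonpos_parts {k k' : ℝ → ℝ} {S M s : ℝ} (hk : ∀ x, HasDerivAt k (k' x) x)
    (hk' : Continuous k') (hb : ∀ x, 0 ≤ x → |k x| ≤ M * Real.exp (S * x) ∧
      |k' x| ≤ M * Real.exp (S * x)) (hs : S < s) :
    ∫ x in Ioi (0 : ℝ), Real.exp (-(s * x)) * k' x =
      s * (∫ x in Ioi (0 : ℝ), Real.exp (-(s * x)) * k x) - k 0 := by
  have hkc : Continuous k := continuous_iff_continuousAt.2 fun x => (hk x).continuousAt
  have i1 := deriv_nonpos_int hkc (fun x hx => (hb x hx).1) hs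
  have i2 := deriv_nonpos_int hk' (fun x hx => (hb x hx).2) hs
  have hd : ∀ x ∈ Ioi (0 : ℝ), HasDerivAt (fun x => Real.exp (-(s * x)) * k x)
      (-s * (Real.exp (-(s * x)) * k x) + Real.exp (-(s * x)) * k' x) x := by
    intro x _
    have h1 : HasDerivAt (fun x : ℝ => -(s * x)) (-s) x := by
      have h := hasDerivAt_mul_const (x := x) (-s)
      have e : (fun x : ℝ => x * -s) = fun x => -(s * x) := by
        funext y
        ring
      rwa [e] at h
    have h2 := h1.exp.mul (hk x)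
    refine h2.congr_deriv ?_
    ring
  have hlim : Tendsto (fun x => Real.exp (-(s * x)) * k x) atTop (𝓝 0) := by
    have h1 : Tendsto (fun x : ℝ => M * Real.exp (-((s - S) * x))) atTop (𝓝 (M * 0)) := by
      refine Tendsto.const_mul M (Real.tendsto_exp_neg_atTop_nhds_zero.comp ?_)
      exact tendsto_id.const_mul_atTop (by linarith)
    rw [mul_zero] at h1
    refine squeeze_zero_norm' ?_ h1
    filter_upwards [eventually_ge_atTop (0 : ℝ)] with x hx
    have h2 := (hb x hx).1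
    rw [Real.norm_eq_abs, abs_mul, Real.abs_exp]
    have h3 : Real.exp (-((s - S) * x)) = Real.exp (-(s * x)) * Real.exp (S * x) := by
      rw [← Real.exp_add]
      congr 1
      ring
    rw [h3]
    have h4 := mul_le_mul_of_nonneg_left h2 (Real.exp_pos (-(s * x))).le
    linarith
  have hI := integral_Ioi_of_hasDerivAt_of_tendsto
    (Continuous.continuousWithinAt (by fun_prop)) hd ((i1.const_mul (-s)).add i2) hlim
  rw [integral_add (i1.const_mul (-s)) i2, integral_const_mul] at hI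
  simp only [mul_zero, neg_zero, Real.exp_zero, one_mul] at hI
  linarith

theorem deriv_nonpos_binom (n : ℕ) (y : ℝ) :
    (1 - y) ^ n = ∑ j ∈ Finset.range (n + 1), (-1 : ℝ) ^ j * (n.choose j : ℝ) * y ^ j := by
  have h := add_pow (-y) 1 n
  rw [show -y + 1 = 1 - y by ring] at h
  rw [h]
  refine Finset.sum_congr rfl fun j _ => ?_
  rw [one_pow, neg_pow]
  ring

theorem deriv_nonpos_aux {k k' : ℝ → ℝ} {S : ℕ} {M : ℝ} (hk : ∀ x, HasDerivAt k (k' x) x)
    (hk' : Continuous k') (hb : ∀ x, 0 ≤ x → |k x| ≤ M * Real.exp (S * x) ∧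
      |k' x| ≤ M * Real.exp (S * x)) (R : ℝ → ℝ)
    (hR : ∀ s : ℝ, S < s → R s = ∫ x in Ioi (0 : ℝ), Real.exp (-(s * x)) * k x)
    (h : ∀ n m : ℕ, 1 ≤ n → S < m →
      ∑ j ∈ Finset.range (n + 1), (-1 : ℝ) ^ j * (n.choose j : ℝ) *
        (((m : ℝ) + j) * R ((m : ℝ) + j)) ≤ 0) (n m : ℕ) (hn : 1 ≤ n) (hm : S + 1 ≤ m) :
    ∫ x in Ioi (0 : ℝ), Real.exp (-(m * x)) * (1 - Real.exp (-x)) ^ n * k' x ≤ 0 := by
  have hSm : ∀ j : ℕ, (S : ℝ) < (m : ℝ) + j := by
    intro j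
    have h1 : ((S + 1 : ℕ) : ℝ) ≤ (m : ℝ) := by exact_mod_cast hm
    push_cast at h1
    have h2 : (0 : ℝ) ≤ j := Nat.cast_nonneg j
    linarith
  have hint : ∀ j : ℕ, IntegrableOn (fun x => Real.exp (-(((m : ℝ) + j) * x)) * k' x) (Ioi 0) :=
    fun j => deriv_nonpos_int hk' (fun x hx => (hb x hx).2) (hSm j)
  have e1 : ∀ x : ℝ, Real.exp (-(m * x)) * (1 - Real.exp (-x)) ^ n * k' x =
      ∑ j ∈ Finset.range (n + 1), (-1 : ℝ) ^ j * (n.choose j : ℝ) *
        (Real.exp (-(((m : ℝ) + j) * x)) * k' x) := by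
    intro x
    rw [deriv_nonpos_binom, Finset.mul_sum, Finset.sum_mul]
    refine Finset.sum_congr rfl fun j _ => ?_
    have e2 : Real.exp (-(((m : ℝ) + j) * x)) = Real.exp (-(m * x)) * Real.exp (-x) ^ j := by
      rw [← Real.exp_nat_mul, ← Real.exp_add]
      congr 1
      ring
    rw [e2]
    ring
  simp_rw [e1]
  rw [integral_finsetSum _ fun j _ => (hint j).const_mul _]
  have e3 : ∀ j ∈ Finset.range (n + 1), ∫ x in Ioi (0 : ℝ), (-1 : ℝ) ^ j * (n.choose j : ℝ) *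
      (Real.exp (-(((m : ℝ) + j) * x)) * k' x) =
      (-1 : ℝ) ^ j * (n.choose j : ℝ) * (((m : ℝ) + j) * R ((m : ℝ) + j)) -
        k 0 * ((-1 : ℝ) ^ j * (n.choose j : ℝ) * 1 ^ j) := by
    intro j _
    rw [integral_const_mul, deriv_nonpos_parts hk hk' hb (hSm j), hR _ (hSm j), one_pow]
    ring
  rw [Finset.sum_congr rfl e3, Finset.sum_sub_distrib, ← Finset.mul_sum, ← deriv_nonpos_binom,
    sub_self, zero_pow (by omega), mul_zero, sub_zero]
  exact h n m hn (by omega)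

/-- S3 -/
theorem deriv_nonpos_proof {k k' : ℝ → ℝ} {S : ℕ} {M : ℝ} (hk : ∀ x, HasDerivAt k (k' x) x)
    (hk' : Continuous k') (hb : ∀ x, 0 ≤ x → |k x| ≤ M * Real.exp (S * x) ∧
      |k' x| ≤ M * Real.exp (S * x)) (R : ℝ → ℝ)
    (hR : ∀ s : ℝ, S < s → R s = ∫ x in Ioi (0 : ℝ), Real.exp (-(s * x)) * k x)
    (h : ∀ n m : ℕ, 1 ≤ n → S < m →
      ∑ j ∈ Finset.range (n + 1), (-1 : ℝ) ^ j * (n.choose j : ℝ) *
        (((m : ℝ) + j) * R ((m : ℝ) + j)) ≤ 0) :
    ∀ x, 0 < x → k' x ≤ 0 := by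
  refine bern_nonpos (S := S + 1) hk'.continuousOn ?_ ?_
  · exact deriv_nonpos_int hk' (fun x hx => (hb x hx).2) (by push_cast; linarith)
  · intro n m hn hm
    exact deriv_nonpos_aux hk hk' hb R hR h n m hn hm

end Pool.Agent.H967.GGC
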