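import Pool.Agent.H967.GGC.Bl1

set_option autoImplicit false

/-!
# Uniqueness of Laplace transforms of functions
-/

namespace Pool.Agent.H967.GGC
open MeasureTheory Filter Topology Set

theorem laplace_unique_fun_int {G : ℝ → ℝ} (hG : Integrable G (volume.restrict (Ioi (0 : ℝ))))
    {s : ℝ} (hs : 0 ≤ s) :
    Integrable (fun x => Real.exp (-(s * x)) * G x) (volume.restrict (Ioi (0 : ℝ))) := by
  refine Integrable.mono hG ?_ ?_
  · have hc : Continuous fun x : ℝ => Real.exp (-(s * x)) := by fun_prop
    exact hc.aestronglyMeasurable.mul hG.aestronglyMeasurable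
  · filter_upwards [ae_restrict_mem measurableSet_Ioi] with x hx
    have hx0 : 0 < x := hx
    rw [norm_mul, Real.norm_eq_abs (Real.exp _), abs_of_pos (Real.exp_pos _)]
    have h1 : Real.exp (-(s * x)) ≤ 1 := by
      rw [Real.exp_le_one_iff]
      have := mul_nonneg hs hx0.le
      linarith
    exact mul_le_of_le_one_left (norm_nonneg _) h1

theorem laplace_unique_fun_mass (f : ℝ → ENNReal) :
    ((volume.restrict (Ioi (0 : ℝ))).withDensity f) (Iio 0) = 0 := by
  refine withDensity_absolutelyContinuous _ _ ?_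
  rw [Measure.restrict_apply measurableSet_Iio]
  have h : Iio (0 : ℝ) ∩ Ioi 0 = ∅ := by
    ext x
    simp only [mem_inter_iff, mem_Iio, mem_Ioi, mem_empty_iff_false, iff_false, not_and, not_lt]
    exact fun h => h.le
  rw [h, measure_empty]

theorem laplace_unique_fun_lap {G : ℝ → ℝ} (hG : Integrable G (volume.restrict (Ioi (0 : ℝ))))
    (s : ℝ) :
    ∫ x, Real.exp (-(s * x)) ∂((volume.restrict (Ioi (0 : ℝ))).withDensity
      fun x => ENNReal.ofReal (G x)) =
    ∫ x in Ioi (0 : ℝ), Real.exp (-(s * x)) * max (G x) 0 := by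
  rw [integral_withDensity_eq_integral_toReal_smul₀
    hG.aestronglyMeasurable.aemeasurable.ennreal_ofReal
    (Eventually.of_forall fun x => ENNReal.ofReal_lt_top)]
  refine integral_congr_ae (Eventually.of_forall fun x => ?_)
  change (ENNReal.ofReal (G x)).toReal • Real.exp (-(s * x)) = Real.exp (-(s * x)) * max (G x) 0
  rw [ENNReal.toReal_ofReal', smul_eq_mul, mul_comm]

/-- U1b -/
theorem laplace_unique_fun_proof {g1 g2 : ℝ → ℝ} {S : ℝ}
    (h1 : IntegrableOn (fun x => Real.exp (-(S * x)) * g1 x) (Ioi 0))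
    (h2 : IntegrableOn (fun x => Real.exp (-(S * x)) * g2 x) (Ioi 0))
    (h : ∀ s : ℝ, S ≤ s → ∫ x in Ioi (0 : ℝ), Real.exp (-(s * x)) * g1 x =
      ∫ x in Ioi (0 : ℝ), Real.exp (-(s * x)) * g2 x) :
    ∀ᵐ x ∂(volume.restrict (Ioi (0 : ℝ))), g1 x = g2 x := by
  obtain ⟨G, hGdef⟩ : ∃ G : ℝ → ℝ, G = fun x => Real.exp (-(S * x)) * g1 x -
    Real.exp (-(S * x)) * g2 x := ⟨_, rfl⟩
  have hG : Integrable G (volume.restrict (Ioi (0 : ℝ))) := by
    rw [hGdef]
    exact Integrable.sub h1 h2
  have hG' : Integrable (fun x => -(G x)) (volume.restrict (Ioi (0 : ℝ))) := hG.neg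
  have hzero : ∀ s : ℝ, 0 ≤ s → ∫ x in Ioi (0 : ℝ), Real.exp (-(s * x)) * G x = 0 := by
    intro s hs
    have e : ∀ x, Real.exp (-(s * x)) * G x = Real.exp (-(s * x)) * (Real.exp (-(S * x)) * g1 x) -
        Real.exp (-(s * x)) * (Real.exp (-(S * x)) * g2 x) := by
      intro x
      rw [hGdef]
      ring
    rw [integral_congr_ae (Eventually.of_forall e), integral_sub (laplace_unique_fun_int h1 hs)
      (laplace_unique_fun_int h2 hs)]
    have e1 : ∀ g : ℝ → ℝ, ∫ x in Ioi (0 : ℝ), Real.exp (-(s * x)) *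
        (Real.exp (-(S * x)) * g x) = ∫ x in Ioi (0 : ℝ), Real.exp (-((s + S) * x)) * g x := by
      intro g
      refine integral_congr_ae (Eventually.of_forall fun x => ?_)
      change Real.exp (-(s * x)) * (Real.exp (-(S * x)) * g x) = Real.exp (-((s + S) * x)) * g x
      rw [← mul_assoc, ← Real.exp_add]
      congr 2
      ring
    rw [e1, e1, h (s + S) (by linarith), sub_self]
  have f1 : IsFiniteMeasure ((volume.restrict (Ioi (0 : ℝ))).withDensity
      fun x => ENNReal.ofReal (G x)) := isFiniteMeasure_withDensity_ofReal hG.2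
  have f2 : IsFiniteMeasure ((volume.restrict (Ioi (0 : ℝ))).withDensity
      fun x => ENNReal.ofReal (-(G x))) := isFiniteMeasure_withDensity_ofReal hG'.2
  have hPQ := laplace_unique _ _ (laplace_unique_fun_mass fun x => ENNReal.ofReal (G x))
    (laplace_unique_fun_mass fun x => ENNReal.ofReal (-(G x))) (by
      intro s hs
      rw [laplace_unique_fun_lap hG s, laplace_unique_fun_lap hG' s]
      have e2 := integral_sub (laplace_unique_fun_int hG.pos_part hs)
        (laplace_unique_fun_int hG.neg_part hs)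
      have e3 : ∫ x in Ioi (0 : ℝ), (Real.exp (-(s * x)) * max (G x) 0 -
          Real.exp (-(s * x)) * max (-(G x)) 0) = ∫ x in Ioi (0 : ℝ), Real.exp (-(s * x)) * G x := by
        refine integral_congr_ae (Eventually.of_forall fun x => ?_)
        change Real.exp (-(s * x)) * max (G x) 0 - Real.exp (-(s * x)) * max (-(G x)) 0 =
          Real.exp (-(s * x)) * G x
        rw [← mul_sub]
        refine congrArg _ ?_
        rcases le_total 0 (G x) with h0 | h0
        · rw [max_eq_left h0, max_eq_right (by linarith), sub_zero]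
        · rw [max_eq_right h0, max_eq_left (by linarith), zero_sub, neg_neg]
      rw [hzero s hs, e2] at e3
      exact sub_eq_zero.1 e3)
  have hae := (withDensity_eq_iff hG.aestronglyMeasurable.aemeasurable.ennreal_ofReal
    hG'.aestronglyMeasurable.aemeasurable.ennreal_ofReal (by
      have h3 := measure_lt_top ((volume.restrict (Ioi (0 : ℝ))).withDensity
        fun x => ENNReal.ofReal (G x)) univ
      rw [withDensity_apply _ MeasurableSet.univ, Measure.restrict_univ] at h3
      exact h3.ne)).1 hPQ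
  filter_upwards [hae] with x hx
  have hx2 : (ENNReal.ofReal (G x)).toReal = (ENNReal.ofReal (-(G x))).toReal := by rw [hx]
  rw [ENNReal.toReal_ofReal', ENNReal.toReal_ofReal'] at hx2
  have hx3 : G x = 0 := by
    rcases le_total 0 (G x) with h0 | h0
    · rw [max_eq_left h0, max_eq_right (by linarith)] at hx2
      exact hx2
    · rw [max_eq_right h0, max_eq_left (by linarith)] at hx2
      linarith
  rw [hGdef] at hx3
  have hx4 : Real.exp (-(S * x)) * g1 x - Real.exp (-(S * x)) * g2 x = 0 := hx3
  have hx5 : Real.exp (-(S * x)) * (g1 x - g2 x) = 0 := by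
    rw [mul_sub]
    exact hx4
  have hx6 := (mul_eq_zero.1 hx5).resolve_left (Real.exp_pos _).ne'
  linarith

end Pool.Agent.H967.GGC
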