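import Pool.Agent.H967.GGC.Bl1

set_option autoImplicit false

namespace Pool.Agent.H967.GGC
open MeasureTheory Filter Topology Set

theorem sd_of_antitone_scale {k : ℝ → ℝ} (hki : IntegrableOn k (Ioi 0)) {κ : ℝ} (hκ : 0 < κ) :
    IntegrableOn (fun x => k (κ⁻¹ * x)) (Ioi 0) := by
  rw [integrableOn_Ioi_comp_mul_left_iff k 0 (inv_pos.mpr hκ), mul_zero]
  exact hki

/-- the Laplace transform of a convolution -/
theorem sd_of_antitone_conv (P Q : Measure ℝ) [IsProbabilityMeasure P] [IsProbabilityMeasure Q]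
    (κ s : ℝ) : ∫ x, Real.exp (-(s * x)) ∂(Measure.conv (P.map (fun x => κ * x)) Q) =
      (∫ x, Real.exp (-((s * κ) * x)) ∂P) * ∫ x, Real.exp (-(s * x)) ∂Q := by
  have hm : Measurable (fun x : ℝ => κ * x) := by fun_prop
  have : IsProbabilityMeasure (P.map (fun x => κ * x)) :=
    Measure.isProbabilityMeasure_map hm.aemeasurable
  unfold Measure.conv
  rw [integral_map (by fun_prop) (by fun_prop)]
  have h1 : ∀ z : ℝ × ℝ, Real.exp (-(s * (z.1 + z.2))) =
      Real.exp (-(s * z.1)) * Real.exp (-(s * z.2)) := by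
    intro z
    rw [← Real.exp_add]
    congr 1
    ring
  simp_rw [h1]
  rw [integral_prod_mul (fun x : ℝ => Real.exp (-(s * x))) (fun x : ℝ => Real.exp (-(s * x)))]
  congr 1
  rw [integral_map hm.aemeasurable (by fun_prop)]
  refine integral_congr_ae (Eventually.of_forall (fun x => ?_))
  show Real.exp (-(s * (κ * x))) = Real.exp (-((s * κ) * x))
  rw [mul_assoc]

theorem sd_of_antitone_supp (P Q : Measure ℝ) [IsProbabilityMeasure P] [IsProbabilityMeasure Q]
    (hP : P (Iio 0) = 0) (hQ : Q (Iio 0) = 0) {κ : ℝ} (hκ : 0 < κ) :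
    (Measure.conv (P.map (fun x => κ * x)) Q) (Iio 0) = 0 := by
  have hm : Measurable (fun x : ℝ => κ * x) := by fun_prop
  have : IsProbabilityMeasure (P.map (fun x => κ * x)) :=
    Measure.isProbabilityMeasure_map hm.aemeasurable
  have h1 : (P.map (fun x => κ * x)) (Iio 0) = 0 := by
    rw [Measure.map_apply hm measurableSet_Iio]
    have : (fun x : ℝ => κ * x) ⁻¹' Iio 0 = Iio 0 := by
      ext x
      simp only [mem_preimage, mem_Iio]
      constructor
      · intro h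
        by_contra hc
        have : 0 ≤ κ * x := mul_nonneg hκ.le (not_lt.mp hc)
        linarith
      · intro h
        exact mul_neg_of_pos_of_neg hκ h
    rw [this, hP]
  unfold Measure.conv
  rw [Measure.map_apply (by fun_prop) measurableSet_Iio]
  refine measure_mono_null (t := (Iio 0 ×ˢ univ) ∪ (univ ×ˢ Iio 0)) ?_ ?_
  · rintro ⟨x, y⟩ h
    simp only [mem_preimage, mem_Iio] at h
    by_cases hx : x < 0
    · left
      exact ⟨hx, mem_univ _⟩
    · right
      refine ⟨mem_univ _, ?_⟩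
      show y < 0
      linarith [not_lt.mp hx]
  · refine measure_union_null ?_ ?_
    · rw [Measure.prod_prod, h1, zero_mul]
    · rw [Measure.prod_prod, hQ, mul_zero]

theorem sd_of_antitone_hint {k : ℝ → ℝ}
    (hk0 : ∀ x, 0 < x → 0 ≤ k x) (hk : AntitoneOn k (Ioi 0)) (hki : IntegrableOn k (Ioi 0))
    (hLip : ∀ T : ℝ, ∃ C : ℝ, ∀ x y : ℝ, 0 < x → x ≤ y → y ≤ T → k x - k y ≤ C * (y - x))
    {κ : ℝ} (hκ : 0 < κ) (hκ1 : κ < 1) :
    IntegrableOn (fun x => (k x - k (κ⁻¹ * x)) / x) (Ioi 0) := by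
  have hsc := sd_of_antitone_scale hki hκ
  have hinv : 1 < κ⁻¹ := (one_lt_inv₀ hκ).mpr hκ1
  have hmeas : AEStronglyMeasurable (fun x => (k x - k (κ⁻¹ * x)) / x) (volume.restrict (Ioi 0)) := by
    have h1 : AEMeasurable (fun x => k x - k (κ⁻¹ * x)) (volume.restrict (Ioi 0)) :=
      (hki.1.aemeasurable.sub hsc.1.aemeasurable)
    exact (h1.div measurable_id.aemeasurable).aestronglyMeasurable
  obtain ⟨C, hC⟩ := hLip κ⁻¹
  have hge : ∀ x : ℝ, 0 < x → x ≤ κ⁻¹ * x := by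
    intro x hx
    nlinarith
  have hpos : ∀ x : ℝ, 0 < x → 0 ≤ k x - k (κ⁻¹ * x) := by
    intro x hx
    have := hk (mem_Ioi.mpr hx) (mem_Ioi.mpr (hx.trans_le (hge x hx))) (hge x hx)
    linarith
  have hsplit : Ioi (0:ℝ) = Ioc 0 1 ∪ Ioi 1 := (Ioc_union_Ioi_eq_Ioi zero_le_one).symm
  rw [hsplit]
  refine IntegrableOn.union ?_ ?_
  · refine Integrable.mono' (g := fun _ => C * (κ⁻¹ - 1))
      (integrableOn_const measure_Ioc_lt_top.ne)
      (hmeas.mono_measure (Measure.restrict_mono Ioc_subset_Ioi_self le_rfl)) ?_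
    · rw [ae_restrict_iff' measurableSet_Ioc]
      refine Eventually.of_forall (fun x hx => ?_)
      have hx0 : 0 < x := hx.1
      rw [Real.norm_of_nonneg (div_nonneg (hpos x hx0) hx0.le), div_le_iff₀ hx0]
      have h2 := hC x (κ⁻¹ * x) hx0 (hge x hx0) (by
        have := mul_le_mul_of_nonneg_left hx.2 (by positivity : (0:ℝ) ≤ κ⁻¹)
        linarith)
      calc k x - k (κ⁻¹ * x) ≤ C * (κ⁻¹ * x - x) := h2
        _ = C * (κ⁻¹ - 1) * x := by ring
  · have hk1 : IntegrableOn k (Ioi 1) := hki.mono_set (Ioi_subset_Ioi zero_le_one)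
    refine Integrable.mono' hk1 (hmeas.mono_measure (Measure.restrict_mono (Ioi_subset_Ioi zero_le_one) le_rfl)) ?_
    rw [ae_restrict_iff' measurableSet_Ioi]
    refine Eventually.of_forall (fun x hx => ?_)
    have hx1 : 1 < x := hx
    have hx0 : 0 < x := by linarith
    rw [Real.norm_of_nonneg (div_nonneg (hpos x hx0) hx0.le), div_le_iff₀ hx0]
    have h3 : 0 ≤ k (κ⁻¹ * x) := hk0 _ (hx0.trans_le (hge x hx0))
    have h4 : 0 ≤ k x := hk0 x hx0
    nlinarith

theorem sd_of_antitone_proof (P : Measure ℝ) [IsProbabilityMeasure P] (hP : P (Iio 0) = 0) (k : ℝ → ℝ)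
    (hk0 : ∀ x, 0 < x → 0 ≤ k x) (hk : AntitoneOn k (Ioi 0)) (hki : IntegrableOn k (Ioi 0))
    (hLip : ∀ T : ℝ, ∃ C : ℝ, ∀ x y : ℝ, 0 < x → x ≤ y → y ≤ T → k x - k y ≤ C * (y - x))
    (hL : ∀ s : ℝ, 0 ≤ s → ∫ x, Real.exp (-(s * x)) ∂P =
      Real.exp (-∫ x in Ioi (0 : ℝ), (1 - Real.exp (-(s * x))) * (k x / x))) : IsSD P := by
  intro κ hκ hκ1
  have hinv : 1 < κ⁻¹ := (one_lt_inv₀ hκ).mpr hκ1
  have hint := sd_of_antitone_hint hk0 hk hki hLip hκ hκ1
  have hsc := sd_of_antitone_scale hki hκ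
  have hge : ∀ x : ℝ, 0 < x → x ≤ κ⁻¹ * x := by
    intro x hx
    nlinarith
  have hpos : ∀ x : ℝ, 0 < x → 0 ≤ (k x - k (κ⁻¹ * x)) / x := by
    intro x hx
    have := hk (mem_Ioi.mpr hx) (mem_Ioi.mpr (hx.trans_le (hge x hx))) (hge x hx)
    exact div_nonneg (by linarith) hx.le
  obtain ⟨Q, hQ1, hQ2, hQ3⟩ := compound_poisson (fun x => (k x - k (κ⁻¹ * x)) / x) hpos hint
  refine ⟨Q, hQ1, ?_⟩
  have hm : Measurable (fun x : ℝ => κ * x) := by fun_prop
  have hpm : IsProbabilityMeasure (P.map (fun x => κ * x)) :=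
    Measure.isProbabilityMeasure_map hm.aemeasurable
  refine laplace_unique P _ hP (sd_of_antitone_supp P Q hP hQ2 hκ) (fun s hs => ?_)
  rw [sd_of_antitone_conv P Q κ s, hQ3 s hs, hL s hs, hL (s * κ) (mul_nonneg hs hκ.le),
    ← Real.exp_add]
  congr 1
  -- the substitution
  have h1 : ∫ x in Ioi (0 : ℝ), (1 - Real.exp (-((s * κ) * x))) * (k x / x) =
      ∫ x in Ioi (0 : ℝ), (1 - Real.exp (-(s * x))) * (k (κ⁻¹ * x) / x) := by
    have h2 := integral_comp_mul_left_Ioi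
      (fun x => (1 - Real.exp (-((s * κ) * x))) * (k x / x)) 0 (inv_pos.mpr hκ)
    rw [mul_zero, inv_inv, smul_eq_mul] at h2
    have h3 : ∫ x in Ioi (0 : ℝ), (1 - Real.exp (-((s * κ) * x))) * (k x / x) =
        κ⁻¹ * ∫ x in Ioi (0 : ℝ), (1 - Real.exp (-((s * κ) * (κ⁻¹ * x)))) *
          (k (κ⁻¹ * x) / (κ⁻¹ * x)) := by
      rw [h2, ← mul_assoc, inv_mul_cancel₀ hκ.ne', one_mul]
    rw [h3, ← integral_const_mul]
    refine setIntegral_congr_fun measurableSet_Ioi (fun x hx => ?_)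
    have hx0 : x ≠ 0 := (mem_Ioi.mp hx).ne'
    have e1 : (s * κ) * (κ⁻¹ * x) = s * x := by
      field_simp
    show κ⁻¹ * ((1 - Real.exp (-((s * κ) * (κ⁻¹ * x)))) * (k (κ⁻¹ * x) / (κ⁻¹ * x))) =
      (1 - Real.exp (-(s * x))) * (k (κ⁻¹ * x) / x)
    rw [e1]
    field_simp
  -- integrability
  have hexp : ∀ x : ℝ, 0 < x → 0 ≤ 1 - Real.exp (-(s * x)) ∧ 1 - Real.exp (-(s * x)) ≤ s * x ∧
      1 - Real.exp (-(s * x)) ≤ 1 := by
    intro x hx
    have h2 : 0 ≤ s * x := mul_nonneg hs hx.le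
    have h3 : Real.exp (-(s * x)) ≤ 1 := by
      rw [← Real.exp_zero]
      exact Real.exp_le_exp.mpr (by linarith)
    have h4 := Real.add_one_le_exp (-(s * x))
    have h5 := Real.exp_pos (-(s * x))
    exact ⟨by linarith, by linarith, by linarith⟩
  have hem : AEMeasurable (fun x : ℝ => 1 - Real.exp (-(s * x))) (volume.restrict (Ioi 0)) :=
    (by fun_prop : Measurable fun x : ℝ => 1 - Real.exp (-(s * x))).aemeasurable
  have hi1 : IntegrableOn (fun x => (1 - Real.exp (-(s * x))) * (k (κ⁻¹ * x) / x)) (Ioi 0) := by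
    refine Integrable.mono' (hsc.const_mul s) ?_ ?_
    · exact (hem.mul (hsc.1.aemeasurable.div measurable_id.aemeasurable)).aestronglyMeasurable
    · rw [ae_restrict_iff' measurableSet_Ioi]
      refine Eventually.of_forall (fun x hx => ?_)
      have hx0 : 0 < x := hx
      obtain ⟨a1, a2, _⟩ := hexp x hx0
      have h3 : 0 ≤ k (κ⁻¹ * x) := hk0 _ (hx0.trans_le (hge x hx0))
      rw [Real.norm_of_nonneg (mul_nonneg a1 (div_nonneg h3 hx0.le))]
      calc (1 - Real.exp (-(s * x))) * (k (κ⁻¹ * x) / x) ≤ s * x * (k (κ⁻¹ * x) / x) :=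
            mul_le_mul_of_nonneg_right a2 (div_nonneg h3 hx0.le)
        _ = s * k (κ⁻¹ * x) := by field_simp
  have hi2 : IntegrableOn (fun x => (1 - Real.exp (-(s * x))) * ((k x - k (κ⁻¹ * x)) / x)) (Ioi 0) := by
    refine Integrable.mono' hint ?_ ?_
    · exact (hem.mul hint.1.aemeasurable).aestronglyMeasurable
    · rw [ae_restrict_iff' measurableSet_Ioi]
      refine Eventually.of_forall (fun x hx => ?_)
      have hx0 : 0 < x := hx
      obtain ⟨a1, _, a3⟩ := hexp x hx0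
      rw [Real.norm_of_nonneg (mul_nonneg a1 (hpos x hx0))]
      exact mul_le_of_le_one_left (hpos x hx0) a3
  rw [h1, ← neg_add, ← integral_add hi1 hi2]
  congr 1
  refine setIntegral_congr_fun measurableSet_Ioi (fun x hx => ?_)
  show (1 - Real.exp (-(s * x))) * (k x / x) = (1 - Real.exp (-(s * x))) * (k (κ⁻¹ * x) / x) +
    (1 - Real.exp (-(s * x))) * ((k x - k (κ⁻¹ * x)) / x)
  ring

end Pool.Agent.H967.GGC

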