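import Pool.Agent.H967.GGC.TK2
import Pool.Agent.H967.GGC.TK3
import Pool.Agent.H967.GGC.TU1b
import Pool.Agent.H967.GGC.TU3
import Pool.Agent.H967.GGC.TS3
import Pool.Agent.H967.GGC.TC1

set_option autoImplicit false

namespace Pool.Agent.H967.GGC

alias kap_gen := kap_gen_proof
alias KK_props := KK_props_proof
alias laplace_unique_fun := laplace_unique_fun_proof
alias sd_of_antitone := sd_of_antitone_proof
alias deriv_nonpos := deriv_nonpos_proof
alias xf_integrable := xf_integrable_proof

end Pool.Agent.H967.GGC
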