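import Pool.Agent.H967.GGC.Bl3

set_option autoImplicit false

/-! # Leaf G1 (helper367): the function `KK` when `α ≤ γ`, `β ≤ γ` -/

namespace Pool.Agent.H967.GGC
open MeasureTheory Filter Topology Set

/-- the auxiliary function `∫ e^((t-1)x) dσ(t)` -/
noncomputable def KK_le_of_le_H (σ : Measure ℝ) (x : ℝ) : ℝ := ∫ t, Real.exp ((t - 1) * x) ∂σ

theorem KK_le_of_le_le_one {t x : ℝ} (ht : t ≤ 1) (hx : 0 ≤ x) : Real.exp ((t - 1) * x) ≤ 1 := by
  rw [Real.exp_le_one_iff]
  exact mul_nonpos_of_nonpos_of_nonneg (by linarith) hx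

theorem KK_le_of_le_int (σ : Measure ℝ) [IsProbabilityMeasure σ] (hσ : ∀ᵐ t ∂σ, t ≤ 1) {x : ℝ}
    (hx : 0 ≤ x) : Integrable (fun t => Real.exp ((t - 1) * x)) σ := by
  refine Integrable.of_bound (Continuous.aestronglyMeasurable (by fun_prop)) 1 ?_
  filter_upwards [hσ] with t ht
  rw [Real.norm_eq_abs, abs_of_pos (Real.exp_pos _)]
  exact KK_le_of_le_le_one ht hx

theorem KK_le_of_le_cont (σ : Measure ℝ) [IsProbabilityMeasure σ] (hσ : ∀ᵐ t ∂σ, t ≤ 1) :
    ContinuousOn (KK_le_of_le_H σ) (Ici 0) := by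
  unfold KK_le_of_le_H
  refine continuousOn_of_dominated (bound := fun _ => (1 : ℝ)) ?_ ?_ (integrable_const _) ?_
  · intro x _
    exact Continuous.aestronglyMeasurable (by fun_prop)
  · intro x hx
    filter_upwards [hσ] with t ht
    rw [Real.norm_eq_abs, abs_of_pos (Real.exp_pos _)]
    exact KK_le_of_le_le_one ht hx
  · filter_upwards with t
    exact Continuous.continuousOn (by fun_prop)

theorem KK_le_of_le_anti (σ : Measure ℝ) [IsProbabilityMeasure σ] (hσ : ∀ᵐ t ∂σ, t ≤ 1)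
    {x y : ℝ} (hx : 0 ≤ x) (hxy : x ≤ y) : KK_le_of_le_H σ y ≤ KK_le_of_le_H σ x := by
  unfold KK_le_of_le_H
  refine integral_mono_ae (KK_le_of_le_int σ hσ (hx.trans hxy)) (KK_le_of_le_int σ hσ hx) ?_
  filter_upwards [hσ] with t ht
  apply Real.exp_le_exp.2
  nlinarith

theorem KK_le_of_le_laplace (σ : Measure ℝ) [IsProbabilityMeasure σ] (hσ : ∀ᵐ t ∂σ, t ≤ 1) {p : ℝ}
    (hp : 1 < p) :
    IntegrableOn (fun x => Real.exp (-(p * x)) * (Real.exp x * KK_le_of_le_H σ x)) (Ioi 0) ∧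
    ∫ x in Ioi (0 : ℝ), Real.exp (-(p * x)) * (Real.exp x * KK_le_of_le_H σ x) =
      ∫ t, 1 / (p - t) ∂σ := by
  have hprod : Integrable (Function.uncurry fun (x t : ℝ) => Real.exp (-((p - t) * x)))
      ((volume.restrict (Ioi (0 : ℝ))).prod σ) := by
    have h1 : IntegrableOn (fun x : ℝ => Real.exp (-(p - 1) * x)) (Ioi 0) :=
      exp_neg_integrableOn_Ioi 0 (by linarith)
    have h2 : Integrable (fun z : ℝ × ℝ => Real.exp (-(p - 1) * z.1))
        ((volume.restrict (Ioi (0 : ℝ))).prod σ) := Integrable.comp_fst h1 σ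
    refine h2.mono' (Continuous.aestronglyMeasurable (by
      unfold Function.uncurry
      fun_prop)) ?_
    have hx : ∀ᵐ z ∂((volume.restrict (Ioi (0 : ℝ))).prod σ), z.1 ∈ Ioi (0 : ℝ) :=
      Measure.quasiMeasurePreserving_fst.ae (ae_restrict_mem measurableSet_Ioi)
    have ht : ∀ᵐ z ∂((volume.restrict (Ioi (0 : ℝ))).prod σ), z.2 ≤ 1 :=
      Measure.quasiMeasurePreserving_snd.ae hσ
    filter_upwards [hx, ht] with z hz1 hz2
    unfold Function.uncurry
    rw [Real.norm_eq_abs, abs_of_pos (Real.exp_pos _)]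
    apply Real.exp_le_exp.2
    have : 0 < z.1 := hz1
    nlinarith
  have e1 : ∀ x : ℝ, Real.exp (-(p * x)) * (Real.exp x * KK_le_of_le_H σ x) =
      ∫ t, Real.exp (-((p - t) * x)) ∂σ := by
    intro x
    unfold KK_le_of_le_H
    rw [← integral_const_mul, ← integral_const_mul]
    congr 1
    funext t
    rw [← Real.exp_add, ← Real.exp_add]
    congr 1
    ring
  constructor
  · have h3 := hprod.integral_prod_left
    refine h3.congr (Eventually.of_forall fun x => ?_)
    exact (e1 x).symm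
  · simp only [e1]
    rw [integral_integral_swap hprod]
    refine integral_congr_ae ?_
    filter_upwards [hσ] with t ht
    have h4 : ∀ x : ℝ, Real.exp (-((p - t) * x)) = Real.exp ((t - p) * x) := by
      intro x
      congr 1
      ring
    simp only [h4]
    rw [integral_exp_mul_Ioi (by linarith) 0, mul_zero, Real.exp_zero]
    have h5 : t - p ≠ 0 := by
      intro h
      linarith
    have h6 : p - t ≠ 0 := by
      intro h
      linarith
    rw [neg_div, ← div_neg, neg_sub]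

/-- in the range `α, β ≤ γ` the function `KK` is `2 β` times the moment generating function of a
probability measure on `(-∞, 1]` -/
theorem KK_le_of_le_rep {α β γ : ℝ} (hα : 0 < α) (hβ : 0 < β) (h1 : α ≤ γ) (h2 : β ≤ γ) :
    ∃ σ : Measure ℝ, IsProbabilityMeasure σ ∧ (∀ᵐ t ∂σ, t ≤ 1) ∧
      EqOn (KK α β γ) (fun x => 2 * β * (Real.exp x * KK_le_of_le_H σ x)) (Ioi 0) := by
  have hγ : 0 < γ := hα.trans_le h1
  obtain ⟨σ, hσp, hσc, hσ⟩ := stieltjes hα hβ h1 h2
  obtain ⟨hd, hdc, -, -⟩ := KK_props hα hβ hγ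
  obtain ⟨S, hS1, hS⟩ := KK_laplace (c := 1) hα hβ hγ one_pos
  have hσ1 : ∀ᵐ t ∂σ, t ≤ 1 := by
    have h3 : ∀ᵐ t ∂σ, t ∈ Icc (-1 : ℝ) 1 := by
      rw [ae_iff]
      exact hσc
    filter_upwards [h3] with t ht
    exact ht.2
  have hcont : Continuous (KK α β γ) := continuous_iff_continuousAt.2 fun x =>
    (hd x).continuousAt
  -- the Laplace transforms agree
  have hL : ∀ᵐ x ∂(volume.restrict (Ioi (0 : ℝ))),
      KK α β γ x = 2 * β * (Real.exp x * KK_le_of_le_H σ x) := by
    refine laplace_unique_fun (S := S + 1) ?_ ?_ ?_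
    · have h4 := (hS (S + 1) (by linarith)).1
      simpa only [one_mul] using h4
    · have h4 := (KK_le_of_le_laplace σ hσ1 (p := S + 1) (by linarith)).1.const_mul (2 * β)
      refine h4.congr (Eventually.of_forall fun x => ?_)
      simp only
      ring
    · intro s hs
      have h4 := (hS s (by linarith)).2
      simp only [one_mul, one_pow] at h4
      have h5 := (KK_le_of_le_laplace σ hσ1 (p := s) (by linarith)).2
      rw [h4]
      have h6 : ∀ x : ℝ, Real.exp (-(s * x)) * (2 * β * (Real.exp x * KK_le_of_le_H σ x)) =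
          2 * β * (Real.exp (-(s * x)) * (Real.exp x * KK_le_of_le_H σ x)) := by
        intro x
        ring
      simp only [h6]
      rw [integral_const_mul, h5, ← hσ s (by linarith)]
      ring
  have heq : EqOn (KK α β γ) (fun x => 2 * β * (Real.exp x * KK_le_of_le_H σ x)) (Ioi 0) := by
    refine Measure.eqOn_open_of_ae_eq hL isOpen_Ioi hcont.continuousOn ?_
    have h7 := (KK_le_of_le_cont σ hσ1).mono Ioi_subset_Ici_self
    exact continuousOn_const.mul (Real.continuous_exp.continuousOn.mul h7)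
  exact ⟨σ, hσp, hσ1, heq⟩

/-- G1 -/
theorem KK_le_of_le_proof {α β γ : ℝ} (hα : 0 < α) (hβ : 0 < β) (h1 : α ≤ γ) (h2 : β ≤ γ) :
    ∀ x, 0 < x → deriv (KK α β γ) x ≤ KK α β γ x := by
  have hγ : 0 < γ := hα.trans_le h1
  obtain ⟨σ, hσp, hσ1, heq⟩ := KK_le_of_le_rep hα hβ h1 h2
  obtain ⟨hd, hdc, -, -⟩ := KK_props hα hβ hγ
  -- `e^(-x) KK x` is antitone
  intro x hx
  have hD : HasDerivAt (fun y => Real.exp (-y) * KK α β γ y)
      (Real.exp (-x) * (-1) * KK α β γ x + Real.exp (-x) * deriv (KK α β γ) x) x :=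
    ((hasDerivAt_neg x).exp).mul (hd x)
  have hslope : Tendsto (slope (fun y => Real.exp (-y) * KK α β γ y) x) (𝓝[>] x)
      (𝓝 (Real.exp (-x) * (-1) * KK α β γ x + Real.exp (-x) * deriv (KK α β γ) x)) :=
    (hasDerivAt_iff_tendsto_slope.1 hD).mono_left
      (nhdsWithin_mono x fun y hy => ne_of_gt hy)
  have hle : Real.exp (-x) * (-1) * KK α β γ x + Real.exp (-x) * deriv (KK α β γ) x ≤ 0 := by
    refine le_of_tendsto hslope ?_
    filter_upwards [self_mem_nhdsWithin] with y hy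
    have hy' : x < y := hy
    rw [slope_def_field]
    apply div_nonpos_of_nonpos_of_nonneg _ (by linarith)
    have e2 : ∀ z, 0 < z → Real.exp (-z) * KK α β γ z = 2 * β * KK_le_of_le_H σ z := by
      intro z hz
      rw [heq hz]
      have : Real.exp (-z) * Real.exp z = 1 := by rw [← Real.exp_add]; simp
      calc Real.exp (-z) * (2 * β * (Real.exp z * KK_le_of_le_H σ z)) =
          (Real.exp (-z) * Real.exp z) * (2 * β * KK_le_of_le_H σ z) := by ring
        _ = _ := by rw [this, one_mul]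
    rw [e2 y (hx.trans hy'), e2 x hx]
    have h8 := KK_le_of_le_anti σ hσ1 hx.le hy'.le
    nlinarith
  have hpos := Real.exp_pos (-x)
  by_contra hcon
  rw [not_le] at hcon
  nlinarith

/-- nonnegativity of `KK` in the same range -/
theorem KK_nonneg_of_le_proof {α β γ : ℝ} (hα : 0 < α) (hβ : 0 < β) (h1 : α ≤ γ) (h2 : β ≤ γ) :
    ∀ x, 0 < x → 0 ≤ KK α β γ x := by
  obtain ⟨σ, hσp, hσ1, heq⟩ := KK_le_of_le_rep hα hβ h1 h2
  intro x hx
  rw [heq hx]
  have hH : 0 ≤ KK_le_of_le_H σ x := integral_nonneg fun t => (Real.exp_pos _).le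
  have := Real.exp_pos x
  positivity

end Pool.Agent.H967.GGC
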