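import Pool.Agent.H967.GGC.TC2
import Pool.Agent.H967.GGC.TG1

set_option autoImplicit false

namespace Pool.Agent.H967.GGC

alias conv_ae := conv_ae_proof
alias KK_le_of_le := KK_le_of_le_proof
alias KK_nonneg_of_le := KK_nonneg_of_le_proof

end Pool.Agent.H967.GGC
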