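import Pool.Agent.H967.GGC.E4

set_option autoImplicit false

/-!
# GGC classification for McKay-type Bessel laws: assembly
-/

namespace Pool.Agent.H967.GGC
open MeasureTheory Filter Topology Set

alias not_ggc := not_ggc_proof

theorem besselI_nonneg {μ x : ℝ} (hμ : -1 < μ) (hx : 0 < x) : 0 ≤ besselI μ x := by
  unfold besselI
  apply tsum_nonneg
  intro k
  have h1 : 0 < Real.Gamma (k + μ + 1) := by
    apply Real.Gamma_pos_of_pos
    have : (0:ℝ) ≤ k := by positivity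
    linarith
  positivity

theorem exists_law {f : ℝ → ℝ} (hf : ∀ x, 0 < x → 0 ≤ f x) (hint : IntegrableOn f (Ioi 0))
    (hpos : 0 < ∫ x in Ioi (0:ℝ), f x) : ∃ P, IsLawOf f P := by
  set I := ∫ x in Ioi (0:ℝ), f x with hI
  refine ⟨(volume.restrict (Ioi 0)).withDensity (fun x => ENNReal.ofReal (1 / I * f x)), ⟨?_⟩,
    1 / I, by positivity, rfl⟩
  rw [withDensity_apply _ MeasurableSet.univ, Measure.restrict_univ,
    ← ofReal_integral_eq_lintegral_ofReal (hint.const_mul _), integral_const_mul, ← hI,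
    one_div_mul_cancel hpos.ne', ENNReal.ofReal_one]
  filter_upwards [ae_restrict_mem measurableSet_Ioi] with x hx
  have := hf x hx
  simp only [Pi.zero_apply]
  positivity

theorem law_laplace {f : ℝ → ℝ} {P : Measure ℝ} (h : IsLawOf f P) (hf : ∀ x, 0 < x → 0 ≤ f x)
    (hint : IntegrableOn f (Ioi 0)) :
    ∃ C : ℝ, 0 < C ∧ ∀ s : ℝ, ∫ x, Real.exp (-(s * x)) ∂P =
      C * ∫ x in Ioi (0:ℝ), Real.exp (-(s * x)) * f x := by
  obtain ⟨_, C, hC, rfl⟩ := h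
  refine ⟨C, hC, fun s => ?_⟩
  have hm : AEMeasurable (fun x => ENNReal.ofReal (C * f x)) (volume.restrict (Ioi 0)) :=
    (hint.aemeasurable.const_mul C).ennreal_ofReal
  rw [integral_withDensity_eq_integral_toReal_smul₀ hm
    (Eventually.of_forall fun x => ENNReal.ofReal_lt_top), ← integral_const_mul]
  apply setIntegral_congr_fun measurableSet_Ioi
  intro x hx
  have h1 := hf x hx
  simp only [smul_eq_mul]
  rw [ENNReal.toReal_ofReal (by positivity)]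
  ring

/-- classification for a law whose Laplace transform is hypergeometric -/
theorem ggc_iff {α β γ b c M : ℝ} (hα : 0 < α) (hβ : 0 < β) (hγ : 0 < γ) (hc0 : 0 < c)
    (hcb : c < b) (hM : 0 < M) {f : ℝ → ℝ} (hf : ∀ x, 0 < x → 0 ≤ f x)
    (hL : ∀ s : ℝ, 0 ≤ s → IntegrableOn (fun x => Real.exp (-(s * x)) * f x) (Ioi 0) ∧
      ∫ x in Ioi (0 : ℝ), Real.exp (-(s * x)) * f x =
        M * ((b + s) ^ (-(2 * β)) * F α β γ (c ^ 2 / (b + s) ^ 2)))
    (hcase : (α ≤ γ ∧ β ≤ γ) ∨ γ < α ∨ (α < γ ∧ γ < β)) :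
    (∃ P, IsLawOf f P) ∧ ∀ P, IsLawOf f P → (IsGGC P ↔ α ≤ γ ∧ β ≤ γ) := by
  have hint : IntegrableOn f (Ioi 0) := by
    have h1 := (hL 0 le_rfl).1
    simpa using h1
  have hI : 0 < ∫ x in Ioi (0:ℝ), f x := by
    have h1 := (hL 0 le_rfl).2
    simp only [zero_mul, neg_zero, Real.exp_zero, one_mul, add_zero] at h1
    rw [h1]
    have hb : 0 < b := hc0.trans hcb
    have h2 : 0 < F α β γ (c ^ 2 / b ^ 2) := by
      apply F_pos hα hβ hγ (by positivity)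
      rw [div_lt_one (by positivity)]
      nlinarith
    positivity
  refine ⟨exists_law hf hint hI, fun P hP => ?_⟩
  obtain ⟨C, hC, hCP⟩ := law_laplace hP hf hint
  have hLP : ∀ s : ℝ, 0 ≤ s → ∫ x, Real.exp (-(s * x)) ∂P =
      (C * M) * ((b + s) ^ (-(2 * β)) * F α β γ (c ^ 2 / (b + s) ^ 2)) := by
    intro s hs
    rw [hCP s, (hL s hs).2]
    ring
  constructor
  · intro hG
    by_contra hcon
    rcases hcase with h | h
    · exact hcon h
    · exact not_ggc hα hβ hγ hc0 hcb (by positivity) h P hLP hG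
  · rintro ⟨h1, h2⟩
    obtain ⟨σ, hσ1, hσ2, hσ3⟩ := stieltjes hα hβ h1 h2
    have hPp : IsProbabilityMeasure P := hP.1
    obtain ⟨U, hU1, hU2, hU3⟩ := ggc_of_rep (M := C * M) hα hβ hγ hc0 hcb (by positivity)
      (L := fun s => ∫ x, Real.exp (-(s * x)) ∂P) hLP (by simp) σ hσ2 hσ3
    refine ⟨0, U, le_rfl, hU1, hU2, fun s hs => ?_⟩
    simpa using hU3 s hs

theorem main_phi {μ ν a b : ℝ} (hμ : -1 < μ) (hμν : 0 < μ + ν) (ha : 0 < a) (hab : a < b) :
    (∃ P, IsLawOf (phi μ ν a b) P) ∧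
      ∀ P, IsLawOf (phi μ ν a b) P → (IsGGC P ↔ ν ≤ μ + 1) := by
  obtain ⟨M, hM, hL⟩ := laplace_phi hμ hμν ha hab
  have hf : ∀ x, 0 < x → 0 ≤ phi μ ν a b x := by
    intro x hx
    have := besselI_nonneg hμ (x := a * x) (by positivity)
    unfold phi
    positivity
  have hcase : (((μ + ν + 1) / 2 ≤ μ + 1 ∧ (μ + ν) / 2 ≤ μ + 1) ∨ μ + 1 < (μ + ν + 1) / 2 ∨
      ((μ + ν + 1) / 2 < μ + 1 ∧ μ + 1 < (μ + ν) / 2)) := by
    rcases le_or_gt ((μ + ν + 1) / 2) (μ + 1) with h | h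
    · exact Or.inl ⟨h, by linarith⟩
    · exact Or.inr (Or.inl h)
  obtain ⟨h1, h2⟩ := ggc_iff (by linarith) (by linarith) (by linarith) ha hab hM hf hL hcase
  refine ⟨h1, fun P hP => (h2 P hP).trans ⟨fun h => by linarith [h.1], fun h => ⟨by linarith, by linarith⟩⟩⟩

theorem main_xi {μ a b : ℝ} (hμ : -1 / 4 < μ) (ha : 0 < a) (hab : 2 * a < b) :
    (∃ P, IsLawOf (xi μ a b) P) ∧
      ∀ P, IsLawOf (xi μ a b) P → (IsGGC P ↔ μ ≤ 1 / 2) := by
  obtain ⟨M, hM, hL⟩ := laplace_xi hμ ha hab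
  have hf : ∀ x, 0 < x → 0 ≤ xi μ a b x := by
    intro x hx
    unfold xi
    positivity
  have hcase : ((μ + 1 / 2 ≤ μ + 1 ∧ 2 * μ + 1 / 2 ≤ μ + 1) ∨ μ + 1 < μ + 1 / 2 ∨
      (μ + 1 / 2 < μ + 1 ∧ μ + 1 < 2 * μ + 1 / 2)) := by
    rcases le_or_gt (2 * μ + 1 / 2) (μ + 1) with h | h
    · exact Or.inl ⟨by linarith, h⟩
    · exact Or.inr (Or.inr ⟨by linarith, h⟩)
  obtain ⟨h1, h2⟩ := ggc_iff (by linarith) (by linarith) (by linarith) (by linarith) hab hM hf hL hcase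
  refine ⟨h1, fun P hP => (h2 P hP).trans ⟨fun h => by linarith [h.2], fun h => ⟨by linarith, by linarith⟩⟩⟩

end Pool.Agent.H967.GGC
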