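import Pool.Agent.H967.GGC.TZ
import Pool.Agent.H967.GGC.Main

set_option autoImplicit false

namespace Pool.Agent.H967.GGC

alias sd_iff := sd_iff_proof

end Pool.Agent.H967.GGC
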