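import Pool.Agent.H967.GGC.Basic2
import Pool.Graph.R_seed8.R906.KBKap

set_option autoImplicit false

/-!
# The threshold for self-decomposability: leaf P1
-/

namespace Pool.Agent.H967.GGC
open MeasureTheory Filter Topology Set
open Pool.Agent.R906.KB (Chain JArr eA phA chainA)

theorem KK_eq_phA_hc (p c : ℝ) (j : ℕ) : hc ((p + 1) / 2) (p / 2) c j = Pool.Agent.R906.KB.co p c j := by
  induction j with
  | zero => rw [hc_zero, Pool.Agent.R906.KB.co_zero]
  | succ j ih =>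
    rw [hc_succ, Pool.Agent.R906.KB.co_succ', ih]
    congr 1
    rw [show ((p + 1) / 2 + (j : ℝ)) * (p / 2 + j) = (p + 2 * j) * (p + 2 * j + 1) / 4 by ring,
      div_div]
    congr 1
    ring

theorem KK_eq_phA_kap (p c : ℝ) (j : ℕ) :
    kap ((p + 1) / 2) (p / 2) c j = Pool.Agent.R906.KB.kap p c j := by
  have h1 : PowerSeries.mk (hc ((p + 1) / 2) (p / 2) c) = Pool.Agent.R906.KB.EE p c := by
    ext n
    rw [PowerSeries.coeff_mk, Pool.Agent.R906.KB.coeff_EE, KK_eq_phA_hc]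
  have h2 : PowerSeries.mk (hc ((p + 1) / 2) (p / 2 + 1) c) = Pool.Agent.R906.KB.EE (p + 1) c := by
    ext n
    rw [PowerSeries.coeff_mk, Pool.Agent.R906.KB.coeff_EE, ← KK_eq_phA_hc, hc_comm,
      show p / 2 + 1 = (p + 1 + 1) / 2 by ring]
  unfold kap Pool.Agent.R906.KB.kap Pool.Agent.R906.KB.KK
  rw [h1, h2, mul_assoc (PowerSeries.C p), PowerSeries.coeff_C_mul]
  ring

/-- P1 (`KB.kap` is `Pool.Agent.R906.KB.kap`) -/
theorem KK_eq_phA_proof {p c : ℝ} (hp : 0 < p) (hc' : 0 < c) (x : ℝ) :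
    KK ((p + 1) / 2) (p / 2) c x = (p + (p + 1 - 2 * c)) * Real.cosh x - (p + 1 - 2 * c) *
      ∑' j : ℕ, PowerSeries.coeff j (phA p c 0) * (x ^ (2 * j) / ((2 * j).factorial : ℝ)) := by
  obtain ⟨R, hR, he⟩ := Pool.Agent.R906.KB.eA_bound p hc'
  have hγ := (chainA (p := p) hc').bound hR he
  have hsγ : Summable fun j => PowerSeries.coeff j (phA p c 0) * (x ^ (2 * j) / ((2 * j).factorial : ℝ)) :=
    Pool.Agent.R906.KB.summ_fact' (M := 2 ^ (0 + 1)) (S := 4 * R) (fun j => hγ j 0) x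
  have hcosh := Real.hasSum_cosh x
  have h1 := (hcosh.mul_left (p + (p + 1 - 2 * c))).sub (hsγ.hasSum.mul_left (p + 1 - 2 * c))
  rw [← h1.tsum_eq]
  unfold KK
  apply tsum_congr
  intro j
  rw [KK_eq_phA_kap, Pool.Agent.R906.KB.kap_A p hc']
  ring

end Pool.Agent.H967.GGC
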