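import Pool.Agent.H967.GGC.Basic2
import Pool.Graph.R_seed8.R906.KBKap

set_option autoImplicit false

/-!
# P2A: lower bound from a Jacobi moment sequence, case A (helper260)
-/

namespace Pool.Agent.H967.GGC
open MeasureTheory Filter Topology Set
open Pool.Agent.R906.KB (Chain JArr eA phA chainA)

theorem caseA_lower_proof_ker (t z : ℝ) :
    1 + t ^ 2 / 2 * z ≤ ∑' j : ℕ, t ^ (2 * j) / ((2 * j).factorial : ℝ) * z ^ j := by
  have hsum : Summable fun j : ℕ => t ^ (2 * j) / ((2 * j).factorial : ℝ) * z ^ j := by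
    apply Summable.of_norm_bounded (Pool.Agent.R906.KB.summ_fact t |z|)
    intro j
    rw [Real.norm_eq_abs, abs_mul, abs_pow]
  by_cases h0 : 0 ≤ z
  · have h1 := hsum.sum_le_tsum (Finset.range 2) (fun j _ => by
      have h2 : 0 ≤ t ^ (2 * j) / ((2 * j).factorial : ℝ) := by
        rw [pow_mul]; positivity
      exact mul_nonneg h2 (pow_nonneg h0 j))
    refine le_trans (le_of_eq ?_) h1
    simp [Finset.sum_range_succ]
  · have hth : z = - (√(-z)) ^ 2 := by rw [Real.sq_sqrt (by linarith)]; ring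
    have h1 := Real.hasSum_cos (√(-z) * t)
    have h2 : ∑' j : ℕ, t ^ (2 * j) / ((2 * j).factorial : ℝ) * z ^ j =
        Real.cos (√(-z) * t) := by
      rw [← h1.tsum_eq]
      apply tsum_congr
      intro j
      conv_lhs => rw [hth]
      rw [mul_pow, neg_pow, ← pow_mul]
      ring
    rw [h2]
    refine le_trans (le_of_eq ?_) (Real.one_sub_sq_div_two_le_cos (x := √(-z) * t))
    rw [mul_pow, Real.sq_sqrt (by linarith)]
    ring

theorem caseA_lower_proof_split (t : ℝ) (u : ℕ → ℝ)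
    (hu : Summable fun j : ℕ => t ^ (2 * j) / ((2 * j).factorial : ℝ) * u j) :
    ∑' j : ℕ, (if j < 2 then 0 else -(t ^ (2 * j) / ((2 * j).factorial : ℝ))) * u j =
      (u 0 + t ^ 2 / 2 * u 1) - ∑' j : ℕ, t ^ (2 * j) / ((2 * j).factorial : ℝ) * u j := by
  have h1 : HasSum (fun j : ℕ => if j < 2 then t ^ (2 * j) / ((2 * j).factorial : ℝ) * u j else 0)
      (∑ j ∈ Finset.range 2, if j < 2 then t ^ (2 * j) / ((2 * j).factorial : ℝ) * u j else 0) :=
    hasSum_sum_of_ne_finset_zero fun j hj => if_neg (by simpa using hj)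
  have h2 : (∑ j ∈ Finset.range 2,
      if j < 2 then t ^ (2 * j) / ((2 * j).factorial : ℝ) * u j else 0) =
      u 0 + t ^ 2 / 2 * u 1 := by
    simp [Finset.sum_range_succ]
  rw [h2] at h1
  have h3 := h1.sub hu.hasSum
  rw [← h3.tsum_eq]
  refine tsum_congr fun j => ?_
  split_ifs <;> ring

/-- P2A -/
theorem caseA_lower_proof {e : ℕ → ℝ} {ff : ℕ → PowerSeries ℝ} (h : Chain e ff) {R : ℝ}
    (he : ∀ i, |e i| ≤ R) (hb : ∀ k, 0 ≤ e (2 * k) * e (2 * k + 1)) (t : ℝ) :
    1 + e 0 * (t ^ 2 / 2) ≤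
      ∑' j : ℕ, PowerSeries.coeff j (ff 0) * (t ^ (2 * j) / ((2 * j).factorial : ℝ)) := by
  have hR : 0 ≤ R := (abs_nonneg _).trans (he 0)
  have hJ := h.jA
  have haA : ∀ k, |Pool.Agent.R906.KB.aA e k| ≤ 2 * R := by
    intro k
    cases k with
    | zero => simp only [Pool.Agent.R906.KB.aA]; linarith [he 0]
    | succ k =>
      simp only [Pool.Agent.R906.KB.aA]
      exact (abs_add_le _ _).trans (by linarith [he (2 * k + 1), he (2 * k + 2)])
  have hsq : ∀ k, √(e (2 * k) * e (2 * k + 1)) ≤ 2 * R := fun k =>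
    (Pool.Agent.R906.KB.sqrt_mul_le (he _) (he _)).trans (by linarith)
  have hform : ∀ (N : ℕ) (x : ℕ → ℝ),
      ∑ k ∈ Finset.range (N + 1), Pool.Agent.R906.KB.aA e k * x k ^ 2 +
      2 * ∑ k ∈ Finset.range N, √(e (2 * k) * e (2 * k + 1)) * x k * x (k + 1) ≤
        (3 * (2 * R)) * ∑ k ∈ Finset.range (N + 1), x k ^ 2 := fun N x =>
    (le_abs_self _).trans (Pool.Agent.R906.KB.form_low haA hsq N x)
  have hsumc : Summable fun j : ℕ =>
      |if j < 2 then (0 : ℝ) else -(t ^ (2 * j) / ((2 * j).factorial : ℝ))| * (3 * (2 * R)) ^ j := by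
    refine Summable.of_nonneg_of_le (fun j => by positivity) (fun j => ?_)
      (Pool.Agent.R906.KB.summ_fact t (3 * (2 * R)))
    refine mul_le_mul_of_nonneg_right ?_ (by positivity)
    split_ifs
    · rw [abs_zero]; exact abs_nonneg _
    · rw [abs_neg]
  have hz : ∀ z : ℝ, Summable fun j : ℕ => t ^ (2 * j) / ((2 * j).factorial : ℝ) * z ^ j := by
    intro z
    apply Summable.of_norm_bounded (Pool.Agent.R906.KB.summ_fact t |z|)
    intro j
    rw [Real.norm_eq_abs, abs_mul, abs_pow]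
  have hmom := Pool.Agent.R906.KB.moment_le hJ hb haA hsq hform
    (c := fun j => if j < 2 then 0 else -(t ^ (2 * j) / ((2 * j).factorial : ℝ))) hsumc (M := 0)
    (fun z _ _ => by
      rw [caseA_lower_proof_split t (fun j => z ^ j) (hz z)]
      have h1 := caseA_lower_proof_ker t z
      simp only [pow_zero, pow_one]
      linarith)
  obtain ⟨R', hR', he'⟩ : ∃ R', 0 < R' ∧ ∀ i, |e i| ≤ R' :=
    ⟨R + 1, by linarith, fun i => (he i).trans (by linarith)⟩
  have hsum : Summable fun j : ℕ =>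
      PowerSeries.coeff j (ff 0) * (t ^ (2 * j) / ((2 * j).factorial : ℝ)) :=
    Pool.Agent.R906.KB.summ_fact' (M := 2 ^ (0 + 1)) (S := 4 * R')
      (fun j => h.bound hR' he' j 0) t
  have hsum' : Summable fun j : ℕ =>
      t ^ (2 * j) / ((2 * j).factorial : ℝ) * PowerSeries.coeff j (ff 0) :=
    hsum.congr fun j => mul_comm _ _
  have hs0 := hJ.zz
  have hs1 := hJ.sz 0
  have hzs := hJ.zs 0
  simp only [pow_zero, one_mul, mul_zero] at hmom hs0 hs1
  rw [hs0] at hs1
  have hs1' : PowerSeries.coeff 1 (ff 0) = e 0 := by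
    rw [zero_add] at hs1 hzs
    rw [hs1]
    rw [hzs]
    simp [Pool.Agent.R906.KB.aA]
  rw [caseA_lower_proof_split t (fun j => PowerSeries.coeff j (ff 0)) hsum'] at hmom
  simp only [hs0, hs1'] at hmom
  have e1 : ∑' j : ℕ, t ^ (2 * j) / ((2 * j).factorial : ℝ) * PowerSeries.coeff j (ff 0) =
      ∑' j : ℕ, PowerSeries.coeff j (ff 0) * (t ^ (2 * j) / ((2 * j).factorial : ℝ)) :=
    tsum_congr fun j => mul_comm _ _
  rw [e1] at hmom
  linarith

end Pool.Agent.H967.GGC
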