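import Pool.Agent.H967.GGC.Basic2
import Pool.Graph.R_seed8.R906.KBKap

set_option autoImplicit false

/-!
# The threshold for self-decomposability: leaf P2B (helper990 for helper967)

Adapted from `caseA` and `caseB` of the library module `R906.KBKey`.
-/

namespace Pool.Agent.H967.GGC
open MeasureTheory Filter Topology Set
open Pool.Agent.R906.KB (Chain JArr eA phA chainA)

theorem caseB_lower_ker1 (t : ℝ) :
    ∑' j : ℕ, t ^ (2 * j + 2) / ((2 * j + 2).factorial : ℝ) = Real.cosh t - 1 := by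
  have h := Real.hasSum_cosh t
  have h1 := h.summable.tsum_eq_zero_add
  rw [h.tsum_eq] at h1
  have e : t ^ (2 * 0) / ((2 * 0).factorial : ℝ) = 1 := by simp
  rw [e] at h1
  have e2 : ∑' j : ℕ, t ^ (2 * (j + 1)) / ((2 * (j + 1)).factorial : ℝ) =
      ∑' j : ℕ, t ^ (2 * j + 2) / ((2 * j + 2).factorial : ℝ) := by
    apply tsum_congr
    intro j
    rw [show 2 * (j + 1) = 2 * j + 2 by ring]
  rw [e2] at h1
  linarith

theorem caseB_lower_ker2 (t z : ℝ) (h0 : 0 ≤ z) (h1 : z ≤ 1) :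
    ∑' j : ℕ, t ^ (2 * j + 2) / ((2 * j + 2).factorial : ℝ) * z ^ j ≤ Real.cosh t - 1 := by
  rw [← caseB_lower_ker1]
  have hs1 : Summable fun j : ℕ => t ^ (2 * j + 2) / ((2 * j + 2).factorial : ℝ) := by
    have := Pool.Agent.R906.KB.kerB_summ t 1
    simpa using this
  apply Summable.tsum_le_tsum _ (Pool.Agent.R906.KB.kerB_summ t z) hs1
  intro j
  have h2 : 0 ≤ t ^ (2 * j + 2) / ((2 * j + 2).factorial : ℝ) := by
    rw [show 2 * j + 2 = 2 * (j + 1) by ring, pow_mul]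
    positivity
  have h3 : z ^ j ≤ 1 := pow_le_one₀ h0 h1
  calc t ^ (2 * j + 2) / ((2 * j + 2).factorial : ℝ) * z ^ j ≤
      t ^ (2 * j + 2) / ((2 * j + 2).factorial : ℝ) * 1 := mul_le_mul_of_nonneg_left h3 h2
    _ = _ := mul_one _

theorem caseB_lower_ker3 (t : ℝ) : t ^ 2 / 2 ≤ Real.cosh t - 1 := by
  have h := caseB_lower_ker2 t 0 le_rfl zero_le_one
  have h1 : ∑' j : ℕ, t ^ (2 * j + 2) / ((2 * j + 2).factorial : ℝ) * (0 : ℝ) ^ j = t ^ 2 / 2 := by
    rw [tsum_eq_single 0]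
    · simp
    · intro j hj
      rw [zero_pow hj, mul_zero]
  rwa [h1] at h

theorem caseB_lower_ker (t z : ℝ) (h1 : z ≤ 1) :
    ∑' j : ℕ, t ^ (2 * j + 2) / ((2 * j + 2).factorial : ℝ) * z ^ j ≤ Real.cosh t - 1 := by
  by_cases h0 : 0 ≤ z
  · exact caseB_lower_ker2 t z h0 h1
  · push Not at h0
    have hsq : (√(-z)) ^ 2 = -z := Real.sq_sqrt (by linarith)
    have hth : z = - (√(-z)) ^ 2 := by rw [hsq]; ring
    have hsum : Summable fun j : ℕ => t ^ (2 * j) / ((2 * j).factorial : ℝ) * z ^ j := by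
      apply Summable.of_norm_bounded (Pool.Agent.R906.KB.summ_fact t |z|)
      intro j
      rw [Real.norm_eq_abs, abs_mul, abs_pow]
    have h1 := Real.hasSum_cos (√(-z) * t)
    have h2 : ∑' j : ℕ, t ^ (2 * j) / ((2 * j).factorial : ℝ) * z ^ j = Real.cos (√(-z) * t) := by
      rw [← h1.tsum_eq]
      apply tsum_congr
      intro j
      conv_lhs => rw [hth]
      rw [mul_pow, neg_pow, ← pow_mul]
      ring
    rw [hsum.tsum_eq_zero_add] at h2
    have h3 : ∑' j : ℕ, t ^ (2 * (j + 1)) / ((2 * (j + 1)).factorial : ℝ) * z ^ (j + 1) =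
        z * ∑' j : ℕ, t ^ (2 * j + 2) / ((2 * j + 2).factorial : ℝ) * z ^ j := by
      rw [← tsum_mul_left]
      apply tsum_congr
      intro j
      rw [show 2 * (j + 1) = 2 * j + 2 by ring]
      ring
    rw [h3] at h2
    simp only [mul_zero, pow_zero, Nat.factorial_zero, Nat.cast_one, div_one, mul_one] at h2
    have h4 := Real.one_sub_sq_div_two_le_cos (x := √(-z) * t)
    rw [mul_pow, hsq] at h4
    have h5 := caseB_lower_ker3 t
    refine le_trans ?_ h5
    by_contra hcon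
    push Not at hcon
    have h6 := mul_lt_mul_of_neg_left hcon h0
    linarith

/-- P2B -/
theorem caseB_lower_proof {e : ℕ → ℝ} {ff : ℕ → PowerSeries ℝ} (h : Chain e ff) {R : ℝ}
    (he : ∀ i, |e i| ≤ R) (hb : ∀ k, 0 ≤ e (2 * k + 1) * e (2 * k + 2)) (he0 : e 0 ≤ 0)
    {δ : ℕ → ℝ} (hδ : ∀ k, 0 < δ k) (hδ0 : δ 0 = 1 - (e 0 + e 1))
    (hδs : ∀ k, δ (k + 1) = 1 - (e (2 * k + 2) + e (2 * k + 3)) -
      e (2 * k + 1) * e (2 * k + 2) / δ k) (t : ℝ) :
    1 + e 0 * (Real.cosh t - 1) ≤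
      ∑' j : ℕ, PowerSeries.coeff j (ff 0) * (t ^ (2 * j) / ((2 * j).factorial : ℝ)) := by
  have hR : 0 ≤ R := (abs_nonneg _).trans (he 0)
  have hJ := h.jB
  have ha : ∀ k, |e (2 * k) + e (2 * k + 1)| ≤ 2 * R := fun k =>
    (abs_add_le _ _).trans (by linarith [he (2 * k), he (2 * k + 1)])
  have hsq : ∀ k, √(e (2 * k + 1) * e (2 * k + 2)) ≤ 2 * R := fun k =>
    (Pool.Agent.R906.KB.sqrt_mul_le (he _) (he _)).trans (by linarith)
  have key : ∀ (N : ℕ) (x : ℕ → ℝ), δ N * x N ^ 2 ≤ ∑ k ∈ Finset.range (N + 1), x k ^ 2 -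
      (∑ k ∈ Finset.range (N + 1), (e (2 * k) + e (2 * k + 1)) * x k ^ 2 +
        2 * ∑ k ∈ Finset.range N, √(e (2 * k + 1) * e (2 * k + 2)) * x k * x (k + 1)) := by
    intro N x
    induction N with
    | zero =>
      simp [hδ0]
      linarith
    | succ N ih =>
      rw [Finset.sum_range_succ (fun k => x k ^ 2) (N + 1),
        Finset.sum_range_succ (fun k => (e (2 * k) + e (2 * k + 1)) * x k ^ 2) (N + 1),
        Finset.sum_range_succ (fun k => √(e (2 * k + 1) * e (2 * k + 2)) * x k * x (k + 1)) N]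
      have h1 := hδs N
      have h2 := hδ N
      obtain ⟨q, hq⟩ : ∃ q, q = √(e (2 * N + 1) * e (2 * N + 2)) := ⟨_, rfl⟩
      have h3 : q ^ 2 = e (2 * N + 1) * e (2 * N + 2) := by rw [hq]; exact Real.sq_sqrt (hb N)
      have h4 : e (2 * (N + 1)) + e (2 * (N + 1) + 1) = 1 - δ (N + 1) - q ^ 2 / δ N := by
        rw [h1, h3, show 2 * (N + 1) = 2 * N + 2 by ring, show 2 * N + 2 + 1 = 2 * N + 3 by ring]
        ring
      rw [h4, ← hq]
      have h5 : 0 ≤ δ N * (x N - q / δ N * x (N + 1)) ^ 2 := by positivity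
      have h6 : δ N * (x N - q / δ N * x (N + 1)) ^ 2 =
          δ N * x N ^ 2 - 2 * (q * x N * x (N + 1)) + q ^ 2 / δ N * x (N + 1) ^ 2 := by
        field_simp
        ring
      have h7 : (1 - δ (N + 1) - q ^ 2 / δ N) * x (N + 1) ^ 2 =
          x (N + 1) ^ 2 - δ (N + 1) * x (N + 1) ^ 2 - q ^ 2 / δ N * x (N + 1) ^ 2 := by ring
      rw [h7]
      linarith
  have hform : ∀ (N : ℕ) (x : ℕ → ℝ),
      ∑ k ∈ Finset.range (N + 1), (e (2 * k) + e (2 * k + 1)) * x k ^ 2 +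
      2 * ∑ k ∈ Finset.range N, √(e (2 * k + 1) * e (2 * k + 2)) * x k * x (k + 1) ≤
        1 * ∑ k ∈ Finset.range (N + 1), x k ^ 2 := by
    intro N x
    have h1 := key N x
    have h2 : 0 ≤ δ N * x N ^ 2 := mul_nonneg (hδ N).le (sq_nonneg _)
    linarith
  have hsumc : Summable fun j : ℕ =>
      |t ^ (2 * j + 2) / ((2 * j + 2).factorial : ℝ)| * (3 * (2 * R)) ^ j := by
    have := (Pool.Agent.R906.KB.kerB_summ t (3 * (2 * R))).norm
    refine this.congr fun j => ?_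
    rw [norm_mul, Real.norm_eq_abs, Real.norm_eq_abs, abs_pow,
      abs_of_nonneg (by positivity : 0 ≤ 3 * (2 * R))]
  have hmom := Pool.Agent.R906.KB.moment_le hJ hb ha hsq hform
    (c := fun j => t ^ (2 * j + 2) / ((2 * j + 2).factorial : ℝ)) hsumc
    (M := Real.cosh t - 1) (fun z hz _ => caseB_lower_ker t z hz)
  have hR' : 0 < R + 1 := by linarith
  have he' : ∀ i, |e i| ≤ R + 1 := fun i => (he i).trans (by linarith)
  have hsum : Summable fun j : ℕ =>
      PowerSeries.coeff j (ff 0) * (t ^ (2 * j) / ((2 * j).factorial : ℝ)) :=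
    Pool.Agent.R906.KB.summ_fact' (M := 2 ^ (0 + 1)) (S := 4 * (R + 1))
      (fun j => h.bound hR' he' j 0) t
  rw [hsum.tsum_eq_zero_add, h.coeff_zero_zero]
  have h1 : ∑' j : ℕ, PowerSeries.coeff (j + 1) (ff 0) *
      (t ^ (2 * (j + 1)) / ((2 * (j + 1)).factorial : ℝ)) =
      e 0 * ∑' j : ℕ, t ^ (2 * j + 2) / ((2 * j + 2).factorial : ℝ) * PowerSeries.coeff j (ff 1) := by
    rw [← tsum_mul_left]
    apply tsum_congr
    intro j
    rw [h.coeff_s0, show 2 * (j + 1) = 2 * j + 2 by ring]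
    ring
  rw [h1]
  have h2 : ∑' j : ℕ, t ^ (2 * j + 2) / ((2 * j + 2).factorial : ℝ) * PowerSeries.coeff j (ff 1) ≤
      Real.cosh t - 1 := by
    refine le_trans (le_of_eq ?_) hmom
    apply tsum_congr
    intro j
    simp only [pow_zero, one_mul, mul_zero, zero_add]
  have h3 := mul_le_mul_of_nonpos_left h2 he0
  simp only [mul_zero, pow_zero, Nat.factorial_zero, Nat.cast_one, div_one, mul_one]
  linarith

end Pool.Agent.H967.GGC
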