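import Pool.Agent.H967.GGC.Basic2
import Pool.Graph.R_seed8.R906.KBKap

set_option autoImplicit false

/-!
# P2C: the pivots of case B (helper134 for helper967)
-/

namespace Pool.Agent.H967.GGC
open MeasureTheory Filter Topology Set
open Pool.Agent.R906.KB (Chain JArr eA phA chainA)

theorem pivots_B_proof {p c : ℝ} (hp : 0 < p) (hc' : 0 < c) :
    ∃ δ : ℕ → ℝ, (∀ k, 0 < δ k) ∧ δ 0 = 1 - (eA p c 0 + eA p c 1) ∧
      ∀ k, δ (k + 1) = 1 - (eA p c (2 * k + 2) + eA p c (2 * k + 3)) -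
        eA p c (2 * k + 1) * eA p c (2 * k + 2) / δ k := by
  refine ⟨fun k => (p + 2 * k) * (p + 2 * k + 1) / (4 * (c + 2 * k) * (c + 2 * k + 1)), ?_, ?_, ?_⟩
  · intro k
    positivity
  · have e0 : eA p c 0 = (2 * c - p) / (2 * c) := rfl
    have e1 : eA p c 1 = (p + (0 : ℕ)) * (2 * c - p + 1 + (0 : ℕ)) / (4 * (c + (0 : ℕ)) * (c + (0 : ℕ) + 1)) := rfl
    rw [e0, e1]
    simp only [Nat.cast_zero, mul_zero, add_zero]
    field_simp
    ring
  · intro k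
    have e1 : eA p c (2 * k + 1) = (p + (2 * k : ℕ)) * (2 * c - p + 1 + (2 * k : ℕ)) /
        (4 * (c + (2 * k : ℕ)) * (c + (2 * k : ℕ) + 1)) := rfl
    have e2 : eA p c (2 * k + 2) = (p + (2 * k + 1 : ℕ)) * (2 * c - p + 1 + (2 * k + 1 : ℕ)) /
        (4 * (c + (2 * k + 1 : ℕ)) * (c + (2 * k + 1 : ℕ) + 1)) := rfl
    have e3 : eA p c (2 * k + 3) = (p + (2 * k + 2 : ℕ)) * (2 * c - p + 1 + (2 * k + 2 : ℕ)) /
        (4 * (c + (2 * k + 2 : ℕ)) * (c + (2 * k + 2 : ℕ) + 1)) := rfl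
    rw [e1, e2, e3]
    push_cast
    have h0 : c + 2 * (k : ℝ) ≠ 0 := by positivity
    have h1 : c + 2 * (k : ℝ) + 1 ≠ 0 := by positivity
    have h2 : c + 2 * (k : ℝ) + 2 ≠ 0 := by positivity
    have h3 : c + 2 * (k : ℝ) + 3 ≠ 0 := by positivity
    have h5 : p + 2 * (k : ℝ) ≠ 0 := by positivity
    have h6 : p + 2 * (k : ℝ) + 1 ≠ 0 := by positivity
    rw [show c + (2 * (k : ℝ) + 1) + 1 = c + 2 * k + 2 by ring,
      show c + (2 * (k : ℝ) + 1) = c + 2 * k + 1 by ring,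
      show c + (2 * (k : ℝ) + 2) + 1 = c + 2 * k + 3 by ring,
      show c + (2 * (k : ℝ) + 2) = c + 2 * k + 2 by ring,
      show c + 2 * ((k : ℝ) + 1) + 1 = c + 2 * k + 3 by ring,
      show c + 2 * ((k : ℝ) + 1) = c + 2 * k + 2 by ring]
    field_simp
    ring

end Pool.Agent.H967.GGC
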