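import Pool.Agent.H967.GGC.Basic2

set_option autoImplicit false

/-! # P3B: Gauss contiguous relation and the limit at `z = 1` (helper252, for helper967) -/

namespace Pool.Agent.H967.GGC
open MeasureTheory Filter Topology Set

theorem th_ratio_tendsto_beta (α β γ : ℝ) (hγ : 0 < γ) (n : ℕ) :
    β * hc α (β + 1) γ n = (β + n) * hc α β γ n := by
  induction n with
  | zero => simp [hc_zero]
  | succ n ih =>
    have h1 : (γ + n) ≠ 0 := by positivity
    have h2 : ((n : ℝ) + 1) ≠ 0 := by positivity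
    rw [hc_succ, hc_succ, ← mul_assoc, ih]
    push_cast
    field_simp
    ring

/-- the coefficients of the remainder -/
noncomputable def th_ratio_tendsto_w (α β γ : ℝ) (m : ℕ) : ℝ :=
  (β + m) - m * (γ + m - 1) / (α + m - 1) - (α + β - γ)

theorem th_ratio_tendsto_w_tendsto {α : ℝ} (β γ : ℝ) (hα : 0 < α) :
    Tendsto (th_ratio_tendsto_w α β γ) atTop (𝓝 0) := by
  have h1 : Tendsto (fun m : ℕ => (γ - α) * (α - 1) / (α - 1 + m)) atTop (𝓝 0) :=
    Tendsto.div_atTop tendsto_const_nhds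
      (tendsto_atTop_add_const_left _ _ tendsto_natCast_atTop_atTop)
  refine h1.congr' ?_
  filter_upwards [eventually_ge_atTop 1] with m hm
  have hm' : (1 : ℝ) ≤ m := by exact_mod_cast hm
  have h2 : α + m - 1 ≠ 0 := by
    have : 0 < α + m - 1 := by linarith
    exact this.ne'
  have h3 : α - 1 + m ≠ 0 := by
    have : α - 1 + m = α + m - 1 := by ring
    rw [this]
    exact h2
  unfold th_ratio_tendsto_w
  rw [div_eq_iff h3]
  have h4 : (m : ℝ) * (γ + m - 1) / (α + m - 1) * (α - 1 + m) = m * (γ + m - 1) := by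
    rw [show α - 1 + (m : ℝ) = α + m - 1 by ring, div_mul_cancel₀ _ h2]
  linear_combination h4

theorem th_ratio_tendsto_G {α β γ : ℝ} (hα : 0 < α) (hβ : 0 < β) (hγ : 0 < γ) {z : ℝ}
    (hz0 : 0 ≤ z) (hz : z < 1) :
    HasSum (fun m : ℕ => hc α β γ m * th_ratio_tendsto_w α β γ m * z ^ m)
      (β * (1 - z) * F α (β + 1) γ z - (α + β - γ) * F α β γ z) := by
  have hz' : |z| < 1 := by rwa [abs_of_nonneg hz0]
  have hs : HasSum (fun n : ℕ => hc α β γ n * z ^ n) (F α β γ z) :=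
    (summable_hc hα hβ hγ hz').hasSum
  have hs' : HasSum (fun n : ℕ => hc α (β + 1) γ n * z ^ n) (F α (β + 1) γ z) :=
    (summable_hc hα (by linarith) hγ hz').hasSum
  have s1 : HasSum (fun m : ℕ => (β + m) * hc α β γ m * z ^ m) (β * F α (β + 1) γ z) := by
    refine (hs'.mul_left β).congr_fun ?_
    intro m
    rw [← mul_assoc, th_ratio_tendsto_beta α β γ hγ m]
  have s2 : HasSum (fun m : ℕ => hc α β γ m * (m * (γ + m - 1) / (α + m - 1)) * z ^ m)
      (z * (β * F α (β + 1) γ z)) := by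
    refine (hasSum_nat_add_iff' 1).1 ?_
    rw [Finset.sum_range_one]
    have h0 : hc α β γ 0 * (((0 : ℕ) : ℝ) * (γ + ((0 : ℕ) : ℝ) - 1) / (α + ((0 : ℕ) : ℝ) - 1)) *
        z ^ 0 = 0 := by
      simp
    rw [h0, sub_zero]
    refine (s1.mul_left z).congr_fun ?_
    intro m
    have h1 : (γ + m) ≠ 0 := by positivity
    have h2 : ((m : ℝ) + 1) ≠ 0 := by positivity
    have h3 : (α + m) ≠ 0 := by positivity
    have e1 : γ + (((m + 1 : ℕ) : ℝ)) - 1 = γ + m := by push_cast; ring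
    have e2 : α + (((m + 1 : ℕ) : ℝ)) - 1 = α + m := by push_cast; ring
    rw [e1, e2, hc_succ, pow_succ]
    push_cast
    field_simp
  have s3 := hs.mul_left (α + β - γ)
  have s4 := (s1.sub s2).sub s3
  have e : β * (1 - z) * F α (β + 1) γ z - (α + β - γ) * F α β γ z =
      β * F α (β + 1) γ z - z * (β * F α (β + 1) γ z) - (α + β - γ) * F α β γ z := by ring
  rw [e]
  refine s4.congr_fun ?_
  intro m
  unfold th_ratio_tendsto_w
  ring

theorem th_ratio_tendsto_low {α β γ : ℝ} (hα : 0 < α) (hβ : 0 < β) (hγ : 0 < γ)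
    (h : γ < α + β) (n : ℕ) : hc α β γ 1 * (1 / ((n : ℝ) + 1)) ≤ hc α β γ (n + 1) := by
  have key : ∀ n : ℕ, hc α β γ 1 ≤ ((n : ℝ) + 1) * hc α β γ (n + 1) := by
    intro n
    induction n with
    | zero => simp
    | succ n ih =>
      refine ih.trans ?_
      have hp := hc_pos hα hβ hγ (n + 1)
      rw [hc_succ α β γ (n + 1)]
      have h1 : 0 < γ + ((n + 1 : ℕ) : ℝ) := by positivity
      have h2 : (0 : ℝ) < ((n + 1 : ℕ) : ℝ) + 1 := by positivity
      have e : (((n + 1 : ℕ) : ℝ) + 1) * (hc α β γ (n + 1) * ((α + ((n + 1 : ℕ) : ℝ)) *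
          (β + ((n + 1 : ℕ) : ℝ)) / ((γ + ((n + 1 : ℕ) : ℝ)) * (((n + 1 : ℕ) : ℝ) + 1)))) =
          hc α β γ (n + 1) * ((α + ((n + 1 : ℕ) : ℝ)) * (β + ((n + 1 : ℕ) : ℝ)) /
            (γ + ((n + 1 : ℕ) : ℝ))) := by
        field_simp
      rw [e, mul_comm]
      refine mul_le_mul_of_nonneg_left ?_ hp.le
      rw [le_div_iff₀ h1]
      push_cast
      have h3 : 0 < α * β := mul_pos hα hβ
      have h4 : 0 ≤ (α + β - γ) * ((n : ℝ) + 1) := mul_nonneg (by linarith) (by positivity)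
      nlinarith
  have h5 := key n
  rw [mul_one_div, div_le_iff₀ (by positivity)]
  linarith

theorem th_ratio_tendsto_F {α β γ : ℝ} (hα : 0 < α) (hβ : 0 < β) (hγ : 0 < γ) (h : γ < α + β) :
    Tendsto (F α β γ) (𝓝[<] 1) atTop := by
  rw [tendsto_atTop]
  intro M
  have h1 := hc_pos hα hβ hγ 1
  have h2 : Tendsto (fun N : ℕ => hc α β γ 1 * ∑ i ∈ Finset.range N, 1 / ((i : ℝ) + 1)) atTop
      atTop := (Real.tendsto_sum_range_one_div_nat_succ_atTop).const_mul_atTop h1
  obtain ⟨N, hN⟩ := (h2.eventually_gt_atTop M).exists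
  have h3 : M < ∑ i ∈ Finset.range N, hc α β γ (i + 1) * (1 : ℝ) ^ (i + 1) := by
    refine hN.trans_le ?_
    rw [Finset.mul_sum]
    refine Finset.sum_le_sum fun i _ => ?_
    rw [one_pow, mul_one]
    exact th_ratio_tendsto_low hα hβ hγ h i
  have hcont : Continuous fun z : ℝ => ∑ i ∈ Finset.range N, hc α β γ (i + 1) * z ^ (i + 1) := by
    fun_prop
  have h4 : ∀ᶠ z : ℝ in 𝓝 1, M < ∑ i ∈ Finset.range N, hc α β γ (i + 1) * z ^ (i + 1) :=
    hcont.continuousAt.eventually (lt_mem_nhds h3)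
  have h5 : ∀ᶠ z : ℝ in 𝓝 (1 : ℝ), 0 < z := lt_mem_nhds one_pos
  filter_upwards [nhdsWithin_le_nhds h4, nhdsWithin_le_nhds h5, self_mem_nhdsWithin] with z hz1 hz2
    hz3
  have hz3' : z < 1 := hz3
  have hs := summable_hc hα hβ hγ (z := z) (by rwa [abs_of_pos hz2])
  have h6 := hs.sum_le_tsum (Finset.range (N + 1)) (fun n _ => by
    have := hc_pos hα hβ hγ n
    positivity)
  rw [Finset.sum_range_succ'] at h6
  have h7 : 0 ≤ hc α β γ 0 * z ^ 0 := by
    rw [hc_zero]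
    norm_num
  unfold F
  linarith

theorem th_ratio_tendsto_zero {α β γ : ℝ} (hα : 0 < α) (hβ : 0 < β) (hγ : 0 < γ)
    (h : γ < α + β) :
    Tendsto (fun z => (β * (1 - z) * F α (β + 1) γ z - (α + β - γ) * F α β γ z) / F α β γ z)
      (𝓝[<] 1) (𝓝 0) := by
  rw [Metric.tendsto_nhds]
  intro ε hε
  have hw := th_ratio_tendsto_w_tendsto β γ hα
  rw [Metric.tendsto_atTop] at hw
  obtain ⟨N, hN⟩ := hw (ε / 2) (by positivity)
  obtain ⟨K, hK⟩ : ∃ K : ℝ, K = ∑ m ∈ Finset.range N,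
    hc α β γ m * |th_ratio_tendsto_w α β γ m| := ⟨_, rfl⟩
  have hK0 : 0 ≤ K := by
    rw [hK]
    exact Finset.sum_nonneg fun m _ => mul_nonneg (hc_pos hα hβ hγ m).le (abs_nonneg _)
  have hbig := (th_ratio_tendsto_F hα hβ hγ h).eventually_gt_atTop (2 * K / ε)
  have h5 : ∀ᶠ z : ℝ in 𝓝 (1 : ℝ), 0 < z := lt_mem_nhds one_pos
  filter_upwards [hbig, nhdsWithin_le_nhds h5, self_mem_nhdsWithin] with z hz1 hz2 hz3
  have hz3' : z < 1 := hz3
  have hF := F_pos hα hβ hγ hz2.le hz3'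
  have hs := (summable_hc hα hβ hγ (z := z) (by rwa [abs_of_pos hz2])).hasSum
  have hG := th_ratio_tendsto_G hα hβ hγ hz2.le hz3'
  have hfin : HasSum (fun m : ℕ => if m ∈ Finset.range N then
      hc α β γ m * |th_ratio_tendsto_w α β γ m| else 0) K := by
    have h8 : HasSum (fun m : ℕ => if m ∈ Finset.range N then
        hc α β γ m * |th_ratio_tendsto_w α β γ m| else 0)
        (∑ m ∈ Finset.range N, (if m ∈ Finset.range N then
          hc α β γ m * |th_ratio_tendsto_w α β γ m| else 0)) :=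
      hasSum_sum_of_ne_finset_zero fun m hm => if_neg hm
    have h9 : ∑ m ∈ Finset.range N, (if m ∈ Finset.range N then
        hc α β γ m * |th_ratio_tendsto_w α β γ m| else 0) = K := by
      rw [hK]
      exact Finset.sum_congr rfl fun m hm => if_pos hm
    rwa [h9] at h8
  have hbound : ‖β * (1 - z) * F α (β + 1) γ z - (α + β - γ) * F α β γ z‖ ≤
      K + ε / 2 * F α β γ z := by
    rw [← hG.tsum_eq]
    refine tsum_of_norm_bounded (hfin.add (hs.mul_left (ε / 2))) fun m => ?_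
    have hm := hc_pos hα hβ hγ m
    have hzm : 0 < z ^ m := pow_pos hz2 m
    have hzm1 : z ^ m ≤ 1 := pow_le_one₀ hz2.le hz3'.le
    rw [norm_mul, norm_mul, Real.norm_eq_abs, Real.norm_eq_abs, Real.norm_eq_abs, abs_of_pos hm,
      abs_of_pos hzm]
    split_ifs with hmN
    · have h10 : hc α β γ m * |th_ratio_tendsto_w α β γ m| * z ^ m ≤
          hc α β γ m * |th_ratio_tendsto_w α β γ m| * 1 :=
        mul_le_mul_of_nonneg_left hzm1 (by positivity)
      have h11 : 0 ≤ ε / 2 * (hc α β γ m * z ^ m) := by positivity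
      linarith
    · have h12 : N ≤ m := by
        by_contra hlt
        exact hmN (Finset.mem_range.2 (by omega))
      have h13 := hN m h12
      rw [Real.dist_eq, sub_zero] at h13
      have h14 : |th_ratio_tendsto_w α β γ m| * (hc α β γ m * z ^ m) ≤
          ε / 2 * (hc α β γ m * z ^ m) := mul_le_mul_of_nonneg_right h13.le (by positivity)
      linarith
  rw [Real.dist_eq, sub_zero, abs_div, abs_of_pos hF, div_lt_iff₀ hF]
  rw [Real.norm_eq_abs] at hbound
  rw [div_lt_iff₀ hε] at hz1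
  linarith

theorem th_ratio_tendsto_proof {α β γ : ℝ} (hα : 0 < α) (hβ : 0 < β) (hγ : 0 < γ)
    (h : γ < α + β) :
    Tendsto (fun q : ℝ => (q - 1) * (2 * β * F α (β + 1) γ (1 / q ^ 2) / (q * F α β γ (1 / q ^ 2))))
      (𝓝[>] 1) (𝓝 (α + β - γ)) := by
  have hq : Tendsto (fun q : ℝ => 1 / q ^ 2) (𝓝[>] 1) (𝓝[<] 1) := by
    rw [tendsto_nhdsWithin_iff]
    constructor
    · have h1 : ContinuousAt (fun q : ℝ => 1 / q ^ 2) 1 := by
        refine ContinuousAt.div continuousAt_const (by fun_prop) (by norm_num)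
      have h2 : Tendsto (fun q : ℝ => 1 / q ^ 2) (𝓝 1) (𝓝 (1 / 1 ^ 2)) := h1
      rw [one_pow, div_one] at h2
      exact h2.mono_left nhdsWithin_le_nhds
    · filter_upwards [self_mem_nhdsWithin] with q hq
      have hq' : (1 : ℝ) < q := hq
      have h3 : 1 < q ^ 2 := one_lt_pow₀ hq' (by norm_num)
      exact (div_lt_one (by positivity)).2 h3
  have h1 := (th_ratio_tendsto_zero hα hβ hγ h).comp hq
  have h2 : Tendsto (fun q : ℝ => q / (q + 1)) (𝓝[>] 1) (𝓝 (1 / 2)) := by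
    have h3 : ContinuousAt (fun q : ℝ => q / (q + 1)) 1 := by
      refine ContinuousAt.div continuousAt_id (by fun_prop) (by norm_num)
    have h4 : Tendsto (fun q : ℝ => q / (q + 1)) (𝓝 1) (𝓝 (1 / (1 + 1))) := h3
    have h5 : (1 : ℝ) / (1 + 1) = 1 / 2 := by norm_num
    rw [h5] at h4
    exact h4.mono_left nhdsWithin_le_nhds
  have h6 := (h2.const_mul 2).mul (h1.const_add (α + β - γ))
  have h7 : 2 * (1 / 2) * (α + β - γ + 0) = α + β - γ := by ring
  rw [h7] at h6
  refine h6.congr' ?_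
  filter_upwards [self_mem_nhdsWithin] with q hq
  have hq' : (1 : ℝ) < q := hq
  have hq0 : 0 < q := by linarith
  have h8 : 1 < q ^ 2 := one_lt_pow₀ hq' (by norm_num)
  have h9 : 1 / q ^ 2 < 1 := (div_lt_one (by positivity)).2 h8
  have hF := F_pos hα hβ hγ (z := 1 / q ^ 2) (by positivity) h9
  simp only [Function.comp]
  obtain ⟨A, hA⟩ : ∃ A, A = F α β γ (1 / q ^ 2) := ⟨_, rfl⟩
  obtain ⟨B, hB⟩ : ∃ B, B = F α (β + 1) γ (1 / q ^ 2) := ⟨_, rfl⟩
  rw [← hA] at hF ⊢
  rw [← hB]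
  have hq1 : q + 1 ≠ 0 := by positivity
  field_simp
  ring

end Pool.Agent.H967.GGC
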