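import Mathlib

set_option autoImplicit false

/-!
# P3C: an Abelian argument
-/

namespace Pool.Agent.H967.GGC
open MeasureTheory Filter Topology Set

theorem ge_of_antitone_proof_bound {K R : ℝ → ℝ}
    (hK0 : ∀ x, 0 < x → 0 ≤ K x) (hanti : AntitoneOn (fun x => Real.exp (-x) * K x) (Ioi 0))
    (hKc : Continuous K)
    (hR : ∀ q : ℝ, 1 < q → IntegrableOn (fun x => Real.exp (-(q * x)) * K x) (Ioi 0) ∧
      ∫ x in Ioi (0 : ℝ), Real.exp (-(q * x)) * K x = R q) {x : ℝ} (hx : 0 < x) {q : ℝ}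
    (hq : 1 < q) :
    (q - 1) * R q ≤ (q - 1) * (∫ y in Ioc 0 x, K y) + Real.exp (-x) * K x := by
  obtain ⟨hint, hRq⟩ := hR q hq
  have hq1 : 0 < q - 1 := by linarith
  have hg0 : 0 ≤ Real.exp (-x) * K x := mul_nonneg (Real.exp_pos _).le (hK0 x hx)
  have hsplit : R q = (∫ y in Ioc 0 x, Real.exp (-(q * y)) * K y) +
      ∫ y in Ioi x, Real.exp (-(q * y)) * K y := by
    rw [← hRq, ← Ioc_union_Ioi_eq_Ioi hx.le]
    refine setIntegral_union (Ioc_disjoint_Ioi le_rfl) measurableSet_Ioi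
      (hint.mono_set Ioc_subset_Ioi_self) (hint.mono_set (Ioi_subset_Ioi hx.le))
  have h1 : ∫ y in Ioc 0 x, Real.exp (-(q * y)) * K y ≤ ∫ y in Ioc 0 x, K y := by
    refine setIntegral_mono_on (hint.mono_set Ioc_subset_Ioi_self) ?_ measurableSet_Ioc ?_
    · exact (hKc.integrableOn_Icc (a := 0) (b := x)).mono_set Ioc_subset_Icc_self
    · intro y hy
      have h2 : Real.exp (-(q * y)) ≤ 1 := by
        rw [Real.exp_le_one_iff]
        have : 0 ≤ q * y := mul_nonneg (by linarith) hy.1.le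
        linarith
      calc Real.exp (-(q * y)) * K y ≤ 1 * K y := mul_le_mul_of_nonneg_right h2 (hK0 y hy.1)
        _ = K y := one_mul _
  have hneg : -(q - 1) < 0 := by linarith
  have h2 : ∫ y in Ioi x, Real.exp (-(q * y)) * K y ≤
      ∫ y in Ioi x, (Real.exp (-x) * K x) * Real.exp (-(q - 1) * y) := by
    refine setIntegral_mono_on (hint.mono_set (Ioi_subset_Ioi hx.le)) ?_ measurableSet_Ioi ?_
    · exact (integrableOn_exp_mul_Ioi hneg x).const_mul _
    · intro y hy
      have hy0 : 0 < y := hx.trans hy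
      have h3 : Real.exp (-y) * K y ≤ Real.exp (-x) * K x :=
        hanti (mem_Ioi.2 hx) (mem_Ioi.2 hy0) (le_of_lt hy)
      have h4 : Real.exp (-(q * y)) * K y = (Real.exp (-y) * K y) * Real.exp (-(q - 1) * y) := by
        rw [show -(q * y) = -y + -(q - 1) * y by ring, Real.exp_add]
        ring
      rw [h4]
      exact mul_le_mul_of_nonneg_right h3 (Real.exp_pos _).le
  have h3 : (q - 1) * ∫ y in Ioi x, (Real.exp (-x) * K x) * Real.exp (-(q - 1) * y) ≤
      Real.exp (-x) * K x := by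
    rw [integral_const_mul, integral_exp_mul_Ioi hneg x]
    have h4 : (q - 1) * (Real.exp (-x) * K x * (-Real.exp (-(q - 1) * x) / -(q - 1))) =
        Real.exp (-x) * K x * Real.exp (-(q - 1) * x) := by
      field_simp
    rw [h4]
    have h5 : Real.exp (-(q - 1) * x) ≤ 1 := by
      rw [Real.exp_le_one_iff]
      have : 0 ≤ (q - 1) * x := mul_nonneg hq1.le hx.le
      linarith
    calc Real.exp (-x) * K x * Real.exp (-(q - 1) * x) ≤ Real.exp (-x) * K x * 1 :=
          mul_le_mul_of_nonneg_left h5 hg0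
      _ = Real.exp (-x) * K x := mul_one _
  rw [hsplit, mul_add]
  have h4 := mul_le_mul_of_nonneg_left h1 hq1.le
  have h5 := mul_le_mul_of_nonneg_left h2 hq1.le
  linarith

/-- P3C -/
theorem ge_of_antitone_proof {K R : ℝ → ℝ} {δ : ℝ}
    (hK0 : ∀ x, 0 < x → 0 ≤ K x) (hanti : AntitoneOn (fun x => Real.exp (-x) * K x) (Ioi 0))
    (hKc : Continuous K)
    (hR : ∀ q : ℝ, 1 < q → IntegrableOn (fun x => Real.exp (-(q * x)) * K x) (Ioi 0) ∧
      ∫ x in Ioi (0 : ℝ), Real.exp (-(q * x)) * K x = R q)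
    (hlim : Tendsto (fun q : ℝ => (q - 1) * R q) (𝓝[>] 1) (𝓝 δ)) :
    ∀ x, 0 < x → δ * Real.exp x ≤ K x := by
  intro x hx
  have h1 : Tendsto (fun q : ℝ => (q - 1) * (∫ y in Ioc 0 x, K y) + Real.exp (-x) * K x)
      (𝓝[>] 1) (𝓝 (Real.exp (-x) * K x)) := by
    have h2 : Continuous (fun q : ℝ => (q - 1) * (∫ y in Ioc 0 x, K y) + Real.exp (-x) * K x) := by
      fun_prop
    have h3 := (h2.tendsto 1).mono_left (nhdsWithin_le_nhds (s := Ioi (1 : ℝ)))
    simpa using h3
  have h2 : δ ≤ Real.exp (-x) * K x := by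
    refine le_of_tendsto_of_tendsto hlim h1 ?_
    filter_upwards [self_mem_nhdsWithin] with q hq
    exact ge_of_antitone_proof_bound hK0 hanti hKc hR hx hq
  have h3 := mul_le_mul_of_nonneg_right h2 (Real.exp_pos x).le
  have h4 : Real.exp (-x) * K x * Real.exp x = K x := by
    rw [mul_right_comm, ← Real.exp_add, neg_add_cancel, Real.exp_zero, one_mul]
  rw [h4] at h3
  exact h3

end Pool.Agent.H967.GGC
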