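import Pool.Agent.H967.GGC.Basic2

set_option autoImplicit false

/-!
# P4: the elementary inequality (helper909 for helper967)
-/

namespace Pool.Agent.H967.GGC

/-- P4 -/
theorem numeric_gap_proof {c n : ℝ} (hc' : 0 < c) (hn : 1 < n) :
    ∃ x : ℝ, 0 < x ∧ (2 * c - 1 + 2 * n) * Real.cosh x -
      n * (1 + (1 - n) / (2 * c) * (Real.cosh x - 1)) < (2 * c - 1 + 2 * n) / 2 * Real.exp x := by
  have hn1 : 0 < n - 1 := by linarith
  have hn0 : n - 1 ≠ 0 := hn1.ne'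
  have hc0 : c ≠ 0 := hc'.ne'
  obtain ⟨y, hy⟩ : ∃ y : ℝ, y = 1 + 2 * c / (n - 1) := ⟨_, rfl⟩
  have hy1 : 1 < y := by
    have : 0 < 2 * c / (n - 1) := by positivity
    rw [hy]
    linarith
  have hy0 : 0 < y := by linarith
  have hexp : Real.exp (Real.log y) = y := Real.exp_log hy0
  have hcosh : Real.cosh (Real.log y) = (y + y⁻¹) / 2 := by
    rw [Real.cosh_eq, Real.exp_neg, hexp]
  refine ⟨Real.log y, Real.log_pos hy1, ?_⟩
  rw [hcosh, hexp]
  have h1 : (2 * c - 1 + 2 * n) / 2 * y - ((2 * c - 1 + 2 * n) * ((y + y⁻¹) / 2) -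
      n * (1 + (1 - n) / (2 * c) * ((y + y⁻¹) / 2 - 1))) =
      -((2 * c - 1 + 2 * n) - 2 * n * y + n * ((n - 1) / (2 * c)) * (y - 1) ^ 2) / (2 * y) := by
    field_simp
    ring
  have h2 : (2 * c - 1 + 2 * n) - 2 * n * y + n * ((n - 1) / (2 * c)) * (y - 1) ^ 2 =
      -((2 * c + (n - 1)) / (n - 1)) := by
    rw [hy]
    field_simp
    ring
  have h3 : 0 < (2 * c + (n - 1)) / (n - 1) / (2 * y) := by positivity
  rw [h2, neg_neg] at h1
  linarith

end Pool.Agent.H967.GGC
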