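import Pool.Agent.H967.GGC.Basic2
import Pool.Graph.R_seed8.R906.KBKap

set_option autoImplicit false

namespace Pool.Agent.H967.GGC
open MeasureTheory Filter Topology Set
open Pool.Agent.R906.KB (Chain JArr eA phA chainA)

theorem caseA_deriv_proof_summ (t z : ℝ) :
    Summable fun j : ℕ => t ^ (2 * j + 1) / ((2 * j + 1).factorial : ℝ) * z ^ j := by
  apply Summable.of_norm_bounded ((Pool.Agent.R906.KB.summ_fact t |z|).mul_left |t|)
  intro j
  rw [Real.norm_eq_abs, abs_mul, abs_pow, abs_div, abs_div, pow_succ, abs_mul]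
  have h1 : |((2 * j).factorial : ℝ)| = ((2 * j).factorial : ℝ) := abs_of_nonneg (by positivity)
  have h2 : |((2 * j + 1).factorial : ℝ)| = ((2 * j + 1).factorial : ℝ) :=
    abs_of_nonneg (by positivity)
  rw [h1, h2]
  have h4 : |t ^ (2 * j)| * |t| / ((2 * j + 1).factorial : ℝ) ≤
      |t ^ (2 * j)| * |t| / ((2 * j).factorial : ℝ) := by
    apply div_le_div_of_nonneg_left (by positivity) (by positivity)
    exact_mod_cast Nat.factorial_le (by omega)
  calc |t ^ (2 * j)| * |t| / ((2 * j + 1).factorial : ℝ) * |z| ^ j ≤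
      |t ^ (2 * j)| * |t| / ((2 * j).factorial : ℝ) * |z| ^ j :=
        mul_le_mul_of_nonneg_right h4 (by positivity)
    _ = _ := by ring

theorem caseA_deriv_proof_ker {t z S : ℝ} (ht : 0 ≤ t) (hz : |z| ≤ S) :
    - √S ≤ ∑' j : ℕ, t ^ (2 * j + 1) / ((2 * j + 1).factorial : ℝ) * z ^ (j + 1) := by
  by_cases h0 : 0 ≤ z
  · have h1 : 0 ≤ ∑' j : ℕ, t ^ (2 * j + 1) / ((2 * j + 1).factorial : ℝ) * z ^ (j + 1) :=
      tsum_nonneg fun j => by positivity
    linarith [Real.sqrt_nonneg S]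
  · push Not at h0
    obtain ⟨w, hw⟩ : ∃ w, w = √(-z) := ⟨_, rfl⟩
    have hw2 : w ^ 2 = -z := by
      rw [hw]
      exact Real.sq_sqrt (by linarith)
    have hz' : z = -w ^ 2 := by linarith
    have h1 := (Real.hasSum_sin (w * t)).mul_left (-w)
    have h2 : ∑' j : ℕ, t ^ (2 * j + 1) / ((2 * j + 1).factorial : ℝ) * z ^ (j + 1) =
        -w * Real.sin (w * t) := by
      rw [← h1.tsum_eq]
      apply tsum_congr
      intro j
      rw [hz', mul_pow, neg_pow (w ^ 2), ← pow_mul]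
      ring
    rw [h2]
    have h3 : w ≤ √S := by
      rw [hw]
      apply Real.sqrt_le_sqrt
      rwa [abs_of_neg h0] at hz
    have h4 := Real.sin_le_one (w * t)
    have h5 : 0 ≤ w := by
      rw [hw]
      exact Real.sqrt_nonneg _
    nlinarith

/-- the coefficients -/
noncomputable def caseA_deriv_proof_c (t : ℝ) : ℕ → ℝ
  | 0 => 0
  | (j + 1) => -(t ^ (2 * j + 1) / ((2 * j + 1).factorial : ℝ))

theorem caseA_deriv_proof {e : ℕ → ℝ} {ff : ℕ → PowerSeries ℝ} (h : Chain e ff) {R : ℝ}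
    (he : ∀ i, |e i| ≤ R) (hb : ∀ k, 0 ≤ e (2 * k) * e (2 * k + 1)) :
    ∃ C : ℝ, 0 ≤ C ∧ ∀ t : ℝ, 0 ≤ t → -C ≤
      ∑' j : ℕ, PowerSeries.coeff (j + 1) (ff 0) *
        (t ^ (2 * j + 1) / ((2 * j + 1).factorial : ℝ)) := by
  have hR : 0 ≤ R := (abs_nonneg _).trans (he 0)
  refine ⟨√(3 * (2 * R)), Real.sqrt_nonneg _, fun t ht => ?_⟩
  by_cases hs : Summable fun j : ℕ => PowerSeries.coeff (j + 1) (ff 0) *
      (t ^ (2 * j + 1) / ((2 * j + 1).factorial : ℝ))
  swap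
  · rw [tsum_eq_zero_of_not_summable hs]
    linarith [Real.sqrt_nonneg (3 * (2 * R))]
  have hJ := h.jA
  have haA : ∀ k, |Pool.Agent.R906.KB.aA e k| ≤ 2 * R := by
    intro k
    cases k with
    | zero => simp only [Pool.Agent.R906.KB.aA]; linarith [he 0]
    | succ k =>
      simp only [Pool.Agent.R906.KB.aA]
      exact (abs_add_le _ _).trans (by linarith [he (2 * k + 1), he (2 * k + 2)])
  have hsq : ∀ k, √(e (2 * k) * e (2 * k + 1)) ≤ 2 * R := fun k =>
    (Pool.Agent.R906.KB.sqrt_mul_le (he _) (he _)).trans (by linarith)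
  have hform : ∀ (N : ℕ) (x : ℕ → ℝ), ∑ k ∈ Finset.range (N + 1),
      Pool.Agent.R906.KB.aA e k * x k ^ 2 +
      2 * ∑ k ∈ Finset.range N, √(e (2 * k) * e (2 * k + 1)) * x k * x (k + 1) ≤
        (3 * (2 * R)) * ∑ k ∈ Finset.range (N + 1), x k ^ 2 := fun N x =>
    (le_abs_self _).trans (Pool.Agent.R906.KB.form_low haA hsq N x)
  have hsumc : Summable fun j : ℕ => |caseA_deriv_proof_c t j| * (3 * (2 * R)) ^ j := by
    rw [← summable_nat_add_iff 1]
    have h1 := ((caseA_deriv_proof_summ t (3 * (2 * R))).norm).mul_left (3 * (2 * R))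
    refine h1.congr fun j => ?_
    show 3 * (2 * R) * ‖t ^ (2 * j + 1) / ((2 * j + 1).factorial : ℝ) * (3 * (2 * R)) ^ j‖ =
      |-(t ^ (2 * j + 1) / ((2 * j + 1).factorial : ℝ))| * (3 * (2 * R)) ^ (j + 1)
    rw [norm_mul, Real.norm_eq_abs, Real.norm_eq_abs, abs_neg, abs_pow,
      abs_of_nonneg (by positivity : 0 ≤ 3 * (2 * R))]
    ring
  have hker : ∀ z : ℝ, z ≤ 3 * (2 * R) → |z| ≤ 3 * (2 * R) →
      ∑' j, caseA_deriv_proof_c t j * z ^ j ≤ √(3 * (2 * R)) := by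
    intro z _ hz
    have h1 : Summable fun j : ℕ => caseA_deriv_proof_c t (j + 1) * z ^ (j + 1) := by
      have h2 := ((caseA_deriv_proof_summ t z).mul_left (-z))
      refine h2.congr fun j => ?_
      show -z * (t ^ (2 * j + 1) / ((2 * j + 1).factorial : ℝ) * z ^ j) =
        -(t ^ (2 * j + 1) / ((2 * j + 1).factorial : ℝ)) * z ^ (j + 1)
      ring
    rw [tsum_eq_zero_add' (f := fun j : ℕ => caseA_deriv_proof_c t j * z ^ j) h1]
    have h3 : ∑' j : ℕ, caseA_deriv_proof_c t (j + 1) * z ^ (j + 1) =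
        -∑' j : ℕ, t ^ (2 * j + 1) / ((2 * j + 1).factorial : ℝ) * z ^ (j + 1) := by
      rw [← tsum_neg]
      refine tsum_congr fun j => ?_
      show -(t ^ (2 * j + 1) / ((2 * j + 1).factorial : ℝ)) * z ^ (j + 1) = _
      ring
    rw [h3]
    have h4 := caseA_deriv_proof_ker ht hz
    show 0 * z ^ 0 + _ ≤ _
    linarith
  have hmom := Pool.Agent.R906.KB.moment_le hJ hb haA hsq hform hsumc hker
  have hs' : Summable fun j : ℕ => caseA_deriv_proof_c t (j + 1) *
      PowerSeries.coeff (j + 1) (PowerSeries.X ^ 0 * ff (2 * 0)) := by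
    refine hs.neg.congr fun j => ?_
    show -(PowerSeries.coeff (j + 1) (ff 0) * (t ^ (2 * j + 1) / ((2 * j + 1).factorial : ℝ))) =
      -(t ^ (2 * j + 1) / ((2 * j + 1).factorial : ℝ)) * _
    rw [pow_zero, one_mul, mul_zero]
    ring
  have hmom' : ∑' j : ℕ, caseA_deriv_proof_c t j *
      PowerSeries.coeff j (PowerSeries.X ^ 0 * ff (2 * 0)) ≤ √(3 * (2 * R)) := hmom
  rw [tsum_eq_zero_add' (f := fun j : ℕ => caseA_deriv_proof_c t j *
      PowerSeries.coeff j (PowerSeries.X ^ 0 * ff (2 * 0))) hs'] at hmom'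
  have h5 : ∑' j : ℕ, caseA_deriv_proof_c t (j + 1) *
      PowerSeries.coeff (j + 1) (PowerSeries.X ^ 0 * ff (2 * 0)) =
      -∑' j : ℕ, PowerSeries.coeff (j + 1) (ff 0) *
        (t ^ (2 * j + 1) / ((2 * j + 1).factorial : ℝ)) := by
    rw [← tsum_neg]
    refine tsum_congr fun j => ?_
    show -(t ^ (2 * j + 1) / ((2 * j + 1).factorial : ℝ)) * _ = _
    rw [pow_zero, one_mul, mul_zero]
    ring
  rw [h5] at hmom'
  have h6 : caseA_deriv_proof_c t 0 = 0 := rfl
  rw [h6, zero_mul] at hmom'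
  linarith

end Pool.Agent.H967.GGC
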