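import Pool.Agent.H967.GGC.Basic2
import Pool.Graph.R_seed8.R906.KBKap

set_option autoImplicit false

/-!
# P5B: lower bound for the differentiated series, case B
-/

namespace Pool.Agent.H967.GGC
open MeasureTheory Filter Topology Set
open Pool.Agent.R906.KB (Chain JArr eA phA chainA)

theorem caseB_deriv_proof_summ (t : ℝ) {S : ℝ} (hS : 0 ≤ S) :
    Summable fun j : ℕ => |t ^ (2 * j + 1) / ((2 * j + 1).factorial : ℝ)| * S ^ j := by
  apply Summable.of_nonneg_of_le (fun j => by positivity) _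
    ((Pool.Agent.R906.KB.summ_fact t S).mul_left |t|)
  intro j
  rw [abs_div, abs_div, pow_succ, abs_mul]
  have h1 : |((2 * j).factorial : ℝ)| = ((2 * j).factorial : ℝ) := abs_of_nonneg (by positivity)
  have h2 : |((2 * j + 1).factorial : ℝ)| = ((2 * j + 1).factorial : ℝ) :=
    abs_of_nonneg (by positivity)
  rw [h1, h2]
  have h4 : |t ^ (2 * j)| * |t| / ((2 * j + 1).factorial : ℝ) ≤
      |t ^ (2 * j)| * |t| / ((2 * j).factorial : ℝ) := by
    apply div_le_div_of_nonneg_left (by positivity) (by positivity)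
    exact_mod_cast Nat.factorial_le (by omega)
  calc |t ^ (2 * j)| * |t| / ((2 * j + 1).factorial : ℝ) * S ^ j ≤
      |t ^ (2 * j)| * |t| / ((2 * j).factorial : ℝ) * S ^ j :=
        mul_le_mul_of_nonneg_right h4 (by positivity)
    _ = |t| * (|t ^ (2 * j)| / ((2 * j).factorial : ℝ) * S ^ j) := by ring

theorem caseB_deriv_proof_ker {t z : ℝ} (ht : 0 ≤ t) (hz : z ≤ 1) :
    ∑' j : ℕ, t ^ (2 * j + 1) / ((2 * j + 1).factorial : ℝ) * z ^ j ≤ Real.sinh t := by
  have hsum : Summable fun j : ℕ => t ^ (2 * j + 1) / ((2 * j + 1).factorial : ℝ) * z ^ j := by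
    apply Summable.of_norm_bounded (caseB_deriv_proof_summ t (abs_nonneg z))
    intro j
    rw [Real.norm_eq_abs, abs_mul, abs_pow]
  by_cases h0 : 0 ≤ z
  · rw [← (Real.hasSum_sinh t).tsum_eq]
    apply Summable.tsum_le_tsum _ hsum (Real.hasSum_sinh t).summable
    intro j
    have h1 : 0 ≤ t ^ (2 * j + 1) / ((2 * j + 1).factorial : ℝ) := by positivity
    have h2 : z ^ j ≤ 1 := pow_le_one₀ h0 hz
    nlinarith
  · have hw : 0 < √(-z) := Real.sqrt_pos.2 (by linarith)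
    have hth : z = - (√(-z)) ^ 2 := by rw [Real.sq_sqrt (by linarith)]; ring
    have h1 := Real.hasSum_sin (√(-z) * t)
    have h2 : √(-z) * ∑' j : ℕ, t ^ (2 * j + 1) / ((2 * j + 1).factorial : ℝ) * z ^ j =
        Real.sin (√(-z) * t) := by
      rw [← h1.tsum_eq, ← tsum_mul_left]
      apply tsum_congr
      intro j
      have h3 : z ^ j = (-1) ^ j * (√(-z)) ^ (2 * j) := by
        conv_lhs => rw [hth]
        rw [neg_pow, ← pow_mul]
      rw [h3]
      ring
    have h3 : Real.sin (√(-z) * t) ≤ √(-z) * t := Real.sin_le (by positivity)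
    rw [← h2] at h3
    have h4 : ∑' j : ℕ, t ^ (2 * j + 1) / ((2 * j + 1).factorial : ℝ) * z ^ j ≤ t :=
      le_of_mul_le_mul_left h3 hw
    exact h4.trans (Real.self_le_sinh_iff.2 ht)

/-- P5B -/
theorem caseB_deriv_proof {e : ℕ → ℝ} {ff : ℕ → PowerSeries ℝ} (h : Chain e ff) {R : ℝ}
    (he : ∀ i, |e i| ≤ R) (hb : ∀ k, 0 ≤ e (2 * k + 1) * e (2 * k + 2)) (he0 : e 0 ≤ 0)
    {δ : ℕ → ℝ} (hδ : ∀ k, 0 < δ k) (hδ0 : δ 0 = 1 - (e 0 + e 1))
    (hδs : ∀ k, δ (k + 1) = 1 - (e (2 * k + 2) + e (2 * k + 3)) -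
      e (2 * k + 1) * e (2 * k + 2) / δ k) {t : ℝ} (ht : 0 ≤ t) :
    e 0 * Real.sinh t ≤
      ∑' j : ℕ, PowerSeries.coeff (j + 1) (ff 0) *
        (t ^ (2 * j + 1) / ((2 * j + 1).factorial : ℝ)) := by
  have hR : 0 ≤ R := (abs_nonneg _).trans (he 0)
  have hJ := h.jB
  have key : ∀ (N : ℕ) (x : ℕ → ℝ), δ N * x N ^ 2 ≤ ∑ k ∈ Finset.range (N + 1), x k ^ 2 -
      (∑ k ∈ Finset.range (N + 1), (e (2 * k) + e (2 * k + 1)) * x k ^ 2 +
        2 * ∑ k ∈ Finset.range N, √(e (2 * k + 1) * e (2 * k + 2)) * x k * x (k + 1)) := by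
    intro N x
    induction N with
    | zero =>
      simp [hδ0]
      linarith
    | succ N ih =>
      rw [Finset.sum_range_succ (fun k => x k ^ 2) (N + 1),
        Finset.sum_range_succ (fun k => (e (2 * k) + e (2 * k + 1)) * x k ^ 2) (N + 1),
        Finset.sum_range_succ (fun k => √(e (2 * k + 1) * e (2 * k + 2)) * x k * x (k + 1)) N]
      have h1 := hδs N
      have h2 := hδ N
      set q := √(e (2 * N + 1) * e (2 * N + 2)) with hq
      have h3 : q ^ 2 = e (2 * N + 1) * e (2 * N + 2) := Real.sq_sqrt (hb N)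
      have h4 : e (2 * (N + 1)) + e (2 * (N + 1) + 1) = 1 - δ (N + 1) - q ^ 2 / δ N := by
        rw [h1, h3, show 2 * (N + 1) = 2 * N + 2 by ring, show 2 * N + 2 + 1 = 2 * N + 3 by ring]
        ring
      rw [h4]
      have h5 : 0 ≤ δ N * (x N - q / δ N * x (N + 1)) ^ 2 := by positivity
      have h6 : δ N * (x N - q / δ N * x (N + 1)) ^ 2 =
          δ N * x N ^ 2 - 2 * (q * x N * x (N + 1)) + q ^ 2 / δ N * x (N + 1) ^ 2 := by
        field_simp
        ring
      nlinarith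
  have hform : ∀ (N : ℕ) (x : ℕ → ℝ),
      ∑ k ∈ Finset.range (N + 1), (e (2 * k) + e (2 * k + 1)) * x k ^ 2 +
      2 * ∑ k ∈ Finset.range N, √(e (2 * k + 1) * e (2 * k + 2)) * x k * x (k + 1) ≤
        1 * ∑ k ∈ Finset.range (N + 1), x k ^ 2 := by
    intro N x
    have h1 := key N x
    have h2 : 0 ≤ δ N * x N ^ 2 := mul_nonneg (hδ N).le (sq_nonneg _)
    linarith
  have ha : ∀ k, |e (2 * k) + e (2 * k + 1)| ≤ 2 * R := fun k =>
    (abs_add_le _ _).trans (by linarith [he (2 * k), he (2 * k + 1)])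
  have hsq : ∀ k, √(e (2 * k + 1) * e (2 * k + 2)) ≤ 2 * R := fun k =>
    (Pool.Agent.R906.KB.sqrt_mul_le (he _) (he _)).trans (by linarith)
  have hmom := Pool.Agent.R906.KB.moment_le hJ hb ha hsq hform
    (c := fun j => t ^ (2 * j + 1) / ((2 * j + 1).factorial : ℝ))
    (caseB_deriv_proof_summ t (by positivity)) (M := Real.sinh t)
    (fun z hz _ => caseB_deriv_proof_ker ht hz)
  have h1 : ∑' j : ℕ, PowerSeries.coeff (j + 1) (ff 0) *
        (t ^ (2 * j + 1) / ((2 * j + 1).factorial : ℝ)) =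
      e 0 * ∑' j : ℕ, t ^ (2 * j + 1) / ((2 * j + 1).factorial : ℝ) *
        PowerSeries.coeff j (ff 1) := by
    rw [← tsum_mul_left]
    apply tsum_congr
    intro j
    rw [h.coeff_s0]
    ring
  rw [h1]
  have h2 : ∑' j : ℕ, t ^ (2 * j + 1) / ((2 * j + 1).factorial : ℝ) *
      PowerSeries.coeff j (ff 1) ≤ Real.sinh t := by
    refine le_trans (le_of_eq ?_) hmom
    apply tsum_congr
    intro j
    simp only [pow_zero, one_mul, mul_zero, zero_add]
  exact mul_le_mul_of_nonpos_left h2 he0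

end Pool.Agent.H967.GGC
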