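import Pool.Agent.H967.GGC.Bl6

set_option autoImplicit false

/-!
# Monotonicity of the coefficients `kap` in the second family (leaf X1)

`(1 - X) K u = 2 β v` with `u = F(1/2, 1/2 - μ; μ + 1)`, `v = F(1/2, -1/2 - μ; μ + 1)` (Euler), and
`β v = α w + μ (1 - X) u` with `w = F(-1/2, 1/2 - μ; μ + 1)` (Gauss). So `(1 - X) K = 2 α w / u + 2 μ (1 - X)`, and
`w`, `1 / u` have nonnegative coefficients.
-/

namespace Pool.Agent.H967.GGC
open MeasureTheory Filter Topology Set

/-- binomial coefficients -/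
noncomputable def xi_kap_mono_B (s : ℝ) (n : ℕ) : ℝ :=
  ∏ i ∈ Finset.range n, ((s + i) / ((i : ℝ) + 1))

theorem xi_kap_mono_B_zero (s : ℝ) : xi_kap_mono_B s 0 = 1 := by
  unfold xi_kap_mono_B
  simp

theorem xi_kap_mono_B_succ (s : ℝ) (n : ℕ) :
    xi_kap_mono_B s (n + 1) = xi_kap_mono_B s n * ((s + n) / ((n : ℝ) + 1)) := by
  unfold xi_kap_mono_B
  rw [Finset.prod_range_succ]

theorem xi_kap_mono_B_shift (s : ℝ) (n : ℕ) :
    xi_kap_mono_B s (n + 1) * ((n : ℝ) + 1) = s * xi_kap_mono_B (s + 1) n := by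
  induction n with
  | zero =>
    rw [xi_kap_mono_B_succ, xi_kap_mono_B_zero, xi_kap_mono_B_zero]
    simp
  | succ n ih =>
    have h1 : ((n : ℝ) + 1) ≠ 0 := by positivity
    have h2 : (((n + 1 : ℕ) : ℝ) + 1) ≠ 0 := by positivity
    rw [xi_kap_mono_B_succ s (n + 1), xi_kap_mono_B_succ (s + 1) n, mul_assoc, div_mul_cancel₀ _ h2,
      ← mul_assoc, ← ih]
    push_cast
    field_simp
    ring

theorem xi_kap_mono_B_gen (s : ℝ) :
    (1 - PowerSeries.X) * PowerSeries.mk (xi_kap_mono_B (s + 1)) = PowerSeries.mk (xi_kap_mono_B s) := by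
  ext n
  rw [sub_mul, one_mul, map_sub, PowerSeries.coeff_mk, PowerSeries.coeff_mk]
  cases n with
  | zero =>
    rw [PowerSeries.coeff_zero_X_mul, xi_kap_mono_B_zero, xi_kap_mono_B_zero, sub_zero]
  | succ n =>
    have h1 : ((n : ℝ) + 1) ≠ 0 := by positivity
    have h2 := xi_kap_mono_B_shift s n
    rw [PowerSeries.coeff_succ_X_mul, PowerSeries.coeff_mk, xi_kap_mono_B_succ (s + 1) n]
    rw [← mul_left_inj' h1, h2]
    field_simp
    ring

theorem xi_kap_mono_euler {a b c s : ℝ} (hc' : 0 < c) (hs : a + b - c = s) :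
    PowerSeries.mk (hc a b c) =
      PowerSeries.mk (xi_kap_mono_B s) * PowerSeries.mk (hc (c - a) (c - b) c) := by
  ext n
  rw [PowerSeries.coeff_mul, PowerSeries.coeff_mk, euler hc' n]
  refine Finset.sum_congr rfl fun x _ => ?_
  rw [PowerSeries.coeff_mk, PowerSeries.coeff_mk]
  unfold xi_kap_mono_B
  rw [hs]

theorem xi_kap_mono_key {α β γ : ℝ} (hγ : 0 < γ) :
    (1 - PowerSeries.X) * PowerSeries.mk (kap α β γ) *
      PowerSeries.mk (hc (γ - α) (γ - β) γ) =
      PowerSeries.C (2 * β) * PowerSeries.mk (hc (γ - α) (γ - (β + 1)) γ) := by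
  have e0 := xi_kap_mono_euler (a := α) (b := β) (c := γ) (s := α + β - γ) hγ rfl
  have e1 := xi_kap_mono_euler (a := α) (b := β + 1) (c := γ) (s := α + β - γ + 1) hγ (by ring)
  have e2 : PowerSeries.mk (kap α β γ) * PowerSeries.mk (hc α β γ) =
      PowerSeries.C (2 * β) * PowerSeries.mk (hc α (β + 1) γ) := by
    ext n
    rw [PowerSeries.coeff_mul, PowerSeries.coeff_C_mul, PowerSeries.coeff_mk, ← kap_rec α β γ n]
    refine Finset.sum_congr rfl fun x _ => ?_
    rw [PowerSeries.coeff_mk, PowerSeries.coeff_mk]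
  have hne : PowerSeries.mk (xi_kap_mono_B (α + β - γ)) ≠ 0 := by
    intro h
    have h1 := congrArg (PowerSeries.coeff 0) h
    rw [PowerSeries.coeff_mk, xi_kap_mono_B_zero] at h1
    simp at h1
  have e3 := xi_kap_mono_B_gen (α + β - γ)
  refine mul_left_cancel₀ hne ?_
  calc PowerSeries.mk (xi_kap_mono_B (α + β - γ)) *
        ((1 - PowerSeries.X) * PowerSeries.mk (kap α β γ) * PowerSeries.mk (hc (γ - α) (γ - β) γ))
      = (1 - PowerSeries.X) * (PowerSeries.mk (kap α β γ) *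
        (PowerSeries.mk (xi_kap_mono_B (α + β - γ)) * PowerSeries.mk (hc (γ - α) (γ - β) γ))) := by
        ring
    _ = (1 - PowerSeries.X) * (PowerSeries.C (2 * β) * PowerSeries.mk (hc α (β + 1) γ)) := by
        rw [← e0, e2]
    _ = PowerSeries.C (2 * β) * (((1 - PowerSeries.X) *
        PowerSeries.mk (xi_kap_mono_B (α + β - γ + 1))) *
          PowerSeries.mk (hc (γ - α) (γ - (β + 1)) γ)) := by
        rw [e1]
        ring
    _ = _ := by
        rw [e3]
        ring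


theorem xi_kap_mono_shift (a b c : ℝ) (n : ℕ) :
    hc (a - 1) b c (n + 1) = hc a b c n * ((a - 1) * (b + n) / ((c + n) * (n + 1))) := by
  induction n with
  | zero =>
    rw [hc_succ, hc_zero, hc_zero]
    push_cast
    ring
  | succ n ih =>
    rw [hc_succ, ih, hc_succ a b c n]
    push_cast
    ring

theorem xi_kap_mono_one (a b c : ℝ) : hc a b c 1 = a * b / c := by
  have h := hc_succ a b c 0
  rw [hc_zero, one_mul] at h
  rw [zero_add] at h
  rw [h]
  push_cast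
  ring

/-- a contiguous relation of Gauss -/
theorem xi_kap_mono_gauss (a b c : ℝ) (hc0 : 0 < c) :
    PowerSeries.C (c - b) * PowerSeries.mk (hc a (b - 1) c) =
      PowerSeries.C (c - a) * PowerSeries.mk (hc (a - 1) b c) -
        PowerSeries.C (b - a) * ((1 - PowerSeries.X) * PowerSeries.mk (hc a b c)) := by
  ext n
  rw [PowerSeries.coeff_C_mul, map_sub (PowerSeries.coeff (R := ℝ) n), PowerSeries.coeff_C_mul,
    PowerSeries.coeff_C_mul, sub_mul (1 : PowerSeries ℝ) PowerSeries.X, one_mul,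
    map_sub (PowerSeries.coeff (R := ℝ) n),
    PowerSeries.coeff_mk, PowerSeries.coeff_mk, PowerSeries.coeff_mk]
  cases n with
  | zero =>
    rw [PowerSeries.coeff_zero_X_mul, hc_zero, hc_zero, hc_zero]
    ring
  | succ n =>
    rw [PowerSeries.coeff_succ_X_mul, PowerSeries.coeff_mk, xi_kap_mono_shift,
      hc_comm a (b - 1) c, xi_kap_mono_shift, hc_comm b a c, hc_succ]
    have h1 : c + (n : ℝ) ≠ 0 := by positivity
    have h2 : (n : ℝ) + 1 ≠ 0 := by positivity
    field_simp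
    ring

theorem xi_kap_mono_U {μ : ℝ} (h1 : 1 / 2 < μ) (h2 : μ ≤ 3 / 2) (n : ℕ) :
    hc (1 / 2) (1 / 2 - μ) (μ + 1) (n + 1) ≤ 0 := by
  induction n with
  | zero =>
    rw [hc_succ, hc_zero, one_mul]
    refine div_nonpos_of_nonpos_of_nonneg ?_ (by positivity)
    push_cast
    nlinarith
  | succ n ih =>
    rw [hc_succ]
    refine mul_nonpos_of_nonpos_of_nonneg ih ?_
    have hi2 : (1 : ℝ) ≤ ((n + 1 : ℕ) : ℝ) := by
      push_cast
      have : (0 : ℝ) ≤ n := Nat.cast_nonneg n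
      linarith
    refine div_nonneg (mul_nonneg (by linarith) (by linarith)) (by positivity)

theorem xi_kap_mono_W {μ : ℝ} (h1 : 1 / 2 < μ) (h2 : μ ≤ 3 / 2) (n : ℕ) :
    0 ≤ hc (1 / 2 - 1) (1 / 2 - μ) (μ + 1) n := by
  unfold hc
  refine Finset.prod_nonneg fun i _ => ?_
  have hi : (0 : ℝ) ≤ i := Nat.cast_nonneg i
  refine div_nonneg ?_ (by positivity)
  rcases Nat.eq_zero_or_pos i with rfl | hi1
  · refine mul_nonneg_of_nonpos_of_nonpos ?_ ?_
    · push_cast
      linarith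
    · push_cast
      linarith
  · have hi2 : (1 : ℝ) ≤ i := by exact_mod_cast hi1
    exact mul_nonneg (by linarith) (by linarith)

/-- X1 -/
theorem xi_kap_mono_proof {μ : ℝ} (h1 : 1 / 2 < μ) (h2 : μ ≤ 3 / 2) :
    (∀ n, kap (μ + 1 / 2) (2 * μ + 1 / 2) (μ + 1) (n + 1) ≤
      kap (μ + 1 / 2) (2 * μ + 1 / 2) (μ + 1) (n + 2)) ∧
    kap (μ + 1 / 2) (2 * μ + 1 / 2) (μ + 1) 1 < kap (μ + 1 / 2) (2 * μ + 1 / 2) (μ + 1) 2 ∧
    0 < kap (μ + 1 / 2) (2 * μ + 1 / 2) (μ + 1) 1 := by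
  have hγ : 0 < μ + 1 := by linarith
  have key := xi_kap_mono_key (α := μ + 1 / 2) (β := 2 * μ + 1 / 2) (γ := μ + 1) hγ
  have ea : μ + 1 - (μ + 1 / 2) = 1 / 2 := by ring
  have eb : μ + 1 - (2 * μ + 1 / 2) = 1 / 2 - μ := by ring
  have eb' : μ + 1 - (2 * μ + 1 / 2 + 1) = 1 / 2 - μ - 1 := by ring
  rw [ea, eb, eb'] at key
  have gs := xi_kap_mono_gauss (1 / 2) (1 / 2 - μ) (μ + 1) hγ
  have ec : μ + 1 - (1 / 2 - μ) = 2 * μ + 1 / 2 := by ring
  have ed : μ + 1 - 1 / 2 = μ + 1 / 2 := by ring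
  have ee : 1 / 2 - μ - 1 / 2 = -μ := by ring
  rw [ec, ed, ee] at gs
  obtain ⟨E, hE⟩ : ∃ E : PowerSeries ℝ, E = (1 - PowerSeries.X) *
      PowerSeries.mk (kap (μ + 1 / 2) (2 * μ + 1 / 2) (μ + 1)) := ⟨_, rfl⟩
  rw [← hE] at key
  obtain ⟨u, hu⟩ : ∃ u : PowerSeries ℝ, u = PowerSeries.mk (hc (1 / 2) (1 / 2 - μ) (μ + 1)) :=
    ⟨_, rfl⟩
  obtain ⟨v, hv⟩ : ∃ v : PowerSeries ℝ,
    v = PowerSeries.mk (hc (1 / 2) (1 / 2 - μ - 1) (μ + 1)) := ⟨_, rfl⟩
  obtain ⟨w, hw⟩ : ∃ w : PowerSeries ℝ,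
    w = PowerSeries.mk (hc (1 / 2 - 1) (1 / 2 - μ) (μ + 1)) := ⟨_, rfl⟩
  rw [← hu, ← hv] at key
  rw [← hu, ← hv, ← hw] at gs
  -- `G u = 2 α w`
  obtain ⟨G, hG⟩ : ∃ G : PowerSeries ℝ,
    G = E - PowerSeries.C (2 * μ) * (1 - PowerSeries.X) := ⟨_, rfl⟩
  have hGu : G * u = PowerSeries.C (2 * (μ + 1 / 2)) * w := by
    have c1 : (PowerSeries.C (2 * (2 * μ + 1 / 2)) : PowerSeries ℝ) =
        PowerSeries.C 2 * PowerSeries.C (2 * μ + 1 / 2) := by rw [← map_mul]
    have c2 : (PowerSeries.C (2 * (μ + 1 / 2)) : PowerSeries ℝ) =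
        PowerSeries.C 2 * PowerSeries.C (μ + 1 / 2) := by rw [← map_mul]
    have c3 : (PowerSeries.C (2 * μ) : PowerSeries ℝ) =
        PowerSeries.C 2 * PowerSeries.C μ := by rw [← map_mul]
    have c4 : (PowerSeries.C (-μ) : PowerSeries ℝ) = -PowerSeries.C μ := by rw [map_neg]
    rw [c4] at gs
    rw [c1, mul_assoc, gs] at key
    rw [hG, sub_mul, key, c2, c3]
    ring
  have hu0 : PowerSeries.coeff 0 u = 1 := by rw [hu, PowerSeries.coeff_mk, hc_zero]
  have hun : ∀ j, PowerSeries.coeff (j + 1) u ≤ 0 := by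
    intro j
    rw [hu, PowerSeries.coeff_mk]
    exact xi_kap_mono_U h1 h2 j
  have hwn : ∀ j, 0 ≤ PowerSeries.coeff j w := by
    intro j
    rw [hw, PowerSeries.coeff_mk]
    exact xi_kap_mono_W h1 h2 j
  have hrec : ∀ n, ∑ p ∈ Finset.HasAntidiagonal.antidiagonal n, PowerSeries.coeff p.1 G *
      PowerSeries.coeff p.2 u = 2 * (μ + 1 / 2) * PowerSeries.coeff n w := by
    intro n
    have h4 := congrArg (PowerSeries.coeff n) hGu
    rw [PowerSeries.coeff_mul, PowerSeries.coeff_C_mul] at h4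
    exact h4
  have hGn : ∀ n, 0 ≤ PowerSeries.coeff n G := by
    intro n
    induction n using Nat.strong_induction_on with
    | _ n ih =>
      have h4 := hrec n
      have hmem : (n, 0) ∈ Finset.HasAntidiagonal.antidiagonal n := by
        rw [Finset.HasAntidiagonal.mem_antidiagonal]
        rfl
      rw [← Finset.add_sum_erase _ _ hmem, hu0, mul_one] at h4
      have h5 : ∑ p ∈ (Finset.HasAntidiagonal.antidiagonal n).erase (n, 0),
          PowerSeries.coeff p.1 G * PowerSeries.coeff p.2 u ≤ 0 := by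
        refine Finset.sum_nonpos fun p hp => ?_
        rw [Finset.mem_erase, Finset.HasAntidiagonal.mem_antidiagonal] at hp
        obtain ⟨hp1, hp2⟩ := hp
        have hp3 : p.2 ≠ 0 := by
          intro h
          apply hp1
          exact Prod.ext (by show p.1 = n; omega) h
        obtain ⟨q, hq⟩ := Nat.exists_eq_succ_of_ne_zero hp3
        rw [hq]
        exact mul_nonpos_of_nonneg_of_nonpos (ih p.1 (by omega)) (hun q)
      have h7 : 0 ≤ 2 * (μ + 1 / 2) * PowerSeries.coeff n w :=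
        mul_nonneg (by linarith) (hwn n)
      linarith
  -- the coefficients of `E`
  have hEG : ∀ n, PowerSeries.coeff (n + 2) E = PowerSeries.coeff (n + 2) G := by
    intro n
    rw [hG, map_sub, PowerSeries.coeff_C_mul, map_sub, PowerSeries.coeff_X, PowerSeries.coeff_one,
      if_neg (by omega), if_neg (by omega)]
    ring
  have hEk : ∀ n, PowerSeries.coeff (n + 2) E = kap (μ + 1 / 2) (2 * μ + 1 / 2) (μ + 1) (n + 2) -
      kap (μ + 1 / 2) (2 * μ + 1 / 2) (μ + 1) (n + 1) := by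
    intro n
    rw [hE, sub_mul, one_mul, map_sub, PowerSeries.coeff_succ_X_mul, PowerSeries.coeff_mk,
      PowerSeries.coeff_mk]
  refine ⟨fun n => ?_, ?_, ?_⟩
  · have h4 := hGn (n + 2)
    rw [← hEG, hEk] at h4
    linarith
  · -- the coefficient of `X ^ 2`
    have r0 := hrec 0
    have r1 := hrec 1
    have r2 := hrec 2
    rw [Finset.Nat.sum_antidiagonal_eq_sum_range_succ_mk] at r0 r1 r2
    simp only [Finset.sum_range_succ, Finset.sum_range_zero, Nat.sub_zero, Nat.sub_self, hu0,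
      mul_one, zero_add] at r0 r1 r2
    have hu1 : PowerSeries.coeff 1 u < 0 := by
      rw [hu, PowerSeries.coeff_mk, xi_kap_mono_one]
      refine div_neg_of_neg_of_pos ?_ hγ
      nlinarith
    have hw0 : PowerSeries.coeff 0 w = 1 := by rw [hw, PowerSeries.coeff_mk, hc_zero]
    rw [hw0, mul_one] at r0
    have g0 : 0 < PowerSeries.coeff 0 G := by rw [r0]; linarith
    have g1 : 0 < PowerSeries.coeff 1 G := by
      have e1 := hwn 1
      have e2 : PowerSeries.coeff 0 G * PowerSeries.coeff 1 u < 0 := mul_neg_of_pos_of_neg g0 hu1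
      have e3 : 0 ≤ 2 * (μ + 1 / 2) * PowerSeries.coeff 1 w := mul_nonneg (by linarith) e1
      linarith
    have g2 : 0 < PowerSeries.coeff 2 G := by
      have e1 := hwn 2
      have e2 : PowerSeries.coeff 1 G * PowerSeries.coeff 1 u < 0 := mul_neg_of_pos_of_neg g1 hu1
      have e3 : 0 ≤ 2 * (μ + 1 / 2) * PowerSeries.coeff 2 w := mul_nonneg (by linarith) e1
      have e4 : PowerSeries.coeff 0 G * PowerSeries.coeff 2 u ≤ 0 :=
        mul_nonpos_of_nonneg_of_nonpos g0.le (hun 1)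
      have e5 : PowerSeries.coeff 1 G * PowerSeries.coeff (2 - 1) u < 0 := e2
      linarith
    have h4 := hEk 0
    rw [hEG 0] at h4
    have h5 : PowerSeries.coeff (0 + 2) G = PowerSeries.coeff 2 G := rfl
    rw [h5] at h4
    rw [h4] at g2
    exact sub_pos.1 g2
  · have h4 := kap_rec (μ + 1 / 2) (2 * μ + 1 / 2) (μ + 1) 1
    have h5 := kap_zero (μ + 1 / 2) (2 * μ + 1 / 2) (μ + 1)
    rw [Finset.Nat.sum_antidiagonal_eq_sum_range_succ_mk, Finset.sum_range_succ,
      Finset.sum_range_one] at h4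
    have e1 : ∀ a b c : ℝ, hc a b c 1 = a * b / c := xi_kap_mono_one
    simp only [Nat.sub_zero, Nat.sub_self, e1, hc_zero, h5, mul_one] at h4
    have h6 : kap (μ + 1 / 2) (2 * μ + 1 / 2) (μ + 1) 1 =
        2 * (2 * μ + 1 / 2) * ((μ + 1 / 2) / (μ + 1)) := by
      have h7 : kap (μ + 1 / 2) (2 * μ + 1 / 2) (μ + 1) 1 =
          2 * (2 * μ + 1 / 2) * ((μ + 1 / 2) * (2 * μ + 1 / 2 + 1) / (μ + 1)) -
          2 * (2 * μ + 1 / 2) * ((μ + 1 / 2) * (2 * μ + 1 / 2) / (μ + 1)) := by linarith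
      rw [h7]
      field_simp
      ring
    rw [h6]
    have q1 : 0 < 2 * μ + 1 / 2 := by linarith
    have q2 : 0 < μ + 1 / 2 := by linarith
    positivity

end Pool.Agent.H967.GGC
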