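import Pool.Agent.H967.GGC.Basic2

set_option autoImplicit false

namespace Pool.Agent.H967.GGC
open MeasureTheory Filter Topology Set

theorem kap_bdd_proof_hc {α β γ : ℝ} (hβ : 0 < β) (n : ℕ) :
    hc α (β + 1) γ n = hc α β γ n * ((β + n) / β) := by
  induction n with
  | zero =>
    rw [hc_zero, hc_zero]
    field_simp
    simp
  | succ n ih =>
    rw [hc_succ, hc_succ, ih]
    push_cast
    ring

theorem kap_bdd_proof_diff {α β γ : ℝ} (hα : 0 < α) (hβ : 0 < β) (hγ : 0 < γ) (n : ℕ) :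
    hc α (β + 1) γ (n + 1) ≤
      hc α (β + 1) γ n + (1 + |α - γ| * (1 + 1 / α) / β) * hc α β γ (n + 1) := by
  have hn : (0 : ℝ) ≤ n := Nat.cast_nonneg n
  rw [kap_bdd_proof_hc hβ, kap_bdd_proof_hc hβ n, hc_succ]
  have hq := hc_pos hα hβ hγ n
  have h1 : (α - γ) * (n + 1) ≤ |α - γ| * (1 + 1 / α) * (α + n) := by
    have h2 : ((n : ℝ) + 1) ≤ (1 + 1 / α) * (α + n) := by
      have : (1 + 1 / α) * (α + n) = α + n + 1 + n / α := by field_simp; ring
      rw [this]
      have : 0 ≤ (n : ℝ) / α := by positivity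
      linarith
    calc (α - γ) * (n + 1) ≤ |α - γ| * (n + 1) := by
          have := le_abs_self (α - γ)
          gcongr
      _ ≤ |α - γ| * ((1 + 1 / α) * (α + n)) := by
          have := abs_nonneg (α - γ)
          gcongr
      _ = _ := by ring
  have h3 : (α + n) * (β + n + 1) ≤
      (γ + n) * (n + 1) + (1 + |α - γ| * (1 + 1 / α) / β) * β * (α + n) := by
    have h4 : (1 + |α - γ| * (1 + 1 / α) / β) * β * (α + n) =
        β * (α + n) + |α - γ| * (1 + 1 / α) * (α + n) := by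
      field_simp
    rw [h4]
    nlinarith
  have hd : 0 < (γ + n) * ((n : ℝ) + 1) := by positivity
  have h5 : 0 ≤ hc α β γ n * (β + n) / (β * ((γ + n) * ((n : ℝ) + 1))) := by positivity
  have h6 := mul_le_mul_of_nonneg_left h3 h5
  push_cast
  have e1 : hc α β γ n * ((α + n) * (β + n) / ((γ + n) * ((n : ℝ) + 1))) * ((β + (n + 1)) / β) =
      hc α β γ n * (β + n) / (β * ((γ + n) * ((n : ℝ) + 1))) * ((α + n) * (β + n + 1)) := by
    field_simp
    ring
  have e2 : hc α β γ n * ((β + n) / β) + (1 + |α - γ| * (1 + 1 / α) / β) *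
      (hc α β γ n * ((α + n) * (β + n) / ((γ + n) * ((n : ℝ) + 1)))) =
      hc α β γ n * (β + n) / (β * ((γ + n) * ((n : ℝ) + 1))) *
        ((γ + n) * (n + 1) + (1 + |α - γ| * (1 + 1 / α) / β) * β * (α + n)) := by
    field_simp
  rw [e1, e2]
  exact h6

theorem kap_bdd_proof_B {α β γ z : ℝ} (hα : 0 < α) (hβ : 0 < β) (hγ : 0 < γ) (hz0 : 0 ≤ z)
    (hz1 : z < 1) : (1 - z) * (∑' n : ℕ, hc α (β + 1) γ n * z ^ n) ≤
      (1 + |α - γ| * (1 + 1 / α) / β) * ∑' n : ℕ, hc α β γ n * z ^ n := by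
  have habs : |z| < 1 := by rwa [abs_of_nonneg hz0]
  have hA := summable_hc hα hβ hγ habs
  have hB := summable_hc hα (by linarith : 0 < β + 1) hγ habs
  have hC : 1 ≤ 1 + |α - γ| * (1 + 1 / α) / β := by
    have : 0 ≤ |α - γ| * (1 + 1 / α) / β := by
      have := abs_nonneg (α - γ)
      positivity
    linarith
  set C := 1 + |α - γ| * (1 + 1 / α) / β with hCdef
  have hA1 := (summable_nat_add_iff 1).2 hA
  have hB1 := (summable_nat_add_iff 1).2 hB
  have hA0 := hA.tsum_eq_zero_add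
  have hB0 := hB.tsum_eq_zero_add
  rw [hc_zero, pow_zero, mul_one] at hA0 hB0
  have h1 : ∑' n : ℕ, hc α (β + 1) γ (n + 1) * z ^ (n + 1) ≤
      ∑' n : ℕ, (z * (hc α (β + 1) γ n * z ^ n) + C * (hc α β γ (n + 1) * z ^ (n + 1))) := by
    refine hB1.tsum_le_tsum (fun n => ?_) ((hB.mul_left z).add (hA1.mul_left C))
    have h2 := kap_bdd_proof_diff hα hβ hγ n
    calc hc α (β + 1) γ (n + 1) * z ^ (n + 1) ≤
        (hc α (β + 1) γ n + C * hc α β γ (n + 1)) * z ^ (n + 1) :=
          mul_le_mul_of_nonneg_right h2 (by positivity)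
      _ = _ := by ring
  rw [(hB.mul_left z).tsum_add (hA1.mul_left C), tsum_mul_left, tsum_mul_left] at h1
  nlinarith

theorem kap_bdd_proof {α β γ : ℝ} (hα : 0 < α) (hβ : 0 < β) (hγ : 0 < γ)
    (h : ∀ n, kap α β γ (n + 1) ≤ kap α β γ (n + 2)) (h0 : 0 < kap α β γ 1) :
    ∃ C : ℝ, ∀ n, kap α β γ n ≤ C := by
  have hmono : ∀ m j : ℕ, kap α β γ (m + 1) ≤ kap α β γ (j + (m + 1)) := by
    intro m j
    induction j with
    | zero => rw [Nat.zero_add]
    | succ j ih =>
      have h1 := h (j + m)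
      have e1 : j + m + 1 = j + (m + 1) := by ring
      have e2 : j + m + 2 = j + 1 + (m + 1) := by ring
      rw [e1, e2] at h1
      exact ih.trans h1
  have hpos : ∀ n, 0 < kap α β γ n := by
    intro n
    rcases n with _ | n
    · rw [kap_zero]
      linarith
    · have h1 := hmono 0 n
      exact lt_of_lt_of_le h0 h1
  have hle : ∀ n, kap α β γ n ≤ 2 * β * hc α (β + 1) γ n := by
    intro n
    rw [← kap_rec]
    have h1 := Finset.single_le_sum
      (f := fun x : ℕ × ℕ => kap α β γ x.1 * hc α β γ x.2) (s := Finset.HasAntidiagonal.antidiagonal n)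
      (fun x _ => mul_nonneg (hpos _).le (hc_pos hα hβ hγ _).le)
      (Finset.HasAntidiagonal.mem_antidiagonal.2 (by simp : (n, 0).1 + (n, 0).2 = n))
    simpa [hc_zero] using h1
  set C := 1 + |α - γ| * (1 + 1 / α) / β with hCdef
  have hC : 1 ≤ C := by
    have : 0 ≤ |α - γ| * (1 + 1 / α) / β := by
      have := abs_nonneg (α - γ)
      positivity
    linarith
  refine ⟨4 * β * C, fun n => ?_⟩
  rcases n with _ | m
  · rw [kap_zero]
    nlinarith
  -- the point z
  set z : ℝ := 1 + (-(1 / (2 * ((m : ℝ) + 1)))) with hz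
  have hm : (0 : ℝ) < (m : ℝ) + 1 := by positivity
  have hd : 0 < 1 / (2 * ((m : ℝ) + 1)) := by positivity
  have hd2 : 1 / (2 * ((m : ℝ) + 1)) ≤ 1 / 2 := by
    apply one_div_le_one_div_of_le (by norm_num)
    have : (0 : ℝ) ≤ m := Nat.cast_nonneg m
    linarith
  have hz0 : 0 < z := by rw [hz]; linarith
  have hz1 : z < 1 := by rw [hz]; linarith
  have hzm : 1 / 2 ≤ z ^ (m + 1) := by
    have h1 := one_add_mul_le_pow (a := -(1 / (2 * ((m : ℝ) + 1)))) (by linarith) (m + 1)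
    have h2 : 1 + ((m + 1 : ℕ) : ℝ) * (-(1 / (2 * ((m : ℝ) + 1)))) = 1 / 2 := by
      push_cast
      field_simp
      norm_num
    rw [h2] at h1
    exact h1
  have habs : |z| < 1 := by rwa [abs_of_pos hz0]
  have hA := summable_hc hα hβ hγ habs
  have hB := summable_hc hα (by linarith : 0 < β + 1) hγ habs
  have hK : Summable fun n : ℕ => kap α β γ n * z ^ n := by
    refine Summable.of_nonneg_of_le (fun n => mul_nonneg (hpos n).le (by positivity)) (fun n => ?_)
      (hB.mul_left (2 * β))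
    calc kap α β γ n * z ^ n ≤ (2 * β * hc α (β + 1) γ n) * z ^ n :=
          mul_le_mul_of_nonneg_right (hle n) (by positivity)
      _ = _ := by ring
  have hprod : (∑' n : ℕ, kap α β γ n * z ^ n) * (∑' n : ℕ, hc α β γ n * z ^ n) =
      2 * β * ∑' n : ℕ, hc α (β + 1) γ n * z ^ n := by
    rw [tsum_mul_tsum_eq_tsum_sum_antidiagonal_of_summable_norm hK.norm hA.norm, ← tsum_mul_left]
    refine tsum_congr fun n => ?_
    rw [← mul_assoc, ← kap_rec, Finset.sum_mul]
    refine Finset.sum_congr rfl fun x hx => ?_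
    rw [← Finset.HasAntidiagonal.mem_antidiagonal.1 hx, pow_add]
    ring
  have hAB := kap_bdd_proof_B hα hβ hγ hz0.le hz1
  rw [← hCdef] at hAB
  have hA1 : 0 < ∑' n : ℕ, hc α β γ n * z ^ n :=
    hA.tsum_pos (fun n => mul_nonneg (hc_pos hα hβ hγ n).le (by positivity)) 0
      (by rw [hc_zero, pow_zero, mul_one]; exact one_pos)
  have hK2 : (1 - z) * (∑' n : ℕ, kap α β γ n * z ^ n) ≤ 2 * β * C := by
    have h1 : ((1 - z) * (∑' n : ℕ, kap α β γ n * z ^ n)) * (∑' n : ℕ, hc α β γ n * z ^ n) ≤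
        (2 * β * C) * (∑' n : ℕ, hc α β γ n * z ^ n) := by
      calc ((1 - z) * (∑' n : ℕ, kap α β γ n * z ^ n)) * (∑' n : ℕ, hc α β γ n * z ^ n)
          = (1 - z) * ((∑' n : ℕ, kap α β γ n * z ^ n) * (∑' n : ℕ, hc α β γ n * z ^ n)) := by ring
        _ = 2 * β * ((1 - z) * ∑' n : ℕ, hc α (β + 1) γ n * z ^ n) := by rw [hprod]; ring
        _ ≤ 2 * β * (C * ∑' n : ℕ, hc α β γ n * z ^ n) := by gcongr
        _ = _ := by ring
    exact le_of_mul_le_mul_right h1 hA1
  have hlow : kap α β γ (m + 1) * z ^ (m + 1) * (1 - z)⁻¹ ≤ ∑' n : ℕ, kap α β γ n * z ^ n := by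
    have h1 := hK.sum_add_tsum_nat_add (m + 1)
    have h2 : 0 ≤ ∑ i ∈ Finset.range (m + 1), kap α β γ i * z ^ i :=
      Finset.sum_nonneg fun i _ => mul_nonneg (hpos i).le (by positivity)
    have hgeo := summable_geometric_of_lt_one hz0.le hz1
    have h3 : ∑' j : ℕ, kap α β γ (m + 1) * z ^ (m + 1) * z ^ j ≤
        ∑' j : ℕ, kap α β γ (j + (m + 1)) * z ^ (j + (m + 1)) := by
      refine (hgeo.mul_left _).tsum_le_tsum (fun j => ?_) ((summable_nat_add_iff (m + 1)).2 hK)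
      calc kap α β γ (m + 1) * z ^ (m + 1) * z ^ j = kap α β γ (m + 1) * z ^ (j + (m + 1)) := by
            rw [pow_add z j]; ring
        _ ≤ _ := mul_le_mul_of_nonneg_right (hmono m j) (by positivity)
    rw [tsum_mul_left, tsum_geometric_of_lt_one hz0.le hz1] at h3
    linarith
  have h1z : 0 < 1 - z := by linarith
  have h5 : kap α β γ (m + 1) * z ^ (m + 1) ≤ 2 * β * C := by
    calc kap α β γ (m + 1) * z ^ (m + 1)
        = (1 - z) * (kap α β γ (m + 1) * z ^ (m + 1) * (1 - z)⁻¹) := by field_simp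
      _ ≤ (1 - z) * ∑' n : ℕ, kap α β γ n * z ^ n := by gcongr
      _ ≤ _ := hK2
  have h6 : kap α β γ (m + 1) * (1 / 2) ≤ kap α β γ (m + 1) * z ^ (m + 1) :=
    mul_le_mul_of_nonneg_left hzm (hpos _).le
  linarith

end Pool.Agent.H967.GGC
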