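import Pool.Agent.H967.GGC.Main3
import Pool.Agent.H967.GGC.VP1
import Pool.Agent.H967.GGC.VP2A
import Pool.Agent.H967.GGC.VP2B
import Pool.Agent.H967.GGC.VP2C
import Pool.Agent.H967.GGC.VP5A
import Pool.Agent.H967.GGC.VP5B
import Pool.Agent.H967.GGC.VP3B
import Pool.Agent.H967.GGC.VP4
import Pool.Agent.H967.GGC.VX3
import Pool.Agent.H967.GGC.VP3C
import Pool.Agent.H967.GGC.VX1

set_option autoImplicit false

namespace Pool.Agent.H967.GGC

alias KK_eq_phA := KK_eq_phA_proof
alias caseA_lower := caseA_lower_proof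
alias caseB_lower := caseB_lower_proof
alias pivots_B := pivots_B_proof
alias caseA_deriv := caseA_deriv_proof
alias caseB_deriv := caseB_deriv_proof
alias th_ratio_tendsto := th_ratio_tendsto_proof
alias ge_of_antitone := ge_of_antitone_proof
alias numeric_gap := numeric_gap_proof
alias kap_bdd := kap_bdd_proof
alias xi_kap_mono := xi_kap_mono_proof

end Pool.Agent.H967.GGC
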