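import Pool.Agent.H967.GGC.Cl1

set_option autoImplicit false

namespace Pool.Agent.H967.GGC
open MeasureTheory Filter Topology Set
open Pool.Agent.R906.KB (Chain JArr eA phA chainA)

/-- P2 -/
theorem phA_lower_proof {p c : ℝ} (hp : 0 < p) (hc' : 0 < c) (hn : 1 < p + 1 - 2 * c) (t : ℝ) :
    1 + (2 * c - p) / (2 * c) * (Real.cosh t - 1) ≤
      ∑' j : ℕ, PowerSeries.coeff j (phA p c 0) * (t ^ (2 * j) / ((2 * j).factorial : ℝ)) := by
  obtain ⟨R, hR, he⟩ := Pool.Agent.R906.KB.eA_bound p hc'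
  have he0 : eA p c 0 = (2 * c - p) / (2 * c) := rfl
  have he0' : eA p c 0 ≤ 0 := by
    rw [he0]
    exact div_nonpos_of_nonpos_of_nonneg (by linarith) (by linarith)
  by_cases hcase : ∀ k : ℕ, 0 ≤ (2 * (k : ℝ) + 1 - (p + 1 - 2 * c)) *
      (2 * (k : ℝ) + 2 - (p + 1 - 2 * c))
  · have hb : ∀ k, 0 ≤ eA p c (2 * k) * eA p c (2 * k + 1) := by
      intro k
      obtain ⟨q, hq, h1⟩ := Pool.Agent.R906.KB.eA_sign hp hc' (2 * k)
      obtain ⟨q', hq', h2⟩ := Pool.Agent.R906.KB.eA_sign hp hc' (2 * k + 1)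
      rw [h1, h2]
      have := hcase k
      push_cast
      have h3 : q * (2 * (k : ℝ) + 1 - (p + 1 - 2 * c)) *
          (q' * (2 * (k : ℝ) + 1 + 1 - (p + 1 - 2 * c))) = (q * q') *
          ((2 * (k : ℝ) + 1 - (p + 1 - 2 * c)) * (2 * (k : ℝ) + 2 - (p + 1 - 2 * c))) := by
        ring
      rw [h3]
      exact mul_nonneg (by positivity) this
    have h1 := caseA_lower (chainA (p := p) hc') he hb t
    have h2 := caseB_lower_ker3 t
    rw [← he0]
    nlinarith
  · push Not at hcase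
    obtain ⟨k0, hk0⟩ := hcase
    obtain ⟨δ, hδ, hδ0, hδs⟩ := pivots_B hp hc'
    set n := p + 1 - 2 * c with hndef
    have hk1 : 2 * (k0 : ℝ) + 1 < n := by
      by_contra hcon
      push Not at hcon
      have : 0 ≤ (2 * (k0 : ℝ) + 1 - n) * (2 * (k0 : ℝ) + 2 - n) :=
        mul_nonneg (by linarith) (by linarith)
      linarith
    have hk2 : n < 2 * (k0 : ℝ) + 2 := by
      by_contra hcon
      push Not at hcon
      have : 0 ≤ (2 * (k0 : ℝ) + 1 - n) * (2 * (k0 : ℝ) + 2 - n) :=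
        mul_nonneg_of_nonpos_of_nonpos (by linarith) (by linarith)
      linarith
    have hb : ∀ k, 0 ≤ eA p c (2 * k + 1) * eA p c (2 * k + 2) := by
      intro k
      obtain ⟨q, hq, h1⟩ := Pool.Agent.R906.KB.eA_sign hp hc' (2 * k + 1)
      obtain ⟨q', hq', h2⟩ := Pool.Agent.R906.KB.eA_sign hp hc' (2 * k + 2)
      rw [h1, h2, ← hndef]
      push_cast
      have h3 : q * (2 * (k : ℝ) + 1 + 1 - n) * (q' * (2 * (k : ℝ) + 2 + 1 - n)) = (q * q') *
          ((2 * (k : ℝ) + 2 - n) * (2 * (k : ℝ) + 3 - n)) := by ring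
      rw [h3]
      apply mul_nonneg (by positivity)
      rcases Nat.lt_or_ge k k0 with hlt | hge
      · have : (k : ℝ) + 1 ≤ k0 := by exact_mod_cast hlt
        exact mul_nonneg_of_nonpos_of_nonpos (by linarith) (by linarith)
      · have : (k0 : ℝ) ≤ k := by exact_mod_cast hge
        exact mul_nonneg (by linarith) (by linarith)
    rw [← he0]
    exact caseB_lower (chainA (p := p) hc') he hb he0' hδ hδ0 hδs t

end Pool.Agent.H967.GGC
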