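import Pool.Agent.H967.GGC.Cl1

set_option autoImplicit false

namespace Pool.Agent.H967.GGC
open MeasureTheory Filter Topology Set

/-- the Laplace transform of a convolution (as `conv_ae_key` in the proof of `conv_ae`) -/
theorem KK_laplace_pos_conv (k f : ℝ → ℝ) (s : ℝ)
    (hk : IntegrableOn (fun x => Real.exp (-(s * x)) * k x) (Ioi 0))
    (hf : IntegrableOn (fun x => Real.exp (-(s * x)) * f x) (Ioi 0)) :
    ∫ x in Ioi (0:ℝ), Real.exp (-(s * x)) * ∫ y in Ioo 0 x, k y * f (x - y) =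
      (∫ x in Ioi (0:ℝ), Real.exp (-(s * x)) * k x) *
        ∫ x in Ioi (0:ℝ), Real.exp (-(s * x)) * f x := by
  have e : ∀ x ∈ Ioi (0:ℝ), (∫ t in (0:ℝ)..x, (ContinuousLinearMap.mul ℝ ℝ)
      (Real.exp (-(s * t)) * k t) (Real.exp (-(s * (x - t))) * f (x - t))) =
      Real.exp (-(s * x)) * ∫ y in Ioo 0 x, k y * f (x - y) := by
    intro x hx
    rw [intervalIntegral.integral_of_le (le_of_lt hx), integral_Ioc_eq_integral_Ioo,
      ← integral_const_mul]
    refine setIntegral_congr_fun measurableSet_Ioo fun t _ => ?_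
    simp only [ContinuousLinearMap.mul_apply']
    have : Real.exp (-(s * x)) = Real.exp (-(s * t)) * Real.exp (-(s * (x - t))) := by
      rw [← Real.exp_add]; congr 1; ring
    rw [this]; ring
  have h := integral_posConvolution hk hf (ContinuousLinearMap.mul ℝ ℝ)
  rw [← setIntegral_congr_fun measurableSet_Ioi e]
  exact h

/-- multiplication with `e^(-sx)` keeps integrability -/
theorem KK_laplace_pos_int {g : ℝ → ℝ} (hg : IntegrableOn g (Ioi 0)) {s : ℝ} (hs : 0 ≤ s) :
    IntegrableOn (fun x => Real.exp (-(s * x)) * g x) (Ioi 0) := by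
  refine Integrable.mono hg ?_ ?_
  · exact (Continuous.aestronglyMeasurable (by fun_prop)).mul hg.aestronglyMeasurable
  · filter_upwards [ae_restrict_mem measurableSet_Ioi] with x hx
    rw [norm_mul, Real.norm_eq_abs, abs_of_pos (Real.exp_pos _)]
    have h1 : Real.exp (-(s * x)) ≤ 1 := by
      rw [Real.exp_le_one_iff]
      have : 0 ≤ s * x := mul_nonneg hs (le_of_lt hx)
      linarith
    exact mul_le_of_le_one_left (norm_nonneg _) h1

/-- P3A -/
theorem KK_laplace_pos_proof {α β γ b c M : ℝ} (hα : 0 < α) (hβ : 0 < β) (hγ : 0 < γ) (hc0 : 0 < c)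
    (hcb : c < b) (hM : 0 < M) {f : ℝ → ℝ} (hf : ∀ x, 0 < x → 0 ≤ f x)
    (hL : ∀ s : ℝ, 0 ≤ s → IntegrableOn (fun x => Real.exp (-(s * x)) * f x) (Ioi 0) ∧
      ∫ x in Ioi (0 : ℝ), Real.exp (-(s * x)) * f x =
        M * ((b + s) ^ (-(2 * β)) * F α β γ (c ^ 2 / (b + s) ^ 2)))
    (hK : ∀ x, 0 < x → 0 ≤ KK α β γ x) :
    ∀ s : ℝ, 0 < s → IntegrableOn (fun x => Real.exp (-((b + s) * x)) * KK α β γ (c * x)) (Ioi 0) ∧
      ∫ x in Ioi (0 : ℝ), Real.exp (-((b + s) * x)) * KK α β γ (c * x) =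
        2 * β * F α (β + 1) γ (c ^ 2 / (b + s) ^ 2) /
          ((b + s) * F α β γ (c ^ 2 / (b + s) ^ 2)) := by
  have hb : 0 < b := hc0.trans hcb
  obtain ⟨hxi, hxL⟩ := xf_integrable hα hβ hγ hc0 hcb hM hf hL
  have hconv := conv_ae hα hβ hγ hc0 hcb hM hf hL
  have hFs : ∀ s : ℝ, 0 ≤ s → 0 < F α β γ (c ^ 2 / (b + s) ^ 2) := by
    intro s hs
    refine F_pos hα hβ hγ (by positivity) ?_
    rw [div_lt_one (by positivity)]
    exact pow_lt_pow_left₀ (by linarith) hc0.le two_ne_zero
  -- the mass of `f`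
  have h0 := hL 0 le_rfl
  have e0 : (fun x : ℝ => Real.exp (-(0 * x)) * f x) = f := by
    funext x
    rw [zero_mul, neg_zero, Real.exp_zero, one_mul]
  rw [e0] at h0
  set m := ∫ x in Ioi (0 : ℝ), f x with hm
  have hmpos : 0 < m := by
    rw [h0.2]
    have h1 := hFs 0 le_rfl
    have h2 : 0 < (b + 0) ^ (-(2 * β)) := Real.rpow_pos_of_pos (by linarith) _
    positivity
  -- continuity of `k`
  have hKc : Continuous (KK α β γ) :=
    continuous_iff_continuousAt.2 fun x => ((KK_props hα hβ hγ).1 x).continuousAt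
  have hkc : Continuous (fun x => Real.exp (-(b * x)) * KK α β γ (c * x)) := by
    have h1 : Continuous (fun x : ℝ => KK α β γ (c * x)) := hKc.comp (by fun_prop)
    have h2 : Continuous (fun x : ℝ => Real.exp (-(b * x))) := by fun_prop
    exact h2.mul h1
  have hk0 : ∀ x, 0 < x → 0 ≤ Real.exp (-(b * x)) * KK α β γ (c * x) := fun x hx =>
    mul_nonneg (Real.exp_pos _).le (hK _ (mul_pos hc0 hx))
  -- `k` is integrable
  have hki : IntegrableOn (fun x => Real.exp (-(b * x)) * KK α β γ (c * x)) (Ioi 0) := by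
    have h1 : IntegrableOn (fun x => f x / m) (Ioi 0) := h0.1.div_const m
    have h2 : IntegrableOn (fun x => x * (f x / m)) (Ioi 0) := by
      have h3 : IntegrableOn (fun x => x * f x / m) (Ioi 0) := hxi.div_const m
      refine h3.congr_fun (fun x _ => ?_) measurableSet_Ioi
      exact (mul_div_assoc x (f x) m)
    have h3 : ∫ x in Ioi (0 : ℝ), f x / m = 1 := by
      rw [integral_div, ← hm, div_self hmpos.ne']
    have h4 : ∀ᵐ x ∂(volume.restrict (Ioi (0 : ℝ))), x * (f x / m) =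
        ∫ y in Ioo 0 x, (Real.exp (-(b * y)) * KK α β γ (c * y)) * (f (x - y) / m) := by
      filter_upwards [hconv] with x hx
      have e : (∫ y in Ioo 0 x, (Real.exp (-(b * y)) * KK α β γ (c * y)) * (f (x - y) / m)) =
          (∫ y in Ioo 0 x, (Real.exp (-(b * y)) * KK α β γ (c * y)) * f (x - y)) / m := by
        rw [← integral_div]
        refine setIntegral_congr_fun measurableSet_Ioo fun y _ => ?_
        exact (mul_div_assoc _ _ _).symm
      rw [e, ← hx, mul_div_assoc]
    exact (exponent_of_conv (f := fun x => f x / m)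
      (fun x hx => div_nonneg (hf x hx) hmpos.le) h1 h2 h3 hkc hk0 h4).1
  intro s hs
  have hks := KK_laplace_pos_int hki hs.le
  have ek : (fun x => Real.exp (-(s * x)) * (Real.exp (-(b * x)) * KK α β γ (c * x))) =
      fun x => Real.exp (-((b + s) * x)) * KK α β γ (c * x) := by
    funext x
    rw [← mul_assoc, ← Real.exp_add]
    congr 2
    ring
  have hkey := KK_laplace_pos_conv (fun y => Real.exp (-(b * y)) * KK α β γ (c * y)) f s hks
    (hL s hs.le).1
  have hleft : ∫ x in Ioi (0:ℝ), Real.exp (-(s * x)) *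
      ∫ y in Ioo 0 x, (Real.exp (-(b * y)) * KK α β γ (c * y)) * f (x - y) =
      ∫ x in Ioi (0:ℝ), Real.exp (-(s * x)) * (x * f x) := by
    refine integral_congr_ae ?_
    filter_upwards [hconv] with x hx
    rw [hx]
  rw [ek] at hks
  simp only [ek] at hkey
  refine ⟨hks, ?_⟩
  rw [hleft, hxL s hs, (hL s hs.le).2] at hkey
  have hp : 0 < b + s := by linarith
  have hF := hFs s hs.le
  have hr : 0 < (b + s) ^ (-(2 * β)) := Real.rpow_pos_of_pos hp _
  have e1 : (b + s) ^ (-(2 * β) - 1) = (b + s) ^ (-(2 * β)) / (b + s) := by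
    rw [Real.rpow_sub hp, Real.rpow_one]
  rw [e1] at hkey
  have hne : M * ((b + s) ^ (-(2 * β)) * F α β γ (c ^ 2 / (b + s) ^ 2)) ≠ 0 := by positivity
  rw [← mul_left_inj' hne, ← hkey]
  field_simp

end Pool.Agent.H967.GGC
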