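import Pool.Agent.H967.GGC.Cl1

set_option autoImplicit false

/-!
# P6: the lower bound `p cosh x` for the first family (helper120, for helper967)
-/

namespace Pool.Agent.H967.GGC
open MeasureTheory Filter Topology Set
open Pool.Agent.R906.KB (Chain JArr eA phA chainA)

/-- inside the proof of `kap_ge` -/
theorem KK_ge_cosh_proof_aux {p c : ℝ} (hp : 0 < p) (hc : 0 < c) (hn : 0 < p + 1 - 2 * c)
    (t : ℝ) :
    ∑' j : ℕ, PowerSeries.coeff j (phA p c 0) * (t ^ (2 * j) / ((2 * j).factorial : ℝ)) ≤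
      Real.cosh t := by
  obtain ⟨R, hR, he⟩ := Pool.Agent.R906.KB.eA_bound p hc
  by_cases hcase : ∀ k : ℕ, 0 ≤ (2 * (k : ℝ) + 1 - (p + 1 - 2 * c)) *
      (2 * (k : ℝ) + 2 - (p + 1 - 2 * c))
  · apply Pool.Agent.R906.KB.caseA (chainA hc) he _ (Pool.Agent.R906.KB.dl_pos hp hc) _
      (Pool.Agent.R906.KB.dl_succ hp hc)
    · intro k
      obtain ⟨q, hq, h1⟩ := Pool.Agent.R906.KB.eA_sign hp hc (2 * k)
      obtain ⟨q', hq', h2⟩ := Pool.Agent.R906.KB.eA_sign hp hc (2 * k + 1)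
      rw [h1, h2]
      have := hcase k
      push_cast
      have h3 : q * (2 * (k : ℝ) + 1 - (p + 1 - 2 * c)) *
          (q' * (2 * (k : ℝ) + 1 + 1 - (p + 1 - 2 * c))) = (q * q') *
          ((2 * (k : ℝ) + 1 - (p + 1 - 2 * c)) * (2 * (k : ℝ) + 2 - (p + 1 - 2 * c))) := by
        ring
      rw [h3]
      exact mul_nonneg (by positivity) this
    · simp only [Pool.Agent.R906.KB.dl, eA]
      field_simp
      ring
  · push Not at hcase
    obtain ⟨k0, hk0⟩ := hcase
    set n := p + 1 - 2 * c with hndef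
    have hk1 : 2 * (k0 : ℝ) + 1 < n := by
      by_contra hcon
      push Not at hcon
      have : 0 ≤ (2 * (k0 : ℝ) + 1 - n) * (2 * (k0 : ℝ) + 2 - n) :=
        mul_nonneg (by linarith) (by linarith)
      linarith
    have hk2 : n < 2 * (k0 : ℝ) + 2 := by
      by_contra hcon
      push Not at hcon
      have : 0 ≤ (2 * (k0 : ℝ) + 1 - n) * (2 * (k0 : ℝ) + 2 - n) :=
        mul_nonneg_of_nonpos_of_nonpos (by linarith) (by linarith)
      linarith
    refine le_trans (Pool.Agent.R906.KB.caseB (chainA hc) he ?_ ?_ t) (Real.one_le_cosh t)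
    · intro k
      obtain ⟨q, hq, h1⟩ := Pool.Agent.R906.KB.eA_sign hp hc (2 * k + 1)
      obtain ⟨q', hq', h2⟩ := Pool.Agent.R906.KB.eA_sign hp hc (2 * k + 2)
      rw [h1, h2, ← hndef]
      push_cast
      have h3 : q * (2 * (k : ℝ) + 1 + 1 - n) * (q' * (2 * (k : ℝ) + 2 + 1 - n)) = (q * q') *
          ((2 * (k : ℝ) + 2 - n) * (2 * (k : ℝ) + 3 - n)) := by ring
      rw [h3]
      apply mul_nonneg (by positivity)
      rcases Nat.lt_or_ge k k0 with hlt | hge
      · have : (k : ℝ) + 1 ≤ k0 := by exact_mod_cast hlt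
        exact mul_nonneg_of_nonpos_of_nonpos (by linarith) (by linarith)
      · have : (k0 : ℝ) ≤ k := by exact_mod_cast hge
        exact mul_nonneg (by linarith) (by linarith)
    · obtain ⟨q, hq, h1⟩ := Pool.Agent.R906.KB.eA_sign hp hc 0
      rw [h1, ← hndef]
      have : (0 : ℝ) ≤ k0 := Nat.cast_nonneg _
      push_cast
      exact mul_nonpos_of_nonneg_of_nonpos hq.le (by linarith)

/-- P6 -/
theorem KK_ge_cosh_proof {p c : ℝ} (hp : 0 < p) (hc' : 0 < c) (hn : 0 < p + 1 - 2 * c) (x : ℝ) :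
    p * Real.cosh x ≤ KK ((p + 1) / 2) (p / 2) c x := by
  have hg := KK_ge_cosh_proof_aux hp hc' hn x
  rw [KK_eq_phA hp hc' x]
  have h1 := mul_le_mul_of_nonneg_left hg hn.le
  have h2 : (p + (p + 1 - 2 * c)) * Real.cosh x =
      p * Real.cosh x + (p + 1 - 2 * c) * Real.cosh x := by ring
  rw [h2]
  linarith

end Pool.Agent.H967.GGC
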