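import Pool.Agent.H967.GGC.Cl1

set_option autoImplicit false

/-! Leaf X2 of the project TH of helper967. -/

namespace Pool.Agent.H967.GGC
open MeasureTheory Filter Topology Set

theorem KK_exists_gt'_pow {x : ℝ} (hx : 0 ≤ x) (m : ℕ) : (m : ℝ) * x ^ (m - 1) ≤ (1 + x) ^ m := by
  induction m with
  | zero => simp
  | succ m ih =>
    rcases Nat.eq_zero_or_pos m with rfl | hm
    · simp only [zero_add, Nat.cast_one, Nat.sub_self, pow_zero, mul_one, pow_one]
      linarith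
    · have h1 : x ^ m ≤ (1 + x) ^ m := pow_le_pow_left₀ hx (by linarith) m
      have h2 : x * ((m : ℝ) * x ^ (m - 1)) ≤ x * (1 + x) ^ m := mul_le_mul_of_nonneg_left ih hx
      have h3 : x * ((m : ℝ) * x ^ (m - 1)) = m * x ^ m := by
        have : x ^ m = x ^ (m - 1) * x := by
          rw [← pow_succ, Nat.sub_add_cancel hm]
        rw [this]
        ring
      rw [Nat.add_sub_cancel, pow_succ]
      push_cast
      linarith

theorem KK_exists_gt'_bound {M S k : ℝ} (hM : 0 < M) (hS : 1 ≤ S) {n : ℕ} (hk : |k| ≤ M * S ^ n)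
    {x R : ℝ} (hx : |x| ≤ R) :
    ‖k * x ^ (2 * n) / ((2 * n).factorial : ℝ)‖ ≤
      M * ((√S * (1 + R)) ^ (2 * n) / ((2 * n).factorial : ℝ)) ∧
    ‖k * (((2 * n : ℕ) : ℝ) * x ^ (2 * n - 1)) / ((2 * n).factorial : ℝ)‖ ≤
      M * ((√S * (1 + R)) ^ (2 * n) / ((2 * n).factorial : ℝ)) := by
  have hf : (0 : ℝ) < ((2 * n).factorial : ℝ) := by exact_mod_cast Nat.factorial_pos _
  have hx0 : 0 ≤ |x| := abs_nonneg x
  have hR : 0 ≤ R := hx0.trans hx
  have hS0 : 0 ≤ S := by linarith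
  have e : M * ((√S * (1 + R)) ^ (2 * n) / ((2 * n).factorial : ℝ)) =
      (M * S ^ n) * (1 + R) ^ (2 * n) / ((2 * n).factorial : ℝ) := by
    rw [mul_pow, pow_mul (√S), Real.sq_sqrt hS0]
    ring
  have h1 : (1 + |x|) ^ (2 * n) ≤ (1 + R) ^ (2 * n) :=
    pow_le_pow_left₀ (by linarith) (by linarith) _
  have hMS : 0 ≤ M * S ^ n := by positivity
  rw [e]
  constructor
  · rw [norm_div, norm_mul, norm_pow, Real.norm_eq_abs, Real.norm_eq_abs, Real.norm_eq_abs,
      abs_of_pos hf]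
    refine div_le_div_of_nonneg_right (mul_le_mul hk ?_ (by positivity) hMS) hf.le
    exact (pow_le_pow_left₀ hx0 (by linarith) _).trans h1
  · rw [norm_div, norm_mul, norm_mul, norm_pow, Real.norm_eq_abs, Real.norm_eq_abs,
      Real.norm_eq_abs, Real.norm_eq_abs, abs_of_pos hf,
      abs_of_nonneg (show (0 : ℝ) ≤ ((2 * n : ℕ) : ℝ) from Nat.cast_nonneg _)]
    refine div_le_div_of_nonneg_right (mul_le_mul hk ?_ (by positivity) hMS) hf.le
    exact (KK_exists_gt'_pow hx0 (2 * n)).trans h1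

theorem KK_exists_gt'_sum (M r : ℝ) :
    HasSum (fun n : ℕ => M * (r ^ (2 * n) / ((2 * n).factorial : ℝ))) (M * Real.cosh r) :=
  (Real.hasSum_cosh r).mul_left M

theorem KK_exists_gt'_summable {M S : ℝ} {k : ℕ → ℝ} (hM : 0 < M) (hS : 1 ≤ S)
    (hk : ∀ n, |k n| ≤ M * S ^ n) (x : ℝ) :
    Summable (fun n : ℕ => k n * x ^ (2 * n) / ((2 * n).factorial : ℝ)) :=
  Summable.of_norm_bounded (KK_exists_gt'_sum M (√S * (1 + |x|))).summable
    fun n => (KK_exists_gt'_bound hM hS (hk n) le_rfl).1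

/-- the first derivative -/
theorem KK_exists_gt'_d1 {M S : ℝ} {k : ℕ → ℝ} (hM : 0 < M) (hS : 1 ≤ S)
    (hk : ∀ n, |k n| ≤ M * S ^ n) (x : ℝ) :
    HasDerivAt (fun x : ℝ => ∑' n : ℕ, k n * x ^ (2 * n) / ((2 * n).factorial : ℝ))
      (∑' n : ℕ, k (n + 1) * x ^ (2 * n + 1) / ((2 * n + 1).factorial : ℝ)) x := by
  have hx : x ∈ Metric.ball (0 : ℝ) (|x| + 1) := by
    rw [Metric.mem_ball, dist_zero_right, Real.norm_eq_abs]
    linarith
  have h1 : HasDerivAt (fun x : ℝ => ∑' n : ℕ, k n * x ^ (2 * n) / ((2 * n).factorial : ℝ))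
      (∑' n : ℕ, k n * (((2 * n : ℕ) : ℝ) * x ^ (2 * n - 1)) / ((2 * n).factorial : ℝ)) x := by
    refine hasDerivAt_tsum_of_isPreconnected
      (g := fun (n : ℕ) (x : ℝ) => k n * x ^ (2 * n) / ((2 * n).factorial : ℝ))
      (g' := fun (n : ℕ) (x : ℝ) => k n * (((2 * n : ℕ) : ℝ) * x ^ (2 * n - 1)) / ((2 * n).factorial : ℝ))
      (t := Metric.ball (0 : ℝ) (|x| + 1))
      (KK_exists_gt'_sum M (√S * (1 + (|x| + 1)))).summable Metric.isOpen_ball
      (convex_ball (0 : ℝ) (|x| + 1)).isPreconnected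
      (fun n y _ => ((hasDerivAt_pow (2 * n) y).const_mul _).div_const _) ?_ hx
      (KK_exists_gt'_summable hM hS hk x) hx
    intro n y hy
    rw [Metric.mem_ball, dist_zero_right, Real.norm_eq_abs] at hy
    exact (KK_exists_gt'_bound hM hS (hk n) hy.le).2
  have h2 : Summable (fun n : ℕ => k n * (((2 * n : ℕ) : ℝ) * x ^ (2 * n - 1)) /
      ((2 * n).factorial : ℝ)) :=
    Summable.of_norm_bounded (KK_exists_gt'_sum M (√S * (1 + |x|))).summable
      fun n => (KK_exists_gt'_bound hM hS (hk n) le_rfl).2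
  have h3 : (∑' n : ℕ, k n * (((2 * n : ℕ) : ℝ) * x ^ (2 * n - 1)) / ((2 * n).factorial : ℝ)) =
      ∑' n : ℕ, k (n + 1) * x ^ (2 * n + 1) / ((2 * n + 1).factorial : ℝ) := by
    rw [h2.tsum_eq_zero_add]
    have e0 : k 0 * (((2 * 0 : ℕ) : ℝ) * x ^ (2 * 0 - 1)) / ((2 * 0).factorial : ℝ) = 0 := by simp
    rw [e0, zero_add]
    apply tsum_congr
    intro n
    have e1 : 2 * (n + 1) - 1 = 2 * n + 1 := by omega
    have e2 : 2 * (n + 1) = (2 * n + 1) + 1 := by ring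
    rw [e1, e2, Nat.factorial_succ]
    have hf : ((2 * n + 1).factorial : ℝ) ≠ 0 := by exact_mod_cast Nat.factorial_ne_zero _
    have hn : (((2 * n + 1 + 1 : ℕ)) : ℝ) ≠ 0 := Nat.cast_ne_zero.2 (by omega)
    rw [Nat.cast_mul]
    field_simp
  rw [h3] at h1
  exact h1

/-- the second derivative -/
theorem KK_exists_gt'_d2 {M S : ℝ} {k : ℕ → ℝ} (hM : 0 < M) (hS : 1 ≤ S)
    (hk : ∀ n, |k n| ≤ M * S ^ n) (x : ℝ) :
    HasDerivAt (fun x : ℝ => ∑' n : ℕ, k (n + 1) * x ^ (2 * n + 1) / ((2 * n + 1).factorial : ℝ))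
      (∑' n : ℕ, k (n + 1) * x ^ (2 * n) / ((2 * n).factorial : ℝ)) x := by
  have hx : x ∈ Metric.ball (0 : ℝ) (|x| + 1) := by
    rw [Metric.mem_ball, dist_zero_right, Real.norm_eq_abs]
    linarith
  have h0 : (0 : ℝ) ∈ Metric.ball (0 : ℝ) (|x| + 1) := by
    rw [Metric.mem_ball, dist_self]
    have := abs_nonneg x
    linarith
  have hk' : ∀ n, |k (n + 1)| ≤ (M * S) * S ^ n := by
    intro n
    refine (hk (n + 1)).trans (le_of_eq ?_)
    rw [pow_succ]; ring
  have hMS : 0 < M * S := mul_pos hM (by linarith)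
  refine hasDerivAt_tsum_of_isPreconnected
    (g := fun (n : ℕ) (x : ℝ) => k (n + 1) * x ^ (2 * n + 1) / ((2 * n + 1).factorial : ℝ))
    (g' := fun (n : ℕ) (x : ℝ) => k (n + 1) * x ^ (2 * n) / ((2 * n).factorial : ℝ))
    (t := Metric.ball (0 : ℝ) (|x| + 1))
    (KK_exists_gt'_sum (M * S) (√S * (1 + (|x| + 1)))).summable Metric.isOpen_ball
    (convex_ball (0 : ℝ) (|x| + 1)).isPreconnected ?_ ?_ h0 ?_ hx
  · intro n y _
    have h1 := ((hasDerivAt_pow (2 * n + 1) y).const_mul (k (n + 1))).div_const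
      ((2 * n + 1).factorial : ℝ)
    have e : k (n + 1) * (((2 * n + 1 : ℕ) : ℝ) * y ^ (2 * n + 1 - 1)) / ((2 * n + 1).factorial : ℝ) =
        k (n + 1) * y ^ (2 * n) / ((2 * n).factorial : ℝ) := by
      rw [Nat.add_sub_cancel, Nat.factorial_succ, Nat.cast_mul]
      have hf : ((2 * n).factorial : ℝ) ≠ 0 := by exact_mod_cast Nat.factorial_ne_zero _
      have hn : (((2 * n + 1 : ℕ)) : ℝ) ≠ 0 := Nat.cast_ne_zero.2 (by omega)
      field_simp
    rw [e] at h1
    exact h1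
  · intro n y hy
    rw [Metric.mem_ball, dist_zero_right, Real.norm_eq_abs] at hy
    exact (KK_exists_gt'_bound hMS hS (hk' n) hy.le).1
  · refine summable_zero.congr fun n => ?_
    rw [zero_pow (Nat.succ_ne_zero _), mul_zero, zero_div]

/-- X2 -/
theorem KK_exists_gt'_proof {α β γ : ℝ} (hα : 0 < α) (hβ : 0 < β) (hγ : 0 < γ)
    (h : ∀ n, kap α β γ (n + 1) ≤ kap α β γ (n + 2)) (h12 : kap α β γ 1 < kap α β γ 2)
    (h0 : 0 < kap α β γ 1) : ∃ x, 0 < x ∧ KK α β γ x < deriv (KK α β γ) x := by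
  obtain ⟨M, S, hM, hS, hk⟩ := kap_bound hα hβ hγ
  obtain ⟨A, hA⟩ : ∃ A, A = kap α β γ 1 - kap α β γ 0 := ⟨_, rfl⟩
  obtain ⟨B, hB⟩ : ∃ B, B = kap α β γ 2 - kap α β γ 1 := ⟨_, rfl⟩
  have hB0 : 0 < B := by rw [hB]; linarith
  have hk2 : 0 < kap α β γ 2 := h0.trans h12
  obtain ⟨G, hG⟩ : ∃ G : ℝ → ℝ, G = fun x =>
    ∑' n : ℕ, kap α β γ (n + 1) * x ^ (2 * n + 1) / ((2 * n + 1).factorial : ℝ) := ⟨_, rfl⟩
  obtain ⟨L, hL⟩ : ∃ L : ℝ → ℝ, L = fun x =>
    ∑' n : ℕ, kap α β γ (n + 1) * x ^ (2 * n) / ((2 * n).factorial : ℝ) := ⟨_, rfl⟩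
  have D1 : ∀ x, HasDerivAt (KK α β γ) (G x) x := by
    intro x
    rw [hG]
    exact KK_exists_gt'_d1 hM hS hk x
  have D2 : ∀ x, HasDerivAt G (L x) x := by
    intro x
    rw [hG, hL]
    exact KK_exists_gt'_d2 hM hS hk x
  have hk' : ∀ n, |kap α β γ (n + 1)| ≤ (M * S) * S ^ n := by
    intro n
    refine (hk (n + 1)).trans (le_of_eq ?_)
    rw [pow_succ]; ring
  have hMS : 0 < M * S := mul_pos hM (by linarith)
  have s1 := fun x => KK_exists_gt'_summable hM hS hk x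
  have s2 := fun x => KK_exists_gt'_summable hMS hS hk' x
  have hxn : ∀ (x : ℝ) (n : ℕ), 0 ≤ x ^ (2 * n) / ((2 * n).factorial : ℝ) := by
    intro x n
    have : 0 ≤ x ^ (2 * n) := by rw [pow_mul]; positivity
    positivity
  have hLK : ∀ x, KK α β γ x + (A + B * (x ^ 2 / 2)) ≤ L x := by
    intro x
    have e1 : L x - KK α β γ x = ∑' n : ℕ, (kap α β γ (n + 1) - kap α β γ n) *
        (x ^ (2 * n) / ((2 * n).factorial : ℝ)) := by
      rw [hL]
      unfold KK
      simp only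
      rw [← (s2 x).tsum_sub (s1 x)]
      apply tsum_congr
      intro n
      ring
    have s3 : Summable (fun n : ℕ => (kap α β γ (n + 1) - kap α β γ n) *
        (x ^ (2 * n) / ((2 * n).factorial : ℝ))) := by
      refine ((s2 x).sub (s1 x)).congr fun n => ?_
      ring
    have e2 : A + B * (x ^ 2 / 2) ≤ ∑' n : ℕ, (kap α β γ (n + 1) - kap α β γ n) *
        (x ^ (2 * n) / ((2 * n).factorial : ℝ)) := by
      refine le_trans (le_of_eq ?_) (s3.sum_le_tsum (Finset.range 2) fun n hn => ?_)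
      · rw [Finset.sum_range_succ, Finset.sum_range_one, hA, hB]
        norm_num
      · have hn2 : 2 ≤ n := by
          rw [Finset.mem_range] at hn
          omega
        obtain ⟨m, rfl⟩ := Nat.exists_eq_add_of_le hn2
        have h3 := h (m + 1)
        have e4 : m + 1 + 1 = 2 + m := by omega
        have e5 : m + 1 + 2 = 2 + m + 1 := by omega
        rw [e4, e5] at h3
        exact mul_nonneg (sub_nonneg.2 h3) (hxn x _)
    linarith
  -- the function `exp x (KK' - KK - A - B (x ^ 2 / 2 - x + 1))`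
  have D3 : ∀ x, HasDerivAt (fun x => Real.exp x *
      (G x - KK α β γ x - (A + B * (x ^ 2 / 2 - x + 1))))
      (Real.exp x * (L x - KK α β γ x - (A + B * (x ^ 2 / 2)))) x := by
    intro x
    have h5 : HasDerivAt (fun x : ℝ => A + B * (x ^ 2 / 2 - x + 1)) (B * (x - 1)) x := by
      have h6 := (((((hasDerivAt_pow 2 x).div_const 2).sub (hasDerivAt_id x)).add_const
        (1 : ℝ)).const_mul B).const_add A
      have e6 : B * (((2 : ℕ) : ℝ) * x ^ (2 - 1) / 2 - 1) = B * (x - 1) := by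
        norm_num
      rw [e6] at h6
      exact h6
    have h1 := (Real.hasDerivAt_exp x).mul (((D2 x).sub (D1 x)).sub h5)
    have e : Real.exp x * (G x - KK α β γ x - (A + B * (x ^ 2 / 2 - x + 1))) +
        Real.exp x * (L x - G x - B * (x - 1)) =
        Real.exp x * (L x - KK α β γ x - (A + B * (x ^ 2 / 2))) := by ring
    rw [← e]
    exact h1
  have hmono : Monotone (fun x => Real.exp x *
      (G x - KK α β γ x - (A + B * (x ^ 2 / 2 - x + 1)))) := by
    refine monotone_of_deriv_nonneg (fun x => (D3 x).differentiableAt) fun x => ?_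
    rw [(D3 x).deriv]
    exact mul_nonneg (Real.exp_pos x).le (by have := hLK x; linarith)
  have hG0 : G 0 = 0 := by
    rw [hG]
    simp only
    refine Eq.trans (tsum_congr fun n => ?_) tsum_zero
    rw [zero_pow (Nat.succ_ne_zero _), mul_zero, zero_div]
  have hKK0 : KK α β γ 0 = kap α β γ 0 := by
    unfold KK
    rw [tsum_eq_single 0]
    · simp
    · intro n hn
      have : 2 * n ≠ 0 := by omega
      rw [zero_pow this]
      simp
  -- a large `x`
  obtain ⟨t, ht⟩ : ∃ t : ℝ, t = 1 + 2 * (|A| + kap α β γ 2 + 1) / B := ⟨_, rfl⟩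
  have ht1 : 1 ≤ t := by
    rw [ht]
    have h7 : 0 ≤ 2 * (|A| + kap α β γ 2 + 1) / B := by positivity
    linarith
  have ht2 : 2 * (|A| + kap α β γ 2 + 1) ≤ B * t ^ 2 := by
    have h8 : 2 * (|A| + kap α β γ 2 + 1) / B ≤ t := by
      rw [ht]
      linarith
    rw [div_le_iff₀ hB0] at h8
    have h9 : t ≤ t ^ 2 := by nlinarith
    nlinarith
  refine ⟨1 + t, by linarith, ?_⟩
  rw [(D1 (1 + t)).deriv]
  have h2 := hmono (show (0 : ℝ) ≤ 1 + t by linarith)
  simp only [Real.exp_zero, one_mul, hG0, hKK0, zero_sub] at h2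
  have h10 : kap α β γ 2 + 1 ≤ A + B * ((1 + t) ^ 2 / 2 - (1 + t) + 1) := by
    have e7 : A + B * ((1 + t) ^ 2 / 2 - (1 + t) + 1) = A + B * t ^ 2 / 2 + B / 2 := by ring
    rw [e7]
    have h11 := neg_abs_le A
    linarith
  have h12' : 1 ≤ Real.exp (1 + t) := Real.one_le_exp (by linarith)
  have h13 : Real.exp (1 + t) * (kap α β γ 2 + 1) ≤
      Real.exp (1 + t) * (A + B * ((1 + t) ^ 2 / 2 - (1 + t) + 1)) :=
    mul_le_mul_of_nonneg_left h10 (Real.exp_pos _).le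
  have h14 : kap α β γ 2 < Real.exp (1 + t) * (kap α β γ 2 + 1) := by nlinarith
  have h15 : 0 < Real.exp (1 + t) * (G (1 + t) - KK α β γ (1 + t)) := by
    have e8 : Real.exp (1 + t) * (G (1 + t) - KK α β γ (1 + t)) =
        Real.exp (1 + t) * (G (1 + t) - KK α β γ (1 + t) -
          (A + B * ((1 + t) ^ 2 / 2 - (1 + t) + 1))) +
        Real.exp (1 + t) * (A + B * ((1 + t) ^ 2 / 2 - (1 + t) + 1)) := by ring
    rw [e8]
    have e9 : -kap α β γ 0 - (A + B * ((0 : ℝ) ^ 2 / 2 - 0 + 1)) = -kap α β γ 2 := by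
      rw [hA, hB]
      ring
    rw [e9] at h2
    linarith
  have h16 : 0 < G (1 + t) - KK α β γ (1 + t) := pos_of_mul_pos_right h15 (Real.exp_pos _).le
  linarith

end Pool.Agent.H967.GGC
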