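import Pool.Agent.H967.GGC.Cl1

set_option autoImplicit false

namespace Pool.Agent.H967.GGC
open MeasureTheory Filter Topology Set

theorem KK_bounds_proof_pos {α β γ : ℝ} (hβ : 0 < β)
    (h : ∀ n, kap α β γ (n + 1) ≤ kap α β γ (n + 2)) (h0 : 0 < kap α β γ 1) :
    ∃ m : ℝ, 0 < m ∧ ∀ n, m ≤ kap α β γ n := by
  have h1 : ∀ n, kap α β γ 1 ≤ kap α β γ (n + 1) := by
    intro n
    induction n with
    | zero => exact le_rfl
    | succ n ih => exact ih.trans (h n)
  refine ⟨min (kap α β γ 0) (kap α β γ 1), lt_min ?_ h0, ?_⟩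
  · rw [kap_zero]
    linarith
  · intro n
    cases n with
    | zero => exact min_le_left _ _
    | succ n => exact (min_le_right _ _).trans (h1 n)

theorem KK_bounds_proof_hasSum {α β γ m C : ℝ} (hm : 0 < m) (hmk : ∀ n, m ≤ kap α β γ n)
    (hC : ∀ n, kap α β γ n ≤ C) (x : ℝ) :
    HasSum (fun n : ℕ => kap α β γ n * x ^ (2 * n) / ((2 * n).factorial : ℝ)) (KK α β γ x) := by
  apply Summable.hasSum
  refine Summable.of_norm_bounded ((Real.hasSum_cosh x).summable.mul_left C) ?_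
  intro n
  have h1 : 0 ≤ x ^ (2 * n) / ((2 * n).factorial : ℝ) := by
    have : 0 ≤ x ^ (2 * n) := by rw [pow_mul]; positivity
    positivity
  rw [mul_div_assoc, Real.norm_eq_abs, abs_of_nonneg (mul_nonneg (hm.le.trans (hmk n)) h1)]
  exact mul_le_mul_of_nonneg_right (hC n) h1

/-- X4 -/
theorem KK_bounds_proof {α β γ C : ℝ} (hα : 0 < α) (hβ : 0 < β) (hγ : 0 < γ)
    (h : ∀ n, kap α β γ (n + 1) ≤ kap α β γ (n + 2)) (h0 : 0 < kap α β γ 1)
    (hC : ∀ n, kap α β γ n ≤ C) :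
    (∀ x, 0 < x → 0 < KK α β γ x) ∧ ∃ T : ℝ, ∀ x, 0 < x → deriv (KK α β γ) x ≤ T * KK α β γ x := by
  obtain ⟨m, hm, hmk⟩ := KK_bounds_proof_pos hβ h h0
  have hCm : m ≤ C := (hmk 0).trans (hC 0)
  have hC0 : 0 < C := lt_of_lt_of_le hm hCm
  have hS := fun x => KK_bounds_proof_hasSum hm hmk hC x
  have hx0 : ∀ (x : ℝ) (n : ℕ), 0 ≤ x ^ (2 * n) / ((2 * n).factorial : ℝ) := by
    intro x n
    have : 0 ≤ x ^ (2 * n) := by rw [pow_mul]; positivity
    positivity
  have hlow : ∀ x, m * Real.cosh x ≤ KK α β γ x := by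
    intro x
    refine hasSum_le ?_ ((Real.hasSum_cosh x).mul_left m) (hS x)
    intro n
    rw [mul_div_assoc]
    exact mul_le_mul_of_nonneg_right (hmk n) (hx0 x n)
  have hpos : ∀ x, 0 < KK α β γ x := fun x =>
    lt_of_lt_of_le (mul_pos hm (Real.cosh_pos x)) (hlow x)
  refine ⟨fun x _ => hpos x, C / m, ?_⟩
  intro x hx
  obtain ⟨hder, -, -, -⟩ := KK_props (α := α) (β := β) (γ := γ) hα hβ hγ
  -- `C cosh - KK` is monotone on `[0, ∞)`
  have hmono : MonotoneOn (fun y => C * Real.cosh y - KK α β γ y) (Ici 0) := by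
    intro y hy z hz hyz
    have hy' : 0 ≤ y := hy
    have s1 := ((Real.hasSum_cosh y).mul_left C).sub (hS y)
    have s2 := ((Real.hasSum_cosh z).mul_left C).sub (hS z)
    refine hasSum_le ?_ s1 s2
    intro n
    have e1 : ∀ t : ℝ, C * (t ^ (2 * n) / ((2 * n).factorial : ℝ)) -
        kap α β γ n * t ^ (2 * n) / ((2 * n).factorial : ℝ) =
        (C - kap α β γ n) * (t ^ (2 * n) / ((2 * n).factorial : ℝ)) := by
      intro t
      ring
    simp only [e1]
    refine mul_le_mul_of_nonneg_left ?_ (sub_nonneg.2 (hC n))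
    exact div_le_div_of_nonneg_right (pow_le_pow_left₀ hy' hyz _) (by positivity)
  have hd : HasDerivAt (fun y => C * Real.cosh y - KK α β γ y)
      (C * Real.sinh x - deriv (KK α β γ) x) x :=
    ((Real.hasDerivAt_cosh x).const_mul C).sub (hder x)
  have hnn : 0 ≤ C * Real.sinh x - deriv (KK α β γ) x := by
    have h1 := hmono.derivWithin_nonneg (x := x)
    rwa [derivWithin_of_mem_nhds (Ici_mem_nhds hx), hd.deriv] at h1
  have h2 : Real.sinh x ≤ Real.cosh x := (Real.sinh_lt_cosh x).le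
  have h3 : C * Real.sinh x ≤ C * Real.cosh x := mul_le_mul_of_nonneg_left h2 hC0.le
  have h4 : C * Real.cosh x ≤ C / m * KK α β γ x := by
    have := mul_le_mul_of_nonneg_left (hlow x) (div_pos hC0 hm).le
    rw [← mul_assoc, div_mul_cancel₀ _ hm.ne'] at this
    exact this
  linarith

end Pool.Agent.H967.GGC
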