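import Pool.Agent.H967.GGC.VP1b
import Pool.Agent.H967.GGC.VP6
import Pool.Agent.H967.GGC.VP3A
import Pool.Agent.H967.GGC.VX2
import Pool.Agent.H967.GGC.VX4
import Pool.Agent.H967.GGC.VP2

set_option autoImplicit false

namespace Pool.Agent.H967.GGC

alias deriv_KK_eq_phA := deriv_KK_eq_phA_proof
alias phA_lower := phA_lower_proof
alias KK_ge_cosh := KK_ge_cosh_proof
alias KK_laplace_pos := KK_laplace_pos_proof
alias KK_exists_gt' := KK_exists_gt'_proof
alias KK_bounds := KK_bounds_proof

end Pool.Agent.H967.GGC
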