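import Pool.Agent.H967.GGC.Dl1

set_option autoImplicit false

/-!
# Leaf Q2: the logarithmic derivative of the quadratic transformation
-/

namespace Pool.Agent.H967.GGC
open MeasureTheory Filter Topology Set

theorem quad_log_sum (a b c : ℝ) {z : ℝ} (hz : |z| < 1) :
    Summable (fun n : ℕ => ‖hc a b c n * z ^ n‖) := by
  refine Summable.norm ?_
  have h1 := ((ratio_tendsto a b c).norm).mul_const |z|
  rw [norm_one, one_mul] at h1
  have h2 := h1.eventually_le_const (show |z| < (1 + |z|) / 2 by linarith)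
  refine summable_of_ratio_norm_eventually_le (r := (1 + |z|) / 2) (by linarith) ?_
  filter_upwards [h2] with n hn
  rw [hc_succ, pow_succ]
  have h3 : ‖hc a b c n * ((a + n) * (b + n) / ((c + n) * (n + 1))) * (z ^ n * z)‖ =
      ‖(a + n) * (b + n) / ((c + n) * ((n : ℝ) + 1))‖ * |z| * ‖hc a b c n * z ^ n‖ := by
    rw [norm_mul, norm_mul, norm_mul (z ^ n), norm_mul (hc a b c n) (z ^ n), Real.norm_eq_abs z]
    ring
  rw [h3]
  exact mul_le_mul_of_nonneg_right hn (norm_nonneg _)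

theorem quad_log_contig (a b c : ℝ) (n : ℕ) :
    (b + n) * hc a b c n = b * hc a (b + 1) c n := by
  induction n with
  | zero => simp [hc_zero]
  | succ n ih =>
    rw [hc_succ, hc_succ]
    push_cast
    calc (b + (n + 1)) * (hc a b c n * ((a + n) * (b + n) / ((c + n) * (n + 1)))) =
        ((b + n) * hc a b c n) * ((a + n) * (b + 1 + n) / ((c + n) * (n + 1))) := by ring
      _ = b * (hc a (b + 1) c n * ((a + n) * (b + 1 + n) / ((c + n) * (n + 1)))) := by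
        rw [ih]; ring

theorem quad_log_deriv (a b c : ℝ) {z : ℝ} (hz : |z| < 1) :
    ∃ D : ℝ, HasDerivAt (F a b c) D z ∧ z * D = b * (F a (b + 1) c z - F a b c z) := by
  obtain ⟨ρ, hρ1, hρ2⟩ := exists_between hz
  have hρ0 : 0 < ρ := lt_of_le_of_lt (abs_nonneg z) hρ1
  have hρa : |ρ| < 1 := by rwa [abs_of_pos hρ0]
  have hn : ∀ n : ℕ, (n : ℝ) * hc a b c n = b * (hc a (b + 1) c n - hc a b c n) := by
    intro n
    have := quad_log_contig a b c n
    linarith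
  have s1 := quad_log_sum a (b + 1) c hρa
  have s2 := quad_log_sum a b c hρa
  have hu : Summable (fun n : ℕ => |b| * (‖hc a (b + 1) c n * ρ ^ n‖ + ‖hc a b c n * ρ ^ n‖) / ρ) :=
    ((s1.add s2).mul_left |b|).div_const ρ
  have hder : HasDerivAt (fun y => ∑' n : ℕ, hc a b c n * y ^ n)
      (∑' n : ℕ, hc a b c n * ((n : ℝ) * z ^ (n - 1))) z := by
    refine hasDerivAt_tsum_of_isPreconnected (t := Ioo (-ρ) ρ)
      (g' := fun n y => hc a b c n * ((n : ℝ) * y ^ (n - 1))) (y₀ := 0) hu isOpen_Ioo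
      isPreconnected_Ioo
      (fun n y _ => (hasDerivAt_pow n y).const_mul _) ?_ ?_ ?_ ?_
    · intro n y hy
      rcases Nat.eq_zero_or_pos n with h0 | h0
      · subst h0
        simp only [Nat.cast_zero, zero_mul, mul_zero, norm_zero]
        positivity
      · have hy' : |y| ≤ ρ := abs_le.2 ⟨hy.1.le, hy.2.le⟩
        have h3 : ‖hc a b c n * ((n : ℝ) * y ^ (n - 1))‖ =
            |b| * |hc a (b + 1) c n - hc a b c n| * |y| ^ (n - 1) := by
          rw [show hc a b c n * ((n : ℝ) * y ^ (n - 1)) =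
            ((n : ℝ) * hc a b c n) * y ^ (n - 1) by ring, hn, Real.norm_eq_abs, abs_mul,
            abs_mul, abs_pow]
        have h4 : |y| ^ (n - 1) ≤ ρ ^ n / ρ := by
          have h5 : ρ ^ n / ρ = ρ ^ (n - 1) := by
            rw [div_eq_iff hρ0.ne', ← pow_succ, Nat.sub_add_cancel h0]
          rw [h5]
          exact pow_le_pow_left₀ (abs_nonneg y) hy' _
        have h5 : |hc a (b + 1) c n - hc a b c n| ≤ |hc a (b + 1) c n| + |hc a b c n| :=
          abs_sub _ _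
        rw [h3]
        calc |b| * |hc a (b + 1) c n - hc a b c n| * |y| ^ (n - 1) ≤
            |b| * (|hc a (b + 1) c n| + |hc a b c n|) * (ρ ^ n / ρ) := by gcongr
          _ = |b| * (‖hc a (b + 1) c n * ρ ^ n‖ + ‖hc a b c n * ρ ^ n‖) / ρ := by
            rw [norm_mul, norm_mul, norm_pow, Real.norm_eq_abs, Real.norm_eq_abs,
              Real.norm_eq_abs, abs_of_pos hρ0]
            ring
    · exact ⟨by linarith, hρ0⟩
    · exact (quad_log_sum a b c (z := 0) (by simp)).of_norm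
    · exact abs_lt.1 hρ1
  refine ⟨_, hder, ?_⟩
  have t1 := (quad_log_sum a (b + 1) c hz).of_norm
  have t2 := (quad_log_sum a b c hz).of_norm
  rw [← tsum_mul_left]
  have h6 : ∀ n : ℕ, z * (hc a b c n * ((n : ℝ) * z ^ (n - 1))) =
      b * (hc a (b + 1) c n * z ^ n - hc a b c n * z ^ n) := by
    intro n
    have h7 : z * (hc a b c n * ((n : ℝ) * z ^ (n - 1))) = ((n : ℝ) * hc a b c n) * z ^ n := by
      rcases Nat.eq_zero_or_pos n with h0 | h0
      · subst h0; simp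
      · obtain ⟨m, rfl⟩ := Nat.exists_eq_succ_of_ne_zero h0.ne'
        rw [Nat.succ_sub_one, pow_succ]
        ring
    rw [h7, hn]
    ring
  rw [tsum_congr h6, tsum_mul_left, t1.tsum_sub t2]
  rfl

theorem quad_log_proof {μ : ℝ} (hμ : -1 / 4 < μ) :
    ∃ r : ℝ, 0 < r ∧ r < 1 ∧ ∀ z : ℝ, 0 < z → z < r →
      0 < 4 * z / (1 + z) ^ 2 ∧ 4 * z / (1 + z) ^ 2 < 1 ∧
      (1 / 2 - μ) * (F (1 / 2) (1 / 2 - μ + 1) (μ + 1) z / F (1 / 2) (1 / 2 - μ) (μ + 1) z - 1) =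
        -(1 / 2) * (z / (1 + z)) + (1 - z) / (1 + z) *
          (1 / 4 * (F (3 / 4) (1 / 4 + 1) (μ + 1) (4 * z / (1 + z) ^ 2) /
            F (3 / 4) (1 / 4) (μ + 1) (4 * z / (1 + z) ^ 2) - 1)) := by
  obtain ⟨r, hr0, hr1, hr⟩ := quad_transf (a := 1 / 2) (b := 1 / 2 - μ) (by linarith)
  refine ⟨r, hr0, hr1, fun z hz0 hzr => ?_⟩
  have hz1 : z < 1 := hzr.trans hr1
  have h1z : 0 < 1 + z := by linarith
  set w : ℝ := 4 * z / (1 + z) ^ 2 with hw
  have hw0 : 0 < w := by positivity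
  have hw1 : w < 1 := by
    rw [hw, div_lt_one (by positivity)]
    nlinarith [sq_nonneg (1 - z), mul_pos (show 0 < 1 - z by linarith) (show 0 < 1 - z by linarith)]
  refine ⟨hw0, hw1, ?_⟩
  have hcc : 1 + 1 / 2 - (1 / 2 - μ) = μ + 1 := by ring
  have e1 : (1 / 2 : ℝ) / 2 = 1 / 4 := by norm_num
  have e2 : (1 / 2 + 1 : ℝ) / 2 = 3 / 4 := by norm_num
  rw [hcc, e1, e2] at hr
  have hr' : ∀ y : ℝ, |y| < r → F (1 / 2) (1 / 2 - μ) (μ + 1) y =
      (1 + y) ^ (-(1 / 2) : ℝ) * F (3 / 4) (1 / 4) (μ + 1) (4 * y / (1 + y) ^ 2) := by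
    intro y hy
    rw [hr y hy, F_comm (1 / 4) (3 / 4)]
  obtain ⟨D, hD, hzD⟩ := quad_log_deriv (1 / 2) (1 / 2 - μ) (μ + 1) (z := z)
    (by rwa [abs_of_pos hz0])
  obtain ⟨E, hE, hwE⟩ := quad_log_deriv (3 / 4) (1 / 4) (μ + 1) (z := w)
    (by rwa [abs_of_pos hw0])
  have hdw : HasDerivAt (fun y : ℝ => 4 * y / (1 + y) ^ 2) (4 * (1 - z) / (1 + z) ^ 3) z := by
    have h1 : HasDerivAt (fun y : ℝ => 4 * y) 4 z := by
      have := (hasDerivAt_id z).const_mul (4 : ℝ)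
      rw [mul_one] at this
      exact this
    have h2 : HasDerivAt (fun y : ℝ => (1 + y) ^ 2) (2 * (1 + z)) z := by
      have h3 := ((hasDerivAt_id z).const_add (1 : ℝ)).fun_pow 2
      refine h3.congr_deriv ?_
      simp
    refine (h1.fun_div h2 (by positivity)).congr_deriv ?_
    field_simp
    ring
  have hp : HasDerivAt (fun y : ℝ => (1 + y) ^ (-(1 / 2) : ℝ))
      (-(1 / 2) * (1 + z) ^ (-(1 / 2) - 1 : ℝ)) z := by
    have h3 := ((hasDerivAt_id z).const_add (1 : ℝ)).rpow_const (p := (-(1 / 2) : ℝ))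
      (Or.inl (by simpa using h1z.ne'))
    refine h3.congr_deriv ?_
    simp
  have hcomp : HasDerivAt (fun y : ℝ => F (3 / 4) (1 / 4) (μ + 1) (4 * y / (1 + y) ^ 2))
      (E * (4 * (1 - z) / (1 + z) ^ 3)) z :=
    HasDerivAt.comp (h₂ := F (3 / 4) (1 / 4) (μ + 1)) z hE hdw
  have hprod := hp.fun_mul hcomp
  have hev : (fun y : ℝ => F (1 / 2) (1 / 2 - μ) (μ + 1) y) =ᶠ[𝓝 z]
      fun y => (1 + y) ^ (-(1 / 2) : ℝ) * F (3 / 4) (1 / 4) (μ + 1) (4 * y / (1 + y) ^ 2) := by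
    have h4 : ∀ᶠ y in 𝓝 z, |y| < r :=
      (continuous_abs.tendsto z).eventually_lt_const (by rwa [abs_of_pos hz0])
    filter_upwards [h4] with y hy
    exact hr' y hy
  have hDeq : D = -(1 / 2) * (1 + z) ^ (-(1 / 2) - 1 : ℝ) * F (3 / 4) (1 / 4) (μ + 1) w +
      (1 + z) ^ (-(1 / 2) : ℝ) * (E * (4 * (1 - z) / (1 + z) ^ 3)) :=
    hD.unique (hprod.congr_of_eventuallyEq hev)
  have hu : F (1 / 2) (1 / 2 - μ) (μ + 1) z =
      (1 + z) ^ (-(1 / 2) : ℝ) * F (3 / 4) (1 / 4) (μ + 1) w := hr' z (by rwa [abs_of_pos hz0])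
  have hΦ : 0 < F (3 / 4) (1 / 4) (μ + 1) w :=
    F_pos (by norm_num) (by norm_num) (by linarith) hw0.le hw1
  have hP : 0 < (1 + z) ^ (-(1 / 2) : ℝ) := Real.rpow_pos_of_pos h1z _
  have hP1 : (1 + z) ^ (-(1 / 2) - 1 : ℝ) = (1 + z) ^ (-(1 / 2) : ℝ) / (1 + z) :=
    Real.rpow_sub_one h1z.ne' _
  have hu0 : F (1 / 2) (1 / 2 - μ) (μ + 1) z ≠ 0 := by rw [hu]; positivity
  clear_value w
  generalize F (3 / 4) (1 / 4) (μ + 1) w = Φ at *
  generalize F (3 / 4) (1 / 4 + 1) (μ + 1) w = Ψ at *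
  generalize F (1 / 2) (1 / 2 - μ) (μ + 1) z = u at *
  generalize F (1 / 2) (1 / 2 - μ + 1) (μ + 1) z = v at *
  generalize (1 / 2 - μ) = b at *
  generalize (1 + z) ^ (-(1 / 2) : ℝ) = P at *
  have hL : b * (v / u - 1) = z * D / u := by
    rw [hzD]
    field_simp
  have hwE' : E = 1 / 4 * (Ψ - Φ) / w := by
    rw [← hwE]
    field_simp
  rw [hL, hDeq, hP1, hwE', hu]
  subst hw
  field_simp

end Pool.Agent.H967.GGC
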