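import Pool.Agent.H967.GGC.Cl1

set_option autoImplicit false

/-!
# Q3: the generating function of `kap` for the second family (helper906)
-/

namespace Pool.Agent.H967.GGC
open MeasureTheory Filter Topology Set

/-! ### the formal identity (copied from G4) -/

/-- binomial coefficients -/
noncomputable def xi_gen_B (s : ℝ) (n : ℕ) : ℝ :=
  ∏ i ∈ Finset.range n, ((s + i) / ((i : ℝ) + 1))

theorem xi_gen_B_zero (s : ℝ) : xi_gen_B s 0 = 1 := by
  unfold xi_gen_B
  simp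

theorem xi_gen_B_succ (s : ℝ) (n : ℕ) :
    xi_gen_B s (n + 1) = xi_gen_B s n * ((s + n) / ((n : ℝ) + 1)) := by
  unfold xi_gen_B
  rw [Finset.prod_range_succ]

theorem xi_gen_B_shift (s : ℝ) (n : ℕ) :
    xi_gen_B s (n + 1) * ((n : ℝ) + 1) = s * xi_gen_B (s + 1) n := by
  induction n with
  | zero =>
    rw [xi_gen_B_succ, xi_gen_B_zero, xi_gen_B_zero]
    simp
  | succ n ih =>
    have h1 : ((n : ℝ) + 1) ≠ 0 := by positivity
    have h2 : (((n + 1 : ℕ) : ℝ) + 1) ≠ 0 := by positivity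
    rw [xi_gen_B_succ s (n + 1), xi_gen_B_succ (s + 1) n, mul_assoc, div_mul_cancel₀ _ h2,
      ← mul_assoc, ← ih]
    push_cast
    field_simp
    ring

theorem xi_gen_B_gen (s : ℝ) :
    (1 - PowerSeries.X) * PowerSeries.mk (xi_gen_B (s + 1)) = PowerSeries.mk (xi_gen_B s) := by
  ext n
  rw [sub_mul, one_mul, map_sub, PowerSeries.coeff_mk, PowerSeries.coeff_mk]
  cases n with
  | zero =>
    rw [PowerSeries.coeff_zero_X_mul, xi_gen_B_zero, xi_gen_B_zero, sub_zero]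
  | succ n =>
    have h1 : ((n : ℝ) + 1) ≠ 0 := by positivity
    have h2 := xi_gen_B_shift s n
    rw [PowerSeries.coeff_succ_X_mul, PowerSeries.coeff_mk, xi_gen_B_succ (s + 1) n]
    rw [← mul_left_inj' h1, h2]
    field_simp
    ring

theorem xi_gen_euler {a b c s : ℝ} (hc' : 0 < c) (hs : a + b - c = s) :
    PowerSeries.mk (hc a b c) =
      PowerSeries.mk (xi_gen_B s) * PowerSeries.mk (hc (c - a) (c - b) c) := by
  ext n
  rw [PowerSeries.coeff_mul, PowerSeries.coeff_mk, euler hc' n]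
  refine Finset.sum_congr rfl fun x _ => ?_
  rw [PowerSeries.coeff_mk, PowerSeries.coeff_mk]
  unfold xi_gen_B
  rw [hs]

theorem xi_gen_key0 {α β γ : ℝ} (hγ : 0 < γ) :
    (1 - PowerSeries.X) * PowerSeries.mk (kap α β γ) *
      PowerSeries.mk (hc (γ - α) (γ - β) γ) =
      PowerSeries.C (2 * β) * PowerSeries.mk (hc (γ - α) (γ - (β + 1)) γ) := by
  have e0 := xi_gen_euler (a := α) (b := β) (c := γ) (s := α + β - γ) hγ rfl
  have e1 := xi_gen_euler (a := α) (b := β + 1) (c := γ) (s := α + β - γ + 1) hγ (by ring)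
  have e2 : PowerSeries.mk (kap α β γ) * PowerSeries.mk (hc α β γ) =
      PowerSeries.C (2 * β) * PowerSeries.mk (hc α (β + 1) γ) := by
    ext n
    rw [PowerSeries.coeff_mul, PowerSeries.coeff_C_mul, PowerSeries.coeff_mk, ← kap_rec α β γ n]
    refine Finset.sum_congr rfl fun x _ => ?_
    rw [PowerSeries.coeff_mk, PowerSeries.coeff_mk]
  have hne : PowerSeries.mk (xi_gen_B (α + β - γ)) ≠ 0 := by
    intro h
    have h1 := congrArg (PowerSeries.coeff 0) h
    rw [PowerSeries.coeff_mk, xi_gen_B_zero] at h1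
    simp at h1
  have e3 := xi_gen_B_gen (α + β - γ)
  refine mul_left_cancel₀ hne ?_
  calc PowerSeries.mk (xi_gen_B (α + β - γ)) *
        ((1 - PowerSeries.X) * PowerSeries.mk (kap α β γ) * PowerSeries.mk (hc (γ - α) (γ - β) γ))
      = (1 - PowerSeries.X) * (PowerSeries.mk (kap α β γ) *
        (PowerSeries.mk (xi_gen_B (α + β - γ)) * PowerSeries.mk (hc (γ - α) (γ - β) γ))) := by
        ring
    _ = (1 - PowerSeries.X) * (PowerSeries.C (2 * β) * PowerSeries.mk (hc α (β + 1) γ)) := by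
        rw [← e0, e2]
    _ = PowerSeries.C (2 * β) * (((1 - PowerSeries.X) *
        PowerSeries.mk (xi_gen_B (α + β - γ + 1))) *
          PowerSeries.mk (hc (γ - α) (γ - (β + 1)) γ)) := by
        rw [e1]
        ring
    _ = _ := by
        rw [e3]
        ring

/-! ### the contiguous relation -/

theorem xi_gen_up (a b c : ℝ) (n : ℕ) : b * hc a (b + 1) c n = (b + n) * hc a b c n := by
  induction n with
  | zero => simp [hc_zero]
  | succ n ih =>
    rw [hc_succ, hc_succ]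
    calc b * (hc a (b + 1) c n * ((a + n) * (b + 1 + n) / ((c + n) * (n + 1))))
        = (b * hc a (b + 1) c n) * ((a + n) * (b + 1 + n) / ((c + n) * (n + 1))) := by ring
      _ = ((b + n) * hc a b c n) * ((a + n) * (b + 1 + n) / ((c + n) * (n + 1))) := by rw [ih]
      _ = _ := by
        push_cast
        ring

theorem xi_gen_down (a b c : ℝ) (hc' : 0 < c) (n : ℕ) :
    hc a (b - 1) c (n + 1) = hc a b c n * ((a + n) * (b - 1) / ((c + n) * (n + 1))) := by
  induction n with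
  | zero =>
    rw [hc_succ, hc_zero, hc_zero]
    simp
  | succ n ih =>
    rw [hc_succ a (b - 1) c (n + 1), ih, hc_succ a b c n]
    have h1 : (c + n) ≠ 0 := by positivity
    have h2 : ((n : ℝ) + 1) ≠ 0 := by positivity
    have h3 : (c + ((n + 1 : ℕ) : ℝ)) ≠ 0 := by positivity
    have h4 : (((n + 1 : ℕ) : ℝ) + 1) ≠ 0 := by positivity
    push_cast at h3 h4 ⊢
    field_simp
    ring

theorem xi_gen_contig {μ : ℝ} (hμ : -1 / 4 < μ) :
    PowerSeries.C (2 * (2 * μ + 1 / 2)) * PowerSeries.mk (hc (1 / 2) (1 / 2 - μ - 1) (μ + 1)) =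
      (1 - PowerSeries.X) * (PowerSeries.C (2 * (1 / 2 - μ)) *
        (PowerSeries.mk (hc (1 / 2) (1 / 2 - μ + 1) (μ + 1)) -
          PowerSeries.mk (hc (1 / 2) (1 / 2 - μ) (μ + 1))) +
            PowerSeries.mk (hc (1 / 2) (1 / 2 - μ) (μ + 1))) +
        PowerSeries.C (4 * μ) * PowerSeries.mk (hc (1 / 2) (1 / 2 - μ) (μ + 1)) := by
  ext n
  have hup := xi_gen_up (1 / 2) (1 / 2 - μ) (μ + 1)
  cases n with
  | zero =>
    simp [hc_zero, sub_mul]
    ring
  | succ n =>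
    rw [sub_mul, one_mul, map_add, map_sub, PowerSeries.coeff_succ_X_mul]
    simp only [map_add, map_sub, PowerSeries.coeff_C_mul, PowerSeries.coeff_mk]
    have h1 := hup n
    have h2 := hup (n + 1)
    have h3 := xi_gen_down (1 / 2) (1 / 2 - μ) (μ + 1) (by linarith) n
    have h4 := hc_succ (1 / 2) (1 / 2 - μ) (μ + 1) n
    have e1 : 2 * (1 / 2 - μ) * (hc (1 / 2) (1 / 2 - μ + 1) (μ + 1) (n + 1) -
        hc (1 / 2) (1 / 2 - μ) (μ + 1) (n + 1)) = 2 * ((n + 1 : ℕ) : ℝ) * hc (1 / 2) (1 / 2 - μ) (μ + 1) (n + 1) := by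
      linear_combination 2 * h2
    have e2 : 2 * (1 / 2 - μ) * (hc (1 / 2) (1 / 2 - μ + 1) (μ + 1) n -
        hc (1 / 2) (1 / 2 - μ) (μ + 1) n) = 2 * (n : ℝ) * hc (1 / 2) (1 / 2 - μ) (μ + 1) n := by
      linear_combination 2 * h1
    rw [e1, e2, h3, h4]
    have h5 : (μ + 1 + (n : ℝ)) ≠ 0 := by
      have : (0 : ℝ) ≤ n := Nat.cast_nonneg n
      intro h
      linarith
    have h6 : ((n : ℝ) + 1) ≠ 0 := by positivity
    push_cast
    field_simp
    ring

/-! ### evaluation of power series -/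

/-- absolutely convergent at `z`, with sum `s` -/
def xi_gen_Ev (z : ℝ) (f : PowerSeries ℝ) (s : ℝ) : Prop :=
  Summable (fun n => ‖PowerSeries.coeff n f * z ^ n‖) ∧
    HasSum (fun n => PowerSeries.coeff n f * z ^ n) s

theorem xi_gen_Ev.add {z : ℝ} {f g : PowerSeries ℝ} {s t : ℝ} (hf : xi_gen_Ev z f s)
    (hg : xi_gen_Ev z g t) : xi_gen_Ev z (f + g) (s + t) := by
  have e : (fun n => PowerSeries.coeff n (f + g) * z ^ n) =
      fun n => PowerSeries.coeff n f * z ^ n + PowerSeries.coeff n g * z ^ n := by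
    funext n
    rw [map_add, add_mul]
  unfold xi_gen_Ev
  rw [e]
  refine ⟨?_, hf.2.add hg.2⟩
  refine (hf.1.add hg.1).of_nonneg_of_le (fun n => norm_nonneg _) (fun n => ?_)
  rw [map_add, add_mul]
  exact norm_add_le (PowerSeries.coeff n f * z ^ n) (PowerSeries.coeff n g * z ^ n)

theorem xi_gen_Ev.mul {z : ℝ} {f g : PowerSeries ℝ} {s t : ℝ} (hf : xi_gen_Ev z f s)
    (hg : xi_gen_Ev z g t) : xi_gen_Ev z (f * g) (s * t) := by
  have e : (fun n => PowerSeries.coeff n (f * g) * z ^ n) =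
      fun n => ∑ x ∈ Finset.HasAntidiagonal.antidiagonal n,
        (PowerSeries.coeff x.1 f * z ^ x.1) * (PowerSeries.coeff x.2 g * z ^ x.2) := by
    funext n
    rw [PowerSeries.coeff_mul, Finset.sum_mul]
    refine Finset.sum_congr rfl fun x hx => ?_
    rw [Finset.HasAntidiagonal.mem_antidiagonal] at hx
    rw [← hx, pow_add]
    ring
  have h1 := summable_norm_sum_mul_antidiagonal_of_summable_norm hf.1 hg.1
  have h2 := tsum_mul_tsum_eq_tsum_sum_antidiagonal_of_summable_norm hf.1 hg.1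
  rw [hf.2.tsum_eq, hg.2.tsum_eq] at h2
  unfold xi_gen_Ev
  rw [e]
  refine ⟨?_, ?_⟩
  · refine h1.congr fun n => ?_
    rw [← congrFun e n]
  · rw [h2]
    exact h1.of_norm.hasSum

theorem xi_gen_Ev_C (z c : ℝ) : xi_gen_Ev z (PowerSeries.C c) c := by
  have e : ∀ n, n ≠ 0 → PowerSeries.coeff n (PowerSeries.C c) * z ^ n = 0 := fun n hn => by
    rw [PowerSeries.coeff_C, if_neg hn, zero_mul]
  refine ⟨summable_of_ne_finset_zero (s := {0}) fun n hn => ?_, ?_⟩
  · rw [Finset.mem_singleton] at hn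
    rw [e n hn, norm_zero]
  · have h1 := hasSum_single (f := fun n => PowerSeries.coeff n (PowerSeries.C c) * z ^ n) 0
      (fun n hn => e n hn)
    simpa using h1

theorem xi_gen_Ev_X (z : ℝ) : xi_gen_Ev z PowerSeries.X z := by
  have e : ∀ n, n ≠ 1 → PowerSeries.coeff n (PowerSeries.X : PowerSeries ℝ) * z ^ n = 0 := fun n hn => by
    rw [PowerSeries.coeff_X, if_neg hn, zero_mul]
  refine ⟨summable_of_ne_finset_zero (s := {1}) fun n hn => ?_, ?_⟩
  · rw [Finset.mem_singleton] at hn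
    rw [e n hn, norm_zero]
  · have h1 := hasSum_single (f := fun n => PowerSeries.coeff n (PowerSeries.X : PowerSeries ℝ) * z ^ n) 1
      (fun n hn => e n hn)
    simpa using h1

theorem xi_gen_Ev.sub {z : ℝ} {f g : PowerSeries ℝ} {s t : ℝ} (hf : xi_gen_Ev z f s)
    (hg : xi_gen_Ev z g t) : xi_gen_Ev z (f - g) (s - t) := by
  have h1 := hf.add ((xi_gen_Ev_C z (-1)).mul hg)
  have e1 : f + PowerSeries.C (-1) * g = f - g := by
    rw [map_neg, map_one]
    ring
  have e2 : s + -1 * t = s - t := by ring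
  rwa [e1, e2] at h1

theorem xi_gen_Ev_one (z : ℝ) : xi_gen_Ev z 1 1 := by
  have := xi_gen_Ev_C z 1
  rwa [map_one] at this

/-! ### the bound for the coefficients -/

theorem xi_gen_bd {b c : ℝ} (hc' : 0 < c) (n : ℕ) : |hc (1 / 2) b c n| ≤ (|b| / c + 1) ^ n := by
  induction n with
  | zero => simp [hc_zero]
  | succ n ih =>
    have hn : (0 : ℝ) ≤ n := Nat.cast_nonneg n
    rw [hc_succ, abs_mul, pow_succ]
    refine mul_le_mul ih ?_ (abs_nonneg _) (by positivity)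
    have h1 : 0 < (c + n) * ((n : ℝ) + 1) := by positivity
    rw [abs_div, abs_of_pos h1, abs_mul, div_le_iff₀ h1, abs_of_nonneg (by positivity : (0 : ℝ) ≤ 1 / 2 + n)]
    have h2 : |b + n| ≤ |b| + n := by
      calc |b + n| ≤ |b| + |(n : ℝ)| := abs_add_le _ _
        _ = _ := by rw [abs_of_nonneg hn]
    have h3 : |b| + n ≤ (|b| / c + 1) * (c + n) := by
      have h4 : (|b| / c + 1) * (c + n) = |b| + n + (|b| / c * n + c) := by
        field_simp
        ring
      rw [h4]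
      have : 0 ≤ |b| / c * n + c := by positivity
      linarith
    calc (1 / 2 + (n : ℝ)) * |b + n| ≤ ((n : ℝ) + 1) * ((|b| / c + 1) * (c + n)) := by
          refine mul_le_mul (by linarith) (h2.trans h3) (abs_nonneg _) (by positivity)
      _ = _ := by ring

theorem xi_gen_ev {b c : ℝ} (hc' : 0 < c) {z : ℝ} (hz : 0 < z) (hz1 : z * (|b| / c + 1) ≤ 1 / 4) :
    xi_gen_Ev z (PowerSeries.mk (hc (1 / 2) b c)) (F (1 / 2) b c z) ∧ 0 < F (1 / 2) b c z := by
  obtain ⟨R, hR⟩ : ∃ R : ℝ, R = |b| / c + 1 := ⟨_, rfl⟩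
  have hR1 : 1 ≤ R := by rw [hR]; have : 0 ≤ |b| / c := by positivity
                         linarith
  rw [← hR] at hz1
  have hbd : ∀ n, ‖hc (1 / 2) b c n * z ^ n‖ ≤ (z * R) ^ n := by
    intro n
    rw [norm_mul, norm_pow, Real.norm_eq_abs, Real.norm_eq_abs, abs_of_pos hz, mul_pow, mul_comm]
    refine mul_le_mul_of_nonneg_left ?_ (by positivity)
    rw [hR]
    exact xi_gen_bd hc' n
  have hq0 : 0 ≤ z * R := by positivity
  have hgeo : Summable fun n : ℕ => (z * R) ^ n := summable_geometric_of_lt_one hq0 (by linarith)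
  have hs : Summable fun n => ‖hc (1 / 2) b c n * z ^ n‖ :=
    hgeo.of_nonneg_of_le (fun n => norm_nonneg _) hbd
  have hsum : HasSum (fun n => hc (1 / 2) b c n * z ^ n) (F (1 / 2) b c z) := hs.of_norm.hasSum
  refine ⟨⟨?_, ?_⟩, ?_⟩
  · simpa only [PowerSeries.coeff_mk] using hs
  · simpa only [PowerSeries.coeff_mk] using hsum
  · have h1 : F (1 / 2) b c z = 1 + ∑' n, hc (1 / 2) b c (n + 1) * z ^ (n + 1) := by
      unfold F
      rw [hs.of_norm.tsum_eq_zero_add]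
      simp [hc_zero]
    have h2 : ‖∑' n, hc (1 / 2) b c (n + 1) * z ^ (n + 1)‖ ≤ (1 / 4) * (1 - 1 / 4)⁻¹ := by
      have h3 : HasSum (fun n : ℕ => (1 / 4 : ℝ) * (1 / 4) ^ n) ((1 / 4) * (1 - 1 / 4)⁻¹) :=
        (hasSum_geometric_of_lt_one (by norm_num) (by norm_num)).mul_left _
      refine tsum_of_norm_bounded h3 fun n => (hbd (n + 1)).trans ?_
      rw [pow_succ, mul_comm]
      exact mul_le_mul hz1 (pow_le_pow_left₀ hq0 hz1 n) (by positivity) (by norm_num)
    rw [Real.norm_eq_abs, abs_le] at h2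
    rw [h1]
    have := h2.1
    norm_num at this
    linarith

/-- Q3 -/
theorem xi_gen_proof {μ : ℝ} (hμ : -1 / 4 < μ) :
    ∃ r : ℝ, 0 < r ∧ r < 1 ∧ ∀ z : ℝ, 0 < z → z < r →
      HasSum (fun n => kap (μ + 1 / 2) (2 * μ + 1 / 2) (μ + 1) n * z ^ n)
        (4 * μ / (1 - z) + 1 + 2 * ((1 / 2 - μ) *
          (F (1 / 2) (1 / 2 - μ + 1) (μ + 1) z / F (1 / 2) (1 / 2 - μ) (μ + 1) z - 1))) := by
  have hα : 0 < μ + 1 / 2 := by linarith
  have hβ : 0 < 2 * μ + 1 / 2 := by linarith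
  have hγ : 0 < μ + 1 := by linarith
  obtain ⟨M, S, hM, hS, hkb⟩ := kap_bound hα hβ hγ
  have hkey := xi_gen_key0 (α := μ + 1 / 2) (β := 2 * μ + 1 / 2) (γ := μ + 1) hγ
  have e1 : μ + 1 - (μ + 1 / 2) = 1 / 2 := by ring
  have e2 : μ + 1 - (2 * μ + 1 / 2) = 1 / 2 - μ := by ring
  have e3 : μ + 1 - (2 * μ + 1 / 2 + 1) = 1 / 2 - μ - 1 := by ring
  rw [e1, e2, e3, xi_gen_contig hμ] at hkey
  obtain ⟨R1, hR1⟩ : ∃ R : ℝ, R = |1 / 2 - μ| / (μ + 1) + 1 := ⟨_, rfl⟩
  obtain ⟨R2, hR2⟩ : ∃ R : ℝ, R = |1 / 2 - μ + 1| / (μ + 1) + 1 := ⟨_, rfl⟩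
  have hR1p : 0 < R1 := by rw [hR1]; positivity
  have hR2p : 0 < R2 := by rw [hR2]; positivity
  refine ⟨min (min (1 / (4 * R1)) (1 / (4 * R2))) (min (1 / (2 * S)) (1 / 2)), by positivity,
    lt_of_le_of_lt ((min_le_right _ _).trans (min_le_right _ _)) (by norm_num), fun z hz hzr => ?_⟩
  have hz1 : z < 1 / (4 * R1) := lt_of_lt_of_le hzr ((min_le_left _ _).trans (min_le_left _ _))
  have hz2 : z < 1 / (4 * R2) := lt_of_lt_of_le hzr ((min_le_left _ _).trans (min_le_right _ _))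
  have hz3 : z < 1 / (2 * S) := lt_of_lt_of_le hzr ((min_le_right _ _).trans (min_le_left _ _))
  have hz4 : z < 1 / 2 := lt_of_lt_of_le hzr ((min_le_right _ _).trans (min_le_right _ _))
  rw [lt_div_iff₀ (by positivity)] at hz1 hz2 hz3
  obtain ⟨hu, hu0⟩ := xi_gen_ev (b := 1 / 2 - μ) hγ hz (by rw [← hR1]; nlinarith)
  obtain ⟨hw, hw0⟩ := xi_gen_ev (b := 1 / 2 - μ + 1) hγ hz (by rw [← hR2]; nlinarith)
  have hks : Summable fun n => ‖kap (μ + 1 / 2) (2 * μ + 1 / 2) (μ + 1) n * z ^ n‖ := by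
    have hgeo : Summable fun n : ℕ => M * (z * S) ^ n :=
      (summable_geometric_of_lt_one (by positivity) (by nlinarith)).mul_left _
    refine hgeo.of_nonneg_of_le (fun n => norm_nonneg _) fun n => ?_
    rw [norm_mul, norm_pow, Real.norm_eq_abs, Real.norm_eq_abs, abs_of_pos hz, mul_pow]
    calc |kap (μ + 1 / 2) (2 * μ + 1 / 2) (μ + 1) n| * z ^ n ≤ (M * S ^ n) * z ^ n :=
          mul_le_mul_of_nonneg_right (hkb n) (by positivity)
      _ = _ := by ring
  obtain ⟨K, hK⟩ : ∃ K, K = ∑' n, kap (μ + 1 / 2) (2 * μ + 1 / 2) (μ + 1) n * z ^ n := ⟨_, rfl⟩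
  have hKs : HasSum (fun n => kap (μ + 1 / 2) (2 * μ + 1 / 2) (μ + 1) n * z ^ n) K := by
    rw [hK]
    exact hks.of_norm.hasSum
  have hKE : xi_gen_Ev z (PowerSeries.mk (kap (μ + 1 / 2) (2 * μ + 1 / 2) (μ + 1))) K :=
    ⟨by simpa only [PowerSeries.coeff_mk] using hks, by simpa only [PowerSeries.coeff_mk] using hKs⟩
  have hL := (((xi_gen_Ev_one z).sub (xi_gen_Ev_X z)).mul hKE).mul hu
  have hRt := (((xi_gen_Ev_one z).sub (xi_gen_Ev_X z)).mul
    (((xi_gen_Ev_C z (2 * (1 / 2 - μ))).mul (hw.sub hu)).add hu)).add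
      ((xi_gen_Ev_C z (4 * μ)).mul hu)
  rw [hkey] at hL
  have heq := hL.2.unique hRt.2
  have h1z : 1 - z ≠ 0 := by linarith
  have hKv : K = 4 * μ / (1 - z) + 1 + 2 * ((1 / 2 - μ) *
      (F (1 / 2) (1 / 2 - μ + 1) (μ + 1) z / F (1 / 2) (1 / 2 - μ) (μ + 1) z - 1)) := by
    have hu1 := hu0.ne'
    generalize F (1 / 2) (1 / 2 - μ + 1) (μ + 1) z = w at *
    generalize F (1 / 2) (1 / 2 - μ) (μ + 1) z = u at *
    have h5 : K = ((1 - z) * (2 * (1 / 2 - μ) * (w - u) + u) + 4 * μ * u) / ((1 - z) * u) := by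
      rw [eq_div_iff (mul_ne_zero h1z hu1)]
      linear_combination heq
    rw [h5]
    field_simp
    ring
  rw [← hKv]
  exact hKs

end Pool.Agent.H967.GGC

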