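import Pool.Agent.H967.GGC.VQ0
import Pool.Agent.H967.GGC.VQ2
import Pool.Agent.H967.GGC.VQ3

set_option autoImplicit false

namespace Pool.Agent.H967.GGC

alias stieltjes_w := stieltjes_w_proof
alias quad_log := quad_log_proof
alias xi_gen := xi_gen_proof

end Pool.Agent.H967.GGC
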