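import Pool.Agent.H967.GGC.Al2

set_option autoImplicit false

/-!
# GGC project: the necessity part assembled
-/

namespace Pool.Agent.H967.GGC
open MeasureTheory Filter Topology Set

/-- a lower order expansion follows from a higher order one -/
theorem E4_down (f : ℝ → ℝ) (m : ℕ → ℝ) (n : ℕ)
    (h : Tendsto (fun p : ℝ => p ^ (n + 1 + 1) * (f p
      - ∑ j ∈ Finset.range (n + 1), m j / p ^ (j + 1))) atTop (𝓝 (m (n + 1)))) :
    Tendsto (fun p : ℝ => p ^ (n + 1) * (f p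
      - ∑ j ∈ Finset.range n, m j / p ^ (j + 1))) atTop (𝓝 (m n)) := by
  have h1 : Tendsto (fun p : ℝ => p⁻¹ * (p ^ (n + 1 + 1) * (f p
      - ∑ j ∈ Finset.range (n + 1), m j / p ^ (j + 1))) + m n) atTop
      (𝓝 (0 * m (n + 1) + m n)) := (tendsto_inv_atTop_zero.mul h).add_const _
  rw [zero_mul, zero_add] at h1
  refine h1.congr' ?_
  filter_upwards [eventually_gt_atTop 0] with p hp
  rw [Finset.sum_range_succ]
  set S := ∑ j ∈ Finset.range n, m j / p ^ (j + 1) with hS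
  have hp' : p ≠ 0 := hp.ne'
  field_simp
  ring

/-- the representing measure of the logarithmic derivative -/
theorem E4_deriv {α β γ b c M : ℝ} (hα : 0 < α) (hβ : 0 < β) (hγ : 0 < γ) (hc0 : 0 < c)
    (hcb : c < b) (hM : 0 < M) (a : ℝ) (U : Measure ℝ) (hU : U (Iic 0) = 0)
    (hint : ∀ s : ℝ, 0 ≤ s → Integrable (fun t => Real.log (t / (s + t))) U)
    (hL : ∀ s : ℝ, 0 ≤ s → Real.exp (-(a * s) + ∫ t, Real.log (t / (s + t)) ∂U) =
      M * ((b + s) ^ (-(2 * β)) * F α β γ (c ^ 2 / (b + s) ^ 2))) {s : ℝ} (hs : 0 < s) :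
    a + ∫ t, 1 / (s + t) ∂U = 2 * β * (F α (β + 1) γ (c ^ 2 / (b + s) ^ 2) /
      ((b + s) * F α β γ (c ^ 2 / (b + s) ^ 2))) := by
  have hbs : 0 < b + s := by linarith
  have hz0 : 0 ≤ c ^ 2 / (b + s) ^ 2 := by positivity
  have hz1 : c ^ 2 / (b + s) ^ 2 < 1 := by
    rw [div_lt_one (by positivity)]
    gcongr
    linarith
  have hF : 0 < F α β γ (c ^ 2 / (b + s) ^ 2) := F_pos hα hβ hγ hz0 hz1
  have hpw : 0 < (b + s) ^ (-(2 * β)) := Real.rpow_pos_of_pos hbs _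
  have h1 := (ggc_deriv U hU hint hs).2
  have h2 := hasDerivAt_L (γ := γ) (b := b) hα hβ hγ hc0 (s := s) (by linarith)
  have h3 : HasDerivAt (fun s : ℝ => -(a * s) + ∫ t, Real.log (t / (s + t)) ∂U)
      (-a + -∫ t, 1 / (s + t) ∂U) s := by
    refine HasDerivAt.add ?_ h1
    have h3' := ((hasDerivAt_id s).const_mul (-a))
    simp only [mul_one] at h3'
    refine h3'.congr_of_eventuallyEq (Eventually.of_forall fun x => ?_)
    simp only [id]
    ring
  have h4 := h3.exp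
  have h5 := h2.const_mul M
  have h6 : (fun s : ℝ => Real.exp (-(a * s) + ∫ t, Real.log (t / (s + t)) ∂U)) =ᶠ[𝓝 s]
      (fun s : ℝ => M * ((b + s) ^ (-(2 * β)) * F α β γ (c ^ 2 / (b + s) ^ 2))) := by
    filter_upwards [lt_mem_nhds hs] with x hx
    exact hL x hx.le
  have h7 := h4.unique (h5.congr_of_eventuallyEq h6)
  rw [hL s hs.le] at h7
  have h8 : (b + s) ^ (-(2 * β) - 1) = (b + s) ^ (-(2 * β)) / (b + s) := by
    rw [Real.rpow_sub hbs, Real.rpow_one]
  rw [h8] at h7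
  have h9 : -a + -∫ t, 1 / (s + t) ∂U = -(2 * β * (F α (β + 1) γ (c ^ 2 / (b + s) ^ 2) /
      ((b + s) * F α β γ (c ^ 2 / (b + s) ^ 2)))) := by
    have h10 : M * ((b + s) ^ (-(2 * β)) * F α β γ (c ^ 2 / (b + s) ^ 2)) ≠ 0 := by positivity
    refine mul_left_cancel₀ h10 ?_
    rw [h7]
    field_simp
  linarith

/-- the moments at infinity of the logarithmic derivative -/
noncomputable def E4m (β c k1 k2 k3 : ℝ) (j : ℕ) : ℝ :=
  if j = 0 then 2 * β
  else if j = 2 then 2 * β * (k1 * c ^ 2)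
  else if j = 4 then 2 * β * (k1 * (k1 + k2) * c ^ 4)
  else if j = 6 then 2 * β * (k1 * ((k1 + k2) ^ 2 + k2 * k3) * c ^ 6)
  else 0

theorem E4_expand {α β γ c k1 k2 k3 : ℝ} (hα : 0 < α) (hβ : 0 < β) (hγ : 0 < γ) (hc0 : 0 < c)
    (h1 : k1 = α / γ) (h2 : k2 = (1 - α / γ) * ((β + 1) / (γ + 1)))
    (h3 : k3 = (1 - (β + 1) / (γ + 1)) * ((α + 1) / (γ + 2))) :
    ∀ i ≤ 6, Tendsto (fun p : ℝ => p ^ (i + 1) * ((2 * β * (F α (β + 1) γ (c ^ 2 / p ^ 2) /
      (p * F α β γ (c ^ 2 / p ^ 2))))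
      - ∑ j ∈ Finset.range i, E4m β c k1 k2 k3 j / p ^ (j + 1))) atTop
      (𝓝 (E4m β c k1 k2 k3 i)) := by
  set f : ℝ → ℝ := fun p => 2 * β * (F α (β + 1) γ (c ^ 2 / p ^ 2) /
      (p * F α β γ (c ^ 2 / p ^ 2))) with hf
  have g6 : Tendsto (fun p : ℝ => p ^ (5 + 1 + 1) * (f p
      - ∑ j ∈ Finset.range (5 + 1), E4m β c k1 k2 k3 j / p ^ (j + 1))) atTop
      (𝓝 (E4m β c k1 k2 k3 (5 + 1))) := by
    have h4 := (asym hα hβ hγ hc0 h1 h2 h3).const_mul (2 * β)
    have h5 : E4m β c k1 k2 k3 (5 + 1) = 2 * β * (k1 * ((k1 + k2) ^ 2 + k2 * k3) * c ^ 6) := by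
      simp [E4m]
    rw [h5]
    refine h4.congr fun p => ?_
    simp only [Finset.sum_range_succ, Finset.sum_range_zero, E4m, hf]
    norm_num
    ring
  have g5 := E4_down f _ 5 g6
  have g4 := E4_down f _ 4 g5
  have g3 := E4_down f _ 3 g4
  have g2 := E4_down f _ 2 g3
  have g1 := E4_down f _ 1 g2
  have g0 := E4_down f _ 0 g1
  intro i hi
  interval_cases i
  · exact g0
  · exact g1
  · exact g2
  · exact g3
  · exact g4
  · exact g5
  · exact g6

theorem E4_lin (V : Measure ℝ) {f g h : ℝ → ℝ} (hf : Integrable f V) (hg : Integrable g V)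
    (hh : Integrable h V) (u v : ℝ) :
    ∫ τ, (u * f τ - v * g τ + h τ) ∂V = u * ∫ τ, f τ ∂V - v * ∫ τ, g τ ∂V + ∫ τ, h τ ∂V := by
  have h1 : Integrable (fun τ => u * f τ) V := hf.const_mul u
  have h2 : Integrable (fun τ => v * g τ) V := hg.const_mul v
  have h3 : Integrable (fun τ => u * f τ - v * g τ) V := h1.sub h2
  rw [integral_add h3 hh, integral_sub h1 h2, integral_const_mul, integral_const_mul]

/-- E4. -/
theorem not_ggc_proof {α β γ b c M : ℝ} (hα : 0 < α) (hβ : 0 < β) (hγ : 0 < γ) (hc0 : 0 < c)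
    (hcb : c < b) (hM : 0 < M) (hbad : γ < α ∨ (α < γ ∧ γ < β)) (P : Measure ℝ)
    (hL : ∀ s : ℝ, 0 ≤ s → ∫ x, Real.exp (-(s * x)) ∂P =
      M * ((b + s) ^ (-(2 * β)) * F α β γ (c ^ 2 / (b + s) ^ 2))) : ¬ IsGGC P := by
  rintro ⟨a, U, ha, hU, hint, hE⟩
  have hb : 0 < b := hc0.trans hcb
  have hd : ∀ s : ℝ, 0 < s → a + ∫ t, 1 / (s + t) ∂U =
      2 * β * (F α (β + 1) γ (c ^ 2 / (b + s) ^ 2) /
        ((b + s) * F α β γ (c ^ 2 / (b + s) ^ 2))) := fun s hs =>
    E4_deriv hα hβ hγ hc0 hcb hM a U hU hint (fun s hs => by rw [← hE s hs, hL s hs]) hs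
  obtain ⟨k1, hk1⟩ : ∃ k1 : ℝ, k1 = α / γ := ⟨_, rfl⟩
  obtain ⟨k2, hk2⟩ : ∃ k2 : ℝ, k2 = (1 - α / γ) * ((β + 1) / (γ + 1)) := ⟨_, rfl⟩
  obtain ⟨k3, hk3⟩ : ∃ k3 : ℝ, k3 = (1 - (β + 1) / (γ + 1)) * ((α + 1) / (γ + 2)) := ⟨_, rfl⟩
  have hexp := E4_expand hα hβ hγ hc0 hk1 hk2 hk3
  set f : ℝ → ℝ := fun p => 2 * β * (F α (β + 1) γ (c ^ 2 / p ^ 2) /
      (p * F α β γ (c ^ 2 / p ^ 2))) with hf
  -- the drift vanishes
  have ha0 : a = 0 := by
    refine le_antisymm ?_ ha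
    have h1 : Tendsto f atTop (𝓝 0) := by
      have h2 := hexp 0 (by norm_num)
      have h3 : Tendsto (fun p : ℝ => p⁻¹ * (p ^ (0 + 1) * (f p
        - ∑ j ∈ Finset.range 0, E4m β c k1 k2 k3 j / p ^ (j + 1)))) atTop
        (𝓝 (0 * E4m β c k1 k2 k3 0)) := tendsto_inv_atTop_zero.mul h2
      rw [zero_mul] at h3
      refine h3.congr' ?_
      filter_upwards [eventually_gt_atTop 0] with p hp
      have hp' : p ≠ 0 := hp.ne'
      simp only [Finset.sum_range_zero, sub_zero, zero_add, pow_one]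
      rw [← mul_assoc, inv_mul_cancel₀ hp', one_mul]
    refine ge_of_tendsto h1 ?_
    filter_upwards [eventually_gt_atTop b] with p hp
    have h4 := hd (p - b) (by linarith)
    rw [add_sub_cancel] at h4
    have h5 : 0 ≤ ∫ t, 1 / (p - b + t) ∂U := by
      refine integral_nonneg_of_ae ?_
      have h6 : ∀ᵐ t ∂U, t ∉ Iic (0 : ℝ) := measure_eq_zero_iff_ae_notMem.1 hU
      filter_upwards [h6] with t ht
      have h7 : 0 < t := not_le.1 ht
      have h8 : 0 < p - b + t := by linarith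
      simp only [Pi.zero_apply]
      positivity
    simp only [hf]
    linarith
  -- reflect the measure
  have hmeas : Measurable (fun t : ℝ => b - t) := measurable_const.sub measurable_id
  set V : Measure ℝ := U.map (fun t => b - t) with hV
  have hV0 : V (Ici b) = 0 := by
    rw [hV, Measure.map_apply hmeas measurableSet_Ici]
    have h1 : (fun t : ℝ => b - t) ⁻¹' Ici b = Iic 0 := by
      ext t
      simp
    rw [h1, hU]
  have hm1 : ∀ p : ℝ, Measurable (fun τ : ℝ => 1 / (p - τ)) := fun p =>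
    measurable_const.div (measurable_const.sub measurable_id)
  have hVint : ∀ p : ℝ, b < p → Integrable (fun τ => 1 / (p - τ)) V := by
    intro p hp
    rw [hV, integrable_map_measure (hm1 p).aestronglyMeasurable hmeas.aemeasurable]
    have h1 := (ggc_deriv U hU hint (s := p - b) (by linarith)).1
    refine h1.congr (Eventually.of_forall fun t => ?_)
    simp only [Function.comp]
    congr 1
    ring
  have hVeq : ∀ p : ℝ, b < p → ∫ τ, 1 / (p - τ) ∂V = f p := by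
    intro p hp
    have h4 := hd (p - b) (by linarith)
    rw [add_sub_cancel, ha0, zero_add] at h4
    rw [hV, integral_map hmeas.aemeasurable (hm1 p).aestronglyMeasurable]
    simp only [hf]
    rw [← h4]
    refine integral_congr_ae (Eventually.of_forall fun t => ?_)
    simp only
    congr 1
    ring
  have hmom := moments hb V hV0 hVint (E4m β c k1 k2 k3) 6 (fun i hi => by
    refine (hexp i hi).congr' ?_
    filter_upwards [eventually_gt_atTop b] with p hp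
    rw [hVeq p hp])
  have m0 : Integrable (fun τ => τ ^ 0) V ∧ ∫ τ, τ ^ 0 ∂V = 2 * β := by
    have := hmom 0 (by norm_num); simpa [E4m] using this
  have m2 : Integrable (fun τ => τ ^ 2) V ∧ ∫ τ, τ ^ 2 ∂V = 2 * β * (k1 * c ^ 2) := by
    have := hmom 2 (by norm_num); simpa [E4m] using this
  have m4 : Integrable (fun τ => τ ^ 4) V ∧
      ∫ τ, τ ^ 4 ∂V = 2 * β * (k1 * (k1 + k2) * c ^ 4) := by
    have := hmom 4 (by norm_num); simpa [E4m] using this
  have m6 : Integrable (fun τ => τ ^ 6) V ∧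
      ∫ τ, τ ^ 6 ∂V = 2 * β * (k1 * ((k1 + k2) ^ 2 + k2 * k3) * c ^ 6) := by
    have := hmom 6 (by norm_num); simpa [E4m] using this
  have hk1pos : 0 < k1 := by rw [hk1]; positivity
  rcases hbad with hbad | ⟨hbad1, hbad2⟩
  · -- first case
    have hk2neg : k2 < 0 := by
      rw [hk2]
      have h1 : 1 - α / γ < 0 := by
        have : 1 < α / γ := (one_lt_div hγ).2 hbad
        linarith
      exact mul_neg_of_neg_of_pos h1 (by positivity)
    have hq : ∀ x : ℝ, 0 ≤ x ^ 2 * (2 * β) - 2 * x * (2 * β * (k1 * c ^ 2))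
        + 2 * β * (k1 * (k1 + k2) * c ^ 4) := by
      intro x
      have h1 : 0 ≤ ∫ τ, (x - τ ^ 2) ^ 2 ∂V := integral_nonneg fun τ => sq_nonneg _
      have h2 : ∀ τ : ℝ, (x - τ ^ 2) ^ 2 = x ^ 2 * τ ^ 0 - 2 * x * τ ^ 2 + τ ^ 4 := by
        intro τ; ring
      simp only [h2] at h1
      rw [E4_lin V m0.1 m2.1 m4.1, m0.2, m2.2, m4.2] at h1
      exact h1
    have h3 := hq (k1 * c ^ 2)
    have h4 : (k1 * c ^ 2) ^ 2 * (2 * β) - 2 * (k1 * c ^ 2) * (2 * β * (k1 * c ^ 2))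
        + 2 * β * (k1 * (k1 + k2) * c ^ 4) = k2 * (2 * β * k1 * c ^ 4) := by ring
    rw [h4] at h3
    have h5 : k2 * (2 * β * k1 * c ^ 4) < 0 := mul_neg_of_neg_of_pos hk2neg (by positivity)
    linarith
  · -- second case
    have hk2pos : 0 < k2 := by
      rw [hk2]
      have h1 : 0 < 1 - α / γ := by
        have : α / γ < 1 := (div_lt_one hγ).2 hbad1
        linarith
      positivity
    have hk3neg : k3 < 0 := by
      rw [hk3]
      have h1 : 1 - (β + 1) / (γ + 1) < 0 := by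
        have : 1 < (β + 1) / (γ + 1) := (one_lt_div (by positivity)).2 (by linarith)
        linarith
      exact mul_neg_of_neg_of_pos h1 (by positivity)
    have hq : ∀ x : ℝ, 0 ≤ x ^ 2 * (2 * β * (k1 * c ^ 2))
        - 2 * x * (2 * β * (k1 * (k1 + k2) * c ^ 4))
        + 2 * β * (k1 * ((k1 + k2) ^ 2 + k2 * k3) * c ^ 6) := by
      intro x
      have h1 : 0 ≤ ∫ τ, (x * τ - τ ^ 3) ^ 2 ∂V := integral_nonneg fun τ => sq_nonneg _
      have h2 : ∀ τ : ℝ, (x * τ - τ ^ 3) ^ 2 = x ^ 2 * τ ^ 2 - 2 * x * τ ^ 4 + τ ^ 6 := by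
        intro τ; ring
      simp only [h2] at h1
      rw [E4_lin V m2.1 m4.1 m6.1, m2.2, m4.2, m6.2] at h1
      exact h1
    have h3 := hq ((k1 + k2) * c ^ 2)
    have h4 : ((k1 + k2) * c ^ 2) ^ 2 * (2 * β * (k1 * c ^ 2))
        - 2 * ((k1 + k2) * c ^ 2) * (2 * β * (k1 * (k1 + k2) * c ^ 4))
        + 2 * β * (k1 * ((k1 + k2) ^ 2 + k2 * k3) * c ^ 6)
        = k3 * (2 * β * k1 * k2 * c ^ 6) := by ring
    rw [h4] at h3
    have h5 : k3 * (2 * β * k1 * k2 * c ^ 6) < 0 := mul_neg_of_neg_of_pos hk3neg (by positivity)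
    linarith

end Pool.Agent.H967.GGC
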