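import Pool.Agent.H967.GGC.Basic2

set_option autoImplicit false

namespace Pool.Agent.H967.GGC

/-- `∑ T^(2j)/(2j)! M_(j+k)`, `M_k = (3/4)_k (5/4)_k / (k! (μ+1)_k)` -/
noncomputable def Sk (T μ : ℝ) (k : ℕ) : ℝ :=
  ∑' j : ℕ, T ^ (2 * j) / ((2 * j).factorial : ℝ) * hc (3 / 4) (5 / 4) (μ + 1) (j + k)

end Pool.Agent.H967.GGC
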