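import Pool.Agent.H967.GGC.VQ4

set_option autoImplicit false

/-!
# The representing measure of the coefficients `kap` of the second family
-/

namespace Pool.Agent.H967.GGC
open MeasureTheory Filter Topology Set

/-- W0 -/
theorem xi_rep_proof {μ : ℝ} (hμ : -1 / 4 < μ) :
    ∃ σ : Measure ℝ, IsProbabilityMeasure σ ∧ σ (Icc 0 1)ᶜ = 0 ∧
      (∀ w : ℝ, 0 < w → w < 1 →
        F (3 / 4) (1 / 4 + 1) (μ + 1) w / F (3 / 4) (1 / 4) (μ + 1) w = ∫ t, 1 / (1 - w * t) ∂σ) ∧
      ∀ n : ℕ, kap (μ + 1 / 2) (2 * μ + 1 / 2) (μ + 1) n =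
        4 * μ + ∫ t, Real.cos (n * Real.arccos (2 * t - 1)) ∂σ := by
  obtain ⟨σ, hσp, hσ0, hσ⟩ := stieltjes_w (α := 3 / 4) (β := 1 / 4) (γ := μ + 1) (by norm_num)
    (by norm_num) (by linarith) (by linarith)
  obtain ⟨r1, hr1, hr11, h2⟩ := quad_log hμ
  obtain ⟨r2, hr2, hr21, h3⟩ := xi_gen hμ
  have hae : ∀ᵐ t ∂σ, t ∈ Icc (0:ℝ) 1 := by
    rw [ae_iff]
    exact hσ0
  obtain ⟨τ, hτ⟩ : ∃ τ : ℕ → ℝ → ℝ, τ = fun (n : ℕ) (t : ℝ) => Real.cos (n * Real.arccos (2 * t - 1)) := ⟨_, rfl⟩
  have hτm : ∀ n, AEStronglyMeasurable (τ n) σ := by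
    intro n
    rw [hτ]
    have : Continuous fun t : ℝ => Real.cos ((n : ℝ) * Real.arccos (2 * t - 1)) := by
      have h := Real.continuous_arccos
      fun_prop
    exact this.aestronglyMeasurable
  have hτb : ∀ n t, |τ n t| ≤ 1 := by
    intro n t
    rw [hτ]
    exact Real.abs_cos_le_one _
  -- the integral of the generating function
  have hgen : ∀ z : ℝ, 0 < z → z < 1 → HasSum (fun n => (∫ t, τ n t ∂σ) * z ^ n)
      (∫ t, (1 - z * (2 * t - 1)) / (1 - 2 * z * (2 * t - 1) + z ^ 2) ∂σ) := by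
    intro z hz hz1
    have h := hasSum_integral_of_dominated_convergence (μ := σ) (F := fun n t => τ n t * z ^ n)
      (f := fun t => (1 - z * (2 * t - 1)) / (1 - 2 * z * (2 * t - 1) + z ^ 2))
      (bound := fun n _ => z ^ n)
      (fun n => (hτm n).mul_const _)
      (fun n => Filter.Eventually.of_forall fun t => by
        rw [norm_mul, Real.norm_eq_abs, Real.norm_eq_abs, abs_of_pos (pow_pos hz n)]
        have := mul_le_mul_of_nonneg_right (hτb n t) (pow_pos hz n).le
        linarith)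
      (Filter.Eventually.of_forall fun t => summable_geometric_of_lt_one hz.le hz1)
      (integrable_const _)
      (by
        filter_upwards [hae] with t ht
        have h1 := xi_kap_bound_gen (Real.arccos (2 * t - 1)) z hz hz1
        rw [Real.cos_arccos (by linarith [ht.1]) (by linarith [ht.2])] at h1
        rw [hτ]
        exact h1)
    refine xi_kap_bound_congr h (fun n => ?_) rfl
    rw [← integral_mul_const]
  -- the value of the integral
  have hval : ∀ z : ℝ, 0 < z → z < r1 → z < 1 →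
      4 * μ / (1 - z) + 1 + 2 * ((1 / 2 - μ) *
          (F (1 / 2) (1 / 2 - μ + 1) (μ + 1) z / F (1 / 2) (1 / 2 - μ) (μ + 1) z - 1)) =
        4 * μ / (1 - z) + ∫ t, (1 - z * (2 * t - 1)) / (1 - 2 * z * (2 * t - 1) + z ^ 2) ∂σ := by
    intro z hz hzr hz1
    obtain ⟨hw0, hw1, h4⟩ := h2 z hz hzr
    have h5 := hσ _ hw0 hw1
    rw [h4, h5]
    obtain ⟨w, hw⟩ : ∃ w : ℝ, w = 4 * z / (1 + z) ^ 2 := ⟨_, rfl⟩
    rw [← hw] at hw0 hw1 ⊢
    have hz2 : 0 < 1 + z := by linarith
    have hint : Integrable (fun t => 1 / (1 - w * t)) σ := by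
      refine Integrable.of_bound (C := 1 / (1 - w)) ?_ ?_
      · have : Measurable fun t : ℝ => 1 / (1 - w * t) := by fun_prop
        exact this.aestronglyMeasurable
      · filter_upwards [hae] with t ht
        have h6 : w * t ≤ w := by nlinarith [ht.1, ht.2]
        have h7 : 0 < 1 - w * t := by linarith
        rw [Real.norm_eq_abs, abs_of_pos (by positivity)]
        exact one_div_le_one_div_of_le (by linarith) (by linarith)
    have h6 : ∫ t, (1 - z * (2 * t - 1)) / (1 - 2 * z * (2 * t - 1) + z ^ 2) ∂σ =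
        ∫ t, ((1 / (1 + z) - (1 - z) / (1 + z) * (1 / 2)) +
          (1 - z) / (1 + z) * (1 / 2) * (1 / (1 - w * t))) ∂σ := by
      apply integral_congr_ae
      filter_upwards [hae] with t ht
      have h8 : 0 < 1 - 2 * z * (2 * t - 1) + z ^ 2 := by
        nlinarith [mul_nonneg hz.le (sub_nonneg.2 ht.2), sq_nonneg (1 - z), mul_pos hz hz,
          sq_pos_of_pos (sub_pos.2 hz1)]
      have h9 : 1 - w * t = (1 - 2 * z * (2 * t - 1) + z ^ 2) / (1 + z) ^ 2 := by
        rw [hw, eq_div_iff (by positivity)]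
        have : 4 * z / (1 + z) ^ 2 * t * (1 + z) ^ 2 = 4 * z * t := by field_simp
        linear_combination -this
      rw [h9]
      obtain ⟨D, hD⟩ : ∃ D : ℝ, D = 1 - 2 * z * (2 * t - 1) + z ^ 2 := ⟨_, rfl⟩
      rw [← hD] at h8 ⊢
      have e1 : (1 / (1 + z) - (1 - z) / (1 + z) * (1 / 2)) = 1 / 2 := by field_simp; ring
      have e2 : (1 - z) / (1 + z) * (1 / 2) * (1 / (D / (1 + z) ^ 2)) =
          (1 - z) * (1 + z) / (2 * D) := by field_simp
      rw [e1, e2, div_add_div _ _ (by norm_num) (by positivity),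
        div_eq_div_iff h8.ne' (by positivity), hD]
      ring
    rw [h6, integral_add (integrable_const _) (hint.const_mul _), integral_const,
      integral_const_mul]
    simp only [probReal_univ, one_smul]
    field_simp
    ring
  have hd := xi_kap_bound_uniq
    (fun n => kap (μ + 1 / 2) (2 * μ + 1 / 2) (μ + 1) n - (4 * μ + ∫ t, τ n t ∂σ)) (min r1 r2)
    (lt_min hr1 hr2) (by
      intro z hz hzr
      have hz1 : z < 1 := lt_trans (lt_of_lt_of_le hzr (min_le_left _ _)) hr11
      have a1 := h3 z hz (lt_of_lt_of_le hzr (min_le_right _ _))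
      rw [hval z hz (lt_of_lt_of_le hzr (min_le_left _ _)) hz1] at a1
      have a2 := ((hasSum_geometric_of_lt_one hz.le hz1).mul_left (4 * μ)).add (hgen z hz hz1)
      refine xi_kap_bound_congr (a1.sub a2) (fun n => ?_) ?_
      · ring
      · rw [div_eq_mul_inv]; ring)
  refine ⟨σ, hσp, hσ0, hσ, fun n => ?_⟩
  have h4 := hd n
  rw [hτ] at h4
  linarith

end Pool.Agent.H967.GGC
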