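import Pool.Agent.H967.GGC.Basic2

set_option autoImplicit false

/-!
# The second family: leaf W1
-/

namespace Pool.Agent.H967.GGC
open MeasureTheory Filter Topology Set

/-- W1: the kernel -/
theorem ker_hasSum_proof {t : ℝ} (h0 : 0 ≤ t) (h1 : t ≤ 1) (x : ℝ) :
    HasSum (fun n : ℕ => Real.cos (n * Real.arccos (2 * t - 1)) * (x ^ (2 * n) /
      ((2 * n).factorial : ℝ))) (Real.cosh (x * √t) * Real.cos (x * √(1 - t))) := by
  set θ := Real.arccos (2 * t - 1) with hθ
  have hcos : Real.cos θ = 2 * t - 1 := Real.cos_arccos (by linarith) (by linarith)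
  have hθ0 : 0 ≤ θ := Real.arccos_nonneg _
  have hθ1 : θ ≤ Real.pi := Real.arccos_le_pi _
  have hpi := Real.pi_pos
  have hc0 : 0 ≤ Real.cos (θ / 2) := Real.cos_nonneg_of_mem_Icc ⟨by linarith, by linarith⟩
  have hs0 : 0 ≤ Real.sin (θ / 2) := Real.sin_nonneg_of_nonneg_of_le_pi (by linarith) (by linarith)
  have hdouble : Real.cos θ = 2 * Real.cos (θ / 2) ^ 2 - 1 := by
    rw [← Real.cos_two_mul]
    congr 1
    ring
  have hsq := Real.sin_sq_add_cos_sq (θ / 2)
  have e1 : √t = Real.cos (θ / 2) := by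
    rw [show t = Real.cos (θ / 2) ^ 2 by linarith]
    exact Real.sqrt_sq hc0
  have e2 : √(1 - t) = Real.sin (θ / 2) := by
    rw [show 1 - t = Real.sin (θ / 2) ^ 2 by linarith]
    exact Real.sqrt_sq hs0
  have h2 := Complex.hasSum_cosh ((x : ℂ) * Complex.exp (((θ / 2 : ℝ) : ℂ) * Complex.I))
  have h3 := Complex.hasSum_re h2
  have e3 : (Complex.cosh ((x : ℂ) * Complex.exp (((θ / 2 : ℝ) : ℂ) * Complex.I))).re =
      Real.cosh (x * √t) * Real.cos (x * √(1 - t)) := by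
    rw [e1, e2, Complex.exp_mul_I, mul_add, ← mul_assoc, ← Complex.ofReal_cos, ← Complex.ofReal_sin,
      ← Complex.ofReal_mul, ← Complex.ofReal_mul, Complex.cosh_add, Complex.cosh_mul_I,
      Complex.sinh_mul_I, ← Complex.ofReal_cosh, ← Complex.ofReal_cos, ← Complex.ofReal_sinh,
      ← Complex.ofReal_sin]
    simp only [Complex.add_re, Complex.mul_re, Complex.mul_im, Complex.ofReal_re, Complex.ofReal_im,
      Complex.I_re, Complex.I_im, mul_zero, zero_mul, sub_zero, add_zero, mul_one, zero_add]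
  rw [e3] at h3
  refine h3.congr_fun ?_
  intro n
  rw [mul_pow, ← Complex.exp_nat_mul]
  have e5 : (((2 * n : ℕ) : ℂ) * (((θ / 2 : ℝ) : ℂ) * Complex.I)) = (((n * θ : ℝ)) : ℂ) * Complex.I := by
    push_cast
    ring
  rw [e5, Complex.exp_mul_I, ← Complex.ofReal_cos, ← Complex.ofReal_sin, ← Complex.ofReal_pow]
  have e6 : (((x ^ (2 * n) : ℝ) : ℂ) * (((Real.cos (n * θ) : ℝ) : ℂ) + ((Real.sin (n * θ) : ℝ) : ℂ) * Complex.I) /
      (((2 * n).factorial : ℕ) : ℂ)) = ((x ^ (2 * n) * Real.cos (n * θ) / ((2 * n).factorial : ℝ) : ℝ) : ℂ) +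
      ((x ^ (2 * n) * Real.sin (n * θ) / ((2 * n).factorial : ℝ) : ℝ) : ℂ) * Complex.I := by
    push_cast
    ring
  rw [e6]
  simp only [Complex.add_re, Complex.ofReal_re, Complex.mul_re, Complex.I_re, Complex.I_im,
    Complex.ofReal_im, mul_zero, zero_mul, sub_zero, add_zero]
  ring

end Pool.Agent.H967.GGC
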