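import Pool.Agent.H967.GGC.Main4
import Pool.Agent.H967.GGC.VQ5
import Pool.Agent.H967.GGC.SkDef
import Pool.Agent.H967.GGC.VW0
import Pool.Agent.H967.GGC.VW1

set_option autoImplicit false

namespace Pool.Agent.H967.GGC

alias xi_rep := xi_rep_proof
alias ker_hasSum := ker_hasSum_proof
alias xi_KK_bounds := xi_KK_bounds_proof

end Pool.Agent.H967.GGC
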