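import Pool.Agent.H967.GGC.El2

set_option autoImplicit false

namespace Pool.Agent.H967.GGC
open MeasureTheory Filter Topology Set

theorem num1_K {μ : ℝ} (h : 0 < μ) :
    kap (μ + 1 / 2) (2 * μ + 1 / 2) (μ + 1) 1 - 4 * μ = (1 / 2 - μ) / (μ + 1) ∧
    kap (μ + 1 / 2) (2 * μ + 1 / 2) (μ + 1) 2 - 4 * μ = ((1 / 2 - μ) / (μ + 1)) ^ 2 +
      ((1 / 2 - μ) / (μ + 1)) * ((2 * μ + 1 / 2) * (3 / 2) / ((μ + 1) * (μ + 2))) ∧
    kap (μ + 1 / 2) (2 * μ + 1 / 2) (μ + 1) 3 - 4 * μ = ((1 / 2 - μ) / (μ + 1)) ^ 3 +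
      2 * ((1 / 2 - μ) / (μ + 1)) ^ 2 * ((2 * μ + 1 / 2) * (3 / 2) / ((μ + 1) * (μ + 2))) +
      ((1 / 2 - μ) / (μ + 1)) * ((2 * μ + 1 / 2) * (3 / 2) / ((μ + 1) * (μ + 2))) ^ 2 +
      ((1 / 2 - μ) / (μ + 1)) * ((2 * μ + 1 / 2) * (3 / 2) / ((μ + 1) * (μ + 2))) *
        ((μ + 1 / 2) * (3 / 2 - μ) / ((μ + 2) * (μ + 3))) := by
  have h0 := kap_zero (μ + 1 / 2) (2 * μ + 1 / 2) (μ + 1)
  have h1 := kap_rec (μ + 1 / 2) (2 * μ + 1 / 2) (μ + 1) 1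
  have h2 := kap_rec (μ + 1 / 2) (2 * μ + 1 / 2) (μ + 1) 2
  have h3 := kap_rec (μ + 1 / 2) (2 * μ + 1 / 2) (μ + 1) 3
  rw [Finset.Nat.sum_antidiagonal_eq_sum_range_succ_mk] at h1 h2 h3
  simp only [Finset.sum_range_succ, Finset.sum_range_zero, zero_add] at h1 h2 h3
  norm_num only [Nat.sub_self, Nat.sub_zero] at h1 h2 h3
  simp only [hc, Finset.prod_range_succ, Finset.prod_range_zero, h0] at h1 h2 h3
  push_cast at h1 h2 h3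
  have p1 : μ + 1 ≠ 0 := by positivity
  have p2 : μ + 1 + 1 ≠ 0 := by positivity
  have p3 : μ + 1 + 2 ≠ 0 := by positivity
  have p2' : μ + 2 ≠ 0 := by positivity
  have p3' : μ + 3 ≠ 0 := by positivity
  generalize kap (μ + 1 / 2) (2 * μ + 1 / 2) (μ + 1) 1 = K1 at h1 h2 h3 ⊢
  generalize kap (μ + 1 / 2) (2 * μ + 1 / 2) (μ + 1) 2 = K2 at h2 h3 ⊢
  generalize kap (μ + 1 / 2) (2 * μ + 1 / 2) (μ + 1) 3 = K3 at h3 ⊢
  rw [show μ + 1 + 1 = μ + 2 by ring] at h2 h3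
  rw [show μ + 1 + 2 = μ + 3 by ring] at h3
  have k1 : K1 = 4 * μ + (1 / 2 - μ) / (μ + 1) := by
    have e : K1 = 2 * (2 * μ + 1 / 2) * (1 * ((μ + 1 / 2 + 0) * (2 * μ + 1 / 2 + 1 + 0) / ((μ + 1 + 0) * (0 + 1)))) -
        2 * (2 * μ + 1 / 2) * (1 * ((μ + 1 / 2 + 0) * (2 * μ + 1 / 2 + 0) / ((μ + 1 + 0) * (0 + 1)))) := by
      linarith
    rw [e]
    field_simp
    ring
  have k2 : K2 = 4 * μ + (((1 / 2 - μ) / (μ + 1)) ^ 2 +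
      ((1 / 2 - μ) / (μ + 1)) * ((2 * μ + 1 / 2) * (3 / 2) / ((μ + 1) * (μ + 2)))) := by
    rw [k1] at h2
    have e : K2 = 2 * (2 * μ + 1 / 2) *
      (1 * ((μ + 1 / 2 + 0) * (2 * μ + 1 / 2 + 1 + 0) / ((μ + 1 + 0) * (0 + 1))) *
        ((μ + 1 / 2 + 1) * (2 * μ + 1 / 2 + 1 + 1) / ((μ + 2) * (1 + 1)))) -
        2 * (2 * μ + 1 / 2) *
          (1 * ((μ + 1 / 2 + 0) * (2 * μ + 1 / 2 + 0) / ((μ + 1 + 0) * (0 + 1))) *
            ((μ + 1 / 2 + 1) * (2 * μ + 1 / 2 + 1) / ((μ + 2) * (1 + 1)))) -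
        (4 * μ + (1 / 2 - μ) / (μ + 1)) *
          (1 * ((μ + 1 / 2 + 0) * (2 * μ + 1 / 2 + 0) / ((μ + 1 + 0) * (0 + 1)))) := by
      linarith
    rw [e]
    field_simp
    ring
  have k3 : K3 = 4 * μ + (((1 / 2 - μ) / (μ + 1)) ^ 3 +
      2 * ((1 / 2 - μ) / (μ + 1)) ^ 2 * ((2 * μ + 1 / 2) * (3 / 2) / ((μ + 1) * (μ + 2))) +
      ((1 / 2 - μ) / (μ + 1)) * ((2 * μ + 1 / 2) * (3 / 2) / ((μ + 1) * (μ + 2))) ^ 2 +
      ((1 / 2 - μ) / (μ + 1)) * ((2 * μ + 1 / 2) * (3 / 2) / ((μ + 1) * (μ + 2))) *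
        ((μ + 1 / 2) * (3 / 2 - μ) / ((μ + 2) * (μ + 3)))) := by
    rw [k1, k2] at h3
    have e : K3 = 2 * (2 * μ + 1 / 2) *
      (1 * ((μ + 1 / 2 + 0) * (2 * μ + 1 / 2 + 1 + 0) / ((μ + 1 + 0) * (0 + 1))) *
          ((μ + 1 / 2 + 1) * (2 * μ + 1 / 2 + 1 + 1) / ((μ + 2) * (1 + 1))) *
        ((μ + 1 / 2 + 2) * (2 * μ + 1 / 2 + 1 + 2) / ((μ + 3) * (2 + 1)))) -
        2 * (2 * μ + 1 / 2) *
            (1 * ((μ + 1 / 2 + 0) * (2 * μ + 1 / 2 + 0) / ((μ + 1 + 0) * (0 + 1))) *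
                ((μ + 1 / 2 + 1) * (2 * μ + 1 / 2 + 1) / ((μ + 2) * (1 + 1))) *
              ((μ + 1 / 2 + 2) * (2 * μ + 1 / 2 + 2) / ((μ + 3) * (2 + 1)))) -
        (4 * μ + (1 / 2 - μ) / (μ + 1)) *
            (1 * ((μ + 1 / 2 + 0) * (2 * μ + 1 / 2 + 0) / ((μ + 1 + 0) * (0 + 1))) *
              ((μ + 1 / 2 + 1) * (2 * μ + 1 / 2 + 1) / ((μ + 2) * (1 + 1)))) -
        (4 * μ + (((1 / 2 - μ) / (μ + 1)) ^ 2 +
          ((1 / 2 - μ) / (μ + 1)) * ((2 * μ + 1 / 2) * (3 / 2) / ((μ + 1) * (μ + 2))))) *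
          (1 * ((μ + 1 / 2 + 0) * (2 * μ + 1 / 2 + 0) / ((μ + 1 + 0) * (0 + 1)))) := by
      linarith
    rw [e]
    field_simp
    ring
  refine ⟨by rw [k1]; ring, by rw [k2]; ring, by rw [k3]; ring⟩


theorem num1_poly {μ : ℝ} (h1 : 3 / 2 ≤ μ) (h2 : μ ≤ 6) :
    (594021/8000) * μ ^ 0 + (2084117/16000) * μ ^ 1 + (-72129/2000) * μ ^ 2 + (-15309/100) * μ ^ 3 + (-123729/2000) * μ ^ 4 + (-6009/2000) * μ ^ 5 + (24/125) * μ ^ 6 + (1/10) * μ ^ 7 < 0 := by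
  have ht : 0 ≤ μ - 3 / 2 := by linarith
  have hw : 0 ≤ 6 - μ := by linarith
  have b0 := pow_nonneg hw 7
  have b1 := mul_nonneg ht (pow_nonneg hw 6)
  have b2 := mul_nonneg (pow_nonneg ht 2) (pow_nonneg hw 5)
  have b3 := mul_nonneg (pow_nonneg ht 3) (pow_nonneg hw 4)
  have b4 := mul_nonneg (pow_nonneg ht 4) (pow_nonneg hw 3)
  have b5 := mul_nonneg (pow_nonneg ht 5) (pow_nonneg hw 2)
  have b6 := mul_nonneg (pow_nonneg ht 6) hw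
  have b7 := pow_nonneg ht 7
  ring_nf at b0 b1 b2 b3 b4 b5 b6 b7 ⊢
  linarith

theorem num1_rat {μ : ℝ} (h1 : 3 / 2 ≤ μ) (h2 : μ ≤ 6) :
    1173 / 100 + μ / 10 - 4934 / 1000 * (1 - (1 / 2 - μ) / (μ + 1)) -
      4058 / 1000 * (1 - (((1 / 2 - μ) / (μ + 1)) ^ 2 +
      ((1 / 2 - μ) / (μ + 1)) * ((2 * μ + 1 / 2) * (3 / 2) / ((μ + 1) * (μ + 2))))) -
      1335 / 1000 * (1 - (((1 / 2 - μ) / (μ + 1)) ^ 3 +
      2 * ((1 / 2 - μ) / (μ + 1)) ^ 2 * ((2 * μ + 1 / 2) * (3 / 2) / ((μ + 1) * (μ + 2))) +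
      ((1 / 2 - μ) / (μ + 1)) * ((2 * μ + 1 / 2) * (3 / 2) / ((μ + 1) * (μ + 2))) ^ 2 +
      ((1 / 2 - μ) / (μ + 1)) * ((2 * μ + 1 / 2) * (3 / 2) / ((μ + 1) * (μ + 2))) *
        ((μ + 1 / 2) * (3 / 2 - μ) / ((μ + 2) * (μ + 3))))) < 0 := by
  have hD : 0 < (μ + 1) ^ 3 * (μ + 2) ^ 2 * (μ + 3) := by positivity
  have p1 : μ + 1 ≠ 0 := by positivity
  have p2 : μ + 2 ≠ 0 := by positivity
  have p3 : μ + 3 ≠ 0 := by positivity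
  have hP := div_neg_of_neg_of_pos (num1_poly h1 h2) hD
  refine lt_of_eq_of_lt ?_ hP
  rw [eq_div_iff hD.ne']
  field_simp
  ring

theorem num1_exp : Real.cosh Real.pi ≤ 1173 / 100 ∧ Real.exp (-Real.pi) ≤ 1 / 20 := by
  have hp1 := Real.pi_gt_three
  have hp2 : Real.pi < 3.1416 := Real.pi_lt_d4
  have e1 := Real.exp_one_lt_d9
  have e2 := Real.exp_one_gt_d9
  have h3 : Real.exp 3 = Real.exp 1 ^ 3 := by rw [← Real.exp_nat_mul]; norm_num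
  have h3u : Real.exp 3 ≤ 20.0856 := by
    rw [h3]
    calc Real.exp 1 ^ 3 ≤ 2.7182818286 ^ 3 := by gcongr
      _ ≤ 20.0856 := by norm_num
  have h3l : 20 ≤ Real.exp 3 := by
    rw [h3]
    calc (20 : ℝ) ≤ 2.7182818283 ^ 3 := by norm_num
      _ ≤ Real.exp 1 ^ 3 := by gcongr
  have h4 : Real.exp 0.1416 ≤ 1.165 := by
    have h5 := Real.add_one_le_exp (-0.1416 : ℝ)
    rw [Real.exp_neg] at h5
    have h6 : 0 < Real.exp 0.1416 := Real.exp_pos _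
    have h7 : (-0.1416 + 1) * Real.exp 0.1416 ≤ 1 := by
      calc (-0.1416 + 1) * Real.exp 0.1416 ≤ (Real.exp 0.1416)⁻¹ * Real.exp 0.1416 :=
            mul_le_mul_of_nonneg_right h5 h6.le
        _ = 1 := inv_mul_cancel₀ h6.ne'
    nlinarith
  have h5 : Real.exp Real.pi ≤ 23.41 := by
    calc Real.exp Real.pi ≤ Real.exp (3 + 0.1416) := Real.exp_le_exp.2 (by linarith)
      _ = Real.exp 3 * Real.exp 0.1416 := Real.exp_add _ _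
      _ ≤ 20.0856 * 1.165 := mul_le_mul h3u h4 (Real.exp_pos _).le (by norm_num)
      _ ≤ 23.41 := by norm_num
  have h6 : Real.exp (-Real.pi) ≤ 1 / 20 := by
    calc Real.exp (-Real.pi) ≤ Real.exp (-3) := Real.exp_le_exp.2 (by linarith)
      _ = (Real.exp 3)⁻¹ := Real.exp_neg _
      _ ≤ (20 : ℝ)⁻¹ := inv_anti₀ (by norm_num) h3l
      _ = 1 / 20 := by norm_num
  refine ⟨?_, h6⟩
  rw [Real.cosh_eq]
  linarith

theorem num1_proof {μ : ℝ} (h1 : 3 / 2 ≤ μ) (h2 : μ ≤ 6) :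
    KK (μ + 1 / 2) (2 * μ + 1 / 2) (μ + 1) Real.pi - 4 * μ * Real.cosh Real.pi <
      -(2 * μ * Real.exp (-Real.pi)) := by
  have hμ : 0 < μ := by linarith
  obtain ⟨g1, g2, g3⟩ := num1_K hμ
  have g0 : kap (μ + 1 / 2) (2 * μ + 1 / 2) (μ + 1) 0 - 4 * μ = 1 := by
    rw [kap_zero]
    ring
  have hb : ∀ n, |kap (μ + 1 / 2) (2 * μ + 1 / 2) (μ + 1) n - 4 * μ| ≤ 1 :=
    fun n => xi_kap_bound (by linarith) n
  have hc1 := Real.hasSum_cosh Real.pi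
  obtain ⟨g, hg⟩ : ∃ g : ℕ → ℝ, g = fun n => kap (μ + 1 / 2) (2 * μ + 1 / 2) (μ + 1) n - 4 * μ := ⟨_, rfl⟩
  have hgv : ∀ n, kap (μ + 1 / 2) (2 * μ + 1 / 2) (μ + 1) n - 4 * μ = g n := fun n => by rw [hg]
  simp only [hgv] at g0 g1 g2 g3 hb
  obtain ⟨c, hc⟩ : ∃ c : ℕ → ℝ, c = fun n => Real.pi ^ (2 * n) / ((2 * n).factorial : ℝ) := ⟨_, rfl⟩
  have hc0 : ∀ n, 0 ≤ c n := fun n => by rw [hc]; positivity
  rw [← hc] at hc1
  have hgs : Summable (fun n => g n * c n) := by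
    refine Summable.of_norm_bounded hc1.summable fun n => ?_
    rw [norm_mul, Real.norm_eq_abs, Real.norm_of_nonneg (hc0 n)]
    exact mul_le_of_le_one_left (hc0 n) (hb n)
  have hKK : KK (μ + 1 / 2) (2 * μ + 1 / 2) (μ + 1) Real.pi = 4 * μ * Real.cosh Real.pi + ∑' n, g n * c n := by
    rw [← hc1.tsum_eq, ← tsum_mul_left, ← (hc1.summable.mul_left (4 * μ)).tsum_add hgs]
    unfold KK
    refine tsum_congr fun n => ?_
    rw [← hgv, hc]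
    ring
  have hs2 : Summable (fun n => (1 - g n) * c n) := by
    refine (hc1.summable.sub hgs).congr fun n => ?_
    ring
  have ht : ∑' n, (1 - g n) * c n = Real.cosh Real.pi - ∑' n, g n * c n := by
    rw [← hc1.tsum_eq, ← hc1.summable.tsum_sub hgs]
    exact tsum_congr fun n => by ring
  have hle := hs2.sum_le_tsum (Finset.range 4) (fun n _ =>
    mul_nonneg (by linarith [(abs_le.1 (hb n)).2]) (hc0 n))
  rw [ht] at hle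
  simp only [Finset.sum_range_succ, Finset.sum_range_zero, g0] at hle
  obtain ⟨e1, e2⟩ := num1_exp
  have hp : 3.1415 < Real.pi := Real.pi_gt_d4
  have c1 : 4934 / 1000 ≤ c 1 := by
    rw [hc]
    simp only [mul_one]
    have : (3.1415 : ℝ) ^ 2 ≤ Real.pi ^ 2 := by gcongr
    norm_num [Nat.factorial] at this ⊢
    linarith
  have c2 : 4058 / 1000 ≤ c 2 := by
    rw [hc]
    have : (3.1415 : ℝ) ^ 4 ≤ Real.pi ^ 4 := by gcongr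
    norm_num [Nat.factorial] at this ⊢
    linarith
  have c3 : 1335 / 1000 ≤ c 3 := by
    rw [hc]
    have : (3.1415 : ℝ) ^ 6 ≤ Real.pi ^ 6 := by gcongr
    norm_num [Nat.factorial] at this ⊢
    linarith
  have hr := num1_rat h1 h2
  rw [← g3, ← g2, ← g1] at hr
  have k1 : 4934 / 1000 * (1 - g 1) ≤ (1 - g 1) * c 1 := by
    have := (abs_le.1 (hb 1)).2
    nlinarith
  have k2 : 4058 / 1000 * (1 - g 2) ≤ (1 - g 2) * c 2 := by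
    have := (abs_le.1 (hb 2)).2
    nlinarith
  have k3 : 1335 / 1000 * (1 - g 3) ≤ (1 - g 3) * c 3 := by
    have := (abs_le.1 (hb 3)).2
    nlinarith
  have k4 : 2 * μ * Real.exp (-Real.pi) ≤ μ / 10 := by
    nlinarith
  rw [hKK]
  linarith

end Pool.Agent.H967.GGC

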