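import Pool.Agent.H967.GGC.El2

set_option autoImplicit false

namespace Pool.Agent.H967.GGC
open MeasureTheory Filter Topology Set

theorem num2_ratio {μ : ℝ} (hμ : 0 ≤ μ) (n : ℕ) :
    (3 / 4 + (n : ℝ)) * (5 / 4 + n) / ((μ + 1 + n) * (n + 1)) ≤ 1 := by
  have hn : (0 : ℝ) ≤ n := Nat.cast_nonneg n
  rw [div_le_one (by positivity)]
  nlinarith [mul_nonneg hμ hn]

theorem num2_anti {μ : ℝ} (hμ : 0 ≤ μ) : Antitone (fun n => hc (3 / 4) (5 / 4) (μ + 1) n) := by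
  apply antitone_nat_of_succ_le
  intro n
  rw [hc_succ]
  have h1 := num2_ratio hμ n
  have h2 : 0 < hc (3 / 4) (5 / 4) (μ + 1) n :=
    hc_pos (by norm_num) (by norm_num) (by linarith) n
  nlinarith

theorem num2_mono {μ₀ μ : ℝ} (h0 : 0 ≤ μ₀) (h : μ₀ ≤ μ) (n : ℕ) :
    hc (3 / 4) (5 / 4) (μ + 1) n ≤ hc (3 / 4) (5 / 4) (μ₀ + 1) n := by
  have hμ : 0 ≤ μ := le_trans h0 h
  unfold hc
  apply Finset.prod_le_prod
  · intro i _
    have : (0 : ℝ) ≤ i := Nat.cast_nonneg i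
    positivity
  · intro i _
    have hi : (0 : ℝ) ≤ i := Nat.cast_nonneg i
    apply div_le_div_of_nonneg_left (by positivity) (by positivity)
    apply mul_le_mul_of_nonneg_right (by linarith) (by positivity)

theorem num2_Sk {μ T : ℝ} (hμ : 0 ≤ μ) :
    Sk T μ 6 ≤ hc (3 / 4) (5 / 4) (μ + 1) 6 +
      hc (3 / 4) (5 / 4) (μ + 1) 7 * (Real.cosh T - 1) := by
  have hcos := Real.hasSum_cosh T
  have h1 : HasSum (fun j : ℕ => T ^ (2 * j) / ((2 * j).factorial : ℝ) *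
      hc (3 / 4) (5 / 4) (μ + 1) 7 + (if j = 0 then (hc (3 / 4) (5 / 4) (μ + 1) 6 -
        hc (3 / 4) (5 / 4) (μ + 1) 7) else 0)) (Real.cosh T * hc (3 / 4) (5 / 4) (μ + 1) 7 +
        (hc (3 / 4) (5 / 4) (μ + 1) 6 - hc (3 / 4) (5 / 4) (μ + 1) 7)) :=
    (hcos.mul_right _).add (hasSum_ite_eq 0 _)
  have hle : ∀ j : ℕ, T ^ (2 * j) / ((2 * j).factorial : ℝ) * hc (3 / 4) (5 / 4) (μ + 1) (j + 6) ≤
      T ^ (2 * j) / ((2 * j).factorial : ℝ) *
      hc (3 / 4) (5 / 4) (μ + 1) 7 + (if j = 0 then (hc (3 / 4) (5 / 4) (μ + 1) 6 -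
        hc (3 / 4) (5 / 4) (μ + 1) 7) else 0) := by
    intro j
    rcases Nat.eq_zero_or_pos j with rfl | hj
    · simp
    · rw [if_neg hj.ne', add_zero]
      apply mul_le_mul_of_nonneg_left
      · exact num2_anti hμ (by omega)
      · rw [pow_mul]
        positivity
  have h0 : ∀ j : ℕ, 0 ≤ T ^ (2 * j) / ((2 * j).factorial : ℝ) *
      hc (3 / 4) (5 / 4) (μ + 1) (j + 6) := by
    intro j
    have h2 : 0 < hc (3 / 4) (5 / 4) (μ + 1) (j + 6) :=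
      hc_pos (by norm_num) (by norm_num) (by linarith) _
    rw [pow_mul]
    positivity
  have hs : Summable (fun j : ℕ => T ^ (2 * j) / ((2 * j).factorial : ℝ) *
      hc (3 / 4) (5 / 4) (μ + 1) (j + 6)) := Summable.of_nonneg_of_le h0 hle h1.summable
  have h2 := hs.tsum_le_tsum hle h1.summable
  rw [h1.tsum_eq] at h2
  unfold Sk
  linarith

theorem num2_exp : Real.exp (5 * Real.pi / 4) ≤ 50.8 ∧ Real.exp (-(5 * Real.pi / 4)) ≤ 0.0198 := by
  have hp1 := Real.pi_gt_d4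
  have hp2 := Real.pi_lt_d4
  have he1 := Real.exp_one_gt_d9
  have he2 := Real.exp_one_lt_d9
  have h4 : Real.exp 4 = Real.exp 1 ^ 4 := by
    rw [← Real.exp_nat_mul]
    norm_num
  have h4u : Real.exp 4 ≤ 54.5983 := by
    rw [h4]
    calc Real.exp 1 ^ 4 ≤ 2.7182818286 ^ 4 := pow_le_pow_left₀ (Real.exp_pos 1).le he2.le 4
      _ ≤ 54.5983 := by norm_num
  have h4l : 54.598 ≤ Real.exp 4 := by
    rw [h4]
    calc (54.598 : ℝ) ≤ 2.7182818283 ^ 4 := by norm_num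
      _ ≤ Real.exp 1 ^ 4 := pow_le_pow_left₀ (by norm_num) he1.le 4
  constructor
  · -- `exp T = exp 4 * exp (-(4 - T))`
    have h5 : Real.exp (5 * Real.pi / 4) = Real.exp 4 / Real.exp (4 - 5 * Real.pi / 4) := by
      rw [← Real.exp_sub]
      congr 1
      ring
    have h6 : 1.0756 ≤ Real.exp (4 - 5 * Real.pi / 4) := by
      have h7 : (0.073 : ℝ) ≤ 4 - 5 * Real.pi / 4 := by linarith
      have h8 := Real.quadratic_le_exp_of_nonneg (x := 0.073) (by norm_num)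
      have h9 := Real.exp_le_exp.2 h7
      have h10 : (1.0756 : ℝ) ≤ 1 + 0.073 + 0.073 ^ 2 / 2 := by norm_num
      linarith
    rw [h5, div_le_iff₀ (Real.exp_pos _)]
    nlinarith
  · have h5 : Real.exp (-(5 * Real.pi / 4)) = Real.exp (-(5 * Real.pi / 4 - 4)⁻¹⁻¹) / Real.exp 4 := by
      rw [inv_inv, ← Real.exp_sub]
      congr 1
      ring
    rw [inv_inv] at h5
    have h6 : Real.exp (-(5 * Real.pi / 4 - 4)) ≤ 1.0789 := by
      have h7 : -(5 * Real.pi / 4 - 4) ≤ (0.073125 : ℝ) := by linarith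
      have h8 := Real.exp_le_exp.2 h7
      have h9 := Real.add_one_le_exp (-(0.073125 : ℝ))
      have h10 : Real.exp (0.073125 : ℝ) * Real.exp (-(0.073125 : ℝ)) = 1 := by
        rw [← Real.exp_add]
        simp
      have h11 := Real.exp_pos (0.073125 : ℝ)
      have h12 : Real.exp (0.073125 : ℝ) * (1 - 0.073125) ≤ 1 := by
        rw [← h10]
        apply mul_le_mul_of_nonneg_left _ h11.le
        linarith
      have h13 : Real.exp (0.073125 : ℝ) ≤ 1.0789 := by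
        nlinarith
      linarith
    rw [h5, div_le_iff₀ (Real.exp_pos _)]
    nlinarith

theorem num2_part {μ₀ μ₁ μ : ℝ} (h0 : 0 ≤ μ₀) (h1 : μ₀ ≤ μ) (h2 : μ ≤ μ₁)
    (hn : -0.7071 + 24.85 * (hc (3 / 4) (5 / 4) (μ₀ + 1) 6 +
      hc (3 / 4) (5 / 4) (μ₀ + 1) 7 * 24.41) < -(2 * μ₁ * 0.0198)) :
    -(√2 / 2) + (1 + √2 / 2) / (16 / 25) ^ 6 * Sk (5 * Real.pi / 4) μ 6 <
      -(2 * μ * Real.exp (-(5 * Real.pi / 4))) := by
  obtain ⟨he1, he2⟩ := num2_exp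
  have hμ : 0 ≤ μ := le_trans h0 h1
  have hS := num2_Sk (T := 5 * Real.pi / 4) hμ
  have hcosh : Real.cosh (5 * Real.pi / 4) ≤ 25.41 := by
    rw [Real.cosh_eq]
    linarith
  have hcosh1 := Real.one_le_cosh (5 * Real.pi / 4)
  have h6 := num2_mono h0 h1 6
  have h7 := num2_mono h0 h1 7
  have h7p : 0 < hc (3 / 4) (5 / 4) (μ + 1) 7 := hc_pos (by norm_num) (by norm_num) (by linarith) _
  have h6p : 0 < hc (3 / 4) (5 / 4) (μ₀ + 1) 6 := hc_pos (by norm_num) (by norm_num) (by linarith) _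
  have h7p' : 0 < hc (3 / 4) (5 / 4) (μ₀ + 1) 7 := hc_pos (by norm_num) (by norm_num) (by linarith) _
  have hS2 : Sk (5 * Real.pi / 4) μ 6 ≤ hc (3 / 4) (5 / 4) (μ₀ + 1) 6 +
      hc (3 / 4) (5 / 4) (μ₀ + 1) 7 * 24.41 := by
    have h8 : hc (3 / 4) (5 / 4) (μ + 1) 7 * (Real.cosh (5 * Real.pi / 4) - 1) ≤
        hc (3 / 4) (5 / 4) (μ₀ + 1) 7 * 24.41 := by
      apply mul_le_mul h7 (by linarith) (by linarith) h7p'.le
    linarith
  obtain ⟨B, hB⟩ : ∃ B, B = hc (3 / 4) (5 / 4) (μ₀ + 1) 6 +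
      hc (3 / 4) (5 / 4) (μ₀ + 1) 7 * 24.41 := ⟨_, rfl⟩
  rw [← hB] at hn hS2
  have hB0 : 0 ≤ B := by rw [hB]; positivity
  have hs2 : (√2) ^ 2 = 2 := Real.sq_sqrt (by norm_num)
  have hs0 : 0 ≤ √2 := Real.sqrt_nonneg 2
  have hs1 : 1.4142 ≤ √2 := by
    apply Real.le_sqrt_of_sq_le
    norm_num
  have hs3 : √2 ≤ 1.41422 := by
    rw [Real.sqrt_le_left (by norm_num)]
    norm_num
  have hK : (1 + √2 / 2) / (16 / 25 : ℝ) ^ 6 ≤ 24.85 := by
    rw [div_le_iff₀ (by norm_num)]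
    norm_num
    linarith
  have hK0 : 0 ≤ (1 + √2 / 2) / (16 / 25 : ℝ) ^ 6 := by positivity
  have h9 : (1 + √2 / 2) / (16 / 25 : ℝ) ^ 6 * Sk (5 * Real.pi / 4) μ 6 ≤ 24.85 * B :=
    le_trans (mul_le_mul_of_nonneg_left hS2 hK0) (mul_le_mul_of_nonneg_right hK hB0)
  have h10 : 2 * μ * Real.exp (-(5 * Real.pi / 4)) ≤ 2 * μ₁ * 0.0198 := by
    apply mul_le_mul (by linarith) he2 (Real.exp_pos _).le (by linarith)
  linarith

/-- N2 -/
theorem num2_proof {μ : ℝ} (h1 : 6 ≤ μ) (h2 : μ ≤ 17) :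
    -(√2 / 2) + (1 + √2 / 2) / (16 / 25) ^ 6 * Sk (5 * Real.pi / 4) μ 6 <
      -(2 * μ * Real.exp (-(5 * Real.pi / 4))) := by
  rcases le_total μ 8 with h3 | h3
  · apply num2_part (μ₀ := 6) (μ₁ := 8) (by norm_num) h1 h3
    simp only [hc, Finset.prod_range_succ, Finset.prod_range_zero]
    norm_num
  · rcases le_total μ 12 with h4 | h4
    · apply num2_part (μ₀ := 8) (μ₁ := 12) (by norm_num) h3 h4
      simp only [hc, Finset.prod_range_succ, Finset.prod_range_zero]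
      norm_num
    · apply num2_part (μ₀ := 12) (μ₁ := 17) (by norm_num) h4 h2
      simp only [hc, Finset.prod_range_succ, Finset.prod_range_zero]
      norm_num

end Pool.Agent.H967.GGC
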