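import Pool.Agent.H967.GGC.El2

set_option autoImplicit false

/-!
# The second family: leaf N3
-/

namespace Pool.Agent.H967.GGC
open MeasureTheory Filter Topology Set

theorem num3_ratio {c : ℝ} (hc' : 2 ≤ c) (m : ℕ) :
    (3 / 4 + (m : ℝ)) * (5 / 4 + m) / ((c + m) * (m + 1)) ≤ 1 := by
  have hm : (0 : ℝ) ≤ m := Nat.cast_nonneg m
  rw [div_le_one (by positivity)]
  nlinarith

theorem num3_anti {c : ℝ} (hc' : 2 ≤ c) (m k : ℕ) :
    hc (3 / 4) (5 / 4) c (m + k) ≤ hc (3 / 4) (5 / 4) c k := by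
  induction m with
  | zero => rw [Nat.zero_add]
  | succ m ih =>
    rw [show m + 1 + k = (m + k) + 1 by ring, hc_succ]
    have h1 := hc_pos (a := 3 / 4) (b := 5 / 4) (c := c) (by norm_num) (by norm_num) (by linarith) (m + k)
    have h2 := num3_ratio hc' (m + k)
    have h3 : hc (3 / 4) (5 / 4) c (m + k) * ((3 / 4 + ((m + k : ℕ) : ℝ)) * (5 / 4 + ((m + k : ℕ) : ℝ)) /
        ((c + ((m + k : ℕ) : ℝ)) * (((m + k : ℕ) : ℝ) + 1))) ≤ hc (3 / 4) (5 / 4) c (m + k) :=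
      mul_le_of_le_one_right h1.le h2
    exact h3.trans ih

theorem num3_mono {c c0 : ℝ} (h0 : 2 ≤ c0) (h : c0 ≤ c) (m : ℕ) :
    c * hc (3 / 4) (5 / 4) c (m + 1) ≤ c0 * hc (3 / 4) (5 / 4) c0 (m + 1) := by
  induction m with
  | zero =>
    rw [hc_succ, hc_succ, hc_zero, hc_zero]
    have h1 : c ≠ 0 := by linarith
    have h2 : c0 ≠ 0 := by linarith
    have e : ∀ x : ℝ, x ≠ 0 → x * (1 * ((3 / 4 + ((0 : ℕ) : ℝ)) * (5 / 4 + ((0 : ℕ) : ℝ)) /
        ((x + ((0 : ℕ) : ℝ)) * (((0 : ℕ) : ℝ) + 1)))) = 15 / 16 := by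
      intro x hx
      rw [Nat.cast_zero, add_zero x]
      field_simp
      norm_num
    rw [e c h1, e c0 h2]
  | succ m ih =>
    rw [hc_succ _ _ c, hc_succ _ _ c0, ← mul_assoc, ← mul_assoc]
    have hm : (0 : ℝ) ≤ ((m + 1 : ℕ) : ℝ) := Nat.cast_nonneg _
    have h1 := hc_pos (a := 3 / 4) (b := 5 / 4) (c := c0) (by norm_num) (by norm_num) (by linarith) (m + 1)
    apply mul_le_mul ih
    · apply div_le_div_of_nonneg_left (by positivity) (by positivity)
      have : 0 ≤ ((m + 1 : ℕ) : ℝ) + 1 := by positivity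
      nlinarith
    · have h3 : 0 < c := by linarith
      positivity
    · have h3 : 0 < c0 := by linarith
      positivity

theorem num3_summ (T μ : ℝ) (hμ : 1 ≤ μ) (k : ℕ) :
    Summable (fun j : ℕ => T ^ (2 * j) / ((2 * j).factorial : ℝ) * hc (3 / 4) (5 / 4) (μ + 1) (j + k)) := by
  have h1 : Summable (fun n : ℕ => T ^ (2 * n) / ((2 * n).factorial : ℝ)) := (Real.hasSum_cosh T).summable
  refine Summable.of_nonneg_of_le ?_ ?_ (h1.mul_right (hc (3 / 4) (5 / 4) (μ + 1) k))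
  · intro j
    have h2 := hc_pos (a := 3 / 4) (b := 5 / 4) (c := μ + 1) (by norm_num) (by norm_num) (by linarith) (j + k)
    rw [pow_mul]
    positivity
  · intro j
    apply mul_le_mul_of_nonneg_left (num3_anti (by linarith) j k)
    rw [pow_mul]
    positivity

/-- upper bound by a finite sum and a tail -/
theorem num3_fin {T B μ : ℝ} (hT : T ^ 2 ≤ B) (hμ : 1 ≤ μ) (k N : ℕ)
    (hN : B / ((2 * (N : ℝ) + 1) * (2 * N + 2)) ≤ 1 / 2) :
    Sk T μ k ≤ ∑ j ∈ Finset.range N, B ^ j / ((2 * j).factorial : ℝ) * hc (3 / 4) (5 / 4) (μ + 1) (j + k) +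
      2 * (B ^ N / ((2 * N).factorial : ℝ) * hc (3 / 4) (5 / 4) (μ + 1) (N + k)) := by
  have hB : 0 ≤ B := (sq_nonneg T).trans hT
  have hp : ∀ m, 0 < hc (3 / 4) (5 / 4) (μ + 1) m := fun m =>
    hc_pos (a := 3 / 4) (b := 5 / 4) (c := μ + 1) (by norm_num) (by norm_num) (by linarith) m
  have hs := num3_summ T μ hμ k
  unfold Sk
  rw [← hs.sum_add_tsum_nat_add N]
  have hle : ∀ j : ℕ, T ^ (2 * j) / ((2 * j).factorial : ℝ) * hc (3 / 4) (5 / 4) (μ + 1) (j + k) ≤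
      B ^ j / ((2 * j).factorial : ℝ) * hc (3 / 4) (5 / 4) (μ + 1) (j + k) := by
    intro j
    apply mul_le_mul_of_nonneg_right _ (hp _).le
    apply div_le_div_of_nonneg_right _ (by positivity)
    rw [pow_mul]
    exact pow_le_pow_left₀ (sq_nonneg T) hT j
  apply add_le_add (Finset.sum_le_sum fun j _ => hle j)
  -- the tail
  have htail : ∀ i : ℕ, B ^ (i + N) / ((2 * (i + N)).factorial : ℝ) * hc (3 / 4) (5 / 4) (μ + 1) (i + N + k) ≤
      (1 / 2) ^ i * (B ^ N / ((2 * N).factorial : ℝ) * hc (3 / 4) (5 / 4) (μ + 1) (N + k)) := by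
    intro i
    induction i with
    | zero => simp
    | succ i ih =>
      have e1 : B ^ (i + 1 + N) / ((2 * (i + 1 + N)).factorial : ℝ) =
          B ^ (i + N) / ((2 * (i + N)).factorial : ℝ) *
            (B / ((2 * ((i + N : ℕ) : ℝ) + 1) * (2 * ((i + N : ℕ) : ℝ) + 2))) := by
        rw [show i + 1 + N = (i + N) + 1 by ring, show 2 * ((i + N) + 1) = 2 * (i + N) + 1 + 1 by ring,
          Nat.factorial_succ, Nat.factorial_succ, pow_succ]
        have : ((2 * (i + N)).factorial : ℝ) ≠ 0 := by positivity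
        push_cast
        field_simp
        ring
      have e2 : hc (3 / 4) (5 / 4) (μ + 1) (i + 1 + N + k) ≤ hc (3 / 4) (5 / 4) (μ + 1) (i + N + k) := by
        rw [show i + 1 + N + k = 1 + (i + N + k) by ring]
        exact num3_anti (by linarith) 1 _
      have e3 : B / ((2 * ((i + N : ℕ) : ℝ) + 1) * (2 * ((i + N : ℕ) : ℝ) + 2)) ≤ 1 / 2 := by
        refine le_trans ?_ hN
        apply div_le_div_of_nonneg_left hB (by positivity)
        have : (N : ℝ) ≤ ((i + N : ℕ) : ℝ) := by exact_mod_cast Nat.le_add_left N i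
        apply mul_le_mul (by linarith) (by linarith) (by positivity) (by positivity)
      rw [e1, pow_succ]
      have h5 : 0 ≤ B ^ (i + N) / ((2 * (i + N)).factorial : ℝ) := by positivity
      calc B ^ (i + N) / ((2 * (i + N)).factorial : ℝ) *
            (B / ((2 * ((i + N : ℕ) : ℝ) + 1) * (2 * ((i + N : ℕ) : ℝ) + 2))) *
            hc (3 / 4) (5 / 4) (μ + 1) (i + 1 + N + k)
          ≤ B ^ (i + N) / ((2 * (i + N)).factorial : ℝ) * (1 / 2) *
            hc (3 / 4) (5 / 4) (μ + 1) (i + N + k) := by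
            apply mul_le_mul (mul_le_mul_of_nonneg_left e3 h5) e2 (hp _).le (by positivity)
        _ = (1 / 2) * (B ^ (i + N) / ((2 * (i + N)).factorial : ℝ) *
            hc (3 / 4) (5 / 4) (μ + 1) (i + N + k)) := by ring
        _ ≤ (1 / 2) * ((1 / 2) ^ i * (B ^ N / ((2 * N).factorial : ℝ) *
            hc (3 / 4) (5 / 4) (μ + 1) (N + k))) := mul_le_mul_of_nonneg_left ih (by norm_num)
        _ = _ := by ring
  have hg : HasSum (fun i : ℕ => (1 / 2 : ℝ) ^ i * (B ^ N / ((2 * N).factorial : ℝ) *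
      hc (3 / 4) (5 / 4) (μ + 1) (N + k))) (2 * (B ^ N / ((2 * N).factorial : ℝ) *
      hc (3 / 4) (5 / 4) (μ + 1) (N + k))) := hasSum_geometric_two.mul_right _
  rw [← hg.tsum_eq]
  apply Summable.tsum_le_tsum _ ((summable_nat_add_iff N).2 hs) hg.summable
  intro i
  exact (hle (i + N)).trans (htail i)

theorem num3_sk {T μ : ℝ} (hT : T ^ 2 ≤ 8883 / 100) (hμ : 17 ≤ μ) (k : ℕ) (hk : 1 ≤ k) :
    (μ + 1) * Sk T μ k ≤ ∑ j ∈ Finset.range 8, (8883 / 100 : ℝ) ^ j / ((2 * j).factorial : ℝ) *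
        (18 * hc (3 / 4) (5 / 4) 18 (j + k)) +
      2 * ((8883 / 100) ^ 8 / ((2 * 8).factorial : ℝ) * (18 * hc (3 / 4) (5 / 4) 18 (8 + k))) := by
  have h1 := num3_fin (μ := μ) hT (by linarith) k 8 (by norm_num)
  have hm : ∀ m : ℕ, 1 ≤ m → (μ + 1) * hc (3 / 4) (5 / 4) (μ + 1) m ≤ 18 * hc (3 / 4) (5 / 4) 18 m := by
    intro m hm
    obtain ⟨i, rfl⟩ := Nat.exists_eq_add_of_le' hm
    exact num3_mono (by norm_num) (by linarith) i
  refine (mul_le_mul_of_nonneg_left h1 (by linarith)).trans ?_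
  rw [mul_add, Finset.mul_sum]
  apply add_le_add
  · apply Finset.sum_le_sum
    intro j _
    calc (μ + 1) * ((8883 / 100 : ℝ) ^ j / ((2 * j).factorial : ℝ) * hc (3 / 4) (5 / 4) (μ + 1) (j + k))
        = (8883 / 100 : ℝ) ^ j / ((2 * j).factorial : ℝ) * ((μ + 1) * hc (3 / 4) (5 / 4) (μ + 1) (j + k)) := by
          ring
      _ ≤ _ := mul_le_mul_of_nonneg_left (hm _ (by omega)) (by positivity)
  · calc (μ + 1) * (2 * ((8883 / 100 : ℝ) ^ 8 / ((2 * 8).factorial : ℝ) * hc (3 / 4) (5 / 4) (μ + 1) (8 + k)))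
        = 2 * ((8883 / 100 : ℝ) ^ 8 / ((2 * 8).factorial : ℝ) * ((μ + 1) * hc (3 / 4) (5 / 4) (μ + 1) (8 + k))) := by
          ring
      _ ≤ _ := mul_le_mul_of_nonneg_left (mul_le_mul_of_nonneg_left (hm _ (by omega)) (by positivity))
            (by norm_num)

theorem num3_v2 : ∑ j ∈ Finset.range 8, (8883 / 100 : ℝ) ^ j / ((2 * j).factorial : ℝ) *
        (18 * hc (3 / 4) (5 / 4) 18 (j + 2)) +
      2 * ((8883 / 100) ^ 8 / ((2 * 8).factorial : ℝ) * (18 * hc (3 / 4) (5 / 4) 18 (8 + 2))) ≤ 26 / 10 := by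
  simp only [Finset.sum_range_succ, Finset.sum_range_zero, hc, Finset.prod_range_succ,
    Finset.prod_range_zero, Nat.factorial]
  norm_num

theorem num3_v3 : ∑ j ∈ Finset.range 8, (8883 / 100 : ℝ) ^ j / ((2 * j).factorial : ℝ) *
        (18 * hc (3 / 4) (5 / 4) 18 (j + 3)) +
      2 * ((8883 / 100) ^ 8 / ((2 * 8).factorial : ℝ) * (18 * hc (3 / 4) (5 / 4) 18 (8 + 3))) ≤ 61 / 100 := by
  simp only [Finset.sum_range_succ, Finset.sum_range_zero, hc, Finset.prod_range_succ,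
    Finset.prod_range_zero, Nat.factorial]
  norm_num

theorem num3_v4 : ∑ j ∈ Finset.range 8, (8883 / 100 : ℝ) ^ j / ((2 * j).factorial : ℝ) *
        (18 * hc (3 / 4) (5 / 4) 18 (j + 4)) +
      2 * ((8883 / 100) ^ 8 / ((2 * 8).factorial : ℝ) * (18 * hc (3 / 4) (5 / 4) 18 (8 + 4))) ≤ 17 / 100 := by
  simp only [Finset.sum_range_succ, Finset.sum_range_zero, hc, Finset.prod_range_succ,
    Finset.prod_range_zero, Nat.factorial]
  norm_num

/-- N3 -/
theorem num3_proof {μ : ℝ} (h1 : 17 ≤ μ) (h2 : μ ≤ 100) :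
    -1 + (3 * Real.pi) ^ 2 / 2 * (Sk (3 * Real.pi) μ 2 / 4 + Sk (3 * Real.pi) μ 3 / 2 +
      Sk (3 * Real.pi) μ 4 / 4 - 3 / 4 / (μ + 1)) < -(2 * μ * Real.exp (-(3 * Real.pi))) := by
  have hpi := Real.pi_lt_d4
  have hpi3 := Real.pi_gt_three
  have hT : (3 * Real.pi) ^ 2 ≤ 8883 / 100 := by nlinarith
  have s2 := (num3_sk hT h1 2 (by norm_num)).trans num3_v2
  have s3 := (num3_sk hT h1 3 (by norm_num)).trans num3_v3
  have s4 := (num3_sk hT h1 4 (by norm_num)).trans num3_v4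
  have hc0 : 0 < μ + 1 := by linarith
  set X := Sk (3 * Real.pi) μ 2 / 4 + Sk (3 * Real.pi) μ 3 / 2 + Sk (3 * Real.pi) μ 4 / 4 - 3 / 4 / (μ + 1)
    with hX
  have hXc : (μ + 1) * X ≤ 1 / 4 := by
    have e : (μ + 1) * X = ((μ + 1) * Sk (3 * Real.pi) μ 2) / 4 + ((μ + 1) * Sk (3 * Real.pi) μ 3) / 2 +
        ((μ + 1) * Sk (3 * Real.pi) μ 4) / 4 - 3 / 4 := by
      rw [hX]
      field_simp
    rw [e]
    linarith
  have hX18 : X ≤ 1 / 72 := by
    by_contra hcon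
    push Not at hcon
    nlinarith
  have hmain : (3 * Real.pi) ^ 2 / 2 * X ≤ 8883 / 200 * (1 / 72) := by
    rcases le_or_gt X 0 with h | h
    · have : (3 * Real.pi) ^ 2 / 2 * X ≤ 0 := mul_nonpos_of_nonneg_of_nonpos (by positivity) h
      linarith
    · apply mul_le_mul (by linarith) hX18 h.le (by norm_num)
  have hexp : Real.exp (-(3 * Real.pi)) ≤ 1 / 1000 := by
    rw [Real.exp_neg, ← one_div]
    apply one_div_le_one_div_of_le (by norm_num)
    have h9 : Real.exp 9 ≤ Real.exp (3 * Real.pi) := Real.exp_le_exp.2 (by linarith)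
    have he : (2.7 : ℝ) ≤ Real.exp 1 := by linarith [Real.exp_one_gt_d9]
    have h10 : Real.exp 9 = Real.exp 1 ^ 9 := by
      rw [← Real.exp_nat_mul]
      norm_num
    have h11 : (2.7 : ℝ) ^ 9 ≤ Real.exp 1 ^ 9 := pow_le_pow_left₀ (by norm_num) he 9
    have h12 : (1000 : ℝ) ≤ 2.7 ^ 9 := by norm_num
    linarith
  have h13 : 2 * μ * Real.exp (-(3 * Real.pi)) ≤ 200 * (1 / 1000) :=
    mul_le_mul (by linarith) hexp (Real.exp_pos _).le (by norm_num)
  linarith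

end Pool.Agent.H967.GGC
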