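import Pool.Agent.H967.GGC.El2

set_option autoImplicit false

/-!
# N4: explicit inequality for large `μ` (helper412 for helper967)
-/

namespace Pool.Agent.H967.GGC
open MeasureTheory Filter Topology Set

theorem num4_ratio {μ : ℝ} (hμ : 0 ≤ μ) (i : ℕ) :
    0 ≤ (3 / 4 + (i : ℝ)) * (5 / 4 + i) / ((μ + 1 + i) * (i + 1)) ∧
    (3 / 4 + (i : ℝ)) * (5 / 4 + i) / ((μ + 1 + i) * (i + 1)) ≤ 1 ∧
    (3 / 4 + (i : ℝ)) * (5 / 4 + i) / ((μ + 1 + i) * (i + 1)) ≤ (i + 1) / (μ + 1) := by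
  have hi : (0 : ℝ) ≤ i := Nat.cast_nonneg i
  refine ⟨by positivity, ?_, ?_⟩
  · rw [div_le_one (by positivity)]
    nlinarith
  · rw [div_le_div_iff₀ (by positivity) (by positivity)]
    have h1 : (3 / 4 + (i : ℝ)) * (5 / 4 + i) ≤ (i + 1) * (i + 1) := by nlinarith
    have h2 : μ + 1 ≤ μ + 1 + i := by linarith
    calc (3 / 4 + (i : ℝ)) * (5 / 4 + i) * (μ + 1) ≤ (i + 1) * (i + 1) * (μ + 1 + i) :=
          mul_le_mul h1 h2 (by linarith) (by positivity)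
      _ = (i + 1) * ((μ + 1 + i) * (i + 1)) := by ring

theorem num4_hc {μ : ℝ} (hμ : 0 ≤ μ) (k : ℕ) : 0 ≤ hc (3 / 4) (5 / 4) (μ + 1) k ∧
    hc (3 / 4) (5 / 4) (μ + 1) k ≤ (k.factorial : ℝ) / (μ + 1) ^ k := by
  induction k with
  | zero => simp [hc]
  | succ k ih =>
    obtain ⟨r1, r2, r3⟩ := num4_ratio hμ k
    have h1 : hc (3 / 4) (5 / 4) (μ + 1) (k + 1) = hc (3 / 4) (5 / 4) (μ + 1) k *
        ((3 / 4 + (k : ℝ)) * (5 / 4 + k) / ((μ + 1 + k) * (k + 1))) := by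
      unfold hc
      rw [Finset.prod_range_succ]
    rw [h1]
    refine ⟨mul_nonneg ih.1 r1, (mul_le_mul ih.2 r3 r1 (by positivity)).trans (le_of_eq ?_)⟩
    rw [div_mul_div_comm, Nat.factorial_succ, pow_succ]
    push_cast
    ring

theorem num4_anti {μ : ℝ} (hμ : 0 ≤ μ) : Antitone fun k => hc (3 / 4) (5 / 4) (μ + 1) k := by
  refine antitone_nat_of_succ_le fun k => ?_
  obtain ⟨r1, r2, r3⟩ := num4_ratio hμ k
  have h1 : hc (3 / 4) (5 / 4) (μ + 1) (k + 1) = hc (3 / 4) (5 / 4) (μ + 1) k *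
      ((3 / 4 + (k : ℝ)) * (5 / 4 + k) / ((μ + 1 + k) * (k + 1))) := by
    unfold hc
    rw [Finset.prod_range_succ]
  rw [h1]
  exact mul_le_of_le_one_right (num4_hc hμ k).1 r2

theorem num4_fac (j : ℕ) : (j + 2).factorial * 2 ^ j ≤ 8 * (2 * j).factorial := by
  rcases Nat.eq_zero_or_pos j with rfl | hj
  · decide
  · induction j, hj using Nat.le_induction with
    | base => decide
    | succ j hj ih =>
      have h1 : (j + 1 + 2).factorial = (j + 3) * (j + 2).factorial := by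
        rw [show j + 1 + 2 = (j + 2) + 1 by ring, Nat.factorial_succ]
      have h2 : (2 * (j + 1)).factorial = (2 * j + 2) * ((2 * j + 1) * (2 * j).factorial) := by
        rw [show 2 * (j + 1) = (2 * j + 1) + 1 by ring, Nat.factorial_succ, Nat.factorial_succ]
      rw [h1, h2, pow_succ]
      have h3 : 2 * (j + 3) ≤ (2 * j + 2) * (2 * j + 1) := by nlinarith
      calc (j + 3) * (j + 2).factorial * (2 ^ j * 2) = 2 * (j + 3) * ((j + 2).factorial * 2 ^ j) := by ring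
        _ ≤ (2 * j + 2) * (2 * j + 1) * (8 * (2 * j).factorial) := Nat.mul_le_mul h3 ih
        _ = 8 * ((2 * j + 2) * ((2 * j + 1) * (2 * j).factorial)) := by ring

theorem num4_term {μ T : ℝ} (hμ : 0 ≤ μ) (h2 : T ^ 2 ≤ μ) (j k : ℕ) (hk : 2 ≤ k) :
    0 ≤ T ^ (2 * j) / ((2 * j).factorial : ℝ) * hc (3 / 4) (5 / 4) (μ + 1) (j + k) ∧
    T ^ (2 * j) / ((2 * j).factorial : ℝ) * hc (3 / 4) (5 / 4) (μ + 1) (j + k) ≤
      8 / (μ + 1) ^ 2 * (1 / 2) ^ j := by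
  have hf : (0 : ℝ) < ((2 * j).factorial : ℝ) := by exact_mod_cast Nat.factorial_pos _
  have hT : T ^ (2 * j) = (T ^ 2) ^ j := pow_mul T 2 j
  have hT0 : 0 ≤ T ^ (2 * j) := by
    rw [hT]
    positivity
  have hT1 : T ^ (2 * j) ≤ (μ + 1) ^ j := by
    rw [hT]
    exact pow_le_pow_left₀ (sq_nonneg T) (by linarith) j
  obtain ⟨g1, g2⟩ := num4_hc hμ (j + 2)
  have g3 : hc (3 / 4) (5 / 4) (μ + 1) (j + k) ≤ hc (3 / 4) (5 / 4) (μ + 1) (j + 2) :=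
    num4_anti hμ (by omega)
  have g4 := (num4_hc hμ (j + k)).1
  refine ⟨mul_nonneg (div_nonneg hT0 hf.le) g4, ?_⟩
  have hm : 0 < μ + 1 := by linarith
  have hfac : ((j + 2).factorial : ℝ) * 2 ^ j ≤ 8 * ((2 * j).factorial : ℝ) := by
    exact_mod_cast num4_fac j
  calc T ^ (2 * j) / ((2 * j).factorial : ℝ) * hc (3 / 4) (5 / 4) (μ + 1) (j + k)
      ≤ (μ + 1) ^ j / ((2 * j).factorial : ℝ) * (((j + 2).factorial : ℝ) / (μ + 1) ^ (j + 2)) :=
        mul_le_mul (div_le_div_of_nonneg_right hT1 hf.le) (g3.trans g2) g4 (by positivity)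
    _ = ((j + 2).factorial : ℝ) / ((2 * j).factorial : ℝ) / (μ + 1) ^ 2 := by
        rw [pow_add]
        field_simp
    _ ≤ 8 / 2 ^ j / (μ + 1) ^ 2 := by
        refine div_le_div_of_nonneg_right ?_ (by positivity)
        rw [div_le_div_iff₀ hf (by positivity)]
        exact hfac
    _ = 8 / (μ + 1) ^ 2 * (1 / 2) ^ j := by
        rw [one_div, inv_pow]
        field_simp

theorem num4_Sk {μ T : ℝ} (hμ : 0 ≤ μ) (h2 : T ^ 2 ≤ μ) (k : ℕ) (hk : 2 ≤ k) :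
    Sk T μ k ≤ 16 / (μ + 1) ^ 2 := by
  have hg : HasSum (fun j : ℕ => 8 / (μ + 1) ^ 2 * (1 / 2 : ℝ) ^ j) (8 / (μ + 1) ^ 2 * 2) :=
    hasSum_geometric_two.mul_left _
  have hs : Summable fun j : ℕ => T ^ (2 * j) / ((2 * j).factorial : ℝ) *
      hc (3 / 4) (5 / 4) (μ + 1) (j + k) :=
    Summable.of_nonneg_of_le (fun j => (num4_term hμ h2 j k hk).1)
      (fun j => (num4_term hμ h2 j k hk).2) hg.summable
  unfold Sk
  refine (hs.tsum_le_tsum (fun j => (num4_term hμ h2 j k hk).2) hg.summable).trans ?_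
  rw [hg.tsum_eq]
  refine le_of_eq ?_
  ring

theorem num4_proof {μ T : ℝ} (h1 : 100 ≤ μ) (h2 : T ^ 2 ≤ μ) (h3 : 2 * μ * Real.exp (-T) < 1) :
    -1 + T ^ 2 / 2 * (Sk T μ 2 / 4 + Sk T μ 3 / 2 + Sk T μ 4 / 4 - 3 / 4 / (μ + 1)) <
      -(2 * μ * Real.exp (-T)) := by
  have hμ : 0 ≤ μ := by linarith
  have a2 := num4_Sk hμ h2 2 le_rfl
  have a3 := num4_Sk hμ h2 3 (by norm_num)
  have a4 := num4_Sk hμ h2 4 (by norm_num)
  have hm : 0 < μ + 1 := by linarith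
  have h4 : 16 / (μ + 1) ^ 2 ≤ 3 / 4 / (μ + 1) := by
    rw [div_div, div_le_div_iff₀ (by positivity) (by positivity)]
    nlinarith
  have h5 : Sk T μ 2 / 4 + Sk T μ 3 / 2 + Sk T μ 4 / 4 - 3 / 4 / (μ + 1) ≤ 0 := by linarith
  have h6 : T ^ 2 / 2 * (Sk T μ 2 / 4 + Sk T μ 3 / 2 + Sk T μ 4 / 4 - 3 / 4 / (μ + 1)) ≤ 0 :=
    mul_nonpos_of_nonneg_of_nonpos (by positivity) h5
  linarith

end Pool.Agent.H967.GGC
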