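import Mathlib

set_option autoImplicit false

namespace Pool.Agent.H967.GGC
open MeasureTheory Filter Topology Set

theorem exists_odd_pi_small {μ : ℝ} (h1 : 100 ≤ μ) (h2 : μ ≤ 1000) :
    ((2 * ((1 : ℕ) : ℝ) + 1) * Real.pi) ^ 2 ≤ μ ∧
    2 * μ * Real.exp (-((2 * ((1 : ℕ) : ℝ) + 1) * Real.pi)) < 1 := by
  have hpi1 : Real.pi < 3.15 := Real.pi_lt_d2
  have hpi2 : (3 : ℝ) < Real.pi := Real.pi_gt_three
  have hpi0 : (0 : ℝ) < Real.pi := Real.pi_pos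
  refine ⟨?_, ?_⟩
  · push_cast
    nlinarith
  · have he : (2.7 : ℝ) < Real.exp 1 := by
      have := Real.exp_one_gt_d9
      linarith
    have h9 : (2000 : ℝ) < Real.exp 9 := by
      have e9 : Real.exp 9 = Real.exp 1 ^ 9 := by
        rw [← Real.exp_nat_mul]
        norm_num
      rw [e9]
      calc (2000 : ℝ) < 2.7 ^ 9 := by norm_num
        _ ≤ Real.exp 1 ^ 9 := pow_le_pow_left₀ (by norm_num) he.le 9
    have h3 : Real.exp 9 ≤ Real.exp ((2 * ((1 : ℕ) : ℝ) + 1) * Real.pi) := by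
      apply Real.exp_le_exp.2
      push_cast
      linarith
    rw [Real.exp_neg, ← div_eq_mul_inv, div_lt_one (Real.exp_pos _)]
    linarith

theorem exists_odd_pi_large {μ : ℝ} (h1 : 625 ≤ μ) : ∃ j : ℕ, ((2 * (j : ℝ) + 1) * Real.pi) ^ 2 ≤ μ ∧
    2 * μ * Real.exp (-((2 * (j : ℝ) + 1) * Real.pi)) < 1 := by
  have hpi1 : Real.pi < 3.15 := Real.pi_lt_d2
  have hpi0 : (0 : ℝ) < Real.pi := Real.pi_pos
  have hμ0 : (0 : ℝ) < μ := by linarith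
  obtain ⟨y, hy5, hy⟩ : ∃ y : ℝ, 5 ≤ y ∧ y ^ 4 = μ := by
    refine ⟨√(√μ), ?_, ?_⟩
    · apply Real.le_sqrt_of_sq_le
      apply Real.le_sqrt_of_sq_le
      norm_num
      exact h1
    · have e : √(√μ) ^ 4 = (√(√μ) ^ 2) ^ 2 := by ring
      rw [e, Real.sq_sqrt (Real.sqrt_nonneg _), Real.sq_sqrt hμ0.le]
  have hy0 : (0 : ℝ) < y := by linarith
  obtain ⟨L, hL⟩ : ∃ L : ℝ, L = Real.log (2 * μ) := ⟨_, rfl⟩
  have hL0 : 0 ≤ L := by
    rw [hL]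
    exact Real.log_nonneg (by linarith)
  have hL1 : L ≤ 0.7 + 4 * (y - 1) := by
    rw [hL, Real.log_mul (by norm_num) hμ0.ne', ← hy, Real.log_pow]
    have h2 := Real.log_two_lt_d9
    have h3 := Real.log_le_sub_one_of_pos hy0
    push_cast
    linarith
  have hLpi : 0 ≤ L / Real.pi := div_nonneg hL0 hpi0.le
  have hf1 := Nat.floor_le (show 0 ≤ (L / Real.pi + 1) / 2 by linarith)
  have hf2 := Nat.lt_floor_add_one ((L / Real.pi + 1) / 2)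
  refine ⟨⌊(L / Real.pi + 1) / 2⌋₊, ?_, ?_⟩
  · have h4 : (2 * ((⌊(L / Real.pi + 1) / 2⌋₊ : ℕ) : ℝ) + 1) * Real.pi ≤ L + 2 * Real.pi := by
      calc (2 * ((⌊(L / Real.pi + 1) / 2⌋₊ : ℕ) : ℝ) + 1) * Real.pi
          ≤ (L / Real.pi + 2) * Real.pi := by
            apply mul_le_mul_of_nonneg_right _ hpi0.le
            linarith
        _ = L + 2 * Real.pi := by
            field_simp
    have h5 : (2 * ((⌊(L / Real.pi + 1) / 2⌋₊ : ℕ) : ℝ) + 1) * Real.pi ≤ y ^ 2 := by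
      nlinarith
    have h6 : 0 ≤ (2 * ((⌊(L / Real.pi + 1) / 2⌋₊ : ℕ) : ℝ) + 1) * Real.pi := by positivity
    calc ((2 * ((⌊(L / Real.pi + 1) / 2⌋₊ : ℕ) : ℝ) + 1) * Real.pi) ^ 2 ≤ (y ^ 2) ^ 2 :=
          pow_le_pow_left₀ h6 h5 2
      _ = μ := by rw [← hy]; ring
  · have h7 : L < (2 * ((⌊(L / Real.pi + 1) / 2⌋₊ : ℕ) : ℝ) + 1) * Real.pi := by
      have h8 : L / Real.pi < 2 * ((⌊(L / Real.pi + 1) / 2⌋₊ : ℕ) : ℝ) + 1 := by linarith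
      rwa [div_lt_iff₀ hpi0] at h8
    have h9 : 2 * μ < Real.exp ((2 * ((⌊(L / Real.pi + 1) / 2⌋₊ : ℕ) : ℝ) + 1) * Real.pi) := by
      calc 2 * μ = Real.exp L := by rw [hL, Real.exp_log (by linarith)]
        _ < _ := Real.exp_lt_exp.2 h7
    rw [Real.exp_neg, ← div_eq_mul_inv, div_lt_one (Real.exp_pos _)]
    exact h9

/-- N5 -/
theorem exists_odd_pi_proof {μ : ℝ} (h1 : 100 ≤ μ) : ∃ j : ℕ, ((2 * (j : ℝ) + 1) * Real.pi) ^ 2 ≤ μ ∧
    2 * μ * Real.exp (-((2 * (j : ℝ) + 1) * Real.pi)) < 1 := by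
  rcases le_or_gt μ 1000 with h | h
  · exact ⟨1, exists_odd_pi_small h1 h⟩
  · exact exists_odd_pi_large (by linarith)

end Pool.Agent.H967.GGC
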