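import Pool.Agent.H967.GGC.El2

set_option autoImplicit false

/-!
# W3: the moments from the generating function
-/

namespace Pool.Agent.H967.GGC
open MeasureTheory Filter Topology Set

theorem xi_mom_congr {f g : ℕ → ℝ} {a b : ℝ} (h : HasSum f a) (h1 : ∀ n, g n = f n)
    (h2 : b = a) : HasSum g b := by
  rw [h2, funext h1]; exact h

theorem xi_mom_uniq (d : ℕ → ℝ) (r : ℝ) (hr : 0 < r)
    (h : ∀ z : ℝ, 0 < z → z < r → HasSum (fun n => d n * z ^ n) 0) : ∀ n, d n = 0 := by
  have P : ∀ n : ℕ, (∀ z : ℝ, 0 < z → z < r → HasSum (fun m => d (n + m) * z ^ m) 0) → d n = 0 ∧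
      ∀ z : ℝ, 0 < z → z < r → HasSum (fun m => d (n + 1 + m) * z ^ m) 0 := by
    intro n hn
    have hsh : ∀ z : ℝ, 0 < z → z < r →
        HasSum (fun m => d (n + 1 + m) * z ^ m) (-(d n) / z) := by
      intro z hz hzr
      have h1 := (hasSum_nat_add_iff' 1).2 (hn z hz hzr)
      have h2 := h1.mul_right z⁻¹
      refine xi_mom_congr h2 ?_ ?_
      · intro m
        have : z ≠ 0 := hz.ne'
        rw [pow_succ]
        field_simp
        rw [show n + 1 + m = n + (m + 1) by omega]
      · simp [div_eq_mul_inv]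
    have hd : d n = 0 := by
      have hρ : 0 < r / 2 := by linarith
      have hs := (hsh (r / 2) hρ (by linarith)).summable.abs
      set C : ℝ := ∑' m, |d (n + 1 + m) * (r / 2) ^ m| with hC
      have hC0 : 0 ≤ C := tsum_nonneg fun m => abs_nonneg _
      by_contra hne
      have hpos : 0 < |d n| := abs_pos.2 hne
      have hbd : ∀ z : ℝ, 0 < z → z ≤ r / 2 → |d n| ≤ C * z := by
        intro z hz hz2
        have h3 := hsh z hz (by linarith)
        have h4 : |-(d n) / z| ≤ C := by
          rw [← h3.tsum_eq]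
          have h5 : ∀ m, |d (n + 1 + m) * z ^ m| ≤ |d (n + 1 + m) * (r / 2) ^ m| := by
            intro m
            rw [abs_mul, abs_mul, abs_of_pos (pow_pos hz m), abs_of_pos (pow_pos hρ m)]
            exact mul_le_mul_of_nonneg_left (pow_le_pow_left₀ hz.le hz2 m) (abs_nonneg _)
          have h6 : Summable fun m => |d (n + 1 + m) * z ^ m| :=
            Summable.of_nonneg_of_le (fun m => abs_nonneg _) h5 hs
          calc |∑' m, d (n + 1 + m) * z ^ m| ≤ ∑' m, |d (n + 1 + m) * z ^ m| := by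
                have h7' := norm_tsum_le_tsum_norm (f := fun m => d (n + 1 + m) * z ^ m)
                  (by simpa only [Real.norm_eq_abs] using h6)
                simpa only [Real.norm_eq_abs] using h7'
            _ ≤ C := h6.tsum_le_tsum h5 hs
        rw [abs_div, abs_neg, abs_of_pos hz, div_le_iff₀ hz] at h4
        exact h4
      have hz0 : 0 < min (r / 2) (|d n| / (2 * (C + 1))) := lt_min hρ (by positivity)
      have h7 := hbd _ hz0 (min_le_left _ _)
      have h8 : C * min (r / 2) (|d n| / (2 * (C + 1))) ≤ (C + 1) * (|d n| / (2 * (C + 1))) :=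
        mul_le_mul (by linarith) (min_le_right _ _) hz0.le (by linarith)
      have h9 : (C + 1) * (|d n| / (2 * (C + 1))) = |d n| / 2 := by field_simp
      linarith
    refine ⟨hd, fun z hz hzr => ?_⟩
    have h1 := hsh z hz hzr
    rw [hd] at h1
    simpa using h1
  have Q : ∀ n : ℕ, ∀ z : ℝ, 0 < z → z < r → HasSum (fun m => d (n + m) * z ^ m) 0 := by
    intro n
    induction n with
    | zero => intro z hz hzr; simpa using h z hz hzr
    | succ n ih => exact (P n ih).2
  exact fun n => (P n (Q n)).1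


theorem xi_mom_proof {μ : ℝ} (hμ : -1 / 4 < μ) {σ : Measure ℝ} [IsProbabilityMeasure σ]
    (h0 : σ (Icc 0 1)ᶜ = 0)
    (hw : ∀ w : ℝ, 0 < w → w < 1 →
        F (3 / 4) (1 / 4 + 1) (μ + 1) w / F (3 / 4) (1 / 4) (μ + 1) w = ∫ t, 1 / (1 - w * t) ∂σ) :
    (∫ t, t ∂σ = 3 / 4 / (μ + 1)) ∧ ∀ k : ℕ, ∫ t, t ^ k ∂σ ≤ hc (3 / 4) (5 / 4) (μ + 1) k := by
  have hae : ∀ᵐ t ∂σ, t ∈ Icc (0:ℝ) 1 := by
    rw [ae_iff]
    exact h0
  have hμ1 : 0 < μ + 1 := by linarith
  rw [show (1 / 4 + 1 : ℝ) = 5 / 4 by norm_num] at hw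
  obtain ⟨m, hm⟩ : ∃ m : ℕ → ℝ, m = fun k => ∫ t, t ^ k ∂σ := ⟨_, rfl⟩
  have hm0 : ∀ k, 0 ≤ m k := by
    intro k
    rw [hm]
    apply integral_nonneg_of_ae
    filter_upwards [hae] with t ht
    exact pow_nonneg ht.1 k
  have hgen : ∀ w : ℝ, 0 < w → w < 1 → HasSum (fun n => m n * w ^ n)
      (∫ t, 1 / (1 - w * t) ∂σ) := by
    intro w hw0 hw1
    have h := hasSum_integral_of_dominated_convergence (μ := σ) (F := fun (n : ℕ) t => t ^ n * w ^ n)
      (f := fun t => 1 / (1 - w * t)) (bound := fun n _ => w ^ n)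
      (fun n => (by fun_prop : Continuous fun t : ℝ => t ^ n * w ^ n).aestronglyMeasurable)
      (fun n => by
        filter_upwards [hae] with t ht
        rw [norm_mul, norm_pow, Real.norm_eq_abs, Real.norm_eq_abs, abs_of_pos (pow_pos hw0 n),
          abs_of_nonneg ht.1]
        have h1 : t ^ n ≤ 1 := pow_le_one₀ ht.1 ht.2
        have h2 := mul_le_mul_of_nonneg_right h1 (pow_pos hw0 n).le
        linarith)
      (Filter.Eventually.of_forall fun t => summable_geometric_of_lt_one hw0.le hw1)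
      (integrable_const _)
      (by
        filter_upwards [hae] with t ht
        have h1 : 0 ≤ w * t := mul_nonneg hw0.le ht.1
        have h2 : w * t < 1 := by nlinarith [ht.1, ht.2]
        have h3 := hasSum_geometric_of_lt_one h1 h2
        refine xi_mom_congr h3 (fun n => ?_) ?_
        · rw [mul_pow]; ring
        · rw [one_div])
    refine xi_mom_congr h (fun n => ?_) rfl
    rw [hm, ← integral_mul_const]
  have hcp : ∀ n, 0 < hc (3 / 4) (1 / 4) (μ + 1) n := fun n =>
    hc_pos (by norm_num) (by norm_num) hμ1 n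
  have hd := xi_mom_uniq
    (fun n => (∑ x ∈ Finset.HasAntidiagonal.antidiagonal n, hc (3 / 4) (1 / 4) (μ + 1) x.1 * m x.2) -
      hc (3 / 4) (5 / 4) (μ + 1) n) 1 one_pos (by
      intro w hw0 hw1
      have habs : |w| < 1 := by rwa [abs_of_pos hw0]
      have s1 := summable_hc (a := 3 / 4) (b := 1 / 4) (by norm_num) (by norm_num) hμ1 habs
      have s2 := summable_hc (a := 3 / 4) (b := 5 / 4) (by norm_num) (by norm_num) hμ1 habs
      have s3 := hgen w hw0 hw1
      have hF : 0 < F (3 / 4) (1 / 4) (μ + 1) w :=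
        F_pos (by norm_num) (by norm_num) hμ1 hw0.le hw1
      have h1 : F (3 / 4) (5 / 4) (μ + 1) w =
          F (3 / 4) (1 / 4) (μ + 1) w * ∫ t, 1 / (1 - w * t) ∂σ := by
        rw [← hw w hw0 hw1]
        field_simp
      have n1 : Summable fun n => ‖hc (3 / 4) (1 / 4) (μ + 1) n * w ^ n‖ := by
        refine s1.congr fun n => ?_
        rw [Real.norm_eq_abs, abs_of_pos (mul_pos (hcp n) (pow_pos hw0 n))]
      have n2 : Summable fun n => ‖m n * w ^ n‖ := by
        refine s3.summable.congr fun n => ?_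
        rw [Real.norm_eq_abs, abs_of_nonneg (mul_nonneg (hm0 n) (pow_pos hw0 n).le)]
      have h2 := tsum_mul_tsum_eq_tsum_sum_antidiagonal_of_summable_norm n1 n2
      have h3 := (summable_norm_sum_mul_antidiagonal_of_summable_norm n1 n2).of_norm
      have h4 := h3.hasSum
      rw [← h2, s3.tsum_eq] at h4
      have h5 : HasSum (fun n => hc (3 / 4) (5 / 4) (μ + 1) n * w ^ n)
          (F (3 / 4) (1 / 4) (μ + 1) w * ∫ t, 1 / (1 - w * t) ∂σ) := by
        rw [← h1]
        exact s2.hasSum
      refine xi_mom_congr (h4.sub h5) (fun n => ?_) ?_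
      · rw [sub_mul, Finset.sum_mul]
        congr 1
        apply Finset.sum_congr rfl
        intro x hx
        rw [← Finset.HasAntidiagonal.mem_antidiagonal.1 hx, pow_add]
        ring
      · rw [F, sub_self])
  refine ⟨?_, fun k => ?_⟩
  · have h1 := hd 1
    have hm00 : m 0 = 1 := by
      rw [hm]
      simp
    have hm1 : m 1 = ∫ t, t ∂σ := by
      rw [hm]
      simp
    have e1 : hc (3 / 4) (1 / 4) (μ + 1) 1 = 3 / 16 / (μ + 1) := by
      simp only [hc, Finset.prod_range_one, Nat.cast_zero, add_zero, zero_add, mul_one]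
      norm_num
    have e2 : hc (3 / 4) (5 / 4) (μ + 1) 1 = 15 / 16 / (μ + 1) := by
      simp only [hc, Finset.prod_range_one, Nat.cast_zero, add_zero, zero_add, mul_one]
      norm_num
    have e3 : Finset.HasAntidiagonal.antidiagonal 1 = {((0 : ℕ), (1 : ℕ)), (1, 0)} := by decide
    simp only [e3] at h1
    rw [Finset.sum_insert (by decide), Finset.sum_singleton] at h1
    simp only [hc_zero, e1, e2, hm00] at h1
    rw [← hm1]
    have h2 : m 1 = 15 / 16 / (μ + 1) - 3 / 16 / (μ + 1) := by linarith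
    rw [h2]
    field_simp
    norm_num
  · have h1 := hd k
    have h2 : hc (3 / 4) (1 / 4) (μ + 1) 0 * m k ≤
        ∑ x ∈ Finset.HasAntidiagonal.antidiagonal k, hc (3 / 4) (1 / 4) (μ + 1) x.1 * m x.2 := by
      have := Finset.single_le_sum (f := fun x : ℕ × ℕ => hc (3 / 4) (1 / 4) (μ + 1) x.1 * m x.2)
        (s := Finset.HasAntidiagonal.antidiagonal k) (fun x _ => mul_nonneg (hcp x.1).le (hm0 x.2))
        (a := (0, k)) (by simp)
      exact this
    rw [hc_zero, one_mul] at h2
    have h3 : ∫ t, t ^ k ∂σ = m k := by rw [hm]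
    rw [h3]
    simp only [sub_eq_zero] at h1
    linarith

end Pool.Agent.H967.GGC
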