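import Pool.Agent.H967.GGC.El2

set_option autoImplicit false

/-!
# TH-W4 (helper53, for helper967): termwise integration
-/

namespace Pool.Agent.H967.GGC
open MeasureTheory Filter Topology Set

theorem xi_cosh_proof_bound {μ : ℝ} (hμ : -1 / 4 < μ) :
    ∃ C : ℝ, 0 ≤ C ∧ ∀ n : ℕ, hc (3 / 4) (5 / 4) (μ + 1) n ≤ C * 2 ^ n := by
  have hpos : ∀ n : ℕ, 0 < hc (3 / 4) (5 / 4) (μ + 1) n := fun n =>
    hc_pos (by norm_num) (by norm_num) (by linarith) n
  have hs : Summable (fun n : ℕ => hc (3 / 4) (5 / 4) (μ + 1) n * (1 / 2 : ℝ) ^ n) :=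
    summable_hc (by norm_num) (by norm_num) (by linarith) (by rw [abs_of_pos] <;> norm_num)
  refine ⟨∑' n : ℕ, hc (3 / 4) (5 / 4) (μ + 1) n * (1 / 2 : ℝ) ^ n,
    tsum_nonneg fun n => by have := hpos n; positivity, fun n => ?_⟩
  have h1 := hs.le_tsum n (fun m _ => by have := hpos m; positivity)
  have h2 : (0 : ℝ) ≤ 2 ^ n := by positivity
  calc hc (3 / 4) (5 / 4) (μ + 1) n
      = hc (3 / 4) (5 / 4) (μ + 1) n * (1 / 2 : ℝ) ^ n * 2 ^ n := by
        rw [mul_assoc, ← mul_pow]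
        norm_num
    _ ≤ _ := mul_le_mul_of_nonneg_right h1 h2

theorem xi_cosh_proof_summable {μ : ℝ} (hμ : -1 / 4 < μ) (x : ℝ) (k : ℕ) :
    Summable (fun j : ℕ => x ^ (2 * j) / ((2 * j).factorial : ℝ) *
      hc (3 / 4) (5 / 4) (μ + 1) (j + k)) := by
  obtain ⟨C, hC, hb⟩ := xi_cosh_proof_bound hμ
  have h1 := ((Real.hasSum_cosh (√2 * x)).summable.mul_left (C * 2 ^ k))
  refine Summable.of_nonneg_of_le (fun j => ?_) (fun j => ?_) h1
  · have h2 := (even_two_mul j).pow_nonneg x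
    have h3 : 0 < hc (3 / 4) (5 / 4) (μ + 1) (j + k) :=
      hc_pos (by norm_num) (by norm_num) (by linarith) _
    positivity
  · have h2 := (even_two_mul j).pow_nonneg x
    have h3 : (√2 * x) ^ (2 * j) = 2 ^ j * x ^ (2 * j) := by
      rw [mul_pow, pow_mul (√2), Real.sq_sqrt (by norm_num)]
    calc x ^ (2 * j) / ((2 * j).factorial : ℝ) * hc (3 / 4) (5 / 4) (μ + 1) (j + k)
        ≤ x ^ (2 * j) / ((2 * j).factorial : ℝ) * (C * 2 ^ (j + k)) :=
          mul_le_mul_of_nonneg_left (hb _) (by positivity)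
      _ = C * 2 ^ k * ((√2 * x) ^ (2 * j) / ((2 * j).factorial : ℝ)) := by
          rw [h3, pow_add]
          ring

theorem xi_cosh_proof {μ : ℝ} (hμ : -1 / 4 < μ) {σ : Measure ℝ} [IsProbabilityMeasure σ]
    (h0 : σ (Icc 0 1)ᶜ = 0) (hm : ∀ k : ℕ, ∫ t, t ^ k ∂σ ≤ hc (3 / 4) (5 / 4) (μ + 1) k)
    (x : ℝ) (k : ℕ) : ∫ t, t ^ k * Real.cosh (x * √t) ∂σ ≤ Sk x μ k := by
  have hae : ∀ᵐ t ∂σ, t ∈ Icc (0 : ℝ) 1 := by
    rw [ae_iff]
    exact h0
  have hx : ∀ j : ℕ, 0 ≤ x ^ (2 * j) / ((2 * j).factorial : ℝ) := fun j => by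
    have h2 := (even_two_mul j).pow_nonneg x
    positivity
  have h1 : HasSum (fun j : ℕ => ∫ t, x ^ (2 * j) / ((2 * j).factorial : ℝ) * t ^ (j + k) ∂σ)
      (∫ t, t ^ k * Real.cosh (x * √t) ∂σ) := by
    refine hasSum_integral_of_dominated_convergence
      (fun (j : ℕ) (_ : ℝ) => x ^ (2 * j) / ((2 * j).factorial : ℝ)) ?_ ?_ ?_ ?_ ?_
    · intro j
      exact (by fun_prop : Continuous fun t : ℝ =>
        x ^ (2 * j) / ((2 * j).factorial : ℝ) * t ^ (j + k)).aestronglyMeasurable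
    · intro j
      filter_upwards [hae] with t ht
      rw [norm_mul, Real.norm_eq_abs, Real.norm_eq_abs, abs_of_nonneg (hx j),
        abs_of_nonneg (pow_nonneg ht.1 _)]
      exact mul_le_of_le_one_right (hx j) (pow_le_one₀ ht.1 ht.2)
    · exact Eventually.of_forall fun t => (Real.hasSum_cosh x).summable
    · exact integrable_const _
    · filter_upwards [hae] with t ht
      have h2 := (Real.hasSum_cosh (x * √t)).mul_left (t ^ k)
      have h4 : (fun j : ℕ => x ^ (2 * j) / ((2 * j).factorial : ℝ) * t ^ (j + k)) =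
          fun j : ℕ => t ^ k * ((x * √t) ^ (2 * j) / ((2 * j).factorial : ℝ)) := by
        funext j
        have h3 : (x * √t) ^ (2 * j) = x ^ (2 * j) * t ^ j := by
          rw [mul_pow, pow_mul (√t), Real.sq_sqrt ht.1]
        rw [h3, pow_add]
        ring
      rw [h4]
      exact h2
  have h2 : ∀ j : ℕ, ∫ t, x ^ (2 * j) / ((2 * j).factorial : ℝ) * t ^ (j + k) ∂σ ≤
      x ^ (2 * j) / ((2 * j).factorial : ℝ) * hc (3 / 4) (5 / 4) (μ + 1) (j + k) := by
    intro j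
    rw [integral_const_mul]
    exact mul_le_mul_of_nonneg_left (hm _) (hx j)
  rw [← h1.tsum_eq]
  exact h1.summable.tsum_le_tsum h2 (xi_cosh_proof_summable hμ x k)

end Pool.Agent.H967.GGC
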