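import Pool.Agent.H967.GGC.El2

set_option autoImplicit false

namespace Pool.Agent.H967.GGC
open MeasureTheory Filter Topology Set

theorem dip2_ae {σ : Measure ℝ} (h0 : σ (Icc 0 1)ᶜ = 0) : ∀ᵐ t ∂σ, t ∈ Icc (0:ℝ) 1 := by
  rw [ae_iff]
  exact h0

theorem dip2_int {σ : Measure ℝ} [IsProbabilityMeasure σ] (h0 : σ (Icc 0 1)ᶜ = 0) {g : ℝ → ℝ}
    (hg : Continuous g) : Integrable g σ := by
  obtain ⟨C, hC⟩ := (isCompact_Icc (a := (0:ℝ)) (b := 1)).exists_bound_of_continuousOn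
    hg.continuousOn
  refine Integrable.of_bound hg.aestronglyMeasurable C ?_
  filter_upwards [dip2_ae h0] with t ht
  exact hC t ht

theorem dip2_point {t : ℝ} (h0 : 0 ≤ t) (h1 : t ≤ 1) :
    Real.cosh (5 * Real.pi / 4 * √t) * Real.cos (5 * Real.pi / 4 * √(1 - t)) ≤
      -(√2 / 2) + (1 + √2 / 2) / (16 / 25) ^ 6 * (t ^ 6 * Real.cosh (5 * Real.pi / 4 * √t)) := by
  have hpi := Real.pi_pos
  have hs2 : 0 ≤ √2 / 2 := by positivity
  set c := √(1 - t) with hc
  have hc0 : 0 ≤ c := Real.sqrt_nonneg _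
  have hc2 : c ^ 2 = 1 - t := Real.sq_sqrt (by linarith)
  have hc1 : c ≤ 1 := by nlinarith
  set C := Real.cosh (5 * Real.pi / 4 * √t) with hC
  have hC1 : 1 ≤ C := Real.one_le_cosh _
  have hcosT : Real.cos (5 * Real.pi / 4) = -(√2 / 2) := by
    rw [show 5 * Real.pi / 4 = Real.pi / 4 + Real.pi by ring, Real.cos_add_pi, Real.cos_pi_div_four]
  have hsinT : Real.sin (5 * Real.pi / 4) = -(√2 / 2) := by
    rw [show 5 * Real.pi / 4 = Real.pi / 4 + Real.pi by ring, Real.sin_add_pi, Real.sin_pi_div_four]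
  set d := 5 * Real.pi / 4 * (1 - c) with hd
  have hd0 : 0 ≤ d := by
    have : 0 ≤ 1 - c := by linarith
    positivity
  have hcos : Real.cos (5 * Real.pi / 4 * c) = -(√2 / 2) * (Real.cos d + Real.sin d) := by
    rw [show 5 * Real.pi / 4 * c = 5 * Real.pi / 4 - d by rw [hd]; ring, Real.cos_sub, hcosT, hsinT]
    ring
  have hterm : 0 ≤ (1 + √2 / 2) / (16 / 25) ^ 6 * (t ^ 6 * C) := by positivity
  rcases le_or_gt d (Real.pi / 2) with h | h
  · have hcd : 0 ≤ Real.cos d := Real.cos_nonneg_of_neg_pi_div_two_le_of_le (by linarith) h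
    have hsd : 0 ≤ Real.sin d := Real.sin_nonneg_of_nonneg_of_le_pi hd0 (by linarith)
    have hcd1 := Real.cos_le_one d
    have hsd1 := Real.sin_le_one d
    have hsum : 1 ≤ Real.cos d + Real.sin d := by
      nlinarith [Real.sin_sq_add_cos_sq d]
    have h2 : Real.cos (5 * Real.pi / 4 * c) ≤ -(√2 / 2) := by
      rw [hcos]
      nlinarith
    have h3 : C * Real.cos (5 * Real.pi / 4 * c) ≤ -(√2 / 2) := by
      nlinarith
    linarith
  · have h2 : 2 / 5 < 1 - c := by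
      by_contra hcon
      push Not at hcon
      have : d ≤ Real.pi / 2 := by
        rw [hd]
        nlinarith
      linarith
    have ht : 16 / 25 < t := by nlinarith
    have h3 : (1:ℝ) ≤ (t / (16 / 25)) ^ 6 := by
      apply one_le_pow₀
      rw [le_div_iff₀ (by norm_num)]
      linarith
    have h4 : (1 + √2 / 2) / (16 / 25) ^ 6 * (t ^ 6 * C) =
        (t / (16 / 25)) ^ 6 * ((1 + √2 / 2) * C) := by
      rw [div_pow]
      ring
    have h5 : (1 + √2 / 2) * C ≤ (t / (16 / 25)) ^ 6 * ((1 + √2 / 2) * C) := by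
      apply le_mul_of_one_le_left _ h3
      positivity
    have h6 : C * Real.cos (5 * Real.pi / 4 * c) ≤ C := by
      nlinarith [Real.cos_le_one (5 * Real.pi / 4 * c)]
    rw [h4]
    nlinarith

theorem dip2_core {σ : Measure ℝ} [IsProbabilityMeasure σ] (h0 : σ (Icc 0 1)ᶜ = 0) {S : ℝ}
    (hS : ∫ t, t ^ 6 * Real.cosh (5 * Real.pi / 4 * √t) ∂σ ≤ S) :
    ∫ t, Real.cosh (5 * Real.pi / 4 * √t) * Real.cos (5 * Real.pi / 4 * √(1 - t)) ∂σ ≤
      -(√2 / 2) + (1 + √2 / 2) / (16 / 25) ^ 6 * S := by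
  have hi1 : Integrable (fun t : ℝ => Real.cosh (5 * Real.pi / 4 * √t) *
      Real.cos (5 * Real.pi / 4 * √(1 - t))) σ := by
    apply dip2_int h0
    exact (Real.continuous_cosh.comp (continuous_const.mul Real.continuous_sqrt)).mul
      (Real.continuous_cos.comp (continuous_const.mul
        (Real.continuous_sqrt.comp (continuous_const.sub continuous_id))))
  have hi2 : Integrable (fun t : ℝ => t ^ 6 * Real.cosh (5 * Real.pi / 4 * √t)) σ := by
    apply dip2_int h0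
    exact (continuous_pow 6).mul
      (Real.continuous_cosh.comp (continuous_const.mul Real.continuous_sqrt))
  have hi3 : Integrable (fun t : ℝ => -(√2 / 2) + (1 + √2 / 2) / (16 / 25) ^ 6 *
      (t ^ 6 * Real.cosh (5 * Real.pi / 4 * √t))) σ :=
    (integrable_const _).add (hi2.const_mul _)
  have h1 : ∫ t, Real.cosh (5 * Real.pi / 4 * √t) * Real.cos (5 * Real.pi / 4 * √(1 - t)) ∂σ ≤
      ∫ t, (-(√2 / 2) + (1 + √2 / 2) / (16 / 25) ^ 6 *
      (t ^ 6 * Real.cosh (5 * Real.pi / 4 * √t))) ∂σ := by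
    apply integral_mono_ae hi1 hi3
    filter_upwards [dip2_ae h0] with t ht
    exact dip2_point ht.1 ht.2
  refine h1.trans ?_
  rw [integral_add (integrable_const _) (hi2.const_mul _), integral_const_mul]
  simp only [integral_const, probReal_univ, smul_eq_mul, one_mul]
  have hK : 0 ≤ (1 + √2 / 2) / (16 / 25 : ℝ) ^ 6 := by positivity
  have := mul_le_mul_of_nonneg_left hS hK
  linarith

theorem dip2_proof {μ : ℝ} {σ : Measure ℝ} [IsProbabilityMeasure σ] (h0 : σ (Icc 0 1)ᶜ = 0)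
    (hc' : ∀ (x : ℝ) (k : ℕ), ∫ t, t ^ k * Real.cosh (x * √t) ∂σ ≤ Sk x μ k) :
    ∫ t, Real.cosh (5 * Real.pi / 4 * √t) * Real.cos (5 * Real.pi / 4 * √(1 - t)) ∂σ ≤
      -(√2 / 2) + (1 + √2 / 2) / (16 / 25) ^ 6 * Sk (5 * Real.pi / 4) μ 6 :=
  dip2_core h0 (hc' (5 * Real.pi / 4) 6)

end Pool.Agent.H967.GGC
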