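import Pool.Agent.H967.GGC.El2

set_option autoImplicit false

/-!
# W6: upper bound at odd multiples of `π` (helper906)
-/

namespace Pool.Agent.H967.GGC
open MeasureTheory Filter Topology Set

theorem dip3_cosh (x : ℝ) : 1 + x ^ 2 / 2 ≤ Real.cosh x := by
  have h := Real.hasSum_cosh x
  have h1 := sum_le_hasSum (Finset.range 2) (fun n _ => by
    have : (0 : ℝ) ≤ x ^ (2 * n) := by rw [pow_mul]; positivity
    positivity) h
  simpa [Finset.sum_range_succ] using h1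

theorem dip3_sqrt {t : ℝ} (h0 : 0 ≤ t) (h1 : t ≤ 1) :
    0 ≤ 1 - √(1 - t) ∧ 1 - √(1 - t) ≤ t * (1 + t) / 2 := by
  obtain ⟨s, hs⟩ : ∃ s, s = √(1 - t) := ⟨_, rfl⟩
  have hs0 : 0 ≤ s := by rw [hs]; exact Real.sqrt_nonneg _
  have hs2 : s ^ 2 = 1 - t := by rw [hs]; exact Real.sq_sqrt (by linarith)
  have hs1 : s ≤ 1 := by
    by_contra h
    push Not at h
    nlinarith
  rw [← hs]
  have ht : t = 1 - s ^ 2 := by linarith
  refine ⟨by linarith, ?_⟩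
  rw [ht]
  have h3 : 0 ≤ (1 - s) * (s * (1 - s) * (2 + s)) := by
    have : 0 ≤ 1 - s := by linarith
    positivity
  nlinarith

theorem dip3_int {σ : Measure ℝ} [IsProbabilityMeasure σ] (h0 : σ (Icc 0 1)ᶜ = 0) {f : ℝ → ℝ}
    (hf : Continuous f) : Integrable f σ := by
  obtain ⟨C, hC⟩ := (isCompact_Icc (a := (0 : ℝ)) (b := 1)).exists_bound_of_continuousOn hf.continuousOn
  refine Integrable.of_bound hf.aestronglyMeasurable C ?_
  have h1 : Icc (0 : ℝ) 1 ∈ ae σ := mem_ae_iff.2 h0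
  filter_upwards [h1] with t ht
  exact hC t ht

/-- W6: upper bound at odd multiples of `π` -/
theorem dip3_proof {μ m : ℝ} {σ : Measure ℝ} [IsProbabilityMeasure σ] (h0 : σ (Icc 0 1)ᶜ = 0)
    (hm : ∫ t, t ∂σ = m)
    (hc' : ∀ (x : ℝ) (k : ℕ), ∫ t, t ^ k * Real.cosh (x * √t) ∂σ ≤ Sk x μ k) (j : ℕ) {T : ℝ}
    (hT : T = (2 * (j : ℝ) + 1) * Real.pi) :
    ∫ t, Real.cosh (T * √t) * Real.cos (T * √(1 - t)) ∂σ ≤
      -1 + T ^ 2 / 2 * (Sk T μ 2 / 4 + Sk T μ 3 / 2 + Sk T μ 4 / 4 - m) := by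
  have hcc : Continuous fun t : ℝ => Real.cosh (T * √t) := by fun_prop
  have hck : ∀ k : ℕ, Continuous fun t : ℝ => t ^ k * Real.cosh (T * √t) := fun k => by fun_prop
  have hL : Integrable (fun t : ℝ => Real.cosh (T * √t) * Real.cos (T * √(1 - t))) σ :=
    dip3_int h0 (by fun_prop)
  have hi : ∀ k : ℕ, Integrable (fun t : ℝ => t ^ k * Real.cosh (T * √t)) σ := fun k =>
    dip3_int h0 (hck k)
  have hid : Integrable (fun t : ℝ => t) σ := dip3_int h0 continuous_id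
  have hG : Integrable (fun t : ℝ => (-1 - T ^ 2 / 2 * t) + T ^ 2 / 8 *
      ((t ^ 2 * Real.cosh (T * √t) + 2 * (t ^ 3 * Real.cosh (T * √t))) +
        t ^ 4 * Real.cosh (T * √t))) σ :=
    ((integrable_const _).sub (hid.const_mul _)).add
      ((((hi 2).add ((hi 3).const_mul 2)).add (hi 4)).const_mul _)
  have hmono : ∀ᵐ t ∂σ, Real.cosh (T * √t) * Real.cos (T * √(1 - t)) ≤
      (-1 - T ^ 2 / 2 * t) + T ^ 2 / 8 *
      ((t ^ 2 * Real.cosh (T * √t) + 2 * (t ^ 3 * Real.cosh (T * √t))) +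
        t ^ 4 * Real.cosh (T * √t)) := by
    have h1 : Icc (0 : ℝ) 1 ∈ ae σ := mem_ae_iff.2 h0
    filter_upwards [h1] with t ht
    obtain ⟨ht0, ht1⟩ := ht
    obtain ⟨hd0, hd1⟩ := dip3_sqrt ht0 ht1
    have hcos : Real.cos (T * √(1 - t)) = -Real.cos (T * (1 - √(1 - t))) := by
      have e : T * √(1 - t) = ((2 * (j : ℝ) + 1) * Real.pi) - T * (1 - √(1 - t)) := by
        rw [← hT]
        ring
      rw [e, Real.cos_sub]
      have e1 : Real.cos ((2 * (j : ℝ) + 1) * Real.pi) = -1 := by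
        have : (2 * (j : ℝ) + 1) * Real.pi = (j : ℝ) * (2 * Real.pi) + Real.pi := by ring
        rw [this]
        exact Real.cos_nat_mul_two_pi_add_pi j
      have e2 : Real.sin ((2 * (j : ℝ) + 1) * Real.pi) = 0 := by
        have : (2 * (j : ℝ) + 1) * Real.pi = ((2 * j + 1 : ℕ) : ℝ) * Real.pi := by push_cast; ring
        rw [this]
        exact Real.sin_nat_mul_pi _
      rw [e1, e2]
      ring
    have h2 := Real.one_sub_sq_div_two_le_cos (x := T * (1 - √(1 - t)))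
    have h3 : (T * (1 - √(1 - t))) ^ 2 ≤ T ^ 2 * (t ^ 2 * (1 + t) ^ 2 / 4) := by
      rw [mul_pow]
      refine mul_le_mul_of_nonneg_left ?_ (sq_nonneg T)
      calc (1 - √(1 - t)) ^ 2 ≤ (t * (1 + t) / 2) ^ 2 := pow_le_pow_left₀ hd0 hd1 2
        _ = _ := by ring
    have h4 := dip3_cosh (T * √t)
    have h5 : (T * √t) ^ 2 = T ^ 2 * t := by rw [mul_pow, Real.sq_sqrt ht0]
    rw [h5] at h4
    have hC0 : 0 ≤ Real.cosh (T * √t) := (Real.cosh_pos _).le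
    rw [hcos]
    generalize Real.cosh (T * √t) = C at *
    generalize Real.cos (T * (1 - √(1 - t))) = D at *
    have h6 : -D ≤ -1 + T ^ 2 * (t ^ 2 * (1 + t) ^ 2 / 4) / 2 := by linarith
    have h7 := mul_le_mul_of_nonneg_left h6 hC0
    calc C * -D ≤ C * (-1 + T ^ 2 * (t ^ 2 * (1 + t) ^ 2 / 4) / 2) := h7
      _ = -C + T ^ 2 / 8 * ((t ^ 2 * C + 2 * (t ^ 3 * C)) + t ^ 4 * C) := by ring
      _ ≤ _ := by linarith
  refine (integral_mono_ae hL hG hmono).trans ?_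
  have a1 : Integrable (fun t : ℝ => -1 - T ^ 2 / 2 * t) σ :=
    (integrable_const _).sub (hid.const_mul _)
  have a2 : Integrable (fun t : ℝ => t ^ 2 * Real.cosh (T * √t) + 2 * (t ^ 3 * Real.cosh (T * √t))) σ :=
    (hi 2).add ((hi 3).const_mul 2)
  have a3 : Integrable (fun t : ℝ => (t ^ 2 * Real.cosh (T * √t) + 2 * (t ^ 3 * Real.cosh (T * √t))) +
      t ^ 4 * Real.cosh (T * √t)) σ := a2.add (hi 4)
  have e0 : ∫ t, ((-1 - T ^ 2 / 2 * t) + T ^ 2 / 8 *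
      ((t ^ 2 * Real.cosh (T * √t) + 2 * (t ^ 3 * Real.cosh (T * √t))) +
        t ^ 4 * Real.cosh (T * √t))) ∂σ = (∫ t, (-1 - T ^ 2 / 2 * t) ∂σ) + ∫ t, (T ^ 2 / 8 *
      ((t ^ 2 * Real.cosh (T * √t) + 2 * (t ^ 3 * Real.cosh (T * √t))) +
        t ^ 4 * Real.cosh (T * √t))) ∂σ := integral_add a1 (a3.const_mul _)
  have e1 : ∫ t, (-1 - T ^ 2 / 2 * t) ∂σ = (∫ _t : ℝ, (-1 : ℝ) ∂σ) - ∫ t, T ^ 2 / 2 * t ∂σ :=
    integral_sub (integrable_const _) (hid.const_mul _)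
  have e2 : ∫ t, ((t ^ 2 * Real.cosh (T * √t) + 2 * (t ^ 3 * Real.cosh (T * √t))) +
      t ^ 4 * Real.cosh (T * √t)) ∂σ = (∫ t, (t ^ 2 * Real.cosh (T * √t) +
        2 * (t ^ 3 * Real.cosh (T * √t))) ∂σ) + ∫ t, t ^ 4 * Real.cosh (T * √t) ∂σ :=
    integral_add a2 (hi 4)
  have e3 : ∫ t, (t ^ 2 * Real.cosh (T * √t) + 2 * (t ^ 3 * Real.cosh (T * √t))) ∂σ =
      (∫ t, t ^ 2 * Real.cosh (T * √t) ∂σ) + ∫ t, 2 * (t ^ 3 * Real.cosh (T * √t)) ∂σ :=
    integral_add (hi 2) ((hi 3).const_mul 2)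
  rw [e0, e1, integral_const_mul, integral_const_mul, e2, e3, integral_const_mul, hm, integral_const]
  have b2 := hc' T 2
  have b3 := hc' T 3
  have b4 := hc' T 4
  have hT2 : 0 ≤ T ^ 2 / 8 := by positivity
  simp only [probReal_univ, smul_eq_mul, one_mul]
  nlinarith [mul_le_mul_of_nonneg_left b2 hT2, mul_le_mul_of_nonneg_left b3 hT2,
    mul_le_mul_of_nonneg_left b4 hT2]

end Pool.Agent.H967.GGC
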