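import Pool.Agent.H967.GGC.VW2
import Pool.Agent.H967.GGC.VW3
import Pool.Agent.H967.GGC.VW4
import Pool.Agent.H967.GGC.VW5
import Pool.Agent.H967.GGC.VW6
import Pool.Agent.H967.GGC.VN1
import Pool.Agent.H967.GGC.VN2
import Pool.Agent.H967.GGC.VN3
import Pool.Agent.H967.GGC.VN4
import Pool.Agent.H967.GGC.VN5

set_option autoImplicit false

namespace Pool.Agent.H967.GGC

alias xi_int := xi_int_proof
alias xi_mom := xi_mom_proof
alias xi_cosh := xi_cosh_proof
alias dip2 := dip2_proof
alias dip3 := dip3_proof
alias num1 := num1_proof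
alias num2 := num2_proof
alias num3 := num3_proof
alias num4 := num4_proof
alias exists_odd_pi := exists_odd_pi_proof

end Pool.Agent.H967.GGC
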