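import Pool.Agent.H967.GGC.Bl5

set_option autoImplicit false

/-!
# Self-decomposability of McKay-type Bessel laws: assembly
-/

namespace Pool.Agent.H967.GGC
open MeasureTheory Filter Topology Set

theorem besselI_pos {μ x : ℝ} (hμ : -1 < μ) (hx : 0 < x) : 0 < besselI μ x := by
  have hG : ∀ k : ℕ, 0 < Real.Gamma (k + μ + 1) := by
    intro k
    apply Real.Gamma_pos_of_pos
    have : (0:ℝ) ≤ k := by positivity
    linarith
  have hs : Summable (fun k : ℕ => (x / 2) ^ (2 * (k : ℝ) + μ) /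
      ((k.factorial : ℝ) * Real.Gamma (k + μ + 1))) := by
    refine summable_of_ratio_test_tendsto_lt_one (l := 0) one_pos ?_ ?_
    · exact Eventually.of_forall fun k => by have := hG k; positivity
    · have h1 : Tendsto (fun k : ℕ => (x / 2) ^ 2 / (((k : ℝ) + 1) * (k + μ + 1))) atTop (𝓝 0) := by
        apply Tendsto.const_div_atTop
        have h2 : Tendsto (fun k : ℕ => ((k : ℝ) + 1)) atTop atTop :=
          tendsto_atTop_add_const_right _ _ tendsto_natCast_atTop_atTop
        have h3 : Tendsto (fun k : ℕ => ((k : ℝ) + μ + 1)) atTop atTop :=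
          tendsto_atTop_add_const_right _ _ (tendsto_atTop_add_const_right _ _
            tendsto_natCast_atTop_atTop)
        exact h2.atTop_mul_atTop₀ h3
      refine h1.congr fun k => ?_
      have hg := hG k
      have hk : (0 : ℝ) ≤ k := by positivity
      have hg1 : Real.Gamma (((k + 1 : ℕ) : ℝ) + μ + 1) = (k + μ + 1) * Real.Gamma (k + μ + 1) := by
        rw [show ((k + 1 : ℕ) : ℝ) + μ + 1 = (k + μ + 1) + 1 by push_cast; ring,
          Real.Gamma_add_one (by linarith)]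
      have hx2 : (x / 2) ^ (2 * ((k + 1 : ℕ) : ℝ) + μ) = (x / 2) ^ (2 * (k : ℝ) + μ) * (x / 2) ^ 2 := by
        rw [show 2 * ((k + 1 : ℕ) : ℝ) + μ = (2 * (k : ℝ) + μ) + 2 by push_cast; ring,
          Real.rpow_add (by positivity), Real.rpow_two]
      have hkm : 0 < (k : ℝ) + μ + 1 := by linarith
      rw [hg1, hx2, Nat.factorial_succ]
      push_cast
      rw [Real.norm_eq_abs, Real.norm_eq_abs, abs_of_pos (by positivity), abs_of_pos (by positivity)]
      have h5 : (x / 2) ^ (2 * (k : ℝ) + μ) ≠ 0 := by positivity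
      field_simp
  unfold besselI
  have h0 : 0 < (x / 2) ^ (2 * ((0 : ℕ) : ℝ) + μ) /
      (((0 : ℕ).factorial : ℝ) * Real.Gamma ((0 : ℕ) + μ + 1)) := by
    have := hG 0
    positivity
  exact hs.tsum_pos (fun k => by have := hG k; positivity) 0 h0

/-- self-decomposability, first family -/
theorem sd_phi {μ ν a b : ℝ} (hμ : -1 < μ) (hμν : 0 < μ + ν) (ha : 0 < a) (hab : a < b)
    (P : Measure ℝ) (hP : IsLawOf (phi μ ν a b) P) :
    (IsSD P ↔ ∀ x, 0 < x → deriv (KK ((μ + ν + 1) / 2) ((μ + ν) / 2) (μ + 1)) x ≤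
      b / a * KK ((μ + ν + 1) / 2) ((μ + ν) / 2) (μ + 1) x) := by
  obtain ⟨M, hM, hL⟩ := laplace_phi hμ hμν ha hab
  refine sd_iff (by linarith) (by linarith) (by linarith) ha hab hM ?_ hL P hP
  intro x hx
  have := besselI_pos hμ (x := a * x) (by positivity)
  unfold phi
  positivity

theorem sd_xi {μ a b : ℝ} (hμ : -1 / 4 < μ) (ha : 0 < a) (hab : 2 * a < b)
    (P : Measure ℝ) (hP : IsLawOf (xi μ a b) P) :
    (IsSD P ↔ ∀ x, 0 < x → deriv (KK (μ + 1 / 2) (2 * μ + 1 / 2) (μ + 1)) x ≤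
      b / (2 * a) * KK (μ + 1 / 2) (2 * μ + 1 / 2) (μ + 1) x) := by
  obtain ⟨M, hM, hL⟩ := laplace_xi hμ ha hab
  refine sd_iff (by linarith) (by linarith) (by linarith) (by linarith) hab hM ?_ hL P hP
  intro x hx
  have := besselI_pos (by linarith) (x := a * x) (μ := μ) (by positivity)
  unfold xi
  positivity

/-- in the GGC range the criterion holds -/
theorem crit_of_le {α β γ t : ℝ} (hα : 0 < α) (hβ : 0 < β) (h1 : α ≤ γ) (h2 : β ≤ γ)
    (ht : 1 ≤ t) : ∀ x, 0 < x → deriv (KK α β γ) x ≤ t * KK α β γ x := by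
  obtain ⟨hd, hc, h0, -⟩ := KK_props hα hβ (hα.trans_le h1)
  have hle := KK_le_of_le hα hβ h1 h2
  -- positivity of `KK` : `KK(x) e^(-x)` is nonincreasing ... instead use the integrated inequality
  intro x hx
  have hpos : 0 ≤ KK α β γ x := KK_nonneg_of_le hα hβ h1 h2 x hx
  calc deriv (KK α β γ) x ≤ KK α β γ x := hle x hx
    _ ≤ t * KK α β γ x := by nlinarith

theorem main_sd_phi {μ ν a b : ℝ} (hμ : -1 < μ) (hμν : 0 < μ + ν) (ha : 0 < a) (hab : a < b)
    (P : Measure ℝ) (hP : IsLawOf (phi μ ν a b) P) :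
    (ν ≤ μ + 1 → IsSD P) ∧
      (ν = μ + 2 → (IsSD P ↔ a * (2 * μ + 3) ≤ b * Real.sqrt ((2 * μ + 3) ^ 2 - 1))) := by
  constructor
  · intro h
    rw [sd_phi hμ hμν ha hab P hP]
    exact crit_of_le (by linarith) (by linarith) (by linarith) (by linarith)
      ((one_le_div ha).2 hab.le)
  · rintro rfl
    rw [sd_phi hμ hμν ha hab P hP]
    have e1 : (μ + (μ + 2) + 1) / 2 = μ + 3 / 2 := by ring
    have e2 : (μ + (μ + 2)) / 2 = μ + 1 := by ring
    rw [e1, e2]
    have hK : KK (μ + 3 / 2) (μ + 1) (μ + 1) = fun x => (2 * μ + 3) * Real.cosh x - 1 :=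
      funext (KK_two hμ)
    have hd : ∀ x : ℝ, deriv (fun x => (2 * μ + 3) * Real.cosh x - 1) x =
        (2 * μ + 3) * Real.sinh x := by
      intro x
      exact (((Real.hasDerivAt_cosh x).const_mul (2 * μ + 3)).sub_const 1).deriv
    rw [hK]
    simp only [hd]
    rw [threshold (C := 2 * μ + 3) (t := b / a) (by linarith)]
    rw [div_mul_eq_mul_div, le_div_iff₀ ha]
    constructor <;> intro h <;> linarith

theorem main_sd_xi {μ a b : ℝ} (hμ : -1 / 4 < μ) (ha : 0 < a) (hab : 2 * a < b)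
    (P : Measure ℝ) (hP : IsLawOf (xi μ a b) P) : μ ≤ 1 / 2 → IsSD P := by
  intro h
  rw [sd_xi hμ ha hab P hP]
  exact crit_of_le (by linarith) (by linarith) (by linarith) (by linarith)
    ((one_le_div (by linarith)).2 hab.le)

end Pool.Agent.H967.GGC
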