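import Pool.Agent.H967.GGC.Main2
import Pool.Agent.H967.GGC.Bl7

set_option autoImplicit false

/-!
# Self-decomposability of McKay-type Bessel laws: failure near `b = a`
-/

namespace Pool.Agent.H967.GGC
open MeasureTheory Filter Topology Set

theorem phi_exists_gt {μ ν : ℝ} (hμ : -1 < μ) (hμν : 0 < μ + ν) (h1 : μ + 1 < ν)
    (h2 : ν ≤ μ + 2) :
    ∃ x, 0 < x ∧ 0 < KK ((μ + ν + 1) / 2) ((μ + ν) / 2) (μ + 1) x ∧
      KK ((μ + ν + 1) / 2) ((μ + ν) / 2) (μ + 1) x <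
        deriv (KK ((μ + ν + 1) / 2) ((μ + ν) / 2) (μ + 1)) x := by
  have h := kap_mono (α := (μ + ν + 1) / 2) (β := (μ + ν) / 2) (γ := μ + 1) (by linarith)
    (by linarith) (by linarith) (by linarith) (by linarith) (by linarith) (by linarith)
  exact KK_exists_gt (by linarith) (by linarith) (by linarith) h.1 h.2

/-- for `μ + 1 < ν ≤ μ + 2` self-decomposability fails when `b` is close to `a` -/
theorem not_sd_phi {μ ν : ℝ} (hμ : -1 < μ) (hμν : 0 < μ + ν) (h1 : μ + 1 < ν)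
    (h2 : ν ≤ μ + 2) :
    ∃ t : ℝ, 1 < t ∧ ∀ a b : ℝ, 0 < a → a < b → b < t * a → ∀ P : Measure ℝ,
      IsLawOf (phi μ ν a b) P → ¬IsSD P := by
  obtain ⟨x, hx, hK, hgt⟩ := phi_exists_gt hμ hμν h1 h2
  refine ⟨deriv (KK ((μ + ν + 1) / 2) ((μ + ν) / 2) (μ + 1)) x /
    KK ((μ + ν + 1) / 2) ((μ + ν) / 2) (μ + 1) x, (one_lt_div hK).2 hgt, ?_⟩
  intro a b ha hab hbt P hP hSD
  have h3 := (sd_phi hμ hμν ha hab P hP).1 hSD x hx
  have h4 : b / a < deriv (KK ((μ + ν + 1) / 2) ((μ + ν) / 2) (μ + 1)) x /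
      KK ((μ + ν + 1) / 2) ((μ + ν) / 2) (μ + 1) x := (div_lt_iff₀ ha).2 hbt
  have h5 := (lt_div_iff₀ hK).1 h4
  linarith

end Pool.Agent.H967.GGC
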