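import Pool.Agent.H967.GGC.Cl3

set_option autoImplicit false

/-!
# The threshold for self-decomposability of McKay-type Bessel laws
-/

namespace Pool.Agent.H967.GGC
open MeasureTheory Filter Topology Set

/-- the critical ratio of a function -/
noncomputable def crit (α β γ : ℝ) : ℝ :=
  sSup ((fun x => deriv (KK α β γ) x / KK α β γ x) '' Ioi 0)

theorem crit_iff {α β γ : ℝ} (hK : ∀ x, 0 < x → 0 < KK α β γ x)
    (hT : ∃ T : ℝ, ∀ x, 0 < x → deriv (KK α β γ) x ≤ T * KK α β γ x)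
    (hgt : ∃ x, 0 < x ∧ KK α β γ x < deriv (KK α β γ) x) :
    1 < crit α β γ ∧ ∀ s : ℝ, (∀ x, 0 < x → deriv (KK α β γ) x ≤ s * KK α β γ x) ↔
      crit α β γ ≤ s := by
  obtain ⟨T, hT⟩ := hT
  obtain ⟨x₀, hx₀, hgt⟩ := hgt
  have hb : BddAbove ((fun x => deriv (KK α β γ) x / KK α β γ x) '' Ioi 0) := by
    refine ⟨T, ?_⟩
    rintro _ ⟨x, hx, rfl⟩
    exact (div_le_iff₀ (hK x hx)).2 (hT x hx)
  have hne : ((fun x => deriv (KK α β γ) x / KK α β γ x) '' Ioi (0 : ℝ)).Nonempty :=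
    ⟨_, ⟨1, by simp, rfl⟩⟩
  constructor
  · exact lt_of_lt_of_le ((one_lt_div (hK x₀ hx₀)).2 hgt) (le_csSup hb ⟨x₀, hx₀, rfl⟩)
  · intro s
    constructor
    · intro h
      refine csSup_le hne ?_
      rintro _ ⟨x, hx, rfl⟩
      exact (div_le_iff₀ (hK x hx)).2 (h x hx)
    · intro h x hx
      exact (div_le_iff₀ (hK x hx)).1 ((le_csSup hb ⟨x, hx, rfl⟩).trans h)

/-- for `ν > μ + 2` the function `KK` grows somewhere faster than `e^x` -/
theorem phi_exists_gt' {μ ν : ℝ} (hμ : -1 < μ) (hμν : 0 < μ + ν) (h1 : μ + 2 < ν) :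
    ∃ x, 0 < x ∧ KK ((μ + ν + 1) / 2) ((μ + ν) / 2) (μ + 1) x <
        deriv (KK ((μ + ν + 1) / 2) ((μ + ν) / 2) (μ + 1)) x := by
  by_contra hcon
  push Not at hcon
  have hα : 0 < (μ + ν + 1) / 2 := by linarith
  have hβ : 0 < (μ + ν) / 2 := by linarith
  have hγ : 0 < μ + 1 := by linarith
  obtain ⟨hd, hdc, -, -⟩ := KK_props hα hβ hγ
  have hcont : Continuous (KK ((μ + ν + 1) / 2) ((μ + ν) / 2) (μ + 1)) :=
    continuous_iff_continuousAt.2 fun x => (hd x).continuousAt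
  have hpos : ∀ x, 0 < KK ((μ + ν + 1) / 2) ((μ + ν) / 2) (μ + 1) x := by
    intro x
    have h := KK_ge_cosh (p := μ + ν) (c := μ + 1) hμν hγ (by linarith) x
    have h2 := Real.cosh_pos x
    have h3 : 0 < (μ + ν) * Real.cosh x := by positivity
    linarith
  have hanti : AntitoneOn (fun x => Real.exp (-x) *
      KK ((μ + ν + 1) / 2) ((μ + ν) / 2) (μ + 1) x) (Ioi 0) := by
    have hD : ∀ x : ℝ, HasDerivAt (fun y => Real.exp (-y) *
        KK ((μ + ν + 1) / 2) ((μ + ν) / 2) (μ + 1) y)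
        (Real.exp (-x) * (-1) * KK ((μ + ν + 1) / 2) ((μ + ν) / 2) (μ + 1) x +
          Real.exp (-x) * deriv (KK ((μ + ν + 1) / 2) ((μ + ν) / 2) (μ + 1)) x) x := fun x =>
      ((hasDerivAt_neg x).exp).mul (hd x)
    refine antitoneOn_of_deriv_nonpos (convex_Ioi 0)
      (fun x _ => (hD x).continuousAt.continuousWithinAt)
      (fun x _ => (hD x).differentiableAt.differentiableWithinAt) ?_
    intro x hx
    rw [interior_Ioi] at hx
    rw [(hD x).deriv]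
    have h3 := hcon x hx
    have h4 := Real.exp_pos (-x)
    nlinarith
  have hge := ge_of_antitone (K := KK ((μ + ν + 1) / 2) ((μ + ν) / 2) (μ + 1))
    (R := fun q => 2 * ((μ + ν) / 2) * F ((μ + ν + 1) / 2) ((μ + ν) / 2 + 1) (μ + 1) (1 / q ^ 2) /
      (q * F ((μ + ν + 1) / 2) ((μ + ν) / 2) (μ + 1) (1 / q ^ 2)))
    (δ := (μ + ν + 1) / 2 + (μ + ν) / 2 - (μ + 1)) (fun x _ => (hpos x).le) hanti hcont ?_
    (th_ratio_tendsto hα hβ hγ (by linarith))
  · obtain ⟨x, hx, hlt⟩ := numeric_gap (c := μ + 1) (n := ν - μ - 1) hγ (by linarith)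
    have h5 := hge x hx
    have h6 := KK_eq_phA (p := μ + ν) (c := μ + 1) hμν hγ x
    have h7 := phA_lower (p := μ + ν) (c := μ + 1) hμν hγ (by linarith) x
    rw [h6] at h5
    have e1 : μ + ν + 1 - 2 * (μ + 1) = ν - μ - 1 := by ring
    have e2 : 2 * (μ + 1) - (μ + ν) = 1 - (ν - μ - 1) := by ring
    rw [e1] at h5
    rw [e2] at h7
    have h8 := mul_le_mul_of_nonneg_left h7 (show 0 ≤ ν - μ - 1 by linarith)
    have e3 : μ + ν + (ν - μ - 1) = 2 * (μ + 1) - 1 + 2 * (ν - μ - 1) := by ring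
    have e4 : (μ + ν + 1) / 2 + (μ + ν) / 2 - (μ + 1) = (2 * (μ + 1) - 1 + 2 * (ν - μ - 1)) / 2 := by
      ring
    rw [e3, e4] at h5
    linarith
  · intro q hq
    obtain ⟨M, hM, hL⟩ := laplace_phi (μ := μ) (ν := ν) (a := 1) (b := (1 + q) / 2) hμ hμν one_pos
      (by linarith)
    have h2 := KK_laplace_pos hα hβ hγ one_pos (b := (1 + q) / 2) (by linarith) hM
      (f := phi μ ν 1 ((1 + q) / 2)) (by
        intro x hx
        have := besselI_pos hμ (x := 1 * x) (by linarith)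
        unfold phi
        positivity) hL (fun x _ => (hpos x).le) ((q - 1) / 2) (by linarith)
    have e5 : (1 + q) / 2 + (q - 1) / 2 = q := by ring
    rw [e5] at h2
    simpa only [one_mul, one_pow] using h2

/-- the threshold, first family -/
theorem sd_phi_threshold {μ ν : ℝ} (hμ : -1 < μ) (hμν : 0 < μ + ν) (h1 : μ + 1 < ν) :
    1 < crit ((μ + ν + 1) / 2) ((μ + ν) / 2) (μ + 1) ∧
    ∀ a b : ℝ, 0 < a → a < b → ∀ P : Measure ℝ, IsLawOf (phi μ ν a b) P →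
      (IsSD P ↔ crit ((μ + ν + 1) / 2) ((μ + ν) / 2) (μ + 1) * a ≤ b) := by
  have hγ : 0 < μ + 1 := by linarith
  have hge : ∀ x, (μ + ν) * Real.cosh x ≤ KK ((μ + ν + 1) / 2) ((μ + ν) / 2) (μ + 1) x := fun x =>
    KK_ge_cosh (p := μ + ν) (c := μ + 1) hμν hγ (by linarith) x
  obtain ⟨C, hC⟩ := KK_deriv_le (p := μ + ν) (c := μ + 1) hμν hγ (by linarith)
  have h := crit_iff (α := (μ + ν + 1) / 2) (β := (μ + ν) / 2) (γ := μ + 1) ?_ ?_ ?_
  · refine ⟨h.1, fun a b ha hab P hP => ?_⟩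
    rw [sd_phi hμ hμν ha hab P hP, h.2 (b / a), le_div_iff₀ ha]
  · intro x _
    have h2 := Real.cosh_pos x
    have h3 : 0 < (μ + ν) * Real.cosh x := by positivity
    linarith [hge x]
  · refine ⟨|C| / (μ + ν), fun x hx => ?_⟩
    calc deriv (KK ((μ + ν + 1) / 2) ((μ + ν) / 2) (μ + 1)) x ≤ C * Real.cosh x := hC x hx
      _ ≤ |C| * Real.cosh x :=
        mul_le_mul_of_nonneg_right (le_abs_self C) (Real.cosh_pos x).le
      _ = |C| / (μ + ν) * ((μ + ν) * Real.cosh x) := by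
        field_simp
      _ ≤ |C| / (μ + ν) * KK ((μ + ν + 1) / 2) ((μ + ν) / 2) (μ + 1) x :=
        mul_le_mul_of_nonneg_left (hge x) (by positivity)
  · rcases le_or_gt ν (μ + 2) with h2 | h2
    · obtain ⟨x, hx, -, hgt⟩ := phi_exists_gt hμ hμν h1 h2
      exact ⟨x, hx, hgt⟩
    · exact phi_exists_gt' hμ hμν h2

/-- the threshold, second family -/
theorem sd_xi_threshold {μ : ℝ} (h1 : 1 / 2 < μ) (h2 : μ ≤ 3 / 2) :
    1 < crit (μ + 1 / 2) (2 * μ + 1 / 2) (μ + 1) ∧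
    ∀ a b : ℝ, 0 < a → 2 * a < b → ∀ P : Measure ℝ, IsLawOf (xi μ a b) P →
      (IsSD P ↔ crit (μ + 1 / 2) (2 * μ + 1 / 2) (μ + 1) * (2 * a) ≤ b) := by
  have hα : 0 < μ + 1 / 2 := by linarith
  have hβ : 0 < 2 * μ + 1 / 2 := by linarith
  have hγ : 0 < μ + 1 := by linarith
  obtain ⟨hm, hlt, hp⟩ := xi_kap_mono h1 h2
  obtain ⟨C, hC⟩ := kap_bdd hα hβ hγ hm hp
  obtain ⟨hK, hT⟩ := KK_bounds hα hβ hγ hm hp hC
  have h := crit_iff hK hT (KK_exists_gt' hα hβ hγ hm hlt hp)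
  refine ⟨h.1, fun a b ha hab P hP => ?_⟩
  rw [sd_xi (by linarith) ha hab P hP, h.2 (b / (2 * a)), le_div_iff₀ (by linarith)]

end Pool.Agent.H967.GGC
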