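import Pool.Agent.H967.GGC.El3

set_option autoImplicit false

/-!
# The threshold for self-decomposability, second family, all `μ`
-/

namespace Pool.Agent.H967.GGC
open MeasureTheory Filter Topology Set

/-- the dip of `KK x - 4 μ cosh x` -/
theorem xi_dip {μ : ℝ} (hμ : 3 / 2 ≤ μ) :
    ∃ T : ℝ, 0 < T ∧ KK (μ + 1 / 2) (2 * μ + 1 / 2) (μ + 1) T - 4 * μ * Real.cosh T <
      -(2 * μ * Real.exp (-T)) := by
  have hpi := Real.pi_pos
  rcases le_or_gt μ 6 with h6 | h6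
  · exact ⟨Real.pi, hpi, num1 hμ h6⟩
  · have hμ' : -1 / 4 < μ := by linarith
    obtain ⟨σ, hσp, hσ0, hσw, hσk⟩ := xi_rep hμ'
    obtain ⟨hm1, hmk⟩ := xi_mom hμ' hσ0 hσw
    have hcosh : ∀ (x : ℝ) (k : ℕ), ∫ t, t ^ k * Real.cosh (x * √t) ∂σ ≤ Sk x μ k :=
      fun x k => xi_cosh hμ' hσ0 hmk x k
    have hint := xi_int hμ' hσ0 hσk
    rcases le_or_gt μ 17 with h17 | h17
    · refine ⟨5 * Real.pi / 4, by positivity, ?_⟩
      rw [hint]
      exact lt_of_le_of_lt (dip2 hσ0 hcosh) (num2 h6.le h17)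
    · rcases le_or_gt μ 100 with h100 | h100
      · refine ⟨3 * Real.pi, by positivity, ?_⟩
        rw [hint]
        refine lt_of_le_of_lt (dip3 hσ0 hm1 hcosh 1 (T := 3 * Real.pi) (by push_cast; ring))
          (num3 h17.le h100)
      · obtain ⟨j, hj1, hj2⟩ := exists_odd_pi h100.le
        refine ⟨(2 * (j : ℝ) + 1) * Real.pi, by positivity, ?_⟩
        rw [hint]
        exact lt_of_le_of_lt (dip3 hσ0 hm1 hcosh j rfl) (num4 h100.le hj1 hj2)

/-- for `μ ≥ 3/2` the function `KK` of the second family grows somewhere faster than `e^x` -/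
theorem xi_exists_gt {μ : ℝ} (hμ : 3 / 2 ≤ μ) :
    ∃ x, 0 < x ∧ KK (μ + 1 / 2) (2 * μ + 1 / 2) (μ + 1) x <
        deriv (KK (μ + 1 / 2) (2 * μ + 1 / 2) (μ + 1)) x := by
  by_contra hcon
  push Not at hcon
  have hα : 0 < μ + 1 / 2 := by linarith
  have hβ : 0 < 2 * μ + 1 / 2 := by linarith
  have hγ : 0 < μ + 1 := by linarith
  obtain ⟨hd, hdc, -, -⟩ := KK_props hα hβ hγ
  have hcont : Continuous (KK (μ + 1 / 2) (2 * μ + 1 / 2) (μ + 1)) :=
    continuous_iff_continuousAt.2 fun x => (hd x).continuousAt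
  obtain ⟨hpos, -⟩ := xi_KK_bounds (μ := μ) (by linarith)
  have hanti : AntitoneOn (fun x => Real.exp (-x) *
      KK (μ + 1 / 2) (2 * μ + 1 / 2) (μ + 1) x) (Ioi 0) := by
    have hD : ∀ x : ℝ, HasDerivAt (fun y => Real.exp (-y) *
        KK (μ + 1 / 2) (2 * μ + 1 / 2) (μ + 1) y)
        (Real.exp (-x) * (-1) * KK (μ + 1 / 2) (2 * μ + 1 / 2) (μ + 1) x +
          Real.exp (-x) * deriv (KK (μ + 1 / 2) (2 * μ + 1 / 2) (μ + 1)) x) x := fun x =>
      ((hasDerivAt_neg x).exp).mul (hd x)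
    refine antitoneOn_of_deriv_nonpos (convex_Ioi 0)
      (fun x _ => (hD x).continuousAt.continuousWithinAt)
      (fun x _ => (hD x).differentiableAt.differentiableWithinAt) ?_
    intro x hx
    rw [interior_Ioi] at hx
    rw [(hD x).deriv]
    have h3 := hcon x hx
    have h4 := Real.exp_pos (-x)
    nlinarith
  have hge := ge_of_antitone (K := KK (μ + 1 / 2) (2 * μ + 1 / 2) (μ + 1))
    (R := fun q => 2 * (2 * μ + 1 / 2) * F (μ + 1 / 2) (2 * μ + 1 / 2 + 1) (μ + 1) (1 / q ^ 2) /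
      (q * F (μ + 1 / 2) (2 * μ + 1 / 2) (μ + 1) (1 / q ^ 2)))
    (δ := μ + 1 / 2 + (2 * μ + 1 / 2) - (μ + 1)) (fun x hx => (hpos x hx).le) hanti hcont ?_
    (th_ratio_tendsto hα hβ hγ (by linarith))
  · obtain ⟨T, hT, hlt⟩ := xi_dip hμ
    have h5 := hge T hT
    have e1 : μ + 1 / 2 + (2 * μ + 1 / 2) - (μ + 1) = 2 * μ := by ring
    rw [e1] at h5
    have e2 : Real.cosh T = (Real.exp T + Real.exp (-T)) / 2 := Real.cosh_eq T
    rw [e2] at hlt
    nlinarith
  · intro q hq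
    obtain ⟨M, hM, hL⟩ := laplace_xi (μ := μ) (a := 1 / 2) (b := (1 + q) / 2) (by linarith)
      (by norm_num) (by linarith)
    have h2 := KK_laplace_pos hα hβ hγ (show (0:ℝ) < 2 * (1 / 2) by norm_num)
      (b := (1 + q) / 2) (by linarith) hM
      (f := xi μ (1 / 2) ((1 + q) / 2)) (by
        intro x hx
        have := besselI_pos (show -1 < μ by linarith) (x := 1 / 2 * x) (by linarith)
        unfold xi
        positivity) hL (fun x hx => (hpos x hx).le) ((q - 1) / 2) (by linarith)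
    have e5 : (1 + q) / 2 + (q - 1) / 2 = q := by ring
    have e6 : (2:ℝ) * (1 / 2) = 1 := by norm_num
    rw [e5, e6] at h2
    simpa only [one_mul, one_pow] using h2

/-- the threshold, second family, all `μ > 1/2` -/
theorem sd_xi_threshold_all {μ : ℝ} (h1 : 1 / 2 < μ) :
    1 < crit (μ + 1 / 2) (2 * μ + 1 / 2) (μ + 1) ∧
    ∀ a b : ℝ, 0 < a → 2 * a < b → ∀ P : Measure ℝ, IsLawOf (xi μ a b) P →
      (IsSD P ↔ crit (μ + 1 / 2) (2 * μ + 1 / 2) (μ + 1) * (2 * a) ≤ b) := by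
  rcases le_or_gt μ (3 / 2) with h2 | h2
  · exact sd_xi_threshold h1 h2
  · obtain ⟨hK, hT⟩ := xi_KK_bounds (μ := μ) (by linarith)
    have h := crit_iff hK hT (xi_exists_gt h2.le)
    refine ⟨h.1, fun a b ha hab P hP => ?_⟩
    rw [sd_xi (by linarith) ha hab P hP, h.2 (b / (2 * a)), le_div_iff₀ (by linarith)]

end Pool.Agent.H967.GGC
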