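import Pool.Agent.H967.GGC.Main5

set_option autoImplicit false

/-!
# The threshold for `ν = μ + 2` in closed form
-/

namespace Pool.Agent.H967.GGC
open MeasureTheory Filter Topology Set

theorem phi_crit_iff {μ ν : ℝ} (hμ : -1 < μ) (hμν : 0 < μ + ν) (h1 : μ + 1 < ν) :
    1 < crit ((μ + ν + 1) / 2) ((μ + ν) / 2) (μ + 1) ∧
    ∀ s : ℝ, (∀ x, 0 < x → deriv (KK ((μ + ν + 1) / 2) ((μ + ν) / 2) (μ + 1)) x ≤
      s * KK ((μ + ν + 1) / 2) ((μ + ν) / 2) (μ + 1) x) ↔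
      crit ((μ + ν + 1) / 2) ((μ + ν) / 2) (μ + 1) ≤ s := by
  have hγ : 0 < μ + 1 := by linarith
  have hge : ∀ x, (μ + ν) * Real.cosh x ≤ KK ((μ + ν + 1) / 2) ((μ + ν) / 2) (μ + 1) x := fun x =>
    KK_ge_cosh (p := μ + ν) (c := μ + 1) hμν hγ (by linarith) x
  obtain ⟨C, hC⟩ := KK_deriv_le (p := μ + ν) (c := μ + 1) hμν hγ (by linarith)
  refine crit_iff (α := (μ + ν + 1) / 2) (β := (μ + ν) / 2) (γ := μ + 1) ?_ ?_ ?_
  · intro x _
    have h2 := Real.cosh_pos x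
    have h3 : 0 < (μ + ν) * Real.cosh x := by positivity
    linarith [hge x]
  · refine ⟨|C| / (μ + ν), fun x hx => ?_⟩
    calc deriv (KK ((μ + ν + 1) / 2) ((μ + ν) / 2) (μ + 1)) x ≤ C * Real.cosh x := hC x hx
      _ ≤ |C| * Real.cosh x :=
        mul_le_mul_of_nonneg_right (le_abs_self C) (Real.cosh_pos x).le
      _ = |C| / (μ + ν) * ((μ + ν) * Real.cosh x) := by
        field_simp
      _ ≤ |C| / (μ + ν) * KK ((μ + ν + 1) / 2) ((μ + ν) / 2) (μ + 1) x :=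
        mul_le_mul_of_nonneg_left (hge x) (by positivity)
  · rcases le_or_gt ν (μ + 2) with h2 | h2
    · obtain ⟨x, hx, -, hgt⟩ := phi_exists_gt hμ hμν h1 h2
      exact ⟨x, hx, hgt⟩
    · exact phi_exists_gt' hμ hμν h2

theorem crit_two {μ : ℝ} (hμ : -1 < μ) :
    crit (μ + 3 / 2) (μ + 1) (μ + 1) = (2 * μ + 3) / Real.sqrt ((2 * μ + 3) ^ 2 - 1) := by
  have h := (phi_crit_iff (μ := μ) (ν := μ + 2) hμ (by linarith) (by linarith)).2
  have e1 : (μ + (μ + 2) + 1) / 2 = μ + 3 / 2 := by ring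
  have e2 : (μ + (μ + 2)) / 2 = μ + 1 := by ring
  rw [e1, e2] at h
  have hK : KK (μ + 3 / 2) (μ + 1) (μ + 1) = fun x => (2 * μ + 3) * Real.cosh x - 1 :=
    funext (KK_two hμ)
  have hd : ∀ x : ℝ, deriv (fun x => (2 * μ + 3) * Real.cosh x - 1) x =
      (2 * μ + 3) * Real.sinh x := by
    intro x
    exact (((Real.hasDerivAt_cosh x).const_mul (2 * μ + 3)).sub_const 1).deriv
  have hs : 0 < Real.sqrt ((2 * μ + 3) ^ 2 - 1) := Real.sqrt_pos.2 (by nlinarith)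
  have hiff : ∀ s : ℝ, crit (μ + 3 / 2) (μ + 1) (μ + 1) ≤ s ↔
      (2 * μ + 3) / Real.sqrt ((2 * μ + 3) ^ 2 - 1) ≤ s := by
    intro s
    rw [← h s, hK]
    simp only [hd]
    rw [threshold (C := 2 * μ + 3) (t := s) (by linarith), div_le_iff₀ hs]
  exact le_antisymm ((hiff _).2 le_rfl) ((hiff _).1 le_rfl)

end Pool.Agent.H967.GGC
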