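import Pool.Agent.H967.GGC.Bl3

set_option autoImplicit false

namespace Pool.Agent.H967.GGC
open MeasureTheory Filter Topology Set

theorem conv_ae_key (k f : ℝ → ℝ) (s : ℝ)
    (hk : IntegrableOn (fun x => Real.exp (-(s * x)) * k x) (Ioi 0))
    (hf : IntegrableOn (fun x => Real.exp (-(s * x)) * f x) (Ioi 0)) :
    IntegrableOn (fun x => Real.exp (-(s * x)) * ∫ y in Ioo 0 x, k y * f (x - y)) (Ioi 0) ∧
    ∫ x in Ioi (0:ℝ), Real.exp (-(s * x)) * ∫ y in Ioo 0 x, k y * f (x - y) =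
      (∫ x in Ioi (0:ℝ), Real.exp (-(s * x)) * k x) *
        ∫ x in Ioi (0:ℝ), Real.exp (-(s * x)) * f x := by
  have e : ∀ x ∈ Ioi (0:ℝ), (∫ t in (0:ℝ)..x, (ContinuousLinearMap.mul ℝ ℝ)
      (Real.exp (-(s * t)) * k t) (Real.exp (-(s * (x - t))) * f (x - t))) =
      Real.exp (-(s * x)) * ∫ y in Ioo 0 x, k y * f (x - y) := by
    intro x hx
    rw [intervalIntegral.integral_of_le (le_of_lt hx), integral_Ioc_eq_integral_Ioo,
      ← integral_const_mul]
    refine setIntegral_congr_fun measurableSet_Ioo fun t _ => ?_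
    simp only [ContinuousLinearMap.mul_apply']
    have : Real.exp (-(s * x)) = Real.exp (-(s * t)) * Real.exp (-(s * (x - t))) := by
      rw [← Real.exp_add]; congr 1; ring
    rw [this]; ring
  constructor
  · have h := (integrable_posConvolution hk hf (ContinuousLinearMap.mul ℝ ℝ)).integrableOn
      (s := Ioi (0:ℝ))
    refine h.congr_fun (fun x hx => ?_) measurableSet_Ioi
    rw [posConvolution, indicator_of_mem hx]
    exact e x hx
  · have h := integral_posConvolution hk hf (ContinuousLinearMap.mul ℝ ℝ)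
    rw [← setIntegral_congr_fun measurableSet_Ioi e]
    exact h

/-- C2: `x f(x) = (k * f)(x)` -/
theorem conv_ae_proof {α β γ b c M : ℝ} (hα : 0 < α) (hβ : 0 < β) (hγ : 0 < γ) (hc0 : 0 < c)
    (hcb : c < b) (hM : 0 < M) {f : ℝ → ℝ} (hf : ∀ x, 0 < x → 0 ≤ f x)
    (hL : ∀ s : ℝ, 0 ≤ s → IntegrableOn (fun x => Real.exp (-(s * x)) * f x) (Ioi 0) ∧
      ∫ x in Ioi (0 : ℝ), Real.exp (-(s * x)) * f x =
        M * ((b + s) ^ (-(2 * β)) * F α β γ (c ^ 2 / (b + s) ^ 2))) :
    ∀ᵐ x ∂(volume.restrict (Ioi (0 : ℝ))), x * f x =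
      ∫ y in Ioo 0 x, (Real.exp (-(b * y)) * KK α β γ (c * y)) * f (x - y) := by
  obtain ⟨S, hcS, hS⟩ := KK_laplace hα hβ hγ hc0
  obtain ⟨hxi, hxL⟩ := xf_integrable hα hβ hγ hc0 hcb hM hf hL
  have hb : 0 < b := hc0.trans hcb
  have hS0 : 0 < S := lt_of_lt_of_le hc0 hcS
  have hk : ∀ s : ℝ, S ≤ s →
      IntegrableOn (fun x => Real.exp (-(s * x)) * (Real.exp (-(b * x)) * KK α β γ (c * x)))
        (Ioi 0) ∧
      ∫ x in Ioi (0 : ℝ), Real.exp (-(s * x)) * (Real.exp (-(b * x)) * KK α β γ (c * x)) =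
        2 * β * F α (β + 1) γ (c ^ 2 / (b + s) ^ 2) /
          ((b + s) * F α β γ (c ^ 2 / (b + s) ^ 2)) := by
    intro s hs
    have h := hS (b + s) (by linarith)
    have e : (fun x => Real.exp (-(s * x)) * (Real.exp (-(b * x)) * KK α β γ (c * x))) =
        fun x => Real.exp (-((b + s) * x)) * KK α β γ (c * x) := by
      funext x
      rw [← mul_assoc, ← Real.exp_add]
      congr 2
      ring
    rw [e]
    exact h
  have hkey : ∀ s : ℝ, S ≤ s → _ := fun s hs =>
    conv_ae_key (fun y => Real.exp (-(b * y)) * KK α β γ (c * y)) f s (hk s hs).1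
      (hL s (hS0.le.trans hs)).1
  refine laplace_unique_fun (S := S) ?_ (hkey S le_rfl).1 ?_
  · -- integrability of `e^(-Sx) x f(x)`
    refine Integrable.mono hxi ?_ ?_
    · exact (Continuous.aestronglyMeasurable (by fun_prop)).mul hxi.aestronglyMeasurable
    · filter_upwards [ae_restrict_mem measurableSet_Ioi] with x hx
      rw [norm_mul, Real.norm_eq_abs, abs_of_pos (Real.exp_pos _)]
      have h1 : Real.exp (-(S * x)) ≤ 1 := by
        rw [Real.exp_le_one_iff]
        have : 0 ≤ S * x := mul_nonneg hS0.le (le_of_lt hx)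
        linarith
      exact mul_le_of_le_one_left (norm_nonneg _) h1
  · intro s hs
    have hs0 : 0 < s := lt_of_lt_of_le hS0 hs
    rw [(hkey s hs).2, hxL s hs0, (hk s hs).2, (hL s hs0.le).2]
    have hp : 0 < b + s := by linarith
    have hz0 : 0 ≤ c ^ 2 / (b + s) ^ 2 := by positivity
    have hz1 : c ^ 2 / (b + s) ^ 2 < 1 := by
      rw [div_lt_one (by positivity)]
      exact pow_lt_pow_left₀ (by linarith) hc0.le two_ne_zero
    have hF := F_pos hα hβ hγ hz0 hz1
    have e1 : (b + s) ^ (-(2 * β) - 1) = (b + s) ^ (-(2 * β)) / (b + s) := by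
      rw [Real.rpow_sub hp, Real.rpow_one]
    rw [e1]
    field_simp

end Pool.Agent.H967.GGC
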