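import Pool.Agent.H967.GGC.Basic2

set_option autoImplicit false

/-!
# Leaf E0: Euler's transformation, coefficientwise
-/

namespace Pool.Agent.H967.GGC

/-- the Euler operator `X d/dX` on formal power series -/
noncomputable def euler_T (f : PowerSeries ℝ) : PowerSeries ℝ :=
  PowerSeries.X * PowerSeries.derivative ℝ f

theorem euler_T_coeff (f : PowerSeries ℝ) (n : ℕ) :
    PowerSeries.coeff n (euler_T f) = n * PowerSeries.coeff n f := by
  unfold euler_T
  cases n with
  | zero => simp
  | succ n =>
    rw [PowerSeries.coeff_succ_X_mul, PowerSeries.coeff_derivative]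
    push_cast
    ring

theorem euler_T_mul (f g : PowerSeries ℝ) : euler_T (f * g) = euler_T f * g + f * euler_T g := by
  unfold euler_T
  rw [Derivation.leibniz, smul_eq_mul, smul_eq_mul]
  ring

theorem euler_T_add (f g : PowerSeries ℝ) : euler_T (f + g) = euler_T f + euler_T g := by
  unfold euler_T
  rw [map_add]
  ring

/-- the coefficients of `(1 - X) ^ (-s)` -/
noncomputable def euler_B (s : ℝ) : PowerSeries ℝ :=
  PowerSeries.mk fun n => ∏ i ∈ Finset.range n, ((s + i) / ((i : ℝ) + 1))

theorem euler_B_eq (s : ℝ) : (1 - PowerSeries.X) * euler_T (euler_B s) =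
    PowerSeries.C s * PowerSeries.X * euler_B s := by
  ext n
  rw [sub_mul, one_mul, map_sub, euler_T_coeff, mul_assoc, PowerSeries.coeff_C_mul]
  cases n with
  | zero => simp
  | succ n =>
    rw [PowerSeries.coeff_succ_X_mul, PowerSeries.coeff_succ_X_mul, euler_T_coeff]
    unfold euler_B
    rw [PowerSeries.coeff_mk, PowerSeries.coeff_mk, Finset.prod_range_succ]
    push_cast
    have : (n : ℝ) + 1 ≠ 0 := by positivity
    field_simp
    ring

theorem euler_D_eq (a b c : ℝ) (hc' : 0 < c) :
    euler_T (euler_T (PowerSeries.mk (hc a b c))) +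
      PowerSeries.C (c - 1) * euler_T (PowerSeries.mk (hc a b c)) =
    PowerSeries.X * (euler_T (euler_T (PowerSeries.mk (hc a b c))) +
      PowerSeries.C (a + b) * euler_T (PowerSeries.mk (hc a b c)) +
        PowerSeries.C (a * b) * PowerSeries.mk (hc a b c)) := by
  ext n
  rw [map_add, PowerSeries.coeff_C_mul, euler_T_coeff, euler_T_coeff]
  cases n with
  | zero => simp
  | succ n =>
    rw [PowerSeries.coeff_succ_X_mul, map_add, map_add, PowerSeries.coeff_C_mul,
      PowerSeries.coeff_C_mul, euler_T_coeff, euler_T_coeff, PowerSeries.coeff_mk,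
      PowerSeries.coeff_mk, hc_succ]
    push_cast
    have h1 : (n : ℝ) + 1 ≠ 0 := by positivity
    have h2 : c + n ≠ 0 := by positivity
    field_simp
    ring

/-- E0. Euler's transformation `₂F₁(a,b;c;z) = (1-z)^(c-a-b) ₂F₁(c-a,c-b;c;z)`, coefficientwise -/
theorem euler_proof {a b c : ℝ} (hc' : 0 < c) (n : ℕ) :
    hc a b c n = ∑ x ∈ Finset.HasAntidiagonal.antidiagonal n,
      (∏ i ∈ Finset.range x.1, ((a + b - c + i) / ((i : ℝ) + 1))) * hc (c - a) (c - b) c x.2 := by
  set s : ℝ := a + b - c with hs
  set B : PowerSeries ℝ := euler_B s with hB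
  set D : PowerSeries ℝ := PowerSeries.mk (hc (c - a) (c - b) c) with hD
  have f1 : (1 - PowerSeries.X) * euler_T B = PowerSeries.C s * PowerSeries.X * B := euler_B_eq s
  have f2 : (1 - PowerSeries.X) * euler_T (euler_T B) =
      PowerSeries.X * euler_T B + PowerSeries.C s * PowerSeries.X * B +
        PowerSeries.C s * PowerSeries.X * euler_T B := by
    have h := congrArg euler_T f1
    rw [euler_T_mul, euler_T_mul, euler_T_mul] at h
    have h1 : euler_T (1 - PowerSeries.X) = -PowerSeries.X := by
      unfold euler_T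
      simp
    have h2 : euler_T (PowerSeries.C s) = 0 := by
      unfold euler_T
      simp
    have h3 : euler_T PowerSeries.X = PowerSeries.X := by
      unfold euler_T
      simp
    rw [h1, h2, h3] at h
    linear_combination h
  have f3 := euler_D_eq (c - a) (c - b) c hc'
  rw [← hD] at f3
  have g1 : euler_T (B * D) = euler_T B * D + B * euler_T D := euler_T_mul B D
  have g2 : euler_T (euler_T (B * D)) = euler_T (euler_T B) * D + 2 * (euler_T B * euler_T D) +
      B * euler_T (euler_T D) := by
    rw [g1, euler_T_add, euler_T_mul, euler_T_mul]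
    ring
  have hE : (1 - PowerSeries.X) * (euler_T (euler_T (B * D)) +
      PowerSeries.C (c - 1) * euler_T (B * D) - PowerSeries.X * (euler_T (euler_T (B * D)) +
        PowerSeries.C (a + b) * euler_T (B * D) + PowerSeries.C (a * b) * (B * D))) = 0 := by
    rw [g2, g1]
    have e1 : PowerSeries.C s = PowerSeries.C a + PowerSeries.C b - PowerSeries.C c := by
      rw [hs, map_sub, map_add]
    rw [e1] at f1 f2
    simp only [map_sub, map_add, map_mul, map_one] at f1 f2 f3 ⊢
    linear_combination (1 - PowerSeries.X) * D * f2 +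
      (PowerSeries.X * (1 + (PowerSeries.C a + PowerSeries.C b - PowerSeries.C c)) * D +
        2 * (1 - PowerSeries.X) * euler_T D +
        ((PowerSeries.C c - 1) - (PowerSeries.C a + PowerSeries.C b) * PowerSeries.X) * D) * f1 +
      (1 - PowerSeries.X) * B * f3
  have hne : (1 - PowerSeries.X : PowerSeries ℝ) ≠ 0 := by
    intro h
    have h1 := congrArg (PowerSeries.coeff 0) h
    simp at h1
  have hE' := (mul_eq_zero.1 hE).resolve_left hne
  have hrec : ∀ m : ℕ, ((m : ℝ) + 1) * (c + m) * PowerSeries.coeff (m + 1) (B * D) =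
      (a + m) * (b + m) * PowerSeries.coeff m (B * D) := by
    intro m
    have h := congrArg (PowerSeries.coeff (m + 1)) hE'
    rw [map_sub, map_add, PowerSeries.coeff_C_mul, euler_T_coeff, euler_T_coeff,
      PowerSeries.coeff_succ_X_mul, map_add, map_add, PowerSeries.coeff_C_mul,
      PowerSeries.coeff_C_mul, euler_T_coeff, euler_T_coeff, map_zero] at h
    push_cast at h
    linear_combination h
  have hfin : ∀ m : ℕ, hc a b c m = PowerSeries.coeff m (B * D) := by
    intro m
    induction m with
    | zero =>
      rw [hc_zero, PowerSeries.coeff_zero_eq_constantCoeff_apply, map_mul,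
        ← PowerSeries.coeff_zero_eq_constantCoeff_apply,
        ← PowerSeries.coeff_zero_eq_constantCoeff_apply, hB, hD]
      unfold euler_B
      rw [PowerSeries.coeff_mk, PowerSeries.coeff_mk, hc_zero]
      simp
    | succ m ih =>
      have h1 : (m : ℝ) + 1 ≠ 0 := by positivity
      have h2 : c + m ≠ 0 := by positivity
      have h3 := hrec m
      rw [← ih] at h3
      rw [hc_succ, mul_div_assoc', eq_comm, eq_div_iff (mul_ne_zero h2 h1)]
      linear_combination h3
  rw [hfin n, PowerSeries.coeff_mul]
  apply Finset.sum_congr rfl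
  intro x _
  rw [hB, hD]
  unfold euler_B
  rw [PowerSeries.coeff_mk, PowerSeries.coeff_mk]

end Pool.Agent.H967.GGC
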