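import Pool.Agent.H967.GGC.Bl6

set_option autoImplicit false

namespace Pool.Agent.H967.GGC
open MeasureTheory Filter Topology Set

/-- binomial coefficients -/
noncomputable def kap_mono_B (s : ℝ) (n : ℕ) : ℝ :=
  ∏ i ∈ Finset.range n, ((s + i) / ((i : ℝ) + 1))

theorem kap_mono_B_zero (s : ℝ) : kap_mono_B s 0 = 1 := by
  unfold kap_mono_B
  simp

theorem kap_mono_B_succ (s : ℝ) (n : ℕ) :
    kap_mono_B s (n + 1) = kap_mono_B s n * ((s + n) / ((n : ℝ) + 1)) := by
  unfold kap_mono_B
  rw [Finset.prod_range_succ]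

theorem kap_mono_B_shift (s : ℝ) (n : ℕ) :
    kap_mono_B s (n + 1) * ((n : ℝ) + 1) = s * kap_mono_B (s + 1) n := by
  induction n with
  | zero =>
    rw [kap_mono_B_succ, kap_mono_B_zero, kap_mono_B_zero]
    simp
  | succ n ih =>
    have h1 : ((n : ℝ) + 1) ≠ 0 := by positivity
    have h2 : (((n + 1 : ℕ) : ℝ) + 1) ≠ 0 := by positivity
    rw [kap_mono_B_succ s (n + 1), kap_mono_B_succ (s + 1) n, mul_assoc, div_mul_cancel₀ _ h2,
      ← mul_assoc, ← ih]
    push_cast
    field_simp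
    ring

theorem kap_mono_B_gen (s : ℝ) :
    (1 - PowerSeries.X) * PowerSeries.mk (kap_mono_B (s + 1)) = PowerSeries.mk (kap_mono_B s) := by
  ext n
  rw [sub_mul, one_mul, map_sub, PowerSeries.coeff_mk, PowerSeries.coeff_mk]
  cases n with
  | zero =>
    rw [PowerSeries.coeff_zero_X_mul, kap_mono_B_zero, kap_mono_B_zero, sub_zero]
  | succ n =>
    have h1 : ((n : ℝ) + 1) ≠ 0 := by positivity
    have h2 := kap_mono_B_shift s n
    rw [PowerSeries.coeff_succ_X_mul, PowerSeries.coeff_mk, kap_mono_B_succ (s + 1) n]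
    rw [← mul_left_inj' h1, h2]
    field_simp
    ring

theorem kap_mono_euler {a b c s : ℝ} (hc' : 0 < c) (hs : a + b - c = s) :
    PowerSeries.mk (hc a b c) =
      PowerSeries.mk (kap_mono_B s) * PowerSeries.mk (hc (c - a) (c - b) c) := by
  ext n
  rw [PowerSeries.coeff_mul, PowerSeries.coeff_mk, euler hc' n]
  refine Finset.sum_congr rfl fun x _ => ?_
  rw [PowerSeries.coeff_mk, PowerSeries.coeff_mk]
  unfold kap_mono_B
  rw [hs]

theorem kap_mono_key {α β γ : ℝ} (hγ : 0 < γ) :
    (1 - PowerSeries.X) * PowerSeries.mk (kap α β γ) *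
      PowerSeries.mk (hc (γ - α) (γ - β) γ) =
      PowerSeries.C (2 * β) * PowerSeries.mk (hc (γ - α) (γ - (β + 1)) γ) := by
  have e0 := kap_mono_euler (a := α) (b := β) (c := γ) (s := α + β - γ) hγ rfl
  have e1 := kap_mono_euler (a := α) (b := β + 1) (c := γ) (s := α + β - γ + 1) hγ (by ring)
  have e2 : PowerSeries.mk (kap α β γ) * PowerSeries.mk (hc α β γ) =
      PowerSeries.C (2 * β) * PowerSeries.mk (hc α (β + 1) γ) := by
    ext n
    rw [PowerSeries.coeff_mul, PowerSeries.coeff_C_mul, PowerSeries.coeff_mk, ← kap_rec α β γ n]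
    refine Finset.sum_congr rfl fun x _ => ?_
    rw [PowerSeries.coeff_mk, PowerSeries.coeff_mk]
  have hne : PowerSeries.mk (kap_mono_B (α + β - γ)) ≠ 0 := by
    intro h
    have h1 := congrArg (PowerSeries.coeff 0) h
    rw [PowerSeries.coeff_mk, kap_mono_B_zero] at h1
    simp at h1
  have e3 := kap_mono_B_gen (α + β - γ)
  refine mul_left_cancel₀ hne ?_
  calc PowerSeries.mk (kap_mono_B (α + β - γ)) *
        ((1 - PowerSeries.X) * PowerSeries.mk (kap α β γ) * PowerSeries.mk (hc (γ - α) (γ - β) γ))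
      = (1 - PowerSeries.X) * (PowerSeries.mk (kap α β γ) *
        (PowerSeries.mk (kap_mono_B (α + β - γ)) * PowerSeries.mk (hc (γ - α) (γ - β) γ))) := by
        ring
    _ = (1 - PowerSeries.X) * (PowerSeries.C (2 * β) * PowerSeries.mk (hc α (β + 1) γ)) := by
        rw [← e0, e2]
    _ = PowerSeries.C (2 * β) * (((1 - PowerSeries.X) *
        PowerSeries.mk (kap_mono_B (α + β - γ + 1))) *
          PowerSeries.mk (hc (γ - α) (γ - (β + 1)) γ)) := by
        rw [e1]
        ring
    _ = _ := by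
        rw [e3]
        ring

theorem kap_mono_N {α β γ : ℝ} (hγ : 0 < γ) (h1 : γ < α) (h1' : α ≤ γ + 1) (h2 : β ≤ γ)
    (h3 : γ ≤ β + 1) (n : ℕ) : 0 ≤ hc (γ - α) (γ - (β + 1)) γ n := by
  unfold hc
  refine Finset.prod_nonneg fun i _ => ?_
  have hi : (0 : ℝ) ≤ i := Nat.cast_nonneg i
  refine div_nonneg ?_ (by positivity)
  rcases Nat.eq_zero_or_pos i with rfl | hi1
  · refine mul_nonneg_of_nonpos_of_nonpos ?_ ?_
    · push_cast
      linarith
    · push_cast
      linarith
  · have hi2 : (1 : ℝ) ≤ i := by exact_mod_cast hi1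
    exact mul_nonneg (by linarith) (by linarith)

theorem kap_mono_D {α β γ : ℝ} (hγ : 0 < γ) (h1 : γ < α) (h1' : α ≤ γ + 1) (h2 : β ≤ γ)
    (n : ℕ) : hc (γ - α) (γ - β) γ (n + 1) ≤ 0 := by
  induction n with
  | zero =>
    rw [hc_succ, hc_zero, one_mul]
    refine div_nonpos_of_nonpos_of_nonneg ?_ (by positivity)
    push_cast
    exact mul_nonpos_of_nonpos_of_nonneg (by linarith) (by linarith)
  | succ n ih =>
    rw [hc_succ]
    refine mul_nonpos_of_nonpos_of_nonneg ih ?_
    have hi2 : (1 : ℝ) ≤ ((n + 1 : ℕ) : ℝ) := by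
      push_cast
      have : (0 : ℝ) ≤ n := Nat.cast_nonneg n
      linarith
    refine div_nonneg (mul_nonneg (by linarith) (by linarith)) (by positivity)

/-- G4 -/
theorem kap_mono_proof {α β γ : ℝ} (hα : 0 < α) (hβ : 0 < β) (hγ : 0 < γ) (h1 : γ < α)
    (h1' : α ≤ γ + 1) (h2 : β ≤ γ) (h3 : γ ≤ β + 1) :
    (∀ n, kap α β γ n ≤ kap α β γ (n + 1)) ∧ kap α β γ 0 < kap α β γ 1 := by
  have key := kap_mono_key (α := α) (β := β) (γ := γ) hγ
  obtain ⟨E, hE⟩ : ∃ E : PowerSeries ℝ, E = (1 - PowerSeries.X) * PowerSeries.mk (kap α β γ) :=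
    ⟨_, rfl⟩
  rw [← hE] at key
  have hEn : ∀ n, 0 ≤ PowerSeries.coeff n E := by
    intro n
    induction n using Nat.strong_induction_on with
    | _ n ih =>
      have h4 := congrArg (PowerSeries.coeff n) key
      rw [PowerSeries.coeff_mul, PowerSeries.coeff_C_mul, PowerSeries.coeff_mk] at h4
      have hmem : (n, 0) ∈ Finset.HasAntidiagonal.antidiagonal n := by
        rw [Finset.HasAntidiagonal.mem_antidiagonal]
        rfl
      rw [← Finset.add_sum_erase _ _ hmem, PowerSeries.coeff_mk, hc_zero, mul_one] at h4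
      have h5 : ∑ p ∈ (Finset.HasAntidiagonal.antidiagonal n).erase (n, 0),
          PowerSeries.coeff p.1 E *
            PowerSeries.coeff p.2 (PowerSeries.mk (hc (γ - α) (γ - β) γ)) ≤ 0 := by
        refine Finset.sum_nonpos fun p hp => ?_
        rw [Finset.mem_erase, Finset.HasAntidiagonal.mem_antidiagonal] at hp
        obtain ⟨hp1, hp2⟩ := hp
        have hp3 : p.2 ≠ 0 := by
          intro h
          apply hp1
          exact Prod.ext (by show p.1 = n; omega) h
        obtain ⟨q, hq⟩ := Nat.exists_eq_succ_of_ne_zero hp3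
        rw [PowerSeries.coeff_mk, hq]
        exact mul_nonpos_of_nonneg_of_nonpos (ih p.1 (by omega))
          (kap_mono_D hγ h1 h1' h2 q)
      have h6 := kap_mono_N hγ h1 h1' h2 h3 n
      have h7 : 0 ≤ 2 * β * hc (γ - α) (γ - (β + 1)) γ n := by positivity
      linarith
  constructor
  · intro n
    have h4 := hEn (n + 1)
    rw [hE, sub_mul, one_mul, map_sub, PowerSeries.coeff_succ_X_mul, PowerSeries.coeff_mk,
      PowerSeries.coeff_mk] at h4
    linarith
  · have h4 := kap_rec α β γ 1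
    have h5 := kap_zero α β γ
    rw [Finset.Nat.sum_antidiagonal_eq_sum_range_succ_mk, Finset.sum_range_succ,
      Finset.sum_range_one] at h4
    have e1 : ∀ a b c : ℝ, hc a b c 1 = a * b / c := by
      intro a b c
      rw [show (1 : ℕ) = 0 + 1 from rfl, hc_succ, hc_zero]
      simp
    simp only [Nat.sub_zero, Nat.sub_self, e1, hc_zero, h5, mul_one] at h4
    rw [h5]
    have h6 : kap α β γ 1 = 2 * β * (α / γ) := by
      have h7 : kap α β γ 1 = 2 * β * (α * (β + 1) / γ) - 2 * β * (α * β / γ) := by linarith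
      rw [h7]
      field_simp
      ring
    rw [h6]
    have h8 : 1 < α / γ := by
      rw [lt_div_iff₀ hγ]
      linarith
    have h9 : 0 < 2 * β := by linarith
    nlinarith

end Pool.Agent.H967.GGC
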