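import Pool.Agent.H967.GGC.Bl1

set_option autoImplicit false

namespace Pool.Agent.H967.GGC
open MeasureTheory Filter Topology Set

/-- K2 -/
theorem kap_gen_proof {α β γ : ℝ} (hα : 0 < α) (hβ : 0 < β) (hγ : 0 < γ) :
    ∃ r : ℝ, 0 < r ∧ ∀ z : ℝ, |z| < r →
      HasSum (fun n => kap α β γ n * z ^ n) (2 * β * F α (β + 1) γ z / F α β γ z) := by
  obtain ⟨M, S, hM, hS, hb⟩ := kap_bound hα hβ hγ
  have hF : ∀ᶠ z in 𝓝 (0 : ℝ), 0 < F α β γ z :=
    (F_tendsto_one hα hβ hγ).eventually (lt_mem_nhds one_pos)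
  obtain ⟨ε, hε, hF⟩ := Metric.eventually_nhds_iff.1 hF
  have hS0 : 0 < S := by linarith
  refine ⟨min ε (1 / S), lt_min hε (by positivity), fun z hz => ?_⟩
  have hz1 : |z| < ε := lt_of_lt_of_le hz (min_le_left _ _)
  have hz2 : S * |z| < 1 := by
    have h := lt_of_lt_of_le hz (min_le_right _ _)
    rw [lt_div_iff₀ hS0] at h
    linarith
  have hz3 : |z| < 1 := by nlinarith [abs_nonneg z]
  have hFz : 0 < F α β γ z := hF (by rwa [dist_zero_right, Real.norm_eq_abs])
  have hk : Summable (fun n => ‖kap α β γ n * z ^ n‖) := by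
    refine Summable.of_nonneg_of_le (fun n => norm_nonneg _) (fun n => ?_)
      ((summable_geometric_of_lt_one (by positivity) hz2).mul_left M)
    rw [norm_mul, norm_pow, Real.norm_eq_abs, Real.norm_eq_abs, mul_pow, ← mul_assoc]
    exact mul_le_mul_of_nonneg_right (hb n) (by positivity)
  have hh : Summable (fun n => ‖hc α β γ n * z ^ n‖) := (summable_hc hα hβ hγ hz3).norm
  have hprod := tsum_mul_tsum_eq_tsum_sum_antidiagonal_of_summable_norm hk hh
  have hsum : ∑' n, ∑ x ∈ Finset.HasAntidiagonal.antidiagonal n,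
      (kap α β γ x.1 * z ^ x.1) * (hc α β γ x.2 * z ^ x.2) = 2 * β * F α (β + 1) γ z := by
    unfold F
    rw [← tsum_mul_left]
    refine tsum_congr fun n => ?_
    rw [← mul_assoc, ← kap_rec α β γ n, Finset.sum_mul]
    refine Finset.sum_congr rfl fun x hx => ?_
    rw [← Finset.HasAntidiagonal.mem_antidiagonal.1 hx, pow_add]
    ring
  rw [hsum] at hprod
  have hval : ∑' n, kap α β γ n * z ^ n = 2 * β * F α (β + 1) γ z / F α β γ z := by
    rw [eq_div_iff hFz.ne', ← hprod]
    rfl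
  rw [← hval]
  exact hk.of_norm.hasSum

end Pool.Agent.H967.GGC
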