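import Pool.Agent.H967.GGC.Bl2

set_option autoImplicit false

/-!
# Self-decomposability of McKay-type Bessel laws: leaf K4
-/

namespace Pool.Agent.H967.GGC
open MeasureTheory Filter Topology Set

theorem KK_laplace_integral_pow {p : ℝ} (hp : 0 < p) (m : ℕ) :
    ∫ x in Ioi (0 : ℝ), x ^ m * Real.exp (-(p * x)) = (m.factorial : ℝ) / p ^ (m + 1) := by
  have h1 := Real.integral_rpow_mul_exp_neg_mul_Ioi (a := (m : ℝ) + 1) (r := p)
    (by positivity) hp
  rw [Real.Gamma_nat_eq_factorial] at h1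
  have h2 : ∫ x in Ioi (0 : ℝ), x ^ m * Real.exp (-(p * x)) =
      ∫ x in Ioi (0 : ℝ), x ^ ((m : ℝ) + 1 - 1) * Real.exp (-(p * x)) := by
    congr 1
    funext x
    rw [add_sub_cancel_right, Real.rpow_natCast]
  rw [h2, h1]
  have h3 : ((m : ℝ) + 1) = ((m + 1 : ℕ) : ℝ) := by push_cast; ring
  rw [h3, Real.rpow_natCast, div_pow, one_pow]
  ring

theorem KK_laplace_integrable_pow {p : ℝ} (hp : 0 < p) (m : ℕ) :
    IntegrableOn (fun x : ℝ => x ^ m * Real.exp (-(p * x))) (Ioi 0) := by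
  have h1 := KK_laplace_integral_pow hp m
  by_contra h2
  have h3 : ∫ x in Ioi (0 : ℝ), x ^ m * Real.exp (-(p * x)) = 0 := integral_undef h2
  rw [h3] at h1
  have h4 : 0 < (m.factorial : ℝ) / p ^ (m + 1) := by positivity
  linarith

theorem KK_laplace_term {p c k : ℝ} (n : ℕ) (x : ℝ) :
    Real.exp (-(p * x)) * (k * (c * x) ^ (2 * n) / ((2 * n).factorial : ℝ)) =
      (k * c ^ (2 * n) / ((2 * n).factorial : ℝ)) * (x ^ (2 * n) * Real.exp (-(p * x))) := by
  rw [mul_pow]
  ring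

theorem KK_laplace_value {p c k : ℝ} (hp : 0 < p) (n : ℕ) :
    ∫ x in Ioi (0 : ℝ), Real.exp (-(p * x)) *
      (k * (c * x) ^ (2 * n) / ((2 * n).factorial : ℝ)) = k * (c ^ 2 / p ^ 2) ^ n / p := by
  simp_rw [KK_laplace_term]
  rw [integral_const_mul, KK_laplace_integral_pow hp]
  have h1 : ((2 * n).factorial : ℝ) ≠ 0 := by positivity
  have h2 : p ≠ 0 := hp.ne'
  rw [div_pow, ← pow_mul, ← pow_mul, pow_succ]
  field_simp

theorem KK_laplace_proof {α β γ c : ℝ} (hα : 0 < α) (hβ : 0 < β) (hγ : 0 < γ) (hc0 : 0 < c) :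
    ∃ S : ℝ, c ≤ S ∧ ∀ p : ℝ, S < p →
      IntegrableOn (fun x => Real.exp (-(p * x)) * KK α β γ (c * x)) (Ioi 0) ∧
      ∫ x in Ioi (0 : ℝ), Real.exp (-(p * x)) * KK α β γ (c * x) =
        2 * β * F α (β + 1) γ (c ^ 2 / p ^ 2) / (p * F α β γ (c ^ 2 / p ^ 2)) := by
  obtain ⟨M1, S1, hM1, hS1, hb⟩ := kap_bound hα hβ hγ
  obtain ⟨r, hr, hgen⟩ := kap_gen hα hβ hγ
  obtain ⟨hd, -, -, M2, S2, hM2, hS2, hK⟩ := KK_props hα hβ hγ
  refine ⟨c * (S1 + 1 / r + S2 + 1), ?_, ?_⟩
  · have h1 : 0 < 1 / r := by positivity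
    nlinarith
  intro p hp
  have hr1 : 0 < 1 / r := by positivity
  have hp0 : 0 < p := lt_trans (by positivity) hp
  have hpc : S1 + 1 / r + S2 + 1 < p / c := by
    rw [lt_div_iff₀ hc0]
    linarith
  have hpc1 : 1 < p / c := by linarith
  have hsq : p / c ≤ (p / c) ^ 2 := by nlinarith
  have hz : c ^ 2 / p ^ 2 = 1 / (p / c) ^ 2 := by
    field_simp
  have hz0 : 0 < c ^ 2 / p ^ 2 := by positivity
  have hzr : c ^ 2 / p ^ 2 < r := by
    rw [hz, div_lt_iff₀ (by positivity)]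
    have h1 : 1 / r < (p / c) ^ 2 := by linarith
    rw [div_lt_iff₀ hr] at h1
    linarith
  have hzS : S1 * (c ^ 2 / p ^ 2) < 1 := by
    rw [hz, mul_one_div, div_lt_one (by positivity)]
    linarith
  have hint : IntegrableOn (fun x => Real.exp (-(p * x)) * KK α β γ (c * x)) (Ioi 0) := by
    have hcont : Continuous (KK α β γ) :=
      continuous_iff_continuousAt.2 fun x => (hd x).continuousAt
    have hq : 0 < p - c * S2 := by nlinarith
    have h1 : IntegrableOn (fun x : ℝ => M2 * Real.exp (-(p - c * S2) * x)) (Ioi 0) :=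
      (integrableOn_exp_mul_Ioi (neg_lt_zero.2 hq) 0).const_mul M2
    refine Integrable.mono' h1 ?_ ?_
    · refine Continuous.aestronglyMeasurable ?_
      fun_prop
    · refine (ae_restrict_iff' measurableSet_Ioi).2 (Eventually.of_forall fun x hx => ?_)
      have hx0 : (0 : ℝ) < x := hx
      rw [norm_mul, Real.norm_eq_abs, Real.norm_eq_abs, Real.abs_exp]
      have h2 := (hK (c * x) (by positivity)).1
      calc Real.exp (-(p * x)) * |KK α β γ (c * x)| ≤
          Real.exp (-(p * x)) * (M2 * Real.exp (S2 * (c * x))) :=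
            mul_le_mul_of_nonneg_left h2 (Real.exp_pos _).le
        _ = M2 * Real.exp (-(p - c * S2) * x) := by
            rw [mul_left_comm, ← Real.exp_add]
            congr 2
            ring
  refine ⟨hint, ?_⟩
  have hF_int : ∀ n : ℕ, Integrable (fun x : ℝ => Real.exp (-(p * x)) *
      (kap α β γ n * (c * x) ^ (2 * n) / ((2 * n).factorial : ℝ)))
      (volume.restrict (Ioi 0)) := by
    intro n
    simp_rw [KK_laplace_term]
    exact (KK_laplace_integrable_pow hp0 (2 * n)).const_mul _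
  have hnorm : ∀ n : ℕ, ∫ x in Ioi (0 : ℝ), ‖Real.exp (-(p * x)) *
      (kap α β γ n * (c * x) ^ (2 * n) / ((2 * n).factorial : ℝ))‖ =
      |kap α β γ n| * (c ^ 2 / p ^ 2) ^ n / p := by
    intro n
    rw [← KK_laplace_value hp0 n]
    congr 1
    funext x
    rw [norm_mul, norm_div, norm_mul, Real.norm_eq_abs, Real.norm_eq_abs, Real.norm_eq_abs,
      Real.norm_eq_abs, Real.abs_exp, abs_of_nonneg (Even.pow_nonneg (even_two_mul n) (c * x)),
      abs_of_pos (by positivity : (0 : ℝ) < ((2 * n).factorial : ℝ))]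
  have hF_sum : Summable (fun n : ℕ => ∫ x in Ioi (0 : ℝ), ‖Real.exp (-(p * x)) *
      (kap α β γ n * (c * x) ^ (2 * n) / ((2 * n).factorial : ℝ))‖) := by
    simp_rw [hnorm]
    have hgeo : Summable (fun n : ℕ => M1 / p * (S1 * (c ^ 2 / p ^ 2)) ^ n) :=
      (summable_geometric_of_lt_one (by positivity) hzS).mul_left _
    refine Summable.of_nonneg_of_le (fun n => by positivity) (fun n => ?_) hgeo
    have h1 := hb n
    calc |kap α β γ n| * (c ^ 2 / p ^ 2) ^ n / p ≤
        (M1 * S1 ^ n) * (c ^ 2 / p ^ 2) ^ n / p := by gcongr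
      _ = M1 / p * (S1 * (c ^ 2 / p ^ 2)) ^ n := by
          rw [mul_pow]
          ring
  have hsum := hasSum_integral_of_summable_integral_norm hF_int hF_sum
  have htsum : ∀ x : ℝ, ∑' n : ℕ, Real.exp (-(p * x)) *
      (kap α β γ n * (c * x) ^ (2 * n) / ((2 * n).factorial : ℝ)) =
      Real.exp (-(p * x)) * KK α β γ (c * x) := by
    intro x
    rw [tsum_mul_left]
    rfl
  simp_rw [htsum, KK_laplace_value hp0] at hsum
  have h3 := (hgen (c ^ 2 / p ^ 2) (by rwa [abs_of_pos hz0])).div_const p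
  rw [hsum.unique h3, div_div]
  congr 1
  ring

end Pool.Agent.H967.GGC
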