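import Pool.Agent.H967.GGC.Bl4

set_option autoImplicit false

/-!
# Leaf Z: the criterion for self-decomposability
-/

namespace Pool.Agent.H967.GGC
open MeasureTheory Filter Topology Set

/-- the canonical function -/
noncomputable def sd_iff_k (α β γ b c x : ℝ) : ℝ := Real.exp (-(b * x)) * KK α β γ (c * x)

/-- its derivative -/
noncomputable def sd_iff_k' (α β γ b c x : ℝ) : ℝ :=
  Real.exp (-(b * x)) * (c * deriv (KK α β γ) (c * x) - b * KK α β γ (c * x))

theorem sd_iff_hasDeriv {α β γ : ℝ} (hα : 0 < α) (hβ : 0 < β) (hγ : 0 < γ) (b c x : ℝ) :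
    HasDerivAt (sd_iff_k α β γ b c) (sd_iff_k' α β γ b c x) x := by
  have h1 := (KK_props hα hβ hγ).1 (c * x)
  have h2 : HasDerivAt (fun x : ℝ => c * x) c x := by
    simpa using (hasDerivAt_id x).const_mul c
  have h3 : HasDerivAt (fun x : ℝ => KK α β γ (c * x)) (deriv (KK α β γ) (c * x) * c) x :=
    h1.comp x h2
  have h4 : HasDerivAt (fun x : ℝ => -(b * x)) (-b) x := by
    simpa using ((hasDerivAt_id x).const_mul b).fun_neg
  have h5 := h4.exp
  have h6 := h5.mul h3
  refine h6.congr_deriv ?_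
  unfold sd_iff_k'
  ring

theorem sd_iff_cont_k' {α β γ : ℝ} (hα : 0 < α) (hβ : 0 < β) (hγ : 0 < γ) (b c : ℝ) :
    Continuous (sd_iff_k' α β γ b c) := by
  obtain ⟨h1, h2, -⟩ := KK_props hα hβ hγ
  have h3 : Continuous (KK α β γ) := continuous_iff_continuousAt.2 fun x => (h1 x).continuousAt
  unfold sd_iff_k'
  fun_prop

theorem sd_iff_bound {α β γ b c : ℝ} (hα : 0 < α) (hβ : 0 < β) (hγ : 0 < γ) (hb : 0 < b)
    (hc0 : 0 < c) : ∃ M S : ℝ, 0 < M ∧ 0 < S ∧ ∀ x, 0 ≤ x →
      |sd_iff_k α β γ b c x| ≤ M * Real.exp (S * x) ∧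
      |sd_iff_k' α β γ b c x| ≤ M * Real.exp (S * x) := by
  obtain ⟨h1, h2, -, M, S, hM, hS, h⟩ := KK_props hα hβ hγ
  refine ⟨(1 + b + c) * M, S * c, by positivity, by positivity, ?_⟩
  intro x hx
  obtain ⟨h3, h4⟩ := h (c * x) (by positivity)
  have e1 : Real.exp (-(b * x)) ≤ 1 := Real.exp_le_one_iff.2 (by nlinarith)
  have e0 : 0 < Real.exp (-(b * x)) := Real.exp_pos _
  have e2 : S * (c * x) = S * c * x := by ring
  rw [e2] at h3 h4
  have e3 : 0 < M * Real.exp (S * c * x) := by positivity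
  have e4 : 0 ≤ |KK α β γ (c * x)| := abs_nonneg _
  have e5 : 0 ≤ |deriv (KK α β γ) (c * x)| := abs_nonneg _
  constructor
  · unfold sd_iff_k
    rw [abs_mul, abs_of_pos e0]
    calc Real.exp (-(b * x)) * |KK α β γ (c * x)| ≤ 1 * (M * Real.exp (S * c * x)) :=
          mul_le_mul e1 h3 e4 zero_le_one
      _ ≤ (1 + b + c) * (M * Real.exp (S * c * x)) :=
          mul_le_mul_of_nonneg_right (by linarith) e3.le
      _ = (1 + b + c) * M * Real.exp (S * c * x) := by ring
  · unfold sd_iff_k'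
    rw [abs_mul, abs_of_pos e0]
    have e6 : |c * deriv (KK α β γ) (c * x) - b * KK α β γ (c * x)| ≤
        (1 + b + c) * (M * Real.exp (S * c * x)) := by
      calc |c * deriv (KK α β γ) (c * x) - b * KK α β γ (c * x)|
          ≤ |c * deriv (KK α β γ) (c * x)| + |b * KK α β γ (c * x)| := abs_sub _ _
        _ = c * |deriv (KK α β γ) (c * x)| + b * |KK α β γ (c * x)| := by
            rw [abs_mul, abs_mul, abs_of_pos hc0, abs_of_pos hb]
        _ ≤ c * (M * Real.exp (S * c * x)) + b * (M * Real.exp (S * c * x)) :=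
            add_le_add (mul_le_mul_of_nonneg_left h4 hc0.le)
              (mul_le_mul_of_nonneg_left h3 hb.le)
        _ ≤ (1 + b + c) * (M * Real.exp (S * c * x)) := by nlinarith
    calc Real.exp (-(b * x)) * |c * deriv (KK α β γ) (c * x) - b * KK α β γ (c * x)|
        ≤ 1 * ((1 + b + c) * (M * Real.exp (S * c * x))) :=
          mul_le_mul e1 e6 (abs_nonneg _) zero_le_one
      _ = (1 + b + c) * M * Real.exp (S * c * x) := by ring

theorem sd_iff_k'_nonpos_iff {α β γ b c : ℝ} (hc0 : 0 < c) :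
    (∀ x, 0 < x → sd_iff_k' α β γ b c x ≤ 0) ↔
      ∀ x, 0 < x → deriv (KK α β γ) x ≤ b / c * KK α β γ x := by
  constructor
  · intro h x hx
    have h1 := h (x / c) (by positivity)
    unfold sd_iff_k' at h1
    have e : c * (x / c) = x := by field_simp
    rw [e] at h1
    have h2 : c * deriv (KK α β γ) x - b * KK α β γ x ≤ 0 := by
      by_contra hh
      push Not at hh
      exact absurd h1 (not_le.2 (mul_pos (Real.exp_pos _) hh))
    rw [div_mul_eq_mul_div, le_div_iff₀ hc0]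
    linarith
  · intro h x hx
    have h1 := h (c * x) (by positivity)
    unfold sd_iff_k'
    rw [div_mul_eq_mul_div, le_div_iff₀ hc0] at h1
    exact mul_nonpos_of_nonneg_of_nonpos (Real.exp_pos _).le (by linarith)

theorem sd_iff_integral {f : ℝ → ℝ} {C : ℝ} (hC : 0 < C) (hf : ∀ x, 0 < x → 0 < f x)
    {P : Measure ℝ}
    (hfi : IntegrableOn f (Ioi 0))
    (hP : P = (volume.restrict (Ioi 0)).withDensity (fun x => ENNReal.ofReal (C * f x)))
    (g : ℝ → ℝ) : ∫ x, g x ∂P = ∫ x in Ioi (0 : ℝ), g x * (C * f x) := by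
  rw [hP]
  have hm : AEMeasurable (fun x => ENNReal.ofReal (C * f x)) (volume.restrict (Ioi (0 : ℝ))) :=
    (hfi.aestronglyMeasurable.aemeasurable.const_mul C).ennreal_ofReal
  rw [integral_withDensity_eq_integral_toReal_smul₀ hm
    (Eventually.of_forall fun x => ENNReal.ofReal_lt_top)]
  refine setIntegral_congr_fun measurableSet_Ioi ?_
  intro x hx
  have h1 : 0 ≤ C * f x := (mul_pos hC (hf x hx)).le
  simp only [smul_eq_mul]
  rw [ENNReal.toReal_ofReal h1, mul_comm]

theorem sd_iff_Iio_zero {f : ℝ → ℝ} {C : ℝ} {P : Measure ℝ}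
    (hP : P = (volume.restrict (Ioi 0)).withDensity (fun x => ENNReal.ofReal (C * f x))) :
    P (Iio 0) = 0 := by
  rw [hP]
  refine withDensity_absolutelyContinuous _ _ ?_
  rw [Measure.restrict_apply measurableSet_Iio]
  have : Iio (0 : ℝ) ∩ Ioi 0 = ∅ := by
    ext x
    simp only [mem_inter_iff, mem_Iio, mem_Ioi, mem_empty_iff_false, iff_false, not_and, not_lt]
    intro h
    exact h.le
  rw [this, measure_empty]

theorem sd_iff_Iio_pos {f : ℝ → ℝ} {C : ℝ} (hC : 0 < C) (hf : ∀ x, 0 < x → 0 < f x)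
    {P : Measure ℝ} (hfi : IntegrableOn f (Ioi 0))
    (hP : P = (volume.restrict (Ioi 0)).withDensity (fun x => ENNReal.ofReal (C * f x)))
    {δ : ℝ} (hδ : 0 < δ) : 0 < P (Iio δ) := by
  rw [pos_iff_ne_zero]
  intro h0
  have hm : AEMeasurable (fun x => ENNReal.ofReal (C * f x)) (volume.restrict (Ioi (0 : ℝ))) :=
    (hfi.aestronglyMeasurable.aemeasurable.const_mul C).ennreal_ofReal
  rw [hP, withDensity_apply _ measurableSet_Iio, Measure.restrict_restrict measurableSet_Iio] at h0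
  have hm2 : AEMeasurable (fun x => ENNReal.ofReal (C * f x))
      (volume.restrict (Iio δ ∩ Ioi (0 : ℝ))) :=
    hm.mono_measure (Measure.restrict_mono inter_subset_right le_rfl)
  rw [lintegral_eq_zero_iff' hm2] at h0
  have h1 : ∀ᵐ x ∂(volume.restrict (Iio δ ∩ Ioi (0 : ℝ))), False := by
    have h2 : ∀ᵐ x ∂(volume.restrict (Iio δ ∩ Ioi (0 : ℝ))), x ∈ Iio δ ∩ Ioi (0 : ℝ) :=
      ae_restrict_mem (measurableSet_Iio.inter measurableSet_Ioi)
    filter_upwards [h0, h2] with x hx hx2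
    simp only [Pi.zero_apply, ENNReal.ofReal_eq_zero] at hx
    exact absurd hx (not_le.2 (mul_pos hC (hf x hx2.2)))
  rw [ae_iff] at h1
  simp only [not_false_eq_true, ofPred_true, Measure.restrict_apply_univ] at h1
  have h3 : Iio δ ∩ Ioi (0 : ℝ) = Ioo 0 δ := by
    ext x
    simp only [mem_inter_iff, mem_Iio, mem_Ioi, mem_Ioo]
    tauto
  rw [h3, Real.volume_Ioo] at h1
  simp only [sub_zero, ENNReal.ofReal_eq_zero] at h1
  linarith

/-- Z -/
theorem sd_iff_proof {α β γ b c M : ℝ} (hα : 0 < α) (hβ : 0 < β) (hγ : 0 < γ) (hc0 : 0 < c)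
    (hcb : c < b) (hM : 0 < M) {f : ℝ → ℝ} (hf : ∀ x, 0 < x → 0 < f x)
    (hL : ∀ s : ℝ, 0 ≤ s → IntegrableOn (fun x => Real.exp (-(s * x)) * f x) (Ioi 0) ∧
      ∫ x in Ioi (0 : ℝ), Real.exp (-(s * x)) * f x =
        M * ((b + s) ^ (-(2 * β)) * F α β γ (c ^ 2 / (b + s) ^ 2)))
    (P : Measure ℝ) (hP : IsLawOf f P) :
    IsSD P ↔ ∀ x, 0 < x → deriv (KK α β γ) x ≤ b / c * KK α β γ x := by
  obtain ⟨hPp, C, hC, hPe⟩ := hP
  have hb : 0 < b := hc0.trans hcb
  have hfi : IntegrableOn f (Ioi 0) := by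
    have := (hL 0 le_rfl).1
    simpa using this
  have hP0 : P (Iio 0) = 0 := sd_iff_Iio_zero hPe
  have hPL : ∀ s : ℝ, ∫ x, Real.exp (-(s * x)) ∂P =
      ∫ x in Ioi (0 : ℝ), Real.exp (-(s * x)) * (C * f x) := fun s =>
    sd_iff_integral hC hf hfi hPe _
  -- the scaled density
  have hLC : ∀ s : ℝ, 0 ≤ s → IntegrableOn (fun x => Real.exp (-(s * x)) * (C * f x)) (Ioi 0) ∧
      ∫ x in Ioi (0 : ℝ), Real.exp (-(s * x)) * (C * f x) =
        (C * M) * ((b + s) ^ (-(2 * β)) * F α β γ (c ^ 2 / (b + s) ^ 2)) := by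
    intro s hs
    obtain ⟨h1, h2⟩ := hL s hs
    have e : (fun x => Real.exp (-(s * x)) * (C * f x)) =
        fun x => C * (Real.exp (-(s * x)) * f x) := by
      funext x
      ring
    rw [e]
    refine ⟨h1.const_mul C, ?_⟩
    rw [integral_const_mul, h2]
    ring
  have hCM : 0 < C * M := mul_pos hC hM
  have hfC : ∀ x, 0 < x → 0 ≤ C * f x := fun x hx => (mul_pos hC (hf x hx)).le
  rw [← sd_iff_k'_nonpos_iff hc0]
  constructor
  · intro hSD
    obtain ⟨M1, S1, hM1, hS1, hbd⟩ := sd_iff_bound (α := α) (β := β) (γ := γ) hα hβ hγ hb hc0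
    obtain ⟨S0, hS0, hKL⟩ := KK_laplace hα hβ hγ hc0
    obtain ⟨S, hS⟩ := exists_nat_ge (max S0 S1)
    let R : ℝ → ℝ := fun s => 2 * β * F α (β + 1) γ (c ^ 2 / (b + s) ^ 2) /
      ((b + s) * F α β γ (c ^ 2 / (b + s) ^ 2))
    refine deriv_nonpos (k := sd_iff_k α β γ b c) (S := S) (M := M1)
      (fun x => sd_iff_hasDeriv hα hβ hγ b c x) (sd_iff_cont_k' hα hβ hγ b c) ?_ R ?_ ?_
    · intro x hx
      obtain ⟨h1, h2⟩ := hbd x hx
      have h3 : M1 * Real.exp (S1 * x) ≤ M1 * Real.exp (S * x) := by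
        refine mul_le_mul_of_nonneg_left (Real.exp_le_exp.2 ?_) hM1.le
        exact mul_le_mul_of_nonneg_right ((le_max_right _ _).trans hS) hx
      exact ⟨h1.trans h3, h2.trans h3⟩
    · intro s hs
      have hs1 : S0 < b + s := by
        have : S0 ≤ S := (le_max_left _ _).trans hS
        linarith
      obtain ⟨-, h2⟩ := hKL (b + s) hs1
      show 2 * β * F α (β + 1) γ (c ^ 2 / (b + s) ^ 2) /
        ((b + s) * F α β γ (c ^ 2 / (b + s) ^ 2)) = _
      rw [← h2]
      refine integral_congr_ae (Eventually.of_forall fun x => ?_)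
      show Real.exp (-((b + s) * x)) * KK α β γ (c * x) =
        Real.exp (-(s * x)) * (Real.exp (-(b * x)) * KK α β γ (c * x))
      rw [← mul_assoc, ← Real.exp_add]
      congr 2
      ring
    · intro n m hn hm
      have hm1 : 1 ≤ m := by omega
      refine sd_diff P hP0 (fun δ hδ => sd_iff_Iio_pos hC hf hfi hPe hδ) R ?_ hSD n m hn hm1
      intro s hs
      have hbs : 0 < b + s := by linarith
      have hz0 : 0 ≤ c ^ 2 / (b + s) ^ 2 := by positivity
      have hz1 : c ^ 2 / (b + s) ^ 2 < 1 := by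
        rw [div_lt_one (by positivity)]
        exact pow_lt_pow_left₀ (by linarith) hc0.le two_ne_zero
      have hF : 0 < F α β γ (c ^ 2 / (b + s) ^ 2) := F_pos hα hβ hγ hz0 hz1
      have h1 := (hasDerivAt_L (b := b) (c := c) hα hβ hγ hc0 (s := s) (by linarith)).const_mul
        (C * M)
      have h2 : (fun s : ℝ => ∫ x, Real.exp (-(s * x)) ∂P) =ᶠ[𝓝 s]
          fun s : ℝ => C * M * ((b + s) ^ (-(2 * β)) * F α β γ (c ^ 2 / (b + s) ^ 2)) := by
        filter_upwards [lt_mem_nhds hs] with t ht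
        rw [hPL t, (hLC t ht.le).2]
      refine (h1.congr_of_eventuallyEq h2).congr_deriv ?_
      rw [hPL s, (hLC s hs.le).2]
      show _ = -(2 * β * F α (β + 1) γ (c ^ 2 / (b + s) ^ 2) /
        ((b + s) * F α β γ (c ^ 2 / (b + s) ^ 2)) * _)
      have h3 : (b + s) ^ (-(2 * β) - 1) = (b + s) ^ (-(2 * β)) / (b + s) :=
        Real.rpow_sub_one hbs.ne' _
      rw [h3]
      field_simp
  · intro hk'
    have hk1 : ∀ x, HasDerivAt (sd_iff_k α β γ b c) (sd_iff_k' α β γ b c x) x :=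
      fun x => sd_iff_hasDeriv hα hβ hγ b c x
    have hkc : Continuous (sd_iff_k α β γ b c) :=
      continuous_iff_continuousAt.2 fun x => (hk1 x).continuousAt
    have hka : AntitoneOn (sd_iff_k α β γ b c) (Ioi 0) := by
      refine antitoneOn_of_deriv_nonpos (convex_Ioi 0) hkc.continuousOn
        (fun x _ => (hk1 x).differentiableAt.differentiableWithinAt) ?_
      intro x hx
      rw [interior_Ioi] at hx
      rw [(hk1 x).deriv]
      exact hk' x hx
    have hconv := conv_ae (f := fun x => C * f x) hα hβ hγ hc0 hcb hCM hfC hLC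
    have hxf := (xf_integrable (f := fun x => C * f x) hα hβ hγ hc0 hcb hCM hfC hLC).1
    have hgi : IntegrableOn (fun x => C * f x) (Ioi 0) := hfi.const_mul C
    have hg1 : ∫ x in Ioi (0 : ℝ), C * f x = 1 := by
      have h1 := hPL 0
      simp only [zero_mul, neg_zero, Real.exp_zero, one_mul, integral_const, probReal_univ,
        smul_eq_mul, mul_one] at h1
      exact h1.symm
    have hk0 : ∀ x, 0 < x → 0 ≤ sd_iff_k α β γ b c x :=
      k_nonneg (f := fun x => C * f x) hfC hgi (by rw [hg1]; exact one_pos) hkc hka hconv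
    obtain ⟨hki, hexp⟩ := exponent_of_conv (f := fun x => C * f x) hfC hgi hxf hg1 hkc hk0 hconv
    refine sd_of_antitone P hP0 (sd_iff_k α β γ b c) hk0 hka hki ?_ ?_
    · intro T
      obtain ⟨B, hB⟩ := (isCompact_Icc (a := (0 : ℝ)) (b := T)).exists_bound_of_continuousOn
        (sd_iff_cont_k' hα hβ hγ b c).continuousOn
      refine ⟨B, ?_⟩
      intro x y hx hxy hyT
      have h1 : ‖sd_iff_k α β γ b c y - sd_iff_k α β γ b c x‖ ≤ B * ‖y - x‖ := by
        refine Convex.norm_image_sub_le_of_norm_hasDerivWithin_le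
          (f' := sd_iff_k' α β γ b c) (s := Icc 0 T)
          (fun z _ => (hk1 z).hasDerivWithinAt) hB (convex_Icc 0 T)
          ⟨hx.le, hxy.trans hyT⟩ ⟨hx.le.trans hxy, hyT⟩
      rw [Real.norm_eq_abs, Real.norm_eq_abs, abs_of_nonneg (sub_nonneg.2 hxy)] at h1
      have h2 := neg_abs_le (sd_iff_k α β γ b c y - sd_iff_k α β γ b c x)
      linarith
    · intro s hs
      rw [hPL s]
      exact hexp s hs

end Pool.Agent.H967.GGC
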