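import Pool.Agent.H967.GGC.Cl1

set_option autoImplicit false

/-! P1b: termwise derivative of the entire series -/

namespace Pool.Agent.H967.GGC
open MeasureTheory Filter Topology Set
open Pool.Agent.R906.KB (Chain JArr eA phA chainA)

/-- termwise differentiation of an even entire series -/
theorem deriv_KK_eq_phA_proof_aux {γ : ℕ → ℝ} {M S : ℝ} (hM : 0 ≤ M) (hS : 0 ≤ S)
    (hγ : ∀ j, |γ j| ≤ M * S ^ j) (x : ℝ) :
    HasDerivAt (fun y : ℝ => ∑' j : ℕ, γ j * (y ^ (2 * j) / ((2 * j).factorial : ℝ)))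
      (∑' j : ℕ, γ (j + 1) * (x ^ (2 * j + 1) / ((2 * j + 1).factorial : ℝ))) x := by
  set R : ℝ := |x| + 1 with hR
  have hR0 : 0 ≤ R := by positivity
  set T : ℝ := S + 1 with hT
  have hT0 : 0 ≤ T := by positivity
  have hST : S ≤ T ^ 2 := by rw [hT]; nlinarith
  -- the terms of the derivative
  set g' : ℕ → ℝ → ℝ := fun j y => γ j * (((2 * j : ℕ) : ℝ) * y ^ (2 * j - 1) /
    ((2 * j).factorial : ℝ)) with hg'
  set u : ℕ → ℝ := fun j => |γ j| * (((2 * j : ℕ) : ℝ) * R ^ (2 * j - 1) /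
    ((2 * j).factorial : ℝ)) with hu
  have hstep : ∀ (j : ℕ) (y : ℝ), ((2 * (j + 1) : ℕ) : ℝ) * y ^ (2 * (j + 1) - 1) /
      ((2 * (j + 1)).factorial : ℝ) = y ^ (2 * j + 1) / ((2 * j + 1).factorial : ℝ) := by
    intro j y
    have h1 : 2 * (j + 1) = (2 * j + 1) + 1 := by ring
    have h2 : 2 * (j + 1) - 1 = 2 * j + 1 := by omega
    rw [h2, h1, Nat.factorial_succ]
    have h3 : ((2 * j + 1).factorial : ℝ) ≠ 0 := by positivity
    have h4 : (((2 * j + 1 + 1 : ℕ)) : ℝ) ≠ 0 := by positivity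
    push_cast at h4 ⊢
    field_simp
  have hsum : Summable u := by
    rw [← summable_nat_add_iff 1]
    have hs1 : Summable (fun j : ℕ => M * T * ((T * R) ^ (2 * j + 1) /
        ((2 * j + 1).factorial : ℝ))) := by
      refine Summable.mul_left _ ?_
      exact (Real.summable_pow_div_factorial (T * R)).comp_injective
        (i := fun j : ℕ => 2 * j + 1) (fun a b h => by simpa using h)
    refine Summable.of_nonneg_of_le (fun j => ?_) (fun j => ?_) hs1
    · simp only [hu]; positivity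
    · simp only [hu]
      rw [hstep]
      have h1 : |γ (j + 1)| ≤ M * (T ^ 2) ^ (j + 1) :=
        (hγ (j + 1)).trans (mul_le_mul_of_nonneg_left (pow_le_pow_left₀ hS hST _) hM)
      calc |γ (j + 1)| * (R ^ (2 * j + 1) / ((2 * j + 1).factorial : ℝ))
          ≤ M * (T ^ 2) ^ (j + 1) * (R ^ (2 * j + 1) / ((2 * j + 1).factorial : ℝ)) :=
            mul_le_mul_of_nonneg_right h1 (by positivity)
        _ = M * T * ((T * R) ^ (2 * j + 1) / ((2 * j + 1).factorial : ℝ)) := by
            rw [mul_pow, ← pow_mul]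
            ring
  have hder : ∀ (j : ℕ) (y : ℝ), y ∈ Metric.ball (0 : ℝ) R →
      HasDerivAt (fun y : ℝ => γ j * (y ^ (2 * j) / ((2 * j).factorial : ℝ))) (g' j y) y := by
    intro j y _
    exact ((hasDerivAt_pow (2 * j) y).div_const _).const_mul _
  have hbd : ∀ (j : ℕ) (y : ℝ), y ∈ Metric.ball (0 : ℝ) R → ‖g' j y‖ ≤ u j := by
    intro j y hy
    have hy' : |y| ≤ R := by
      have := Metric.mem_ball.mp hy
      rw [Real.dist_eq, sub_zero] at this
      exact this.le
    simp only [hg', hu, Real.norm_eq_abs, abs_mul, abs_div, abs_pow, Nat.abs_cast]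
    gcongr
  have hx : x ∈ Metric.ball (0 : ℝ) R := by
    rw [Metric.mem_ball, Real.dist_eq, sub_zero, hR]; linarith
  have h0 : (0 : ℝ) ∈ Metric.ball (0 : ℝ) R := Metric.mem_ball_self (by rw [hR]; positivity)
  have hsum0 : Summable (fun j : ℕ => γ j * ((0 : ℝ) ^ (2 * j) / ((2 * j).factorial : ℝ))) := by
    refine summable_of_ne_finset_zero (s := {0}) ?_
    intro j hj
    have : j ≠ 0 := by simpa using hj
    rw [zero_pow (by omega), zero_div, mul_zero]
  have hmain := hasDerivAt_tsum_of_isPreconnected hsum Metric.isOpen_ball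
    (convex_ball (0 : ℝ) R).isPreconnected hder hbd h0 hsum0 hx
  have hval : ∑' j, g' j x =
      ∑' j : ℕ, γ (j + 1) * (x ^ (2 * j + 1) / ((2 * j + 1).factorial : ℝ)) := by
    have hs : Summable (fun j => g' j x) :=
      Summable.of_norm_bounded hsum (fun j => hbd j x hx)
    rw [hs.tsum_eq_zero_add]
    have : g' 0 x = 0 := by simp [hg']
    rw [this, zero_add]
    refine tsum_congr fun j => ?_
    simp only [hg']
    rw [hstep]
  rw [hval] at hmain
  exact hmain

theorem deriv_KK_eq_phA_proof {p c : ℝ} (hp : 0 < p) (hc' : 0 < c) (x : ℝ) :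
    deriv (KK ((p + 1) / 2) (p / 2) c) x =
      (p + (p + 1 - 2 * c)) * Real.sinh x - (p + 1 - 2 * c) *
      ∑' j : ℕ, PowerSeries.coeff (j + 1) (phA p c 0) *
        (x ^ (2 * j + 1) / ((2 * j + 1).factorial : ℝ)) := by
  obtain ⟨R, hR, he⟩ := Pool.Agent.R906.KB.eA_bound p hc'
  have hb : ∀ j, |PowerSeries.coeff j (phA p c 0)| ≤ 2 ^ (0 + 1) * (4 * R) ^ j :=
    fun j => (chainA hc').bound hR he j 0
  have hG := deriv_KK_eq_phA_proof_aux (γ := fun j => PowerSeries.coeff j (phA p c 0))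
    (by positivity) (by positivity) hb x
  have hfun : KK ((p + 1) / 2) (p / 2) c = fun y => (p + (p + 1 - 2 * c)) * Real.cosh y -
      (p + 1 - 2 * c) * ∑' j : ℕ, PowerSeries.coeff j (phA p c 0) *
        (y ^ (2 * j) / ((2 * j).factorial : ℝ)) := by
    funext y
    exact KK_eq_phA hp hc' y
  rw [hfun]
  exact (((Real.hasDerivAt_cosh x).const_mul _).sub (hG.const_mul _)).deriv

end Pool.Agent.H967.GGC
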