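import Pool.Agent.H967.GGC.Cl2

set_option autoImplicit false

namespace Pool.Agent.H967.GGC
open MeasureTheory Filter Topology Set
open Pool.Agent.R906.KB (Chain JArr eA phA chainA)

/-- P5 -/
theorem KK_deriv_le_proof {p c : ℝ} (hp : 0 < p) (hc' : 0 < c) (hn : 0 < p + 1 - 2 * c) :
    ∃ C : ℝ, ∀ x, 0 < x → deriv (KK ((p + 1) / 2) (p / 2) c) x ≤ C * Real.cosh x := by
  obtain ⟨R, hR, he⟩ := Pool.Agent.R906.KB.eA_bound p hc'
  have hsc : ∀ x : ℝ, Real.sinh x ≤ Real.cosh x := fun x => by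
    have h1 := Real.cosh_sub_sinh x
    have h2 := Real.exp_pos (-x)
    linarith
  by_cases hcase : ∀ k : ℕ, 0 ≤ (2 * (k : ℝ) + 1 - (p + 1 - 2 * c)) *
      (2 * (k : ℝ) + 2 - (p + 1 - 2 * c))
  · have hb : ∀ k, 0 ≤ eA p c (2 * k) * eA p c (2 * k + 1) := by
      intro k
      obtain ⟨q, hq, h1⟩ := Pool.Agent.R906.KB.eA_sign hp hc' (2 * k)
      obtain ⟨q', hq', h2⟩ := Pool.Agent.R906.KB.eA_sign hp hc' (2 * k + 1)
      rw [h1, h2]
      have := hcase k
      push_cast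
      have h3 : q * (2 * (k : ℝ) + 1 - (p + 1 - 2 * c)) *
          (q' * (2 * (k : ℝ) + 1 + 1 - (p + 1 - 2 * c))) = (q * q') *
          ((2 * (k : ℝ) + 1 - (p + 1 - 2 * c)) * (2 * (k : ℝ) + 2 - (p + 1 - 2 * c))) := by
        ring
      rw [h3]
      exact mul_nonneg (by positivity) this
    obtain ⟨C, hC0, hC⟩ := caseA_deriv (chainA (p := p) hc') he hb
    refine ⟨(p + (p + 1 - 2 * c)) + (p + 1 - 2 * c) * C, fun x hx => ?_⟩
    rw [deriv_KK_eq_phA hp hc' x]
    have h1 := mul_le_mul_of_nonneg_left (hC x hx.le) hn.le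
    have h2 := Real.one_le_cosh x
    have h3 := mul_le_mul_of_nonneg_left (hsc x) (show 0 ≤ p + (p + 1 - 2 * c) by linarith)
    have h4 := mul_le_mul_of_nonneg_left h2 (mul_nonneg hn.le hC0)
    linarith
  · push Not at hcase
    obtain ⟨k0, hk0⟩ := hcase
    obtain ⟨δ, hδ, hδ0, hδs⟩ := pivots_B hp hc'
    set n := p + 1 - 2 * c with hndef
    have hk1 : 2 * (k0 : ℝ) + 1 < n := by
      by_contra hcon
      push Not at hcon
      have : 0 ≤ (2 * (k0 : ℝ) + 1 - n) * (2 * (k0 : ℝ) + 2 - n) :=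
        mul_nonneg (by linarith) (by linarith)
      linarith
    have hk2 : n < 2 * (k0 : ℝ) + 2 := by
      by_contra hcon
      push Not at hcon
      have : 0 ≤ (2 * (k0 : ℝ) + 1 - n) * (2 * (k0 : ℝ) + 2 - n) :=
        mul_nonneg_of_nonpos_of_nonpos (by linarith) (by linarith)
      linarith
    have hb : ∀ k, 0 ≤ eA p c (2 * k + 1) * eA p c (2 * k + 2) := by
      intro k
      obtain ⟨q, hq, h1⟩ := Pool.Agent.R906.KB.eA_sign hp hc' (2 * k + 1)
      obtain ⟨q', hq', h2⟩ := Pool.Agent.R906.KB.eA_sign hp hc' (2 * k + 2)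
      rw [h1, h2, ← hndef]
      push_cast
      have h3 : q * (2 * (k : ℝ) + 1 + 1 - n) * (q' * (2 * (k : ℝ) + 2 + 1 - n)) = (q * q') *
          ((2 * (k : ℝ) + 2 - n) * (2 * (k : ℝ) + 3 - n)) := by ring
      rw [h3]
      apply mul_nonneg (by positivity)
      rcases Nat.lt_or_ge k k0 with hlt | hge
      · have : (k : ℝ) + 1 ≤ k0 := by exact_mod_cast hlt
        exact mul_nonneg_of_nonpos_of_nonpos (by linarith) (by linarith)
      · have : (k0 : ℝ) ≤ k := by exact_mod_cast hge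
        exact mul_nonneg (by linarith) (by linarith)
    have he0 : eA p c 0 ≤ 0 := by
      obtain ⟨q, hq, h1⟩ := Pool.Agent.R906.KB.eA_sign hp hc' 0
      rw [h1, ← hndef]
      have : (0 : ℝ) ≤ k0 := Nat.cast_nonneg _
      push_cast
      exact mul_nonpos_of_nonneg_of_nonpos hq.le (by linarith)
    refine ⟨(p + n) - n * eA p c 0, fun x hx => ?_⟩
    have h0 := caseB_deriv (chainA (p := p) hc') he hb he0 hδ hδ0 hδs hx.le
    rw [deriv_KK_eq_phA hp hc' x, ← hndef]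
    have h1 := mul_le_mul_of_nonneg_left h0 hn.le
    have hnn : 0 ≤ n * (-eA p c 0) := mul_nonneg hn.le (by linarith)
    have h3 := mul_le_mul_of_nonneg_left (hsc x) (show 0 ≤ (p + n) - n * eA p c 0 by nlinarith)
    linarith

end Pool.Agent.H967.GGC
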