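import Pool.Agent.H967.GGC.Cl1

set_option autoImplicit false

namespace Pool.Agent.H967.GGC
open MeasureTheory Filter Topology Set

/-- the constant coefficient of a power series which vanishes on `(0,r)` -/
theorem stieltjes_w_zero {a : ℕ → ℝ} {C S r : ℝ} (hC : 0 ≤ C) (hS : 1 ≤ S) (hr : 0 < r)
    (ha : ∀ k, |a k| ≤ C * S ^ k) (h : ∀ u : ℝ, 0 < u → u < r → HasSum (fun k => a k * u ^ k) 0) :
    a 0 = 0 := by
  by_contra hne
  have hpos : 0 < |a 0| := abs_pos.2 hne
  have hS0 : 0 < S := by linarith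
  obtain ⟨u, hu0, hur, huS, huC⟩ : ∃ u : ℝ, 0 < u ∧ u < r ∧ S * u ≤ 1 / 2 ∧
      2 * C * S * u < |a 0| := by
    refine ⟨min (r / 2) (min (1 / (2 * S)) (|a 0| / (4 * (C + 1) * S))), ?_, ?_, ?_, ?_⟩
    · positivity
    · exact lt_of_le_of_lt (min_le_left _ _) (by linarith)
    · have h1 : min (r / 2) (min (1 / (2 * S)) (|a 0| / (4 * (C + 1) * S))) ≤ 1 / (2 * S) :=
        (min_le_right _ _).trans (min_le_left _ _)
      calc S * min (r / 2) (min (1 / (2 * S)) (|a 0| / (4 * (C + 1) * S)))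
          ≤ S * (1 / (2 * S)) := mul_le_mul_of_nonneg_left h1 hS0.le
        _ = 1 / 2 := by field_simp
    · have h1 : min (r / 2) (min (1 / (2 * S)) (|a 0| / (4 * (C + 1) * S))) ≤
          |a 0| / (4 * (C + 1) * S) := (min_le_right _ _).trans (min_le_right _ _)
      calc 2 * C * S * min (r / 2) (min (1 / (2 * S)) (|a 0| / (4 * (C + 1) * S)))
          ≤ 2 * C * S * (|a 0| / (4 * (C + 1) * S)) :=
            mul_le_mul_of_nonneg_left h1 (by positivity)
        _ = |a 0| * (C / (2 * (C + 1))) := by field_simp; ring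
        _ < |a 0| * 1 := by
            apply mul_lt_mul_of_pos_left _ hpos
            rw [div_lt_one (by positivity)]
            linarith
        _ = |a 0| := mul_one _
  have h1 := h u hu0 hur
  have h2 : HasSum (fun k => a (k + 1) * u ^ (k + 1)) (0 - a 0) := by
    have h3 := (hasSum_nat_add_iff' 1).2 h1
    rw [Finset.sum_range_one, pow_zero, mul_one] at h3
    exact h3
  have h3 : HasSum (fun k : ℕ => C * (S * u) * (1 / 2) ^ k) (C * (S * u) * (1 - 1 / 2)⁻¹) :=
    (hasSum_geometric_of_lt_one (by norm_num) (by norm_num)).mul_left _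
  have h4 : |0 - a 0| ≤ C * (S * u) * (1 - 1 / 2)⁻¹ := by
    rw [← Real.norm_eq_abs, ← h2.tsum_eq]
    refine tsum_of_norm_bounded h3 fun k => ?_
    rw [Real.norm_eq_abs, abs_mul, abs_of_nonneg (pow_nonneg hu0.le (k + 1))]
    calc |a (k + 1)| * u ^ (k + 1) ≤ C * S ^ (k + 1) * u ^ (k + 1) :=
          mul_le_mul_of_nonneg_right (ha (k + 1)) (by positivity)
      _ = C * (S * u) * (S * u) ^ k := by rw [mul_pow]; ring
      _ ≤ C * (S * u) * (1 / 2) ^ k :=
          mul_le_mul_of_nonneg_left (pow_le_pow_left₀ (by positivity) huS k) (by positivity)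
  rw [zero_sub, abs_neg] at h4
  have h5 : C * (S * u) * (1 - 1 / 2)⁻¹ = 2 * C * S * u := by
    norm_num
    ring
  linarith

/-- uniqueness of the coefficients of a power series on `(0,r)` -/
theorem stieltjes_w_uniq (k : ℕ) : ∀ {a : ℕ → ℝ} {C S r : ℝ}, 0 ≤ C → 1 ≤ S → 0 < r →
    (∀ k, |a k| ≤ C * S ^ k) → (∀ u : ℝ, 0 < u → u < r → HasSum (fun k => a k * u ^ k) 0) →
    a k = 0 := by
  induction k with
  | zero => exact fun hC hS hr ha h => stieltjes_w_zero hC hS hr ha h
  | succ k ih =>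
    intro a C S r hC hS hr ha h
    have h0 := stieltjes_w_zero hC hS hr ha h
    refine ih (a := fun k => a (k + 1)) (C := C * S) (S := S) (r := r) (by positivity) hS hr
      (fun k => ?_) (fun u hu hur => ?_)
    · refine (ha (k + 1)).trans (le_of_eq ?_)
      rw [pow_succ]
      ring
    · have h3 := (hasSum_nat_add_iff' 1).2 (h u hu hur)
      rw [Finset.sum_range_one, pow_zero, mul_one, h0, sub_zero] at h3
      have h4 := h3.mul_left (u⁻¹)
      rw [mul_zero] at h4
      have e : (fun k => u⁻¹ * (a (k + 1) * u ^ (k + 1))) = fun k => a (k + 1) * u ^ k := by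
        funext k
        rw [pow_succ]
        field_simp
      rw [e] at h4
      exact h4

/-- the moment expansion -/
theorem stieltjes_w_mom (σ : Measure ℝ) [IsProbabilityMeasure σ] (hσ : σ (Icc (-1) 1)ᶜ = 0) :
    (∀ k : ℕ, |∫ x, x ^ k ∂σ| ≤ 1) ∧ ∀ u : ℝ, |u| < 1 →
      Integrable (fun x => 1 / (1 - u * x)) σ ∧
      HasSum (fun k : ℕ => (∫ x, x ^ k ∂σ) * u ^ k) (∫ x, 1 / (1 - u * x) ∂σ) := by
  have hae : ∀ᵐ x ∂σ, |x| ≤ 1 := by
    rw [ae_iff]
    refine measure_mono_null ?_ hσ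
    intro x hx hx2
    exact hx (abs_le.2 hx2)
  have hint : ∀ k : ℕ, Integrable (fun x : ℝ => x ^ k) σ := by
    intro k
    refine Integrable.of_bound (by fun_prop) 1 ?_
    filter_upwards [hae] with x hx
    rw [norm_pow, Real.norm_eq_abs]
    exact pow_le_one₀ (abs_nonneg x) hx
  refine ⟨fun k => ?_, fun u hu => ?_⟩
  · have h1 : ‖∫ x, x ^ k ∂σ‖ ≤ ∫ x, ‖x ^ k‖ ∂σ := norm_integral_le_integral_norm _
    rw [Real.norm_eq_abs] at h1
    refine h1.trans ?_
    have h2 : ∫ x, ‖x ^ k‖ ∂σ ≤ ∫ _x, (1 : ℝ) ∂σ := by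
      refine integral_mono_ae (hint k).norm (integrable_const 1) ?_
      filter_upwards [hae] with x hx
      rw [norm_pow, Real.norm_eq_abs]
      exact pow_le_one₀ (abs_nonneg x) hx
    refine h2.trans (le_of_eq ?_)
    simp
  · have hb : ∀ᵐ x ∂σ, ‖1 / (1 - u * x)‖ ≤ 1 / (1 - |u|) := by
      filter_upwards [hae] with x hx
      have h1 : |u * x| ≤ |u| := by
        rw [abs_mul]
        exact mul_le_of_le_one_right (abs_nonneg u) hx
      have h2 : 1 - |u| ≤ 1 - u * x := by
        have := le_abs_self (u * x)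
        linarith
      have h3 : 0 < 1 - |u| := by linarith
      rw [Real.norm_eq_abs, abs_of_pos (by apply one_div_pos.2; linarith)]
      exact one_div_le_one_div_of_le h3 h2
    have hms : Measurable (fun x : ℝ => 1 / (1 - u * x)) := by fun_prop
    refine ⟨Integrable.of_bound hms.aestronglyMeasurable _ hb, ?_⟩
    have h1 := hasSum_integral_of_summable_integral_norm (μ := σ)
      (F := fun (k : ℕ) (x : ℝ) => x ^ k * u ^ k) (fun k => (hint k).mul_const _) (by
        refine Summable.of_nonneg_of_le (fun k => integral_nonneg fun x => norm_nonneg _)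
          (fun k => ?_) (summable_geometric_of_lt_one (abs_nonneg u) hu)
        have h2 : ∫ x, ‖x ^ k * u ^ k‖ ∂σ ≤ ∫ _x, |u| ^ k ∂σ := by
          refine integral_mono_ae ((hint k).mul_const _).norm (integrable_const _) ?_
          filter_upwards [hae] with x hx
          rw [norm_mul, norm_pow, norm_pow, Real.norm_eq_abs, Real.norm_eq_abs]
          exact mul_le_of_le_one_left (by positivity) (pow_le_one₀ (abs_nonneg x) hx)
        refine h2.trans (le_of_eq ?_)
        simp)
    have h2 : ∫ x, ∑' k : ℕ, x ^ k * u ^ k ∂σ = ∫ x, 1 / (1 - u * x) ∂σ := by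
      refine integral_congr_ae ?_
      filter_upwards [hae] with x hx
      have h3 : |x * u| < 1 := by
        rw [abs_mul]
        exact lt_of_le_of_lt (mul_le_of_le_one_left (abs_nonneg u) hx) hu
      have h4 : ∑' k : ℕ, x ^ k * u ^ k = ∑' k : ℕ, (x * u) ^ k :=
        tsum_congr fun k => (mul_pow x u k).symm
      rw [h4, tsum_geometric_of_abs_lt_one h3, one_div, mul_comm x u]
    rw [h2] at h1
    simp only [integral_mul_const] at h1
    exact h1

/-- the even part -/
theorem stieltjes_w_even (σ : Measure ℝ) [IsProbabilityMeasure σ] (hσ : σ (Icc (-1) 1)ᶜ = 0)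
    (hodd : ∀ n : ℕ, ∫ x, x ^ (2 * n + 1) ∂σ = 0) {u : ℝ} (hu : |u| < 1) :
    ∫ x, 1 / (1 - u * x) ∂σ = ∫ x, 1 / (1 - u ^ 2 * x ^ 2) ∂σ := by
  obtain ⟨-, hm⟩ := stieltjes_w_mom σ hσ
  have hae : ∀ᵐ x ∂σ, |x| ≤ 1 := by
    rw [ae_iff]
    refine measure_mono_null ?_ hσ
    intro x hx hx2
    exact hx (abs_le.2 hx2)
  obtain ⟨i1, s1⟩ := hm u hu
  obtain ⟨i2, s2⟩ := hm (-u) (by rw [abs_neg]; exact hu)
  have h1 : (fun k : ℕ => (∫ x, x ^ k ∂σ) * (-u) ^ k) = fun k : ℕ => (∫ x, x ^ k ∂σ) * u ^ k := by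
    funext k
    rcases Nat.even_or_odd' k with ⟨n, rfl | rfl⟩
    · rw [Even.neg_pow (even_two_mul n)]
    · rw [hodd n, zero_mul, zero_mul]
  rw [h1] at s2
  have h2 : ∫ x, 1 / (1 - u * x) ∂σ = ∫ x, 1 / (1 - -u * x) ∂σ := s1.unique s2
  have h3 : ∫ x, (1 / (1 - u * x) + 1 / (1 - -u * x)) ∂σ =
      2 * ∫ x, 1 / (1 - u * x) ∂σ := by
    rw [integral_add i1 i2, ← h2]
    ring
  have h4 : ∫ x, (1 / (1 - u * x) + 1 / (1 - -u * x)) ∂σ =
      ∫ x, 2 * (1 / (1 - u ^ 2 * x ^ 2)) ∂σ := by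
    refine integral_congr_ae ?_
    filter_upwards [hae] with x hx
    have h5 : |u * x| < 1 := by
      rw [abs_mul]
      exact lt_of_le_of_lt (mul_le_of_le_one_right (abs_nonneg u) hx) hu
    obtain ⟨h6, h7⟩ := abs_lt.1 h5
    have h8 : 1 - u * x ≠ 0 := by linarith
    have h9 : 1 - -u * x ≠ 0 := by linarith
    have h10 : 1 - u ^ 2 * x ^ 2 ≠ 0 := by
      have : 1 - u ^ 2 * x ^ 2 = (1 - u * x) * (1 - -u * x) := by ring
      rw [this]
      exact mul_ne_zero h8 h9
    rw [div_add_div _ _ h8 h9, mul_one_div, div_eq_div_iff (mul_ne_zero h8 h9) h10]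
    ring
  rw [h4, integral_const_mul] at h3
  linarith

/-- Q0 -/
theorem stieltjes_w_proof {α β γ : ℝ} (hα : 0 < α) (hβ : 0 < β) (h1 : α ≤ γ) (h2 : β ≤ γ) :
    ∃ σ : Measure ℝ, IsProbabilityMeasure σ ∧ σ (Icc 0 1)ᶜ = 0 ∧ ∀ w : ℝ, 0 < w → w < 1 →
      F α (β + 1) γ w / F α β γ w = ∫ t, 1 / (1 - w * t) ∂σ := by
  have hγ : 0 < γ := by linarith
  obtain ⟨σ, hp, hσ, hS⟩ := stieltjes hα hβ h1 h2
  obtain ⟨hm1, hm⟩ := stieltjes_w_mom σ hσ
  have hH : ∀ u : ℝ, 0 < u → u < 1 →
      F α (β + 1) γ (u ^ 2) / F α β γ (u ^ 2) = ∫ x, 1 / (1 - u * x) ∂σ := by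
    intro u hu0 hu1
    have h3 := hS (1 / u) ((one_lt_div hu0).2 hu1)
    have h4 : (1 : ℝ) / (1 / u) ^ 2 = u ^ 2 := by
      field_simp
    rw [h4] at h3
    have h5 : ∫ x, 1 / (1 / u - x) ∂σ = u * ∫ x, 1 / (1 - u * x) ∂σ := by
      rw [← integral_const_mul]
      refine integral_congr_ae (Eventually.of_forall fun x => ?_)
      show 1 / (1 / u - x) = u * (1 / (1 - u * x))
      have h6 : 1 / u - x = (1 - u * x) / u := by
        field_simp
      rw [h6, one_div_div, mul_one_div]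
    rw [h5] at h3
    have h6 : F α (β + 1) γ (u ^ 2) / (1 / u * F α β γ (u ^ 2)) =
        u * (F α (β + 1) γ (u ^ 2) / F α β γ (u ^ 2)) := by
      rw [one_div, ← div_div, div_inv_eq_mul]
      ring
    rw [h6] at h3
    exact mul_left_cancel₀ hu0.ne' h3
  -- the odd moments vanish
  obtain ⟨r, hr, hgen⟩ := kap_gen hα hβ hγ
  obtain ⟨M, S, hM, hS1, hkb⟩ := kap_bound hα hβ hγ
  have hodd : ∀ n : ℕ, ∫ x, x ^ (2 * n + 1) ∂σ = 0 := by
    obtain ⟨a, had⟩ : ∃ a : ℕ → ℝ, a = fun k => 2 * β * (∫ x, x ^ k ∂σ) -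
        (if Even k then kap α β γ (k / 2) else 0) := ⟨_, rfl⟩
    have ha : ∀ k, |a k| ≤ (2 * β + M) * S ^ k := by
      intro k
      have h3 : |2 * β * (∫ x, x ^ k ∂σ)| ≤ 2 * β * S ^ k := by
        rw [abs_mul, abs_of_pos (by linarith : 0 < 2 * β)]
        exact mul_le_mul_of_nonneg_left ((hm1 k).trans (one_le_pow₀ hS1)) (by linarith)
      have h4 : |if Even k then kap α β γ (k / 2) else 0| ≤ M * S ^ k := by
        split_ifs
        · refine (hkb (k / 2)).trans (mul_le_mul_of_nonneg_left ?_ hM.le)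
          exact pow_le_pow_right₀ hS1 (Nat.div_le_self k 2)
        · rw [abs_zero]
          have : 0 < S := by linarith
          positivity
      rw [had]
      calc |2 * β * (∫ x, x ^ k ∂σ) - (if Even k then kap α β γ (k / 2) else 0)|
          ≤ |2 * β * (∫ x, x ^ k ∂σ)| + |if Even k then kap α β γ (k / 2) else 0| := abs_sub _ _
        _ ≤ 2 * β * S ^ k + M * S ^ k := add_le_add h3 h4
        _ = (2 * β + M) * S ^ k := by ring
    have hsum : ∀ u : ℝ, 0 < u → u < min r 1 → HasSum (fun k => a k * u ^ k) 0 := by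
      intro u hu0 hur
      have hu1 : u < 1 := lt_of_lt_of_le hur (min_le_right _ _)
      have hur' : u < r := lt_of_lt_of_le hur (min_le_left _ _)
      have hu2 : |u ^ 2| < r := by
        rw [abs_of_pos (by positivity)]
        nlinarith
      have h3 := (hm u (by rw [abs_of_pos hu0]; exact hu1)).2.mul_left (2 * β)
      have h4 := hgen (u ^ 2) hu2
      have h5 : HasSum (fun k : ℕ => (if Even k then kap α β γ (k / 2) else 0) * u ^ k)
          (2 * β * F α (β + 1) γ (u ^ 2) / F α β γ (u ^ 2)) := by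
        have hinj : Function.Injective (fun n : ℕ => 2 * n) := fun a b h => by
          simpa using h
        rw [← hinj.hasSum_iff]
        · have e : (fun k : ℕ => (if Even k then kap α β γ (k / 2) else 0) * u ^ k) ∘
              (fun n : ℕ => 2 * n) = fun n => kap α β γ n * (u ^ 2) ^ n := by
            funext n
            show (if Even (2 * n) then kap α β γ (2 * n / 2) else 0) * u ^ (2 * n) = _
            rw [if_pos (even_two_mul n), Nat.mul_div_cancel_left n two_pos, pow_mul]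
          rw [e]
          exact h4
        · intro k hk
          have h6 : ¬ Even k := by
            rintro ⟨n, rfl⟩
            exact hk ⟨n, two_mul n⟩
          rw [if_neg h6, zero_mul]
      have h6 := h3.sub h5
      have h7 : 2 * β * ∫ x, 1 / (1 - u * x) ∂σ -
          2 * β * F α (β + 1) γ (u ^ 2) / F α β γ (u ^ 2) = 0 := by
        rw [← hH u hu0 hu1]
        ring
      rw [h7] at h6
      have h8 : (fun k => a k * u ^ k) = fun k : ℕ => 2 * β * ((∫ x, x ^ k ∂σ) * u ^ k) -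
          (if Even k then kap α β γ (k / 2) else 0) * u ^ k := by
        funext k
        rw [had]
        ring
      rw [h8]
      exact h6
    intro n
    have h3 := stieltjes_w_uniq (2 * n + 1) (a := a) (C := 2 * β + M) (S := S) (r := min r 1)
      (by linarith) hS1 (lt_min hr one_pos) ha hsum
    rw [had] at h3
    have h4 : ¬ Even (2 * n + 1) := by
      rw [Nat.not_even_iff_odd]
      exact odd_two_mul_add_one n
    simp only [h4, if_false, sub_zero] at h3
    rcases mul_eq_zero.1 h3 with h5 | h5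
    · exfalso
      linarith
    · exact h5
  refine ⟨σ.map (fun x => x ^ 2), Measure.isProbabilityMeasure_map (by fun_prop), ?_, ?_⟩
  · rw [Measure.map_apply (by fun_prop) measurableSet_Icc.compl]
    refine measure_mono_null ?_ hσ
    intro x hx hx2
    apply hx
    obtain ⟨h3, h4⟩ := hx2
    exact ⟨sq_nonneg x, by nlinarith⟩
  · intro w hw0 hw1
    have hms : Measurable (fun t : ℝ => 1 / (1 - w * t)) := by fun_prop
    rw [integral_map (by fun_prop) hms.aestronglyMeasurable]
    have hu0 : 0 < Real.sqrt w := Real.sqrt_pos.2 hw0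
    have hu1 : Real.sqrt w < 1 := by
      rw [Real.sqrt_lt' one_pos]
      linarith
    have hu2 : Real.sqrt w ^ 2 = w := Real.sq_sqrt hw0.le
    have h3 := hH (Real.sqrt w) hu0 hu1
    have h4 := stieltjes_w_even σ hσ hodd (u := Real.sqrt w) (by rw [abs_of_pos hu0]; exact hu1)
    rw [hu2] at h3 h4
    rw [h3, h4]

end Pool.Agent.H967.GGC
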