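import Pool.Agent.H967.GGC.Cl1

set_option autoImplicit false

/-!
# Leaf Q1: the quadratic transformation
-/

namespace Pool.Agent.H967.GGC
open MeasureTheory Filter Topology Set

/-- rising factorial -/
noncomputable def quad_transf_P (x : ℝ) (n : ℕ) : ℝ := ∏ i ∈ Finset.range n, (x + i)

theorem quad_transf_P_zero (x : ℝ) : quad_transf_P x 0 = 1 := by simp [quad_transf_P]

theorem quad_transf_P_succ (x : ℝ) (n : ℕ) :
    quad_transf_P x (n + 1) = quad_transf_P x n * (x + n) := by
  unfold quad_transf_P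
  rw [Finset.prod_range_succ]

theorem quad_transf_P_succ' (x : ℝ) (n : ℕ) :
    quad_transf_P x (n + 1) = x * quad_transf_P (x + 1) n := by
  unfold quad_transf_P
  rw [Finset.prod_range_succ', mul_comm]
  congr 1
  · simp
  · apply Finset.prod_congr rfl
    intro i _
    push_cast
    ring

theorem quad_transf_P_add (x : ℝ) (m n : ℕ) :
    quad_transf_P x (m + n) = quad_transf_P x m * quad_transf_P (x + m) n := by
  induction n with
  | zero => simp [quad_transf_P_zero]
  | succ n ih =>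
    rw [← add_assoc, quad_transf_P_succ, ih, quad_transf_P_succ]
    push_cast
    ring

theorem quad_transf_P_pos {x : ℝ} (hx : 0 < x) (n : ℕ) : 0 < quad_transf_P x n := by
  unfold quad_transf_P
  exact Finset.prod_pos fun i _ => by positivity

theorem quad_transf_P_abs {x A : ℝ} (h : |x| ≤ A) (n : ℕ) :
    |quad_transf_P x n| ≤ quad_transf_P A n := by
  unfold quad_transf_P
  rw [Finset.abs_prod]
  refine Finset.prod_le_prod (fun i _ => abs_nonneg _) fun i _ => ?_
  refine (abs_add_le _ _).trans ?_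
  rw [abs_of_nonneg (Nat.cast_nonneg i : (0 : ℝ) ≤ i)]
  linarith

theorem quad_transf_hc (a b : ℝ) {c : ℝ} (hc' : 0 < c) (n : ℕ) :
    hc a b c n = quad_transf_P a n * quad_transf_P b n / (quad_transf_P c n * n.factorial) := by
  induction n with
  | zero => simp [hc_zero, quad_transf_P_zero]
  | succ n ih =>
    rw [hc_succ, ih, quad_transf_P_succ, quad_transf_P_succ, quad_transf_P_succ, Nat.factorial_succ]
    have h1 := (quad_transf_P_pos hc' n).ne'
    have h2 : (n.factorial : ℝ) ≠ 0 := by positivity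
    have h3 : c + (n : ℝ) ≠ 0 := by positivity
    push_cast
    field_simp

theorem quad_transf_dup (a : ℝ) (k : ℕ) :
    quad_transf_P (a / 2) k * quad_transf_P ((a + 1) / 2) k * 4 ^ k = quad_transf_P a (2 * k) := by
  induction k with
  | zero => simp [quad_transf_P_zero]
  | succ k ih =>
    rw [show 2 * (k + 1) = 2 * k + 1 + 1 by ring, quad_transf_P_succ, quad_transf_P_succ,
      quad_transf_P_succ, quad_transf_P_succ, ← ih, pow_succ]
    push_cast
    ring

theorem quad_transf_vand (n : ℕ) : ∀ x c : ℝ, 0 < c →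
    ∑ k ∈ Finset.range (n + 1), (-1 : ℝ) ^ k * (n.choose k) * (quad_transf_P x k / quad_transf_P c k) =
      quad_transf_P (c - x) n / quad_transf_P c n := by
  induction n with
  | zero => intro x c _; simp [quad_transf_P_zero]
  | succ n ih =>
    intro x c hc'
    have h1 := ih x c hc'
    have h2 := ih (x + 1) (c + 1) (by linarith)
    rw [Finset.sum_range_succ']
    have e1 : ∀ k, (-1 : ℝ) ^ (k + 1) * ((n + 1).choose (k + 1) : ℕ) *
        (quad_transf_P x (k + 1) / quad_transf_P c (k + 1)) =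
        (-1 : ℝ) ^ (k + 1) * (n.choose (k + 1)) *
          (quad_transf_P x (k + 1) / quad_transf_P c (k + 1)) +
        -(x / c) * ((-1 : ℝ) ^ k * (n.choose k) *
          (quad_transf_P (x + 1) k / quad_transf_P (c + 1) k)) := by
      intro k
      rw [Nat.choose_succ_succ, quad_transf_P_succ', quad_transf_P_succ', pow_succ]
      have h3 := (quad_transf_P_pos (show 0 < c + 1 by linarith) k).ne'
      push_cast
      field_simp
      ring
    rw [Finset.sum_congr rfl (fun k _ => e1 k), Finset.sum_add_distrib, ← Finset.mul_sum, h2]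
    have e2 : ∑ k ∈ Finset.range (n + 1), (-1 : ℝ) ^ (k + 1) * (n.choose (k + 1)) *
          (quad_transf_P x (k + 1) / quad_transf_P c (k + 1)) +
          (-1 : ℝ) ^ 0 * ((n + 1).choose 0 : ℕ) * (quad_transf_P x 0 / quad_transf_P c 0) =
        quad_transf_P (c - x) n / quad_transf_P c n := by
      rw [← h1]
      have e3 := Finset.sum_range_succ' (fun k => (-1 : ℝ) ^ k * (n.choose k) *
        (quad_transf_P x k / quad_transf_P c k)) (n + 1)
      have e4 := Finset.sum_range_succ (fun k => (-1 : ℝ) ^ k * (n.choose k) *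
        (quad_transf_P x k / quad_transf_P c k)) (n + 1)
      rw [Nat.choose_succ_self] at e4
      rw [e4] at e3
      simp only [Nat.choose_zero_right] at e3 ⊢
      rw [← e3]
      simp
    have e5 : c + 1 - (x + 1) = c - x := by ring
    rw [e5]
    have hP : (quad_transf_P (c + 1) n) ≠ 0 := (quad_transf_P_pos (by linarith) n).ne'
    have hPc : (quad_transf_P c n) ≠ 0 := (quad_transf_P_pos hc' n).ne'
    have h6 : quad_transf_P c n * (c + n) = c * quad_transf_P (c + 1) n := by
      rw [← quad_transf_P_succ, quad_transf_P_succ']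
    have hcn : c + (n : ℝ) ≠ 0 := by positivity
    calc _ = (∑ k ∈ Finset.range (n + 1), (-1 : ℝ) ^ (k + 1) * (n.choose (k + 1)) *
          (quad_transf_P x (k + 1) / quad_transf_P c (k + 1)) +
          (-1 : ℝ) ^ 0 * ((n + 1).choose 0 : ℕ) * (quad_transf_P x 0 / quad_transf_P c 0)) +
          -(x / c) * (quad_transf_P (c - x) n / quad_transf_P (c + 1) n) := by ring
      _ = quad_transf_P (c - x) n / quad_transf_P c n +
          -(x / c) * (quad_transf_P (c - x) n / quad_transf_P (c + 1) n) := by rw [e2]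
      _ = quad_transf_P (c - x) (n + 1) / quad_transf_P c (n + 1) := by
          rw [quad_transf_P_succ, quad_transf_P_succ]
          have h7 : quad_transf_P (c + 1) n = quad_transf_P c n * (c + n) / c := by
            rw [h6]; field_simp
          rw [h7]
          field_simp
          ring

/-- reflection -/
theorem quad_transf_refl (x : ℝ) (n : ℕ) :
    (-1 : ℝ) ^ n * quad_transf_P (1 - x - n) n = quad_transf_P x n := by
  unfold quad_transf_P
  rw [← Finset.prod_range_reflect (fun i : ℕ => x + (i : ℝ)) n]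
  rw [← Finset.card_range n, ← Finset.prod_const, Finset.card_range, ← Finset.prod_mul_distrib]
  refine Finset.prod_congr rfl fun i hi => ?_
  rw [Finset.mem_range] at hi
  rw [Nat.cast_sub (by omega), Nat.cast_sub (by omega)]
  push_cast
  ring

/-- the coefficient of `z ^ n` -/
theorem quad_transf_coef {a b : ℝ} (hc' : 0 < 1 + a - b) (n : ℕ) :
    ∑ p ∈ Finset.HasAntidiagonal.antidiagonal n, hc (a / 2) ((a + 1) / 2) (1 + a - b) p.1 * 4 ^ p.1 *
      ((-1) ^ p.2 * quad_transf_P (a + (2 * p.1 : ℕ)) p.2 / p.2.factorial) = hc a b (1 + a - b) n := by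
  rw [Finset.Nat.sum_antidiagonal_eq_sum_range_succ_mk]
  have hn : (n.factorial : ℝ) ≠ 0 := by positivity
  have key : ∀ k ∈ Finset.range n.succ, hc (a / 2) ((a + 1) / 2) (1 + a - b) k * 4 ^ k *
      ((-1) ^ (n - k) * quad_transf_P (a + (2 * k : ℕ)) (n - k) / (n - k).factorial) =
      ((-1) ^ n * quad_transf_P a n / n.factorial) * ((-1 : ℝ) ^ k * (n.choose k) *
        (quad_transf_P (a + n) k / quad_transf_P (1 + a - b) k)) := by
    intro k hk
    have hk' : k ≤ n := Nat.lt_succ_iff.1 (Finset.mem_range.1 hk)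
    rw [quad_transf_hc _ _ hc']
    have hP := (quad_transf_P_pos hc' k).ne'
    have hk1 : (k.factorial : ℝ) ≠ 0 := by positivity
    have hk2 : ((n - k).factorial : ℝ) ≠ 0 := by positivity
    have h1 : quad_transf_P (a / 2) k * quad_transf_P ((a + 1) / 2) k * 4 ^ k *
        quad_transf_P (a + (2 * k : ℕ)) (n - k) = quad_transf_P a n * quad_transf_P (a + n) k := by
      rw [quad_transf_dup, ← quad_transf_P_add, ← quad_transf_P_add]
      congr 1
      omega
    have h2 : (n.choose k : ℝ) = n.factorial / (k.factorial * (n - k).factorial) := by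
      rw [Nat.cast_choose ℝ hk']
    have h3 : (-1 : ℝ) ^ (n - k) = (-1) ^ n * (-1) ^ k := by
      rw [← pow_add]
      have : n + k = (n - k) + 2 * k := by omega
      rw [this, pow_add, pow_mul]
      simp
    rw [h2, h3]
    calc _ = (quad_transf_P (a / 2) k * quad_transf_P ((a + 1) / 2) k * 4 ^ k *
        quad_transf_P (a + (2 * k : ℕ)) (n - k)) * ((-1) ^ n * (-1) ^ k) /
        (quad_transf_P (1 + a - b) k * k.factorial * (n - k).factorial) := by
          field_simp
      _ = _ := by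
          rw [h1]
          field_simp
  rw [Finset.sum_congr rfl key, ← Finset.mul_sum, quad_transf_vand n _ _ hc', quad_transf_hc _ _ hc']
  have h4 : 1 + a - b - (a + n) = 1 - b - n := by ring
  rw [h4]
  have h5 := quad_transf_refl b n
  rw [← h5]
  have hP := (quad_transf_P_pos hc' n).ne'
  field_simp

/-- the binomial coefficients -/
theorem quad_transf_choose (r : ℝ) (n : ℕ) :
    Ring.choose r n = (∏ i ∈ Finset.range n, (r - i)) / n.factorial := by
  have h := Ring.descPochhammer_eq_factorial_smul_choose r n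
  rw [← Polynomial.aeval_eq_smeval, Polynomial.aeval_def, Polynomial.eval₂_eq_eval_map,
    descPochhammer_map, descPochhammer_eval_eq_prod_range, nsmul_eq_mul] at h
  rw [h]
  have hn : (n.factorial : ℝ) ≠ 0 := by positivity
  field_simp

/-- the binomial series -/
theorem quad_transf_bin (s : ℝ) {z : ℝ} (hz : |z| < 1) :
    HasSum (fun j : ℕ => (-1) ^ j * quad_transf_P s j / j.factorial * z ^ j) ((1 + z) ^ (-s)) := by
  have h := (Real.one_add_rpow_hasFPowerSeriesOnBall_zero (a := -s)).hasSum (y := z) (by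
    rw [Metric.mem_eball, edist_zero_right, ← ofReal_norm, Real.norm_eq_abs]
    exact ENNReal.ofReal_lt_one.2 hz)
  rw [zero_add] at h
  have e : (fun j : ℕ => (-1) ^ j * quad_transf_P s j / j.factorial * z ^ j) =
      fun j : ℕ => binomialSeries ℝ (-s) j fun _ => z := by
    funext j
    rw [binomialSeries_apply, quad_transf_choose, List.ofFn_const, List.prod_replicate, smul_eq_mul]
    congr 2
    unfold quad_transf_P
    have e2 : (-1 : ℝ) ^ j = ∏ _i ∈ Finset.range j, (-1 : ℝ) := by simp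
    rw [e2, ← Finset.prod_mul_distrib]
    exact Finset.prod_congr rfl fun i _ => by ring
  rw [e]
  exact h

theorem quad_transf_hc_le (a b : ℝ) {c : ℝ} (hc' : 0 < c) (k : ℕ) :
    |hc a b c k| ≤ hc (|a| + 1) (|b| + 1) c k := by
  unfold hc
  rw [Finset.abs_prod]
  refine Finset.prod_le_prod (fun i _ => abs_nonneg _) fun i _ => ?_
  have h1 : (0 : ℝ) ≤ i := Nat.cast_nonneg i
  rw [abs_div, abs_mul, abs_of_pos (show (0 : ℝ) < (c + i) * (i + 1) by positivity)]
  refine div_le_div_of_nonneg_right ?_ (by positivity)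
  refine mul_le_mul ?_ ?_ (abs_nonneg _) (by positivity)
  · refine (abs_add_le _ _).trans ?_
    rw [abs_of_nonneg h1]; linarith
  · refine (abs_add_le _ _).trans ?_
    rw [abs_of_nonneg h1]; linarith

theorem quad_transf_rpow {x : ℝ} (hx : 0 < x) (s : ℝ) (k : ℕ) :
    x ^ (-(s + (2 * k : ℕ))) = x ^ (-s) * ((x ^ 2) ^ k)⁻¹ := by
  have e : -(s + ((2 * k : ℕ) : ℝ)) = -s + -((2 * k : ℕ) : ℝ) := by ring
  rw [e, Real.rpow_add hx, Real.rpow_neg hx.le ((2 * k : ℕ) : ℝ), Real.rpow_natCast, pow_mul]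

theorem quad_transf_summable {a c z : ℝ} (hc' : 0 < c) (hz : |z| < 1 / 10) :
    Summable (fun p : ℕ × ℕ => hc (a / 2) ((a + 1) / 2) c p.1 * 4 ^ p.1 *
      ((-1) ^ p.2 * quad_transf_P (a + (2 * p.1 : ℕ)) p.2 / p.2.factorial) * z ^ (p.1 + p.2)) := by
  have hz0 := abs_nonneg z
  have h1z : 0 < 1 - |z| := by linarith
  have hinner : ∀ k : ℕ, HasSum (fun j : ℕ => |hc (a / 2) ((a + 1) / 2) c k * 4 ^ k| *
      (quad_transf_P (|a| + (2 * k : ℕ)) j / j.factorial) * |z| ^ (k + j))
      (|hc (a / 2) ((a + 1) / 2) c k * 4 ^ k| * |z| ^ k * (1 - |z|) ^ (-(|a| + (2 * k : ℕ)))) := by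
    intro k
    have h := (quad_transf_bin (|a| + (2 * k : ℕ)) (z := -|z|)
      (by rw [abs_neg, abs_abs]; linarith)).mul_left (|hc (a / 2) ((a + 1) / 2) c k * 4 ^ k| * |z| ^ k)
    rw [← sub_eq_add_neg] at h
    have e : (fun j : ℕ => |hc (a / 2) ((a + 1) / 2) c k * 4 ^ k| *
      (quad_transf_P (|a| + (2 * k : ℕ)) j / j.factorial) * |z| ^ (k + j)) =
      fun j : ℕ => |hc (a / 2) ((a + 1) / 2) c k * 4 ^ k| * |z| ^ k *
        ((-1) ^ j * quad_transf_P (|a| + (2 * k : ℕ)) j / j.factorial * (-|z|) ^ j) := by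
      funext j
      rw [neg_pow |z| j, pow_add]
      have h2 : ((-1 : ℝ) ^ j) * (-1) ^ j = 1 := by
        rw [← mul_pow]; norm_num
      linear_combination (-(|hc (a / 2) ((a + 1) / 2) c k * 4 ^ k| * |z| ^ k *
        (quad_transf_P (|a| + (2 * k : ℕ)) j / j.factorial) * |z| ^ j)) * h2
    rw [e]
    exact h
  have hPnn : ∀ k j : ℕ, 0 ≤ quad_transf_P (|a| + (2 * k : ℕ)) j := fun k j =>
    (abs_nonneg _).trans (quad_transf_P_abs (x := |a| + (2 * k : ℕ))
      (le_of_eq (abs_of_nonneg (by positivity))) j)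
  have hu : Summable (fun p : ℕ × ℕ => |hc (a / 2) ((a + 1) / 2) c p.1 * 4 ^ p.1| *
      (quad_transf_P (|a| + (2 * p.1 : ℕ)) p.2 / p.2.factorial) * |z| ^ (p.1 + p.2)) := by
    rw [summable_prod_of_nonneg (fun p => by
      have := hPnn p.1 p.2
      positivity)]
    refine ⟨fun k => (hinner k).summable, ?_⟩
    have e : (fun k : ℕ => ∑' j : ℕ, |hc (a / 2) ((a + 1) / 2) c k * 4 ^ k| *
      (quad_transf_P (|a| + (2 * k : ℕ)) j / j.factorial) * |z| ^ (k + j)) =
      fun k : ℕ => (1 - |z|) ^ (-|a|) * (|hc (a / 2) ((a + 1) / 2) c k| *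
        (4 * |z| / (1 - |z|) ^ 2) ^ k) := by
      funext k
      rw [(hinner k).tsum_eq, quad_transf_rpow h1z, abs_mul, abs_of_pos (show (0 : ℝ) < 4 ^ k by positivity),
        div_pow, mul_pow]
      ring
    rw [e]
    refine Summable.mul_left _ ?_
    have hw0 : 0 ≤ 4 * |z| / (1 - |z|) ^ 2 := by positivity
    have hw1 : 4 * |z| / (1 - |z|) ^ 2 < 1 := by
      rw [div_lt_one (by positivity)]
      nlinarith
    have hs := summable_hc (a := |a / 2| + 1) (b := |(a + 1) / 2| + 1) (c := c) (by positivity)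
      (by positivity) hc' (z := 4 * |z| / (1 - |z|) ^ 2) (by rwa [abs_of_nonneg hw0])
    exact Summable.of_nonneg_of_le (fun k => by positivity) (fun k =>
      mul_le_mul_of_nonneg_right (quad_transf_hc_le _ _ hc' k) (pow_nonneg hw0 k)) hs
  refine Summable.of_norm_bounded hu fun p => ?_
  have e1 : |(-1 : ℝ) ^ p.2 * quad_transf_P (a + (2 * p.1 : ℕ)) p.2 / p.2.factorial| =
      |quad_transf_P (a + (2 * p.1 : ℕ)) p.2| / p.2.factorial := by
    rw [abs_div, abs_mul, abs_neg_one_pow, one_mul,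
      abs_of_pos (show (0 : ℝ) < p.2.factorial by positivity)]
  rw [Real.norm_eq_abs, abs_mul, abs_mul (hc (a / 2) ((a + 1) / 2) c p.1 * 4 ^ p.1), e1, abs_pow z]
  refine mul_le_mul_of_nonneg_right (mul_le_mul_of_nonneg_left
    (div_le_div_of_nonneg_right (quad_transf_P_abs ?_ _) (by positivity)) (abs_nonneg _)) (by positivity)
  refine (abs_add_le _ _).trans (le_of_eq ?_)
  rw [abs_of_nonneg (Nat.cast_nonneg (2 * p.1) : (0 : ℝ) ≤ ((2 * p.1 : ℕ) : ℝ))]

/-- Q1 -/
theorem quad_transf_proof {a b : ℝ} (hc' : 0 < 1 + a - b) :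
    ∃ r : ℝ, 0 < r ∧ r < 1 ∧ ∀ z : ℝ, |z| < r → F a b (1 + a - b) z =
      (1 + z) ^ (-a) * F (a / 2) ((a + 1) / 2) (1 + a - b) (4 * z / (1 + z) ^ 2) := by
  refine ⟨1 / 10, by norm_num, by norm_num, fun z hz => ?_⟩
  have h1z : 0 < 1 + z := by
    have := neg_abs_le z
    linarith
  have hS := quad_transf_summable (a := a) hc' hz
  have hk : ∀ k : ℕ, HasSum (fun j : ℕ => hc (a / 2) ((a + 1) / 2) (1 + a - b) k * 4 ^ k *
      ((-1) ^ j * quad_transf_P (a + (2 * k : ℕ)) j / j.factorial) * z ^ (k + j))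
      ((1 + z) ^ (-a) * (hc (a / 2) ((a + 1) / 2) (1 + a - b) k * (4 * z / (1 + z) ^ 2) ^ k)) := by
    intro k
    have h := (quad_transf_bin (a + (2 * k : ℕ)) (z := z) (by linarith)).mul_left
      (hc (a / 2) ((a + 1) / 2) (1 + a - b) k * 4 ^ k * z ^ k)
    rw [quad_transf_rpow h1z] at h
    have e : (fun j : ℕ => hc (a / 2) ((a + 1) / 2) (1 + a - b) k * 4 ^ k *
      ((-1) ^ j * quad_transf_P (a + (2 * k : ℕ)) j / j.factorial) * z ^ (k + j)) =
      fun j : ℕ => hc (a / 2) ((a + 1) / 2) (1 + a - b) k * 4 ^ k * z ^ k *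
        ((-1) ^ j * quad_transf_P (a + (2 * k : ℕ)) j / j.factorial * z ^ j) := by
      funext j
      rw [pow_add]
      ring
    have e2 : (1 + z) ^ (-a) * (hc (a / 2) ((a + 1) / 2) (1 + a - b) k * (4 * z / (1 + z) ^ 2) ^ k) =
        hc (a / 2) ((a + 1) / 2) (1 + a - b) k * 4 ^ k * z ^ k *
          ((1 + z) ^ (-a) * (((1 + z) ^ 2) ^ k)⁻¹) := by
      rw [div_pow, mul_pow]
      ring
    rw [e, e2]
    exact h
  have hsig : ∑' p : ℕ × ℕ, hc (a / 2) ((a + 1) / 2) (1 + a - b) p.1 * 4 ^ p.1 *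
      ((-1) ^ p.2 * quad_transf_P (a + (2 * p.1 : ℕ)) p.2 / p.2.factorial) * z ^ (p.1 + p.2) =
      ∑' n : ℕ, ∑ p ∈ Finset.HasAntidiagonal.antidiagonal n,
        hc (a / 2) ((a + 1) / 2) (1 + a - b) p.1 * 4 ^ p.1 *
      ((-1) ^ p.2 * quad_transf_P (a + (2 * p.1 : ℕ)) p.2 / p.2.factorial) * z ^ (p.1 + p.2) := by
    have h2 := (Finset.HasAntidiagonal.sigmaAntidiagonalEquivProd (A := ℕ)).summable_iff.2 hS
    rw [← (Finset.HasAntidiagonal.sigmaAntidiagonalEquivProd (A := ℕ)).tsum_eq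
      (fun p : ℕ × ℕ => hc (a / 2) ((a + 1) / 2) (1 + a - b) p.1 * 4 ^ p.1 *
      ((-1) ^ p.2 * quad_transf_P (a + (2 * p.1 : ℕ)) p.2 / p.2.factorial) * z ^ (p.1 + p.2))]
    refine (h2.tsum_sigma' (fun n => (hasSum_fintype _).summable)).trans (tsum_congr fun n => ?_)
    exact Finset.tsum_subtype (Finset.HasAntidiagonal.antidiagonal n) (fun p : ℕ × ℕ =>
      hc (a / 2) ((a + 1) / 2) (1 + a - b) p.1 * 4 ^ p.1 *
      ((-1) ^ p.2 * quad_transf_P (a + (2 * p.1 : ℕ)) p.2 / p.2.factorial) * z ^ (p.1 + p.2))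
  calc F a b (1 + a - b) z = ∑' n : ℕ, hc a b (1 + a - b) n * z ^ n := rfl
    _ = ∑' n : ℕ, ∑ p ∈ Finset.HasAntidiagonal.antidiagonal n,
        hc (a / 2) ((a + 1) / 2) (1 + a - b) p.1 * 4 ^ p.1 *
      ((-1) ^ p.2 * quad_transf_P (a + (2 * p.1 : ℕ)) p.2 / p.2.factorial) * z ^ (p.1 + p.2) := by
        refine tsum_congr fun n => ?_
        rw [← quad_transf_coef hc' n, Finset.sum_mul]
        refine Finset.sum_congr rfl fun p hp => ?_
        rw [Finset.HasAntidiagonal.mem_antidiagonal] at hp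
        rw [hp]
    _ = _ := hsig.symm
    _ = ∑' (k : ℕ) (j : ℕ), hc (a / 2) ((a + 1) / 2) (1 + a - b) k * 4 ^ k *
      ((-1) ^ j * quad_transf_P (a + (2 * k : ℕ)) j / j.factorial) * z ^ (k + j) := hS.tsum_prod
    _ = ∑' k : ℕ, (1 + z) ^ (-a) *
        (hc (a / 2) ((a + 1) / 2) (1 + a - b) k * (4 * z / (1 + z) ^ 2) ^ k) :=
        tsum_congr fun k => (hk k).tsum_eq
    _ = (1 + z) ^ (-a) * F (a / 2) ((a + 1) / 2) (1 + a - b) (4 * z / (1 + z) ^ 2) := by
        rw [tsum_mul_left]
        rfl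

end Pool.Agent.H967.GGC
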