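import Pool.Agent.H967.GGC.Dl2

set_option autoImplicit false

namespace Pool.Agent.H967.GGC
open MeasureTheory Filter Topology Set

theorem xi_kap_bound_congr {f g : ℕ → ℝ} {a b : ℝ} (h : HasSum f a) (h1 : ∀ n, g n = f n)
    (h2 : b = a) : HasSum g b := by
  rw [h2, funext h1]; exact h

theorem xi_kap_bound_uniq (d : ℕ → ℝ) (r : ℝ) (hr : 0 < r)
    (h : ∀ z : ℝ, 0 < z → z < r → HasSum (fun n => d n * z ^ n) 0) : ∀ n, d n = 0 := by
  have P : ∀ n : ℕ, (∀ z : ℝ, 0 < z → z < r → HasSum (fun m => d (n + m) * z ^ m) 0) → d n = 0 ∧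
      ∀ z : ℝ, 0 < z → z < r → HasSum (fun m => d (n + 1 + m) * z ^ m) 0 := by
    intro n hn
    have hsh : ∀ z : ℝ, 0 < z → z < r →
        HasSum (fun m => d (n + 1 + m) * z ^ m) (-(d n) / z) := by
      intro z hz hzr
      have h1 := (hasSum_nat_add_iff' 1).2 (hn z hz hzr)
      have h2 := h1.mul_right z⁻¹
      refine xi_kap_bound_congr h2 ?_ ?_
      · intro m
        have : z ≠ 0 := hz.ne'
        rw [pow_succ]
        field_simp
        rw [show n + 1 + m = n + (m + 1) by omega]
      · simp [div_eq_mul_inv]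
    have hd : d n = 0 := by
      have hρ : 0 < r / 2 := by linarith
      have hs := (hsh (r / 2) hρ (by linarith)).summable.abs
      set C : ℝ := ∑' m, |d (n + 1 + m) * (r / 2) ^ m| with hC
      have hC0 : 0 ≤ C := tsum_nonneg fun m => abs_nonneg _
      by_contra hne
      have hpos : 0 < |d n| := abs_pos.2 hne
      have hbd : ∀ z : ℝ, 0 < z → z ≤ r / 2 → |d n| ≤ C * z := by
        intro z hz hz2
        have h3 := hsh z hz (by linarith)
        have h4 : |-(d n) / z| ≤ C := by
          rw [← h3.tsum_eq]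
          have h5 : ∀ m, |d (n + 1 + m) * z ^ m| ≤ |d (n + 1 + m) * (r / 2) ^ m| := by
            intro m
            rw [abs_mul, abs_mul, abs_of_pos (pow_pos hz m), abs_of_pos (pow_pos hρ m)]
            exact mul_le_mul_of_nonneg_left (pow_le_pow_left₀ hz.le hz2 m) (abs_nonneg _)
          have h6 : Summable fun m => |d (n + 1 + m) * z ^ m| :=
            Summable.of_nonneg_of_le (fun m => abs_nonneg _) h5 hs
          calc |∑' m, d (n + 1 + m) * z ^ m| ≤ ∑' m, |d (n + 1 + m) * z ^ m| := by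
                have h7' := norm_tsum_le_tsum_norm (f := fun m => d (n + 1 + m) * z ^ m)
                  (by simpa only [Real.norm_eq_abs] using h6)
                simpa only [Real.norm_eq_abs] using h7'
            _ ≤ C := h6.tsum_le_tsum h5 hs
        rw [abs_div, abs_neg, abs_of_pos hz, div_le_iff₀ hz] at h4
        exact h4
      have hz0 : 0 < min (r / 2) (|d n| / (2 * (C + 1))) := lt_min hρ (by positivity)
      have h7 := hbd _ hz0 (min_le_left _ _)
      have h8 : C * min (r / 2) (|d n| / (2 * (C + 1))) ≤ (C + 1) * (|d n| / (2 * (C + 1))) :=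
        mul_le_mul (by linarith) (min_le_right _ _) hz0.le (by linarith)
      have h9 : (C + 1) * (|d n| / (2 * (C + 1))) = |d n| / 2 := by field_simp
      linarith
    refine ⟨hd, fun z hz hzr => ?_⟩
    have h1 := hsh z hz hzr
    rw [hd] at h1
    simpa using h1
  have Q : ∀ n : ℕ, ∀ z : ℝ, 0 < z → z < r → HasSum (fun m => d (n + m) * z ^ m) 0 := by
    intro n
    induction n with
    | zero => intro z hz hzr; simpa using h z hz hzr
    | succ n ih => exact (P n ih).2
  exact fun n => (P n (Q n)).1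

/-- the generating function of `cos (n θ)` -/
theorem xi_kap_bound_gen (θ z : ℝ) (hz : 0 < z) (hz1 : z < 1) :
    HasSum (fun n : ℕ => Real.cos (n * θ) * z ^ n)
      ((1 - z * Real.cos θ) / (1 - 2 * z * Real.cos θ + z ^ 2)) := by
  have hn : ‖(z : ℂ) * Complex.exp (θ * Complex.I)‖ < 1 := by
    rw [norm_mul, Complex.norm_exp_ofReal_mul_I, mul_one, Complex.norm_real, Real.norm_eq_abs,
      abs_of_pos hz]
    exact hz1
  have h1 := Complex.hasSum_re (hasSum_geometric_of_norm_lt_one hn)
  refine xi_kap_bound_congr h1 ?_ ?_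
  · intro n
    rw [mul_pow, ← Complex.exp_nat_mul]
    have e : (n : ℂ) * (θ * Complex.I) = ((n * θ : ℝ) : ℂ) * Complex.I := by push_cast; ring
    rw [e, ← Complex.ofReal_pow, Complex.re_ofReal_mul, Complex.exp_ofReal_mul_I_re]
    ring
  · rw [Complex.inv_re]
    have e1 : (1 - (z : ℂ) * Complex.exp (θ * Complex.I)).re = 1 - z * Real.cos θ := by
      rw [Complex.sub_re, Complex.one_re, Complex.re_ofReal_mul, Complex.exp_ofReal_mul_I_re]
    have e2 : (1 - (z : ℂ) * Complex.exp (θ * Complex.I)).im = - (z * Real.sin θ) := by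
      rw [Complex.sub_im, Complex.one_im, Complex.im_ofReal_mul, Complex.exp_ofReal_mul_I_im]
      ring
    rw [Complex.normSq_apply, e1, e2]
    congr 1
    have := Real.sin_sq_add_cos_sq θ
    linear_combination (-z ^ 2) * this

theorem xi_kap_bound_proof {μ : ℝ} (hμ : -1 / 4 < μ) (n : ℕ) :
    |kap (μ + 1 / 2) (2 * μ + 1 / 2) (μ + 1) n - 4 * μ| ≤ 1 := by
  obtain ⟨σ, hσp, hσ0, hσ⟩ := stieltjes_w (α := 3 / 4) (β := 1 / 4) (γ := μ + 1) (by norm_num)
    (by norm_num) (by linarith) (by linarith)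
  obtain ⟨r1, hr1, hr11, h2⟩ := quad_log hμ
  obtain ⟨r2, hr2, hr21, h3⟩ := xi_gen hμ
  have hae : ∀ᵐ t ∂σ, t ∈ Icc (0:ℝ) 1 := by
    rw [ae_iff]
    exact hσ0
  obtain ⟨τ, hτ⟩ : ∃ τ : ℕ → ℝ → ℝ, τ = fun (n : ℕ) (t : ℝ) => Real.cos (n * Real.arccos (2 * t - 1)) := ⟨_, rfl⟩
  have hτm : ∀ n, AEStronglyMeasurable (τ n) σ := by
    intro n
    rw [hτ]
    have : Continuous fun t : ℝ => Real.cos ((n : ℝ) * Real.arccos (2 * t - 1)) := by
      have h := Real.continuous_arccos
      fun_prop
    exact this.aestronglyMeasurable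
  have hτb : ∀ n t, |τ n t| ≤ 1 := by
    intro n t
    rw [hτ]
    exact Real.abs_cos_le_one _
  -- the integral of the generating function
  have hgen : ∀ z : ℝ, 0 < z → z < 1 → HasSum (fun n => (∫ t, τ n t ∂σ) * z ^ n)
      (∫ t, (1 - z * (2 * t - 1)) / (1 - 2 * z * (2 * t - 1) + z ^ 2) ∂σ) := by
    intro z hz hz1
    have h := hasSum_integral_of_dominated_convergence (μ := σ) (F := fun n t => τ n t * z ^ n)
      (f := fun t => (1 - z * (2 * t - 1)) / (1 - 2 * z * (2 * t - 1) + z ^ 2))
      (bound := fun n _ => z ^ n)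
      (fun n => (hτm n).mul_const _)
      (fun n => Filter.Eventually.of_forall fun t => by
        rw [norm_mul, Real.norm_eq_abs, Real.norm_eq_abs, abs_of_pos (pow_pos hz n)]
        have := mul_le_mul_of_nonneg_right (hτb n t) (pow_pos hz n).le
        linarith)
      (Filter.Eventually.of_forall fun t => summable_geometric_of_lt_one hz.le hz1)
      (integrable_const _)
      (by
        filter_upwards [hae] with t ht
        have h1 := xi_kap_bound_gen (Real.arccos (2 * t - 1)) z hz hz1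
        rw [Real.cos_arccos (by linarith [ht.1]) (by linarith [ht.2])] at h1
        rw [hτ]
        exact h1)
    refine xi_kap_bound_congr h (fun n => ?_) rfl
    rw [← integral_mul_const]
  -- the value of the integral
  have hval : ∀ z : ℝ, 0 < z → z < r1 → z < 1 →
      4 * μ / (1 - z) + 1 + 2 * ((1 / 2 - μ) *
          (F (1 / 2) (1 / 2 - μ + 1) (μ + 1) z / F (1 / 2) (1 / 2 - μ) (μ + 1) z - 1)) =
        4 * μ / (1 - z) + ∫ t, (1 - z * (2 * t - 1)) / (1 - 2 * z * (2 * t - 1) + z ^ 2) ∂σ := by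
    intro z hz hzr hz1
    obtain ⟨hw0, hw1, h4⟩ := h2 z hz hzr
    have h5 := hσ _ hw0 hw1
    rw [h4, h5]
    obtain ⟨w, hw⟩ : ∃ w : ℝ, w = 4 * z / (1 + z) ^ 2 := ⟨_, rfl⟩
    rw [← hw] at hw0 hw1 ⊢
    have hz2 : 0 < 1 + z := by linarith
    have hint : Integrable (fun t => 1 / (1 - w * t)) σ := by
      refine Integrable.of_bound (C := 1 / (1 - w)) ?_ ?_
      · have : Measurable fun t : ℝ => 1 / (1 - w * t) := by fun_prop
        exact this.aestronglyMeasurable
      · filter_upwards [hae] with t ht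
        have h6 : w * t ≤ w := by nlinarith [ht.1, ht.2]
        have h7 : 0 < 1 - w * t := by linarith
        rw [Real.norm_eq_abs, abs_of_pos (by positivity)]
        exact one_div_le_one_div_of_le (by linarith) (by linarith)
    have h6 : ∫ t, (1 - z * (2 * t - 1)) / (1 - 2 * z * (2 * t - 1) + z ^ 2) ∂σ =
        ∫ t, ((1 / (1 + z) - (1 - z) / (1 + z) * (1 / 2)) +
          (1 - z) / (1 + z) * (1 / 2) * (1 / (1 - w * t))) ∂σ := by
      apply integral_congr_ae
      filter_upwards [hae] with t ht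
      have h8 : 0 < 1 - 2 * z * (2 * t - 1) + z ^ 2 := by
        nlinarith [mul_nonneg hz.le (sub_nonneg.2 ht.2), sq_nonneg (1 - z), mul_pos hz hz,
          sq_pos_of_pos (sub_pos.2 hz1)]
      have h9 : 1 - w * t = (1 - 2 * z * (2 * t - 1) + z ^ 2) / (1 + z) ^ 2 := by
        rw [hw, eq_div_iff (by positivity)]
        have : 4 * z / (1 + z) ^ 2 * t * (1 + z) ^ 2 = 4 * z * t := by field_simp
        linear_combination -this
      rw [h9]
      obtain ⟨D, hD⟩ : ∃ D : ℝ, D = 1 - 2 * z * (2 * t - 1) + z ^ 2 := ⟨_, rfl⟩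
      rw [← hD] at h8 ⊢
      have e1 : (1 / (1 + z) - (1 - z) / (1 + z) * (1 / 2)) = 1 / 2 := by field_simp; ring
      have e2 : (1 - z) / (1 + z) * (1 / 2) * (1 / (D / (1 + z) ^ 2)) =
          (1 - z) * (1 + z) / (2 * D) := by field_simp
      rw [e1, e2, div_add_div _ _ (by norm_num) (by positivity),
        div_eq_div_iff h8.ne' (by positivity), hD]
      ring
    rw [h6, integral_add (integrable_const _) (hint.const_mul _), integral_const,
      integral_const_mul]
    simp only [probReal_univ, one_smul]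
    field_simp
    ring
  have hd := xi_kap_bound_uniq
    (fun n => kap (μ + 1 / 2) (2 * μ + 1 / 2) (μ + 1) n - (4 * μ + ∫ t, τ n t ∂σ)) (min r1 r2)
    (lt_min hr1 hr2) (by
      intro z hz hzr
      have hz1 : z < 1 := lt_trans (lt_of_lt_of_le hzr (min_le_left _ _)) hr11
      have a1 := h3 z hz (lt_of_lt_of_le hzr (min_le_right _ _))
      rw [hval z hz (lt_of_lt_of_le hzr (min_le_left _ _)) hz1] at a1
      have a2 := ((hasSum_geometric_of_lt_one hz.le hz1).mul_left (4 * μ)).add (hgen z hz hz1)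
      refine xi_kap_bound_congr (a1.sub a2) (fun n => ?_) ?_
      · ring
      · rw [div_eq_mul_inv]; ring)
  have h4 := hd n
  have h5 : kap (μ + 1 / 2) (2 * μ + 1 / 2) (μ + 1) n - 4 * μ = ∫ t, τ n t ∂σ := by
    linarith
  rw [h5]
  have h6 := norm_integral_le_of_norm_le_const (μ := σ) (f := τ n) (C := 1)
    (Filter.Eventually.of_forall fun t => hτb n t)
  rw [probReal_univ, mul_one] at h6
  exact h6

end Pool.Agent.H967.GGC
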