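import Pool.Agent.H967.GGC.El2

set_option autoImplicit false

/-!
# The second family: leaf W2
-/

namespace Pool.Agent.H967.GGC
open MeasureTheory Filter Topology Set

/-- W2: `KK x - 4 μ cosh x` as an integral -/
theorem xi_int_proof {μ : ℝ} (hμ : -1 / 4 < μ) {σ : Measure ℝ} [IsProbabilityMeasure σ]
    (h0 : σ (Icc 0 1)ᶜ = 0)
    (hk : ∀ n : ℕ, kap (μ + 1 / 2) (2 * μ + 1 / 2) (μ + 1) n =
        4 * μ + ∫ t, Real.cos (n * Real.arccos (2 * t - 1)) ∂σ) (x : ℝ) :
    KK (μ + 1 / 2) (2 * μ + 1 / 2) (μ + 1) x - 4 * μ * Real.cosh x =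
      ∫ t, Real.cosh (x * √t) * Real.cos (x * √(1 - t)) ∂σ := by
  have hae : ∀ᵐ t ∂σ, t ∈ Icc (0 : ℝ) 1 := by
    rw [ae_iff]
    exact h0
  have hcosh := Real.hasSum_cosh x
  have hcosh' : Summable (fun n : ℕ => x ^ (2 * n) / ((2 * n).factorial : ℝ)) := hcosh.summable
  have hb0 : ∀ n : ℕ, 0 ≤ x ^ (2 * n) / ((2 * n).factorial : ℝ) := by
    intro n
    rw [pow_mul]
    positivity
  have h1 := hasSum_integral_of_dominated_convergence (μ := σ)
    (F := fun (n : ℕ) (t : ℝ) => Real.cos (n * Real.arccos (2 * t - 1)) * (x ^ (2 * n) /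
      ((2 * n).factorial : ℝ)))
    (f := fun t => Real.cosh (x * √t) * Real.cos (x * √(1 - t)))
    (fun n _ => x ^ (2 * n) / ((2 * n).factorial : ℝ))
    (by
      intro n
      apply Continuous.aestronglyMeasurable
      fun_prop)
    (by
      intro n
      refine Eventually.of_forall fun t => ?_
      rw [norm_mul, Real.norm_eq_abs, Real.norm_eq_abs, abs_of_nonneg (hb0 n)]
      exact mul_le_of_le_one_left (hb0 n) (Real.abs_cos_le_one _))
    (Eventually.of_forall fun t => hcosh')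
    (integrable_const _)
    (by
      filter_upwards [hae] with t ht
      exact ker_hasSum ht.1 ht.2 x)
  have h2 := h1.add (hcosh.mul_left (4 * μ))
  have h3 : HasSum (fun n : ℕ => kap (μ + 1 / 2) (2 * μ + 1 / 2) (μ + 1) n * x ^ (2 * n) /
      ((2 * n).factorial : ℝ)) ((∫ t, Real.cosh (x * √t) * Real.cos (x * √(1 - t)) ∂σ) +
        4 * μ * Real.cosh x) := by
    refine h2.congr_fun ?_
    intro n
    rw [hk n, integral_mul_const]
    ring
  unfold KK
  rw [h3.tsum_eq]
  ring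

end Pool.Agent.H967.GGC
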